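import Pool.Agent.MP_6c3157_co.PQ.SpecA

/-! Project PQ, row DBD: size of a determinant at one absolute value. -/

set_option autoImplicit false

namespace Pool.Agent.MP_6c3157_co.PQ

open Finset Pool.Agent.MP_6c3157_co.PD

theorem dbd : DBD := by
  intro K α _ _ _ v ar M f g har h0 h
  have p := v.pos h0
  have e0 := Real.exp_pos (∑ a, f a + ∑ b, g b)
  have t : ∀ π : Equiv.Perm α, v (Equiv.Perm.sign π • ∏ i, M (π i) i) ≤
      Real.exp (∑ a, f a + ∑ b, g b) := fun π => by
    rw [v.map_units_int_smul, map_prod, ← Equiv.sum_comp π f, ← sum_add_distrib, Real.exp_sum]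
    exact prod_le_prod (fun _ _ => v.nonneg _) fun _ _ => h _ _
  rw [Real.log_le_iff_le_exp p, Matrix.det_apply]
  rcases har with rfl | ⟨rfl, u⟩
  · refine (v.sum_le _ _).trans ((sum_le_card_nsmul _ _ _ fun π _ => t π).trans ?_)
    rw [Real.exp_add (_ + _), one_mul, nsmul_eq_mul, mul_comm, card_univ, Fintype.card_perm,
      ← Real.log_pow]
    refine mul_le_mul_of_nonneg_left ?_ e0.le
    have k := Nat.factorial_le_pow (Fintype.card α)
    have := (Fintype.card α).factorial_pos
    rw [Real.exp_log (by exact_mod_cast this.trans_le k)]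
    exact_mod_cast k
  · rw [zero_mul, add_zero]
    exact sum_induction _ (fun x => v x ≤ _) (fun a b k l => (u a b).trans (max_le k l))
      (by rw [map_zero]; exact e0.le) fun π _ => t π

end Pool.Agent.MP_6c3157_co.PQ
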