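import Pool.Agent.MP_6c3157_co.PQ.SpecA

/-! Project PQ, row DBL: the double cells exist. -/

set_option autoImplicit false

namespace Pool.Agent.MP_6c3157_co.PQ

open Finset Pool.Agent.MP_6c3157_co.PD

namespace DblAux

theorem cnt_bd {ξ t : ℝ} (hξ : 0 < ξ) (ht : 0 ≤ t) (n : ℕ) :
    (∑ k : Fin n, if (((k : ℕ) : ℝ) + 1) * ξ ≤ t then ξ else 0) ≤ min (n * ξ) t ∧
      min (n * ξ) (t - ξ) ≤ ∑ k : Fin n, if (((k : ℕ) : ℝ) + 1) * ξ ≤ t then ξ else 0 := by
  induction n with
  | zero => simp [ht]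
  | succ n ih =>
    rw [Fin.sum_univ_castSucc]
    simp only [Fin.val_castSucc, Fin.val_last]
    obtain ⟨h1, h2⟩ := ih
    have h3 := (le_min_iff.1 h1).1
    have h4 := (le_min_iff.1 h1).2
    push_cast
    split_ifs with c
    · refine ⟨le_min (by linarith) (by linarith), ?_⟩
      rcases min_le_iff.1 h2 with k | k
      · exact min_le_of_left_le (by linarith)
      · exact min_le_of_right_le (by linarith)
    · refine ⟨le_min (by linarith) (by linarith), ?_⟩
      rcases min_le_iff.1 h2 with k | k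
      · exact min_le_of_right_le (by linarith)
      · exact min_le_of_right_le (by linarith)

theorem dep_ge {d R lam ξ l : ℝ} (hd : 0 < d) (hR : 0 < R) (hl : 0 < lam) (h1 : Real.log lam ≤ ξ)
    (h : d ≤ lam ^ 3 * (R * Real.exp (-l))) : l ≤ Real.log (R / d) + 3 * ξ := by
  have := Real.log_le_log hd h
  rw [Real.log_mul (by positivity) (by positivity), Real.log_mul hR.ne' (by positivity),
    Real.log_pow, Real.log_exp] at this
  rw [Real.log_div hR.ne' hd.ne']
  push_cast at this
  linarith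

theorem le_of_dep {d R l : ℝ} (hd : 0 < d) (hR : 0 < R) (h : l ≤ Real.log (R / d)) :
    d ≤ R * Real.exp (-l) := by
  have h1 := (Real.le_log_iff_exp_le (by positivity)).1 h
  rw [le_div_iff₀ hd] at h1
  rw [Real.exp_neg, ← div_eq_mul_inv, le_div_iff₀ (Real.exp_pos l)]
  linarith

theorem common (P Q : Fin 5 → Prop) [DecidablePred P] [DecidablePred Q]
    (h1 : (univ.filter fun j => ¬P j).card ≤ 2) (h2 : (univ.filter fun j => ¬Q j).card ≤ 2) :
    ∃ j, P j ∧ Q j := by
  by_contra h
  have : (univ : Finset (Fin 5)) ⊆ (univ.filter fun j => ¬P j) ∪ univ.filter fun j => ¬Q j := by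
    intro j _
    by_cases k : P j
    · exact mem_union_right _ (mem_filter.2 ⟨mem_univ _, fun e => h ⟨j, k, e⟩⟩)
    · exact mem_union_left _ (mem_filter.2 ⟨mem_univ _, k⟩)
  have h3 := (card_le_card this).trans (card_union_le _ _)
  rw [card_univ, Fintype.card_fin] at h3
  omega

end DblAux

open DblAux in
theorem dbl : DBL := by
  intro X PL K _ _ _ s A η R hA hR
  classical
  have hs := hA.good
  have hξ : ∀ p, 0 < (s.c p).xi := fun p => (hA.eta_pos p).trans_le (hs.good p).eta_hi
  obtain ⟨n, hn⟩ : ∃ n : ℕ, ∀ p, Real.log (R p / (256 * (s.c p).rlo)) ≤ n * (s.c p).xi := by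
    obtain ⟨M, hM⟩ := (Set.finite_range fun p =>
      Real.log (R p / (256 * (s.c p).rlo)) / (s.c p).xi).bddAbove
    obtain ⟨n, hn⟩ := exists_nat_ge M
    exact ⟨n, fun p => (div_le_iff₀ (hξ p)).1 ((hM ⟨p, rfl⟩).trans hn)⟩
  have hpart : ∀ (q : PL) (l : ℝ), ∃ g : Fin 5 → X → ℕ,
      (∀ j x y, g j x = g j y → (s.c q).d x y ≤ (s.c q).lam ^ 3 * (R q * Real.exp (-l))) ∧
      ∀ x y, (s.c q).d x y ≤ R q * Real.exp (-l) →
        ((univ : Finset (Fin 5)).filter fun j => g j x ≠ g j y).card ≤ 2 :=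
    fun q l => hA.part q _ (mul_pos (hR q) (Real.exp_pos _))
  choose g g1 g2 using hpart
  let e := (Fintype.equivFin (PL × Fin n × Fin 5)).symm
  let lv : PL × Fin n × Fin 5 → ℝ := fun a => (((a.2.1 : ℕ) : ℝ) + 1) * (s.c a.1).xi
  let om : PL × Fin n × Fin 5 → ℝ := fun a => s.m a.1 * (s.c a.1).xi
  let cl : PL × Fin n × Fin 5 → X → ℕ := fun a x =>
    Nat.pair (g a.1 (lv a) a.2.2 x) (g (s.bar a.1) (lv a) a.2.2 x)
  have om0 : ∀ a, 0 ≤ om a := fun a => mul_nonneg (hs.m_lo _) (hξ _).le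
  have lv0 : ∀ a, 0 < lv a := fun a => mul_pos (by positivity) (hξ _)
  refine ⟨⟨_, fun i => om (e i), fun i => cl (e i), fun i => (e i).1, fun i => lv (e i)⟩,
    fun i => om0 _, fun i => lv0 _, fun t ht => ?_, fun i x y hxy h => ?_, fun x y hxy => ?_⟩
  · refine (e.sum_comp fun a => if lv a ≤ t a.1 then om a else 0).trans_le ?_
    rw [Fintype.sum_prod_type, mul_sum]
    refine sum_le_sum fun p _ => ?_
    rw [Fintype.sum_prod_type]
    have h1 := (le_min_iff.1 (cnt_bd (hξ p) (ht p) n).1).2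
    have h2 : ∀ k : Fin n, (∑ j : Fin 5, if lv (p, k, j) ≤ t p then om (p, k, j) else 0) =
        5 * s.m p * if (((k : ℕ) : ℝ) + 1) * (s.c p).xi ≤ t p then (s.c p).xi else 0 := fun k => by
      simp only [lv, om, sum_const, card_univ, Fintype.card_fin, nsmul_eq_mul]
      split_ifs <;> push_cast <;> ring
    simp only [h2, ← mul_sum]
    rw [mul_assoc]
    exact mul_le_mul_of_nonneg_left (mul_le_mul_of_nonneg_left h1 (hs.m_lo p)) (by norm_num)
  · obtain ⟨h1, h2⟩ := Nat.pair_eq_pair.1 h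
    have k1 := dep_ge ((hs.good _).d_pos hxy) (hR _) (hs.good _).lam_pos (hs.good _).log_lam
      (g1 _ _ _ _ _ h1)
    have k2 := dep_ge ((hs.good _).d_pos hxy) (hR _) (hs.good _).lam_pos
      ((hs.lam_bar (e i).1).symm ▸ (hs.good (e i).1).log_lam) (g1 _ _ _ _ _ h2)
    rw [← min_add_add_right]
    exact le_min k1 k2
  · refine le_trans ?_ (add_le_add_right
      (e.sum_comp fun a => if cl a x = cl a y then om a else 0).symm.le _)
    have key : ∀ p, s.m p * dd s R p x y ≤ s.m p * (s.c p).xi +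
        ∑ b : Fin n × Fin 5, if cl (p, b) x = cl (p, b) y then om (p, b) else 0 := fun p => by
      have d0 : 0 ≤ dd s R p x y := le_max_left _ _
      have d1 : dd s R p x y ≤ n * (s.c p).xi := by
        refine max_le (mul_nonneg (Nat.cast_nonneg n) (hξ p).le) ((min_le_left _ _).trans ?_)
        refine le_trans (Real.log_le_log (div_pos (hR p) ((hs.good p).d_pos hxy)) ?_) (hn p)
        have := (hs.good p).rlo_pos
        exact div_le_div_of_nonneg_left (hR p).le (by positivity) ((hs.good p).d_lo x y hxy)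
      have h1 := (cnt_bd (hξ p) d0 n).2
      rw [min_eq_right (by linarith [hξ p])] at h1
      have h2 := mul_le_mul_of_nonneg_left h1 (hs.m_lo p)
      rw [mul_sum, mul_sub] at h2
      rw [Fintype.sum_prod_type]
      refine (sub_le_iff_le_add'.1 h2).trans (add_le_add_right (sum_le_sum fun k _ => ?_) _)
      have nn : ∀ j : Fin 5, 0 ≤ if cl (p, k, j) x = cl (p, k, j) y then om (p, k, j) else 0 :=
        fun j => by split_ifs; exacts [om0 _, le_rfl]
      split_ifs with c
      · have c0 := lv0 (p, k, 0)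
        have c1 : lv (p, k, 0) ≤ min (dep s R p x y) (dep s R (s.bar p) x y) :=
          (le_max_iff.1 c).resolve_left (not_le.2 c0)
        obtain ⟨j, j1, j2⟩ := common _ _
          (g2 p _ x y (le_of_dep ((hs.good _).d_pos hxy) (hR _) (le_min_iff.1 c1).1))
          (g2 (s.bar p) _ x y (le_of_dep ((hs.good _).d_pos hxy) (hR _) (le_min_iff.1 c1).2))
        refine le_trans (le_of_eq ?_) (single_le_sum (fun j _ => nn j) (mem_univ j))
        rw [if_pos (Nat.pair_eq_pair.2 ⟨j1, j2⟩)]
      · rw [mul_zero]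
        exact sum_nonneg fun j _ => nn j
    rw [Fintype.sum_prod_type]
    refine (sum_le_sum fun p _ => key p).trans ?_
    rw [sum_add_distrib]
    exact add_le_add_left hs.xi_sum _

end Pool.Agent.MP_6c3157_co.PQ
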