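import Pool.Agent.MP_6c3157_co.PQ.SpecA

/-! Project PQ: the determinant inequality. -/

set_option autoImplicit false
set_option linter.unusedSectionVars false

noncomputable section

namespace Pool.Agent.MP_6c3157_co.PQ

open Finset Pool.Agent.MP_6c3157_co.PD

namespace Det

variable {X PL K : Type} [DecidableEq X] [Fintype PL] [Field K] {s : Sys X PL} {A : Ari X PL K}
  {η : ℝ} {Z : Finset X} {R : PL → ℝ} {G : PL → X → ℝ} {W ε : ℝ}

/-- the place of the pair that sees the first coordinate -/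
def up (s : Sys X PL) (A : Ari X PL K) (p : PL) : PL := bif A.sd p then p else s.bar p

/-- the place of the pair that sees the second coordinate -/
def wp (s : Sys X PL) (A : Ari X PL K) (p : PL) : PL := bif A.sd p then s.bar p else p

theorem d_up (hA : A.Good s η) (p : PL) (x y : X) :
    (s.c (up s A p)).d x y = A.av p (A.U x - A.U y) := by
  rw [hA.d_eq]
  unfold up Ari.co
  cases h : A.sd p
  · simp [hA.av_bar, hA.sd_bar, h]
  · simp [h]

theorem d_wp (hA : A.Good s η) (p : PL) (x y : X) :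
    (s.c (wp s A p)).d x y = A.av p (A.V x - A.V y) := by
  rw [hA.d_eq]
  unfold wp Ari.co
  cases h : A.sd p
  · simp [h]
  · simp [hA.av_bar, hA.sd_bar, h]

theorem sym (φ : PL → ℝ) (p : PL) : φ (up s A p) + φ (wp s A p) = φ p + φ (s.bar p) := by
  unfold up wp
  cases A.sd p
  · simp [add_comm]
  · simp

theorem up_or (p : PL) : up s A p = p ∨ up s A p = s.bar p := by
  unfold up
  cases A.sd p <;> simp

theorem wp_or (p : PL) : wp s A p = p ∨ wp s A p = s.bar p := by
  unfold wp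
  cases A.sd p <;> simp

theorem lam_or (hs : s.Good) {p q : PL} (h : q = p ∨ q = s.bar p) : (s.c q).lam = (s.c p).lam := by
  rcases h with h | h
  · rw [h]
  · rw [h, hs.lam_bar]

/-- the bound for one coordinate -/
def bnd (s : Sys X PL) (R : PL → ℝ) (G : PL → X → ℝ) (q : PL) (y z : X) : ℝ :=
  (s.c q).lam ^ 2 * R q * Real.exp (G q y + G q z)

theorem bnd_pos (hs : s.Good) (hC : Cen s Z R G W ε) (q : PL) (y z : X) : 0 < bnd s R G q y z := by
  have h1 := (hs.good q).lam_pos
  have h2 := hC.R_pos q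
  unfold bnd
  positivity

theorem R_le (hs : s.Good) (hC : Cen s Z R G W ε) (q : PL) (y z : X) :
    R q ≤ (s.c q).lam * R q * Real.exp (G q y + G q z) := by
  have h1 := (hs.good q).lam_lo
  have h2 := hC.R_pos q
  have h3 : 1 ≤ Real.exp (G q y + G q z) :=
    Real.one_le_exp (add_nonneg (hC.G_lo q y) (hC.G_lo q z))
  have h4 : R q ≤ (s.c q).lam * R q := le_mul_of_one_le_left h2.le h1
  exact h4.trans (le_mul_of_one_le_right (by positivity) h3)

theorem d_le1 (hs : s.Good) (hC : Cen s Z R G W ε) (q : PL) {y z : X} (hy : y ∈ Z) (hz : z ∈ Z) :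
    (s.c q).d y z ≤ (s.c q).lam * R q * Real.exp (G q y + G q z) := by
  have h1 := (hs.good q).lam_pos
  have h2 := hC.R_pos q
  refine (hC.out q y hy z hz).trans (mul_le_mul_of_nonneg_left ?_ (by positivity))
  exact Real.exp_le_exp.2 (max_le (by linarith [hC.G_lo q z]) (by linarith [hC.G_lo q y]))

theorem le_bnd (hs : s.Good) (hC : Cen s Z R G W ε) (q : PL) (y z : X) {a : ℝ}
    (h : a ≤ (s.c q).lam * R q * Real.exp (G q y + G q z)) :
    (s.c q).lam * a ≤ bnd s R G q y z := by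
  have h1 := (hs.good q).lam_pos
  unfold bnd
  calc (s.c q).lam * a ≤ (s.c q).lam * ((s.c q).lam * R q * Real.exp (G q y + G q z)) :=
        mul_le_mul_of_nonneg_left h h1.le
    _ = _ := by ring

theorem d_bnd (hs : s.Good) (hC : Cen s Z R G W ε) (q : PL) {y z : X} (hy : y ∈ Z) (hz : z ∈ Z) :
    (s.c q).d y z ≤ bnd s R G q y z :=
  (le_mul_of_one_le_left ((hs.good q).d_nonneg y z) (hs.good q).lam_lo).trans
    (le_bnd hs hC q y z (d_le1 hs hC q hy hz))

theorem d_deep (hs : s.Good) (hC : Cen s Z R G W ε) {p q : PL} (h : q = p ∨ q = s.bar p)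
    {y x : X} (hxy : x ≠ y) (hd : 0 < dd s R p y x) :
    (s.c q).d y x ≤ Real.exp (-dd s R p y x) * R q := by
  have h1 : dd s R p y x ≤ dep s R q y x := by
    have h2 : dd s R p y x = min (dep s R p y x) (dep s R (s.bar p) y x) := by
      unfold dd at hd ⊢
      exact max_eq_right (le_of_lt (lt_max_iff.1 hd |>.resolve_left (lt_irrefl _)))
    rw [h2]
    rcases h with h | h
    · rw [h]; exact min_le_left _ _
    · rw [h]; exact min_le_right _ _
  have h3 := (hs.good q).d_pos hxy.symm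
  have h4 := hC.R_pos q
  unfold dep at h1
  rw [Real.le_log_iff_exp_le (div_pos h4 h3), le_div_iff₀ h3] at h1
  rw [Real.exp_neg, inv_mul_eq_div, le_div_iff₀ (Real.exp_pos _)]
  linarith

/-- the three bounds for a deep pair -/
theorem deep (hs : s.Good) (hC : Cen s Z R G W ε) {p q : PL} (h : q = p ∨ q = s.bar p)
    {y x z : X} (hy : y ∈ Z) (hz : z ∈ Z) (hxy : x ≠ y) (hd : 0 < dd s R p y x) :
    (s.c q).d x z ≤ bnd s R G q y z ∧
      (s.c q).d y x ≤ Real.exp (-dd s R p y x) * bnd s R G q y z := by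
  have h1 := d_deep hs hC h hxy hd
  have h2 := hC.R_pos q
  have h3 : Real.exp (-dd s R p y x) ≤ 1 := Real.exp_le_one_iff.2 (by linarith)
  have h4 : (s.c q).d y x ≤ R q := h1.trans (mul_le_of_le_one_left h2.le h3)
  have h5 := R_le hs hC q y z
  refine ⟨((hs.good q).d_tri x y z).trans (le_bnd hs hC q y z (max_le ?_ (d_le1 hs hC q hy hz))), ?_⟩
  · rw [(hs.good q).d_symm]; exact h4.trans h5
  · refine h1.trans (mul_le_mul_of_nonneg_left ?_ (Real.exp_pos _).le)
    exact (le_mul_of_one_le_left h2.le (hs.good q).lam_lo).trans (le_bnd hs hC q y z h5)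

/-- the row part of the exponent -/
def rw0 (s : Sys X PL) (G : PL → X → ℝ) (p : PL) (y z : X) : ℝ :=
  4 * (s.c p).xi + (G p y + G p z) + (G (s.bar p) y + G (s.bar p) z)

/-- the column part of the exponent -/
def cl0 (s : Sys X PL) (A : Ari X PL K) (R : PL → ℝ) (p : PL) (i j : ℕ) : ℝ :=
  i * Real.log (R (up s A p)) + j * Real.log (R (wp s A p))

theorem bnd_eq (hs : s.Good) (hC : Cen s Z R G W ε) (q : PL) (y z : X) :
    bnd s R G q y z =
      Real.exp (Real.log (R q) + (2 * Real.log (s.c q).lam + (G q y + G q z))) := by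
  have h1 := (hs.good q).lam_pos
  have h2 := hC.R_pos q
  unfold bnd
  rw [Real.exp_add (Real.log _), Real.exp_add (2 * _), Real.exp_log h2, two_mul,
    Real.exp_add (Real.log _), Real.exp_log h1]
  ring

theorem pow_le (hs : s.Good) (hC : Cen s Z R G W ε) (p : PL) (y z : X) {i j k : ℕ} (hi : i < k)
    (hj : j < k) : bnd s R G (up s A p) y z ^ i * bnd s R G (wp s A p) y z ^ j ≤
      Real.exp (k * rw0 s G p y z + cl0 s A R p i j) := by
  rw [bnd_eq hs hC, bnd_eq hs hC, ← Real.exp_nat_mul, ← Real.exp_nat_mul, ← Real.exp_add,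
    Real.exp_le_exp, lam_or hs (up_or p), lam_or hs (wp_or p)]
  have h1 := sym (s := s) (A := A) (fun q => G q y + G q z) p
  have h2 := (hs.good p).log_lam
  have h3 : 0 ≤ Real.log (s.c p).lam := Real.log_nonneg (hs.good p).lam_lo
  have h4 : (i : ℝ) ≤ k := by exact_mod_cast hi.le
  have h5 : (j : ℝ) ≤ k := by exact_mod_cast hj.le
  have h6 := add_nonneg (hC.G_lo (up s A p) y) (hC.G_lo (up s A p) z)
  have h7 := add_nonneg (hC.G_lo (wp s A p) y) (hC.G_lo (wp s A p) z)
  have h8 := mul_le_mul_of_nonneg_right h4 (add_nonneg (by linarith : 0 ≤ 2 * Real.log (s.c p).lam) h6)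
  have h9 := mul_le_mul_of_nonneg_right h5 (add_nonneg (by linarith : 0 ≤ 2 * Real.log (s.c p).lam) h7)
  have h10 := mul_le_mul_of_nonneg_left h2 (Nat.cast_nonneg (α := ℝ) k)
  unfold rw0 cl0
  rw [add_assoc (4 * _), ← h1]
  nlinarith

theorem ar_lo (hA : A.Good s η) (p : PL) : 0 ≤ A.ar p := by
  rcases hA.ar_eq p with h | h
  · rw [h]; exact zero_le_one
  · rw [h.1]

/-- an entry of a plain row -/
theorem ent0 (hA : A.Good s η) (hC : Cen s Z R G W ε) (p : PL) {y z : X} (hy : y ∈ Z) (hz : z ∈ Z)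
    {k : ℕ} (a : Fin k × Fin k) : A.av p (A.row (A.U z) (A.V z) k y a) ≤
      Real.exp (A.ar p * Real.log (2 * k) + k * rw0 s G p y z + cl0 s A R p a.1 a.2) := by
  have hk : (1 : ℝ) ≤ k := by exact_mod_cast a.1.pos
  have h1 : 0 ≤ A.ar p * Real.log (2 * k) :=
    mul_nonneg (ar_lo hA p) (Real.log_nonneg (by linarith))
  refine le_trans ?_ ((pow_le (A := A) hA.good hC p y z a.1.2 a.2.2).trans
    (Real.exp_le_exp.2 (by linarith)))
  unfold Ari.row
  rw [map_mul, map_pow, map_pow, ← d_up hA, ← d_wp hA]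
  have h2 := (hA.good.good (up s A p)).d_nonneg y z
  have h3 := (hA.good.good (wp s A p)).d_nonneg y z
  have h4 := bnd_pos hA.good hC (up s A p) y z
  exact mul_le_mul (pow_le_pow_left₀ h2 (d_bnd hA.good hC _ hy hz) _)
    (pow_le_pow_left₀ h3 (d_bnd hA.good hC _ hy hz) _) (by positivity) (by positivity)

/-- an entry of a changed row -/
theorem ent1 (h5 : MON) (hA : A.Good s η) (hC : Cen s Z R G W ε) (p : PL) {y x z : X} (hy : y ∈ Z)
    (hz : z ∈ Z) (hxy : x ≠ y) (hd : 0 < dd s R p y x) {k : ℕ} (a : Fin k × Fin k) :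
    A.av p (A.row (A.U z) (A.V z) k y a - A.row (A.U z) (A.V z) k x a) ≤ Real.exp
      (-dd s R p y x + A.ar p * Real.log (2 * k) + k * rw0 s G p y z + cl0 s A R p a.1 a.2) := by
  obtain ⟨u1, u2⟩ := deep hA.good hC (up_or (A := A) p) hy hz hxy hd
  obtain ⟨w1, w2⟩ := deep hA.good hC (wp_or (A := A) p) hy hz hxy hd
  have u0 := d_bnd hA.good hC (up s A p) hy hz
  have w0 := d_bnd hA.good hC (wp s A p) hy hz
  rw [d_up hA] at u0 u1 u2
  rw [d_wp hA] at w0 w1 w2
  have h := h5 K (A.av p) (A.ar p) _ _ _ _ _ _ (Real.exp (-dd s R p y x)) a.1 a.2 k (hA.ar_eq p)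
    (bnd_pos hA.good hC _ y z) (bnd_pos hA.good hC _ y z) (Real.exp_pos _).le a.1.2 a.2.2 u0 u1
    w0 w1 (by rw [sub_sub_sub_cancel_right]; exact u2) (by rw [sub_sub_sub_cancel_right]; exact w2)
  refine h.trans ((mul_le_mul_of_nonneg_left (pow_le (A := A) hA.good hC p y z a.1.2 a.2.2)
    (by positivity)).trans (le_of_eq ?_))
  rw [← Real.exp_add, ← Real.exp_add]
  congr 1
  ring

theorem sum_add (f g : PL → ℝ) :
    ∑ p, s.m p * (f p + g p) = ∑ p, s.m p * f p + ∑ p, s.m p * g p := by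
  rw [← sum_add_distrib]; exact sum_congr rfl fun p _ => mul_add _ _ _

theorem sum_cm (c : ℝ) (f : PL → ℝ) : ∑ p, s.m p * (c * f p) = c * ∑ p, s.m p * f p := by
  rw [mul_sum]; exact sum_congr rfl fun p _ => by ring

theorem rw0_sum (hs : s.Good) (hC : Cen s Z R G W ε) {y z : X} (hy : y ∈ Z) (hz : z ∈ Z) :
    ∑ p, s.m p * rw0 s G p y z ≤ 8 * (ε * W) := by
  unfold rw0
  rw [sum_add, sum_add, sum_cm, hs.sum_bar fun p => G p y + G p z, sum_add]
  linarith [hs.xi_sum, hC.G_sum y hy, hC.G_sum z hz, hC.eW]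

/-- a lower bound for the radii on one side -/
theorem side_lo (h1 : DEP) (hs : s.Good) (hC : Cen s Z R G W ε) {x y : X} (hx : x ∈ Z) (hy : y ∈ Z)
    (hxy : x ≠ y) (q : PL → PL) (hq : ∀ p, q p = p ∨ q p = s.bar p)
    (h : 0 ≤ ∑ p, s.m p * Real.log ((s.c (q p)).d x y)) :
    -(6 * (ε * W)) ≤ ∑ p, s.m p * Real.log (R (q p)) := by
  have h2 := (h1 X PL s Z R G W ε hs hC x hx y hy hxy).2.1
  have h3 : ∑ p, s.m p * Real.log ((s.c (q p)).d x y) ≤ ∑ p, s.m p * (Real.log (R (q p)) +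
      (max 0 (-dep s R p x y) + max 0 (-dep s R (s.bar p) x y))) := by
    refine hs.sum_le fun p => ?_
    have h4 : dep s R (q p) x y = Real.log (R (q p)) - Real.log ((s.c (q p)).d x y) :=
      Real.log_div (hC.R_pos _).ne' ((hs.good _).d_pos hxy).ne'
    have h5 := le_max_left 0 (-dep s R p x y)
    have h6 := le_max_left 0 (-dep s R (s.bar p) x y)
    have h7 : -dep s R (q p) x y ≤ max 0 (-dep s R p x y) + max 0 (-dep s R (s.bar p) x y) := by
      rcases hq p with h | h
      · rw [h]; linarith [le_max_right 0 (-dep s R p x y)]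
      · rw [h]; linarith [le_max_right 0 (-dep s R (s.bar p) x y)]
    linarith
  rw [sum_add, sum_add, hs.sum_bar fun p => max 0 (-dep s R p x y)] at h3
  linarith

theorem cl0_sum (h1 : DEP) (hA : A.Good s η) (hC : Cen s Z R G W ε) {x y : X} (hx : x ∈ Z)
    (hy : y ∈ Z) (hxy : x ≠ y) {i j k : ℕ} (hi : i < k) (hj : j < k) :
    ∑ p, s.m p * cl0 s A R p i j ≤ k * (2 * W + 12 * (ε * W)) := by
  have hu := side_lo h1 hA.good hC hx hy hxy (up s A) up_or (by
    simp only [d_up hA]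
    exact hA.pfge _ (Subring.subset_closure ⟨x, y, Or.inl rfl⟩)
      (sub_ne_zero.2 fun h => hxy (hA.U_inj h)))
  have hw := side_lo h1 hA.good hC hx hy hxy (wp s A) wp_or (by
    simp only [d_wp hA]
    exact hA.pfge _ (Subring.subset_closure ⟨x, y, Or.inr rfl⟩)
      (sub_ne_zero.2 fun h => hxy (hA.V_inj h)))
  have h2 : ∑ p, s.m p * Real.log (R (up s A p)) + ∑ p, s.m p * Real.log (R (wp s A p)) = 2 * W := by
    rw [← sum_add, sum_congr rfl fun p _ => by rw [sym (fun q => Real.log (R q)) p], sum_add,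
      hA.good.sum_bar fun p => Real.log (R p), ← hC.W_eq]
    ring
  unfold cl0
  rw [sum_add, sum_cm, sum_cm]
  have h4 : (i : ℝ) ≤ k := by exact_mod_cast hi.le
  have h5 : (j : ℝ) ≤ k := by exact_mod_cast hj.le
  have h6 := mul_le_mul_of_nonneg_right h4 (sub_nonneg.2 hu)
  have h7 := mul_le_mul_of_nonneg_right h5 (sub_nonneg.2 hw)
  have h8 : 0 ≤ (i : ℝ) * (ε * W) := mul_nonneg (Nat.cast_nonneg _) (by linarith [hC.eW])
  have h9 : 0 ≤ (j : ℝ) * (ε * W) := mul_nonneg (Nat.cast_nonneg _) (by linarith [hC.eW])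
  rw [← h2]
  nlinarith

theorem det_mem {α : Type} [Fintype α] [DecidableEq α] (S : Subring K) (M : Matrix α α K)
    (h : ∀ a b, M a b ∈ S) : M.det ∈ S := by
  rw [Matrix.det_apply']
  exact sum_mem fun σ _ => mul_mem (intCast_mem S _) (prod_mem fun i _ => h _ _)

theorem row_mem (A : Ari X PL K) (z y : X) {k : ℕ} (a : Fin k × Fin k) :
    A.row (A.U z) (A.V z) k y a ∈ Subring.closure A.dif :=
  mul_mem (pow_mem (Subring.subset_closure (s := A.dif) ⟨y, z, Or.inl rfl⟩) _)
    (pow_mem (Subring.subset_closure (s := A.dif) ⟨y, z, Or.inr rfl⟩) _)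

theorem W_big (hC : Cen s Z R G W ε) : 0 ≤ W ∧ 100 * (ε * W) ≤ W := by
  have h1 := hC.eW
  have h2 := hC.e_pos
  have h3 := hC.e_le
  have h4 : 0 ≤ W := by
    by_contra h
    have := mul_neg_of_pos_of_neg h2 (not_le.1 h)
    linarith
  exact ⟨h4, by nlinarith⟩

end Det

open Det

theorem detS (h1 : DEP) (h2 : MINOR) (h3 : ROWOP) (h4 : DBD) (h5 : MON) : DET := by
  intro X PL K _ _ _ s A η Z R G W ε hA hC z hz k F I pt hF hI hind hpt
  classical
  obtain ⟨hW, hεW⟩ := W_big hC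
  rcases I.eq_empty_or_nonempty with rfl | ⟨y0, hy0⟩
  · rw [sum_empty]; positivity
  obtain ⟨J, hJ, hdet⟩ := h2 K F (Fin k × Fin k) _ hind
  have hk : 0 < k := (J ⟨y0, hI hy0⟩).1.pos
  have hk1 : (1 : ℝ) ≤ k := by exact_mod_cast hk
  have hne : Nonempty PL := by
    by_contra h
    have h6 := hC.W_eq
    have h7 := hC.eW
    rw [not_nonempty_iff] at h
    rw [h6, univ_eq_empty, sum_empty] at h7
    linarith
  obtain ⟨p0⟩ := hne
  obtain ⟨hx0, hxy0, -⟩ := hpt p0 y0 hy0
  set M : Matrix F F K := Matrix.of fun a b : F => A.row (A.U z) (A.V z) k a.1 (J b) with hM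
  set n : ℝ := ((Fintype.card F : ℕ) : ℝ) with hn
  let c : PL → X → ℝ := fun p y => if y ∈ I then dd s R p y (pt p y) else 0
  have key : ∀ p, Real.log (A.av p M.det) ≤
      (∑ a : F, (-c p a.1 + A.ar p * Real.log (2 * k) + k * rw0 s G p a.1 z)) +
        (∑ b : F, cl0 s A R p (J b).1 (J b).2) + A.ar p * (n * Real.log n) := by
    intro p
    let T : Finset F := univ.filter fun a => a.1 ∈ I ∧ 0 < dd s R p a.1 (pt p a.1)
    let M' : Matrix F F K := fun a b =>
      if a ∈ T then M a b - A.row (A.U z) (A.V z) k (pt p a.1) (J b) else M a b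
    have e : M'.det = M.det := by
      refine h3 K F M M' T (fun a ha => funext fun b => if_neg ha) fun a ha => ?_
      have haI : a.1 ∈ I := (mem_filter.1 ha).2.1
      have e1 : M a - M' a =
          LinearMap.funLeft K K J (A.row (A.U z) (A.V z) k (pt p a.1)) := by
        funext b
        simp only [M', if_pos ha, Pi.sub_apply, sub_sub_cancel, LinearMap.funLeft_apply]
      rw [e1]
      have e2 := Submodule.mem_map_of_mem (f := LinearMap.funLeft K K J) (hpt p a.1 haI).2.2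
      rw [Submodule.map_span] at e2
      refine Submodule.span_mono ?_ e2
      rintro _ ⟨_, ⟨y, hy, rfl⟩, rfl⟩
      have hy' := mem_sdiff.1 (mem_coe.1 hy)
      exact ⟨⟨y, hy'.1⟩, fun h => hy'.2 (mem_filter.1 h).2.1, rfl⟩
    rw [← e]
    refine h4 K F (A.av p) (A.ar p) M' _ _ (hA.ar_eq p) (e ▸ hdet) fun a b => ?_
    by_cases ha : a ∈ T
    · obtain ⟨haI, hd⟩ := (mem_filter.1 ha).2
      simp only [M', if_pos ha, c, if_pos haI]
      exact ent1 h5 hA hC p (hF a.2) hz (hpt p a.1 haI).2.1 hd (J b)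
    · have hc : c p a.1 = 0 := by
        by_cases haI : a.1 ∈ I
        · simp only [c, if_pos haI]
          exact le_antisymm (not_lt.1 fun h => ha (mem_filter.2 ⟨mem_univ _, haI, h⟩))
            (le_max_left _ _)
        · simp only [c, if_neg haI]
      simp only [M', if_neg ha, hc, neg_zero, zero_add]
      exact ent0 hA hC p (hF a.2) hz (J b)
  have hsum := (hA.pfge M.det (det_mem _ M fun a b => row_mem A z a.1 (J b)) hdet).trans
    (hA.good.sum_le key)
  have hnF : n = F.card := by rw [hn, Fintype.card_coe]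
  have hn1 : 1 ≤ n := by rw [hnF]; exact_mod_cast card_pos.2 ⟨y0, hI hy0⟩
  have hnk : n ≤ (k : ℝ) ^ 2 := by
    have := Fintype.card_le_of_injective J hJ
    rw [Fintype.card_prod, Fintype.card_fin] at this
    rw [hn, sq]; exact_mod_cast this
  have hl1 : Real.log n ≤ 2 * k := by
    have e1 := Real.log_le_log (by linarith) hnk
    rw [Real.log_pow] at e1
    have e2 := Real.log_le_sub_one_of_pos (by linarith : (0 : ℝ) < k)
    push_cast at e1
    linarith
  have hl2 : Real.log (2 * k) ≤ 2 * k := by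
    linarith [Real.log_le_sub_one_of_pos (by linarith : (0 : ℝ) < 2 * k)]
  have har : ∀ t : ℝ, 0 ≤ t → ∑ p, s.m p * (A.ar p * t) ≤ 2 * t := fun t ht => by
    rw [sum_congr rfl fun p _ => by rw [mul_comm (A.ar p)], sum_cm, mul_comm]
    exact mul_le_mul_of_nonneg_right hA.ar_sum ht
  have swap : ∀ φ : PL → F → ℝ, ∑ p, s.m p * ∑ a, φ p a = ∑ a, ∑ p, s.m p * φ p a := fun φ => by
    rw [sum_comm]; exact sum_congr rfl fun p _ => mul_sum _ _ _
  rw [sum_add, sum_add, swap, swap] at hsum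
  have b1 : ∑ a : F, ∑ p, s.m p * (-c p a.1 + A.ar p * Real.log (2 * k) + k * rw0 s G p a.1 z) ≤
      ∑ a : F, (-(∑ p, s.m p * c p a.1) + (4 * k + k * (8 * (ε * W)))) := by
    refine sum_le_sum fun a _ => ?_
    rw [sum_add, sum_add, sum_cm]
    have e1 := har _ (Real.log_nonneg (by linarith : (1 : ℝ) ≤ 2 * k))
    have e2 := mul_le_mul_of_nonneg_left (rw0_sum hA.good hC (hF a.2) hz) (by linarith : (0 : ℝ) ≤ k)
    have e3 : ∑ p, s.m p * -c p a.1 = -∑ p, s.m p * c p a.1 := by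
      rw [← sum_neg_distrib]; exact sum_congr rfl fun p _ => mul_neg _ _
    linarith
  have b2 : ∑ b : F, ∑ p, s.m p * cl0 s A R p (J b).1 (J b).2 ≤
      ∑ _b : F, (k : ℝ) * (2 * W + 12 * (ε * W)) :=
    sum_le_sum fun b _ => cl0_sum h1 hA hC hx0 (hF (hI hy0)) hxy0 (J b).1.2 (J b).2.2
  have b3 := har (n * Real.log n) (mul_nonneg (by linarith) (Real.log_nonneg hn1))
  have b4 : ∑ a : F, ∑ p, s.m p * c p a.1 = ∑ y ∈ I, ∑ p, s.m p * dd s R p y (pt p y) := by
    rw [sum_coe_sort F fun y => ∑ p, s.m p * c p y, ← sum_subset hI]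
    · exact sum_congr rfl fun y hy => by simp only [c, if_pos hy]
    · intro y _ hy
      simp only [c, if_neg hy, mul_zero, sum_const_zero]
  rw [sum_add_distrib, sum_neg_distrib, b4, sum_const, card_univ, nsmul_eq_mul, ← hn] at b1
  rw [sum_const, card_univ, nsmul_eq_mul, ← hn] at b2
  rw [← hnF]
  have b5 := mul_le_mul_of_nonneg_left hl1 (by linarith : 0 ≤ n)
  have b6 : 0 ≤ n * k := by positivity
  have b7 := mul_le_mul_of_nonneg_left hεW b6
  have b8 := mul_le_mul_of_nonneg_left hC.eW b6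
  nlinarith

end Pool.Agent.MP_6c3157_co.PQ
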