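import Pool.Agent.MP_6c3157_co.PQ.SpecA

/-! Project PQ, row DL: light double cells off curves. -/

set_option autoImplicit false
set_option linter.unusedSectionVars false

noncomputable section

namespace Pool.Agent.MP_6c3157_co.PQ

open Finset Pool.Agent.MP_6c3157_co.PD

namespace Dl

/-- an average with few large terms -/
theorem avg {X : Type} [DecidableEq X] (T : Finset X) (Φ : X → ℝ) (a b c : ℝ) (ha : 0 ≤ a)
    (hb : 0 ≤ b) (h1 : ∀ y ∈ T, Φ y ≤ b)
    (h2 : ((T.filter fun y => a < Φ y).card : ℝ) ≤ c * T.card) :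
    ∑ y ∈ T, Φ y ≤ T.card * (a + c * b) := by
  classical
  rw [← sum_filter_add_sum_filter_not T fun y => a < Φ y]
  have e1 : ∑ y ∈ T.filter (fun y => a < Φ y), Φ y ≤ (T.filter fun y => a < Φ y).card * b := by
    rw [← nsmul_eq_mul]
    exact sum_le_card_nsmul _ _ _ fun y hy => h1 y (mem_filter.1 hy).1
  have e2 : ∑ y ∈ T.filter (fun y => ¬ a < Φ y), Φ y ≤
      (T.filter fun y => ¬ a < Φ y).card * a := by
    rw [← nsmul_eq_mul]
    exact sum_le_card_nsmul _ _ _ fun y hy => not_lt.1 (mem_filter.1 hy).2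
  have e3 : ((T.filter fun y => ¬ a < Φ y).card : ℝ) ≤ T.card := by
    exact_mod_cast card_filter_le _ _
  have e4 := mul_le_mul_of_nonneg_right h2 hb
  have e5 := mul_le_mul_of_nonneg_right e3 ha
  nlinarith

/-- the final arithmetic -/
theorem arith (k l S W H : ℝ) (hk : 2 ≤ k) (hW : 0 ≤ W) (hl : k * k - 1 ≤ 2 * l)
    (h : 2 * l * (S - 6 * W / k) ≤ 3 * H) (hH : H ≤ 36 * k * W) : S ≤ 300 * W / k := by
  have hk0 : 0 < k := by linarith
  by_contra hS
  push Not at hS
  set q := W / k with hq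
  have hq0 : 0 ≤ q := div_nonneg hW hk0.le
  have hWq : W = q * k := by rw [hq]; field_simp
  have e1 : 6 * W / k = 6 * q := by rw [hq]; ring
  have e2 : 300 * W / k = 300 * q := by rw [hq]; ring
  rw [e1] at h
  rw [e2] at hS
  have hkk : 4 ≤ k * k := by nlinarith
  have hl0 : 3 * (k * k) ≤ 8 * l := by linarith
  have hlp : 0 < l := by linarith
  have e3 : 2 * l * (294 * q) < 2 * l * (S - 6 * q) :=
    mul_lt_mul_of_pos_left (by linarith) (by linarith)
  have e4 : 3 * (k * k) * q ≤ 8 * l * q := mul_le_mul_of_nonneg_right hl0 hq0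
  have e5 : 0 ≤ k * k * q := by positivity
  rw [hWq] at hH
  nlinarith

end Dl

theorem dl (h0 : DEP) (h1 : DPW) (h2 : DET) (h3 : GROW) (h4 : GREEDY) : DL := by
  classical
  intro X PL K _ _ _ s A η Z R G W ε D hA hC hD T T' k hT hT' hTT hTn hTn' hk hF hF'
  obtain ⟨z₀, hz₀⟩ := hTn
  have he0 := hC.e_pos
  have he1 := hC.e_le
  have heW := hC.eW
  have hW : 2000 ≤ W := by
    by_contra hW
    push Not at hW
    nlinarith
  have hkR : (2 : ℝ) ≤ k := by exact_mod_cast hk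
  obtain ⟨hp1, hp2⟩ := h1 X PL s Z R G W ε D hA.good hC hD
  have hkk : 4 ≤ k * k := by nlinarith
  obtain ⟨F, hFT, hFc, hFi, hFS⟩ := h4 X PL K A (A.U z₀) (A.V z₀) D k (k * k / 2) (6 * W) T T'
    hD.om_lo (by omega) (by omega) ⟨z₀, hz₀⟩ hTn' hF fun z hz y hy =>
      hp1 z (hT hz) y (hT' hy) fun e => disjoint_left.1 hTT hz (e ▸ hy)
  have hFn : F.Nonempty := by rw [← card_pos]; omega
  have hyF : ∀ y ∈ T', y ∉ F := fun y hy hf => disjoint_left.1 hTT (hFT hf) hy
  have hch : ∀ y, ∃ pt : PL → X, y ∈ T' → (∀ p, pt p ∈ F) ∧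
      D.hit F y ≤ 5 * (∑ p, s.m p * dd s R p y (pt p)) + 300 := by
    intro y
    by_cases hy : y ∈ T'
    · obtain ⟨pt, a1, -, a3⟩ := hp2 F y (hyF y hy) hFn
      exact ⟨pt, fun _ => ⟨a1, a3⟩⟩
    · exact ⟨fun _ => y, fun h => absurd h hy⟩
  choose pt hpt using hch
  set Φ : X → ℝ := fun y => ∑ p, s.m p * dd s R p y (pt y p) with hΦ
  have hl2 : ((k * k / 2 : ℕ) : ℝ) * 2 ≤ k * k := by
    exact_mod_cast Nat.div_mul_le_self (k * k) 2
  have hl1 : (k : ℝ) * k - 1 ≤ 2 * ((k * k / 2 : ℕ) : ℝ) := by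
    have : k * k ≤ 2 * (k * k / 2) + 1 := by omega
    have : ((k * k : ℕ) : ℝ) ≤ ((2 * (k * k / 2) + 1 : ℕ) : ℝ) := by exact_mod_cast this
    push_cast at this ⊢
    linarith
  have hΦle : ∀ y ∈ T', Φ y ≤ k * k * W := by
    intro y hy
    have e1 : Φ y ≤ ∑ z ∈ F, del s R y z := by
      unfold del
      rw [sum_comm]
      refine sum_le_sum fun p _ => ?_
      exact single_le_sum (f := fun z => s.m p * dd s R p y z)
        (fun z _ => mul_nonneg (hA.good.m_lo p) (le_max_left _ _)) ((hpt y hy).1 p)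
    have e2 : ∑ z ∈ F, del s R y z ≤ F.card * (2 * W) := by
      rw [← nsmul_eq_mul]
      refine sum_le_card_nsmul _ _ _ fun z hz => ?_
      have := (h0 X PL s Z R G W ε hA.good hC y (hT' hy) z (hT (hFT hz))
        fun e => hyF y hy (e ▸ hz)).2.2.2
      nlinarith
    rw [hFc] at e2
    nlinarith
  have hT0 : (0 : ℝ) < T'.card := by exact_mod_cast hTn'.card_pos
  have hfew : ((T'.filter fun y => 6 * k * W < Φ y).card : ℝ) ≤ 1 / (k + 1) * T'.card := by
    by_contra hc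
    push Not at hc
    rw [one_div_mul_eq_div] at hc
    obtain ⟨F₁, b1, b2, b3, b4⟩ := (h3 X PL K A (A.U z₀) (A.V z₀) k _ T' hF').2 F _ hFi
      (filter_subset _ _) hc (by omega)
    have b5 : ∀ y ∈ F₁, y ∈ T' := fun y hy => (mem_filter.1 (b1 hy)).1
    have hd := h2 X PL K s A η Z R G W ε hA hC z₀ (hT hz₀) k (F ∪ F₁) F₁ (fun p y => pt y p)
      (union_subset (hFT.trans hT) fun y hy => hT' (b5 y hy)) subset_union_right b4
      fun p y hy => by
        have a1 := (hpt y (b5 y hy)).1 p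
        refine ⟨hT (hFT a1), fun e => hyF y (b5 y hy) (e ▸ a1), Submodule.subset_span ?_⟩
        refine Set.mem_image_of_mem _ (mem_coe.2 (mem_sdiff.2 ⟨mem_union_left _ a1, ?_⟩))
        exact disjoint_left.1 b2 a1
    rw [card_union_of_disjoint b2, b3] at hd
    have hn : F₁.Nonempty := by rw [← card_pos]; omega
    have hlt : ∑ _y ∈ F₁, 6 * k * W < ∑ y ∈ F₁, Φ y :=
      sum_lt_sum_of_nonempty hn fun y hy => (mem_filter.1 (b1 hy)).2
    rw [sum_const, nsmul_eq_mul] at hlt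
    have hc1 : (k : ℝ) * k ≤ 2 * F₁.card := by
      have : k * k ≤ 2 * F₁.card := by omega
      exact_mod_cast this
    have hkW : 0 ≤ (k : ℝ) * W := by positivity
    have := mul_le_mul_of_nonneg_right hc1 hkW
    push_cast at hd
    simp only [hΦ] at hlt
    nlinarith
  have hav := Dl.avg T' Φ (6 * k * W) (k * k * W) (1 / (k + 1)) (by positivity) (by positivity)
    hΦle hfew
  have e6 : 1 / ((k : ℝ) + 1) * (k * k * W) ≤ k * W := by
    rw [one_div_mul_eq_div, div_le_iff₀ (by positivity)]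
    nlinarith
  have hH : (∑ y ∈ T', D.hit F y) / T'.card ≤ 36 * k * W := by
    rw [div_le_iff₀ hT0]
    have e7 : ∑ y ∈ T', D.hit F y ≤ ∑ y ∈ T', (5 * Φ y + 300) :=
      sum_le_sum fun y hy => (hpt y hy).2
    rw [sum_add_distrib, ← mul_sum, sum_const, nsmul_eq_mul] at e7
    have e8 : (300 : ℝ) ≤ k * W := by nlinarith
    have e9 := mul_le_mul_of_nonneg_left e8 hT0.le
    have e10 := mul_le_mul_of_nonneg_left e6 hT0.le
    nlinarith
  exact Dl.arith k _ _ W _ hkR (by linarith) hl1 hFS hH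

end Pool.Agent.MP_6c3157_co.PQ
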