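import Pool.Agent.MP_6c3157_co.PQ.SpecA

/-! Project PQ: the weight of the double cells of a pair, and of the cells that meet a set. -/

set_option autoImplicit false
set_option linter.unusedSectionVars false

noncomputable section

namespace Pool.Agent.MP_6c3157_co.PQ

open Finset Pool.Agent.MP_6c3157_co.PD

namespace Dpw

variable {X PL : Type} [DecidableEq X] [Fintype PL] {s : Sys X PL} {R : PL → ℝ} {D : Dbl X PL}

/-- cells whose level is below `t + 3 xi` -/
theorem bound (hs : s.Good) (hD : D.Good s R) (t : PL → ℝ) (ht : ∀ p, 0 ≤ t p)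
    (φ : Fin D.N → Prop) [DecidablePred φ]
    (h : ∀ i, φ i → D.lv i ≤ t (D.pl i) + 3 * (s.c (D.pl i)).xi) :
    (∑ i, if φ i then D.om i else 0) ≤ 5 * (∑ p, s.m p * t p) + 300 := by
  classical
  have h1 := hD.lv_sum (fun p => t p + 3 * (s.c p).xi) fun p =>
    add_nonneg (ht p) (mul_nonneg (by norm_num) ((hs.good p).eta_lo.trans (hs.good p).eta_hi))
  have h2 : ∑ p, s.m p * (t p + 3 * (s.c p).xi) =
      ∑ p, s.m p * t p + 3 * ∑ p, s.m p * (s.c p).xi := by
    rw [mul_sum, ← sum_add_distrib]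
    exact sum_congr rfl fun p _ => by ring
  have h3 := hs.xi_sum
  have h4 : (∑ i, if φ i then D.om i else 0) ≤
      ∑ i, if D.lv i ≤ t (D.pl i) + 3 * (s.c (D.pl i)).xi then D.om i else 0 :=
    sum_le_sum fun i _ => by
      by_cases hi : φ i
      · rw [if_pos hi, if_pos (h i hi)]
      · rw [if_neg hi]
        split_ifs
        exacts [hD.om_lo i, le_rfl]
  rw [h2] at h1
  linarith

theorem lv_le (hD : D.Good s R) {i : Fin D.N} {x y : X} (h : x ≠ y) (e : D.cl i x = D.cl i y) :
    D.lv i ≤ dd s R (D.pl i) x y + 3 * (s.c (D.pl i)).xi :=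
  (hD.same i x y h e).trans (add_le_add_left (le_max_right _ _) _)

end Dpw

theorem dpw (h : DEP) : DPW := by
  intro X PL _ _ s Z R G W ε D hs hc hD
  classical
  refine ⟨fun x hx y hy hxy => ?_, fun F y hy hF => ?_⟩
  · have h1 := Dpw.bound hs hD (fun p => dd s R p x y) (fun p => le_max_left _ _)
      (fun i => D.cl i x = D.cl i y) fun i e => Dpw.lv_le hD hxy e
    have h2 : ∑ p, s.m p * dd s R p x y ≤ (1 + 3 * ε) * W :=
      (h X PL s Z R G W ε hs hc x hx y hy hxy).2.2.2
    have h3 := hc.eW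
    have h4 := hc.e_le
    have h5 := hc.e_pos
    have h6 : 0 < W := (mul_pos_iff_of_pos_left h5).1 (by linarith)
    have h7 : ε * W ≤ 1 / 100 * W := mul_le_mul_of_nonneg_right h4 h6.le
    linarith
  · choose pt h1 h2 using fun p => exists_max_image F (fun z => dd s R p y z) hF
    refine ⟨pt, h1, h2, ?_⟩
    unfold Dbl.hit
    refine Dpw.bound hs hD (fun p => dd s R p y (pt p)) (fun p => le_max_left _ _) _ fun i hi => ?_
    obtain ⟨z, hz⟩ := hi
    obtain ⟨hz1, hz2⟩ := mem_filter.1 hz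
    have h3 := Dpw.lv_le hD (x := y) (y := z) (fun e => hy (e ▸ hz1)) hz2.symm
    have h4 := h2 (D.pl i) z hz1
    linarith

end Pool.Agent.MP_6c3157_co.PQ
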