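import Pool.Agent.MP_6c3157_co.PQ.SpecA

/-! Project PQ, row GREEDY: greedy choice of points that meet many light cells. -/

set_option autoImplicit false
set_option linter.unusedSectionVars false

noncomputable section

namespace Pool.Agent.MP_6c3157_co.PQ

open Finset Pool.Agent.MP_6c3157_co.PD

namespace Greedy

variable {X PL : Type} [DecidableEq X] (D : Dbl X PL)

open Classical in
/-- weight of the light cells that `z` would meet for the first time -/
def gain (T T' F : Finset X) (a : ℝ) (z : X) : ℝ :=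
  ∑ y ∈ T', ∑ i, if D.sh i T y ≤ a ∧ ¬(D.cell i F y).Nonempty ∧ D.cl i z = D.cl i y then D.om i
    else 0

variable {D} (h0 : ∀ i, 0 ≤ D.om i) (T T' F : Finset X) (a : ℝ)
include h0

theorem gain_nonneg (z : X) : 0 ≤ gain D T T' F a z :=
  sum_nonneg fun _ _ => sum_nonneg fun i _ => by split_ifs; exacts [h0 i, le_rfl]

theorem hit_nonneg (y : X) : 0 ≤ D.hit F y :=
  sum_nonneg fun i _ => by split_ifs; exacts [h0 i, le_rfl]

theorem gain_le {M : ℝ} {z : X}
    (h : ∀ y ∈ T', (∑ i, if D.cl i z = D.cl i y then D.om i else 0) ≤ M) :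
    gain D T T' F a z ≤ T'.card * M := by
  rw [← nsmul_eq_mul, ← sum_const]
  refine sum_le_sum fun y hy => le_trans (sum_le_sum fun i _ => ?_) (h y hy)
  have := h0 i
  split_ifs with c1 c2 c2
  exacts [le_rfl, absurd c1.2.2 c2, this, le_rfl]

theorem hit_insert (z : X) :
    (∑ y ∈ T', D.hit F y) + gain D T T' F a z ≤ ∑ y ∈ T', D.hit (insert z F) y := by
  unfold gain Dbl.hit
  rw [← sum_add_distrib]
  refine sum_le_sum fun y _ => ?_
  rw [← sum_add_distrib]
  refine sum_le_sum fun i _ => ?_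
  have := h0 i
  by_cases c1 : (D.cell i F y).Nonempty
  · have c2 : (D.cell i (insert z F) y).Nonempty :=
      c1.mono (filter_subset_filter _ (subset_insert _ _))
    rw [if_pos c1, if_pos c2, if_neg fun c => c.2.1 c1, add_zero]
  · rw [if_neg c1, zero_add]
    split_ifs with c2 c3 c3
    · exact le_rfl
    · exact absurd ⟨z, mem_filter.2 ⟨mem_insert_self _ _, c2.2.2⟩⟩ c3
    · exact this
    · exact le_rfl

theorem sum_gain (hT : T.Nonempty) (hT' : T'.Nonempty) (ha : 0 ≤ a) :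
    T.card * (T'.card * D.S T T' a - a * ∑ y ∈ T', D.hit F y) ≤ ∑ z ∈ T, gain D T T' F a z := by
  have n0 : (0 : ℝ) < T.card := by exact_mod_cast hT.card_pos
  have n1 : (0 : ℝ) < T'.card := by exact_mod_cast hT'.card_pos
  unfold gain Dbl.S Dbl.hit
  rw [mul_div_cancel₀ _ n1.ne', mul_sum, ← sum_sub_distrib, mul_sum, sum_comm]
  refine sum_le_sum fun y _ => ?_
  rw [mul_sum, ← sum_sub_distrib, mul_sum, sum_comm]
  refine sum_le_sum fun i _ => ?_
  have k0 := h0 i
  by_cases c1 : D.sh i T y ≤ a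
  · by_cases c2 : (D.cell i F y).Nonempty
    · rw [if_pos c1, if_pos c2]
      refine le_trans (mul_nonpos_of_nonneg_of_nonpos n0.le ?_)
        (sum_nonneg fun z _ => by split_ifs; exacts [k0, le_rfl])
      nlinarith [mul_le_mul_of_nonneg_left c1 k0]
    · rw [if_pos c1, if_neg c2, mul_zero, sub_zero]
      simp only [c1, c2, not_false_eq_true, true_and]
      rw [← sum_filter, sum_const, nsmul_eq_mul, Dbl.sh, Dbl.cell]
      exact le_of_eq (by field_simp)
  · rw [if_neg c1]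
    refine le_trans (mul_nonpos_of_nonneg_of_nonpos n0.le ?_)
      (sum_nonneg fun z _ => by split_ifs; exacts [k0, le_rfl])
    split_ifs
    · nlinarith [mul_nonneg ha k0]
    · simp

omit h0 in
theorem best {g : X → ℝ} {T B : Finset X} {N k : ℝ} (hk : 0 < k) (hT : T.Nonempty) (hBT : B ⊆ T)
    (hB : (B.card : ℝ) ≤ T.card / (k + 1)) (g0 : ∀ z, 0 ≤ g z) (g1 : ∀ z ∈ T, g z ≤ N) :
    ∃ z ∈ T, z ∉ B ∧ ∑ x ∈ T, g x ≤ T.card * (g z + N / k) := by
  have n0 : (0 : ℝ) < T.card := by exact_mod_cast hT.card_pos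
  have N0 : 0 ≤ N := (g0 _).trans (g1 _ hT.choose_spec)
  have h1 : (B.card : ℝ) < T.card := hB.trans_lt (div_lt_self n0 (by linarith))
  have h2 : (T \ B).Nonempty :=
    sdiff_nonempty.2 fun c => absurd (card_le_card c) (by exact_mod_cast h1.not_ge)
  obtain ⟨z, hz, hm⟩ := exists_max_image (T \ B) g h2
  refine ⟨z, (mem_sdiff.1 hz).1, (mem_sdiff.1 hz).2, ?_⟩
  rw [← sum_sdiff hBT]
  have a1 : ∑ x ∈ T \ B, g x ≤ T.card * g z := by
    refine (sum_le_card_nsmul _ _ _ hm).trans ?_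
    rw [nsmul_eq_mul]
    exact mul_le_mul_of_nonneg_right (by exact_mod_cast card_le_card sdiff_subset) (g0 z)
  have a2 : ∑ x ∈ B, g x ≤ T.card * (N / k) := by
    refine (sum_le_card_nsmul _ _ _ fun x hx => g1 x (hBT hx)).trans ?_
    rw [nsmul_eq_mul, mul_div_assoc', mul_div_right_comm]
    exact mul_le_mul_of_nonneg_right
      (hB.trans (div_le_div_of_nonneg_left n0.le hk (by linarith))) N0
  linarith

end Greedy

theorem greedy (h : GROW) : GREEDY := by
  intro X PL K _ _ A u v D k l M T T' h0 hk hl hT hT' hF hM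
  have n0 : (0 : ℝ) < T.card := by exact_mod_cast hT.card_pos
  have n1 : (0 : ℝ) < T'.card := by exact_mod_cast hT'.card_pos
  have k0 : (0 : ℝ) < k := by exact_mod_cast hk
  obtain ⟨a, ha⟩ : ∃ a : ℝ, a = 1 / (k : ℝ) ^ 2 := ⟨_, rfl⟩
  have a0 : 0 ≤ a := by rw [ha]; positivity
  rw [← ha]
  obtain ⟨c, hc⟩ : ∃ c : ℝ, c = T'.card * D.S T T' a - T'.card * M / k := ⟨_, rfl⟩
  have key : ∀ j ≤ l, ∃ F ⊆ T, F.card = j ∧ A.Ind u v k F ∧
      j * c ≤ (∑ y ∈ T', D.hit F y) * (1 + j * a) := by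
    intro j
    induction j with
    | zero =>
      exact fun _ => ⟨∅, empty_subset _, rfl, linearIndependent_empty_type, by
        simpa using sum_nonneg fun y _ => Greedy.hit_nonneg h0 ∅ y⟩
    | succ j ih =>
      intro hj
      obtain ⟨F, f1, f2, f3, f4⟩ := ih (by omega)
      obtain ⟨B, b1, b2, b3⟩ := (h X PL K A u v k _ T hF).1 F f3 (by omega)
      obtain ⟨z, z1, z2, z3⟩ := Greedy.best (g := Greedy.gain D T T' F a) (N := T'.card * M) k0 hT
        b1 b2 (Greedy.gain_nonneg h0 T T' F a) fun z hz => Greedy.gain_le h0 T T' F a (hM z hz)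
      have s1 := le_of_mul_le_mul_left ((Greedy.sum_gain h0 T T' F a hT hT' a0).trans z3) n0
      have s2 := Greedy.hit_insert h0 T T' F a z
      have s3 := Greedy.gain_nonneg h0 T T' F a z
      refine ⟨insert z F, insert_subset z1 f1, by rw [card_insert_of_notMem (b3 z z1 z2).1, f2],
        (b3 z z1 z2).2, ?_⟩
      have s4 : (0 : ℝ) ≤ (j + 1) * a := by positivity
      push_cast
      nlinarith [mul_le_mul_of_nonneg_right (le_trans (le_add_of_nonneg_right s3) s2) s4]
  obtain ⟨F, f1, f2, f3, f4⟩ := key l le_rfl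
  refine ⟨F, f1, f2, f3, ?_⟩
  have t0 : 0 ≤ ∑ y ∈ T', D.hit F y := sum_nonneg fun y _ => Greedy.hit_nonneg h0 F y
  have t1 : (l : ℝ) * a ≤ 1 / 2 := by
    have : (2 : ℝ) * l ≤ k * k := by exact_mod_cast hl
    rw [ha, mul_one_div, div_le_iff₀ (by positivity)]
    nlinarith
  have t2 : D.S T T' a - M / k = c / T'.card := by rw [hc]; field_simp
  rw [t2, mul_div_assoc', mul_div_assoc']
  refine div_le_div_of_nonneg_right ?_ n1.le
  nlinarith [mul_le_mul_of_nonneg_left t1 t0]

end Pool.Agent.MP_6c3157_co.PQ
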