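import Pool.Agent.MP_6c3157_co.PQ.SpecA

/-! Project PQ: one more independent row outside a small set. -/

set_option autoImplicit false

namespace Pool.Agent.MP_6c3157_co.PQ

open Finset Pool.Agent.MP_6c3157_co.PD

namespace Grow

theorem one {X PL K : Type} [DecidableEq X] [Field K] (A : Ari X PL K) (u v : K) (k : ℕ) (ν : ℝ)
    (T : Finset X) (hT : A.Free T k ν) (F : Finset X) (hF : A.Ind u v k F)
    (hc : F.card < k * k) : ∃ B ⊆ T, (B.card : ℝ) ≤ ν ∧
      ∀ z ∈ T, z ∉ B → z ∉ F ∧ A.Ind u v k (insert z F) := by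
  classical
  have h1 : Submodule.span K (A.row u v k '' (F : Set X)) < ⊤ := by
    refine lt_top_iff_ne_top.2 fun e => ?_
    have h2 := finrank_span_finset_le_card (R := K) (F.image (A.row u v k))
    rw [Set.finrank, coe_image, e, finrank_top, Module.finrank_fintype_fun_eq_card,
      Fintype.card_prod, Fintype.card_fin] at h2
    exact absurd (h2.trans card_image_le) (not_le.2 hc)
  obtain ⟨φ, h2, h3⟩ := Submodule.exists_le_ker_of_lt_top _ h1
  have h4 : ∀ x, φ x = ∑ a, φ (fun j => if a = j then 1 else 0) * x a := fun x => by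
    rw [LinearMap.pi_apply_eq_sum_univ]
    exact sum_congr rfl fun a _ => mul_comm _ _
  have h5 : (fun a => φ fun j => if a = j then 1 else 0) ≠ 0 := fun e => h2 (by
    refine LinearMap.ext fun x => ?_
    rw [h4]
    exact sum_eq_zero fun a _ => by rw [show φ _ = 0 from congrFun e a, zero_mul])
  refine ⟨_, filter_subset _ _, hT u v _ h5, fun z hz hB => ?_⟩
  have h6 : A.row u v k z ∉ Submodule.span K (A.row u v k '' (F : Set X)) := fun h =>
    hB (mem_filter.2 ⟨hz, (h4 _).symm.trans (h3 h)⟩)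
  refine ⟨fun h => h6 (Submodule.subset_span ⟨z, h, rfl⟩), ?_⟩
  show LinearIndepOn K (A.row u v k) ((insert z F : Finset X) : Set X)
  rw [coe_insert]
  exact LinearIndepOn.insert hF h6

end Grow

theorem grow : GROW := by
  intro X PL K _ _ A u v k ν T hT
  refine ⟨Grow.one A u v k ν T hT, fun F T₁ hF h1 h2 h3 => ?_⟩
  obtain ⟨n, hn⟩ := Nat.exists_eq_add_of_le h3
  clear h3
  induction n generalizing F with
  | zero => exact ⟨∅, empty_subset _, disjoint_empty_right _, hn.symm, by rwa [union_empty]⟩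
  | succ n ih =>
    obtain ⟨B, -, b2, b3⟩ := Grow.one A u v k ν T hT F hF (by omega)
    obtain ⟨z, z1, z2⟩ := exists_mem_notMem_of_card_lt_card (s := B) (t := T₁)
      (by exact_mod_cast b2.trans_lt h2)
    obtain ⟨c1, c2⟩ := b3 z (h1 z1) z2
    have c3 := card_insert_of_notMem c1
    obtain ⟨F₂, d1, d2, d3, d4⟩ := ih (insert z F) c2 (by omega)
    rw [disjoint_insert_left] at d2
    refine ⟨insert z F₂, insert_subset z1 d1, disjoint_insert_right.2 ⟨c1, d2.2⟩, ?_, ?_⟩
    · rw [card_insert_of_notMem d2.1]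
      omega
    · rwa [union_insert, ← insert_union]

end Pool.Agent.MP_6c3157_co.PQ
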