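import Pool.Agent.MP_6c3157_co.PQ.SpecC

/-! Project PQ, row HVY: heavy double cells have small weight. -/

set_option autoImplicit false
set_option linter.unusedSectionVars false

noncomputable section

namespace Pool.Agent.MP_6c3157_co.PQ

open Finset Pool.Agent.MP_6c3157_co.PD

namespace Hvy

theorem top {N : ℕ} (lv : Fin N → ℝ) (hl : ∀ i, 0 < lv i) (φ : Fin N → Prop) :
    ∃ τ : ℝ, 0 ≤ τ ∧ (∀ i, φ i → lv i ≤ τ) ∧ (τ = 0 ∨ ∃ i, φ i ∧ τ = lv i) := by
  classical
  by_cases h : (univ.filter φ).Nonempty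
  · obtain ⟨i, hi, hm⟩ := exists_max_image _ lv h
    exact ⟨lv i, (hl i).le, fun j hj => hm j (mem_filter.2 ⟨mem_univ _, hj⟩),
      Or.inr ⟨i, (mem_filter.1 hi).2, rfl⟩⟩
  · exact ⟨0, le_rfl, fun j hj => absurd ⟨j, mem_filter.2 ⟨mem_univ _, hj⟩⟩ h, Or.inl rfl⟩

theorem low {X : Type} [DecidableEq X] (T S : Finset X) (y : X) (f : X → ℝ) (b k : ℝ)
    (hS : S ⊆ T) (hy : y ∈ S) (h0 : ∀ z, 0 ≤ f z) (hb : ∀ z ∈ S, z ≠ y → b ≤ f z)
    (hk : k ≤ S.card) (h2 : 2 ≤ k) : k / 2 * b ≤ ∑ z ∈ T.erase y, f z := by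
  rcases le_total b 0 with hb0 | hb0
  · exact le_trans (mul_nonpos_of_nonneg_of_nonpos (by linarith) hb0)
      (sum_nonneg fun z _ => h0 z)
  · have h1 : ∑ z ∈ S.erase y, f z ≤ ∑ z ∈ T.erase y, f z :=
      sum_le_sum_of_subset_of_nonneg (erase_subset_erase y hS) fun z _ _ => h0 z
    have h3 : ((S.erase y).card : ℝ) * b ≤ ∑ z ∈ S.erase y, f z := by
      have := card_nsmul_le_sum (S.erase y) f b fun z hz =>
        hb z (mem_erase.1 hz).2 (mem_erase.1 hz).1
      rwa [nsmul_eq_mul] at this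
    have h4 : ((S.erase y).card : ℝ) = S.card - 1 := by
      rw [card_erase_of_mem hy, Nat.cast_sub (card_pos.2 ⟨y, hy⟩)]; simp
    have h5 : k / 2 * b ≤ ((S.erase y).card : ℝ) * b :=
      mul_le_mul_of_nonneg_right (by rw [h4]; linarith) hb0
    linarith

end Hvy

theorem hvy (h : DEP) : HVY := by
  classical
  intro X PL _ _ s Z R G W ε Λ ns D hs hC hc hD T a hTZ hns ha ha1 h2 hΛ y hy
  choose t ht0 ht1 ht2 using fun p : PL =>
    Hvy.top D.lv hD.lv_pos fun i => a ≤ D.sh i T y ∧ D.pl i = p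
  have hε := hC.e_pos
  have hε1 := hC.e_le
  have heW := hC.eW
  have hW : 0 < W := by
    by_contra hW
    have := mul_nonpos_of_nonneg_of_nonpos hε.le (not_lt.1 hW)
    linarith
  have hT : (0 : ℝ) < T.card := by exact_mod_cast card_pos.2 ⟨y, hy⟩
  have key : ∀ p, a * T.card / 2 * (t p - 3 * (s.c p).xi) ≤
      ∑ z ∈ T.erase y, min (max 0 (dep s R p y z)) (t p) := by
    intro p
    have hxi := (hs.good p).xi_nonneg
    rcases ht2 p with h0 | ⟨i, ⟨hi, hp⟩, hti⟩
    · refine le_trans (mul_nonpos_of_nonneg_of_nonpos (by linarith) (by linarith)) ?_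
      exact sum_nonneg fun z _ => le_min (le_max_left _ _) (ht0 p)
    · refine Hvy.low T (D.cell i T y) y _ _ _ (filter_subset _ _) (mem_filter.2 ⟨hy, rfl⟩)
        (fun z => le_min (le_max_left _ _) (ht0 p)) (fun z hz hzy => ?_) ?_ h2
      · have h3 := hD.same i y z hzy.symm (mem_filter.1 hz).2.symm
        rw [hp] at h3
        have h4 := min_le_left (dep s R p y z) (dep s R (s.bar p) y z)
        refine le_min (le_trans ?_ (le_max_right _ _)) (by linarith)
        linarith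
      · unfold Dbl.sh at hi
        rwa [le_div_iff₀ hT] at hi
  set H := ∑ p, s.m p * t p with hH
  have key2 : a * T.card / 2 * (H - 60) ≤
      ∑ z ∈ T.erase y, ∑ p, s.m p * min (max 0 (dep s R p y z)) (t p) := by
    have h1 := hs.sum_le key
    have h3 : ∑ p, s.m p * (a * T.card / 2 * (t p - 3 * (s.c p).xi)) =
        a * T.card / 2 * (H - 3 * ∑ p, s.m p * (s.c p).xi) := by
      rw [hH, mul_sum, ← sum_sub_distrib, mul_sum]
      exact sum_congr rfl fun p _ => by ring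
    have h4 : ∑ p, s.m p * ∑ z ∈ T.erase y, min (max 0 (dep s R p y z)) (t p) =
        ∑ z ∈ T.erase y, ∑ p, s.m p * min (max 0 (dep s R p y z)) (t p) := by
      rw [sum_comm]
      exact sum_congr rfl fun p _ => mul_sum _ _ _
    rw [h3, h4] at h1
    refine le_trans (mul_le_mul_of_nonneg_left ?_ (by linarith)) h1
    linarith [hs.xi_sum]
  have hb1 : ∑ z ∈ T.erase y, ∑ p, s.m p * min (max 0 (dep s R p y z)) (t p) ≤
      T.card * ((1 + 3 * ε) * W) := by
    have h1 : ∀ z ∈ T.erase y, ∑ p, s.m p * min (max 0 (dep s R p y z)) (t p) ≤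
        (1 + 3 * ε) * W := fun z hz =>
      le_trans (hs.sum_le fun p => min_le_left _ _)
        (h X PL s Z R G W ε hs hC y (hTZ hy) z (hTZ (mem_erase.1 hz).2)
          (mem_erase.1 hz).1.symm).2.2.1
    have h3 := sum_le_card_nsmul _ _ _ h1
    rw [nsmul_eq_mul] at h3
    refine h3.trans (mul_le_mul_of_nonneg_right ?_ (by positivity))
    exact_mod_cast card_erase_le
  have hH1 : a * (H - 60) ≤ 2 * ((1 + 3 * ε) * W) := by
    have h1 := key2.trans hb1
    have h3 : (T.card : ℝ) * (a * (H - 60)) ≤ T.card * (2 * ((1 + 3 * ε) * W)) := by linarith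
    exact le_of_mul_le_mul_left h3 hT
  have hH2 : H ≤ Λ * W := by
    have h1 : a * H ≤ a * (Λ * W) := by nlinarith
    exact le_of_mul_le_mul_left h1 ha
  have hb2 := hc T hTZ hns y (hTZ hy) t ht0 hH2
  have hH3 : a * (H - 60) ≤ 16 * ε * W := by
    have h1 := key2.trans hb2
    have h3 : (T.card : ℝ) * (a * (H - 60)) ≤ T.card * (16 * ε * W) := by linarith
    exact le_of_mul_le_mul_left h3 hT
  have hfin : (∑ i, if a ≤ D.sh i T y then D.om i else 0) ≤ 5 * H := by
    refine le_trans (sum_le_sum fun i _ => ?_) (hD.lv_sum t ht0)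
    by_cases hi : a ≤ D.sh i T y
    · rw [if_pos hi, if_pos (ht1 _ i ⟨hi, rfl⟩)]
    · rw [if_neg hi]
      split_ifs
      · exact hD.om_lo i
      · exact le_rfl
  refine hfin.trans ?_
  rw [le_div_iff₀ ha]
  nlinarith

end Pool.Agent.MP_6c3157_co.PQ
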