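import Pool.Agent.MP_6c3157_co.PQ.SpecC

/-! Project PQ: a cut that keeps a quarter of the pairs. -/

set_option autoImplicit false

namespace Pool.Agent.MP_6c3157_co.PQ

open Finset Pool.Agent.MP_6c3157_co.PD

namespace Mcut

variable {X : Type} [DecidableEq X] (E : X → X → Prop)

theorem left {A A' : Finset X} (h : Disjoint A A') (B : Finset X) :
    ec E (A ∪ A') B = ec E A B + ec E A' B := by
  classical
  simp only [ec, card_filter, sum_product, sum_union h]

theorem right (A : Finset X) {B B' : Finset X} (h : Disjoint B B') :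
    ec E A (B ∪ B') = ec E A B + ec E A B' := by
  classical
  simp only [ec, card_filter, sum_product, sum_union h, sum_add_distrib]

theorem half (hE : ∀ x, ¬ E x x) (A : Finset X) : ∃ S S', Disjoint S S' ∧ S ∪ S' = A ∧
    ec E A A ≤ 2 * (ec E S S' + ec E S' S) := by
  induction A using Finset.induction_on with
  | empty => exact ⟨∅, ∅, by simp, by simp, by simp [ec]⟩
  | insert a A ha ih =>
    obtain ⟨S, S', h1, rfl, h2⟩ := ih
    have h0 : ec E {a} {a} = 0 := by simp [ec, hE]
    have d := disjoint_singleton_left.2 ha
    have d1 : Disjoint {a} S := d.mono_right subset_union_left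
    have d2 : Disjoint {a} S' := d.mono_right subset_union_right
    rw [insert_eq, left E d, right E _ d, right E _ d, h0, right E {a} h1, left E h1 {a}]
    rcases le_total (ec E {a} S + ec E S {a}) (ec E {a} S' + ec E S' {a}) with h | h
    · refine ⟨{a} ∪ S, S', disjoint_union_left.2 ⟨d2, h1⟩, union_assoc _ _ _, ?_⟩
      rw [left E d1, right E _ d1]
      omega
    · refine ⟨S, {a} ∪ S', disjoint_union_right.2 ⟨d1.symm, h1⟩, union_left_comm _ _ _, ?_⟩
      rw [left E d2, right E _ d2]
      omega

end Mcut

theorem mcut : MCUT := by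
  intro X _ E A hE
  obtain ⟨S, S', h1, rfl, h2⟩ := Mcut.half E hE A
  rcases le_total (ec E S' S) (ec E S S') with h | h
  · exact ⟨S, subset_union_left, by rw [union_sdiff_cancel_left h1]; omega⟩
  · exact ⟨S', subset_union_right, by rw [union_sdiff_cancel_right h1]; omega⟩

end Pool.Agent.MP_6c3157_co.PQ
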