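import Pool.Agent.MP_6c3157_co.PQ.SpecA

/-! Project PQ, row MINOR: a nonzero minor of independent rows. -/

set_option autoImplicit false
set_option linter.unusedSectionVars false

noncomputable section

namespace Pool.Agent.MP_6c3157_co.PQ

open Finset Pool.Agent.MP_6c3157_co.PD

theorem minor : MINOR := by
  intro K α β _ _ _ _ M h
  obtain ⟨κ, a, ha, hs, hl⟩ := exists_linearIndependent' K (Matrix.of M).col
  haveI : Fintype κ := Fintype.ofInjective a ha
  have e : Fintype.card α = Fintype.card κ := by
    rw [linearIndependent_iff_card_eq_finrank_span.1 hl, Set.finrank, hs,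
      ← Matrix.rank_eq_finrank_span_cols]
    exact (LinearIndependent.rank_matrix (M := Matrix.of M) h).symm
  let ε := Fintype.equivOfCardEq e
  refine ⟨a ∘ ε, ha.comp ε.injective, ?_⟩
  have u : IsUnit (Matrix.of fun x y : α => M x ((a ∘ ε) y)) :=
    Matrix.linearIndependent_cols_iff_isUnit.1 (hl.comp ε ε.injective)
  exact ((Matrix.isUnit_iff_isUnit_det _).1 u).ne_zero

end Pool.Agent.MP_6c3157_co.PQ
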