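import Pool.Agent.MP_6c3157_co.PQ.SpecA

/-! Project PQ, row MON: difference of two monomials. -/

set_option autoImplicit false

namespace Pool.Agent.MP_6c3157_co.PQ

open Finset Pool.Agent.MP_6c3157_co.PD

namespace Mon

variable {K : Type} [Field K] (v : AbsoluteValue K ℝ)

theorem pw_le {a : K} {P : ℝ} (h : v a ≤ P) (i : ℕ) : v (a ^ i) ≤ P ^ i := by
  rw [map_pow]
  exact pow_le_pow_left₀ (v.nonneg a) h i

theorem mul_le {x y : K} {p q : ℝ} (hx : v x ≤ p) (hy : v y ≤ q) : v (x * y) ≤ p * q := by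
  rw [map_mul]
  exact mul_le_mul hx hy (v.nonneg y) ((v.nonneg x).trans hx)

theorem arch {a a' : K} {P t : ℝ} (h : v a ≤ P) (h' : v a' ≤ P) (d : v (a - a') ≤ t * P) (i : ℕ) :
    v (a ^ i - a' ^ i) ≤ i * t * P ^ i := by
  induction i with
  | zero => simp
  | succ i ih =>
    have e : a ^ (i + 1) - a' ^ (i + 1) = (a ^ i - a' ^ i) * a + a' ^ i * (a - a') := by ring
    have h1 := mul_le v ih h
    have h2 := mul_le v (pw_le v h' i) d
    rw [e]
    refine (v.add_le _ _).trans ((add_le_add h1 h2).trans (le_of_eq ?_))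
    push_cast
    ring

theorem ult (u : ∀ a b, v (a + b) ≤ max (v a) (v b)) {a a' : K} {P t : ℝ} (ht : 0 ≤ t)
    (h : v a ≤ P) (h' : v a' ≤ P) (d : v (a - a') ≤ t * P) (i : ℕ) :
    v (a ^ i - a' ^ i) ≤ t * P ^ i := by
  induction i with
  | zero => simpa using ht
  | succ i ih =>
    have e : a ^ (i + 1) - a' ^ (i + 1) = (a ^ i - a' ^ i) * a + a' ^ i * (a - a') := by ring
    have h1 := mul_le v ih h
    have h2 := mul_le v (pw_le v h' i) d
    rw [e]
    exact (u _ _).trans (max_le (h1.trans (le_of_eq (by ring))) (h2.trans (le_of_eq (by ring))))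

end Mon

theorem mon : MON := by
  intro K _ v ar a a' b b' P Q t i j k har hP hQ ht hi hj ha ha' hb hb' da db
  have e : a ^ i * b ^ j - a' ^ i * b' ^ j =
      (a ^ i - a' ^ i) * b ^ j + a' ^ i * (b ^ j - b' ^ j) := by ring
  rw [e]
  rcases har with rfl | ⟨rfl, u⟩
  · have hk : (0 : ℝ) < 2 * k := by
      have : 0 < k := by omega
      positivity
    have h1 := Mon.mul_le v (Mon.arch v ha ha' da i) (Mon.pw_le v hb j)
    have h2 := Mon.mul_le v (Mon.pw_le v ha' i) (Mon.arch v hb hb' db j)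
    have h3 : ((i : ℝ) + j) ≤ 2 * k := by
      have : i + j ≤ 2 * k := by omega
      exact_mod_cast this
    have h4 : 0 ≤ t * (P ^ i * Q ^ j) := by positivity
    rw [one_mul, Real.exp_log hk]
    refine (v.add_le _ _).trans ((add_le_add h1 h2).trans ?_)
    nlinarith [mul_le_mul_of_nonneg_right h3 h4]
  · have h1 := Mon.mul_le v (Mon.ult v u ht ha ha' da i) (Mon.pw_le v hb j)
    have h2 := Mon.mul_le v (Mon.pw_le v ha' i) (Mon.ult v u ht hb hb' db j)
    rw [zero_mul, Real.exp_zero, one_mul]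
    exact (u _ _).trans (max_le (h1.trans (le_of_eq (by ring))) (h2.trans (le_of_eq (by ring))))

end Pool.Agent.MP_6c3157_co.PQ
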