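import Pool.Agent.MP_6c3157_co.PQ.SpecC

/-! Project PQ: the share of the edges inside one cell. -/

set_option autoImplicit false

noncomputable section

namespace Pool.Agent.MP_6c3157_co.PQ

open Finset Pool.Agent.MP_6c3157_co.PD

namespace Pt

theorem scale (f : ℕ → ℝ) (a : ℝ) (I : ℕ) (h0 : a ≤ f 0) (hI : f I < a) :
    ∃ i < I, a ≤ f i ∧ f (i + 1) < a := by
  induction I with
  | zero => exact absurd h0 (not_le.2 hI)
  | succ n ih =>
    by_cases h : f n < a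
    · obtain ⟨i, hi, h2⟩ := ih h
      exact ⟨i, hi.trans n.lt_succ_self, h2⟩
    · exact ⟨n, n.lt_succ_self, not_lt.1 h, hI⟩

theorem low {x a a' r : ℝ} (ha : 0 ≤ a) (ha' : 0 ≤ a') (hr : 0 < r) (hr1 : r ≤ 1)
    (h : x ^ 20 ≤ (a * a') ^ 19) (h1 : a < r ^ 20) (h2 : a' < a ^ 2) : x ≤ r ^ 2 * a ^ 2 := by
  have h3 : a ≤ 1 := h1.le.trans (pow_le_one₀ hr.le hr1)
  have h4 : (a * a') ^ 19 ≤ (a * a ^ 2) ^ 19 :=
    pow_le_pow_left₀ (mul_nonneg ha ha') (mul_le_mul_of_nonneg_left h2.le ha) _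
  have h5 : a ^ 17 ≤ (r ^ 20) ^ 2 :=
    (pow_le_pow_of_le_one ha h3 (by norm_num)).trans (pow_le_pow_left₀ ha h1.le 2)
  refine le_of_pow_le_pow_left₀ (n := 20) (by norm_num) (by positivity) (h.trans (h4.trans ?_))
  calc (a * a ^ 2) ^ 19 = a ^ 17 * a ^ 40 := by ring
    _ ≤ (r ^ 20) ^ 2 * a ^ 40 := mul_le_mul_of_nonneg_right h5 (by positivity)
    _ = _ := by ring

theorem mid {x a a' t : ℝ} (ha : 0 ≤ a) (ha' : 0 ≤ a') (ht : 0 < t)
    (h : x ^ 20 ≤ (a * a') ^ 19) (h1 : (t / 2) ^ 20 < a) (h2 : a ^ 2 ≤ a') :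
    x ≤ 8 / t ^ 3 * (a * a') := by
  have h3 : ((t / 2) ^ 20) ^ 3 ≤ a * a' :=
    (pow_le_pow_left₀ (by positivity) h1.le 3).trans
      (by rw [pow_succ']; exact mul_le_mul_of_nonneg_left h2 ha)
  have h4 : 1 ≤ (8 / t ^ 3) ^ 20 * (a * a') := by
    refine le_trans (le_of_eq ?_) (mul_le_mul_of_nonneg_left h3 (by positivity))
    field_simp
    norm_num
  refine le_of_pow_le_pow_left₀ (n := 20) (by norm_num) (by positivity) (h.trans ?_)
  calc (a * a') ^ 19 ≤ (8 / t ^ 3) ^ 20 * (a * a') * (a * a') ^ 19 :=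
        le_mul_of_one_le_left (by positivity) h4
    _ = _ := by rw [mul_pow (8 / t ^ 3), pow_succ' (a * a') 19, mul_assoc]

end Pt

theorem pt : PTW := by
  intro x a a' r e₀ I hx hx1 ha ha' hr hr1 he h h'
  classical
  have t0 : ∀ i, 0 ≤ if a ≤ (r / 2 ^ i) ^ 20 then 8 / (r / 2 ^ i) ^ 3 * (a * a') else 0 :=
    fun i => by split_ifs <;> positivity
  have n1 : (0 : ℝ) ≤ if r ^ 20 ≤ a then 1 else 0 := by split_ifs <;> positivity
  have n2 : 0 ≤ if a' < a ^ 2 then r ^ 2 * a ^ 2 else 0 := by split_ifs <;> positivity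
  have n3 := sum_nonneg fun i (_ : i ∈ range I) => t0 i
  have n4 : 0 ≤ if a ≤ (r / 2 ^ I) ^ 20 then a * a' / e₀ else 0 := by split_ifs <;> positivity
  by_cases c1 : r ^ 20 ≤ a
  · rw [if_pos c1]; linarith
  by_cases c2 : a' < a ^ 2
  · rw [if_pos c2]; linarith [Pt.low ha ha' hr hr1 h (not_le.1 c1) c2]
  by_cases c3 : a ≤ (r / 2 ^ I) ^ 20
  · rw [if_pos c3]; linarith
  obtain ⟨i, hi, c4, c5⟩ := Pt.scale (fun i => (r / 2 ^ i) ^ 20) a I
    (by simpa using (not_le.1 c1).le) (not_le.1 c3)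
  have c6 := Pt.mid (t := r / 2 ^ i) ha ha' (by positivity) h
    (by rwa [div_div, ← pow_succ]) (not_lt.1 c2)
  have c7 := single_le_sum (fun i (_ : i ∈ range I) => t0 i) (mem_range.2 hi)
  rw [if_pos c4] at c7
  linarith

end Pool.Agent.MP_6c3157_co.PQ
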