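import Pool.Agent.MP_6c3157_co.PQ.SpecC

/-! Project PQ, row RARE: rarity between two disjoint sets. -/

set_option autoImplicit false

noncomputable section

namespace Pool.Agent.MP_6c3157_co.PQ

open Finset Pool.Agent.MP_6c3157_co.PD

namespace Rare

open Classical in
theorem free_sub {X PL K : Type} [DecidableEq X] [Field K] {A : Ari X PL K} {B T : Finset X}
    {k : ℕ} {ν : ℝ} (h : A.Free B k ν) (hT : T ⊆ B) : A.Free T k ν := fun u v f hf =>
  le_trans (Nat.cast_le.2 (card_le_card (filter_subset_filter _ hT))) (h u v f hf)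

theorem off_sub {X PL K : Type} [DecidableEq X] [Field K] {A : Ari X PL K} {B T : Finset X}
    {k : ℕ} {y : X} (h : A.Off B k y) (hT : T ⊆ B) : A.Off T k y := fun u v =>
  (h u v).imp fun _ hf => ⟨fun z hz => hf.1 z (hT hz), hf.2⟩

theorem num {c r ε W e : ℝ} (hc : 0 < c) (hr : 0 < r) (h1 : 28000 * r ^ 2 ≤ c) (hc1 : c ≤ 1)
    (h2 : 800 * ε ≤ c * r ^ 40) (he : 0 < e) (h3 : 20 ≤ ε * W) (hε : 0 < ε) :
    100 * ε * W / r ^ 20 / r ^ 20 + 2 * r ^ 2 * (6 * W) + 6400 * r ^ 2 * W + c * e / 4 * W / e <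
      c * W - 20 := by
  have hW : 0 < W := pos_of_mul_pos_of_pos_left' hε h3
  have hr1 : r ≤ 1 := by nlinarith
  have h4 : r ^ 40 ≤ 1 := pow_le_one₀ hr.le hr1
  have h5 : 100 * ε * W / r ^ 20 / r ^ 20 ≤ c / 8 * W := by
    rw [div_div, ← pow_add, div_le_iff₀ (by positivity)]
    nlinarith [mul_le_mul_of_nonneg_right h2 hW.le]
  have h6 : c * e / 4 * W / e = c / 4 * W := by field_simp
  have h7 : 800 * ε ≤ c := h2.trans (mul_le_of_le_one_right hc.le h4)
  have h8 := mul_le_mul_of_nonneg_right h7 hW.le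
  have h9 := mul_le_mul_of_nonneg_right h1 hW.le
  have h10 := mul_pos hc hW
  rw [h6]
  nlinarith
where
  pos_of_mul_pos_of_pos_left' {a b : ℝ} (ha : 0 < a) (h : 20 ≤ a * b) : 0 < b := by
    by_contra k
    nlinarith [mul_nonneg ha.le (neg_nonneg.2 (not_lt.1 k))]

end Rare

open Rare in
theorem rare (h1 : DBL) (h2 : DPW) (h3 : EXT) (h4 : HVY) (h5 : SP) (h6 : SUM) : RARE := by
  intro X PL K _ _ _ s A η Z R G W ε Λ ns c r hA hC hN hP B B' b e₀ M M' ν ν' n hB hB' hd hn he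
    he1 hM hM' hb hν hν' hF hF' hG hν2 hor
  classical
  by_contra hcon
  rw [not_le] at hcon
  have hr := hP.r_pos
  have hc := hP.c_pos
  have he20 : 0 < e₀ ^ 20 := by positivity
  have hr20 : 0 < r ^ 20 := by positivity
  have hM0 : 0 < M := by
    by_contra k
    have := hG.two
    nlinarith [mul_nonneg (mul_pos hr20 he20).le (neg_nonneg.2 (not_lt.1 k))]
  let E : X → X → Prop := fun y z => y ≠ z ∧ c * W ≤ del s R y z
  have hE : eB s R (c * W) B B' = ec E B B' := by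
    unfold eB ec
    congr
  rw [hE] at hcon
  have hM0' : 0 < M' := by
    rcases B'.eq_empty_or_nonempty with k | k
    · subst k
      have h0 : (0 : ℝ) ≤ M' := by simpa using hM'
      have : 0 ≤ e₀ * (M * M') := by positivity
      simp [ec] at hcon
      linarith
    · exact lt_of_lt_of_le (Nat.cast_pos.2 k.card_pos) hM'
  obtain ⟨T, hT, T', hT', k1, k2, hX⟩ := h3 X E B B' e₀ M M' he hM0 hM0' hM hM' hcon.le
  obtain ⟨D, hD⟩ := h1 X PL K s A η R hA hC.R_pos
  have hTZ := hT.trans hB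
  have hTZ' := hT'.trans hB'
  have hTn : T.Nonempty := card_pos.1 (Nat.cast_pos.1 ((mul_pos he20 hM0).trans_le k1))
  have hTn' : T'.Nonempty := card_pos.1 (Nat.cast_pos.1 ((mul_pos he20 hM0').trans_le k2))
  have hr2 : r ≤ 1 / 2 := by
    have := hP.r_le
    have := hP.c_le
    nlinarith
  have hr1 : r ≤ 1 := by linarith
  have hW : 0 ≤ W := by
    by_contra k
    have := hC.eW
    nlinarith [mul_nonneg hC.e_pos.le (neg_nonneg.2 (not_le.1 k).le)]
  have hor' : (2 ≤ b ∧ 300 ≤ c * e₀ / 4 * b) ∨ ∀ y ∈ T', A.Off T (b + 1) y := by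
    refine hor.imp (fun k => ⟨?_, by linarith⟩) fun k y hy => off_sub (k y (hT' hy)) hT
    have k3 : c * e₀ ≤ 1 := mul_le_one₀ hP.c_le he.le he1
    have k4 : (0 : ℝ) ≤ b := Nat.cast_nonneg b
    have : (2 : ℝ) ≤ b := by nlinarith
    exact_mod_cast this
  obtain ⟨I, hI, hI'⟩ := h5 X PL K s A η Z R G W ε D hA hC hD T T' b ν ν' r (c * e₀ / 4) hTZ hTZ'
    (Finset.disjoint_of_subset_left hT (Finset.disjoint_of_subset_right hT' hd)) hTn hTn' hb hν hν'
    (fun k hk => free_sub (hF k hk) hT) (fun k hk => free_sub (hF' k hk) hT') (hG.free.trans k1)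
    (hν2.trans k2) hr hr2 (by positivity) hor'
  have key := h6 X PL D E T T' e₀ r n (c * W - 20) (100 * ε * W / r ^ 20) (6 * W) W (c * e₀ / 4) I
    hD.om_lo hX he hr hr1 hW (by positivity)
    (le_trans (Nat.cast_le.2 (card_le_card hTZ')) hn)
    (hG.sq.trans (pow_le_pow_left₀ (mul_pos he20 hM0).le k1 2))
    (fun y _ z _ k => by have := hD.low y z k.1; have := k.2; linarith)
    (h4 X PL s Z R G W ε Λ ns D hA.good hC hN hD T (r ^ 20) hTZ (hG.conc.trans k1) hr20
      (pow_le_one₀ hr.le hr1) (hG.two.trans (mul_le_mul_of_nonneg_left k1 hr20.le)) hP.L_ge)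
    (fun y hy z hz k => (h2 X PL s Z R G W ε D hA.good hC hD).1 y (hTZ hy) z (hTZ hz) k) hI hI'
  exact absurd key (not_le.2 (num hc hr hP.r_le hP.c_le hP.e_le he hC.eW hC.e_pos))

end Pool.Agent.MP_6c3157_co.PQ
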