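import Pool.Agent.MP_6c3157_co.PQ.SpecA

/-! Project PQ, row ROWOP: row operations keep the determinant. -/

set_option autoImplicit false

namespace Pool.Agent.MP_6c3157_co.PQ

open Finset Pool.Agent.MP_6c3157_co.PD

namespace Rowop

theorem zero {K α : Type} [Field K] [Fintype α] [DecidableEq α] (N : Matrix α α K) (a : α)
    {v : α → K} (hv : v ∈ Submodule.span K (N '' {b | b ≠ a})) : (N.updateRow a v).det = 0 := by
  induction hv using Submodule.span_induction with
  | mem x hx =>
    obtain ⟨b, hb, rfl⟩ := hx
    exact Matrix.det_updateRow_eq_zero hb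
  | zero => exact Matrix.det_eq_zero_of_row_eq_zero a (by simp)
  | add x y _ _ h h' => rw [Matrix.det_updateRow_add, h, h', add_zero]
  | smul c x _ h => rw [Matrix.det_updateRow_smul, h, mul_zero]

end Rowop

theorem rowop : ROWOP := by
  intro K α _ _ _ M M' I h1 h2
  have key : ∀ J : Finset α, J ⊆ I →
      (Matrix.of fun a => if a ∈ J then M' a else M a).det = M.det := fun J => by
    induction J using Finset.induction_on with
    | empty => exact fun _ => congrArg Matrix.det (by ext a b; simp)
    | insert a J ha ih =>
      intro hJ
      have aI := hJ (mem_insert_self _ _)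
      have sJ := (subset_insert a J).trans hJ
      rw [← ih sJ]
      set N : Matrix α α K := Matrix.of fun a => if a ∈ J then M' a else M a with hN
      have z := Rowop.zero N a (v := M a - M' a) (Submodule.span_mono (by
        rintro _ ⟨b, hb, rfl⟩
        exact ⟨b, fun e => hb (e ▸ aI), if_neg fun e => hb (sJ e)⟩) (h2 a aI))
      have e1 : (Matrix.of fun b => if b ∈ insert a J then M' b else M b) =
          N.updateRow a (M' a) := by
        ext b c
        by_cases e : b = a <;> simp [hN, e]
      have e2 : N = N.updateRow a (M' a + (M a - M' a)) := by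
        ext b c
        by_cases e : b = a <;> simp [hN, e, ha]
      rw [e1]
      conv_rhs => rw [e2, Matrix.det_updateRow_add, z, add_zero]
  rw [← key I Subset.rfl]
  congr 1
  ext a b
  by_cases e : a ∈ I <;> simp [e, h1]

end Pool.Agent.MP_6c3157_co.PQ
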