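import Pool.Agent.MP_6c3157_co.PQ.SpecC

/-! Project PQ, row SAME: rarity inside one class. -/

set_option autoImplicit false
set_option linter.unusedSectionVars false

namespace Pool.Agent.MP_6c3157_co.PQ

open Finset Pool.Agent.MP_6c3157_co.PD

namespace Same

theorem free {X PL K : Type} [DecidableEq X] [Field K] {A : Ari X PL K} {S T : Finset X} {k : ℕ}
    {ν : ℝ} (h : A.Free T k ν) (hS : S ⊆ T) : A.Free S k ν := by
  classical
  exact fun u v f hf =>
    le_trans (Nat.cast_le.2 (card_le_card (filter_subset_filter _ hS))) (h u v f hf)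

theorem big {t t' r ns n ν : ℝ} {b : ℕ} (h : Big t r ns n ν b) (h0 : 0 ≤ t) (ht : t ≤ t') :
    Big t' r ns n ν b :=
  ⟨h.free.trans ht, h.conc.trans ht, h.sq.trans (pow_le_pow_left₀ h0 ht 2),
    h.two.trans (mul_le_mul_of_nonneg_left ht (by positivity))⟩

theorem ec_eq {X PL : Type} [DecidableEq X] [Fintype PL] (s : Sys X PL) (R : PL → ℝ) (t : ℝ)
    (A B : Finset X) : ec (fun x y => x ≠ y ∧ t ≤ del s R x y) A B = eB s R t A B := by
  unfold ec eB
  congr

end Same

theorem same (h1 : MCUT) (h2 : RARE) : SAME := by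
  intro X PL K _ _ _ s A η Z R G W ε Λ ns c r hA hC hc hP B b e M ν n hB hn e0 e1 hM hb hν hF hg
  have hb' : (1 : ℝ) ≤ b := by exact_mod_cast hb
  have hcb : 0 < c * b := mul_pos hP.c_pos (by linarith)
  have ht : 0 < 1200 / (c * b) := by positivity
  have hM0 : 0 ≤ M := (Nat.cast_nonneg _).trans hM
  have e4 : 4800 / (c * b) = 4 * (1200 / (c * b)) := by ring
  rw [e4]
  rcases le_total (1200 / (c * b)) 1 with h | h
  · obtain ⟨S, hS, hk⟩ := h1 X (fun x y => x ≠ y ∧ c * W ≤ del s R x y) B fun x h => h.1 rfl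
    rw [Same.ec_eq, Same.ec_eq] at hk
    have hg' := Same.big hg (by positivity) (mul_le_mul_of_nonneg_right
      (pow_le_pow_left₀ e0.le (le_max_left e (1200 / (c * b))) 20) hM0)
    have key := h2 X PL K s A η Z R G W ε Λ ns c r hA hC hc hP S (B \ S) b
      (max e (1200 / (c * b))) M M ν ν n (hS.trans hB) (sdiff_subset.trans hB) disjoint_sdiff hn
      (lt_max_of_lt_left e0) (max_le e1 h) (le_trans (Nat.cast_le.2 (card_le_card hS)) hM)
      (le_trans (Nat.cast_le.2 (card_le_card sdiff_subset)) hM) hb hν hν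
      (fun k hk => Same.free (hF k hk) hS) (fun k hk => Same.free (hF k hk) sdiff_subset) hg'
      hg'.free (Or.inl ((div_le_iff₀' hcb).1 (le_max_right _ _)))
    have hk' : (eB s R (c * W) B B : ℝ) ≤ 4 * eB s R (c * W) S (B \ S) := by exact_mod_cast hk
    have hx : max e (1200 / (c * b)) ≤ 1200 / (c * b) + e := max_le (by linarith) (by linarith)
    have := mul_le_mul_of_nonneg_right hx (mul_nonneg hM0 hM0)
    linarith
  · have h3 : eB s R (c * W) B B ≤ B.card * B.card := by
      unfold eB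
      exact (card_filter_le _ _).trans (card_product B B).le
    have h4 : (eB s R (c * W) B B : ℝ) ≤ B.card * B.card := by exact_mod_cast h3
    have h5 := mul_le_mul hM hM (Nat.cast_nonneg _) hM0
    have h6 : 1 * M ^ 2 ≤ (4 * (1200 / (c * b)) + 4 * e) * M ^ 2 :=
      mul_le_mul_of_nonneg_right (by linarith) (sq_nonneg M)
    linarith

end Pool.Agent.MP_6c3157_co.PQ
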