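import Pool.Agent.MP_6c3157_co.PQ.SpecC

/-! Project PQ, row SP: light double cells at every scale. -/

set_option autoImplicit false
set_option linter.unusedSectionVars false

noncomputable section

namespace Pool.Agent.MP_6c3157_co.PQ

open Finset Pool.Agent.MP_6c3157_co.PD

namespace Sp

variable {X PL : Type} [DecidableEq X]

theorem sh_nonneg (D : Dbl X PL) (i : Fin D.N) (T : Finset X) (y : X) : 0 ≤ D.sh i T y := by
  unfold Dbl.sh; positivity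

theorem S_mono (D : Dbl X PL) (h0 : ∀ i, 0 ≤ D.om i) (T T' : Finset X) {a a' : ℝ} (h : a ≤ a') :
    D.S T T' a ≤ D.S T T' a' := by
  unfold Dbl.S
  refine div_le_div_of_nonneg_right (sum_le_sum fun y _ => sum_le_sum fun i _ => ?_)
    (Nat.cast_nonneg _)
  by_cases h1 : D.sh i T y ≤ a
  · rw [if_pos h1, if_pos (h1.trans h)]
  · rw [if_neg h1]
    split_ifs
    · exact mul_nonneg (h0 i) (sh_nonneg D i T y)
    · exact le_rfl

theorem S_hit (D : Dbl X PL) (h0 : ∀ i, 0 ≤ D.om i) (T T' : Finset X) (hT : T'.Nonempty)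
    {a H : ℝ} (ha : 0 ≤ a) (h : ∀ y ∈ T', D.hit T y ≤ H) : D.S T T' a ≤ a * H := by
  have hc : (0 : ℝ) < T'.card := by exact_mod_cast hT.card_pos
  unfold Dbl.S
  rw [div_le_iff₀ hc, mul_comm, ← nsmul_eq_mul]
  refine sum_le_card_nsmul _ _ _ fun y hy => le_trans ?_ (mul_le_mul_of_nonneg_left (h y hy) ha)
  unfold Dbl.hit
  rw [mul_sum]
  refine sum_le_sum fun i _ => ?_
  by_cases h1 : (D.cell i T y).Nonempty
  · rw [if_pos h1]
    split_ifs with h2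
    · rw [mul_comm]; exact mul_le_mul_of_nonneg_right h2 (h0 i)
    · exact mul_nonneg ha (h0 i)
  · have h2 : D.sh i T y = 0 := by
      unfold Dbl.sh
      rw [not_nonempty_iff_eq_empty.1 h1]; simp
    rw [if_neg h1, h2]
    simp

theorem small (r c : ℝ) (hr : 0 < r) (hr1 : r ≤ 1) (hc : 0 < c) :
    ∃ i : ℕ, (r / 2 ^ i) ^ 5 < c := by
  obtain ⟨i, hi⟩ := exists_pow_lt_of_lt_one hc (by norm_num : (1 / 2 : ℝ) < 1)
  refine ⟨i, lt_of_le_of_lt ?_ hi⟩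
  have h2 : (0 : ℝ) < 2 ^ i := by positivity
  have h1 : r / 2 ^ i ≤ (1 / 2) ^ i := by
    rw [one_div_pow]; exact div_le_div_of_nonneg_right hr1 h2.le
  have h3 : ((1 / 2 : ℝ)) ^ i ≤ 1 := pow_le_one₀ (by norm_num) (by norm_num)
  exact (pow_le_of_le_one (by positivity) (h1.trans h3) (by norm_num)).trans h1

theorem floor_ok {t : ℝ} {b : ℕ} (ht : 0 < t) (ht1 : t ≤ 1 / 2) (hb : 1 ≤ b * t ^ 5) :
    ∃ k : ℕ, 2 ≤ k ∧ k ≤ b ∧ t ^ 20 ≤ 1 / (k : ℝ) ^ 2 ∧ 1 ≤ 2 * k * t ^ 5 := by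
  have h5 : 0 < t ^ 5 := by positivity
  have h6 : t ^ 5 ≤ (1 / 2) ^ 5 := pow_le_pow_left₀ ht.le ht1 5
  have h7 : (2 : ℝ) ≤ 1 / t ^ 5 := by
    rw [le_div_iff₀ h5]; norm_num at h6 ⊢; linarith
  have hk2 : 2 ≤ ⌊1 / t ^ 5⌋₊ := Nat.le_floor (by exact_mod_cast h7)
  have hk : (⌊1 / t ^ 5⌋₊ : ℝ) ≤ 1 / t ^ 5 := Nat.floor_le (by positivity)
  have hk' : 1 / t ^ 5 < (⌊1 / t ^ 5⌋₊ : ℝ) + 1 := Nat.lt_floor_add_one _
  have hk0 : (2 : ℝ) ≤ (⌊1 / t ^ 5⌋₊ : ℝ) := by exact_mod_cast hk2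
  refine ⟨⌊1 / t ^ 5⌋₊, hk2, ?_, ?_, ?_⟩
  · have : (⌊1 / t ^ 5⌋₊ : ℝ) ≤ b := hk.trans ((div_le_iff₀ h5).2 hb)
    exact_mod_cast this
  · set k : ℝ := (⌊1 / t ^ 5⌋₊ : ℝ)
    rw [le_div_iff₀ h5] at hk
    rw [le_div_iff₀ (by positivity)]
    have h8 : (k * t ^ 5) ^ 2 ≤ 1 := pow_le_one₀ (by positivity) hk
    have h9 : t ^ 10 ≤ 1 := pow_le_one₀ ht.le (by linarith)
    calc t ^ 20 * k ^ 2 = t ^ 10 * (k * t ^ 5) ^ 2 := by ring
      _ ≤ 1 := mul_le_one₀ h9 (by positivity) h8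
  · set k : ℝ := (⌊1 / t ^ 5⌋₊ : ℝ)
    rw [div_lt_iff₀ h5] at hk'
    nlinarith

end Sp

open Sp in
theorem sp (h1 : DL) (h2 : XD) : SP := by
  intro X PL K _ _ _ s A η Z R G W ε D hA hC hD T T' b ν ν' r δ hT hT' hd hne hne' hb hν hν' hF
    hF' hs hs' hr hr2 hδ hor
  classical
  have hW : 0 < W := by
    by_contra k
    nlinarith [mul_nonneg hC.e_pos.le (neg_nonneg.2 (not_lt.1 k)), hC.eW]
  have fr : ∀ (S : Finset X) (μ : ℝ) (k : ℕ), 0 ≤ μ → μ * (b + 1) ≤ S.card → k ≤ b →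
      A.Free S k μ → A.Free S k (S.card / (k + 1)) := by
    intro S μ k hμ hS hk h u v f hf
    refine (h u v f hf).trans ?_
    have hk' : (k : ℝ) ≤ b := by exact_mod_cast hk
    rw [le_div_iff₀ (by positivity)]
    exact (mul_le_mul_of_nonneg_left (by linarith) hμ).trans hS
  have dl : ∀ k : ℕ, 2 ≤ k → k ≤ b → D.S T T' (1 / (k : ℝ) ^ 2) ≤ 300 * W / k := fun k hk hkb =>
    h1 X PL K s A η Z R G W ε D hA hC hD T T' k hT hT' hd hne hne' hk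
      (fr T ν k hν hs hkb (hF k hkb)) (fr T' ν' k hν' hs' hkb (hF' k hkb))
  have ht : ∀ i : ℕ, 0 < r / 2 ^ i ∧ r / 2 ^ i ≤ 1 / 2 := fun i =>
    ⟨by positivity, (div_le_self hr.le (one_le_pow₀ (by norm_num))).trans hr2⟩
  have big : ∀ t : ℝ, 0 < t → t ≤ 1 / 2 → 1 ≤ b * t ^ 5 →
      D.S T T' (t ^ 20) ≤ 600 * t ^ 5 * W := by
    intro t h0 h3 h4
    obtain ⟨k, hk2, hkb, hk3, hk4⟩ := floor_ok h0 h3 h4
    refine (S_mono D hD.om_lo T T' hk3).trans ((dl k hk2 hkb).trans ?_)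
    have hk0 : (0 : ℝ) < k := by exact_mod_cast (by omega : 0 < k)
    rw [div_le_iff₀ hk0]
    nlinarith [mul_le_mul_of_nonneg_right hk4 hW.le]
  have hb1 : (1 : ℝ) ≤ b := by exact_mod_cast hb
  rcases hor with ⟨hb2, hδb⟩ | hoff
  · have ex : ∃ i : ℕ, b * (r / 2 ^ i) ^ 5 < 1 := by
      obtain ⟨i, hi⟩ := small r (1 / b) hr (by linarith) (by positivity)
      rw [lt_div_iff₀ (by linarith), mul_comm] at hi
      exact ⟨i, hi⟩
    refine ⟨Nat.find ex, fun i hi => big _ (ht i).1 (ht i).2 (not_lt.1 (Nat.find_min ex hi)), ?_⟩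
    have h3 := Nat.find_spec ex
    obtain ⟨h4, h5⟩ := ht (Nat.find ex)
    set t := r / 2 ^ Nat.find ex
    have h6 : t ^ 20 ≤ 1 / (b : ℝ) ^ 2 := by
      rw [le_div_iff₀ (by positivity)]
      have h8 : (b * t ^ 5) ^ 2 ≤ 1 := pow_le_one₀ (by positivity) h3.le
      have h9 : t ^ 10 ≤ 1 := pow_le_one₀ h4.le (by linarith)
      calc t ^ 20 * (b : ℝ) ^ 2 = t ^ 10 * (b * t ^ 5) ^ 2 := by ring
        _ ≤ 1 := mul_le_one₀ h9 (by positivity) h8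
    refine (S_mono D hD.om_lo T T' h6).trans ((dl b hb2 le_rfl).trans ?_)
    rw [div_le_iff₀ (by linarith)]
    nlinarith [mul_le_mul_of_nonneg_right hδb hW.le]
  · have all : ∀ t : ℝ, 0 < t → t ≤ 1 / 2 → D.S T T' (t ^ 20) ≤ 600 * t ^ 5 * W := by
      intro t h0 h3
      rcases le_or_gt 1 (b * t ^ 5) with h4 | h4
      · exact big t h0 h3 h4
      · have h5 : ∀ y ∈ T', D.hit T y ≤ 128 * (b : ℝ) ^ 3 * W := by
          intro y hy
          refine (h2 X PL K s A η Z R G W ε D hA hC hD T (b + 1) y hT (hT' hy) (by omega)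
            (hoff y hy)).trans (mul_le_mul_of_nonneg_right ?_ hW.le)
          have : ((b + 1 : ℕ) : ℝ) ^ 3 ≤ (2 * b) ^ 3 :=
            pow_le_pow_left₀ (by positivity) (by push_cast; linarith) 3
          nlinarith
        refine (S_hit D hD.om_lo T T' hne' (by positivity) h5).trans ?_
        have h8 : (b * t ^ 5) ^ 3 ≤ 1 := pow_le_one₀ (by positivity) h4.le
        have h9 : 0 < t ^ 5 * W := by positivity
        calc t ^ 20 * (128 * (b : ℝ) ^ 3 * W) = 128 * ((b * t ^ 5) ^ 3 * (t ^ 5 * W)) := by ring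
          _ ≤ 600 * t ^ 5 * W := by nlinarith [mul_le_mul_of_nonneg_right h8 h9.le]
    obtain ⟨I, hI⟩ := small r (δ / 600) hr (by linarith) (by positivity)
    refine ⟨I, fun i _ => all _ (ht i).1 (ht i).2, (all _ (ht I).1 (ht I).2).trans ?_⟩
    exact mul_le_mul_of_nonneg_right (by linarith) hW.le

end Pool.Agent.MP_6c3157_co.PQ
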