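import Pool.Agent.MP_6c3157_co.PQ.SpecC

/-! Project PQ, row SUM: the sum over all double cells. -/

set_option autoImplicit false

noncomputable section

namespace Pool.Agent.MP_6c3157_co.PQ

open Finset Pool.Agent.MP_6c3157_co.PD

namespace SumA

theorem geo (r : ℝ) (I : ℕ) :
    ∑ j ∈ range I, 4800 * (r / 2 ^ j) ^ 2 + 6400 * (r / 2 ^ I) ^ 2 = 6400 * r ^ 2 := by
  induction I with
  | zero => simp
  | succ I ih =>
    rw [sum_range_succ, ← ih, pow_succ (2 : ℝ) I, ← div_div]
    ring

theorem cnt {X PL : Type} [DecidableEq X] (D : Dbl X PL) (E : X → X → Prop) (T T' : Finset X)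
    (w : ℝ) (h : ∀ y ∈ T, ∀ z ∈ T', E y z → w ≤ ∑ i, if D.cl i y = D.cl i z then D.om i else 0) :
    w * ec E T T' ≤ ∑ i, D.om i * ec (fun y z => E y z ∧ D.cl i y = D.cl i z) T T' := by
  classical
  have e : ∀ i, D.om i * ec (fun y z => E y z ∧ D.cl i y = D.cl i z) T T' =
      ∑ p ∈ (T ×ˢ T').filter fun p => E p.1 p.2,
        if D.cl i p.1 = D.cl i p.2 then D.om i else 0 := fun i => by
    rw [← sum_filter, filter_filter, sum_const, nsmul_eq_mul, mul_comm, ec]
    congr!
  rw [sum_congr rfl fun i _ => e i, sum_comm, mul_comm, ec, ← nsmul_eq_mul]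
  refine card_nsmul_le_sum _ _ _ fun p hp => ?_
  rw [mem_filter, mem_product] at hp
  exact h _ hp.1.1 _ hp.1.2 hp.2

open Classical in
theorem eS {X PL : Type} [DecidableEq X] (D : Dbl X PL) (T T' : Finset X) (a : ℝ) :
    ∑ i, D.om i * ((∑ y ∈ T', if D.sh i T y ≤ a then D.sh i T y else 0) / T'.card) =
      D.S T T' a := by
  rw [Dbl.S, sum_comm, sum_div]
  refine sum_congr rfl fun i _ => ?_
  rw [← mul_div_assoc, mul_sum]
  simp only [mul_ite, mul_zero]

end SumA

open SumA in
theorem sumS (h : SUM1) : SUM := by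
  classical
  intro X PL _ D E T T' e₀ r n w H M W δ I om ex e0 r0 r1 W0 M0 hn hT hw hH hM hS hI
  have ep : (0 : ℝ) < ec E T T' := by exact_mod_cast ex.pos
  have tp : (0 : ℝ) < T.card := by
    obtain ⟨p, hp⟩ := card_pos.1 ex.pos
    exact_mod_cast card_pos.2 ⟨p.1, (mem_product.1 (mem_filter.1 hp).1).1⟩
  have h1 : w ≤ ∑ i, D.om i *
      ((ec (fun y z => E y z ∧ D.cl i y = D.cl i z) T T' : ℝ) / ec E T T') := by
    simp only [← mul_div_assoc]
    rw [← sum_div, le_div_iff₀ ep]
    exact cnt D E T T' w hw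
  refine (h1.trans (sum_le_sum fun i _ => mul_le_mul_of_nonneg_left
    (h X PL D i E T T' e₀ r n I ex e0 r0 r1 hn hT) (om i))).trans ?_
  simp only [mul_add, sum_add_distrib]
  refine add_le_add (add_le_add (add_le_add ?_ ?_) ?_) ?_
  · simp only [← mul_div_assoc, mul_sum, mul_ite, mul_one, mul_zero]
    rw [← sum_div, sum_comm, div_le_div_iff₀ (by positivity) (by positivity)]
    have := sum_le_card_nsmul _ _ _ hH
    rw [nsmul_eq_mul] at this
    nlinarith [mul_le_mul_of_nonneg_right this (pow_pos r0 20).le]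
  · have k : ∑ i, D.om i * (∑ y ∈ T, ∑ z ∈ T.erase y,
        if D.cl i y = D.cl i z then (1 : ℝ) else 0) ≤ T.card ^ 2 * M := by
      simp only [mul_sum, mul_ite, mul_one, mul_zero]
      rw [sum_comm, sq, mul_assoc, ← nsmul_eq_mul]
      refine sum_le_card_nsmul _ _ _ fun y hy => ?_
      rw [sum_comm]
      refine (sum_le_card_nsmul _ _ M fun z hz =>
        hM y hy z (mem_of_mem_erase hz) (ne_of_mem_erase hz).symm).trans ?_
      rw [nsmul_eq_mul]
      exact mul_le_mul_of_nonneg_right (by exact_mod_cast card_erase_le) M0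
    simp only [← mul_div_assoc, mul_left_comm _ (2 * r ^ 2)]
    rw [← sum_div, ← mul_sum, div_le_iff₀ (by positivity), mul_assoc (2 * r ^ 2), mul_comm M]
    exact mul_le_mul_of_nonneg_left k (by positivity)
  · simp only [mul_sum (range I)]
    rw [sum_comm]
    have k : ∑ j ∈ range I, 4800 * (r / 2 ^ j) ^ 2 ≤ 6400 * r ^ 2 := by
      rw [← geo r I]
      exact le_add_of_nonneg_right (by positivity)
    refine (sum_le_sum fun j hj => ?_).trans
      ((sum_mul _ _ W).ge.trans (mul_le_mul_of_nonneg_right k W0))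
    have t0 : 0 < r / 2 ^ j := by positivity
    simp only [mul_left_comm _ (8 / (r / 2 ^ j) ^ 3)]
    rw [← mul_sum, eS]
    refine (mul_le_mul_of_nonneg_left (hS j (mem_range.1 hj)) (by positivity)).trans_eq ?_
    generalize r / 2 ^ j = t at t0
    field_simp
    ring
  · simp only [← mul_div_assoc _ _ e₀]
    rw [← sum_div, eS]
    exact div_le_div_of_nonneg_right hI e0.le

end Pool.Agent.MP_6c3157_co.PQ
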