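import Pool.Agent.MP_6c3157_co.PQ.SpecC

/-! Project PQ, row SUM1: the sum over the cells of one partition. -/

set_option autoImplicit false
set_option linter.unusedSectionVars false

noncomputable section

namespace Pool.Agent.MP_6c3157_co.PQ

open Finset Pool.Agent.MP_6c3157_co.PD

namespace Sum1

variable {X : Type} [DecidableEq X]

/-- the points of `S` with value `v` -/
def fib (g : X → ℕ) (S : Finset X) (v : ℕ) : Finset X := S.filter fun z => g z = v

theorem fib_sub (g : X → ℕ) (S : Finset X) (v : ℕ) : fib g S v ⊆ S := filter_subset _ _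

theorem sum_fib (g : X → ℕ) (S : Finset X) (V : Finset ℕ) (h : ∀ y ∈ S, g y ∈ V) (F : ℕ → ℝ) :
    ∑ y ∈ S, F (g y) = ∑ v ∈ V, ((fib g S v).card : ℝ) * F v := by
  rw [← sum_fiberwise_of_maps_to h]
  refine sum_congr rfl fun v _ => ?_
  rw [sum_congr rfl (g := fun _ => F v) fun y hy => by rw [(mem_filter.1 hy).2]]
  rw [sum_const, nsmul_eq_mul, fib]

theorem ec_split (g : X → ℕ) (E : X → X → Prop) (T T' : Finset X) (V : Finset ℕ)
    (h : ∀ y ∈ T, g y ∈ V) :
    ec (fun y z => E y z ∧ g y = g z) T T' = ∑ v ∈ V, ec E (fib g T v) (fib g T' v) := by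
  classical
  unfold ec
  rw [card_eq_sum_card_fiberwise (f := fun e : X × X => g e.1) (t := V)]
  · refine sum_congr rfl fun v _ => ?_
    congr 1
    ext e
    simp only [fib, mem_filter, mem_product]
    constructor
    · rintro ⟨⟨⟨h1, h2⟩, h3, h4⟩, h5⟩
      exact ⟨⟨⟨h1, h5⟩, h2, h4 ▸ h5⟩, h3⟩
    · rintro ⟨⟨⟨h1, h5⟩, h2, h4⟩, h3⟩
      exact ⟨⟨⟨h1, h2⟩, h3, h5.trans h4.symm⟩, h5⟩
  · intro e he
    simp only [coe_filter, mem_product, Set.mem_ofPred_eq] at he
    exact h _ he.1.1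

theorem ec_le (E : X → X → Prop) (S S' : Finset X) : ec E S S' ≤ S.card * S'.card := by
  classical
  unfold ec
  exact (card_filter_le _ _).trans (card_product _ _).le

theorem ec_mono (E : X → X → Prop) {S S' T T' : Finset X} (h : S ⊆ T) (h' : S' ⊆ T') :
    ec E S S' ≤ ec E T T' := by
  classical
  unfold ec
  exact card_le_card (filter_subset_filter _ (product_subset_product h h'))

theorem erase_count (g : X → ℕ) (T : Finset X) {y : X} (hy : y ∈ T) :
    (∑ z ∈ T.erase y, if g y = g z then (1 : ℝ) else 0) = ((fib g T (g y)).card : ℝ) - 1 := by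
  have h1 := add_sum_erase T (fun z => if g y = g z then (1 : ℝ) else 0) hy
  have h2 : (∑ z ∈ T, if g y = g z then (1 : ℝ) else 0) = (fib g T (g y)).card := by
    rw [fib, card_filter]
    push_cast
    exact sum_congr rfl fun z _ => by simp only [eq_comm]
  rw [if_pos rfl, h2] at h1
  linarith

open Classical in
/-- the bound for one cell, with `p`, `q` the sizes of its traces and `k` the number of edges -/
theorem one (h : PTW) (p q k : ℕ) (m t t' e₀ r n : ℝ) (I : ℕ) (hm : 0 < m) (ht : 0 < t)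
    (ht' : 0 < t') (he : 0 < e₀) (hr : 0 < r) (hr1 : r ≤ 1) (hn : t' ≤ n) (hn4 : 4 * n ≤ t ^ 2)
    (hk : (k : ℝ) ≤ m) (hkp : k ≤ p * q) (hd : e₀ * (t * t') ≤ m)
    (hs : (k : ℝ) ^ 20 * (t * t') ^ 19 ≤ m ^ 20 * ((p : ℝ) * q) ^ 19) :
    (k : ℝ) / m ≤ (p * if r ^ 20 ≤ p / t then (1 : ℝ) else 0) / (r ^ 20 * t) +
      2 * r ^ 2 * (p * ((p : ℝ) - 1)) / t ^ 2 +
      (∑ j ∈ range I, 8 / (r / 2 ^ j) ^ 3 *
        ((q * if p / t ≤ (r / 2 ^ j) ^ 20 then p / t else 0) / t')) +
      ((q * if p / t ≤ (r / 2 ^ I) ^ 20 then p / t else 0) / t') / e₀ := by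
  have hp : (0 : ℝ) ≤ p := Nat.cast_nonneg _
  have hq : (0 : ℝ) ≤ q := Nat.cast_nonneg _
  have ha : (0 : ℝ) ≤ p / t := div_nonneg hp ht.le
  have hr20 : 0 < r ^ 20 := pow_pos hr _
  have hpp : (0 : ℝ) ≤ p * ((p : ℝ) - 1) := by
    rcases Nat.eq_zero_or_pos p with h0 | h0
    · simp [h0]
    · have : (1 : ℝ) ≤ p := by exact_mod_cast h0
      exact mul_nonneg hp (by linarith)
  have n2 : 0 ≤ 2 * r ^ 2 * (p * ((p : ℝ) - 1)) / t ^ 2 := by positivity
  rcases Nat.eq_zero_or_pos k with hk0 | hk0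
  · rw [hk0, Nat.cast_zero, zero_div]
    refine add_nonneg (add_nonneg (add_nonneg ?_ n2) (sum_nonneg fun j _ => ?_)) ?_
    · split_ifs <;> positivity
    · split_ifs <;> positivity
    · split_ifs <;> positivity
  have hq1 : (1 : ℝ) ≤ q := by
    have : 0 < q := Nat.pos_of_ne_zero fun h0 => by rw [h0] at hkp; omega
    exact_mod_cast this
  have hkp' : (k : ℝ) ≤ p * q := by exact_mod_cast hkp
  have htt : 0 < t * t' := mul_pos ht ht'
  have haa : p / t * (q / t') = p * q / (t * t') := by field_simp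
  have key := h (k / m) (p / t) (q / t') r e₀ I (by positivity) ((div_le_one hm).2 hk) ha
    (by positivity) hr hr1 he
    (by rw [haa, div_pow, div_pow, div_le_div_iff₀ (by positivity) (by positivity)]; linarith)
    (by
      rw [haa, div_div, div_le_div_iff₀ hm (by positivity)]
      exact mul_le_mul hkp' (by linarith) (by positivity) (by positivity))
  refine key.trans (add_le_add (add_le_add (add_le_add ?_ ?_) (sum_le_sum fun j _ => ?_)) ?_)
  · split_ifs with h1
    · rw [mul_one, le_div_iff₀ (by positivity), one_mul]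
      exact (le_div_iff₀ ht).1 h1
    · positivity
  · split_ifs with h1
    · have h2 : 4 < (p : ℝ) ^ 2 := by
        rw [div_pow, div_lt_div_iff₀ ht' (by positivity)] at h1
        have h3 : 4 * t' ≤ q * t ^ 2 := by nlinarith [sq_nonneg t]
        nlinarith
      have h4 : (2 : ℝ) ≤ p := by nlinarith
      rw [div_pow, ← mul_div_assoc]
      refine div_le_div_of_nonneg_right ?_ (by positivity)
      have h5 : (p : ℝ) ^ 2 ≤ 2 * (p * ((p : ℝ) - 1)) := by nlinarith
      nlinarith [sq_nonneg r]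
    · exact n2
  · split_ifs with h1
    · exact le_of_eq (by field_simp)
    · simp
  · split_ifs with h1
    · exact le_of_eq (by field_simp)
    · simp

end Sum1

open Sum1 in
theorem sum1 (h : PTW) : SUM1 := by
  intro X PL _ D i E T T' e₀ r n I hE he hr hr1 hn hn4
  classical
  have hm : (0 : ℝ) < ec E T T' := by exact_mod_cast hE.pos
  have hpos : 0 < T.card * T'.card := hE.pos.trans_le (ec_le E T T')
  have ht : (0 : ℝ) < T.card := by exact_mod_cast Nat.pos_of_mul_pos_right hpos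
  have ht' : (0 : ℝ) < T'.card := by exact_mod_cast Nat.pos_of_mul_pos_left hpos
  set g := D.cl i with hg
  set V := (T ∪ T').image g
  have hV : ∀ y ∈ T, g y ∈ V := fun y hy => mem_image_of_mem _ (mem_union_left _ hy)
  have hV' : ∀ y ∈ T', g y ∈ V := fun y hy => mem_image_of_mem _ (mem_union_right _ hy)
  have hsh : ∀ y, D.sh i T y = ((fib g T (g y)).card : ℝ) / T.card := fun _ => rfl
  have e3 : ∀ ρ : ℝ, (∑ y ∈ T', if D.sh i T y ≤ ρ then D.sh i T y else 0) =
      ∑ v ∈ V, ((fib g T' v).card : ℝ) * if ((fib g T v).card : ℝ) / T.card ≤ ρ then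
        ((fib g T v).card : ℝ) / T.card else 0 := fun ρ => by
    simp only [hsh]
    exact sum_fib g T' V hV' fun v => if ((fib g T v).card : ℝ) / T.card ≤ ρ then
      ((fib g T v).card : ℝ) / T.card else 0
  have e1 : (∑ y ∈ T, if r ^ 20 ≤ D.sh i T y then (1 : ℝ) else 0) =
      ∑ v ∈ V, ((fib g T v).card : ℝ) *
        if r ^ 20 ≤ ((fib g T v).card : ℝ) / T.card then (1 : ℝ) else 0 := by
    simp only [hsh]
    exact sum_fib g T V hV fun v =>
      if r ^ 20 ≤ ((fib g T v).card : ℝ) / T.card then (1 : ℝ) else 0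
  have e2 : (∑ y ∈ T, ∑ z ∈ T.erase y, if g y = g z then (1 : ℝ) else 0) =
      ∑ v ∈ V, ((fib g T v).card : ℝ) * (((fib g T v).card : ℝ) - 1) := by
    rw [sum_congr rfl fun y hy => erase_count g T hy]
    exact sum_fib g T V hV fun v => ((fib g T v).card : ℝ) - 1
  rw [ec_split g E T T' V hV, e1, e2]
  simp only [e3]
  push_cast
  simp only [sum_div, mul_sum]
  rw [sum_comm (s := range I), ← sum_add_distrib, ← sum_add_distrib, ← sum_add_distrib]
  refine sum_le_sum fun v _ => ?_
  exact one h _ _ _ _ _ _ e₀ r n I hm ht ht' he hr hr1 hn hn4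
    (by exact_mod_cast ec_mono E (fib_sub g T v) (fib_sub g T' v)) (ec_le E _ _) hE.dense
    (hE.sub _ (fib_sub g T v) _ (fib_sub g T' v))

end Pool.Agent.MP_6c3157_co.PQ
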