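import Pool.Agent.MP_6c3157_co.PQ.SpecA

/-! Project PQ: cells of a point off a curve that meet the curve. -/

set_option autoImplicit false

namespace Pool.Agent.MP_6c3157_co.PQ

open Finset Pool.Agent.MP_6c3157_co.PD

theorem xd (h1 : DPW) (h2 : DET) : XD := by
  intro X PL K _ _ _ s A η Z R G W ε D hA hC hD T k y hT hy hk ho
  have hW : 2000 ≤ W := by
    have := hC.e_pos
    have := hC.e_le
    have := hC.eW
    by_contra c
    nlinarith
  have k1 : (1 : ℝ) ≤ (k : ℝ) ^ 3 := one_le_pow₀ (by exact_mod_cast hk)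
  rcases T.eq_empty_or_nonempty with rfl | hne
  · simp only [Dbl.hit, Dbl.cell, filter_empty, Finset.not_nonempty_empty, if_false, sum_const_zero]
    positivity
  obtain ⟨f, f1, f2⟩ := ho (A.U y) (A.V y)
  have yT : y ∉ T := fun c => f2 (f1 y c)
  obtain ⟨pt, p1, -, p3⟩ := (h1 X PL s Z R G W ε D hA.good hC hD).2 T y yT hne
  obtain ⟨b, b1, -, b2, b3⟩ := exists_linearIndepOn_extension
    (linearIndepOn_empty K (A.row (A.U y) (A.V y) k)) (Set.empty_subset (T : Set X))
  lift b to Finset X using T.finite_toSet.subset b1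
  have yb : y ∉ b := fun c => yT (b1 c)
  have out : A.row (A.U y) (A.V y) k y ∉ Submodule.span K (A.row (A.U y) (A.V y) k '' b) := by
    intro c
    apply f2
    rw [Ari.box]
    refine Submodule.span_induction (p := fun (r : Fin k × Fin k → K) _ => ∑ a, f a * r a = 0) ?_
      (by simp) (fun u v _ _ a1 a2 => ?_) (fun t u _ a1 => ?_) c
    · rintro _ ⟨z, hz, rfl⟩
      exact f1 z (b1 hz)
    · simp only [Pi.add_apply, mul_add, sum_add_distrib, a1, a2, add_zero]
    · simp only [Pi.smul_apply, smul_eq_mul, mul_left_comm _ t, ← mul_sum, a1, mul_zero]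
  have ind : A.Ind (A.U y) (A.V y) k (insert y b) := by
    have := b3.insert out
    rw [← coe_insert] at this
    exact this
  have cd : (insert y b).card ≤ k * k := by
    have := LinearIndependent.fintype_card_le_finrank ind
    simpa using this
  have key := h2 X PL K s A η Z R G W ε hA hC y hy k (insert y b) {y} (fun p _ => pt p)
    (insert_subset hy fun z hz => hT (b1 hz)) (by simp) ind fun p z hz => by
      obtain rfl := mem_singleton.1 hz
      refine ⟨hT (p1 p), fun c => yT (c ▸ p1 p), ?_⟩
      rw [sdiff_singleton_eq_erase, erase_insert yb]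
      exact b2 ⟨_, p1 p, rfl⟩
  rw [sum_singleton] at key
  have c2 : ((insert y b).card : ℝ) ≤ k * k := by exact_mod_cast cd
  have c3 : 3 * ((insert y b).card : ℝ) * k * W ≤ 3 * (k * k) * k * W := by gcongr
  nlinarith

end Pool.Agent.MP_6c3157_co.PQ
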