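import Pool.Agent.MP_6c3157_co.PQ.Dep
import Pool.Agent.MP_6c3157_co.PQ.Dbl
import Pool.Agent.MP_6c3157_co.PQ.Dpw
import Pool.Agent.MP_6c3157_co.PQ.Minor
import Pool.Agent.MP_6c3157_co.PQ.Rowop
import Pool.Agent.MP_6c3157_co.PQ.Dbd
import Pool.Agent.MP_6c3157_co.PQ.Mon
import Pool.Agent.MP_6c3157_co.PQ.Det
import Pool.Agent.MP_6c3157_co.PQ.Grow
import Pool.Agent.MP_6c3157_co.PQ.Greedy
import Pool.Agent.MP_6c3157_co.PQ.Dl
import Pool.Agent.MP_6c3157_co.PQ.Xd
import Pool.Agent.MP_6c3157_co.PQ.Ext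
import Pool.Agent.MP_6c3157_co.PQ.Mcut
import Pool.Agent.MP_6c3157_co.PQ.Hvy
import Pool.Agent.MP_6c3157_co.PQ.Sp
import Pool.Agent.MP_6c3157_co.PQ.Pt
import Pool.Agent.MP_6c3157_co.PQ.Sum1
import Pool.Agent.MP_6c3157_co.PQ.Sum
import Pool.Agent.MP_6c3157_co.PQ.Rare
import Pool.Agent.MP_6c3157_co.PQ.Same

/-! Project PQ: assembly of part C up to the rarity statements. -/

set_option autoImplicit false

namespace Pool.Agent.MP_6c3157_co.PQ

theorem all_det : DET := detS depS minor rowop dbd mon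

theorem all_dl : DL := dl depS (dpw depS) all_det grow (greedy grow)

theorem all_xd : XD := xd (dpw depS) all_det

theorem all_rare : RARE :=
  rare dbl (dpw depS) extS (hvy depS) (sp all_dl all_xd) (sumS (sum1 pt))

theorem all_same : SAME := same mcut all_rare

end Pool.Agent.MP_6c3157_co.PQ
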