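import Pool.Agent.MP_6c3157_co.PQ.SpecG

/-! Project PQ, rows AT0 and AT1: atypical triples. -/

set_option autoImplicit false

noncomputable section

namespace Pool.Agent.MP_6c3157_co.PQ

open Finset Pool.Agent.MP_6c3157_co.PD

namespace At01

open Classical in
theorem tc_eq {X : Type} [DecidableEq X] (lab : X → X → ℝ) (Y : Finset X) (H : X → X → X → Prop) :
    tc lab Y H = ∑ z ∈ Y, ∑ x ∈ Y, ∑ w ∈ Y,
      if z ≠ x ∧ w ≠ x ∧ z ≠ w ∧ lab x z = lab x w ∧ H x z w then 1 else 0 := by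
  rw [tc, card_filter, sum_product, sum_comm (s := Y) (t := Y)]
  refine sum_congr rfl fun x _ => ?_
  rw [sum_product]

theorem le_card {X : Type} {Y : Finset X} (B : Finset X) {p : X → Prop} {_ : DecidablePred p}
    (h : ∀ w ∈ Y, p w → w ∈ B) : (∑ w ∈ Y, if p w then 1 else 0) ≤ B.card :=
  (card_filter p Y).ge.trans (card_le_card fun w hw => h w (mem_filter.1 hw).1 (mem_filter.1 hw).2)

end At01

open At01 in
theorem at0 (h : INC) : AT0 := by
  classical
  intro X PL K _ _ A lab hU hV hl Y At k hk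
  rw [tc_eq, Nat.cast_sum, ← nsmul_eq_mul]
  refine sum_le_card_nsmul _ _ _ fun z hz => ?_
  have h1 := (h X PL K A hU hV z).2 Y ((At z).erase z) (notMem_erase _ _)
  have h2 : (((At z).erase z).card : ℝ) ≤ k :=
    le_trans (by exact_mod_cast card_erase_le) (hk z hz)
  refine le_trans (Nat.cast_le.2 (le_trans (sum_le_sum fun x _ => ?_) h1)) ?_
  · refine le_card _ fun w _ hw => ?_
    obtain ⟨-, -, a, b, c, -⟩ := hw
    exact mem_filter.2 ⟨mem_erase.2 ⟨a.symm, c⟩, hl _ _ _ b⟩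
  · push_cast
    gcongr

open At01 in
theorem at1 : AT1 := by
  classical
  intro X PL K _ _ A lab hl Y At Lw k ν k0 hν hk
  rw [tc_eq, Nat.cast_sum, mul_assoc, ← nsmul_eq_mul]
  refine sum_le_card_nsmul _ _ _ fun z hz => ?_
  rw [sum_comm, Nat.cast_sum]
  refine le_trans (sum_le_sum (g := fun w => if w ∈ At z then k else 0) fun w hw => ?_) ?_
  · by_cases e : z ≠ w ∧ w ∈ At z ∧ ¬ Lw z w
    · rw [if_pos e.2.1]
      exact le_trans (Nat.cast_le.2 (le_card _ fun x a hx =>
        mem_filter.2 ⟨a, hl _ _ _ hx.2.2.2.1⟩)) (hk z hz w hw e.1 e.2.2)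
    · refine le_trans (Nat.cast_le.2 (le_card ∅ fun x _ hx =>
        absurd ⟨hx.2.2.1, hx.2.2.2.2⟩ e)) ?_
      rw [card_empty, Nat.cast_zero]
      split_ifs
      exacts [k0, le_rfl]
  · rw [sum_ite_mem, sum_const, nsmul_eq_mul]
    exact mul_le_mul_of_nonneg_right
      (le_trans (Nat.cast_le.2 (card_le_card inter_subset_right)) (hν z hz)) k0

end Pool.Agent.MP_6c3157_co.PQ
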