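import Pool.Agent.MP_6c3157_co.PQ.SpecD

/-! Project PQ, row AXIS: axes of symmetry of a class. -/

set_option autoImplicit false
set_option linter.unusedSectionVars false

noncomputable section

namespace Pool.Agent.MP_6c3157_co.PQ

open Finset

namespace AxisL

variable {X PL K : Type} [DecidableEq X] [Field K]

/-- all points of `P` are at one distance from `x` -/
def Bad (A : Ari X PL K) (P : Finset X) (x : X) : Prop := ∀ y ∈ P, ∀ z ∈ P, A.bis x y z

theorem bad_unique (h4 : INC) (A : Ari X PL K) (hU : Function.Injective A.U)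
    (hV : Function.Injective A.V) (P : Finset X) (hP : 3 ≤ P.card) (x x' : X)
    (hx : Bad A P x) (hx' : Bad A P x') : x = x' := by
  obtain ⟨a, ha, b, hb, c, hc, hab, hac, hbc⟩ := Finset.two_lt_card.1 (by omega : 2 < P.card)
  exact (h4 X PL K A hU hV a).1 b c x x' hab.symm hac.symm hbc (hx a ha b hb) (hx a ha c hc)
    (hx' a ha b hb) (hx' a ha c hc)

theorem ev_dvd (A : Ari X PL K) {f g : MvPolynomial (Fin 2) K} (h : f ∣ g) {z : X}
    (hz : A.ev f z = 0) : A.ev g z = 0 := by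
  obtain ⟨q, rfl⟩ := h
  unfold Ari.ev at hz ⊢
  rw [map_mul, hz, zero_mul]

/-- the slopes whose reflection keeps the point with offsets `p`, `s` on the curve -/
theorem slopes (h1 : BZ) (h2 : SUBS) (A : Ari X PL K) (f : MvPolynomial (Fin 2) K)
    (P : Finset X) (b : ℕ) (hirr : Irreducible f) (hlo : 1 ≤ bd f) (hhi : bd f ≤ b)
    (hz : ∀ z ∈ P, A.ev f z = 0) (x : X) (hx : ¬ Bad A P x) (p s : K) (hs : s ≠ 0) :
    ∃ S : Finset K, S.card ≤ 2 * b ^ 2 ∧ ∀ r : K, r ≠ 0 →
      MvPolynomial.eval ![A.U x + r * s, A.V x + p / r] f = 0 → r ∈ S := by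
  classical
  obtain ⟨g, hg, hge⟩ := (h2 K).2 (A.U x) (A.V x) (p * s)
  have hnd : ¬ f ∣ g := by
    intro hd
    apply hx
    intro y hy z hz'
    have e1 := ev_dvd A hd (hz y hy)
    have e2 := ev_dvd A hd (hz z hz')
    unfold Ari.ev at e1 e2
    rw [hge] at e1 e2
    unfold Ari.bis
    linear_combination e1 - e2
  let A' : Ari K PL K := ⟨fun r => A.U x + r * s, fun r => A.V x + p / r, A.av, A.sd, A.ar⟩
  have hU' : Function.Injective A'.U := by
    intro r r' h
    have h' : A.U x + r * s = A.U x + r' * s := h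
    exact mul_right_cancel₀ hs (add_left_cancel h')
  have key : ∀ T : Finset K, (∀ r ∈ T, r ≠ 0 ∧
      MvPolynomial.eval ![A.U x + r * s, A.V x + p / r] f = 0) → T.card ≤ 2 * b ^ 2 := by
    intro T hT
    have hb := h1 K PL K A' hU' f g b T hirr hnd hhi (by omega)
    refine le_trans (Finset.card_le_card ?_) hb
    intro r hr
    obtain ⟨h0, he⟩ := hT r hr
    refine Finset.mem_filter.2 ⟨hr, he, ?_⟩
    show MvPolynomial.eval ![A.U x + r * s, A.V x + p / r] g = 0
    rw [hge]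
    field_simp
    ring
  have hfin : {r : K | r ≠ 0 ∧ MvPolynomial.eval ![A.U x + r * s, A.V x + p / r] f = 0}.Finite := by
    by_contra hinf
    obtain ⟨T, hT, hc⟩ := Set.Infinite.exists_subset_card_eq hinf (2 * b ^ 2 + 1)
    have := key T fun r hr => hT (Finset.mem_coe.2 hr)
    omega
  refine ⟨hfin.toFinset, key _ fun r hr => (hfin.mem_toFinset.1 hr), fun r h0 he => ?_⟩
  exact hfin.mem_toFinset.2 ⟨h0, he⟩

/-- many mirror points force the whole curve to be symmetric -/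
theorem sym (h1 : BZ) (h2 : SUBS) (h3 : REFL) (A : Ari X PL K) (hU : Function.Injective A.U)
    (hV : Function.Injective A.V) (f : MvPolynomial (Fin 2) K) (P : Finset X)
    (hirr : Irreducible f) (hz : ∀ z ∈ P, A.ev f z = 0) (x x' : X) (hx' : x' ≠ x) (r : K)
    (h0 : r ≠ 0) (hr : A.U x' - A.U x = r * (A.V x' - A.V x))
    (hm : ¬ (A.mir P x x').card ≤ 2 * bd f ^ 2) (y : X) (hy : y ∈ P) :
    MvPolynomial.eval ![A.U x + r * (A.V y - A.V x), A.V x + (A.U y - A.U x) / r] f = 0 := by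
  classical
  obtain ⟨g, hg, hge⟩ := (h2 K).1 f (A.U x - r * A.V x) r (A.V x - A.U x / r) (1 / r)
  have hev : ∀ w : X, A.ev g w = MvPolynomial.eval
      ![A.U x + r * (A.V w - A.V x), A.V x + (A.U w - A.U x) / r] f := by
    intro w
    unfold Ari.ev
    rw [hge]
    have e1 : A.U x - r * A.V x + r * A.V w = A.U x + r * (A.V w - A.V x) := by ring
    have e2 : A.V x - A.U x / r + 1 / r * A.U w = A.V x + (A.U w - A.U x) / r := by ring
    rw [e1, e2]
  have hd : f ∣ g := by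
    by_contra hnd
    apply hm
    have hb := h1 X PL K A hU f g (bd f) P hirr hnd le_rfl hg
    refine le_trans (Finset.card_le_card ?_) hb
    intro w hw
    unfold Ari.mir at hw
    obtain ⟨hwP, w', hw'P, hne, b1, b2⟩ := Finset.mem_filter.1 hw
    obtain ⟨e1, e2⟩ := (h3 X PL K A hU hV x x' w w' r hx' hr).1 hne.symm b1 b2
    refine Finset.mem_filter.2 ⟨hwP, hz w hwP, ?_⟩
    have e3 : A.U x + r * (A.V w - A.V x) = A.U w' := by linear_combination -e1
    have e4 : A.V x + (A.U w - A.U x) / r = A.V w' := by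
      rw [← e2]
      field_simp
      ring
    rw [hev, e3, e4]
    exact hz w' hw'P
  rw [← hev]
  exact ev_dvd A hd (hz y hy)

end AxisL

open AxisL in
theorem axis (h1 : BZ) (h2 : SUBS) (h3 : REFL) (h4 : INC) : AXIS := by
  intro X PL K _ _ A hU hV f P b hirr hlo hhi hz hP
  classical
  have he : ∃ e : X, ∀ x, x ≠ e → ¬ Bad A P x := by
    by_cases h : ∃ e, Bad A P e
    · obtain ⟨e, he⟩ := h
      exact ⟨e, fun x hx hb => hx (bad_unique h4 A hU hV P hP x e hb he)⟩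
    · obtain ⟨e, -⟩ := Finset.card_pos.1 (by omega : 0 < P.card)
      exact ⟨e, fun x _ hb => h ⟨x, hb⟩⟩
  obtain ⟨e, he⟩ := he
  refine ⟨e, fun x hx => ?_⟩
  obtain ⟨y₀, hy₀, hne⟩ := Finset.exists_mem_ne (by omega : 1 < P.card) x
  have hs : A.V y₀ - A.V x ≠ 0 := sub_ne_zero.2 fun h => hne (hV h)
  obtain ⟨S, hS, hmem⟩ := slopes h1 h2 A f P b hirr hlo hhi hz x (he x hx)
    (A.U y₀ - A.U x) (A.V y₀ - A.V x) hs
  have hrep : ∀ r : K, ∃ w : X, w ≠ x ∧ ((∃ x₁, x₁ ≠ x ∧ A.U x₁ - A.U x = r * (A.V x₁ - A.V x)) →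
      A.U w - A.U x = r * (A.V w - A.V x)) := by
    intro r
    by_cases h : ∃ x₁, x₁ ≠ x ∧ A.U x₁ - A.U x = r * (A.V x₁ - A.V x)
    · obtain ⟨w, hw, hw'⟩ := h
      exact ⟨w, hw, fun _ => hw'⟩
    · exact ⟨y₀, hne, fun h' => absurd h' h⟩
  choose rep hrx hrs using hrep
  refine ⟨S.image rep, le_trans Finset.card_image_le hS, ?_, fun x' hx' => ?_⟩
  · intro h
    obtain ⟨r, -, hr⟩ := Finset.mem_image.1 h
    exact hrx r hr
  have hv : A.V x' - A.V x ≠ 0 := sub_ne_zero.2 fun h => hx' (hV h)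
  have hu : A.U x' - A.U x ≠ 0 := sub_ne_zero.2 fun h => hx' (hU h)
  set r : K := (A.U x' - A.U x) / (A.V x' - A.V x) with hrdef
  have h0 : r ≠ 0 := div_ne_zero hu hv
  have hr : A.U x' - A.U x = r * (A.V x' - A.V x) := by
    rw [hrdef]
    field_simp
  by_cases hm : (A.mir P x x').card ≤ 2 * bd f ^ 2
  · exact Or.inl hm
  · refine Or.inr ⟨rep r, Finset.mem_image_of_mem _ (hmem r h0
      (sym h1 h2 h3 A hU hV f P hirr hz x x' hx' r h0 hr hm y₀ hy₀)), fun y y' hyy b1 b2 => ?_⟩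
    obtain ⟨e1, e2⟩ := (h3 X PL K A hU hV x x' y y' r hx' hr).1 hyy b1 b2
    exact (h3 X PL K A hU hV x (rep r) y y' r (hrx r) (hrs r ⟨x', hx', hr⟩)).2 e1 e2

end Pool.Agent.MP_6c3157_co.PQ
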