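import Pool.Agent.MP_6c3157_co.PQ.SpecA

/-! Project PQ, row BOXP: box functions are the polynomials of small degree in each variable. -/

set_option autoImplicit false

noncomputable section

namespace Pool.Agent.MP_6c3157_co.PQ

open Finset Pool.Agent.MP_6c3157_co.PD MvPolynomial

namespace Boxp

variable {K : Type} [Field K]

/-- translation of the variables -/
def tau (w : Fin 2 → K) : MvPolynomial (Fin 2) K →ₐ[K] MvPolynomial (Fin 2) K :=
  aeval fun i => X i - C (w i)

theorem eval_tau (w a : Fin 2 → K) (g : MvPolynomial (Fin 2) K) :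
    eval a (tau w g) = eval (a - w) g := by
  induction g using MvPolynomial.induction_on with
  | C c => simp [tau]
  | add p q hp hq => simp only [map_add, hp, hq]
  | mul_X p i hp => simp only [map_mul, hp]; simp [tau]

theorem tau_tau (w : Fin 2 → K) (g : MvPolynomial (Fin 2) K) : tau (-w) (tau w g) = g := by
  induction g using MvPolynomial.induction_on with
  | C c => simp [tau]
  | add p q hp hq => simp only [map_add, hp, hq]
  | mul_X p i hp => simp only [map_mul, hp]; simp [tau]

theorem deg_lin (c : K) (i j : Fin 2) :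
    (X j - C c : MvPolynomial (Fin 2) K).degreeOf i ≤ if i = j then 1 else 0 := by
  refine (degreeOf_sub_le _ _ _).trans (max_le ?_ ?_)
  · rw [degreeOf_X]
  · rw [degreeOf_C]; exact Nat.zero_le _

theorem deg_tau (w : Fin 2 → K) (g : MvPolynomial (Fin 2) K) (i : Fin 2) :
    (tau w g).degreeOf i ≤ g.degreeOf i := by
  conv_lhs => rw [g.as_sum, map_sum]
  refine (degreeOf_sum_le _ _ _).trans (Finset.sup_le fun m hm => ?_)
  refine le_trans ?_ (monomial_le_degreeOf i hm)
  rw [tau, aeval_monomial, Finsupp.prod_fintype _ _ (fun _ => pow_zero _), Fin.prod_univ_two,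
    algebraMap_eq]
  refine (degreeOf_C_mul_le _ _ _).trans ((degreeOf_mul_le _ _ _).trans ?_)
  refine (Nat.add_le_add ((degreeOf_pow_le _ _ _).trans (Nat.mul_le_mul_left _ (deg_lin _ _ _)))
    ((degreeOf_pow_le _ _ _).trans (Nat.mul_le_mul_left _ (deg_lin _ _ _)))).trans ?_
  fin_cases i <;> simp

theorem bd_tau (w : Fin 2 → K) (g : MvPolynomial (Fin 2) K) : bd (tau w g) ≤ bd g :=
  max_le_max (deg_tau w g 0) (deg_tau w g 1)

/-- the exponent of a cell of the box -/
def ex {k : ℕ} (a : Fin k × Fin k) : Fin 2 →₀ ℕ :=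
  Finsupp.single 0 (a.1 : ℕ) + Finsupp.single 1 (a.2 : ℕ)

theorem ex_zero {k : ℕ} (a : Fin k × Fin k) : ex a 0 = a.1 := by simp [ex]

theorem ex_one {k : ℕ} (a : Fin k × Fin k) : ex a 1 = a.2 := by simp [ex]

theorem ex_inj {k : ℕ} : Function.Injective (ex (k := k)) := fun a b h =>
  Prod.ext (Fin.ext (by rw [← ex_zero, h, ex_zero])) (Fin.ext (by rw [← ex_one, h, ex_one]))

/-- the polynomial with coefficients `f` -/
def pol {k : ℕ} (f : Fin k × Fin k → K) : MvPolynomial (Fin 2) K := ∑ a, monomial (ex a) (f a)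

theorem coeff_pol {k : ℕ} (f : Fin k × Fin k → K) (a : Fin k × Fin k) :
    coeff (ex a) (pol f) = f a := by
  simp [pol, coeff_sum, coeff_monomial, ex_inj.eq_iff]

theorem eval_pol {k : ℕ} (f : Fin k × Fin k → K) (a : Fin 2 → K) :
    eval a (pol f) = ∑ b, f b * (a 0 ^ (b.1 : ℕ) * a 1 ^ (b.2 : ℕ)) := by
  simp only [pol, map_sum, eval_monomial, Finsupp.prod_fintype _ _ (fun _ => pow_zero _),
    Fin.prod_univ_two, ex_zero, ex_one]

theorem bd_pol {k : ℕ} (hk : 0 < k) (f : Fin k × Fin k → K) : bd (pol f) < k := by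
  have h : ∀ i, (pol f).degreeOf i < k := fun i => by
    refine (degreeOf_sum_le _ _ _).trans_lt ((Finset.sup_lt_iff hk).2 fun a _ => ?_)
    refine (degreeOf_le_iff.2 fun m hm => ?_ : _ ≤ ex a i).trans_lt ?_
    · rw [Finset.mem_singleton.1 (support_monomial_subset hm)]
    · fin_cases i
      · exact (ex_zero a).trans_lt a.1.2
      · exact (ex_one a).trans_lt a.2.2
  exact max_lt (h 0) (h 1)

theorem pol_coeff {k : ℕ} {g : MvPolynomial (Fin 2) K} (h : bd g < k) :
    pol (fun a : Fin k × Fin k => coeff (ex a) g) = g := by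
  ext m
  by_cases u : ∃ a : Fin k × Fin k, ex a = m
  · obtain ⟨a, rfl⟩ := u
    exact coeff_pol _ a
  · have h0 : coeff m g = 0 := by
      by_contra n
      have n' := mem_support_iff.2 n
      refine u ⟨(⟨m 0, ((monomial_le_degreeOf 0 n').trans (le_max_left _ _)).trans_lt h⟩,
        ⟨m 1, ((monomial_le_degreeOf 1 n').trans (le_max_right _ _)).trans_lt h⟩), ?_⟩
      ext i
      fin_cases i
      · exact ex_zero _
      · exact ex_one _
    rw [h0, pol, coeff_sum]
    exact Finset.sum_eq_zero fun a _ => by rw [coeff_monomial, if_neg fun e => u ⟨a, e⟩]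

end Boxp

open Boxp in
theorem boxp : BOXP := by
  intro X PL K _ _ A u v k
  have e : ∀ (f : Fin k × Fin k → K) z,
      A.box u v k f z = eval (![A.U z, A.V z] - ![u, v]) (pol f) := fun f z => by
    rw [eval_pol]; rfl
  refine ⟨fun f hf => ?_, fun g hg => ?_⟩
  · obtain ⟨a, ha⟩ := Function.ne_iff.1 hf
    refine ⟨tau ![u, v] (pol f), fun n => ha ?_, (bd_tau _ _).trans_lt (bd_pol a.1.pos f),
      fun z => (eval_tau _ _ _).trans (e f z).symm⟩
    rw [← coeff_pol f a, ← tau_tau ![u, v] (pol f), n, map_zero]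
    rfl
  · refine ⟨fun a => coeff (ex a) (tau (-![u, v]) g), fun z => ?_⟩
    rw [e, pol_coeff ((bd_tau _ _).trans_lt hg), eval_tau, sub_neg_eq_add, sub_add_cancel]
    rfl

end Pool.Agent.MP_6c3157_co.PQ
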