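import Pool.Agent.MP_6c3157_co.PQ.SpecA

/-! Project PQ, row BZ: common zeros of two plane curves. -/

set_option autoImplicit false

namespace Pool.Agent.MP_6c3157_co.PQ

open Finset Pool.Agent.MP_6c3157_co.PD

namespace Bz

open MvPolynomial

variable {K : Type} [Field K]

theorem det_le {σ n : Type} [Fintype n] [DecidableEq n] (i : σ) (M : Matrix n n (MvPolynomial σ K))
    {D : ℕ} (h : ∀ a c, (M a c).degreeOf i ≤ D) : M.det.degreeOf i ≤ Fintype.card n * D := by
  rw [Matrix.det_apply']
  refine (degreeOf_sum_le _ _ _).trans (Finset.sup_le fun π _ => (degreeOf_mul_le _ _ _).trans ?_)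
  rw [← map_intCast (C : K →+* MvPolynomial σ K), degreeOf_C, zero_add]
  exact (degreeOf_prod_le _ _ _).trans ((sum_le_card_nsmul _ _ D fun a _ => h _ _).trans_eq rfl)

/-- Elimination of the first variable. -/
theorem elim {f g : MvPolynomial (Fin 2) K} (hf : Irreducible f) (hfg : ¬f ∣ g) {b : ℕ}
    (f0 : f.degreeOf 0 ≤ b) (f1 : f.degreeOf 1 ≤ b) (g0 : g.degreeOf 0 ≤ b)
    (g1 : g.degreeOf 1 ≤ b) : ∃ R : MvPolynomial (Fin 1) K, R ≠ 0 ∧ R.degreeOf 0 ≤ 2 * b ^ 2 ∧
      ∀ (a : K) (y : Fin 1 → K), eval (Fin.cons a y) f = 0 → eval (Fin.cons a y) g = 0 →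
        eval y R = 0 := by
  classical
  have cf := fun i => (degreeOf_coeff_finSuccEquiv f 0 i).trans f1
  have cg := fun i => (degreeOf_coeff_finSuccEquiv g 0 i).trans g1
  have hFi := (MulEquiv.irreducible_iff (finSuccEquiv K 1)).2 hf
  have hFG : ¬finSuccEquiv K 1 f ∣ finSuccEquiv K 1 g := fun h =>
    hfg ((map_dvd_iff (finSuccEquiv K 1)).1 h)
  rw [← natDegree_finSuccEquiv] at f0 g0
  simp only [eval_eq_eval_mv_eval']
  generalize finSuccEquiv K 1 f = F at *
  generalize finSuccEquiv K 1 g = G at *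
  by_cases h0 : F.natDegree = 0
  · refine ⟨F.coeff 0, fun h => hFi.ne_zero ?_, (cf 0).trans (by nlinarith), fun a y h1 _ => ?_⟩
    · rw [Polynomial.eq_C_of_natDegree_eq_zero h0, h, map_zero]
    · rw [Polynomial.eq_C_of_natDegree_eq_zero h0] at h1
      simpa using h1
  refine ⟨Polynomial.resultant F G, fun h => ?_, ?_, fun a y h1 h2 => ?_⟩
  · let L := FractionRing (MvPolynomial (Fin 1) K)
    have hinj : Function.Injective (algebraMap (MvPolynomial (Fin 1) K) L) :=
      IsFractionRing.injective _ _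
    have hp := hFi.isPrimitive h0
    have h1 : Irreducible (F.map (algebraMap _ L)) :=
      hp.irreducible_iff_irreducible_map_fraction_map.1 hFi
    have h3 := Polynomial.resultant_ne_zero _ _ (h1.coprime_iff_not_dvd.2 fun h =>
      hFG (hp.dvd_of_fraction_map_dvd_fraction_map h))
    rw [Polynomial.natDegree_map_eq_of_injective hinj,
      Polynomial.natDegree_map_eq_of_injective hinj, Polynomial.resultant_map_map, h,
      map_zero] at h3
    exact h3 rfl
  · refine (det_le 0 (Polynomial.sylvester F G F.natDegree G.natDegree) (D := b)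
      fun i j => ?_).trans (by rw [Fintype.card_fin]; nlinarith)
    induction j using Fin.addCases with
    | left j =>
      simp only [Polynomial.sylvester, Matrix.of_apply, Fin.addCases_left]
      split_ifs
      exacts [cg _, by simp]
    | right j =>
      simp only [Polynomial.sylvester, Matrix.of_apply, Fin.addCases_right]
      split_ifs
      exacts [cf _, by simp]
  · obtain ⟨p, q, -, -, e⟩ := Polynomial.exists_mul_add_mul_eq_C_resultant F G le_rfl le_rfl
      (Or.inl h0)
    have := congrArg (fun P => Polynomial.eval a (P.map (eval y))) e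
    simpa [h1, h2] using this.symm

/-- A polynomial in one variable. -/
theorem one {R : MvPolynomial (Fin 1) K} (h : R ≠ 0) : ∃ P : Polynomial K, P ≠ 0 ∧
    P.natDegree ≤ R.degreeOf 0 ∧ ∀ a, P.eval a = eval ![a] R := by
  refine ⟨(finSuccEquiv K 0 R).map (eval ![]), fun e => h ?_,
    Polynomial.natDegree_map_le.trans_eq (natDegree_finSuccEquiv R),
    fun a => (eval_eq_eval_mv_eval' _ a R).symm⟩
  refine (map_eq_zero_iff _ (finSuccEquiv K 0).injective).1
    ((Polynomial.map_eq_zero_iff fun p q k => ?_).1 e)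
  rw [eq_C_of_isEmpty p, eq_C_of_isEmpty q, eval_C, eval_C] at k
  rw [eq_C_of_isEmpty p, eq_C_of_isEmpty q, k]

end Bz

open MvPolynomial in
theorem bz : BZ := by
  intro X PL K _ _ A hU f g b T hf hfg fb gb
  classical
  let e := renameEquiv K (Equiv.swap (0 : Fin 2) 1)
  have d : ∀ (p : MvPolynomial (Fin 2) K) i, bd p ≤ b → (e p).degreeOf i ≤ b := fun p i h => by
    obtain ⟨j, rfl⟩ := (Equiv.swap (0 : Fin 2) 1).surjective i
    refine (degreeOf_rename_of_injective (Equiv.injective _) j).trans_le (le_trans ?_ h)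
    fin_cases j
    exacts [le_max_left _ _, le_max_right _ _]
  have v : ∀ p z, eval (Fin.cons (A.V z) ![A.U z]) (e p) = A.ev p z := fun p z =>
    (eval_rename _ _ p).trans (congrArg (eval · p) (funext fun i => by fin_cases i <;> rfl))
  obtain ⟨R, r0, r1, r2⟩ := Bz.elim ((MulEquiv.irreducible_iff e).2 hf)
    (fun h => hfg ((map_dvd_iff e).1 h)) (d f 0 fb) (d f 1 fb) (d g 0 gb) (d g 1 gb)
  obtain ⟨P, p0, p1, p2⟩ := Bz.one r0
  refine (card_le_card_of_injOn (t := P.roots.toFinset) A.U (fun z hz => ?_) hU.injOn).trans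
    ((Multiset.toFinset_card_le _).trans (P.card_roots'.trans (p1.trans r1)))
  have k := (mem_filter.1 hz).2
  exact Multiset.mem_toFinset.2 ((Polynomial.mem_roots p0).2
    ((p2 _).trans (r2 _ _ ((v f z).trans k.1) ((v g z).trans k.2))))

end Pool.Agent.MP_6c3157_co.PQ
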