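import Pool.Agent.MP_6c3157_co.PQ.SpecD

/-! Project PQ, part D: two clusters in one fibre, and a large subset with few low pairs. -/

set_option autoImplicit false

noncomputable section

namespace Pool.Agent.MP_6c3157_co.PQ

open Finset

namespace Cl2

variable {X : Type} [DecidableEq X]

open Classical in
/-- out-degree -/
def od (C : Finset X) (H : X → X → Prop) (y : X) : ℕ := (C.filter fun z => y ≠ z ∧ H y z).card

theorem ec_eq (C : Finset X) (H : X → X → Prop) : ed C H = ∑ y ∈ C, od C H y := by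
  classical
  unfold ed od
  rw [card_filter, sum_product]
  refine sum_congr rfl fun y _ => ?_
  rw [card_filter]

theorem key (C N : Finset X) (H : X → X → Prop) (f : X → ℕ) (hN : N ⊆ C) (hne : N.Nonempty)
    (h1 : ∀ y ∈ N, f y ≤ N.card) (h2 : ∀ y ∈ N, f y ≤ od C H y) :
    ∃ y ∈ N, (f y : ℝ) ≤ Real.sqrt (ed C H) := by
  obtain ⟨y, hy, hm⟩ := exists_min_image N f hne
  refine ⟨y, hy, Real.le_sqrt_of_sq_le ?_⟩
  have a1 : N.card * f y ≤ ∑ z ∈ N, od C H z := by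
    have := card_nsmul_le_sum N (od C H) (f y) fun z hz => (hm z hz).trans (h2 z hz)
    simpa using this
  have a2 : ∑ z ∈ N, od C H z ≤ ed C H := by
    rw [ec_eq]
    exact sum_le_sum_of_subset hN
  have a3 : f y ^ 2 ≤ ed C H := by
    rw [sq]
    exact (Nat.mul_le_mul_right _ (h1 y hy)).trans (a1.trans a2)
  exact_mod_cast a3

end Cl2

theorem cl2 : CL2 := by
  classical
  intro X _ C d Lw δ hδ h0 htri hL
  rcases C.eq_empty_or_nonempty with rfl | hne
  · exact ⟨∅, Subset.rfl, ∅, Subset.rfl, disjoint_empty_left _, by simp, by simp, by simp⟩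
  have hne' : ∀ y z, δ ≤ d y z → y ≠ z := fun y z h e => by
    rw [e, h0] at h
    exact absurd h (not_le.2 hδ)
  obtain ⟨H, hH⟩ : ∃ H : X → X → Prop, H = fun y z => δ ≤ d y z ∧ ¬ Lw y z := ⟨_, rfl⟩
  rw [← hH]
  obtain ⟨y₀, hy₀, b₀⟩ := Cl2.key C C H (Cl2.od C H) Subset.rfl hne
    (fun y _ => card_filter_le _ _) fun _ _ => le_rfl
  have dia : ∀ (w : X) (S : Finset X), ∀ y ∈ S.filter fun z => d w z < δ,
      ∀ z ∈ S.filter fun z => d w z < δ, d y z ≤ 2 * δ := fun w S y hy z hz => by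
    have := htri y z w
    have := (mem_filter.1 hy).2
    have := (mem_filter.1 hz).2
    linarith
  obtain ⟨N, hN⟩ : ∃ N, N = C.filter fun z => δ ≤ d y₀ z ∧ Lw y₀ z := ⟨_, rfl⟩
  have mN : ∀ z, z ∈ N ↔ z ∈ C ∧ δ ≤ d y₀ z ∧ Lw y₀ z := fun z => by rw [hN, mem_filter]
  have hs : N ⊆ C := fun z hz => ((mN z).1 hz).1
  have two : ∃ y₁ : X, ((N.filter fun z => δ ≤ d y₁ z).card : ℝ) ≤ Real.sqrt (ed C H) := by
    rcases N.eq_empty_or_nonempty with e | hn
    · exact ⟨y₀, by rw [e]; simp⟩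
    obtain ⟨y, -, hy⟩ := Cl2.key C N H (fun y => (N.filter fun z => δ ≤ d y z).card) hs hn
      (fun y _ => card_filter_le _ _) fun y hy => by
        unfold Cl2.od
        refine card_le_card fun z hz => ?_
        obtain ⟨z1, z2⟩ := mem_filter.1 hz
        obtain ⟨a1, a2, a3⟩ := (mN y).1 hy
        obtain ⟨c1, c2, c3⟩ := (mN z).1 z1
        refine mem_filter.2 ⟨c1, hne' _ _ z2, ?_⟩
        rw [hH]
        exact ⟨z2, hL y₀ hy₀ y a1 z c1 (hne' _ _ a2) (hne' _ _ c2) (hne' _ _ z2) a3 c3⟩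
    exact ⟨y, hy⟩
  obtain ⟨y₁, b₁⟩ := two
  refine ⟨C.filter fun z => d y₀ z < δ, filter_subset _ _, N.filter fun z => d y₁ z < δ,
    (filter_subset _ _).trans hs, disjoint_left.2 fun z h1 h2 => ?_, dia _ _, dia _ _, ?_⟩
  · exact absurd (mem_filter.1 h1).2 (not_lt.2 ((mN z).1 (mem_filter.1 h2).1).2.1)
  have sub : (C \ ((C.filter fun z => d y₀ z < δ) ∪ N.filter fun z => d y₁ z < δ)).card ≤
      Cl2.od C H y₀ + (N.filter fun z => δ ≤ d y₁ z).card := by
    unfold Cl2.od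
    refine (card_le_card fun z hz => ?_).trans (card_union_le _ _)
    obtain ⟨z1, z2⟩ := mem_sdiff.1 hz
    rw [mem_union, not_or, mem_filter, mem_filter] at z2
    have z3 : δ ≤ d y₀ z := not_lt.1 fun h => z2.1 ⟨z1, h⟩
    by_cases hl : Lw y₀ z
    · have z4 := (mN z).2 ⟨z1, z3, hl⟩
      exact mem_union_right _ (mem_filter.2 ⟨z4, not_lt.1 fun h => z2.2 ⟨z4, h⟩⟩)
    · refine mem_union_left _ (mem_filter.2 ⟨z1, hne' _ _ z3, ?_⟩)
      rw [hH]
      exact ⟨z3, hl⟩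
  have sub' := (Nat.cast_le (α := ℝ)).2 sub
  rw [Nat.cast_add] at sub'
  linarith

theorem pick : PICK := by
  classical
  intro X _ C Lw ζ c h0 h1 hc hL
  have hC : (0 : ℝ) ≤ C.card := Nat.cast_nonneg _
  have hz : ζ * c ≤ 2 * ζ * C.card := by nlinarith
  by_cases h : ∃ y ∈ C, ζ * c ≤ Cl2.od C Lw y
  · obtain ⟨y, hy, h⟩ := h
    unfold Cl2.od at h
    refine ⟨_, filter_subset _ _, h, ?_⟩
    have e : ed (C.filter fun z => y ≠ z ∧ Lw y z) Lw = 0 := by
      unfold ed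
      refine card_eq_zero.2 (filter_eq_empty_iff.2 fun e he h' => ?_)
      obtain ⟨e1, e2⟩ := mem_product.1 he
      obtain ⟨a1, a2, a3⟩ := mem_filter.1 e1
      obtain ⟨c1, c2, c3⟩ := mem_filter.1 e2
      exact hL y hy _ a1 _ c1 a2 c2 h'.1 a3 c3 h'.2
    rw [e, Nat.cast_zero]
    positivity
  · refine ⟨C, Subset.rfl, by nlinarith, ?_⟩
    rw [Cl2.ec_eq, Nat.cast_sum]
    have := sum_le_card_nsmul C (fun y => (Cl2.od C Lw y : ℝ)) (2 * ζ * C.card) fun y hy =>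
      (not_le.1 fun h' => h ⟨y, hy, h'⟩).le.trans hz
    rw [nsmul_eq_mul] at this
    nlinarith

end Pool.Agent.MP_6c3157_co.PQ
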