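import Pool.Agent.MP_6c3157_co.PQ.SpecD

/-! Project PQ, row CLG: the clusters of all fibres. -/

set_option autoImplicit false

namespace Pool.Agent.MP_6c3157_co.PQ

open Finset Pool.Agent.MP_6c3157_co.PD

theorem Clg.one {κ : ℝ} (hκ : 1 ≤ κ) {J N B : ℕ} (h1 : J ≤ N) (h2 : (J : ℝ) ≤ 2 * √B) :
    (J : ℝ) ≤ 2 * gf κ N + B / κ ^ 2 := by
  have k0 : 0 < κ := by linarith
  have h1' : (J : ℝ) ≤ N := by exact_mod_cast h1
  have n0 : (0 : ℝ) ≤ N := Nat.cast_nonneg N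
  have b0 : (0 : ℝ) ≤ B / κ ^ 2 := by positivity
  have g0 : 0 ≤ gf κ N := le_min n0 (by positivity)
  by_cases c : (B : ℝ) ≤ κ ^ 2 * N
  · have := Real.sqrt_le_sqrt c
    rw [Real.sqrt_mul (sq_nonneg κ), Real.sqrt_sq k0.le] at this
    have : (J : ℝ) / 2 ≤ gf κ N := le_min (by linarith) (by linarith)
    linarith
  · have : (N : ℝ) ≤ B / κ ^ 2 := by rw [le_div_iff₀ (by positivity)]; linarith
    linarith

theorem clg (h1 : CL2) (h2 : GFB) : CLG := by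
  intro X PL _ _ s R Z Un Lw δ κ hm hδ hκ hU
  classical
  let Co : X → ℝ → Finset X := fun x l =>
    Z.filter fun y => x ∈ Z ∧ y ≠ x ∧ s.lab x y = l ∧ ¬Un x y
  have mem : ∀ {x l y}, y ∈ Co x l ↔ y ∈ Z ∧ x ∈ Z ∧ y ≠ x ∧ s.lab x y = l ∧ ¬Un x y := mem_filter
  choose c₁ s₁ c₂ s₂ hd d₁ d₂ hr using fun x l => h1 X (Co x l) (dis s R x) Lw δ hδ
    (fun y => by simp [dis])
    (fun y z w => by
      rw [dis, dis, dis, ← sum_add_distrib]
      refine sum_le_sum fun p _ => ?_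
      rw [← mul_add, abs_sub_comm (dep s R p x w) (dep s R p x y)]
      exact mul_le_mul_of_nonneg_left (abs_sub_le _ _ _) (hm p))
    fun y₀ a y₁ b y₂ c e1 e2 e3 l1 l2 l3 => by
      obtain ⟨a1, a2, a3, a4, a5⟩ := mem.1 a
      obtain ⟨b1, -, b3, b4, -⟩ := mem.1 b
      obtain ⟨c1, -, c3, c4, -⟩ := mem.1 c
      exact a5 (hU x a2 y₀ a1 y₁ b1 y₂ c1 a3 b3 c3 e1 e2 e3 (b4.trans a4.symm) (c4.trans a4.symm)
        l1 l2 l3)
  refine ⟨c₁, c₂, ⟨fun x l y h => ?_, fun x l y h => ?_, hd, d₁, d₂⟩, ?_⟩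
  · have := mem.1 (s₁ x l h); exact ⟨this.1, this.2.2.1, this.2.2.2.1⟩
  · have := mem.1 (s₂ x l h); exact ⟨this.1, this.2.2.1, this.2.2.2.1⟩
  have k1 : junk s Z c₁ c₂ ≤ ed Z Un + ∑ x ∈ Z, ∑ l ∈ (Z.erase x).image (s.lab x),
      (Co x l \ (c₁ x l ∪ c₂ x l)).card := by
    simp only [← card_sigma]
    rw [junk, ed, ← card_filter_add_card_filter_not (fun e : X × X => Un e.1 e.2)]
    refine add_le_add (card_le_card fun e he => ?_) (card_le_card_of_injOn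
      (fun e => ⟨e.1, s.lab e.1 e.2, e.2⟩) (fun e he => ?_) fun e _ e' _ h => ?_)
    · simp only [mem_filter] at he ⊢
      exact ⟨he.1.1, he.1.2.1, he.2⟩
    · simp only [coe_filter, mem_filter, mem_product, Set.mem_ofPred_eq] at he
      obtain ⟨⟨⟨a, b⟩, c, d, f⟩, g⟩ := he
      exact mem_sigma.2 ⟨a, mem_sigma.2 ⟨mem_image_of_mem _ (mem_erase.2 ⟨Ne.symm c, b⟩),
        mem_sdiff.2 ⟨mem.2 ⟨b, a, Ne.symm c, rfl, g⟩, fun u => (mem_union.1 u).elim d f⟩⟩⟩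
    · exact Prod.ext (congrArg (·.1) h) (congrArg (·.2.2) h)
  have k2 : ∑ x ∈ Z, ∑ l ∈ (Z.erase x).image (s.lab x),
      ed (Co x l) (fun y z => δ ≤ dis s R x y z ∧ ¬Lw y z) ≤
      tc s.lab Z fun x y z => δ ≤ dis s R x y z ∧ ¬Lw y z := by
    simp only [ed, ← card_sigma]
    refine card_le_card_of_injOn (fun t => (t.1, t.2.2)) (fun t ht => ?_) fun t ht t' ht' h => ?_
    · obtain ⟨a, b⟩ := mem_sigma.1 ht
      obtain ⟨c, d, f⟩ := mem_filter.1 (mem_sigma.1 b).2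
      obtain ⟨y1, -, y2, y3, -⟩ := mem.1 (mem_product.1 c).1
      obtain ⟨z1, -, z2, z3, -⟩ := mem.1 (mem_product.1 c).2
      simp only [coe_filter, mem_product, Set.mem_ofPred_eq]
      exact ⟨⟨a, y1, z1⟩, y2, z2, d, y3.trans z3.symm, f⟩
    · obtain ⟨x, l, e⟩ := t
      obtain ⟨x', l', e'⟩ := t'
      obtain ⟨rfl, rfl⟩ := Prod.mk.inj h
      have y := (mem.1 (mem_product.1 (mem_filter.1 (mem_sigma.1 (mem_sigma.1 ht).2).2).1).1).2.2.2.1
      have y' :=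
        (mem.1 (mem_product.1 (mem_filter.1 (mem_sigma.1 (mem_sigma.1 ht').2).2).1).1).2.2.2.1
      obtain rfl : l = l' := y.symm.trans y'
      rfl
  have k1' := Nat.cast_le (α := ℝ).2 k1
  have k2' := div_le_div_of_nonneg_right (Nat.cast_le (α := ℝ).2 k2) (sq_nonneg κ)
  push_cast at k1' k2'
  rw [(h2.2.2.2 X s.lab κ Z hκ).1, add_assoc]
  refine k1'.trans (add_le_add le_rfl (le_trans ?_ (add_le_add le_rfl k2')))
  simp only [mul_sum, sum_div, ← sum_add_distrib]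
  refine sum_le_sum fun x _ => sum_le_sum fun l _ => Clg.one hκ (card_le_card fun y hy => ?_) (hr x l)
  obtain ⟨a, -, b, c, -⟩ := mem.1 (mem_sdiff.1 hy).1
  exact mem_filter.2 ⟨mem_erase.2 ⟨b, a⟩, c⟩

end Pool.Agent.MP_6c3157_co.PQ
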