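import Pool.Agent.MP_6c3157_co.PQ.SpecA
import Mathlib.Algebra.MvPolynomial.NoZeroDivisors

/-! Project PQ, row CLS: the classes. -/

set_option autoImplicit false

namespace Pool.Agent.MP_6c3157_co.PQ

open Finset Pool.Agent.MP_6c3157_co.PD

namespace Cls

theorem bd_le {K : Type} [Field K] {f g : MvPolynomial (Fin 2) K} (hg : g ≠ 0) (h : f ∣ g) :
    bd f ≤ bd g := by
  obtain ⟨c, rfl⟩ := h
  have hf := left_ne_zero_of_mul hg
  have hc := right_ne_zero_of_mul hg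
  unfold bd
  rw [MvPolynomial.degreeOf_mul_eq hf hc, MvPolynomial.degreeOf_mul_eq hf hc]
  omega

end Cls

open Classical in
theorem cls (h1 : BZ) (h2 : BOXP) (h3 : LINE) (h4 : POOR) (h5 : RICH) : CLS := by
  intro X PL K _ _ A hU hV Q b ν hν
  obtain ⟨C, f, k1, k2, k3⟩ := h5 X PL K A Q b ν hν
  refine ⟨C, fun P => bd (f P), fun P hP => ?_, fun P hP P' hP' hne => ?_, fun k hk u v c hc => ?_⟩
  · obtain ⟨a1, a2, a3, a4, a5, a6⟩ := k1 P hP
    refine ⟨a1, a2, a5, a4, fun k hk u v c hc => ?_, fun y => h3 X PL K A hU hV _ P y a3 a6⟩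
    obtain ⟨g, g0, g1, g2⟩ := (h2 X PL K A u v k).1 c hc
    replace hk : k ≤ bd (f P) := hk
    have e := h1 X PL K A hU (f P) g b P a3 (fun d => by have := Cls.bd_le g0 d; omega) a4
      (by omega)
    rw [filter_congr (q := fun z => A.box u v k c z = 0) fun z hz => by
      rw [g2, and_iff_right (a6 z hz)]] at e
    exact_mod_cast e
  · obtain ⟨-, -, a3, a4, -, a6⟩ := k1 P hP
    obtain ⟨-, -, -, b4, -, b6⟩ := k1 P' hP'
    obtain ⟨-, -, b3, -⟩ := k1 P' hP'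
    refine ⟨(k2 P hP P' hP' hne).1, _, h1 X PL K A hU (f P') (f P) b P' b3
      (k2 P' hP' P hP hne.symm).2 b4 a4, fun y hy hE u v => ?_⟩
    obtain ⟨c, hc⟩ := (h2 X PL K A u v (bd (f P) + 1)).2 (f P) (Nat.lt_succ_self _)
    refine ⟨c, fun z hz => (hc z).trans (a6 z hz), fun e => hE ?_⟩
    exact mem_filter.2 ⟨hy, b6 y hy, (hc y).symm.trans e⟩
  · obtain ⟨g, g0, g1, g2⟩ := (h2 X PL K A u v k).1 c hc
    have e := h4 X PL K A _ b ν hν k3 g g0 (by omega)
    simpa only [g2] using e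

end Pool.Agent.MP_6c3157_co.PQ
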