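import Pool.Agent.MP_6c3157_co.PQ.SpecD
import Pool.Agent.MP_6c3157_co.PQ.Cls

/-! Project PQ, row CLS2: the classes with all their properties. -/

set_option autoImplicit false

namespace Pool.Agent.MP_6c3157_co.PQ

open Finset Pool.Agent.MP_6c3157_co.PD

open Classical in
theorem cls2 (h1 : BZ) (h2 : BOXP) (h3 : LINE) (h4 : POOR) (h5 : RICH) (h6 : CONIC) (h7 : AXIS) :
    CLS2 := by
  intro X PL K _ _ A hU hV Q b ν hν
  have hν0 : 0 ≤ ν := by linarith
  obtain ⟨C, f, k1, k2, k3⟩ := h5 X PL K A Q b ν hν0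
  have hs : ∑ P ∈ C, (P.card : ℝ) ≤ Q.card := by
    have e : (C.biUnion id).card = ∑ P ∈ C, (id P).card :=
      card_biUnion fun P hP P' hP' hne => (k2 P hP P' hP' hne).1
    have l : (C.biUnion id).card ≤ Q.card :=
      card_le_card (biUnion_subset.2 fun P hP => (k1 P hP).1)
    rw [e] at l
    exact_mod_cast l
  refine ⟨C, fun P => bd (f P), ⟨fun P hP => (k1 P hP).1, fun P hP => (k1 P hP).2.1,
    fun P hP => (k1 P hP).2.2.2.2.1, fun P hP => (k1 P hP).2.2.2.1, fun P hP k hk u v c hc => ?_,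
    fun P hP y => h3 X PL K A hU hV _ P y (k1 P hP).2.2.1 (k1 P hP).2.2.2.2.2,
    fun P hP => h6 X PL K A hU hV _ P (k1 P hP).2.2.1 (k1 P hP).2.2.2.2.1 (k1 P hP).2.2.2.2.2,
    fun P hP => ?_, fun P hP P' hP' hne => (k2 P hP P' hP' hne).1, fun P hP P' hP' hne => ?_,
    fun P hP => ?_, fun k hk u v c hc => ?_⟩, ?_, hs⟩
  · obtain ⟨-, -, a3, a4, -, a6⟩ := k1 P hP
    obtain ⟨g, g0, g1, g2⟩ := (h2 X PL K A u v k).1 c hc
    replace hk : k ≤ bd (f P) := hk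
    have e := h1 X PL K A hU (f P) g b P a3 (fun d => by have := Cls.bd_le g0 d; omega) a4
      (by omega)
    rw [filter_congr (q := fun z => A.box u v k c z = 0) fun z hz => by
      rw [g2, and_iff_right (a6 z hz)]] at e
    exact_mod_cast e
  · obtain ⟨-, a2, a3, a4, a5, a6⟩ := k1 P hP
    have h : (2 : ℝ) < P.card := lt_of_le_of_lt hν a2
    have h' : 2 < P.card := by exact_mod_cast h
    exact h7 X PL K A hU hV (f P) P b a3 a5 a4 a6 h'
  · obtain ⟨-, -, a3, a4, -, a6⟩ := k1 P hP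
    obtain ⟨-, -, b3, b4, -, b6⟩ := k1 P' hP'
    refine ⟨_, h1 X PL K A hU (f P') (f P) b P' b3
      (k2 P' hP' P hP hne.symm).2 b4 a4, fun y hy hE u v => ?_⟩
    obtain ⟨c, hc⟩ := (h2 X PL K A u v (bd (f P) + 1)).2 (f P) (Nat.lt_succ_self _)
    refine ⟨c, fun z hz => (hc z).trans (a6 z hz), fun e => hE ?_⟩
    exact mem_filter.2 ⟨hy, b6 y hy, (hc y).symm.trans e⟩
  · obtain ⟨-, -, a3, a4, -, a6⟩ := k1 P hP
    refine ⟨_, k3 (f P) a3 a4, fun y hy hE u v => ?_⟩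
    obtain ⟨c, hc⟩ := (h2 X PL K A u v (bd (f P) + 1)).2 (f P) (Nat.lt_succ_self _)
    refine ⟨c, fun z hz => (hc z).trans (a6 z hz), fun e => hE ?_⟩
    exact mem_filter.2 ⟨hy, (hc y).symm.trans e⟩
  · obtain ⟨g, g0, g1, g2⟩ := (h2 X PL K A u v k).1 c hc
    have e := h4 X PL K A _ b ν hν0 k3 g g0 (by omega)
    simpa only [g2] using e
  · refine le_trans ?_ hs
    rw [← nsmul_eq_mul]
    exact card_nsmul_le_sum C _ ν fun P hP => (k1 P hP).2.1.le

end Pool.Agent.MP_6c3157_co.PQ
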