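import Pool.Agent.MP_6c3157_co.PQ.SpecD

/-! Row CSL: Cauchy-Schwarz over the bases. -/

set_option autoImplicit false

namespace Pool.Agent.MP_6c3157_co.PQ

open Finset

namespace Csl

open Classical in
theorem one {X : Type} [DecidableEq X] (A : Finset X) (H : X → X → Prop) (c : ℝ)
    (h : ∀ x ∈ A, ((A.filter fun x' => x' ≠ x ∧ ¬ H x x').card : ℝ) ≤ c) :
    (A.card : ℝ) ^ 2 ≤ (1 + c) * A.card + ed A H := by
  have e : (ed A H : ℝ) = ∑ x ∈ A, ((A.filter fun x' => x ≠ x' ∧ H x x').card : ℝ) := by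
    simp only [ed, card_filter, sum_product]
    push_cast
    rfl
  have k : ∀ x ∈ A, (A.card : ℝ) ≤ 1 + c + (A.filter fun x' => x ≠ x' ∧ H x x').card := by
    intro x hx
    have s : A ⊆ {x} ∪ (A.filter fun x' => x' ≠ x ∧ ¬ H x x') ∪
        (A.filter fun x' => x ≠ x' ∧ H x x') := by
      intro y hy
      by_cases e : y = x
      · simp [e]
      · by_cases g : H x y <;> simp [hy, e, g, Ne.symm e]
    have := (card_le_card s).trans ((card_union_le _ _).trans
      (Nat.add_le_add_right (card_union_le _ _) _))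
    rw [card_singleton] at this
    have t : (A.card : ℝ) ≤ 1 + ((A.filter fun x' => x' ≠ x ∧ ¬ H x x').card : ℝ) +
        (A.filter fun x' => x ≠ x' ∧ H x x').card := by exact_mod_cast this
    linarith [h x hx]
  have := sum_le_sum k
  rw [sum_add_distrib, ← e, sum_const, sum_const, nsmul_eq_mul, nsmul_eq_mul] at this
  linarith

open Classical in
theorem two {X ι : Type} [DecidableEq X] (Z : Finset X) (B : Finset ι) (a : ι → Finset X)
    (H : X → X → Prop) (μ : ℝ) (hZ : ∀ i ∈ B, a i ⊆ Z)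
    (h : ∀ x ∈ Z, ∀ x' ∈ Z, x ≠ x' → ((B.filter fun i => x ∈ a i ∧ x' ∈ a i).card : ℝ) ≤ μ) :
    ∑ i ∈ B, (ed (a i) H : ℝ) ≤ μ * ed Z H := by
  set F := (Z ×ˢ Z).filter fun e => e.1 ≠ e.2 ∧ H e.1 e.2 with hF
  have e : ∀ i ∈ B, (ed (a i) H : ℝ) = ∑ e ∈ F, if e.1 ∈ a i ∧ e.2 ∈ a i then (1 : ℝ) else 0 := by
    intro i hi
    rw [sum_boole, ed]
    congr 2
    ext e
    simp only [hF, mem_filter, mem_product]
    exact ⟨fun h => ⟨⟨⟨hZ i hi h.1.1, hZ i hi h.1.2⟩, h.2⟩, h.1⟩, fun h => ⟨h.2, h.1.2⟩⟩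
  rw [sum_congr rfl e, sum_comm]
  refine (sum_le_card_nsmul _ _ μ fun e he => ?_).trans (by rw [nsmul_eq_mul, mul_comm]; rfl)
  rw [sum_boole]
  simp only [hF, mem_filter, mem_product] at he
  exact h _ he.1.1 _ he.1.2 he.2.1

end Csl

theorem csl : CSL := by
  intro X ι _ Z B a H β μ hβ hμ hZ h1 h2
  have s1 := sum_le_sum fun i hi => Csl.one (a i) H (2 * β) (h1 i hi)
  rw [sum_add_distrib, ← mul_sum] at s1
  have s2 := Csl.two Z B a H μ hZ h2
  have s3 := sq_sum_le_card_mul_sum_sq (s := B) (f := fun i => ((a i).card : ℝ))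
  set S := ∑ i ∈ B, ((a i).card : ℝ)
  have n0 : (0 : ℝ) ≤ B.card := by positivity
  have E0 : (0 : ℝ) ≤ μ * ed Z H := by positivity
  have s4 : S ^ 2 ≤ B.card * ((1 + 2 * β) * S + μ * ed Z H) :=
    s3.trans (mul_le_mul_of_nonneg_left (by linarith) n0)
  have q := Real.sq_sqrt (show (0 : ℝ) ≤ B.card * (2 * μ * ed Z H) by positivity)
  have q0 := Real.sqrt_nonneg (B.card * (2 * μ * ed Z H))
  set r := Real.sqrt (B.card * (2 * μ * ed Z H))
  by_contra g
  have g := not_le.1 g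
  have b0 : 0 ≤ (1 + 2 * β) * B.card := by positivity
  have m := mul_nonneg n0 E0
  have u : r < S - (1 + 2 * β) * B.card := by linarith
  have v : r < S := by linarith
  nlinarith [mul_lt_mul'' u v q0 q0]

end Pool.Agent.MP_6c3157_co.PQ
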