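import Pool.Agent.MP_6c3157_co.PQ.SpecA

/-! Project PQ, row DEP: sums of depths. -/

set_option autoImplicit false

namespace Pool.Agent.MP_6c3157_co.PQ

open Finset Pool.Agent.MP_6c3157_co.PD

theorem depS : DEP := by
  intro X PL _ _ s Z R G W ε hs hc x hx y hy hxy
  have dp : ∀ p, 0 < (s.c p).d x y := fun p => Cells.Good.d_pos (hs.good p) hxy
  have e : ∀ p, dep s R p x y = Real.log (R p) - Real.log ((s.c p).d x y) := fun p =>
    Real.log_div (hc.R_pos p).ne' (dp p).ne'
  have h1 : ∑ p, s.m p * dep s R p x y = W := by
    simp only [e, mul_sub, sum_sub_distrib, hs.pf x y hxy, hc.W_eq, sub_zero]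
  have h2 : ∑ p, s.m p * max 0 (-dep s R p x y) ≤ 3 * ε * W := by
    have k : ∀ p, max 0 (-dep s R p x y) ≤ (s.c p).xi + (G p x + G p y) := fun p => by
      have a := hc.G_lo p x
      have b := hc.G_lo p y
      have c := Cells.Good.xi_nonneg (hs.good p)
      have l := Cells.Good.lam_pos (hs.good p)
      have r := hc.R_pos p
      have t := Real.log_le_log (dp p) (hc.out p x hx y hy)
      rw [Real.log_mul (by positivity) (by positivity), Real.log_mul l.ne' r.ne', Real.log_exp] at t
      have u := (hs.good p).log_lam
      have v : max (G p x) (G p y) ≤ G p x + G p y := max_le (by linarith) (by linarith)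
      exact max_le (by linarith) (by rw [e]; linarith)
    refine (hs.sum_le k).trans ?_
    simp only [mul_add, sum_add_distrib]
    linarith [hs.xi_sum, hc.eW, hc.G_sum x hx, hc.G_sum y hy]
  have h3 : ∑ p, s.m p * max 0 (dep s R p x y) ≤ (1 + 3 * ε) * W := by
    have k : ∀ p, max 0 (dep s R p x y) = dep s R p x y + max 0 (-dep s R p x y) := fun p => by
      rcases le_total 0 (dep s R p x y) with t | t
      · rw [max_eq_right t, max_eq_left (by linarith), add_zero]
      · rw [max_eq_left t, max_eq_right (by linarith), add_neg_cancel]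
    rw [sum_congr rfl fun p _ => by rw [k p, mul_add], sum_add_distrib]
    linarith
  exact ⟨h1, h2, h3, le_trans (hs.sum_le fun p => max_le_max le_rfl (min_le_left _ _)) h3⟩

end Pool.Agent.MP_6c3157_co.PQ
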