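import Pool.Agent.MP_6c3157_co.PQ.SpecD

/-! Project PQ, part D: the top of the block. -/

noncomputable section

namespace Pool.Agent.MP_6c3157_co.PQ

open Finset Pool.Agent.MP_6c3157_co.PD

namespace Dtop

variable {X PL K : Type} [DecidableEq X] [Field K]

theorem ed_mono {Z : Finset X} {H H' : X → X → Prop}
    (h : ∀ y ∈ Z, ∀ z ∈ Z, y ≠ z → H' y z → H y z) : (ed Z H' : ℝ) ≤ ed Z H := by
  refine Nat.cast_le.2 (card_le_card fun e he => ?_)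
  simp only [mem_filter, mem_product] at he ⊢
  exact ⟨he.1, he.2.1, h _ he.1.1 _ he.1.2 he.2.1 he.2.2⟩

theorem cnt_mono {A : Ari X PL K} {Z : Finset X} {C : Finset (Finset X)} {β : Finset X → ℕ}
    {H H' : X → X → Prop} {k M n : ℝ} (c : Cnt A Z C β H k M n)
    (h : ∀ y ∈ Z, ∀ z ∈ Z, y ≠ z → H' y z → H y z) : Cnt A Z C β H' k M n :=
  ⟨c.k_lo, c.M_lo, (ed_mono fun y hy z hz e u => ⟨h y hy z hz e u.1, u.2⟩).trans c.gen,
    fun P hP => (ed_mono fun y hy z hz =>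
      h y (mem_inter.1 hy).1 z (mem_inter.1 hz).1).trans (c.same P hP)⟩

theorem W_pos [Fintype PL] {s : Sys X PL} {Z : Finset X} {R : PL → ℝ} {G : PL → X → ℝ} {W ε : ℝ}
    (c : Cen s Z R G W ε) : 0 < W :=
  (mul_pos_iff_of_pos_left c.e_pos).1 (by linarith [c.eW])

end Dtop

open Dtop

theorem pins (h1 : APB) (h2 : PIN) (h3 : MULT) : PINS := by
  classical
  intro X PL K _ _ _ s A η Z₀ Z R₀ R G₀ W₀ ε₀ Λ₀ k t hA hC hc hΛ hk hZ hR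
  refine ⟨fun x _ x' _ y _ z _ e e' b b' u => ?_, fun y hy z hz e u => ?_, fun x hx w e => ?_⟩
  · exact ((h1 X PL K s A η R hA hR).2.2.2 x x' y z e e' b b').trans_le u
  · exact (Nat.cast_le.2 (card_le_card (filter_subset_filter _ hZ))).trans
      (h2 X PL K s A η Z₀ R₀ G₀ W₀ ε₀ Λ₀ k hA hC hc hΛ hk y (hZ hy) z (hZ hz) e (not_le.1 u))
  · refine (Nat.cast_le.2 (card_le_card fun y hy => ?_)).trans
      (h3 X PL K s A η Z₀ R₀ G₀ W₀ ε₀ Λ₀ k hA hC hc hΛ (by linarith) x (hZ hx) w e)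
    simp only [mem_filter] at hy ⊢
    obtain ⟨a, z, b, c, d, f, g⟩ := hy
    exact ⟨hZ a, z, hZ b, c, d, f, not_le.1 g⟩

theorem uedge (h1 : FAR) (h2 : UNIT) : UEDGE := by
  intro X PL K _ _ _ s A η Z₀ Z R₀ G₀ W₀ ε₀ b ν C β t₀ k M₀ n κ hA hC hZ hl hs hc ht hκ
  refine h2 X PL K A s.lab hA.lab Z₀ Z b ν C β _ k M₀ n κ hκ hs hl
    (cnt_mono hc fun y hy z hz e u => ?_)
  have a := (h1 X PL K s A η Z₀ R₀ G₀ W₀ ε₀ hA hC y (hZ hy) z (hZ hz) e).1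
  have := mul_le_mul_of_nonneg_right hC.e_le (W_pos hC).le
  have := W_pos hC
  linarith

theorem dtop (h1 : FAR) (h2 : TRI) (h3 : PINS) (h4 : UEDGE) (h5 : FPC) (h6 : CLG) : DTOP := by
  intro X PL K _ _ _ s A η Z₀ Z R₀ R G₀ G W₀ ε₀ Λ₀ W ε c b ν C β t₀ k M₀ M n κ hA hC₀ hc hΛ hk hZ hn
    hC he hl hs hb c0 ht c1 hκ
  have w := W_pos hC
  have e := hC.e_pos
  have ew := mul_le_mul_of_nonneg_right he w.le
  obtain ⟨c₁, c₂, u, v⟩ := h6 X PL s R Z (fun x y => slp s R₀ x y ≤ 36 * ε₀ * W₀)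
    (fun y z => slp s R₀ y z ≤ 12 * ε₀ * W₀) (c * W) κ (fun p => hA.good.m_lo p)
    (mul_pos (by linarith) w) hκ fun x _ y₀ _ y₁ _ y₂ _ _ _ _ a₁ a₂ a₃ l₁ l₂ b₁ b₂ b₃ => by
      have := h2 X PL K s A η R₀ hA hC₀.R_pos x y₀ y₁ y₂ a₁ a₂ a₃ (hA.lab _ _ _ l₁.symm)
        (hA.lab _ _ _ l₂.symm)
      linarith
  have a := h4 X PL K s A η Z₀ Z R₀ G₀ W₀ ε₀ b ν C β t₀ k M₀ n κ hA hC₀ hZ hl hs c0 ht hκ
  have f := h5 X PL K A hA.U_inj hA.V_inj Z₀ Z b ν C β _ _ k M n hZ hn hs hl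
    (cnt_mono (H' := fun y z => slp s R y z ≤ W - c * W / 3) c1 fun y hy z hz e u => by
      have := (h1 X PL K s A η Z R G W ε hA hC y hy z hz e).1
      linarith)
    (h3 X PL K s A η Z₀ Z R₀ R G₀ W₀ ε₀ Λ₀ k _ hA hC₀ hc hΛ hk hZ hC.R_pos) hb
  have g : (tc s.lab Z fun x y z => c * W ≤ dis s R x y z ∧ ¬slp s R₀ y z ≤ 12 * ε₀ * W₀ : ℝ) ≤
      (20 * M + 30) * n ^ 2 := by
    refine le_trans (Nat.cast_le.2 (card_le_card fun t ht => ?_)) f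
    simp only [mem_filter, mem_product] at ht ⊢
    obtain ⟨m, -, -, e, l, d, x⟩ := ht
    have := (h1 X PL K s A η Z R G W ε hA hC _ m.2.1 _ m.2.2 e).2.2 _ m.1 (hA.lab _ _ _ l)
    exact ⟨m, e, hA.lab _ _ _ l, by linarith, x⟩
  refine ⟨c₁, c₂, u, v.trans ?_⟩
  have := div_le_div_of_nonneg_right g (sq_nonneg κ)
  have r : (14 / k + 2 * M₀ / κ + (20 * M + 30) / κ ^ 2) * n ^ 2 =
    (14 / k + 2 * M₀ / κ) * n ^ 2 + (20 * M + 30) * n ^ 2 / κ ^ 2 := by ring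
  linarith

end Pool.Agent.MP_6c3157_co.PQ
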