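import Pool.Agent.MP_6c3157_co.PQ.SpecD

/-! Project PQ, row FAR: slope height against double depth; far points of a fibre. -/

set_option autoImplicit false
set_option linter.unusedSectionVars false

noncomputable section

namespace Pool.Agent.MP_6c3157_co.PQ

open Finset Pool.Agent.MP_6c3157_co.PD

namespace Far

theorem p1 (a b : ℝ) : a ≤ max 0 (a - b) + max 0 (min a b) := by
  have e := le_max_right 0 (min a b)
  have e1 := le_max_left 0 (a - b)
  have e2 := le_max_right 0 (a - b)
  rcases min_cases a b with ⟨f, _⟩ | ⟨f, _⟩ <;> linarith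

theorem p2 (a b : ℝ) : max 0 (a - b) ≤ max 0 a + max 0 (-b) := by
  have a1 := le_max_left 0 a
  have a2 := le_max_right 0 a
  have b1 := le_max_left 0 (-b)
  have b2 := le_max_right 0 (-b)
  exact max_le (by linarith) (by linarith)

theorem p3 {l l1 lb lb1 u ub : ℝ} (h1 : u - ub = l1 - lb) (h2 : u - ub = l - lb1) :
    |l - l1| / 2 + max 0 (u - ub) + ub / 2 ≤ u / 2 + l / 2 + lb / 2 +
      max 0 (-l) + max 0 (-l1) + max 0 (-lb) + max 0 (-lb1) := by
  have a1 := le_max_left 0 (-l)
  have a2 := le_max_right 0 (-l)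
  have b1 := le_max_left 0 (-l1)
  have b2 := le_max_right 0 (-l1)
  have c1 := le_max_left 0 (-lb)
  have c2 := le_max_right 0 (-lb)
  have d1 := le_max_left 0 (-lb1)
  have d2 := le_max_right 0 (-lb1)
  rcases max_cases 0 (u - ub) with ⟨f, _⟩ | ⟨f, _⟩ <;>
    rcases abs_cases (l - l1) with ⟨g, _⟩ | ⟨g, _⟩ <;> linarith

end Far

theorem far (h1 : DEP) (h2 : APB) : FAR := by
  intro X PL K _ _ _ s A η Z R G W ε hA hC y hy z hz hyz
  have hs := hA.good
  obtain ⟨c1, c2, c4, -⟩ := h1 X PL s Z R G W ε hs hC y hy z hz hyz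
  have c3 := hs.sum_bar fun p => dep s R p y z
  have c5 := hs.sum_bar fun p => max 0 (-dep s R p y z)
  have hW : 0 ≤ W := by
    by_contra hn
    have := mul_neg_of_pos_of_neg hC.e_pos (not_le.1 hn)
    linarith [hC.eW]
  have heW : ε * W ≤ 1 / 100 * W := mul_le_mul_of_nonneg_right hC.e_le hW
  refine ⟨?_, ?_, fun x hx hb => ?_⟩
  · have k := hs.sum_le fun p => Far.p1 (dep s R p y z) (dep s R (s.bar p) y z)
    simp only [mul_add, sum_add_distrib] at k
    unfold slp del dd
    linarith
  · have k := hs.sum_le fun p => Far.p2 (dep s R p y z) (dep s R (s.bar p) y z)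
    simp only [mul_add, sum_add_distrib] at k
    unfold slp
    linarith
  · obtain ⟨hyx, hzx, e1⟩ := (h2 X PL K s A η R hA hC.R_pos).1 x y z hyz hb
    obtain ⟨-, -, e2⟩ := (h2 X PL K s A η R hA hC.R_pos).1 x z y hyz.symm (Eq.symm hb)
    have sy : ∀ p, dep s R p z y = dep s R p y z := fun p => by
      unfold dep
      rw [hA.d_eq, hA.d_eq, AbsoluteValue.map_sub]
    simp only [sy] at e2
    obtain ⟨a1, a2, -⟩ := h1 X PL s Z R G W ε hs hC x hx y hy hyx.symm
    obtain ⟨-, b2, -⟩ := h1 X PL s Z R G W ε hs hC x hx z hz hzx.symm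
    have a3 := hs.sum_bar fun p => dep s R p x y
    have a4 := hs.sum_bar fun p => max 0 (-dep s R p x y)
    have b4 := hs.sum_bar fun p => max 0 (-dep s R p x z)
    have k := hs.sum_le fun p => Far.p3 (e1 p) (e2 p)
    simp only [mul_add, sum_add_distrib, ← mul_div_assoc, ← sum_div] at k
    unfold dis slp
    linarith

end Pool.Agent.MP_6c3157_co.PQ
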