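import Pool.Agent.MP_6c3157_co.PQ.SpecD

/-! Project PQ, row FPC: the count of bad triples. -/

set_option autoImplicit false
set_option linter.unusedSectionVars false

noncomputable section

namespace Pool.Agent.MP_6c3157_co.PQ

open Finset Pool.Agent.MP_6c3157_co.PD

namespace FpcAux

variable {X PL K : Type} [DecidableEq X] [Field K]

open Classical in
theorem tb_le_ec (A : Ari X PL K) (Z Y : Finset X) (H : X → X → Prop) (k : ℝ)
    (h : ∀ y ∈ Y, ∀ z ∈ Y, y ≠ z → H y z → ((Z.filter fun x => A.bis x y z).card : ℝ) ≤ k) :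
    (A.tb Z Y H : ℝ) ≤ k * ed Y H := by
  unfold Ari.tb ed
  set T := (Z ×ˢ Y ×ˢ Y).filter fun t : X × X × X =>
    t.2.1 ≠ t.2.2 ∧ A.bis t.1 t.2.1 t.2.2 ∧ H t.2.1 t.2.2 with hT
  set E := (Y ×ˢ Y).filter fun e : X × X => e.1 ≠ e.2 ∧ H e.1 e.2 with hE
  have hmap : ∀ t ∈ T, t.2 ∈ E := by
    intro t ht
    simp only [hT, hE, mem_filter, mem_product] at ht ⊢
    exact ⟨⟨ht.1.2.1, ht.1.2.2⟩, ht.2.1, ht.2.2.2⟩
  rw [card_eq_sum_card_fiberwise (f := fun t : X × X × X => t.2) hmap]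
  push_cast
  have : ∀ e ∈ E, (((T.filter fun t => t.2 = e).card : ℕ) : ℝ) ≤ k := by
    intro e he
    simp only [hE, mem_filter, mem_product] at he
    refine le_trans ?_ (h e.1 he.1.1 e.2 he.1.2 he.2.1 he.2.2)
    have : (T.filter fun t => t.2 = e).card ≤ (Z.filter fun x => A.bis x e.1 e.2).card := by
      refine card_le_card_of_injOn (fun t => t.1) ?_ ?_
      · intro t ht
        simp only [hT, coe_filter, mem_filter, mem_product, Set.mem_ofPred_eq] at ht ⊢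
        obtain ⟨⟨h1, h2⟩, h3⟩ := ht
        rw [← h3]
        exact ⟨h1.1, h2.2.1⟩
      · intro t ht t' ht' htt
        simp only [coe_filter, Set.mem_ofPred_eq] at ht ht'
        exact Prod.ext htt (ht.2.trans ht'.2.symm)
    exact_mod_cast this
  calc ∑ e ∈ E, (((T.filter fun t => t.2 = e).card : ℕ) : ℝ) ≤ ∑ _e ∈ E, k := sum_le_sum this
    _ = k * E.card := by rw [sum_const, nsmul_eq_mul, mul_comm]

open Classical in
theorem ec_mono (Y : Finset X) (H H' : X → X → Prop) (h : ∀ y z, H y z → H' y z) :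
    ed Y H ≤ ed Y H' := by
  unfold ed
  refine card_le_card ?_
  intro e he
  simp only [mem_filter] at he ⊢
  exact ⟨he.1, he.2.1, h _ _ he.2.2⟩

open Classical in
theorem tb_split (A : Ari X PL K) (Z : Finset X) (C : Finset (Finset X)) (G : X → X → Prop) :
    A.tb Z Z G ≤ A.tb Z Z (fun y z => G y z ∧ ¬ ∃ P ∈ C, y ∈ P ∧ z ∈ P) +
      ∑ P ∈ C, A.tb Z (Z ∩ P) G := by
  unfold Ari.tb
  refine le_trans ?_ (Nat.add_le_add_left card_biUnion_le _)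
  refine le_trans (card_le_card ?_) (card_union_le _ _)
  intro t ht
  simp only [mem_filter, mem_product, mem_union, mem_biUnion, mem_inter] at ht ⊢
  by_cases hP : ∃ P ∈ C, t.2.1 ∈ P ∧ t.2.2 ∈ P
  · obtain ⟨P, hPC, h1, h2⟩ := hP
    exact Or.inr ⟨P, hPC, ⟨ht.1.1, ⟨ht.1.2.1, h1⟩, ht.1.2.2, h2⟩, ht.2⟩
  · exact Or.inl ⟨ht.1, ht.2.1, ht.2.2.1, ht.2.2.2, hP⟩

end FpcAux

open FpcAux in
theorem fpc (h1 : FPK) : FPC := by
  intro X PL K _ _ A hU hV Q Z b ν C β H Lw k M n hZQ hQ hsum hC hN hP hCb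
  classical
  have hk : (0 : ℝ) < k := lt_of_lt_of_le one_pos hN.k_lo
  have hM : (1 : ℝ) ≤ M := hN.M_lo
  have hn : (0 : ℝ) ≤ n := le_trans (Nat.cast_nonneg _) hQ
  have hgen : (A.tb Z Z (fun y z => (H y z ∧ ¬ Lw y z) ∧ ¬ ∃ P ∈ C, y ∈ P ∧ z ∈ P) : ℝ) ≤
      10 * n ^ 2 := by
    refine le_trans (tb_le_ec A Z Z _ k ?_) ?_
    · intro y hy z hz hyz hh
      exact hP.pin y hy z hz hyz hh.1.2
    · have h2 : (ed Z (fun y z => (H y z ∧ ¬ Lw y z) ∧ ¬ ∃ P ∈ C, y ∈ P ∧ z ∈ P) : ℝ) ≤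
          ed Z (fun y z => H y z ∧ ¬ ∃ P ∈ C, y ∈ P ∧ z ∈ P) := by
        exact_mod_cast ec_mono Z
          (fun y z => (H y z ∧ ¬ Lw y z) ∧ ¬ ∃ P ∈ C, y ∈ P ∧ z ∈ P)
          (fun y z => H y z ∧ ¬ ∃ P ∈ C, y ∈ P ∧ z ∈ P) (fun y z hh => ⟨hh.1.1, hh.2⟩)
      have h3 := le_trans h2 hN.gen
      calc k * (ed Z (fun y z => (H y z ∧ ¬ Lw y z) ∧ ¬ ∃ P ∈ C, y ∈ P ∧ z ∈ P) : ℝ)
          ≤ k * (10 * n ^ 2 / k) := mul_le_mul_of_nonneg_left h3 hk.le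
        _ = 10 * n ^ 2 := by field_simp
  have hone : ∀ P ∈ C, (A.tb Z (Z ∩ P) (fun y z => H y z ∧ ¬ Lw y z) : ℝ) ≤
      (19 * M + 8) * n * P.card + n * (2 * (b : ℝ) ^ 2 * k) := by
    intro P hPC
    have hp0 : (0 : ℝ) ≤ P.card := Nat.cast_nonneg _
    have hnp : 0 ≤ n * P.card := mul_nonneg hn hp0
    have hb : 0 ≤ n * (2 * (b : ℝ) ^ 2 * k) := by positivity
    by_cases hc : 4 / k ≤ M / β P
    · have := h1 X PL K A hU hV Q Z b ν C β H Lw k M n hZQ hQ hsum hC hN hP P hPC hc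
      nlinarith
    · have hc' : M / β P ≤ 4 / k := (not_le.mp hc).le
      have hPn : (P.card : ℝ) ≤ n :=
        le_trans (by exact_mod_cast card_le_card (hC.sub P hPC)) hQ
      have h2 : (A.tb Z (Z ∩ P) (fun y z => H y z ∧ ¬ Lw y z) : ℝ) ≤
          k * ed (Z ∩ P) (fun y z => H y z ∧ ¬ Lw y z) := by
        refine tb_le_ec A Z (Z ∩ P) _ k ?_
        intro y hy z hz hyz hh
        exact hP.pin y (mem_inter.mp hy).1 z (mem_inter.mp hz).1 hyz hh.2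
      have h3 : (ed (Z ∩ P) (fun y z => H y z ∧ ¬ Lw y z) : ℝ) ≤ ed (Z ∩ P) H := by
        exact_mod_cast ec_mono (Z ∩ P) (fun y z => H y z ∧ ¬ Lw y z) H (fun y z hh => hh.1)
      have h4 := hN.same P hPC
      have h5 : (M / β P + 4 / k) * (P.card : ℝ) ^ 2 ≤ (8 / k) * (P.card : ℝ) ^ 2 := by
        refine mul_le_mul_of_nonneg_right ?_ (by positivity)
        have : (8 : ℝ) / k = 4 / k + 4 / k := by ring
        linarith
      have h6 : k * (ed (Z ∩ P) (fun y z => H y z ∧ ¬ Lw y z) : ℝ) ≤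
          k * ((8 / k) * (P.card : ℝ) ^ 2) :=
        mul_le_mul_of_nonneg_left (le_trans h3 (le_trans h4 h5)) hk.le
      have h7 : k * ((8 / k) * (P.card : ℝ) ^ 2) = 8 * (P.card : ℝ) ^ 2 := by field_simp
      have h8 : (P.card : ℝ) ^ 2 ≤ n * P.card := by nlinarith
      have h9 : 0 ≤ M * (n * P.card) := by positivity
      nlinarith
  have hs := tb_split A Z C (fun y z => H y z ∧ ¬ Lw y z)
  have hs' : (A.tb Z Z (fun y z => H y z ∧ ¬ Lw y z) : ℝ) ≤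
      (A.tb Z Z (fun y z => (H y z ∧ ¬ Lw y z) ∧ ¬ ∃ P ∈ C, y ∈ P ∧ z ∈ P) : ℝ) +
      ∑ P ∈ C, (A.tb Z (Z ∩ P) (fun y z => H y z ∧ ¬ Lw y z) : ℝ) := by exact_mod_cast hs
  have hsum2 : ∑ P ∈ C, (A.tb Z (Z ∩ P) (fun y z => H y z ∧ ¬ Lw y z) : ℝ) ≤
      (19 * M + 8) * n * ∑ P ∈ C, (P.card : ℝ) + n * (C.card * (2 * (b : ℝ) ^ 2 * k)) := by
    refine le_trans (sum_le_sum hone) (le_of_eq ?_)
    rw [sum_add_distrib, ← mul_sum, sum_const, nsmul_eq_mul]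
    ring
  have e1 : (19 * M + 8) * n * ∑ P ∈ C, (P.card : ℝ) ≤ (19 * M + 8) * n * n :=
    mul_le_mul_of_nonneg_left hsum (by positivity)
  have e2 : n * (C.card * (2 * (b : ℝ) ^ 2 * k)) ≤ n * n := mul_le_mul_of_nonneg_left hCb hn
  have e3 : 0 ≤ M * n ^ 2 := by positivity
  have e4 : 0 ≤ n ^ 2 := by positivity
  nlinarith

end Pool.Agent.MP_6c3157_co.PQ
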