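import Pool.Agent.MP_6c3157_co.PQ.SpecD

/-! Project PQ, row FPK: bases inside one class of small degree. -/

set_option autoImplicit false
set_option linter.unusedSectionVars false

noncomputable section

namespace Pool.Agent.MP_6c3157_co.PQ

open Finset Pool.Agent.MP_6c3157_co.PD

namespace Fpk

theorem mf {α : Type} {p : α → Prop} {i : DecidablePred p} {s : Finset α} {a : α} :
    a ∈ @filter α p i s ↔ a ∈ s ∧ p a := mem_filter

theorem fe {α : Type} {p : α → Prop} {i : DecidablePred p} {s : Finset α}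
    (h : ∀ a ∈ s, ¬ p a) : @filter α p i s = ∅ := filter_eq_empty_iff.2 h

variable {X : Type} [DecidableEq X]

theorem ec_split (Z : Finset X) (C : Finset (Finset X)) (β : Finset X → ℕ) (H : X → X → Prop)
    (m : ℕ) :
    ed Z (fun x x' => H x x' ∧ ¬ ∃ P ∈ C, β P ≤ m ∧ x ∈ P ∧ x' ∈ P) ≤
      ed Z (fun y z => H y z ∧ ¬ ∃ P ∈ C, y ∈ P ∧ z ∈ P) +
        ∑ P ∈ C.filter (fun P => m < β P), ed (Z ∩ P) H := by
  classical
  unfold ed
  refine le_trans (card_le_card ?_)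
    ((card_union_le _ _).trans (Nat.add_le_add_left card_biUnion_le _))
  intro e he
  obtain ⟨h1, h2, h3, h4⟩ := mf.1 he
  by_cases h : ∃ P ∈ C, e.1 ∈ P ∧ e.2 ∈ P
  · obtain ⟨P, hP, a1, a2⟩ := h
    refine mem_union_right _ (mem_biUnion.2 ⟨P, mf.2 ⟨hP, ?_⟩, mf.2 ⟨?_, h2, h3⟩⟩)
    · by_contra hc
      exact h4 ⟨P, hP, not_lt.1 hc, a1, a2⟩
    · obtain ⟨b1, b2⟩ := mem_product.1 h1
      exact mem_product.2 ⟨mem_inter.2 ⟨b1, a1⟩, mem_inter.2 ⟨b2, a2⟩⟩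
  · exact mem_union_left _ (mf.2 ⟨h1, h2, h3, h⟩)

/-- the final arithmetic -/
theorem arith (β M n p B E : ℝ) (hβ : 1 ≤ β) (hM : 1 ≤ M) (hp : 0 ≤ p) (hn : p ≤ n) (hB0 : 0 ≤ B)
    (hE0 : 0 ≤ E) (hB : B ≤ 2 * (M / β) * p ^ 2) (hE : E ≤ 5 * (M / β) * n ^ 2) :
    (4 * β + 2) * B + Real.sqrt (B * (2 * (2 * β ^ 2) * E)) ≤ 19 * M * n * p := by
  have hβ0 : 0 < β := by linarith
  set q := M / β with hq
  have hq0 : 0 ≤ q := by positivity
  have hMq : M = q * β := by rw [hq]; field_simp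
  have hn0 : 0 ≤ n := hp.trans hn
  have e1 : (4 * β + 2) * B ≤ 12 * M * n * p := by
    have a1 : (4 * β + 2) * B ≤ (6 * β) * (2 * q * p ^ 2) :=
      mul_le_mul (by linarith) hB hB0 (by linarith)
    have a2 : M * p * p ≤ M * p * n := mul_le_mul_of_nonneg_left hn (by positivity)
    have a3 : (6 * β) * (2 * q * p ^ 2) = 12 * (M * p * p) := by rw [hMq]; ring
    linarith
  have e2 : Real.sqrt (B * (2 * (2 * β ^ 2) * E)) ≤ 7 * M * n * p := by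
    refine Real.sqrt_le_iff.2 ⟨by positivity, ?_⟩
    have a1 : B * (2 * (2 * β ^ 2) * E) ≤ (2 * q * p ^ 2) * (2 * (2 * β ^ 2) * (5 * q * n ^ 2)) :=
      mul_le_mul hB (mul_le_mul_of_nonneg_left hE (by positivity)) (by positivity) (by positivity)
    have a2 : (2 * q * p ^ 2) * (2 * (2 * β ^ 2) * (5 * q * n ^ 2)) = 40 * (M * n * p) ^ 2 := by
      rw [hMq]; ring
    have a3 : 0 ≤ (M * n * p) ^ 2 := sq_nonneg _
    have a4 : (7 * M * n * p) ^ 2 = 49 * (M * n * p) ^ 2 := by ring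
    linarith
  linarith

end Fpk

open Fpk in
theorem fpk (h1 : INC) (h2 : CSL) (h3 : FPX) : FPK := by
  classical
  intro X PL K _ _ A hU hV Q Z b ν C β H Lw k M n hZ hQ hsum hC hN hP P hPC hk
  have hch : ∀ (P1 : Finset X) (y : X), ∃ e : X, P1 ∈ C → ∀ z, z ≠ y → z ≠ e →
      (P1.filter fun x => A.bis x y z).card ≤ 2 * β P1 := by
    intro P1 y
    by_cases h : P1 ∈ C
    · obtain ⟨e, he⟩ := hC.line P1 h y
      exact ⟨e, fun _ => he⟩
    · exact ⟨y, fun h' => absurd h' h⟩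
  choose e he using hch
  have huni : ∀ P1 ∈ C, ∀ P2 ∈ C, ∀ x, x ∈ P1 → x ∈ P2 → P1 = P2 := fun P1 a1 P2 a2 x b1 b2 => by
    by_contra hne
    exact disjoint_left.1 (hC.disj P1 a1 P2 a2 hne) b1 b2
  have hk0 : 0 < k := lt_of_lt_of_le one_pos hN.k_lo
  have hβ : (1 : ℝ) ≤ β P := by exact_mod_cast hC.b_lo P hPC
  have hM := hN.M_lo
  have hcard : ∀ P1 ∈ C, (P1.card : ℝ) ≤ n := fun P1 a1 =>
    le_trans (by exact_mod_cast card_le_card (hC.sub P1 a1)) hQ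
  have hZn : (Z.card : ℝ) ≤ n := le_trans (by exact_mod_cast card_le_card hZ) hQ
  have hn0 : 0 ≤ n := le_trans (Nat.cast_nonneg _) hQ
  set exc : X → X → X → Prop := fun x y z => ∃ P1 ∈ C, x ∈ P1 ∧ z = e P1 y with hexc
  set B : Finset (X × X) := ((Z ∩ P) ×ˢ (Z ∩ P)).filter fun i => i.1 ≠ i.2 ∧ H i.1 i.2 with hB
  set a : X × X → Finset X := fun i => Z.filter fun x => A.bis x i.1 i.2 ∧ ¬ exc x i.1 i.2 ∧
    ∀ x', x' ≠ x → A.bis x' i.1 i.2 → (A.mir P x x').card ≤ 2 * β P ^ 2 with ha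
  have hBm : ∀ i ∈ B, (i.1 ∈ Z ∧ i.1 ∈ P) ∧ (i.2 ∈ Z ∧ i.2 ∈ P) ∧ i.1 ≠ i.2 ∧ H i.1 i.2 := by
    intro i hi
    obtain ⟨a1, a2⟩ := mf.1 hi
    obtain ⟨b1, b2⟩ := mem_product.1 a1
    exact ⟨mem_inter.1 b1, mem_inter.1 b2, a2⟩
  have hcs := h2 X (X × X) Z B a
    (fun x x' => H x x' ∧ ¬ ∃ P1 ∈ C, β P1 ≤ β P ∧ x ∈ P1 ∧ x' ∈ P1) (β P) (2 * (β P : ℝ) ^ 2)
    (by positivity) (by positivity) (fun i _ => filter_subset _ _) ?_ ?_
  rotate_left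
  · intro i hi x hx
    obtain ⟨⟨y1, -⟩, ⟨z1, -⟩, hne, hH⟩ := hBm i hi
    obtain ⟨x1, x2, x3, -⟩ := mf.1 hx
    by_cases hex : ∃ P1 ∈ C, β P1 ≤ β P ∧ x ∈ P1
    · obtain ⟨P1, a1, a2, a3⟩ := hex
      have hle := he P1 i.1 a1 i.2 hne.symm fun h => x3 ⟨P1, a1, a3, h⟩
      have : (2 * β P1 : ℕ) ≤ 2 * β P := by omega
      refine le_trans ?_ (show ((2 * β P : ℕ) : ℝ) ≤ 2 * (β P : ℝ) by push_cast; exact le_rfl)
      refine Nat.cast_le.2 (le_trans (card_le_card fun x' hx' => ?_) (hle.trans this))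
      obtain ⟨c1, c2, c3⟩ := mf.1 hx'
      obtain ⟨d1, d2, -⟩ := mf.1 c1
      refine mf.2 ⟨?_, d2⟩
      by_contra hc
      refine c3 ⟨hP.hp x x1 x' d1 _ y1 _ z1 c2.symm hne x2 d2 hH, ?_⟩
      rintro ⟨P2, f1, -, f3, f4⟩
      exact hc (huni P2 f1 P1 a1 x f3 a3 ▸ f4)
    · rw [fe, card_empty, Nat.cast_zero]
      · positivity
      · rintro x' hx' ⟨c2, c3⟩
        obtain ⟨d1, d2, -⟩ := mf.1 hx'
        refine c3 ⟨hP.hp x x1 x' d1 _ y1 _ z1 c2.symm hne x2 d2 hH, ?_⟩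
        rintro ⟨P2, f1, f2, f3, -⟩
        exact hex ⟨P2, f1, f2, f3⟩
  · intro x _ x' _ hxx
    by_cases hm : (A.mir P x x').card ≤ 2 * β P ^ 2
    · refine le_trans ?_ (show ((2 * β P ^ 2 : ℕ) : ℝ) ≤ 2 * (β P : ℝ) ^ 2 by
        push_cast; exact le_rfl)
      refine Nat.cast_le.2 (le_trans (card_le_card_of_injOn Prod.fst (fun i hi => ?_)
        fun i hi j hj hij => ?_) hm)
      · obtain ⟨c1, c2, c3⟩ := mf.1 (mem_coe.1 hi)
        obtain ⟨⟨-, y1⟩, ⟨-, z1⟩, hne, -⟩ := hBm i c1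
        refine mem_coe.2 ?_
        unfold Ari.mir
        exact mf.2 ⟨y1, i.2, z1, hne.symm, (mf.1 c2).2.1, (mf.1 c3).2.1⟩
      · obtain ⟨c1, c2, c3⟩ := mf.1 (mem_coe.1 hi)
        obtain ⟨d1, d2, d3⟩ := mf.1 (mem_coe.1 hj)
        refine Prod.ext hij ?_
        by_contra hc
        have g1 := (mf.1 d2).2.1
        have g2 := (mf.1 d3).2.1
        have g3 := (hBm j d1).2.2.1
        rw [← hij] at g1 g2 g3
        exact hxx ((h1 X PL K A hU hV i.1).1 i.2 j.2 x x' (hBm i c1).2.2.1.symm g3.symm hc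
          (mf.1 c2).2.1 g1 (mf.1 c3).2.1 g2)
    · rw [fe, card_empty, Nat.cast_zero]
      · positivity
      · rintro i _ ⟨c2, c3⟩
        exact hm ((mf.1 c2).2.2.2 x' hxx.symm (mf.1 c3).2.1)
  have hBc : (B.card : ℝ) ≤ 2 * (M / β P) * (P.card : ℝ) ^ 2 := by
    have e1 : B.card = ed (Z ∩ P) H := by unfold ed; congr
    have e2 := hN.same P hPC
    have e3 := mul_le_mul_of_nonneg_right hk (sq_nonneg (P.card : ℝ))
    rw [e1]
    linarith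
  have hEc : (ed Z (fun x x' => H x x' ∧ ¬ ∃ P1 ∈ C, β P1 ≤ β P ∧ x ∈ P1 ∧ x' ∈ P1) : ℝ) ≤
      5 * (M / β P) * n ^ 2 := by
    have e1 : (ed Z (fun x x' => H x x' ∧ ¬ ∃ P1 ∈ C, β P1 ≤ β P ∧ x ∈ P1 ∧ x' ∈ P1) : ℝ) ≤
        ed Z (fun y z => H y z ∧ ¬ ∃ P ∈ C, y ∈ P ∧ z ∈ P) +
          ∑ P1 ∈ C.filter (fun P1 => β P < β P1), (ed (Z ∩ P1) H : ℝ) := by
      exact_mod_cast Fpk.ec_split Z C β H (β P)
    have hq0 : 0 ≤ M / β P := by positivity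
    have e2 : ∑ P1 ∈ C.filter (fun P1 => β P < β P1), (ed (Z ∩ P1) H : ℝ) ≤
        ∑ P1 ∈ C.filter (fun P1 => β P < β P1), 2 * (M / β P) * n * (P1.card : ℝ) := by
      refine sum_le_sum fun P1 h => ?_
      obtain ⟨a1, a2⟩ := mf.1 h
      have a3 : M / β P1 ≤ M / β P :=
        div_le_div_of_nonneg_left (by linarith) (by linarith) (by exact_mod_cast a2.le)
      have a4 : (M / β P1 + 4 / k) * (P1.card : ℝ) ^ 2 ≤ 2 * (M / β P) * (n * P1.card) :=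
        mul_le_mul (by linarith) (by
          rw [sq]; exact mul_le_mul_of_nonneg_right (hcard P1 a1) (Nat.cast_nonneg _))
          (sq_nonneg _) (by positivity)
      have a5 := hN.same P1 a1
      linarith
    have e3 : ∑ P1 ∈ C.filter (fun P1 => β P < β P1), (P1.card : ℝ) ≤ n :=
      le_trans (sum_le_sum_of_subset_of_nonneg (filter_subset _ _)
        fun _ _ _ => Nat.cast_nonneg _) hsum
    rw [← mul_sum] at e2
    have e4 := mul_le_mul_of_nonneg_left e3 (show 0 ≤ 2 * (M / β P) * n by positivity)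
    have e5 := hN.gen
    have e6 := mul_le_mul_of_nonneg_right hk (sq_nonneg n)
    have e7 : 10 * n ^ 2 / k = 5 / 2 * (4 / k * n ^ 2) := by ring
    have e8 : 0 ≤ M / β P * n ^ 2 := by positivity
    nlinarith
  have hr := hcs.trans (Fpk.arith _ M n _ _ _ hβ hM (Nat.cast_nonneg _) (hcard P hPC)
    (Nat.cast_nonneg _) (Nat.cast_nonneg _) hBc hEc)
  have hax := h3 X PL K A hU hV Z P (β P) b H Lw k hk0.le (hC.axes P hPC) hP
  have hex : ((Z ×ˢ (Z ∩ P) ×ˢ (Z ∩ P)).filter fun t => exc t.1 t.2.1 t.2.2).card ≤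
      Z.card * P.card := by
    rw [← card_product]
    refine card_le_card_of_injOn (fun t => (t.1, t.2.1)) (fun t ht => ?_) fun t ht u hu htu => ?_
    · obtain ⟨c1, c2⟩ := mem_product.1 (mf.1 (mem_coe.1 ht)).1
      exact mem_coe.2 (mem_product.2 ⟨c1, (mem_inter.1 (mem_product.1 c2).1).2⟩)
    · obtain ⟨P1, a1, a2, a3⟩ := (mf.1 (mem_coe.1 ht)).2
      obtain ⟨P2, b1, b2, b3⟩ := (mf.1 (mem_coe.1 hu)).2
      obtain ⟨f1, f2⟩ := Prod.mk.inj htu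
      rw [← f1] at b2
      refine Prod.ext f1 (Prod.ext f2 ?_)
      rw [a3, b3, f2, huni P1 a1 P2 b1 _ a2 b2]
  have hsp : A.tb Z (Z ∩ P) (fun y z => H y z ∧ ¬ Lw y z) ≤
      ((Z ×ˢ (Z ∩ P) ×ˢ (Z ∩ P)).filter fun t => exc t.1 t.2.1 t.2.2).card +
      ((Z ×ˢ (Z ∩ P) ×ˢ (Z ∩ P)).filter fun t => t.2.1 ≠ t.2.2 ∧ A.bis t.1 t.2.1 t.2.2 ∧
        ¬ Lw t.2.1 t.2.2 ∧ ∃ x', x' ≠ t.1 ∧ A.bis x' t.2.1 t.2.2 ∧
          2 * β P ^ 2 < (A.mir P t.1 x').card).card + ∑ i ∈ B, (a i).card := by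
    have e1 : (B.biUnion fun i => (a i).image fun x => (x, i)).card ≤ ∑ i ∈ B, (a i).card :=
      card_biUnion_le.trans (sum_le_sum fun i _ => card_image_le)
    unfold Ari.tb
    refine le_trans (card_le_card fun t ht => ?_) ((card_union_le _ _).trans
      (Nat.add_le_add (card_union_le _ _) e1))
    obtain ⟨c1, c2, c3, c4, c5⟩ := mf.1 ht
    by_cases d1 : exc t.1 t.2.1 t.2.2
    · exact mem_union_left _ (mem_union_left _ (mf.2 ⟨c1, d1⟩))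
    by_cases d2 : ∃ x', x' ≠ t.1 ∧ A.bis x' t.2.1 t.2.2 ∧ 2 * β P ^ 2 < (A.mir P t.1 x').card
    · exact mem_union_left _ (mem_union_right _ (mf.2 ⟨c1, c2, c3, c5, d2⟩))
    obtain ⟨f1, f2⟩ := mem_product.1 c1
    refine mem_union_right _ (mem_biUnion.2 ⟨t.2, mf.2 ⟨f2, c2, c4⟩,
      mem_image.2 ⟨t.1, mf.2 ⟨f1, c3, d1, fun x' g1 g2 => ?_⟩, rfl⟩⟩)
    by_contra hc
    exact d2 ⟨x', g1, g2, not_le.1 hc⟩
  have hsp' := (Nat.cast_le (α := ℝ)).2 (hsp.trans (Nat.add_le_add_right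
    (Nat.add_le_add_right hex _) _))
  rw [Nat.cast_add, Nat.cast_add, Nat.cast_mul, Nat.cast_sum] at hsp'
  have g0 : (0 : ℝ) ≤ P.card := Nat.cast_nonneg _
  have g1 := mul_le_mul_of_nonneg_right hZn g0
  have g2 := mul_le_mul_of_nonneg_right (hcard P hPC) g0
  have g3 := mul_le_mul_of_nonneg_right hZn (show 0 ≤ 2 * (b : ℝ) ^ 2 * k by positivity)
  have hax' := le_trans (le_of_eq (by congr)) (hax.trans (add_le_add_right g3 _))
  nlinarith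

end Pool.Agent.MP_6c3157_co.PQ
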