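import Pool.Agent.MP_6c3157_co.PQ.SpecD

/-! Project PQ, row FPX: triples on an axis of symmetry. -/

set_option autoImplicit false
set_option linter.unusedSectionVars false

noncomputable section

namespace Pool.Agent.MP_6c3157_co.PQ

open Finset Pool.Agent.MP_6c3157_co.PD

namespace Fpx

variable {X PL K : Type} [DecidableEq X] [Field K]

open Classical in
/-- bases with two given pins -/
def two (A : Ari X PL K) (Z : Finset X) (Lw : X → X → Prop) (x w : X) : Finset (X × X × X) :=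
  (Z ×ˢ Z ×ˢ Z).filter fun t => t.1 = x ∧ t.2.1 ≠ t.2.2 ∧ A.bis x t.2.1 t.2.2 ∧
    A.bis w t.2.1 t.2.2 ∧ ¬ Lw t.2.1 t.2.2

theorem two_le (h1 : INC) (A : Ari X PL K) (hU : Function.Injective A.U)
    (hV : Function.Injective A.V) {Z : Finset X} {H Lw : X → X → Prop} {k : ℝ}
    (hp : Pins A Z H Lw k) {x w : X} (hx : x ∈ Z) (hw : w ≠ x) :
    ((two A Z Lw x w).card : ℝ) ≤ k := by
  classical
  refine le_trans (Nat.cast_le.2 (card_le_card_of_injOn (fun t => t.2.1) ?_ ?_)) (hp.mult x hx w hw)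
  · intro t ht
    simp only [two, coe_filter, mem_product, Set.mem_ofPred_eq] at ht ⊢
    exact ⟨ht.1.2.1, t.2.2, ht.1.2.2, ht.2.2⟩
  · rintro ⟨a, y, z⟩ ht ⟨a', y', z'⟩ ht' e
    simp only [two, coe_filter, mem_product, Set.mem_ofPred_eq] at ht ht' e
    obtain rfl := e
    obtain ⟨-, rfl, b1, b2, b3, -⟩ := ht
    obtain ⟨-, rfl, c1, c2, c3, -⟩ := ht'
    by_cases hz : z = z'
    · rw [hz]
    · exact absurd ((h1 X PL K A hU hV y).1 z z' _ w b1.symm c1.symm hz b2 c2 b3 c3).symm hw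

end Fpx

theorem fpx (h1 : INC) : FPX := by
  classical
  intro X PL K _ _ A hU hV Z P β b H Lw k hk hA hp
  obtain ⟨e, he⟩ := hA
  have hE : ∀ x, ∃ E : Finset X, E.card ≤ 2 * b ^ 2 ∧ x ∉ E ∧ (x ≠ e → ∀ x', x' ≠ x →
      (A.mir P x x').card ≤ 2 * β ^ 2 ∨
        ∃ w ∈ E, ∀ y y', y ≠ y' → A.bis x y y' → A.bis x' y y' → A.bis w y y') := fun x => by
    by_cases h : x = e
    · exact ⟨∅, by simp, by simp, fun h' => absurd h h'⟩
    · obtain ⟨E, a, c, d⟩ := he x h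
      exact ⟨E, a, c, fun _ => d⟩
  choose E E1 E2 E3 using hE
  have key : (((({e} : Finset X) ×ˢ P ×ˢ P) ∪
      Z.biUnion fun x => (E x).biUnion fun w => Fpx.two A Z Lw x w).card : ℝ) ≤
      (P.card : ℝ) ^ 2 + Z.card * (2 * (b : ℝ) ^ 2 * k) := by
    refine le_trans (Nat.cast_le.2 (card_union_le _ _)) ?_
    rw [Nat.cast_add]
    refine add_le_add (by simp [sq]) ?_
    refine le_trans (Nat.cast_le.2 card_biUnion_le) ?_
    rw [Nat.cast_sum, ← nsmul_eq_mul, ← sum_const]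
    refine sum_le_sum fun x hx => le_trans (Nat.cast_le.2 card_biUnion_le) ?_
    rw [Nat.cast_sum]
    refine le_trans (sum_le_sum fun w hw =>
      Fpx.two_le h1 A hU hV hp hx (w := w) fun h => E2 x (h ▸ hw)) ?_
    rw [sum_const, nsmul_eq_mul]
    exact mul_le_mul_of_nonneg_right (by exact_mod_cast E1 x) hk
  refine le_trans (Nat.cast_le.2 (card_le_card ?_)) key
  rintro ⟨x, y, z⟩ ht
  simp only [mem_filter, mem_product, mem_inter] at ht
  obtain ⟨⟨hx, ⟨hy, hy'⟩, hz, hz'⟩, hyz, hb, hL, x', hx', hb', hm⟩ := ht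
  by_cases h : x = e
  · exact mem_union_left _ (by simp [h, hy', hz'])
  · obtain ⟨w, hw, hw'⟩ := (E3 x h x' hx').resolve_left (not_le.2 hm)
    refine mem_union_right _ (mem_biUnion.2 ⟨x, hx, mem_biUnion.2 ⟨w, hw, ?_⟩⟩)
    simp only [Fpx.two, mem_filter, mem_product]
    exact ⟨⟨hx, hy, hz⟩, trivial, hyz, hb, hw' y z hyz hb hb', hL⟩

end Pool.Agent.MP_6c3157_co.PQ
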