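import Pool.Agent.MP_6c3157_co.PQ.SpecD

/-! Project PQ, row GFB: basic facts on the potential. -/

set_option autoImplicit false
set_option linter.unusedSectionVars false

noncomputable section

namespace Pool.Agent.MP_6c3157_co.PQ

open Finset Pool.Agent.MP_6c3157_co.PD

namespace Gfb

variable {κ : ℝ}

theorem mono {a b : ℕ} (h : 0 ≤ κ) (e : a ≤ b) : gf κ a ≤ gf κ b :=
  min_le_min (Nat.cast_le.2 e)
    (mul_le_mul_of_nonneg_left (Real.sqrt_le_sqrt (Nat.cast_le.2 e)) h)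

theorem big {b : ℝ} (hb : 0 ≤ b) (e : κ * √b < b) : κ ≤ √b :=
  le_of_not_gt fun c => by nlinarith [Real.mul_self_sqrt hb, Real.sqrt_nonneg b]

theorem mix {a b : ℝ} (ha : 0 ≤ a) (hb : 0 ≤ b) (e : κ * √b < b) :
    κ * √(a + b) ≤ a + κ * √b := by
  have h1 := big hb e
  have h2 : √b ≤ √(a + b) := Real.sqrt_le_sqrt (by linarith)
  nlinarith [Real.mul_self_sqrt hb, Real.mul_self_sqrt (add_nonneg ha hb)]

theorem sub (a b : ℕ) (h : 0 ≤ κ) : gf κ (a + b) ≤ gf κ a + gf κ b := by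
  have ha : (0 : ℝ) ≤ a := Nat.cast_nonneg a
  have hb : (0 : ℝ) ≤ b := Nat.cast_nonneg b
  unfold gf
  rw [Nat.cast_add]
  rcases le_or_gt (a : ℝ) (κ * √a) with c | c <;> rcases le_or_gt (b : ℝ) (κ * √b) with d | d
  · rw [min_eq_left c, min_eq_left d]
    exact min_le_left _ _
  · rw [min_eq_left c, min_eq_right d.le]
    exact (min_le_right _ _).trans (mix ha hb d)
  · rw [min_eq_right c.le, min_eq_left d, add_comm (a : ℝ), add_comm _ (b : ℝ)]
    exact (min_le_right _ _).trans (mix hb ha c)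
  · rw [min_eq_right c.le, min_eq_right d.le, ← mul_add]
    refine (min_le_right _ _).trans (mul_le_mul_of_nonneg_left (Real.sqrt_le_iff.2
      ⟨by positivity, ?_⟩) h)
    nlinarith [Real.mul_self_sqrt ha, Real.mul_self_sqrt hb,
      mul_nonneg (Real.sqrt_nonneg (a : ℝ)) (Real.sqrt_nonneg (b : ℝ))]

theorem bds (a : ℕ) (h : 0 ≤ κ) : 0 ≤ gf κ a ∧ gf κ a ≤ a ∧ min (a : ℝ) (κ ^ 2) ≤ gf κ a := by
  refine ⟨le_min (Nat.cast_nonneg a) (by positivity), min_le_left _ _,
    le_min (min_le_left _ _) ?_⟩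
  rcases le_or_gt (a : ℝ) (κ * √a) with c | c
  · exact (min_le_left _ _).trans c
  · exact (min_le_right _ _).trans
      (sq κ ▸ mul_le_mul_of_nonneg_left (big (Nat.cast_nonneg a) c) h)

theorem sq_le (a : ℕ) (h : 0 ≤ κ) : gf κ a ^ 2 ≤ κ ^ 2 * a := by
  rw [← Real.sq_sqrt (Nat.cast_nonneg a), ← mul_pow]
  exact pow_le_pow_left₀ (bds a h).1 (min_le_right _ _) 2

variable {X : Type} [DecidableEq X] (lab : X → X → ℝ) (Q : Finset X)

open Classical in
theorem lf (κ : ℝ) : Phi lab κ Q = ∑ x ∈ Q, ∑ l ∈ (Q.erase x).image (lab x),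
    gf κ ((Q.erase x).filter fun z => lab x z = l).card := by
  refine sum_congr rfl fun x _ => ?_
  rw [← sum_fiberwise_of_maps_to (g := lab x) (t := (Q.erase x).image (lab x))
    fun y hy => mem_image_of_mem _ hy]
  refine sum_congr rfl fun l hl => ?_
  obtain ⟨y₀, h₀, rfl⟩ := mem_image.1 hl
  have h2 : (((Q.erase x).filter fun y => lab x y = lab x y₀).card : ℝ) ≠ 0 :=
    Nat.cast_ne_zero.2 (card_ne_zero.2 ⟨y₀, mem_filter.2 ⟨h₀, rfl⟩⟩)
  rw [sum_congr rfl fun y hy => by rw [fib, (mem_filter.1 hy).2], sum_const, nsmul_eq_mul,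
    mul_div_cancel₀ _ h2]

theorem one (h : 0 ≤ κ) {x y : X} (hy : y ∈ Q.erase x) (e : ((fib lab Q x y).card : ℝ) ≤ κ ^ 2) :
    gf κ (fib lab Q x y).card / (fib lab Q x y).card = 1 := by
  classical
  have h1 := bds (fib lab Q x y).card h
  rw [min_eq_left e] at h1
  rw [le_antisymm h1.2.1 h1.2.2]
  exact div_self (Nat.cast_ne_zero.2 (card_ne_zero.2 ⟨y, mem_filter.2 ⟨hy, rfl⟩⟩))

end Gfb

open Gfb in
theorem gfb : GFB := by
  classical
  refine ⟨fun κ a b => mono, fun κ => sub, fun κ => bds, fun X _ lab κ Q h1 => ?_⟩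
  have h : 0 ≤ κ := zero_le_one.trans h1
  refine ⟨lf lab Q κ, fun Q' e => ?_, ?_, ?_, fun e => ?_, ?_⟩
  · rw [lf, lf]
    refine (sum_le_sum fun x _ => ?_).trans (sum_le_sum_of_subset_of_nonneg e
      fun x _ _ => sum_nonneg fun l _ => (bds _ h).1)
    have e' := erase_subset_erase x e
    exact (sum_le_sum fun l _ => mono h (card_le_card (filter_subset_filter _ e'))).trans
      (sum_le_sum_of_subset_of_nonneg (image_subset_image e') fun l _ _ => (bds _ h).1)
  · rw [lf, Zs, Nat.cast_sum]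
    refine sum_le_sum fun x _ => ?_
    rw [card_eq_sum_ones, Nat.cast_sum]
    refine sum_le_sum fun l hl => le_trans (le_min (Nat.cast_le.2 ?_) ?_) (bds _ h).2.2
    · obtain ⟨y, hy, e⟩ := mem_image.1 hl
      exact card_pos.2 ⟨y, mem_filter.2 ⟨hy, e⟩⟩
    · rw [Nat.cast_one]
      exact one_le_pow₀ h1
  · rw [ed, card_filter, Nat.cast_sum, sum_product]
    refine sum_le_sum fun x hx => ?_
    rw [← add_sum_erase _ _ hx, if_neg fun c => c.1 rfl, Nat.cast_zero, zero_add]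
    refine sum_le_sum fun y hy => ?_
    split_ifs with c
    · rw [one lab Q h hy c.2, Nat.cast_one]
    · rw [Nat.cast_zero]
      exact div_nonneg (bds _ h).1 (Nat.cast_nonneg _)
  · rw [Phi, Pr, sum_congr rfl (g := fun _ => (Q.card : ℝ) - 1) fun x hx => ?_, sum_const,
      nsmul_eq_mul]
    rw [sum_congr rfl fun y hy => one lab Q h hy (le_trans (Nat.cast_le.2 (card_le_card
      ((filter_subset _ _).trans (erase_subset _ _)))) e), sum_const, nsmul_eq_mul, mul_one,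
      card_erase_of_mem hx, Nat.cast_sub (card_pos.2 ⟨x, hx⟩), Nat.cast_one]
  · rw [lf, sum_sigma', Zs, ← card_sigma, mul_comm]
    refine sq_sum_le_card_mul_sum_sq.trans (mul_le_mul_of_nonneg_left
      ((sum_le_sum fun p _ => sq_le _ h).trans ?_) (Nat.cast_nonneg _))
    rw [← mul_sum, sum_sigma]
    refine mul_le_mul_of_nonneg_left ((sum_le_card_nsmul _ _ (Q.card : ℝ) fun x _ => ?_).trans_eq
      (by rw [nsmul_eq_mul, sq])) (sq_nonneg κ)
    dsimp only
    rw [← Nat.cast_sum, ← card_eq_sum_card_image]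
    exact Nat.cast_le.2 card_erase_le

end Pool.Agent.MP_6c3157_co.PQ
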