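import Pool.Agent.MP_6c3157_co.PQ.SpecA

/-! Project PQ, row INC: two bisectors of one point share at most one point; incidences. -/

set_option autoImplicit false

namespace Pool.Agent.MP_6c3157_co.PQ

open Finset Pool.Agent.MP_6c3157_co.PD

namespace Inc

theorem alg {K : Type} [Field K] {a b a' b' p q p' q' : K} (ha : a ≠ 0) (ha' : a' ≠ 0)
    (hp : p - p' ≠ 0) (h1 : p * q = (p - a) * (q - b)) (h2 : p * q = (p - a') * (q - b'))
    (h3 : p' * q' = (p' - a) * (q' - b)) (h4 : p' * q' = (p' - a') * (q' - b')) : b = b' := by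
  have e : b * a' - b' * a = 0 :=
    (mul_eq_zero.1 (by linear_combination a' * (h1 - h3) - a * (h2 - h4))).resolve_left hp
  have : a * a' * (b - b') = 0 := by linear_combination p * e - a' * h1 + a * h2
  exact sub_eq_zero.1 ((mul_eq_zero.1 this).resolve_left (mul_ne_zero ha ha'))

theorem le_off (k : ℕ) : k ≤ 1 + (k * k - k) := by
  rcases k with _ | _ | k
  · omega
  · omega
  · have : (k + 1 + 1) * (k + 1 + 1) = k * k + 4 * k + 4 := by ring
    omega

end Inc

theorem inc : INC := by
  classical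
  intro X PL K _ _ A hU hV y
  have key : ∀ z z' x x', z ≠ y → z' ≠ y → z ≠ z' → A.bis x y z → A.bis x y z' → A.bis x' y z →
      A.bis x' y z' → x = x' := fun z z' x x' hz hz' hzz h1 h2 h3 h4 => by
    by_contra hx
    unfold Ari.bis at h1 h2 h3 h4
    have := Inc.alg (a := A.U z - A.U y) (a' := A.U z' - A.U y) (b := A.V z - A.V y)
      (b' := A.V z' - A.V y) (p := A.U x - A.U y) (q := A.V x - A.V y) (p' := A.U x' - A.U y)
      (q' := A.V x' - A.V y) (sub_ne_zero.2 (hU.ne hz)) (sub_ne_zero.2 (hU.ne hz'))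
      (by rw [sub_sub_sub_cancel_right]; exact sub_ne_zero.2 (hU.ne hx))
      (by linear_combination h1) (by linear_combination h2) (by linear_combination h3)
      (by linear_combination h4)
    exact hzz (hV (sub_left_injective this))
  refine ⟨key, fun Y B hy => ?_⟩
  have h1 : ∑ x ∈ Y, (B.filter fun z => A.bis x y z).offDiag.card ≤ B.card ^ 2 := by
    rw [← card_sigma, sq, ← card_product]
    refine card_le_card_of_injOn (fun w => w.2) (fun w hw => ?_) fun w hw w' hw' e => ?_
    · have := mem_offDiag.1 (mem_sigma.1 (mem_coe.1 hw)).2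
      exact mem_coe.2 (mem_product.2 ⟨(mem_filter.1 this.1).1, (mem_filter.1 this.2.1).1⟩)
    · obtain ⟨x, w⟩ := w
      obtain ⟨x', w'⟩ := w'
      obtain rfl : w = w' := e
      have k := mem_offDiag.1 (mem_sigma.1 (mem_coe.1 hw)).2
      have k' := mem_offDiag.1 (mem_sigma.1 (mem_coe.1 hw')).2
      have k1 := mem_filter.1 k.1
      have k2 := mem_filter.1 k.2.1
      obtain rfl : x = x' := key w.1 w.2 x x' (fun e => hy (e ▸ k1.1)) (fun e => hy (e ▸ k2.1))
        k.2.2 k1.2 k2.2 (mem_filter.1 k'.1).2 (mem_filter.1 k'.2.1).2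
      rfl
  refine le_trans ?_ (Nat.add_le_add_left h1 _)
  rw [card_eq_sum_ones Y, ← sum_add_distrib]
  exact sum_le_sum fun x _ => by rw [offDiag_card]; exact Inc.le_off _

end Pool.Agent.MP_6c3157_co.PQ
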