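import Pool.Agent.MP_6c3157_co.PQ.SpecA

/-! Project PQ: a bisector meets a curve in few points, with one exception. -/

set_option autoImplicit false
set_option linter.unusedSectionVars false

noncomputable section

namespace Pool.Agent.MP_6c3157_co.PQ

open Finset Pool.Agent.MP_6c3157_co.PD

namespace Line

variable {K : Type} [Field K]

/-- restriction to the line `V = a U + b` -/
def res (a b : K) : MvPolynomial (Fin 2) K →ₐ[K] Polynomial K :=
  MvPolynomial.aeval ![Polynomial.X, Polynomial.C a * Polynomial.X + Polynomial.C b]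

/-- the equation of the line -/
def eqn (a b : K) : MvPolynomial (Fin 2) K :=
  MvPolynomial.X 1 - (MvPolynomial.C a * MvPolynomial.X 0 + MvPolynomial.C b)

theorem total_le (f : MvPolynomial (Fin 2) K) : f.totalDegree ≤ 2 * bd f := by
  unfold MvPolynomial.totalDegree bd
  refine Finset.sup_le fun m hm => ?_
  rw [Finsupp.sum_fintype _ _ (fun _ => rfl), Fin.sum_univ_two]
  have h0 := MvPolynomial.monomial_le_degreeOf (0 : Fin 2) hm
  have h1 := MvPolynomial.monomial_le_degreeOf (1 : Fin 2) hm
  omega

theorem res_deg (a b : K) (f : MvPolynomial (Fin 2) K) : (res a b f).natDegree ≤ 2 * bd f := by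
  have h := MvPolynomial.aeval_natDegree_le (n := 1) f (total_le f)
    ![Polynomial.X, Polynomial.C a * Polynomial.X + Polynomial.C b] (by
      intro i
      fin_cases i
      · simp
      · exact Polynomial.natDegree_linear_le (a := a) (b := b))
  simpa [res] using h

theorem res_eval (a b u : K) (f : MvPolynomial (Fin 2) K) :
    (res a b f).eval u = MvPolynomial.eval ![u, a * u + b] f := by
  have h : (Polynomial.aeval u).comp (res a b) = MvPolynomial.aeval ![u, a * u + b] := by
    refine MvPolynomial.algHom_ext fun i => ?_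
    fin_cases i <;> simp [res]
  have h2 := DFunLike.congr_fun h f
  simpa [Polynomial.coe_aeval_eq_eval, MvPolynomial.coe_aeval_eq_eval] using h2

theorem eqn_dvd {a b : K} {f : MvPolynomial (Fin 2) K} (h : res a b f = 0) : eqn a b ∣ f := by
  have h1 : ((Ideal.Quotient.mkₐ K (Ideal.span {eqn a b})).comp
      (Polynomial.aeval (MvPolynomial.X 0 : MvPolynomial (Fin 2) K))).comp (res a b) =
      Ideal.Quotient.mkₐ K (Ideal.span {eqn a b}) := by
    refine MvPolynomial.algHom_ext fun i => ?_
    fin_cases i
    · simp [res]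
    · have : res a b (MvPolynomial.X 1) = Polynomial.C a * Polynomial.X + Polynomial.C b := by
        simp [res]
      simp only [Fin.mk_one, AlgHom.comp_apply, this, map_add, map_mul, Polynomial.aeval_C,
        Polynomial.aeval_X, Ideal.Quotient.mkₐ_eq_mk]
      rw [← map_mul, ← map_add]
      symm
      rw [Ideal.Quotient.eq]
      exact Ideal.mem_span_singleton_self _
  have h2 := DFunLike.congr_fun h1 f
  rw [AlgHom.comp_apply, h, map_zero, Ideal.Quotient.mkₐ_eq_mk] at h2
  exact Ideal.mem_span_singleton.1 (Ideal.Quotient.eq_zero_iff_mem.1 h2.symm)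

theorem res_eqn (a b a' b' : K) :
    res a' b' (eqn a b) = Polynomial.C (a' - a) * Polynomial.X + Polynomial.C (b' - b) := by
  simp only [res, eqn, map_sub, map_add, map_mul, MvPolynomial.aeval_X, MvPolynomial.aeval_C,
    Matrix.cons_val_one, Matrix.cons_val_zero, Polynomial.algebraMap_eq]
  ring

theorem same {a b a' b' : K} {f : MvPolynomial (Fin 2) K} (hf : Irreducible f)
    (h : res a b f = 0) (h' : res a' b' f = 0) : a' = a ∧ b' = b := by
  obtain ⟨g, rfl⟩ := eqn_dvd h
  have hne : ¬ IsUnit (eqn a b) := fun hu => by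
    have := hu.map (res a b)
    rw [res_eqn] at this
    simp at this
  have hg : IsUnit g := (hf.isUnit_or_isUnit rfl).resolve_left hne
  rw [map_mul, res_eqn] at h'
  have h0 := (mul_eq_zero.1 h').resolve_right (hg.map (res a' b')).ne_zero
  have c0 := congrArg (fun p => Polynomial.coeff p 0) h0
  have c1 := congrArg (fun p => Polynomial.coeff p 1) h0
  simp only [Polynomial.coeff_add, Polynomial.coeff_C_mul, Polynomial.coeff_X_zero,
    Polynomial.coeff_X_one, Polynomial.coeff_C_zero, Polynomial.coeff_C_succ,
    Polynomial.coeff_zero] at c0 c1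
  constructor
  · linear_combination c1
  · linear_combination c0

end Line

open Line in
theorem line : LINE := by
  classical
  intro X PL K _ _ A hU hV f T y hf hT
  set al : X → K := fun z => -(A.V z - A.V y) / (A.U z - A.U y) with hal
  set be : X → K := fun z => A.V y - al z * A.U z with hbe
  have hd : ∀ z, z ≠ y → A.U z - A.U y ≠ 0 := fun z hz => sub_ne_zero.2 fun h => hz (hU h)
  have hon : ∀ z, z ≠ y → ∀ x, A.bis x y z → A.V x = al z * A.U x + be z := by
    intro z hz x hx
    have h0 := hd z hz
    unfold Ari.bis at hx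
    simp only [hbe, hal]
    field_simp
    linear_combination hx
  have hgood : ∀ z, z ≠ y → res (al z) (be z) f ≠ 0 →
      (T.filter fun x => A.bis x y z).card ≤ 2 * bd f := by
    intro z hz hne
    refine le_trans ?_ ((Polynomial.card_roots' _).trans (res_deg (al z) (be z) f))
    refine le_trans ?_ (Multiset.toFinset_card_le _)
    refine card_le_card_of_injOn A.U (fun x hx => ?_) hU.injOn
    have hx' := mem_filter.1 (mem_coe.1 hx)
    rw [mem_coe, Multiset.mem_toFinset, Polynomial.mem_roots hne, Polynomial.IsRoot, res_eval,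
      ← hon z hz x hx'.2]
    exact hT x hx'.1
  by_cases hex : ∃ e, e ≠ y ∧ res (al e) (be e) f = 0
  · obtain ⟨e, he, he0⟩ := hex
    refine ⟨e, fun z hz hze => hgood z hz fun hz0 => hze ?_⟩
    obtain ⟨h1, h2⟩ := same hf he0 hz0
    have ha : al e ≠ 0 := by
      simp only [hal]
      exact div_ne_zero (neg_ne_zero.2 (sub_ne_zero.2 fun h => he (hV h))) (hd e he)
    simp only [hbe] at h2
    rw [h1] at h2
    apply hU
    apply mul_left_cancel₀ ha
    linear_combination -h2
  · exact ⟨y, fun z hz _ => hgood z hz fun h0 => hex ⟨z, hz, h0⟩⟩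

end Pool.Agent.MP_6c3157_co.PQ
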