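import Pool.Agent.MP_6c3157_co.PQ.SpecD

/-! Project PQ: steep bases have few pins, steep lines bisect few bases. -/

set_option autoImplicit false

namespace Pool.Agent.MP_6c3157_co.PQ

open Finset Pool.Agent.MP_6c3157_co.PD

namespace Pin

theorem pt (f b : ℝ) : max 0 f - max 0 (-b) ≤ min (max 0 (f + b)) (max 0 f) := by
  simp only [max_def, min_def]
  split_ifs <;> linarith

variable {X PL : Type} [DecidableEq X] [Fintype PL] {s : Sys X PL} {Z C : Finset X}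
  {R : PL → ℝ} {G : PL → X → ℝ} {W ε Λ ν : ℝ}

theorem neg (h1 : DEP) (hs : s.Good) (hc : Cen s Z R G W ε) {x y : X} (hx : x ∈ Z) (hy : y ∈ Z)
    (h : x ≠ y) : ∑ p, s.m p * max 0 (-dep s R (s.bar p) x y) ≤ 3 * ε * W := by
  refine le_trans (le_of_eq ?_) (h1 X PL s Z R G W ε hs hc x hx y hy h).2.1
  rw [← Equiv.sum_comp s.bar fun p => s.m p * max 0 (-dep s R p x y)]
  simp only [hs.m_bar]

theorem core (hs : s.Good) (hc : Cen s Z R G W ε) (hk : Conc s R Z W ε Λ ν) (hΛ : 2 ≤ Λ)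
    (hC : C ⊆ Z) (hν : ν ≤ C.card) {x : X} (hx : x ∈ Z) (f : PL → ℝ)
    (h1 : 12 * ε * W < ∑ p, s.m p * max 0 (f p)) (h2 : ∑ p, s.m p * max 0 (f p) ≤ 2 * W)
    (h : ∀ y ∈ C.erase x, ∃ b : PL → ℝ, (∀ p, dep s R p x y = f p + b p) ∧
      ∑ p, s.m p * max 0 (-b p) ≤ 3 * ε * W) : 9 * ((C.erase x).card : ℝ) ≤ 8 * C.card := by
  have e1 := hc.eW
  have e2 : 0 < W := (mul_pos_iff_of_pos_left hc.e_pos).1 (by linarith)
  have k := hk C hC hν x hx (fun p => max 0 (f p)) (fun _ => le_max_left _ _) (by nlinarith)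
  have k2 : ∑ _y ∈ C.erase x, 9 * ε * W ≤
      ∑ z ∈ C.erase x, ∑ p, s.m p * min (max 0 (dep s R p x z)) (max 0 (f p)) := by
    refine sum_le_sum fun y hy => ?_
    obtain ⟨b, e, hb⟩ := h y hy
    have : ∑ p, (s.m p * max 0 (f p) - s.m p * max 0 (-b p)) ≤
        ∑ p, s.m p * min (max 0 (dep s R p x y)) (max 0 (f p)) := sum_le_sum fun p _ => by
      rw [← mul_sub, e]
      exact mul_le_mul_of_nonneg_left (pt _ _) (hs.m_lo p)
    rw [sum_sub_distrib] at this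
    linarith
  rw [sum_const, nsmul_eq_mul] at k2
  refine le_of_mul_le_mul_right (a := ε * W) ?_ (by linarith)
  linarith

end Pin

theorem pin (h1 : DEP) (_h2 : APB) (h3 : SLOPE) (h4 : FAR) : PIN := by
  intro X PL K _ _ _ s A η Z R G W ε Λ ν hA hc hk hΛ hν y hy z hz hyz hl
  classical
  by_contra hn
  rw [not_le] at hn
  obtain ⟨x, hx⟩ := card_pos.1 (Nat.cast_pos.1 (lt_trans (by linarith) hn : (0 : ℝ) < _))
  have hx' := mem_filter.1 hx
  have k := Pin.core hA.good hc hk hΛ (filter_subset _ _) hn.le hx'.1 _ hl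
    (h4 X PL K s A η Z R G W ε hA hc y hy z hz hyz).2.1 fun x' h => by
      have a := mem_erase.1 h
      have b := mem_filter.1 a.2
      exact ⟨fun p => dep s R (s.bar p) x x', fun p => eq_add_of_sub_eq
        (h3 X PL K s A η R hA hc.R_pos x x' y z a.1.symm hyz hx'.2 b.2 p),
        Pin.neg h1 hA.good hc hx'.1 b.1 a.1.symm⟩
  rw [cast_card_erase_of_mem hx] at k
  linarith

theorem mult (h1 : DEP) (h2 : APB) (h3 : SLOPE) (h4 : FAR) : MULT := by
  intro X PL K _ _ _ s A η Z R G W ε Λ ν hA hc hk hΛ hν x hx w hw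
  classical
  by_contra hn
  rw [not_le] at hn
  have h0 : (0 : ℝ) < _ := lt_of_le_of_lt hν hn
  obtain ⟨y, hy⟩ := card_pos.1 (Nat.cast_pos.1 h0)
  obtain ⟨a1, -, -, a4⟩ := h2 X PL K s A η R hA hc.R_pos
  obtain ⟨hy, z, hz, b1, b2, b3, b4⟩ := mem_filter.1 hy
  have e := a4 x w y z hw.symm b1 b2 b3
  have k := Pin.core hA.good hc hk hΛ (filter_subset _ _) hn.le hx _ (b4.trans_eq e.symm)
    (e.trans_le (h4 X PL K s A η Z R G W ε hA hc y hy z hz b1).2.1) fun y h => by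
      obtain ⟨-, z, hz, b1, b2, b3, -⟩ := mem_filter.1 (mem_erase.1 h).2
      have c := a1 x z y b1.symm b2.symm
      exact ⟨fun p => dep s R (s.bar p) x z, fun p => eq_add_of_sub_eq ((c.2.2 p).symm.trans
        (h3 X PL K s A η R hA hc.R_pos x w z y hw.symm b1.symm b2.symm b3.symm p).symm),
        Pin.neg h1 hA.good hc hx hz c.1.symm⟩
  rw [erase_eq_of_notMem fun h => by
    obtain ⟨-, z, -, b1, b2, -⟩ := mem_filter.1 h
    exact (a1 x x z b1 b2).1 rfl] at k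
  linarith

end Pool.Agent.MP_6c3157_co.PQ
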