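import Pool.Agent.MP_6c3157_co.PQ.SpecA

/-! Project PQ, row POOR: few zeros when no irreducible curve is rich. -/

set_option autoImplicit false

noncomputable section

namespace Pool.Agent.MP_6c3157_co.PQ

open Finset Pool.Agent.MP_6c3157_co.PD

namespace Poor

theorem eq_C {K : Type} [Field K] (f : MvPolynomial (Fin 2) K) (h0 : f.degreeOf 0 = 0)
    (h1 : f.degreeOf 1 = 0) : f = MvPolynomial.C (f.coeff 0) := by
  rw [← MvPolynomial.totalDegree_eq_zero_iff_eq_C, MvPolynomial.totalDegree_eq_zero_iff]
  intro m hm x
  have h := MvPolynomial.monomial_le_degreeOf x hm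
  fin_cases x
  · simp only [Fin.zero_eta] at h ⊢
    omega
  · simp only [Fin.mk_one] at h ⊢
    omega

theorem pos {K : Type} [Field K] (f : MvPolynomial (Fin 2) K) (hf : Irreducible f) :
    1 ≤ f.degreeOf 0 + f.degreeOf 1 := by
  by_contra h
  have e := eq_C f (by omega) (by omega)
  have h0 : f.coeff 0 ≠ 0 := fun h0 => hf.ne_zero (by rw [e, h0, map_zero])
  exact hf.not_isUnit (e ▸ (Ne.isUnit h0).map MvPolynomial.C)

end Poor

open Classical in
theorem poor : POOR := by
  intro X PL K _ _ A T b ν hν H g hg hb
  have key : ∀ g : MvPolynomial (Fin 2) K, g ≠ 0 → bd g ≤ b →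
      ((T.filter fun z => A.ev g z = 0).card : ℝ) ≤
        ((g.degreeOf 0 + g.degreeOf 1 : ℕ) : ℝ) * ν := by
    intro g
    induction g using WfDvdMonoid.induction_on_irreducible with
    | zero => exact fun h => absurd rfl h
    | unit u hu =>
      intro _ _
      have : (T.filter fun z => A.ev u z = 0) = ∅ :=
        filter_eq_empty_iff.2 fun z _ => (hu.map (MvPolynomial.eval ![A.U z, A.V z])).ne_zero
      rw [this, card_empty, Nat.cast_zero]
      positivity
    | mul a i ha hi ih =>
      intro _ hb
      have e0 := MvPolynomial.degreeOf_mul_eq (n := 0) hi.ne_zero ha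
      have e1 := MvPolynomial.degreeOf_mul_eq (n := 1) hi.ne_zero ha
      simp only [bd, e0, e1, max_le_iff] at hb
      have h1 := H i hi (max_le (by omega) (by omega))
      have h2 := ih ha (max_le (by omega) (by omega))
      have h3 : (1 : ℝ) ≤ ((i.degreeOf 0 + i.degreeOf 1 : ℕ) : ℝ) := by
        exact_mod_cast Poor.pos i hi
      have h4 : (T.filter fun z => A.ev (i * a) z = 0).card ≤
          (T.filter fun z => A.ev i z = 0).card + (T.filter fun z => A.ev a z = 0).card := by
        refine le_trans (card_le_card fun z hz => ?_) (card_union_le _ _)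
        simp only [mem_union, mem_filter, Ari.ev, map_mul, mul_eq_zero] at hz ⊢
        tauto
      have h5 : ((T.filter fun z => A.ev (i * a) z = 0).card : ℝ) ≤
          (T.filter fun z => A.ev i z = 0).card + (T.filter fun z => A.ev a z = 0).card := by
        exact_mod_cast h4
      rw [e0, e1]
      push_cast at h2 h3 ⊢
      nlinarith
  refine (key g hg hb).trans (mul_le_mul_of_nonneg_right ?_ hν)
  simp only [bd, max_le_iff] at hb
  have : g.degreeOf 0 + g.degreeOf 1 ≤ 2 * b := by omega
  exact_mod_cast this

end Pool.Agent.MP_6c3157_co.PQ
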