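import Pool.Agent.MP_6c3157_co.PQ.SpecA

/-! Project PQ, row RICH: greedy choice of rich curves. -/

set_option autoImplicit false

namespace Pool.Agent.MP_6c3157_co.PQ

open Finset Pool.Agent.MP_6c3157_co.PD

namespace Rich

variable {X PL K : Type} [Field K]

theorem one_le_bd {g : MvPolynomial (Fin 2) K} (hg : Irreducible g) : 1 ≤ bd g := by
  by_contra h
  have h0 : ∀ i : Fin 2, g.degreeOf i = 0 := by
    intro i
    unfold bd at h
    fin_cases i
    · change g.degreeOf 0 = 0
      omega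
    · change g.degreeOf 1 = 0
      omega
  have h1 : g.totalDegree = 0 := by
    rw [MvPolynomial.totalDegree_eq_zero_iff]
    intro m hm i
    have := MvPolynomial.monomial_le_degreeOf i hm
    rw [h0 i] at this
    omega
  rw [MvPolynomial.totalDegree_eq_zero_iff_eq_C] at h1
  by_cases hc : g.coeff 0 = 0
  · exact hg.ne_zero (by rw [h1, hc, map_zero])
  · exact hg.not_isUnit (by rw [h1]; exact (Ne.isUnit hc).map MvPolynomial.C)

theorem ev_dvd (A : Ari X PL K) {f g : MvPolynomial (Fin 2) K} (h : f ∣ g) {z : X}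
    (hz : A.ev f z = 0) : A.ev g z = 0 := by
  obtain ⟨c, rfl⟩ := h
  unfold Ari.ev at hz ⊢
  rw [map_mul, hz, zero_mul]

end Rich

open Classical in
theorem rich : RICH := by
  intro X PL K _ _ A Q b ν hν
  induction Q using Finset.strongInduction with
  | H Q ih =>
  by_cases h : ∀ g : MvPolynomial (Fin 2) K, Irreducible g → bd g ≤ b →
      ((Q.filter fun z => A.ev g z = 0).card : ℝ) ≤ ν
  · refine ⟨∅, fun _ => 0, by simp, by simp, fun g h1 h2 => ?_⟩
    simpa using h g h1 h2
  push Not at h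
  obtain ⟨g, hg, hb, hc⟩ := h
  set P := Q.filter fun z => A.ev g z = 0 with hP
  have ne : ∀ T : Finset X, ν < T.card → T.Nonempty := fun T hT =>
    card_pos.1 (by exact_mod_cast hν.trans_lt hT)
  have hPQ : P ⊆ Q := filter_subset _ _
  obtain ⟨C, f, h1, h2, h3⟩ := ih (Q \ P) (sdiff_ssubset hPQ (ne P hc))
  have hd : ∀ T ∈ C, Disjoint P T := fun T hT =>
    (disjoint_sdiff.mono_right (h1 T hT).1)
  have hn : ∀ T ∈ C, T ≠ P := by
    rintro T hT rfl
    exact (ne _ hc).ne_empty (disjoint_self.1 (hd _ hT))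
  have hv : ∀ T ∈ C, ¬ f T ∣ g := fun T hT e => by
    obtain ⟨z, hz⟩ := ne T (h1 T hT).2.1
    have k := mem_sdiff.1 ((h1 T hT).1 hz)
    exact k.2 (mem_filter.2 ⟨k.1, Rich.ev_dvd A e ((h1 T hT).2.2.2.2.2 z hz)⟩)
  refine ⟨insert P C, Function.update f P g, fun T hT => ?_, fun T hT T' hT' e => ?_,
    fun g' k1 k2 => ?_⟩
  · rcases mem_insert.1 hT with rfl | hT
    · rw [Function.update_self]
      exact ⟨hPQ, hc, hg, hb, Rich.one_le_bd hg, fun z hz => (mem_filter.1 hz).2⟩
    · rw [Function.update_of_ne (hn T hT)]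
      exact ⟨(h1 T hT).1.trans sdiff_subset, (h1 T hT).2⟩
  · rcases mem_insert.1 hT with rfl | hT <;> rcases mem_insert.1 hT' with rfl | hT'
    · exact absurd rfl e
    · rw [Function.update_self, Function.update_of_ne (hn T' hT')]
      exact ⟨hd T' hT', fun k => hv T' hT' (hg.dvd_symm (h1 T' hT').2.2.1 k)⟩
    · rw [Function.update_self, Function.update_of_ne (hn T hT)]
      exact ⟨(hd T hT).symm, hv T hT⟩
    · rw [Function.update_of_ne (hn T hT), Function.update_of_ne (hn T' hT')]
      exact h2 T hT T' hT' e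
  · have e : Q \ (insert P C).biUnion id = (Q \ P) \ C.biUnion id := by
      rw [biUnion_insert, id, sdiff_sdiff_left, sup_eq_union]
    rw [e]
    exact h3 g' k1 k2

end Pool.Agent.MP_6c3157_co.PQ
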