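import Pool.Agent.MP_6c3157_co.PQ.SpecA

/-! Project PQ, row SLOPE: two pins of one base see the slope of the base. -/

set_option autoImplicit false

noncomputable section

namespace Pool.Agent.MP_6c3157_co.PQ

open Finset Pool.Agent.MP_6c3157_co.PD

namespace Slope

/-- the logarithmic identity behind the row -/
lemma logs {a b c d P Q : ℝ} (ha : 0 < a) (hb : 0 < b) (hc : 0 < c) (hd : 0 < d) (hP : 0 < P)
    (hQ : 0 < Q) (h : a * d = b * c) :
    Real.log (P / a) - Real.log (Q / b) = Real.log (P / c) - Real.log (Q / d) := by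
  have h1 := congrArg Real.log h
  rw [Real.log_mul ha.ne' hd.ne', Real.log_mul hb.ne' hc.ne'] at h1
  rw [Real.log_div hP.ne' ha.ne', Real.log_div hQ.ne' hb.ne', Real.log_div hP.ne' hc.ne',
    Real.log_div hQ.ne' hd.ne']
  linarith

end Slope

theorem slope : SLOPE := by
  intro X PL K _ _ _ s A η R hA hR x x' y z hx hy h1 h2 p
  have hU1 : A.U x - A.U x' ≠ 0 := sub_ne_zero.2 fun h => hx (hA.U_inj h)
  have hV1 : A.V x - A.V x' ≠ 0 := sub_ne_zero.2 fun h => hx (hA.V_inj h)
  have hU2 : A.U y - A.U z ≠ 0 := sub_ne_zero.2 fun h => hy (hA.U_inj h)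
  have hV2 : A.V y - A.V z ≠ 0 := sub_ne_zero.2 fun h => hy (hA.V_inj h)
  have key : (A.U x - A.U x') * (A.V y - A.V z) = -((A.V x - A.V x') * (A.U y - A.U z)) := by
    unfold Ari.bis at h1 h2
    linear_combination h2 - h1
  have kv : A.av p (A.U x - A.U x') * A.av p (A.V y - A.V z) =
      A.av p (A.V x - A.V x') * A.av p (A.U y - A.U z) := by
    rw [← map_mul, ← map_mul, key, AbsoluteValue.map_neg]
  have p1 := (A.av p).pos hU1
  have p2 := (A.av p).pos hV1
  have p3 := (A.av p).pos hU2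
  have p4 := (A.av p).pos hV2
  unfold dep
  simp only [hA.d_eq, hA.av_bar, Ari.co, hA.sd_bar]
  cases A.sd p
  · simp only [Bool.not_false, cond_true, cond_false]
    exact Slope.logs p2 p1 p4 p3 (hR _) (hR _) kv.symm
  · simp only [Bool.not_true, cond_true, cond_false]
    exact Slope.logs p1 p2 p3 p4 (hR _) (hR _) kv

end Pool.Agent.MP_6c3157_co.PQ
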