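import Pool.Agent.MP_6c3157_co.PQ.SpecG

/-! Project PQ: subfibres at the coarse and at the fine level. -/

set_option autoImplicit false

noncomputable section

namespace Pool.Agent.MP_6c3157_co.PQ

open Finset Pool.Agent.MP_6c3157_co.PD

namespace Subf01

theorem mono {X : Type} [DecidableEq X] {lab : X → X → ℝ} {Y Y₁ : Finset X} {At : X → Finset X}
    {ok : X → X → Prop} {sf : X → X → Finset X} {ζ κ b a b' a' : ℝ}
    (h : Sbf lab Y Y₁ At ok sf ζ κ b a) (hb : b ≤ b') (ha : a ≤ a') :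
    Sbf lab Y Y₁ At ok sf ζ κ b' a' :=
  ⟨h.sub, h.big, h.bad.trans hb, h.atp.trans ha⟩

theorem ed_false {X : Type} [DecidableEq X] (Y : Finset X) : ed Y (fun _ _ => False) = 0 := by
  simp [ed]

end Subf01

theorem subf0 (h1 : SUBF) (h2 : AT0) : SUBF0 := by
  intro X PL K _ _ _ s A η Y Y₁ At ζ κ k hA hζ hζ' hκ hk
  obtain ⟨ok, sf, h⟩ := h1 X s.lab Y Y₁ At (fun _ _ => False) (fun _ _ => False) ζ κ hζ hζ' hκ
    fun _ _ _ _ _ _ _ _ _ _ _ _ _ _ _ _ h _ _ => h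
  refine ⟨ok, sf, Subf01.mono h (le_of_eq ?_) (add_le_add le_rfl ?_)⟩
  · rw [Subf01.ed_false, Nat.cast_zero, add_zero]
  · exact div_le_div_of_nonneg_right (h2 X PL K A s.lab hA.U_inj hA.V_inj hA.lab Y At k hk)
      (by positivity)

theorem subf1 (h1 : SUBF) (h2 : AT1) (h3 : TRI) (h4 : PIN) (h5 : UEDGE) : SUBF1 := by
  intro X PL K _ _ _ s A η Y Y₁ At R₀ G₀ W₀ ε₀ Λ₀ k b ν C β t₀ M₀ n κ ζ n₁ hA hC hc hΛ hk hcl hn
    hcnt ht hκ hζ hζ' hAt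
  obtain ⟨ok, sf, h⟩ := h1 X s.lab Y Y₁ At (fun x y => slp s R₀ x y ≤ 36 * ε₀ * W₀)
    (fun y z => slp s R₀ y z ≤ 12 * ε₀ * W₀) ζ κ hζ hζ' hκ
    fun x _ y₀ _ y₁ _ y₂ _ _ _ _ a b c d e f g i => by
      have := h3 X PL K s A η R₀ hA hC.R_pos x y₀ y₁ y₂ a b c (hA.lab _ _ _ d.symm)
        (hA.lab _ _ _ e.symm)
      linarith
  refine ⟨ok, sf, Subf01.mono h ?_ (add_le_add le_rfl ?_)⟩
  · have := h5 X PL K s A η Y Y R₀ G₀ W₀ ε₀ b ν C β t₀ k M₀ n κ hA hC Subset.rfl hcl hn hcnt ht hκ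
    linarith
  · exact div_le_div_of_nonneg_right (h2 X PL K A s.lab hA.lab Y At _ k n₁ (by linarith) hAt
      fun y hy z hz hyz hl => h4 X PL K s A η Y R₀ G₀ W₀ ε₀ Λ₀ k hA hC hc hΛ hk y hy z hz hyz
        (not_le.1 hl)) (by positivity)

end Pool.Agent.MP_6c3157_co.PQ
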