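import Pool.Agent.MP_6c3157_co.PQ.SpecD

/-! Project PQ, rows SUBS, REFL, CONIC. -/

set_option autoImplicit false

namespace Pool.Agent.MP_6c3157_co.PQ

open Finset Pool.Agent.MP_6c3157_co.PD MvPolynomial

namespace Subs

variable {K : Type} [Field K]

theorem deg_lin (a b : K) (i j : Fin 2) :
    (C a + C b * X j : MvPolynomial (Fin 2) K).degreeOf i ≤ if i = j then 1 else 0 := by
  refine (degreeOf_add_le _ _ _).trans (max_le ?_ ((degreeOf_C_mul_le _ _ _).trans ?_))
  · rw [degreeOf_C]; exact Nat.zero_le _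
  · rw [degreeOf_X]

end Subs

theorem subs : SUBS := by
  intro K _
  refine ⟨fun f a b c d => ⟨aeval ![C a + C b * X 1, C c + C d * X 0] f, ?_, fun u v => ?_⟩,
    fun a b t => ⟨(C (-a) + C 1 * X 0) * (C (-b) + C 1 * X 1) - C t, ?_, fun u v => ?_⟩⟩
  · have key : ∀ i, (aeval ![C a + C b * X 1, C c + C d * X 0] f :
        MvPolynomial (Fin 2) K).degreeOf i ≤ bd f := fun i => by
      conv_lhs => rw [f.as_sum, map_sum]
      refine (degreeOf_sum_le _ _ _).trans (Finset.sup_le fun m hm => ?_)
      have h0 := (monomial_le_degreeOf 0 hm).trans (le_max_left _ (f.degreeOf 1))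
      have h1 := (monomial_le_degreeOf 1 hm).trans (le_max_right (f.degreeOf 0) _)
      rw [aeval_monomial, Finsupp.prod_fintype _ _ (fun _ => pow_zero _), Fin.prod_univ_two,
        algebraMap_eq]
      refine (degreeOf_C_mul_le _ _ _).trans ((degreeOf_mul_le _ _ _).trans ?_)
      refine (Nat.add_le_add
        ((degreeOf_pow_le _ _ _).trans (Nat.mul_le_mul_left _ (Subs.deg_lin a b i 1)))
        ((degreeOf_pow_le _ _ _).trans (Nat.mul_le_mul_left _ (Subs.deg_lin c d i 0)))).trans ?_
      unfold bd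
      fin_cases i
      · simpa using h1
      · simpa using h0
    exact max_le (key 0) (key 1)
  · induction f using MvPolynomial.induction_on with
    | C c => simp
    | add p q hp hq => simp only [map_add, hp, hq]
    | mul_X p i hp =>
      simp only [map_mul, hp]
      fin_cases i <;> simp
  · have key : ∀ i, ((C (-a) + C 1 * X 0) * (C (-b) + C 1 * X 1) - C t :
        MvPolynomial (Fin 2) K).degreeOf i ≤ 1 := fun i => by
      refine (degreeOf_sub_le _ _ _).trans (max_le ((degreeOf_mul_le _ _ _).trans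
        ((Nat.add_le_add (Subs.deg_lin _ _ i 0) (Subs.deg_lin _ _ i 1)).trans ?_)) ?_)
      · fin_cases i <;> simp
      · rw [degreeOf_C]; exact Nat.zero_le _
    exact max_le (key 0) (key 1)
  · simp
    ring

theorem refl' : REFL := by
  intro X PL K _ _ A hU hV x w y z r hw hr
  unfold Ari.bis
  refine ⟨fun hyz h1 h2 => ?_, fun h1 h2 => ?_⟩
  · have b0 : A.V w - A.V x ≠ 0 := sub_ne_zero.2 fun e => hw (hV e)
    have p0 : A.U z - A.U y ≠ 0 := sub_ne_zero.2 fun e => hyz (hU e).symm
    have e1 : A.U y - A.U x + r * (A.V y - A.V x) = A.U z - A.U x + r * (A.V z - A.V x) :=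
      mul_left_cancel₀ b0 (by linear_combination h1 - h2 - (A.V y - A.V z) * hr)
    have e2 : A.U z - A.U x = r * (A.V y - A.V x) :=
      sub_eq_zero.1 (mul_left_cancel₀ p0 (by
        linear_combination r * h1 - (A.U z - A.U x) * e1))
    exact ⟨e2, by linear_combination -e1 - e2⟩
  · linear_combination (A.V z - A.V y) * hr + (A.V w - A.V y) * h2 + (A.V w - A.V z) * h1

theorem conic (h1 : BZ) (h2 : SUBS) : CONIC := by
  classical
  intro X PL K _ _ A hU hV f P hf hb hP x hx y hy
  obtain ⟨g, g1, g2⟩ := (h2 K).2 (A.U x) (A.V x) ((A.U x - A.U y) * (A.V x - A.V y))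
  have t0 : (A.U x - A.U y) * (A.V x - A.V y) ≠ 0 :=
    mul_ne_zero (sub_ne_zero.2 fun e => hy (hU e).symm) (sub_ne_zero.2 fun e => hy (hV e).symm)
  have nd : ¬ f ∣ g := by
    rintro ⟨k, rfl⟩
    have e := g2 (A.U x) (A.V x)
    rw [map_mul, show eval ![A.U x, A.V x] f = 0 from hP x hx, zero_mul] at e
    exact t0 (by linear_combination e)
  refine le_trans (card_le_card fun z hz => ?_) (h1 X PL K A hU f g (bd f) P hf nd le_rfl
    (g1.trans hb))
  obtain ⟨z1, z2⟩ := mem_filter.1 hz
  refine mem_filter.2 ⟨z1, hP z z1, (g2 _ _).trans ?_⟩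
  unfold Ari.bis at z2
  linear_combination -z2

end Pool.Agent.MP_6c3157_co.PQ
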