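import Pool.Agent.MP_6c3157_co.PQ.SpecD

/-! Project PQ, row UNIT: hot edges are few. -/

set_option autoImplicit false
set_option linter.unusedSectionVars false

noncomputable section

namespace Pool.Agent.MP_6c3157_co.PQ

open Finset Pool.Agent.MP_6c3157_co.PD

namespace UnitE

variable {X : Type} [DecidableEq X]

theorem ed_le (Y : Finset X) (H : X → X → Prop) :
    (ed Y H : ℝ) ≤ ∑ x ∈ Y, ((Y.erase x).card : ℝ) := by
  classical
  have h : ed Y H ≤ (Y.biUnion fun x => (Y.erase x).image fun y => (x, y)).card :=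
    card_le_card fun e he => by
      obtain ⟨h1, h2, -⟩ := mem_filter.1 he
      obtain ⟨h3, h4⟩ := mem_product.1 h1
      exact mem_biUnion.2 ⟨e.1, h3, mem_image.2 ⟨e.2, mem_erase.2 ⟨h2.symm, h4⟩, rfl⟩⟩
  exact_mod_cast h.trans (card_biUnion_le.trans (sum_le_sum fun x _ => card_image_le))

open Classical in
theorem ed_split (Z : Finset X) (C : Finset (Finset X)) (H : X → X → Prop) :
    (ed Z H : ℝ) ≤ (ed Z fun y z => H y z ∧ ¬ ∃ P ∈ C, y ∈ P ∧ z ∈ P : ℕ) +
      ∑ P ∈ C, (ed (Z ∩ P) H : ℝ) := by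
  have h : ed Z H ≤ (ed Z fun y z => H y z ∧ ¬ ∃ P ∈ C, y ∈ P ∧ z ∈ P) +
      ∑ P ∈ C, ed (Z ∩ P) H := by
    unfold ed
    refine le_trans (card_le_card fun e he => ?_)
      ((card_union_le _ _).trans (Nat.add_le_add_left card_biUnion_le _))
    obtain ⟨h1, h2, h3⟩ := mem_filter.1 he
    by_cases c : ∃ P ∈ C, e.1 ∈ P ∧ e.2 ∈ P
    · obtain ⟨P, hP, c1, c2⟩ := c
      obtain ⟨h4, h5⟩ := mem_product.1 h1
      exact mem_union_right _ (mem_biUnion.2 ⟨P, hP, mem_filter.2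
        ⟨mem_product.2 ⟨mem_inter.2 ⟨h4, c1⟩, mem_inter.2 ⟨h5, c2⟩⟩, h2, h3⟩⟩)
    · exact mem_union_left _ ((@mem_filter _ _ (_) _ _).2 ⟨h1, h2, h3, c⟩)
  exact_mod_cast h

end UnitE

open UnitE in
theorem unitE (h1 : GFB) (h2 : FIB) : UNIT := by
  classical
  intro X PL K _ _ A lab hl Q Z b ν C β H k M n κ hκ hn hC hc
  have k0 : 0 < k := by linarith [hc.k_lo]
  have M0 : 0 < M := by linarith [hc.M_lo]
  have κ0 : 0 < κ := by linarith
  let φ : X → ℝ := fun x => ∑ y ∈ Z.erase x, gf κ (fib lab Z x y).card / (fib lab Z x y).card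
  have φ0 : ∀ x, 0 ≤ φ x := fun x =>
    sum_nonneg fun y _ => div_nonneg (h1.2.2.1 κ _ κ0.le).1 (Nat.cast_nonneg _)
  have key : ∀ P ∈ C, (ed (Z ∩ P) H : ℝ) ≤
      ∑ x ∈ Z ∩ P, φ x + (2 * M / κ + 4 / k) * (P.card : ℝ) ^ 2 := fun P hP => by
    by_cases e : 2 * (β P : ℝ) ^ 2 ≤ κ ^ 2
    · refine (ed_le _ H).trans (le_add_of_le_of_nonneg (sum_le_sum fun x hx => ?_) (by positivity))
      have e1 : (((Z ∩ P).erase x).card : ℝ) = ∑ z ∈ Z.erase x, if z ∈ P then (1 : ℝ) else 0 := by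
        rw [sum_boole, filter_mem_eq_inter, erase_inter]
      rw [e1, ← (h2 X lab Z x).2]
      refine sum_le_sum fun y hy => div_le_div_of_nonneg_right ?_ (Nat.cast_nonneg _)
      refine le_trans ?_ (h1.2.2.1 κ _ κ0.le).2.2
      rw [sum_boole]
      refine le_min (by exact_mod_cast card_filter_le _ _) (le_trans ?_ e)
      have := hC.conic P hP x (mem_inter.1 hx).2 y (mem_erase.1 hy).1
      have t : (fib lab Z x y).filter (· ∈ P) ⊆ P.filter fun z => A.bis x y z := fun z hz =>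
        mem_filter.2 ⟨(mem_filter.1 hz).2, hl _ _ _ (mem_filter.1 (mem_filter.1 hz).1).2.symm⟩
      exact_mod_cast le_trans (card_le_card t) this
    · refine (hc.same P hP).trans (le_add_of_nonneg_of_le (sum_nonneg fun x _ => φ0 x) ?_)
      have b1 : (1 : ℝ) ≤ β P := by exact_mod_cast hC.b_lo P hP
      have b2 : κ ≤ 2 * β P := by nlinarith
      have b3 : M / β P ≤ 2 * M / κ := by
        rw [div_le_div_iff₀ (by linarith) κ0]
        nlinarith
      gcongr
  have s1 : ∑ P ∈ C, ∑ x ∈ Z ∩ P, φ x ≤ Phi lab κ Z := by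
    rw [← sum_biUnion fun P hP P' hP' e => Disjoint.mono inter_subset_right inter_subset_right
      (hC.disj P hP P' hP' e)]
    exact sum_le_sum_of_subset_of_nonneg (biUnion_subset.2 fun _ _ => inter_subset_left)
      fun x _ _ => φ0 x
  have s2 : ∑ P ∈ C, (P.card : ℝ) ^ 2 ≤ n ^ 2 :=
    (sum_sq_le_sq_sum_of_nonneg fun P _ => Nat.cast_nonneg _).trans
      (pow_le_pow_left₀ (sum_nonneg fun P _ => Nat.cast_nonneg _) hn 2)
  have s3 := sum_le_sum key
  rw [sum_add_distrib, ← mul_sum] at s3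
  have s4 := mul_le_mul_of_nonneg_left s2 (by positivity : 0 ≤ 2 * M / κ + 4 / k)
  have s5 := ed_split Z C H
  have s6 := hc.gen
  have e : (14 / k + 2 * M / κ) * n ^ 2 = 10 * n ^ 2 / k + (2 * M / κ + 4 / k) * n ^ 2 := by ring
  linarith

end Pool.Agent.MP_6c3157_co.PQ
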