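import Pool.Agent.MP_6c3157_co.PD.Fib
import Pool.Agent.MP_6c3157_co.PQ.Bz
import Pool.Agent.MP_6c3157_co.PQ.Boxp
import Pool.Agent.MP_6c3157_co.PQ.Line
import Pool.Agent.MP_6c3157_co.PQ.Poor
import Pool.Agent.MP_6c3157_co.PQ.Rich
import Pool.Agent.MP_6c3157_co.PQ.Inc
import Pool.Agent.MP_6c3157_co.PQ.Slope
import Pool.Agent.MP_6c3157_co.PQ.Dep
import Pool.Agent.MP_6c3157_co.PQ.Subs
import Pool.Agent.MP_6c3157_co.PQ.Axis
import Pool.Agent.MP_6c3157_co.PQ.Cls2
import Pool.Agent.MP_6c3157_co.PQ.Apb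
import Pool.Agent.MP_6c3157_co.PQ.Far
import Pool.Agent.MP_6c3157_co.PQ.Pin
import Pool.Agent.MP_6c3157_co.PQ.Csl
import Pool.Agent.MP_6c3157_co.PQ.Fpx
import Pool.Agent.MP_6c3157_co.PQ.Fpk
import Pool.Agent.MP_6c3157_co.PQ.Fpc
import Pool.Agent.MP_6c3157_co.PQ.Unit
import Pool.Agent.MP_6c3157_co.PQ.Cl2
import Pool.Agent.MP_6c3157_co.PQ.Clg
import Pool.Agent.MP_6c3157_co.PQ.Gfb
import Pool.Agent.MP_6c3157_co.PQ.Dtop
import Pool.Agent.MP_6c3157_co.PQ.At01
import Pool.Agent.MP_6c3157_co.PQ.Subf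
import Pool.Agent.MP_6c3157_co.PQ.Subf01

/-! Project PQ: assembly of the parts D and G. -/

set_option autoImplicit false

namespace Pool.Agent.MP_6c3157_co.PQ

theorem all_conic : CONIC := conic bz subs

theorem all_axis : AXIS := axis bz subs refl' inc

theorem all_cls2 : CLS2 := cls2 bz boxp line poor rich all_conic all_axis

theorem all_apb : APB := apb slope

theorem all_tri : TRI := tri all_apb

theorem all_far : FAR := far depS all_apb

theorem all_pin : PIN := pin depS all_apb slope all_far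

theorem all_mult : MULT := mult depS all_apb slope all_far

theorem all_pins : PINS := pins all_apb all_pin all_mult

theorem all_fpc : FPC := fpc (fpk inc csl (fpx inc))

theorem all_unit : UNIT := unitE gfb PD.fibs

theorem all_uedge : UEDGE := uedge all_far all_unit

theorem all_clg : CLG := clg cl2 gfb

theorem all_dtop : DTOP := dtop all_far all_tri all_pins all_uedge all_fpc all_clg

theorem all_subf : SUBF := subf pick gfb PD.fibs

theorem all_subf0 : SUBF0 := subf0 all_subf (at0 inc)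

theorem all_subf1 : SUBF1 := subf1 all_subf at1 all_tri all_pin all_uedge

end Pool.Agent.MP_6c3157_co.PQ
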