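import Pool.Agent.MP_6c3157_co.PQ.SpecE

/-! Project PQ: a cluster loses almost nothing. -/

set_option autoImplicit false

namespace Pool.Agent.MP_6c3157_co.PQ

open Finset Pool.Agent.MP_6c3157_co.PD

namespace Clu

variable {X PL : Type} [DecidableEq X]

theorem band {c : Cells X} (hc : c.Good) (x : X) {a : ℝ} (ha : 0 < a) (b : ℝ) :
    c.W (fun i => x ∈ i.2 ∧ a ≤ c.ρ i ∧ c.ρ i < b) ≤ max 0 (Real.log (b / a)) + c.eta := by
  by_cases h : a ≤ b
  · exact (hc.c2 x a b ha h).trans (add_le_add (le_max_right _ _) le_rfl)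
  · rw [Cells.W_zero fun i _ hj => h (hj.2.1.trans hj.2.2.le)]
    exact add_nonneg (le_max_left _ _) hc.eta_lo

open Classical in
theorem three {c : Cells X} (hc : c.Good) {φ ψ χ : ℕ × Finset X → Prop} {f : ℕ × Finset X → ℝ}
    (C : Finset X) (θ : X → ℕ × Finset X → Prop) {a b e : ℝ} (ha : 0 ≤ a) (hb : 0 ≤ b) (he : 0 ≤ e)
    (h : ∀ i ∈ c.I, φ i → f i ≤ 0 ∨ (ψ i ∧ f i ≤ a) ∨
      (χ i ∧ ∃ D ⊆ C, (∀ y ∈ D, θ y i) ∧ f i ≤ b + e * D.card)) :
    c.WS φ f ≤ a * c.W ψ + b * c.W χ + e * ∑ y ∈ C, c.W (θ y) := by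
  refine (Cells.WS_mono hc (ψ := fun _ => True) (f' := fun i => a * (if ψ i then 1 else 0) +
    b * (if χ i then 1 else 0) + e * ∑ y ∈ C, if θ y i then 1 else 0) (fun i hi k => ⟨trivial, ?_⟩)
    fun i _ _ => by positivity).trans (le_of_eq ?_)
  · have h1 : 0 ≤ a * (if ψ i then 1 else 0) := by positivity
    have h2 : 0 ≤ b * (if χ i then 1 else 0) := by positivity
    have h3 : 0 ≤ e * ∑ y ∈ C, if θ y i then 1 else 0 := by positivity
    rcases h i hi k with k | k | k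
    · linarith
    · rw [if_pos k.1]; linarith [k.2]
    · obtain ⟨k, D, d1, d2, d3⟩ := k
      have : (D.card : ℝ) ≤ (C.filter fun y => θ y i).card :=
        Nat.cast_le.2 (card_le_card fun y hy => mem_filter.2 ⟨d1 hy, d2 y hy⟩)
      rw [if_pos k, sum_boole]
      linarith [mul_le_mul_of_nonneg_left this he]
  · simp only [Cells.WS_add, Cells.WS_mul, Cells.WS_sum, Cells.WS_ite, true_and]

variable [Fintype PL] {s : Sys X PL} {Z : Finset X} {R L : PL → ℝ} {G : PL → X → ℝ} {W ε : ℝ}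

theorem place (hs : s.Good) (hz : Cen s Z R G W ε) (p : PL) (hL : 0 ≤ L p) {x y₀ : X} (hx : x ∈ Z)
    {C : Finset X} (hC : C ⊆ Z.erase x) (h0 : y₀ ∈ C) (hl : ∀ y ∈ C, s.lab x y = s.lab x y₀)
    {t : ℝ} (ht : 0 < t) :
    (s.c p).WS (fun i => (s.c p).ρ i < bet s R L p ∧ x ∈ cut s R G p i)
      (fun i => Real.sqrt (C ∩ cut s R G p i).card) ≤
      Real.sqrt C.card * (max 0 (dep s R p x y₀) + (s.c p).eta) +
      t / 2 * (2 * max 0 (dep s R p x y₀) + 2 * max 0 (dep s R (s.bar p) x y₀) + 5 * (s.c p).xi) +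
      1 / (2 * t) * ∑ y ∈ C, (|dep s R p x y - dep s R p x y₀| + (s.c p).eta) := by
  classical
  have hc := hs.good p
  have hc' := hs.good (s.bar p)
  have l0 := hc.lam_pos
  have r0 := hz.R_pos p
  have r1 := hz.R_pos (s.bar p)
  have ne : ∀ y ∈ C, x ≠ y := fun y hy => (mem_erase.1 (hC hy)).1.symm
  have d0 := hc.d_pos (ne y₀ h0)
  have d1 := hc'.d_pos (ne y₀ h0)
  have m1 := le_max_left 0 (dep s R p x y₀)
  have m2 := le_max_left 0 (dep s R (s.bar p) x y₀)
  have x0 := hc.xi_nonneg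
  obtain ⟨β, hβ⟩ : ∃ β, β = 2 * max 0 (dep s R p x y₀) + 2 * max 0 (dep s R (s.bar p) x y₀) +
    4 * (s.c p).xi := ⟨_, rfl⟩
  refine (three hc (ψ := fun i => x ∈ i.2 ∧ (s.c p).d x y₀ / (s.c p).lam ≤ (s.c p).ρ i ∧
      (s.c p).ρ i < R p / (s.c p).lam)
    (χ := fun i => x ∈ i.2 ∧ Real.exp (Real.log (R p) - β) ≤ (s.c p).ρ i ∧ (s.c p).ρ i < R p) C
    (fun y i => x ∈ i.2 ∧ y ∈ i.2 ∧ (s.c p).ρ i < (s.c p).d x y₀ / (s.c p).lam)
    (a := Real.sqrt C.card) (b := t / 2) (e := 1 / (2 * t)) (by positivity) (by positivity)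
    (by positivity) fun i hi k => ?_).trans ?_
  · have k1 := mem_cut.1 k.2
    have b1 : (s.c p).ρ i < R p / (s.c p).lam := k.1.trans_le (div_le_div_of_nonneg_right
      (mul_le_of_le_one_right r0.le (Real.exp_le_one_iff.2 (by linarith))) l0.le)
    by_cases h : (s.c p).d x y₀ / (s.c p).lam ≤ (s.c p).ρ i
    · exact .inr (.inl ⟨⟨k1.1, h, b1⟩, Real.sqrt_le_sqrt
        (Nat.cast_le.2 (card_le_card inter_subset_left))⟩)
    rcases (C ∩ cut s R G p i).eq_empty_or_nonempty with e | ⟨y, hy⟩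
    · exact .inl (by simp [e])
    obtain ⟨y1, y2⟩ := mem_inter.1 hy
    have k2 := mem_cut.1 y2
    have ρ0 := hc.rho_pos i hi
    refine .inr (.inr ⟨⟨k1.1, (Real.le_log_iff_exp_le ρ0).1 ?_,
      b1.trans_le (div_le_self r0.le hc.lam_lo)⟩, ?_⟩)
    · have e1 := Real.log_le_log (hc.d_pos (ne y y1)) (hc.c1 i hi x k1.1 y k2.1)
      have e2 := Real.log_le_log (hc'.d_pos (ne y y1))
        (hz.out (s.bar p) x hx y (mem_of_mem_erase (hC y1)))
      have e3 := congrArg Real.log (hs.f1 p x y y₀ (ne y y1).symm (ne y₀ h0).symm (hl y y1))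
      rw [Real.log_mul l0.ne' ρ0.ne'] at e1
      rw [hs.lam_bar, Real.log_mul (by positivity) (Real.exp_ne_zero _),
        Real.log_mul l0.ne' r1.ne', Real.log_exp] at e2
      rw [Real.log_mul (hc.d_pos (ne y y1)).ne' (hc'.d_pos (ne y y1)).ne',
        Real.log_mul d0.ne' d1.ne'] at e3
      have e4 := le_max_right 0 (dep s R p x y₀)
      have e5 := le_max_right 0 (dep s R (s.bar p) x y₀)
      have e6 : dep s R p x y₀ = _ := Real.log_div r0.ne' d0.ne'
      have e7 : dep s R (s.bar p) x y₀ = _ := Real.log_div r1.ne' d1.ne'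
      have e8 : 2 * max (G (s.bar p) x) (G (s.bar p) y) ≤ Real.log (R p / (s.c p).ρ i) := by
        rcases max_choice (G (s.bar p) x) (G (s.bar p) y) with e | e <;> rw [e]
        exacts [k1.2, k2.2]
      rw [Real.log_div r0.ne' ρ0.ne'] at e8
      linarith [hc.log_lam]
    · refine ⟨C ∩ cut s R G p i, inter_subset_left,
        fun z hz' => ⟨k1.1, (mem_cut.1 (mem_inter.1 hz').2).1, not_le.1 h⟩, ?_⟩
      generalize (C ∩ cut s R G p i).card = m
      have e1 := Real.sq_sqrt (Nat.cast_nonneg (α := ℝ) m)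
      rw [← sub_nonneg, show t / 2 + 1 / (2 * t) * m - √m = (√m - t) ^ 2 / (2 * t) by
        rw [sub_sq, e1]; field_simp; ring]
      positivity
  · refine add_le_add (add_le_add (mul_le_mul_of_nonneg_left ?_ (by positivity))
      (mul_le_mul_of_nonneg_left ?_ (by positivity)))
      (mul_le_mul_of_nonneg_left (sum_le_sum fun y hy => ?_) (by positivity))
    · refine (band hc x (div_pos d0 l0) _).trans (le_of_eq ?_)
      rw [div_div_div_cancel_right₀ l0.ne', dep]
    · refine (band hc x (Real.exp_pos _) _).trans ?_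
      rw [Real.log_div r0.ne' (Real.exp_ne_zero _), Real.log_exp, sub_sub_cancel,
        max_eq_right (by linarith)]
      linarith [hc.eta_hi]
    · refine (hc.pair_below (ne y hy) _).trans (add_le_add (max_le (abs_nonneg _) ?_) le_rfl)
      have d2 := (hc.d_pos (ne y hy)).ne'
      rw [mul_div_cancel₀ _ l0.ne', dep, dep, Real.log_div d0.ne' d2, Real.log_div r0.ne' d2,
        Real.log_div r0.ne' d0.ne']
      exact le_trans (le_of_eq (by ring)) (le_abs_self _)

end Clu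

theorem clu (hD : DEP) : CLU := by
  intro X PL _ _ s hv Z R L G W ε Λ ns T u hs hc u0 u1 eu x hx C hC h
  rcases C.eq_empty_or_nonempty with rfl | ⟨y₀, h0⟩
  · simp [LP, Cells.WS]
  have hz := hc.cen
  have n0 : (0 : ℝ) < C.card := Nat.cast_pos.2 (card_pos.2 ⟨y₀, h0⟩)
  have q0 := Real.sqrt_pos.2 n0
  have d1 := (hD X PL s Z R G W ε hs hz x hx y₀ (mem_of_mem_erase (hC h0))
    (mem_erase.1 (hC h0)).1.symm).2.2.1
  have d2 := hs.sum_bar fun p => max 0 (dep s R p x y₀)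
  have e1 := hs.eta_sum.trans ep_le_one
  have e2 := hs.xi_sum
  have e3 := hz.eW
  have W0 : 0 < W := (mul_pos_iff_of_pos_left hz.e_pos).1 (by linarith)
  have e4 := mul_le_mul_of_nonneg_right hz.e_le W0.le
  have e5 := mul_le_mul_of_nonneg_right eu W0.le
  have e6 : u ^ 2 * W ≤ u * W / 5 := by nlinarith [mul_pos u0 W0]
  have d3 : ∑ p, s.m p * ∑ y ∈ C, (|dep s R p x y - dep s R p x y₀| + (s.c p).eta) ≤
      C.card * (3 * u ^ 2 * W) := by
    simp only [mul_sum]
    rw [sum_comm, ← nsmul_eq_mul]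
    refine sum_le_card_nsmul _ _ _ fun y hy => ?_
    have := (h y hy y₀ h0).2
    simp only [dis] at this
    simp only [mul_add, sum_add_distrib]
    linarith
  refine (hs.sum_le fun p => Clu.place hs hz p (hc.L_lo p) hx hC h0 (fun y hy => (h y hy y₀ h0).1)
    (mul_pos u0 q0)).trans ?_
  have e7 := Real.sq_sqrt n0.le
  generalize Real.sqrt C.card = q at *
  have k : ∀ a b c : PL → ℝ, ∑ p, s.m p * (q * a p + u * q / 2 * b p + 1 / (2 * (u * q)) * c p) =
      q * ∑ p, s.m p * a p + u * q / 2 * ∑ p, s.m p * b p +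
        1 / (2 * (u * q)) * ∑ p, s.m p * c p := fun a b c => by
    simp only [mul_sum, ← sum_add_distrib]
    exact sum_congr rfl fun p _ => by ring
  rw [k]
  have a1 : ∑ p, s.m p * (max 0 (dep s R p x y₀) + (s.c p).eta) ≤ (1 + u) * W := by
    simp only [mul_add, sum_add_distrib]
    linarith
  have a2 : ∑ p, s.m p * (2 * max 0 (dep s R p x y₀) + 2 * max 0 (dep s R (s.bar p) x y₀) +
      5 * (s.c p).xi) ≤ 5 * W := by
    simp only [mul_add, sum_add_distrib, mul_left_comm _ (2 : ℝ), mul_left_comm _ (5 : ℝ),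
      ← mul_sum]
    linarith
  refine (add_le_add (add_le_add (mul_le_mul_of_nonneg_left a1 q0.le)
    (mul_le_mul_of_nonneg_left a2 (by positivity)))
    (mul_le_mul_of_nonneg_left d3 (by positivity))).trans (le_of_eq ?_)
  rw [← e7]
  field_simp
  ring

end Pool.Agent.MP_6c3157_co.PQ
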