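import Pool.Agent.MP_6c3157_co.PQ.SpecI

/-! Project PQ, part E: the jump. Definitions, tools and row statements. -/

set_option autoImplicit false
set_option linter.unusedSectionVars false

noncomputable section

namespace Pool.Agent.MP_6c3157_co.PQ

open Finset Pool.Agent.MP_6c3157_co.PD

section defs

variable {X PL : Type} [DecidableEq X]

open Classical in
/-- points of `T` with a given label and colour at the pin `x` -/
def fl (lab : X → X → ℝ) (col : X → X → Fin 3) (T : Finset X) (x : X) (l : ℝ) (k : Fin 3) :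
    Finset X := (T.erase x).filter fun z => lab x z = l ∧ col x z = k

/-- points of `T` with colour zero at the pin `x` -/
def jk (col : X → X → Fin 3) (T : Finset X) (x : X) : Finset X :=
  (T.erase x).filter fun z => col x z = 0

open Classical in
/-- the potential split into junk and clusters, at one pin -/
def Fx (lab : X → X → ℝ) (κ : ℝ) (col : X → X → Fin 3) (Z : Finset X) (x : X) (T : Finset X) : ℝ :=
  (jk col T x).card + ∑ l ∈ (Z.erase x).image (lab x),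
    (gf κ (fl lab col T x l 1).card + gf κ (fl lab col T x l 2).card)

/-- the potential split into junk and clusters -/
def Fj (lab : X → X → ℝ) (κ : ℝ) (col : X → X → Fin 3) (Z T : Finset X) : ℝ :=
  ∑ x ∈ T, Fx lab κ col Z x T

open Classical in
/-- the penalty for large sets -/
def hj (n γ : ℝ) (T : Finset X) : ℝ := if n ≤ (T.card : ℝ) then Pr T * (T.card : ℝ) ^ γ else 0

open Classical in
/-- the trimmed cell -/
def cut (s : Sys X PL) (R : PL → ℝ) (G : PL → X → ℝ) (p : PL) (i : ℕ × Finset X) : Finset X :=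
  i.2.filter fun z => 2 * G (s.bar p) z ≤ Real.log (R p / (s.c p).ρ i)

variable [Fintype PL]

/-- the averaging operator over the trimmed low cells -/
def LL (s : Sys X PL) (R L : PL → ℝ) (G : PL → X → ℝ) (f : Finset X → ℝ) (T : Finset X) : ℝ :=
  ∑ p, s.m p * (s.c p).WS (fun i => (s.c p).ρ i < bet s R L p) fun i => f (T ∩ cut s R G p i)

/-- the same over the cells through `x` -/
def LP (s : Sys X PL) (R L : PL → ℝ) (G : PL → X → ℝ) (x : X) (f : Finset X → ℝ)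
    (T : Finset X) : ℝ :=
  ∑ p, s.m p * (s.c p).WS (fun i => (s.c p).ρ i < bet s R L p ∧ x ∈ cut s R G p i)
    fun i => f (T ∩ cut s R G p i)

/-- weight of the trimmed low cells through two points -/
def Om (s : Sys X PL) (R L : PL → ℝ) (G : PL → X → ℝ) (x y : X) : ℝ :=
  ∑ p, s.m p * (s.c p).W fun i =>
    (s.c p).ρ i < bet s R L p ∧ x ∈ cut s R G p i ∧ y ∈ cut s R G p i

open Classical in
/-- cells that hold a small share of `T` carry a part of the pairs of `T` -/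
def MedH (s : Sys X PL) (R L : PL → ℝ) (G : PL → X → ℝ) (Z : Finset X) (W θ σ n : ℝ) : Prop :=
  ∀ T ⊆ Z, n ≤ (T.card : ℝ) →
    θ * W * Pr T ≤ LL s R L G (fun S => if (S.card : ℝ) ≤ σ * T.card then Pr S else 0) T

/-- colours one and two cut every fibre into clusters -/
def Clus (s : Sys X PL) (R : PL → ℝ) (Z : Finset X) (col : X → X → Fin 3) (t : ℝ) : Prop :=
  ∀ x ∈ Z, ∀ y ∈ Z.erase x, ∀ z ∈ Z.erase x, s.lab x y = s.lab x z → col x y = col x z →
    col x y ≠ 0 → dis s R x y z ≤ t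

/-! ### tools -/

theorem Pr_nonneg (T : Finset X) : 0 ≤ Pr T := by
  unfold Pr
  rcases Nat.eq_zero_or_pos T.card with h | h
  · simp [h]
  · have : (1 : ℝ) ≤ T.card := by exact_mod_cast h
    exact mul_nonneg (by linarith) (by linarith)

theorem Pr_eq (T : Finset X) : Pr T = ∑ x ∈ T, ∑ _y ∈ T.erase x, (1 : ℝ) := by
  unfold Pr
  rw [sum_congr rfl fun x hx => (show ∑ _y ∈ T.erase x, (1 : ℝ) = T.card - 1 by
    rw [sum_const, nsmul_eq_mul, mul_one, cast_card_erase_of_mem hx]), sum_const, nsmul_eq_mul]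

theorem mem_cut {s : Sys X PL} {R : PL → ℝ} {G : PL → X → ℝ} {p : PL} {i : ℕ × Finset X} {z : X} :
    z ∈ cut s R G p i ↔ z ∈ i.2 ∧ 2 * G (s.bar p) z ≤ Real.log (R p / (s.c p).ρ i) := by
  unfold cut; exact mem_filter

variable {s : Sys X PL} {R L : PL → ℝ} {G : PL → X → ℝ} {f g : Finset X → ℝ} {T : Finset X}

theorem LL_le (hs : s.Good) (h : ∀ S ⊆ T, f S ≤ g S) : LL s R L G f T ≤ LL s R L G g T :=
  hs.sum_le fun p => Cells.WS_le (hs.good p) fun _ _ _ => h _ inter_subset_left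

theorem LL_add : LL s R L G (fun S => f S + g S) T = LL s R L G f T + LL s R L G g T := by
  unfold LL
  rw [← sum_add_distrib]
  exact sum_congr rfl fun p _ => by rw [Cells.WS_add, mul_add]

theorem LL_mul (a : ℝ) : LL s R L G (fun S => a * f S) T = a * LL s R L G f T := by
  unfold LL
  rw [mul_sum]
  exact sum_congr rfl fun p _ => by rw [Cells.WS_mul]; ring

theorem LP_le (hs : s.Good) (x : X) (h : ∀ S ⊆ T, f S ≤ g S) :
    LP s R L G x f T ≤ LP s R L G x g T :=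
  hs.sum_le fun p => Cells.WS_le (hs.good p) fun _ _ _ => h _ inter_subset_left

theorem LP_add (x : X) :
    LP s R L G x (fun S => f S + g S) T = LP s R L G x f T + LP s R L G x g T := by
  unfold LP
  rw [← sum_add_distrib]
  exact sum_congr rfl fun p _ => by rw [Cells.WS_add, mul_add]

theorem LP_mul (x : X) (a : ℝ) : LP s R L G x (fun S => a * f S) T = a * LP s R L G x f T := by
  unfold LP
  rw [mul_sum]
  exact sum_congr rfl fun p _ => by rw [Cells.WS_mul]; ring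

theorem LP_sum {α : Type} (x : X) (t : Finset α) (F : α → Finset X → ℝ) :
    LP s R L G x (fun S => ∑ a ∈ t, F a S) T = ∑ a ∈ t, LP s R L G x (F a) T := by
  unfold LP
  rw [sum_comm]
  exact sum_congr rfl fun p _ => by rw [Cells.WS_sum, mul_sum]

/-- a sum over the points of the cell -/
theorem LL_pin (F : X → Finset X → ℝ) :
    LL s R L G (fun S => ∑ x ∈ S, F x S) T = ∑ x ∈ T, LP s R L G x (F x) T := by
  classical
  unfold LL LP
  rw [sum_comm]
  refine sum_congr rfl fun p _ => ?_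
  rw [← mul_sum]
  congr 1
  unfold Cells.WS
  rw [sum_comm]
  refine sum_congr rfl fun i _ => ?_
  by_cases h : (s.c p).ρ i < bet s R L p
  · rw [if_pos h, mul_sum, ← filter_mem_eq_inter, sum_filter]
    refine sum_congr rfl fun x _ => ?_
    by_cases h' : x ∈ cut s R G p i <;> simp [h, h', filter_mem_eq_inter]
  · simp [h]

/-- the number of points in the cell -/
theorem LP_card (x : X) (C : Finset X) :
    LP s R L G x (fun S => (S.card : ℝ)) C = ∑ y ∈ C, Om s R L G x y := by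
  unfold LP Om
  rw [sum_comm]
  refine sum_congr rfl fun p _ => ?_
  rw [← mul_sum]
  congr 1
  have h := Cells.sum_W' (c := s.c p)
    (φ := fun i => (s.c p).ρ i < bet s R L p ∧ x ∈ cut s R G p i) C fun i y => y ∈ cut s R G p i
  simp only [and_assoc] at h
  rw [h]
  refine Cells.WS_congr (fun _ _ => Iff.rfl) fun i _ _ => ?_
  congr 2
  ext y; simp

/-- only the trace of the function matters -/
theorem LP_congr (x : X) {T' : Finset X} (h : ∀ B : Finset X, f (T ∩ B) = g (T' ∩ B)) :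
    LP s R L G x f T = LP s R L G x g T' :=
  sum_congr rfl fun _ _ => by rw [Cells.WS_congr (fun _ _ => Iff.rfl) fun _ _ _ => h _]

end defs

/-! ### rows -/

/-- every pair has almost the same weight -/
def OM : Prop :=
  ∀ (X PL : Type) [DecidableEq X] [Fintype PL] (s : Sys X PL) (hv : ℕ × Finset X → Prop)
    (Z : Finset X) (R L : PL → ℝ) (G : PL → X → ℝ) (W ε Λ ns T : ℝ), s.Good →
    Cln s hv Z R L G W ε Λ ns T → ∀ x ∈ Z, ∀ y ∈ Z, x ≠ y →
    (1 - 11 * ε) * W ≤ Om s R L G x y ∧ Om s R L G x y ≤ (1 + 5 * ε) * W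

/-- a cluster loses almost nothing -/
def CLU : Prop :=
  ∀ (X PL : Type) [DecidableEq X] [Fintype PL] (s : Sys X PL) (hv : ℕ × Finset X → Prop)
    (Z : Finset X) (R L : PL → ℝ) (G : PL → X → ℝ) (W ε Λ ns T u : ℝ), s.Good →
    Cln s hv Z R L G W ε Λ ns T → 0 < u → u ≤ 1 / 5 → ε ≤ u ^ 2 → ∀ x ∈ Z, ∀ C ⊆ Z.erase x,
    (∀ y ∈ C, ∀ z ∈ C, s.lab x y = s.lab x z ∧ dis s R x y z ≤ 2 * u ^ 2 * W) →
    LP s R L G x (fun S => Real.sqrt S.card) C ≤ (1 + 5 * u) * W * Real.sqrt C.card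

/-- the split potential against the potential -/
def FUN : Prop :=
  ∀ (X : Type) [DecidableEq X] (lab : X → X → ℝ) (κ : ℝ) (col : X → X → Fin 3) (Z : Finset X),
    0 ≤ κ → (∀ T ⊆ Z, Phi lab κ T ≤ Fj lab κ col Z T) ∧
      Fj lab κ col Z Z ≤ (∑ x ∈ Z, ((jk col Z x).card : ℝ)) + 2 * Phi lab κ Z

/-- the operator on the split potential -/
def LLF : Prop :=
  ∀ (X PL : Type) [DecidableEq X] [Fintype PL] (s : Sys X PL) (hv : ℕ × Finset X → Prop)
    (Z : Finset X) (R L : PL → ℝ) (G : PL → X → ℝ) (W ε Λ ns T u κ : ℝ) (col : X → X → Fin 3),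
    s.Good → Cln s hv Z R L G W ε Λ ns T → 0 < u → u ≤ 1 / 5 → ε ≤ u ^ 2 → 0 ≤ κ →
    Clus s R Z col (2 * u ^ 2 * W) → ∀ B ⊆ Z,
    LL s R L G (Fj s.lab κ col Z) B ≤ (1 + 5 * u) * W * Fj s.lab κ col Z B

/-- the operator on pairs and on the penalty -/
def LLH : Prop :=
  ∀ (X PL : Type) [DecidableEq X] [Fintype PL] (s : Sys X PL) (hv : ℕ × Finset X → Prop)
    (Z : Finset X) (R L : PL → ℝ) (G : PL → X → ℝ) (W ε Λ ns T θ σ n γ : ℝ),
    s.Good → Cln s hv Z R L G W ε Λ ns T → 20 * ε ≤ θ → 0 ≤ σ → 0 ≤ γ → σ ^ γ ≤ 1 / 2 →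
    MedH s R L G Z W θ σ n → ∀ B ⊆ Z,
    (1 - 11 * ε) * W * Pr B ≤ LL s R L G Pr B ∧
      LL s R L G (hj n γ) B ≤ (1 - θ / 4) * W * hj n γ B

open Classical in
/-- cells of middle size at one place -/
def MEDP : Prop :=
  ∀ (X : Type) [DecidableEq X] (c : Cells X) (hv : ℕ × Finset X → Prop) (Y B : Finset X)
    (σ σ₁ b : ℝ) (ct : ℕ × Finset X → Finset X), c.Good → B ⊆ Y → B.Nonempty → 0 ≤ σ →
    (∀ i, ct i ⊆ i.2) →
    (B.card : ℝ) ^ 2 * (((∑ x ∈ Y, ∑ y ∈ Y.erase x, (c.osm hv Y σ x y - c.osm hv Y σ₁ x y)) /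
        (2 * (Y.card : ℝ) ^ 2)) - c.disc hv Y σ₁ B) ≤
      c.WS (fun i => c.ρ i < b)
        (fun i => if ((B ∩ ct i).card : ℝ) ≤ 2 * σ * B.card then Pr (B ∩ ct i) else 0) +
      (∑ y ∈ B, c.olg hv Y σ₁ y y) +
      ∑ x ∈ B, ∑ y ∈ B.erase x, (c.W (fun i => ¬ hv i ∧ x ∈ i.2 ∧ b ≤ c.ρ i) +
        c.W fun i => x ∈ i.2 ∧ c.ρ i < b ∧ y ∈ i.2 ∧ (x ∉ ct i ∨ y ∉ ct i))

/-- cells of middle size carry a part of the pairs -/
def MED : Prop :=
  ∀ (X PL : Type) [DecidableEq X] [Fintype PL] (s : Sys X PL) (hv : ℕ × Finset X → Prop)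
    (Y Z : Finset X) (R L : PL → ℝ) (G : PL → X → ℝ) (W ε Λ ns T θ σ σ₁ n : ℝ),
    s.Good → Cln s hv Z R L G W ε Λ ns T → Z ⊆ Y → 200 * ε ≤ θ → 0 ≤ σ → 0 < n →
    θ * T * (Y.card : ℝ) ^ 2 ≤ s.Th hv Y σ → s.Th hv Y σ₁ ≤ θ / 100 * T * (Y.card : ℝ) ^ 2 →
    (∀ C ⊆ Z, n ≤ (C.card : ℝ) → s.Disc hv Y σ₁ C ≤ θ / 100 * T) →
    (∀ y ∈ Z, s.Olg hv Y σ₁ y y ≤ θ / 100 * T * n) →
    MedH s R L G Z W (θ / 25) (2 * σ) n

/-- the jump -/
def JUMP : Prop :=
  ∀ (X PL : Type) [DecidableEq X] [Fintype PL] (s : Sys X PL) (hv : ℕ × Finset X → Prop)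
    (Y Z : Finset X) (R L : PL → ℝ) (G : PL → X → ℝ) (W ε Λ ns T κ u θ σ σ₁ a n γ β : ℝ) (j : ℕ)
    (col : X → X → Fin 3), s.Good → Cln s hv Z R L G W ε Λ ns T → Z ⊆ Y →
    0 ≤ κ → 0 < u → u ≤ 1 / 5 → ε ≤ u ^ 2 → 500 * ε ≤ θ → θ ≤ 1 → 0 ≤ σ → 0 < n → 0 ≤ γ →
    0 ≤ a → (2 * σ) ^ γ ≤ 1 / 2 → 250 * u * j ≤ 1 →
    (1 - θ / 100) ^ j * ((Z.card : ℝ) / n) ^ γ ≤ 1 / 20 →
    θ * T * (Y.card : ℝ) ^ 2 ≤ s.Th hv Y σ → s.Th hv Y σ₁ ≤ θ / 100 * T * (Y.card : ℝ) ^ 2 →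
    (∀ C ⊆ Z, n ≤ (C.card : ℝ) → s.Disc hv Y σ₁ C ≤ θ / 100 * T) →
    (∀ y ∈ Z, s.Olg hv Y σ₁ y y ≤ θ / 100 * T * n) →
    (∀ S ⊆ Z, (S.card : ℝ) < n → a * Pr S ≤ Phi s.lab κ S) →
    Clus s R Z col (2 * u ^ 2 * W) → (∑ x ∈ Z, ((jk col Z x).card : ℝ)) ≤ β →
    a * Pr Z ≤ 11 / 10 * (β + 2 * Phi s.lab κ Z)

end Pool.Agent.MP_6c3157_co.PQ
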