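import Pool.Agent.MP_6c3157_co.PQ.SpecD
import Pool.Agent.MP_6c3157_co.PQ.SpecE

/-! Project PQ: from clusters to colours; the jump in terms of clusters. -/

set_option autoImplicit false
set_option linter.unusedSectionVars false

noncomputable section

namespace Pool.Agent.MP_6c3157_co.PQ

open Finset Pool.Agent.MP_6c3157_co.PD

open Classical in
/-- a count of ordered pairs as a sum over the first point -/
theorem ed_eq_sum {X : Type} [DecidableEq X] (Z : Finset X) (H : X → X → Prop) :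
    (ed Z H : ℝ) = ∑ x ∈ Z, (((Z.erase x).filter fun y => H x y).card : ℝ) := by
  unfold ed
  rw [card_filter, sum_product]
  push_cast
  refine sum_congr rfl fun x hx => ?_
  rw [card_filter, ← add_sum_erase Z _ hx]
  push_cast
  rw [if_neg (by simp), zero_add]
  refine sum_congr rfl fun y hy => ?_
  have : x ≠ y := (ne_of_mem_erase hy).symm
  simp [this]

theorem col {X PL : Type} [DecidableEq X] [Fintype PL] {s : Sys X PL} {R : PL → ℝ} {Z : Finset X}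
    {δ : ℝ} {c₁ c₂ : X → ℝ → Finset X} (h : Clu s R Z δ c₁ c₂) :
    ∃ col : X → X → Fin 3, Clus s R Z col (2 * δ) ∧
      (∑ x ∈ Z, ((jk col Z x).card : ℝ)) = junk s Z c₁ c₂ := by
  classical
  refine ⟨fun x y => if y ∈ c₁ x (s.lab x y) then 1 else if y ∈ c₂ x (s.lab x y) then 2 else 0,
    fun x _ y _ z _ hl hc h0 => ?_, ?_⟩
  · dsimp only at hc h0
    rw [← hl] at hc
    by_cases a : y ∈ c₁ x (s.lab x y)
    · by_cases b : z ∈ c₁ x (s.lab x y)
      · exact h.dia₁ x _ y a z b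
      · rw [if_pos a, if_neg b] at hc
        split_ifs at hc <;> exact absurd hc (by decide)
    · by_cases a' : y ∈ c₂ x (s.lab x y)
      · by_cases b : z ∈ c₁ x (s.lab x y)
        · rw [if_neg a, if_pos a', if_pos b] at hc
          exact absurd hc (by decide)
        · by_cases b' : z ∈ c₂ x (s.lab x y)
          · exact h.dia₂ x _ y a' z b'
          · rw [if_neg a, if_pos a', if_neg b, if_neg b'] at hc
            exact absurd hc (by decide)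
      · rw [if_neg a, if_neg a'] at h0
        exact absurd rfl h0
  · unfold junk
    rw [ed_eq_sum]
    refine sum_congr rfl fun x _ => ?_
    unfold jk
    congr 2
    ext y
    simp only [mem_filter]
    refine and_congr_right fun _ => ?_
    by_cases a : y ∈ c₁ x (s.lab x y) <;> by_cases b : y ∈ c₂ x (s.lab x y) <;> simp [a, b]

/-- the jump in terms of clusters -/
def JUMP2 : Prop :=
  ∀ (X PL : Type) [DecidableEq X] [Fintype PL] (s : Sys X PL) (hv : ℕ × Finset X → Prop)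
    (Y Z : Finset X) (R L : PL → ℝ) (G : PL → X → ℝ) (W ε Λ ns T κ u θ σ σ₁ a n γ β : ℝ) (j : ℕ)
    (c₁ c₂ : X → ℝ → Finset X), s.Good → Cln s hv Z R L G W ε Λ ns T → Z ⊆ Y →
    0 ≤ κ → 0 < u → u ≤ 1 / 5 → ε ≤ u ^ 2 → 500 * ε ≤ θ → θ ≤ 1 → 0 ≤ σ → 0 < n → 0 ≤ γ →
    0 ≤ a → (2 * σ) ^ γ ≤ 1 / 2 → 250 * u * j ≤ 1 →
    (1 - θ / 100) ^ j * ((Z.card : ℝ) / n) ^ γ ≤ 1 / 20 →
    θ * T * (Y.card : ℝ) ^ 2 ≤ s.Th hv Y σ → s.Th hv Y σ₁ ≤ θ / 100 * T * (Y.card : ℝ) ^ 2 →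
    (∀ C ⊆ Z, n ≤ (C.card : ℝ) → s.Disc hv Y σ₁ C ≤ θ / 100 * T) →
    (∀ y ∈ Z, s.Olg hv Y σ₁ y y ≤ θ / 100 * T * n) →
    (∀ S ⊆ Z, (S.card : ℝ) < n → a * Pr S ≤ Phi s.lab κ S) →
    Clu s R Z (u ^ 2 * W) c₁ c₂ → (junk s Z c₁ c₂ : ℝ) ≤ β →
    a * Pr Z ≤ 11 / 10 * (β + 2 * Phi s.lab κ Z)

theorem jump2 (h : JUMP) : JUMP2 := by
  intro X PL _ _ s hv Y Z R L G W ε Λ ns T κ u θ σ σ₁ a n γ β j c₁ c₂ hs hc hZ a1 a2 a3 a4 a5 a6
    a7 a8 a9 a10 a11 a12 a13 a14 a15 a16 a17 a18 hcl hj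
  obtain ⟨cl, h1, h2⟩ := col hcl
  exact h X PL s hv Y Z R L G W ε Λ ns T κ u θ σ σ₁ a n γ β j cl hs hc hZ a1 a2 a3 a4 a5 a6
    a7 a8 a9 a10 a11 a12 a13 a14 a15 a16 a17 a18 (by rwa [mul_assoc]) (h2.le.trans hj)

end Pool.Agent.MP_6c3157_co.PQ
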