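import Pool.Agent.MP_6c3157_co.PQ.SpecE

/-! Project PQ: the split potential against the potential. -/

set_option autoImplicit false

noncomputable section

namespace Pool.Agent.MP_6c3157_co.PQ

open Finset Pool.Agent.MP_6c3157_co.PD

namespace Fun

theorem gf_zero (κ : ℝ) : gf κ 0 = 0 := by simp [gf]

theorem gf_le (κ : ℝ) (k : ℕ) : gf κ k ≤ k := min_le_left _ _

theorem gf_mono {κ : ℝ} (hκ : 0 ≤ κ) {a b : ℕ} (h : a ≤ b) : gf κ a ≤ gf κ b := by
  have h1 : (a : ℝ) ≤ b := by exact_mod_cast h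
  exact min_le_min h1 (mul_le_mul_of_nonneg_left (Real.sqrt_le_sqrt h1) hκ)

theorem sqrt_add (a b : ℝ) (ha : 0 ≤ a) (hb : 0 ≤ b) : √(a + b) ≤ √a + √b := by
  rw [Real.sqrt_le_left (by positivity)]
  nlinarith [Real.sq_sqrt ha, Real.sq_sqrt hb, mul_nonneg (Real.sqrt_nonneg a) (Real.sqrt_nonneg b)]

theorem gf_add {κ : ℝ} (hκ : 0 ≤ κ) (a b : ℕ) : gf κ (a + b) ≤ gf κ a + gf κ b := by
  have key : ∀ a b : ℕ, a ≤ b → (a : ℝ) ≤ κ * √a → κ * √b ≤ b →
      κ * √((a : ℝ) + b) ≤ a + κ * √b := fun a b _ h1 h2 => by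
    have ha : (0 : ℝ) ≤ a := Nat.cast_nonneg a
    have hb : (0 : ℝ) ≤ b := Nat.cast_nonneg b
    have h3 : κ ≤ √b ∨ b = 0 := by
      rcases Nat.eq_zero_or_pos b with h | h
      · exact Or.inr h
      · have h4 : 0 < √(b : ℝ) := Real.sqrt_pos.2 (by exact_mod_cast h)
        refine Or.inl (le_of_mul_le_mul_right (h2.trans (le_of_eq ?_)) h4)
        exact (Real.mul_self_sqrt hb).symm
    rcases h3 with h3 | rfl
    · have h5 : κ * √((a : ℝ) + b) = √(κ ^ 2 * (a + b)) := by
        rw [Real.sqrt_mul (sq_nonneg κ), Real.sqrt_sq hκ]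
      rw [h5, Real.sqrt_le_left (by positivity)]
      have h6 := Real.sq_sqrt hb
      have h7 := mul_le_mul_of_nonneg_left h3 (mul_nonneg ha hκ)
      have h8 := mul_nonneg (mul_nonneg ha hκ) (Real.sqrt_nonneg (b : ℝ))
      nlinarith [sq_nonneg (a : ℝ)]
    · have : a = 0 := by omega
      subst this
      simp
  have h0 := mul_le_mul_of_nonneg_left (sqrt_add a b (Nat.cast_nonneg a) (Nat.cast_nonneg b)) hκ
  have cmp : ∀ a b : ℕ, (a : ℝ) ≤ κ * √a → κ * √b ≤ b →
      min ((a : ℝ) + b) (κ * √((a : ℝ) + b)) ≤ a + κ * √b := fun a b h1 h2 => by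
    rcases le_total a b with h | h
    · exact (min_le_right _ _).trans (key a b h h1 h2)
    · have ha : (0 : ℝ) ≤ a := Nat.cast_nonneg a
      have hb : (0 : ℝ) ≤ b := Nat.cast_nonneg b
      rcases Nat.eq_zero_or_pos a with h3 | h3
      · have : b = 0 := by omega
        subst this
        simp
      · have h4 : 0 < √(a : ℝ) := Real.sqrt_pos.2 (by exact_mod_cast h3)
        have h5 : √(a : ℝ) ≤ κ :=
          le_of_mul_le_mul_right ((Real.mul_self_sqrt ha).le.trans h1) h4
        have h6 : √(b : ℝ) ≤ κ := (Real.sqrt_le_sqrt (by exact_mod_cast h)).trans h5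
        have h7 := mul_le_mul_of_nonneg_right h6 (Real.sqrt_nonneg (b : ℝ))
        rw [Real.mul_self_sqrt hb] at h7
        exact (min_le_left _ _).trans (by linarith)
  unfold gf
  push_cast
  rcases le_total (a : ℝ) (κ * √a) with h1 | h1 <;> rcases le_total (b : ℝ) (κ * √b) with h2 | h2
  · rw [min_eq_left h1, min_eq_left h2]; exact min_le_left _ _
  · rw [min_eq_left h1, min_eq_right h2]; exact cmp a b h1 h2
  · rw [min_eq_right h1, min_eq_left h2, add_comm (a : ℝ), add_comm (κ * √(a : ℝ))]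
    exact cmp b a h2 h1
  · rw [min_eq_right h1, min_eq_right h2]; exact (min_le_right _ _).trans (by linarith)

variable {X : Type} [DecidableEq X] {lab : X → X → ℝ} {κ : ℝ} {col : X → X → Fin 3}
  {Z T : Finset X}

open Classical in
theorem maps (h : T ⊆ Z) (x : X) : ∀ y ∈ T.erase x, lab x y ∈ (Z.erase x).image (lab x) :=
  fun _ hy => mem_image_of_mem _ (erase_subset_erase x h hy)

open Classical in
theorem pin (h : T ⊆ Z) (x : X) :
    ∑ y ∈ T.erase x, gf κ (fib lab T x y).card / (fib lab T x y).card =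
      ∑ l ∈ (Z.erase x).image (lab x), gf κ ((T.erase x).filter fun z => lab x z = l).card := by
  rw [← sum_fiberwise_of_maps_to (maps h x)]
  refine sum_congr rfl fun l _ => ?_
  have e : ∀ y ∈ (T.erase x).filter fun z => lab x z = l,
      fib lab T x y = (T.erase x).filter fun z => lab x z = l := fun y hy => by
    ext z
    rw [mem_fib, mem_filter, (mem_filter.1 hy).2]
  rw [sum_congr rfl fun y hy => by rw [e y hy], sum_const, nsmul_eq_mul]
  rcases Nat.eq_zero_or_pos ((T.erase x).filter fun z => lab x z = l).card with h0 | h0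
  · rw [h0, gf_zero]; simp
  · exact mul_div_cancel₀ _ (by exact_mod_cast h0.ne')

open Classical in
theorem split (x : X) (l : ℝ) : ((T.erase x).filter fun z => lab x z = l).card ≤
    (fl lab col T x l 0).card + ((fl lab col T x l 1).card + (fl lab col T x l 2).card) := by
  refine le_trans (card_le_card (t := fl lab col T x l 0 ∪ (fl lab col T x l 1 ∪ fl lab col T x l 2))
    fun z hz => ?_) ((card_union_le _ _).trans (Nat.add_le_add_left (card_union_le _ _) _))
  obtain ⟨h1, h2⟩ := mem_filter.1 hz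
  have h3 : ∀ k : Fin 3, k = 0 ∨ k = 1 ∨ k = 2 := by decide
  simp only [mem_union, fl, mem_filter]
  rcases h3 (col x z) with h | h | h
  exacts [Or.inl ⟨h1, h2, h⟩, Or.inr (Or.inl ⟨h1, h2, h⟩), Or.inr (Or.inr ⟨h1, h2, h⟩)]

open Classical in
theorem junk (h : T ⊆ Z) (x : X) : ((jk col T x).card : ℝ) =
    ∑ l ∈ (Z.erase x).image (lab x), ((fl lab col T x l 0).card : ℝ) := by
  rw [← Nat.cast_sum, card_eq_sum_card_fiberwise (f := lab x) (s := jk col T x)
    (t := (Z.erase x).image (lab x)) fun y hy => maps h x y (mem_filter.1 hy).1]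
  congr 1
  refine sum_congr rfl fun l _ => congrArg card ?_
  ext z
  simp only [jk, fl, mem_filter]
  tauto

end Fun

theorem fn (_hF : FIB) : FUN := by
  intro X _ lab κ col Z hκ
  classical
  refine ⟨fun T hT => sum_le_sum fun x _ => ?_, ?_⟩
  · rw [Fun.pin hT]
    unfold Fx
    rw [Fun.junk (lab := lab) hT, ← sum_add_distrib]
    refine sum_le_sum fun l _ => (Fun.gf_mono hκ (Fun.split (col := col) x l)).trans ?_
    exact (Fun.gf_add hκ _ _).trans (add_le_add (Fun.gf_le _ _) (Fun.gf_add hκ _ _))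
  · unfold Fj Phi
    rw [mul_sum, ← sum_add_distrib]
    refine sum_le_sum fun x _ => ?_
    rw [Fun.pin Subset.rfl]
    unfold Fx
    rw [mul_sum]
    refine add_le_add le_rfl (sum_le_sum fun l _ => ?_)
    have h : ∀ k, (fl lab col Z x l k).card ≤ ((Z.erase x).filter fun z => lab x z = l).card :=
      fun k => card_le_card fun z hz =>
        mem_filter.2 ⟨(mem_filter.1 hz).1, (mem_filter.1 hz).2.1⟩
    linarith [Fun.gf_mono hκ (h 1), Fun.gf_mono hκ (h 2)]

end Pool.Agent.MP_6c3157_co.PQ
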