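import Pool.Agent.MP_6c3157_co.PQ.SpecE

/-! Project PQ, row JUMP: iteration of the averaging operator. -/

set_option autoImplicit false
set_option linter.unusedSectionVars false

noncomputable section

namespace Pool.Agent.MP_6c3157_co.PQ

open Finset Pool.Agent.MP_6c3157_co.PD

namespace Jump

variable {X PL : Type} [DecidableEq X] [Fintype PL]

theorem iter {s : Sys X PL} {R L : PL → ℝ} {G : PL → X → ℝ} (hs : s.Good) (Z : Finset X)
    (P F h : Finset X → ℝ) (a b α β γ : ℝ) (ha : 0 ≤ a) (hb : 0 ≤ b) (hα : 0 ≤ α) (hβ : 0 ≤ β)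
    (hγ : 0 ≤ γ) (hP : ∀ B ⊆ Z, α * P B ≤ LL s R L G P B)
    (hF : ∀ B ⊆ Z, LL s R L G F B ≤ β * F B) (hh : ∀ B ⊆ Z, LL s R L G h B ≤ γ * h B)
    (h0 : ∀ B ⊆ Z, a * P B ≤ F B + b * h B) (j : ℕ) :
    ∀ B ⊆ Z, a * α ^ j * P B ≤ β ^ j * F B + b * γ ^ j * h B := by
  induction j with
  | zero => simpa using h0
  | succ j ih =>
    intro B hB
    have h1 : LL s R L G (fun S => a * α ^ j * P S) B ≤
        LL s R L G (fun S => β ^ j * F S + b * γ ^ j * h S) B :=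
      LL_le hs fun S hS => ih S (hS.trans hB)
    rw [LL_mul, LL_add, LL_mul, LL_mul] at h1
    have h2 := mul_le_mul_of_nonneg_left (hP B hB) (by positivity : 0 ≤ a * α ^ j)
    have h3 := mul_le_mul_of_nonneg_left (hF B hB) (by positivity : 0 ≤ β ^ j)
    have h4 := mul_le_mul_of_nonneg_left (hh B hB) (by positivity : 0 ≤ b * γ ^ j)
    rw [pow_succ, pow_succ, pow_succ]
    nlinarith

theorem gf_nonneg {κ : ℝ} (h : 0 ≤ κ) (k : ℕ) : 0 ≤ gf κ k :=
  le_min (Nat.cast_nonneg k) (mul_nonneg h (Real.sqrt_nonneg _))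

theorem Fj_nonneg (lab : X → X → ℝ) {κ : ℝ} (h : 0 ≤ κ) (col : X → X → Fin 3) (Z T : Finset X) :
    0 ≤ Fj lab κ col Z T :=
  sum_nonneg fun _ _ => add_nonneg (Nat.cast_nonneg _)
    (sum_nonneg fun _ _ => add_nonneg (gf_nonneg h _) (gf_nonneg h _))

theorem pow_up {u : ℝ} (hu : 0 < u) (j : ℕ) (h : 250 * u * j ≤ 1) : (1 + 5 * u) ^ j ≤ 50 / 49 := by
  have h1 : (1 + 5 * u) ^ j ≤ Real.exp (5 * u) ^ j :=
    pow_le_pow_left₀ (by positivity) (by linarith [Real.add_one_le_exp (5 * u)]) j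
  rw [← Real.exp_nat_mul] at h1
  have h2 : Real.exp (j * (5 * u)) ≤ Real.exp (1 / 50) := Real.exp_le_exp.2 (by nlinarith)
  have h3 := Real.exp_bound_div_one_sub_of_interval (x := 1 / 50) (by norm_num) (by norm_num)
  norm_num at h3 ⊢
  linarith

end Jump

theorem jump (h1 : FUN) (h2 : LLF) (h3 : LLH) (h4 : MED) : JUMP := by
  intro X PL _ _ s hv Y Z R L G W ε Λ ns T κ u θ σ σ₁ a n γ β j col hs hc hZ hκ hu hu5 hε hθ hθ1
    hσ hn hγ ha hsg hj1 hj2 t1 t2 t3 t4 ih hcl hβ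
  have e0 := hc.cen.e_pos
  have e1 := hc.cen.e_le
  have W0 : 0 < W := by
    have := hc.cen.eW
    by_contra hW
    nlinarith [not_lt.1 hW]
  have hM := h4 X PL s hv Y Z R L G W ε Λ ns T θ σ σ₁ n hs hc hZ (by linarith) hσ hn t1 t2 t3 t4
  have hH := h3 X PL s hv Z R L G W ε Λ ns T (θ / 25) (2 * σ) n γ hs hc (by linarith)
    (by linarith) hγ hsg hM
  have hF := h2 X PL s hv Z R L G W ε Λ ns T u κ col hs hc hu hu5 hε hκ hcl
  obtain ⟨f1, f2⟩ := h1 X s.lab κ col Z hκ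
  have nγ : 0 < n ^ γ := Real.rpow_pos_of_pos hn γ
  have key := Jump.iter hs Z Pr (Fj s.lab κ col Z) (hj n γ) a (a / n ^ γ) ((1 - 11 * ε) * W)
    ((1 + 5 * u) * W) ((1 - θ / 25 / 4) * W) ha (by positivity)
    (mul_nonneg (by linarith) W0.le) (by positivity) (mul_nonneg (by linarith) W0.le)
    (fun B hB => (hH B hB).1) hF (fun B hB => (hH B hB).2) (fun B hB => by
      have F0 := Jump.Fj_nonneg s.lab hκ col Z B
      unfold hj
      split_ifs with hb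
      · have r1 : n ^ γ ≤ (B.card : ℝ) ^ γ := Real.rpow_le_rpow hn.le hb hγ
        have r2 : a * Pr B * 1 ≤ a * Pr B * ((B.card : ℝ) ^ γ / n ^ γ) :=
          mul_le_mul_of_nonneg_left ((one_le_div nγ).2 r1) (mul_nonneg ha (Pr_nonneg B))
        have r3 : a / n ^ γ * (Pr B * (B.card : ℝ) ^ γ) =
            a * Pr B * ((B.card : ℝ) ^ γ / n ^ γ) := by ring
        linarith
      · have := (ih B hB (not_le.1 hb)).trans (f1 B hB)
        linarith) j Z Subset.rfl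
  have hh : a / n ^ γ * hj n γ Z ≤ a * Pr Z * ((Z.card : ℝ) / n) ^ γ := by
    rw [Real.div_rpow (Nat.cast_nonneg _) hn.le]
    unfold hj
    split_ifs
    · exact le_of_eq (by ring)
    · have := Pr_nonneg Z
      rw [mul_zero]; positivity
  have aP : 0 ≤ a * Pr Z := mul_nonneg ha (Pr_nonneg Z)
  have Wj : 0 < W ^ j := pow_pos W0 j
  have θe : 1 - θ / 25 / 4 = 1 - θ / 100 := by ring
  rw [θe, mul_pow, mul_pow, mul_pow] at key
  have q0 : 0 ≤ (1 - θ / 100) ^ j := pow_nonneg (by linarith) j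
  have k2 : a * Pr Z * (1 - 11 * ε) ^ j ≤
      (1 + 5 * u) ^ j * Fj s.lab κ col Z Z + (1 - θ / 100) ^ j * (a / n ^ γ * hj n γ Z) := by
    refine le_of_mul_le_mul_left ?_ Wj
    linarith
  have b1 : 1 + (j : ℝ) * (-(11 * ε)) ≤ (1 + -(11 * ε)) ^ j := one_add_mul_le_pow (by linarith) j
  have j0 : (0 : ℝ) ≤ j := Nat.cast_nonneg j
  have b2 : (j : ℝ) * (11 * ε) ≤ 11 / 1250 := by
    have : ε * j ≤ u ^ 2 * j := mul_le_mul_of_nonneg_right hε j0
    have : u * (250 * u * j) ≤ u * 1 := mul_le_mul_of_nonneg_left hj1 hu.le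
    nlinarith
  have b3 : 1 - 11 / 1250 ≤ (1 - 11 * ε) ^ j := by
    rw [sub_eq_add_neg 1 (11 * ε)]; linarith
  have b4 := mul_le_mul_of_nonneg_left b3 aP
  have b5 := mul_le_mul_of_nonneg_right (Jump.pow_up hu j hj1) (Jump.Fj_nonneg s.lab hκ col Z Z)
  have b6 := mul_le_mul_of_nonneg_left hh q0
  have b7 := mul_le_mul_of_nonneg_left hj2 aP
  have b8 := Jump.Fj_nonneg s.lab hκ col Z Z
  nlinarith

end Pool.Agent.MP_6c3157_co.PQ
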