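import Pool.Agent.MP_6c3157_co.PQ.SpecE

/-! Project PQ: the averaging operator on the split potential. -/

set_option autoImplicit false

namespace Pool.Agent.MP_6c3157_co.PQ

open Finset Pool.Agent.MP_6c3157_co.PD

namespace Llf

variable {X : Type} [DecidableEq X]

theorem jk_inter (col : X → X → Fin 3) (B c : Finset X) (x : X) :
    jk col (B ∩ c) x = jk col B x ∩ c := by
  ext z
  simp only [jk, mem_filter, mem_erase, mem_inter]
  tauto

theorem fl_inter (lab : X → X → ℝ) (col : X → X → Fin 3) (B c : Finset X) (x : X) (l : ℝ)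
    (k : Fin 3) : fl lab col (B ∩ c) x l k = fl lab col B x l k ∩ c := by
  ext z
  simp only [fl, mem_filter, mem_erase, mem_inter]
  tauto

theorem mem_fl {lab : X → X → ℝ} {col : X → X → Fin 3} {B : Finset X} {x z : X} {l : ℝ}
    {k : Fin 3} (h : z ∈ fl lab col B x l k) : z ∈ B.erase x ∧ lab x z = l ∧ col x z = k := by
  simpa only [fl, mem_filter] using h

end Llf

theorem llf (h1 : OM) (h2 : CLU) : LLF := by
  intro X PL _ _ s hv Z R L G W ε Λ ns T u κ col hs hC u0 u1 eu hκ hcl B hB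
  have e0 := hC.cen.e_pos
  have W0 : 0 < W := by
    have := hC.cen.eW
    by_contra h
    nlinarith [mul_nonneg e0.le (neg_nonneg.2 (not_lt.1 h))]
  have c0 : 0 ≤ (1 + 5 * u) * W := by positivity
  have c1 : (1 + 5 * ε) * W ≤ (1 + 5 * u) * W :=
    mul_le_mul_of_nonneg_right (by nlinarith) W0.le
  have hA : ∀ x ∈ Z, ∀ C ⊆ Z.erase x,
      LP s R L G x (fun S => (S.card : ℝ)) C ≤ (1 + 5 * u) * W * C.card := fun x hx C hCZ => by
    rw [LP_card, mul_comm, ← nsmul_eq_mul]
    refine sum_le_card_nsmul _ _ _ fun y hy => ?_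
    have := mem_erase.1 (hCZ hy)
    exact (h1 X PL s hv Z R L G W ε Λ ns T hs hC x hx y this.2 this.1.symm).2.trans c1
  have hF : ∀ x ∈ Z, ∀ (l : ℝ) (k : Fin 3), k ≠ 0 →
      LP s R L G x (fun S => gf κ (fl s.lab col S x l k).card) B ≤
        (1 + 5 * u) * W * gf κ (fl s.lab col B x l k).card := fun x hx l k hk => by
    have hsub : fl s.lab col B x l k ⊆ Z.erase x := fun z hz =>
      erase_subset_erase x hB (Llf.mem_fl hz).1
    rw [LP_congr (g := fun S => gf κ S.card) (T' := fl s.lab col B x l k) x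
      fun c => by rw [Llf.fl_inter]]
    have a1 := hA x hx _ hsub
    have a2 := h2 X PL s hv Z R L G W ε Λ ns T u hs hC u0 u1 eu x hx _ hsub fun y hy z hz => by
      obtain ⟨-, y1, y2⟩ := Llf.mem_fl hy
      obtain ⟨-, z1, z2⟩ := Llf.mem_fl hz
      exact ⟨y1.trans z1.symm, hcl x hx y (hsub hy) z (hsub hz) (y1.trans z1.symm)
        (y2.trans z2.symm) (y2 ▸ hk)⟩
    generalize fl s.lab col B x l k = C at a1 a2 ⊢
    conv_rhs => rw [gf, mul_min_of_nonneg _ _ c0]
    refine le_min ((LP_le hs x fun S _ => min_le_left _ _).trans a1)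
      ((LP_le (g := fun S => κ * Real.sqrt S.card) hs x fun S _ => min_le_right _ _).trans ?_)
    rw [LP_mul, mul_left_comm]
    exact mul_le_mul_of_nonneg_left a2 hκ
  unfold Fj
  rw [LL_pin, mul_sum]
  refine sum_le_sum fun x hx => ?_
  unfold Fx
  rw [LP_add, LP_sum, mul_add, mul_sum]
  refine add_le_add ?_ (sum_le_sum fun l _ => ?_)
  · rw [LP_congr (g := fun S => (S.card : ℝ)) (T' := jk col B x) x
      fun c => by rw [Llf.jk_inter]]
    exact hA x (hB hx) _ ((filter_subset _ _).trans (erase_subset_erase x hB))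
  · rw [LP_add, mul_add]
    exact add_le_add (hF x (hB hx) l 1 (by decide)) (hF x (hB hx) l 2 (by decide))

end Pool.Agent.MP_6c3157_co.PQ
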