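import Pool.Agent.MP_6c3157_co.PQ.SpecE

/-! Project PQ, row LLH: the operator on pairs and on the penalty. -/

set_option autoImplicit false

namespace Pool.Agent.MP_6c3157_co.PQ

open Finset Pool.Agent.MP_6c3157_co.PD

namespace Llh

variable {X PL : Type} [DecidableEq X] [Fintype PL]

theorem pr (s : Sys X PL) (R L : PL → ℝ) (G : PL → X → ℝ) (B : Finset X) :
    LL s R L G Pr B = ∑ x ∈ B, ∑ y ∈ B.erase x, Om s R L G x y := by
  have e : (Pr : Finset X → ℝ) = fun S => ∑ x ∈ S, ((S.erase x).card : ℝ) :=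
    funext fun S => by simp only [Pr_eq, sum_const, nsmul_eq_mul, mul_one]
  rw [e, LL_pin fun x S => ((S.erase x).card : ℝ)]
  exact sum_congr rfl fun x _ => (LP_congr (g := fun S => (S.card : ℝ)) x fun c => by
    rw [erase_inter]).trans (LP_card x _)

theorem cst (a : ℝ) (B : Finset X) : a * Pr B = ∑ x ∈ B, ∑ _y ∈ B.erase x, a := by
  simp only [Pr_eq, mul_sum, mul_one]

end Llh

theorem llh (h1 : OM) : LLH := by
  intro X PL _ _ s hv Z R L G W ε Λ ns T θ σ n γ hs hc hθ hσ hγ h2 hm B hB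
  classical
  have o := fun x (hx : x ∈ B) y (hy : y ∈ B.erase x) => h1 X PL s hv Z R L G W ε Λ ns T hs hc x
    (hB hx) y (hB (mem_of_mem_erase hy)) (ne_of_mem_erase hy).symm
  have up : LL s R L G Pr B ≤ (1 + 5 * ε) * W * Pr B := by
    rw [Llh.pr, Llh.cst]
    exact sum_le_sum fun x hx => sum_le_sum fun y hy => (o x hx y hy).2
  refine ⟨by
    rw [Llh.pr, Llh.cst]
    exact sum_le_sum fun x hx => sum_le_sum fun y hy => (o x hx y hy).1, ?_⟩
  have c : ∀ S ⊆ B, (S.card : ℝ) ≤ B.card := fun S h => by exact_mod_cast card_le_card h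
  by_cases u : n ≤ (B.card : ℝ)
  · have b : 0 ≤ (B.card : ℝ) ^ γ := by positivity
    have k := LL_le (R := R) (L := L) (G := G) (T := B) (f := hj n γ) (g := fun S =>
      (B.card : ℝ) ^ γ * Pr S + -((B.card : ℝ) ^ γ / 2) *
        if (S.card : ℝ) ≤ σ * B.card then Pr S else 0) hs fun S h => by
      have p := Pr_nonneg S
      have q : hj n γ S ≤ Pr S * (S.card : ℝ) ^ γ := by
        unfold hj
        split_ifs
        exacts [le_rfl, by positivity]
      split_ifs with v
      · have := Real.rpow_le_rpow (Nat.cast_nonneg _) v hγ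
        rw [Real.mul_rpow hσ (Nat.cast_nonneg _)] at this
        nlinarith [mul_le_mul_of_nonneg_left (this.trans (mul_le_mul_of_nonneg_right h2 b)) p]
      · nlinarith [mul_le_mul_of_nonneg_left (Real.rpow_le_rpow (Nat.cast_nonneg _) (c S h) hγ) p]
    rw [LL_add, LL_mul, LL_mul] at k
    have m := mul_le_mul_of_nonneg_left (hm B hB u) b
    have w0 : 0 ≤ W := nonneg_of_mul_nonneg_right (le_trans (by norm_num) hc.cen.eW) hc.cen.e_pos
    have w := mul_nonneg (mul_nonneg (mul_nonneg w0 (Pr_nonneg B)) b) (sub_nonneg.2 hθ)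
    rw [hj, if_pos u]
    nlinarith [mul_le_mul_of_nonneg_left up b]
  · have k := LL_le (R := R) (L := L) (G := G) (T := B) (f := hj n γ) (g := fun S => 0 * Pr S) hs
      fun S h => by rw [hj, if_neg fun v => u (v.trans (c S h)), zero_mul]
    rw [LL_mul] at k
    rw [hj, if_neg u]
    linarith

end Pool.Agent.MP_6c3157_co.PQ
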