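import Pool.Agent.MP_6c3157_co.PQ.SpecE

/-! Project PQ, row MED: cells of middle size carry a part of the pairs. -/

set_option autoImplicit false
set_option linter.unusedSectionVars false

namespace Pool.Agent.MP_6c3157_co.PQ

open Finset Pool.Agent.MP_6c3157_co.PD

namespace Med

variable {X PL : Type} [DecidableEq X] [Fintype PL] {s : Sys X PL} {R L : PL → ℝ} {G : PL → X → ℝ}

theorem cutw (hs : s.Good) (p : PL) (hR : 0 < R p) (hL : 0 ≤ L p) (hG : ∀ x, 0 ≤ G (s.bar p) x)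
    (x y : X) : (s.c p).W (fun i => x ∈ i.2 ∧ (s.c p).ρ i < bet s R L p ∧ y ∈ i.2 ∧
      (x ∉ cut s R G p i ∨ y ∉ cut s R G p i)) ≤
      2 * G (s.bar p) x + 2 * G (s.bar p) y + (s.c p).xi := by
  have hc := hs.good p
  have hx := hG x
  have hy := hG y
  obtain ⟨t, ht⟩ : ∃ t, t = 2 * G (s.bar p) x + 2 * G (s.bar p) y := ⟨_, rfl⟩
  have h2 := hc.c2 x (R p * Real.exp (-t)) (R p) (by positivity)
    (mul_le_of_le_one_right hR.le (Real.exp_le_one_iff.2 (by linarith)))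
  have hb : bet s R L p ≤ R p := (div_le_self (by positivity) hc.lam_lo).trans
    (mul_le_of_le_one_right hR.le (Real.exp_le_one_iff.2 (by linarith)))
  rw [div_mul_cancel_left₀ hR.ne', ← Real.exp_neg, neg_neg, Real.log_exp] at h2
  refine (Cells.W_mono hc fun i hi hj => ⟨hj.1, ?_, hj.2.1.trans_le hb⟩).trans
    (h2.trans (by linarith [hc.eta_hi]))
  have hρ := hc.rho_pos i hi
  have h3 : Real.log (R p / (s.c p).ρ i) ≤ t := by
    rcases hj.2.2.2 with h | h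
    · linarith [not_le.1 fun k => h (mem_cut.2 ⟨hj.1, k⟩)]
    · linarith [not_le.1 fun k => h (mem_cut.2 ⟨hj.2.2.1, k⟩)]
  rw [Real.log_le_iff_le_exp (div_pos hR hρ), div_le_iff₀ hρ] at h3
  rwa [Real.exp_neg, ← div_eq_mul_inv, div_le_iff₀' (Real.exp_pos t)]

theorem sum2 (F : PL → X → X → ℝ) (B : Finset X) :
    ∑ p, s.m p * ∑ x ∈ B, ∑ y ∈ B.erase x, F p x y =
      ∑ x ∈ B, ∑ y ∈ B.erase x, ∑ p, s.m p * F p x y := by
  simp only [mul_sum]
  rw [sum_comm]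
  exact sum_congr rfl fun x _ => sum_comm

theorem pair {hv : ℕ × Finset X → Prop} {Z : Finset X} {W ε Λ ns T : ℝ} (hs : s.Good)
    (hc : Cln s hv Z R L G W ε Λ ns T) {x y : X} (hx : x ∈ Z) (hy : y ∈ Z) :
    ∑ p, s.m p * (L p + G p x + 3 * (s.c p).xi +
      (2 * G (s.bar p) x + 2 * G (s.bar p) y + (s.c p).xi)) ≤ 10 * (ε * W) * 1 := by
  have e : ∑ p, s.m p * (L p + G p x + 3 * (s.c p).xi +
      (2 * G (s.bar p) x + 2 * G (s.bar p) y + (s.c p).xi)) = (∑ p, s.m p * L p) +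
      (∑ p, s.m p * G p x) + 4 * (∑ p, s.m p * (s.c p).xi) + 2 * (∑ p, s.m p * G (s.bar p) x) +
      2 * ∑ p, s.m p * G (s.bar p) y := by
    simp only [mul_sum, ← sum_add_distrib]
    exact sum_congr rfl fun p _ => by ring
  rw [e, hs.sum_bar fun p => G p x, hs.sum_bar fun p => G p y]
  linarith [hc.L_sum, hc.cen.G_sum x hx, hc.cen.G_sum y hy, hs.xi_sum, hc.cen.eW]

end Med

theorem med (h1 : MEDP) : MED := by
  intro X PL _ _ s hv Y Z R L G W ε Λ ns T θ σ σ₁ n hs hc hZ hθ hσ hn hT1 hT2 hD hO B hB hnB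
  have hB0 : (0 : ℝ) < B.card := hn.trans_le hnB
  have hY : (0 : ℝ) < Y.card := hB0.trans_le (Nat.cast_le.2 (card_le_card (hB.trans hZ)))
  have he := hc.cen.e_pos
  have hW : 0 < W := (mul_pos_iff_of_pos_left he).1 (by linarith [hc.cen.eW])
  have hθ0 : 0 < θ := by linarith
  have hT : θ * W ≤ θ * (5 * T) := mul_le_mul_of_nonneg_left hc.WT hθ0.le
  have hθW := mul_pos hθ0 hW
  have k := hs.sum_le fun p => (h1 X (s.c p) hv Y B σ σ₁ (bet s R L p) (cut s R G p) (hs.good p)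
    (hB.trans hZ) (card_pos.1 (by exact_mod_cast hB0)) hσ fun i z hz => (mem_cut.1 hz).1).trans
    (add_le_add_right (sum_le_sum fun x hx => sum_le_sum fun y _ => add_le_add (hc.lt p x (hB hx))
      (Med.cutw hs p (hc.cen.R_pos p) (hc.L_lo p) (hc.cen.G_lo _) x y)) _)
  have e1 : ∑ p, s.m p * ((B.card : ℝ) ^ 2 * ((∑ x ∈ Y, ∑ y ∈ Y.erase x,
      ((s.c p).osm hv Y σ x y - (s.c p).osm hv Y σ₁ x y)) / (2 * (Y.card : ℝ) ^ 2) -
      (s.c p).disc hv Y σ₁ B)) = (B.card : ℝ) ^ 2 *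
      ((s.Th hv Y σ - s.Th hv Y σ₁) / (2 * (Y.card : ℝ) ^ 2) - s.Disc hv Y σ₁ B) := by
    unfold Sys.Th Sys.Osm Sys.Disc
    rw [← Med.sum2, ← Med.sum2, ← sum_sub_distrib, sum_div, ← sum_sub_distrib, mul_sum]
    exact sum_congr rfl fun p _ => by simp only [sum_sub_distrib]; ring
  have e2 : ∑ p, s.m p * ∑ y ∈ B, (s.c p).olg hv Y σ₁ y y = ∑ y ∈ B, s.Olg hv Y σ₁ y y := by
    simp only [mul_sum]
    exact sum_comm
  rw [e1] at k
  simp only [mul_add (s.m _) _ (∑ _ ∈ B, _), sum_add_distrib (s := univ)] at k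
  rw [e2, Med.sum2] at k
  have k1 := sum_le_sum fun x (hx : x ∈ B) => sum_le_sum fun y (hy : y ∈ B.erase x) =>
    Med.pair hs hc (hB hx) (hB (mem_of_mem_erase hy))
  have k2 := sum_le_card_nsmul B _ _ fun y hy => hO y (hB hy)
  simp only [← mul_sum] at k1
  rw [← Pr_eq] at k1
  rw [nsmul_eq_mul] at k2
  have k3 : 99 / 200 * (θ * T) ≤ (s.Th hv Y σ - s.Th hv Y σ₁) / (2 * (Y.card : ℝ) ^ 2) := by
    rw [le_div_iff₀ (by positivity)]
    linarith
  have k4 := mul_le_mul_of_nonneg_left (sub_le_sub k3 (hD B hB hnB)) (sq_nonneg (B.card : ℝ))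
  have k6 := mul_le_mul_of_nonneg_left hnB
    (mul_nonneg hB0.le (by linarith : 0 ≤ θ * T))
  have k7 : Pr B ≤ (B.card : ℝ) ^ 2 := by unfold Pr; linarith
  have k8 := mul_le_mul_of_nonneg_left hT (sq_nonneg (B.card : ℝ))
  have k9 := mul_le_mul_of_nonneg_left k7 hθW.le
  have k10 := mul_le_mul_of_nonneg_right (mul_le_mul_of_nonneg_right hθ hW.le) (Pr_nonneg B)
  have k11 := mul_nonneg hθW.le (Pr_nonneg B)
  unfold LL
  linarith

end Pool.Agent.MP_6c3157_co.PQ
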