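import Pool.Agent.MP_6c3157_co.PQ.SpecE

/-! Project PQ, row MEDP: cells of middle size at one place. -/

set_option autoImplicit false

noncomputable section

namespace Pool.Agent.MP_6c3157_co.PQ

open Finset Pool.Agent.MP_6c3157_co.PD Cells

namespace Medp

theorem pt1 (p m : ℝ) : m ^ 2 / 2 - (p - m) ^ 2 ≤ p ^ 2 := by nlinarith [sq_nonneg (2 * p - m)]

theorem pt2 {p m σ : ℝ} (h0 : 0 ≤ m) (h1 : m ≤ σ) (h2 : 2 * σ < p) :
    m ^ 2 / 2 - (p - m) ^ 2 ≤ 0 := by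
  nlinarith [mul_nonneg h0 (show 0 ≤ p - 2 * m by linarith), sq_nonneg (p - 2 * m)]

theorem sh {X : Type} [DecidableEq X] {c : Cells X} {hv : ℕ × Finset X → Prop} {Y : Finset X}
    {σ : ℝ} (hc : c.Good) (h0 : 0 ≤ σ) {i : ℕ × Finset X} (hi : i ∈ c.I) (h : c.small hv Y σ i) :
    ((Y ∩ i.2).card : ℝ) ≤ σ * Y.card := by
  rcases (Y ∩ i.2).eq_empty_or_nonempty with e | ⟨y, hy⟩
  · rw [e, card_empty, Nat.cast_zero]; positivity
  · rw [mem_inter] at hy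
    exact le_trans (by exact_mod_cast card_le_card (inter_subset_ball hc hi hy.2))
      (h.2 y hy.1 hy.2).le

end Medp

open Medp in
theorem medp : MEDP := by
  classical
  intro X _ c hv Y B σ σ₁ b ct hc hB hne h0 hct
  have bp : (0 : ℝ) < B.card := by exact_mod_cast card_pos.2 hne
  have yp : (0 : ℝ) < Y.card := by exact_mod_cast card_pos.2 (hne.mono hB)
  obtain ⟨Md, hM⟩ : ∃ Md : ℕ × Finset X → Prop,
    Md = fun i => c.small hv Y σ i ∧ ¬ c.small hv Y σ₁ i := ⟨_, rfl⟩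
  obtain ⟨φ, hφ⟩ : ∃ φ : ℕ × Finset X → Prop,
    φ = fun i => Md i ∧ ((B ∩ i.2).card : ℝ) ≤ 2 * σ * B.card := ⟨_, rfl⟩
  have h1 : ∑ x ∈ Y, ∑ y ∈ Y.erase x, (c.osm hv Y σ x y - c.osm hv Y σ₁ x y) ≤
      c.WS Md fun i => ((Y ∩ i.2).card : ℝ) ^ 2 := by
    refine le_trans (sum_le_sum fun x _ => sum_le_sum fun y _ => ?_) ((sum2_W (φ := Md) Y).le.trans
      (WS_le hc fun i _ _ => by nlinarith [Nat.cast_nonneg (α := ℝ) (Y ∩ i.2).card]))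
    rw [sub_le_iff_le_add]
    exact W_le_add hc fun i _ h => by rw [hM]; tauto
  have h2 : c.WS Md (fun i => (((B ∩ i.2).card : ℝ) / B.card - ((Y ∩ i.2).card : ℝ) / Y.card) ^ 2) ≤
      c.disc hv Y σ₁ B :=
    WS_mono hc (fun i _ h => ⟨(hM ▸ h).2, le_rfl⟩) fun _ _ _ => sq_nonneg _
  have h3 : c.WS Md (fun i => (B.card : ℝ) ^ 2 * ((((Y ∩ i.2).card : ℝ) / Y.card) ^ 2 / 2 -
      (((B ∩ i.2).card : ℝ) / B.card - ((Y ∩ i.2).card : ℝ) / Y.card) ^ 2)) ≤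
      c.WS φ fun i => ((B ∩ i.2).card : ℝ) ^ 2 := by
    rw [WS_split fun i => ((B ∩ i.2).card : ℝ) ≤ 2 * σ * B.card, ← hφ]
    refine (add_le_add (WS_le hc fun i _ _ => ?_) ((WS_le (f' := fun _ => 0) hc fun i hi h => ?_).trans
      (WS_const 0).le)).trans_eq (by rw [zero_mul, add_zero])
    · refine (mul_le_mul_of_nonneg_left (pt1 _ _) (sq_nonneg _)).trans_eq ?_
      field_simp
    · refine mul_nonpos_of_nonneg_of_nonpos (sq_nonneg _) (pt2 (σ := σ) (by positivity) ?_ ?_)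
      · rw [div_le_iff₀ yp]; exact sh hc h0 hi (hM ▸ h.1).1
      · rw [lt_div_iff₀ bp]; exact not_le.1 h.2
  have h4 : (c.WS φ fun i => ((B ∩ i.2).card : ℝ) ^ 2) = ∑ y ∈ B, c.W (fun i => φ i ∧ y ∈ i.2) +
      ∑ x ∈ B, ∑ y ∈ B.erase x, c.W fun i => φ i ∧ x ∈ i.2 ∧ y ∈ i.2 := by
    rw [sum_W, sum2_W, ← WS_add]
    exact WS_congr (fun _ _ => Iff.rfl) fun i _ _ => by ring
  have h5 : ∑ y ∈ B, c.W (fun i => φ i ∧ y ∈ i.2) ≤ ∑ y ∈ B, c.olg hv Y σ₁ y y :=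
    sum_le_sum fun y _ => W_mono hc fun i _ h => by
      rw [hφ, hM] at h
      exact ⟨h.1.1.2, Or.inr ⟨h.1.1.1.1, h.2⟩, Or.inr ⟨h.1.1.1.1, h.2⟩⟩
  have h6 : ∑ x ∈ B, ∑ y ∈ B.erase x, c.W (fun i => (φ i ∧ c.ρ i < b) ∧ x ∈ ct i ∧ y ∈ ct i) ≤
      c.WS (fun i => c.ρ i < b)
        fun i => if ((B ∩ ct i).card : ℝ) ≤ 2 * σ * B.card then Pr (B ∩ ct i) else 0 := by
    rw [sum2_W' B fun i y => y ∈ ct i]
    refine WS_mono hc (fun i _ h => ⟨h.2, ?_⟩) fun i _ _ => ?_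
    · have e : ∀ inst : DecidablePred fun y => y ∈ ct i, @filter _ _ inst B = B ∩ ct i := by
        intro inst; ext y; simp
      have k : ((B ∩ ct i).card : ℝ) ≤ (B ∩ i.2).card := by
        exact_mod_cast card_le_card (inter_subset_inter_left (hct i))
      rw [e, if_pos (k.trans (hφ ▸ h.1).2), Pr]
    · split_ifs
      exacts [Pr_nonneg _, le_rfl]
  have h7 : ∑ x ∈ B, ∑ y ∈ B.erase x, c.W (fun i => φ i ∧ x ∈ i.2 ∧ y ∈ i.2) ≤
      ∑ x ∈ B, ∑ y ∈ B.erase x, (c.W (fun i => (φ i ∧ c.ρ i < b) ∧ x ∈ ct i ∧ y ∈ ct i) +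
        (c.W (fun i => ¬ hv i ∧ x ∈ i.2 ∧ b ≤ c.ρ i) +
          c.W fun i => x ∈ i.2 ∧ c.ρ i < b ∧ y ∈ i.2 ∧ (x ∉ ct i ∨ y ∉ ct i))) := by
    refine sum_le_sum fun x _ => sum_le_sum fun y _ => ?_
    rw [W_split fun i => c.ρ i < b ∧ x ∈ ct i ∧ y ∈ ct i]
    refine add_le_add (W_mono hc fun i _ h => by tauto) (W_le_add hc fun i _ h => ?_)
    have k : ¬ hv i := by
      have := h.1.1
      rw [hφ, hM] at this
      exact this.1.1.1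
    rcases lt_or_ge (c.ρ i) b with e | e <;> tauto
  have h8 : c.WS Md (fun i => (B.card : ℝ) ^ 2 * ((((Y ∩ i.2).card : ℝ) / Y.card) ^ 2 / 2 -
      (((B ∩ i.2).card : ℝ) / B.card - ((Y ∩ i.2).card : ℝ) / Y.card) ^ 2)) =
      (B.card : ℝ) ^ 2 * ((c.WS Md fun i => ((Y ∩ i.2).card : ℝ) ^ 2) / (2 * (Y.card : ℝ) ^ 2) -
        c.WS Md fun i => (((B ∩ i.2).card : ℝ) / B.card - ((Y ∩ i.2).card : ℝ) / Y.card) ^ 2) := by
    unfold WS
    rw [sum_div, ← sum_sub_distrib, mul_sum]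
    refine sum_congr rfl fun i _ => ?_
    split_ifs <;> ring
  refine le_trans (mul_le_mul_of_nonneg_left (sub_le_sub
    (div_le_div_of_nonneg_right h1 (by positivity)) h2) (sq_nonneg _)) (h8.ge.trans (h3.trans ?_))
  simp only [sum_add_distrib] at h7 ⊢
  linarith

end Pool.Agent.MP_6c3157_co.PQ
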