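import Pool.Agent.MP_6c3157_co.PQ.SpecE

/-! Project PQ, row OM: every pair has almost the same weight. -/

set_option autoImplicit false

namespace Pool.Agent.MP_6c3157_co.PQ

open Finset Pool.Agent.MP_6c3157_co.PD

namespace OmAux

variable {X : Type} [DecidableEq X] {c : Cells X}

/-- cells through a point above a radius -/
theorem high (hc : c.Good) {x z : X} {b : ℝ} (hb : 0 < b) (h : b ≤ c.d x z) :
    c.W (fun i => x ∈ i.2 ∧ b ≤ c.ρ i) ≤ c.K - Real.log b + 2 * c.eta + c.xi := by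
  have ne : x ≠ z := fun e => by rw [← e, hc.d_self] at h; linarith
  have t0 := hb.trans_le h
  have h1 := hc.c2 x b _ hb h
  have h2 := (abs_le.1 (hc.c4 x z ne)).2
  have h3 := hc.c5 x _ t0
  rw [Real.log_div t0.ne' hb.ne'] at h1
  have h4 := Cells.W_le_add (φ := fun i => x ∈ i.2 ∧ c.d x z ≤ c.ρ i)
    (ψ := fun i => x ∈ i.2 ∧ z ∈ i.2) (χ := fun i => c.d x z ≤ c.ρ i ∧
      (∃ a ∈ i.2, c.d x a ≤ c.d x z) ∧ ∃ b, b ∉ i.2 ∧ c.d x b ≤ c.d x z) hc fun i _ k => by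
    by_cases e : z ∈ i.2
    · exact .inl ⟨k.1, e⟩
    · exact .inr ⟨k.2, ⟨x, k.1, by rw [hc.d_self]; exact t0.le⟩, z, e, le_rfl⟩
  have h5 := Cells.W_le_add (φ := fun i => x ∈ i.2 ∧ b ≤ c.ρ i)
    (ψ := fun i => x ∈ i.2 ∧ b ≤ c.ρ i ∧ c.ρ i < c.d x z)
    (χ := fun i => x ∈ i.2 ∧ c.d x z ≤ c.ρ i) hc fun i _ k =>
      (lt_or_ge (c.ρ i) (c.d x z)).imp (fun e => ⟨k.1, k.2, e⟩) fun e => ⟨k.1, e⟩
  linarith

/-- the loss of the trimming -/
theorem low (hc : c.Good) {x y z : X} (ne : x ≠ y) {b r g g' : ℝ} (hb : 0 < b) (br : b ≤ r)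
    (h : b ≤ c.d x z) (g0 : 0 ≤ g) (g1 : 0 ≤ g') :
    Real.log b - Real.log (c.d x y) - 4 * c.eta - c.xi - 2 * g - 2 * g' ≤
      c.W fun i => c.ρ i < b ∧ (x ∈ i.2 ∧ 2 * g ≤ Real.log (r / c.ρ i)) ∧
        (y ∈ i.2 ∧ 2 * g' ≤ Real.log (r / c.ρ i)) := by
  have r0 := hb.trans_le br
  have h1 := (abs_le.1 (hc.c4 x y ne)).1
  have h2 := high hc hb h
  have h3 := hc.c2 x (r * Real.exp (-(2 * g + 2 * g'))) r (by positivity)
    (mul_le_of_le_one_right r0.le (Real.exp_le_one_iff.2 (by linarith)))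
  rw [div_mul_cancel_left₀ r0.ne', Real.log_inv, Real.log_exp] at h3
  have h4 := Cells.W_le_add (φ := fun i => x ∈ i.2 ∧ y ∈ i.2)
    (ψ := fun i => x ∈ i.2 ∧ b ≤ c.ρ i) (χ := fun i => x ∈ i.2 ∧ y ∈ i.2 ∧ c.ρ i < b) hc
    fun i _ k => (le_or_gt b (c.ρ i)).imp (fun e => ⟨k.1, e⟩) fun e => ⟨k.1, k.2, e⟩
  have h5 := Cells.W_le_add (φ := fun i => x ∈ i.2 ∧ y ∈ i.2 ∧ c.ρ i < b)
    (ψ := fun i => c.ρ i < b ∧ (x ∈ i.2 ∧ 2 * g ≤ Real.log (r / c.ρ i)) ∧
      (y ∈ i.2 ∧ 2 * g' ≤ Real.log (r / c.ρ i)))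
    (χ := fun i => x ∈ i.2 ∧ r * Real.exp (-(2 * g + 2 * g')) ≤ c.ρ i ∧ c.ρ i < r) hc
    fun i hi k => by
      by_cases e : 2 * g + 2 * g' ≤ Real.log (r / c.ρ i)
      · exact .inl ⟨k.2.2, ⟨k.1, by linarith⟩, k.2.1, by linarith⟩
      · refine .inr ⟨k.1, ?_, k.2.2.trans_le br⟩
        have p := hc.rho_pos i hi
        have q := (Real.log_le_iff_le_exp (div_pos r0 p)).1 (not_le.1 e).le
        rw [Real.exp_neg, ← div_eq_mul_inv, div_le_iff₀ (Real.exp_pos _), mul_comm]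
        exact (div_le_iff₀ p).1 q
  linarith

end OmAux

theorem om (hD : DEP) : OM := by
  intro X PL _ _ s hv Z R L G W ε Λ ns T hs hc x hx y hy ne
  obtain ⟨d1, -, d3, -⟩ := hD X PL s Z R G W ε hs hc.cen x hx y hy ne
  have e1 := hs.eta_sum
  have e2 := hs.xi_sum
  have e3 := hc.cen.eW
  have e4 := ep_le_one
  have bl : ∀ p, (s.c p).lam * bet s R L p ≤ R p := fun p => by
    rw [bet, mul_div_cancel₀ _ (hs.good p).lam_pos.ne']
    exact mul_le_of_le_one_right (hc.cen.R_pos p).le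
      (Real.exp_le_one_iff.2 (by linarith [hc.L_lo p]))
  have b0 : ∀ p, 0 < bet s R L p := fun p =>
    div_pos (mul_pos (hc.cen.R_pos p) (Real.exp_pos _)) (hs.good p).lam_pos
  constructor
  · have k : ∀ p, dep s R p x y - L p - 4 * (s.c p).eta - 2 * (s.c p).xi -
        2 * G (s.bar p) x - 2 * G (s.bar p) y ≤ (s.c p).W fun i =>
          (s.c p).ρ i < bet s R L p ∧ x ∈ cut s R G p i ∧ y ∈ cut s R G p i := fun p => by
      obtain ⟨z, hz⟩ := hc.far p x hx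
      have r0 := hc.cen.R_pos p
      have t := OmAux.low (hs.good p) ne (b0 p) (r := R p)
        ((le_mul_of_one_le_left (b0 p).le (hs.good p).lam_lo).trans (bl p)) hz
        (hc.cen.G_lo (s.bar p) x) (hc.cen.G_lo (s.bar p) y)
      have l := (hs.good p).log_lam
      have e : Real.log (bet s R L p) = Real.log (R p) - L p - Real.log (s.c p).lam := by
        rw [bet, Real.log_div (by positivity) (hs.good p).lam_pos.ne',
          Real.log_mul r0.ne' (Real.exp_pos _).ne', Real.log_exp, sub_eq_add_neg (Real.log (R p))]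
      simp only [mem_cut]
      rw [dep, Real.log_div r0.ne' ((hs.good p).d_pos ne).ne']
      linarith
    refine le_trans ?_ (hs.sum_le k)
    have g1 := hc.cen.G_sum x hx
    have g2 := hc.cen.G_sum y hy
    rw [← hs.sum_bar fun p => G p x] at g1
    rw [← hs.sum_bar fun p => G p y] at g2
    simp only [mul_sub, sum_sub_distrib, mul_left_comm _ (4 : ℝ), mul_left_comm _ (2 : ℝ),
      ← mul_sum]
    linarith [hc.L_sum]
  · have k : ∀ p, ((s.c p).W fun i =>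
        (s.c p).ρ i < bet s R L p ∧ x ∈ cut s R G p i ∧ y ∈ cut s R G p i) ≤
          max 0 (dep s R p x y) + (s.c p).eta := fun p => by
      have d0 := (hs.good p).d_pos ne
      refine le_trans (Cells.W_mono (hs.good p) fun i _ k =>
        ⟨(mem_cut.1 k.2.1).1, (mem_cut.1 k.2.2).1, k.1⟩)
        (((hs.good p).pair_below ne (bet s R L p)).trans ?_)
      refine add_le_add (max_le_max le_rfl (Real.log_le_log
        (div_pos (mul_pos (hs.good p).lam_pos (b0 p)) d0) ?_)) le_rfl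
      exact div_le_div_of_nonneg_right (bl p) d0.le
    refine (hs.sum_le k).trans ?_
    simp only [mul_add, sum_add_distrib]
    linarith

end Pool.Agent.MP_6c3157_co.PQ
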