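import Pool.Agent.MP_6c3157_co.PD.Fib
import Pool.Agent.MP_6c3157_co.PQ.Dep
import Pool.Agent.MP_6c3157_co.PQ.Om
import Pool.Agent.MP_6c3157_co.PQ.Clu
import Pool.Agent.MP_6c3157_co.PQ.Fun
import Pool.Agent.MP_6c3157_co.PQ.Llf
import Pool.Agent.MP_6c3157_co.PQ.Llh
import Pool.Agent.MP_6c3157_co.PQ.Medp
import Pool.Agent.MP_6c3157_co.PQ.Med
import Pool.Agent.MP_6c3157_co.PQ.Jump
import Pool.Agent.MP_6c3157_co.PQ.Col

/-! Project PQ: assembly of part E. -/

set_option autoImplicit false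

namespace Pool.Agent.MP_6c3157_co.PQ

theorem all_jump : JUMP :=
  jump (fn PD.fibs) (llf (om depS) (clu depS)) (llh (om depS)) (med medp)

theorem all_jump2 : JUMP2 := jump2 all_jump

end Pool.Agent.MP_6c3157_co.PQ
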