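import Pool.Agent.MP_6c3157_co.PQ.SpecF

/-! Project PQ, row IND: the induction. -/

set_option autoImplicit false

namespace Pool.Agent.MP_6c3157_co.PQ

open Finset Pool.Agent.MP_6c3157_co.PD

theorem ind (hP : PHI) (hM : PHM) (hS : SET) (hT : STEP) : IND := by
  obtain ⟨M, θ, hM2, θ0, θ1, hT⟩ := hT
  obtain ⟨a, b, N, a0, b0, N0, hS⟩ := hS M θ hM2 θ0 θ1
  have c1 : 1 ≤ Real.exp N := Real.one_le_exp N0
  refine ⟨a, b, Real.exp N, a0, b0, c1, fun X PL K _ _ _ s A η κ n hA η0 ηn n1 hκ Q => ?_⟩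
  have l0 := Real.log_nonneg n1
  have p1 : 1 ≤ (1 + Real.log n) ^ b := Real.one_le_rpow (by linarith) b0
  have k1 : Real.exp N ≤ κ := by nlinarith
  have k2 : (1 + Real.log n) ^ b ≤ κ := by nlinarith
  have k3 : 1 ≤ κ := c1.trans k1
  induction h : Q.card using Nat.strong_induction_on generalizing Q with
  | _ m ih =>
    subst h
    intro hQ
    rcases Q.eq_empty_or_nonempty with rfl | hne
    · simp [Pr, Phi]
    have q1 : (1 : ℝ) ≤ Q.card := Nat.one_le_cast.2 hne.card_pos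
    by_cases hq : (Q.card : ℝ) ≤ κ ^ 2
    · rw [(hP X s.lab κ Q k3).2.2.1 hq]
      exact mul_le_of_le_one_left (mul_nonneg (by linarith) (by linarith))
        (hM.1 a _ _ a0 q1 le_rfl).2.2
    by_contra hb
    have bad : Bad s.lab κ a Q :=
      ⟨fun S hS => ih _ hS S rfl ((Nat.cast_le.2 hS.le).trans hQ), not_le.1 hb⟩
    have l1 : N ≤ Real.log Q.card := (Real.le_log_iff_exp_le (by linarith)).2 (by nlinarith)
    have l2 : (1 + Real.log Q.card) ^ b ≤ κ := (Real.rpow_le_rpow (by linarith)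
      (by linarith [Real.log_le_log (by linarith) hQ]) b0).trans k2
    obtain ⟨q, σ₁, u, σ₃, n₀, γ, j, Y, h, T, hp, hs⟩ := hS X PL s κ Q hA.good l1 hne l2 bad
    exact hT X PL K s A η κ a Q Y h T q σ₁ u σ₃ n₀ γ j hA
      ((mul_le_mul_of_nonneg_left hQ η0).trans ηn) hp hs bad

end Pool.Agent.MP_6c3157_co.PQ
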