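import Pool.Agent.MP_6c3157_co.PQ.SpecF

/-! Project PQ: from the induction to the plane. -/

set_option autoImplicit false

noncomputable section

namespace Pool.Agent.MP_6c3157_co.PQ

open Finset Pool.Agent.MP_6c3157_co.PD

namespace Main

theorem num {a b c n P Z : ℝ} (ha : 0 ≤ a) (hb : 0 ≤ b) (hc : 1 ≤ c) (hn : 2 ≤ n)
    (h1 : (1 + Real.log n) ^ (-a) * (n * (n - 1)) ≤ P)
    (h2 : P ^ 2 ≤ (c * (1 + Real.log n) ^ b) ^ 2 * Z * n ^ 2) :
    1 / (4 * c ^ 2 * 3 ^ (2 * a + 2 * b)) * n ^ 2 / Real.log n ^ (2 * a + 2 * b) ≤ Z := by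
  have l2 : 1 / 2 < Real.log n :=
    lt_of_lt_of_le (by have := Real.log_two_gt_d9; linarith) (Real.log_le_log (by norm_num) hn)
  have l0 : 0 < Real.log n := by linarith
  have t0 : 0 < 1 + Real.log n := by linarith
  obtain ⟨u, u0, hu⟩ : ∃ u : ℝ, 0 < u ∧ u = (1 + Real.log n) ^ a := ⟨_, by positivity, rfl⟩
  obtain ⟨v, v0, hv⟩ : ∃ v : ℝ, 0 < v ∧ v = (1 + Real.log n) ^ b := ⟨_, by positivity, rfl⟩
  have e : (u * v) ^ 2 ≤ 3 ^ (2 * a + 2 * b) * Real.log n ^ (2 * a + 2 * b) := by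
    rw [← Real.mul_rpow (by norm_num) l0.le, hu, hv, ← Real.rpow_add t0, ← Real.rpow_natCast,
      ← Real.rpow_mul t0.le, show (a + b) * ((2 : ℕ) : ℝ) = 2 * a + 2 * b by push_cast; ring]
    exact Real.rpow_le_rpow t0.le (by linarith) (by linarith)
  rw [Real.rpow_neg t0.le, ← hu] at h1
  rw [← hv] at h2
  have n0 : 0 < n := by linarith
  have h3 : n ^ 2 / (2 * u) ≤ P := by
    refine le_trans ?_ h1
    rw [div_le_iff₀ (by positivity)]
    have : u⁻¹ * (n * (n - 1)) * (2 * u) = 2 * (n * (n - 1)) := by field_simp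
    rw [this]
    nlinarith
  have h4 : (n ^ 2 / (2 * u)) ^ 2 ≤ (c * v) ^ 2 * Z * n ^ 2 :=
    (pow_le_pow_left₀ (by positivity) h3 2).trans h2
  have h5 : n ^ 2 ≤ 4 * c ^ 2 * (u * v) ^ 2 * Z := by
    rw [div_pow, div_le_iff₀ (by positivity)] at h4
    refine le_of_mul_le_mul_right ?_ (pow_pos n0 2)
    calc n ^ 2 * n ^ 2 = (n ^ 2) ^ 2 := by ring
      _ ≤ _ := h4
      _ = _ := by ring
  have c0 : 0 < c := by linarith
  have z0 : 0 ≤ Z := by
    by_contra k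
    have : 4 * c ^ 2 * (u * v) ^ 2 * Z < 0 := mul_neg_of_pos_of_neg (by positivity) (not_le.1 k)
    nlinarith [pow_pos n0 2]
  rw [div_le_iff₀ (by positivity), one_div, inv_mul_le_iff₀ (by positivity)]
  calc n ^ 2 ≤ 4 * c ^ 2 * (u * v) ^ 2 * Z := h5
    _ ≤ 4 * c ^ 2 * (3 ^ (2 * a + 2 * b) * Real.log n ^ (2 * a + 2 * b)) * Z := by gcongr
    _ = _ := by ring

end Main

theorem mainq (hN : NF) (hS : SYS2) (hP : PHI) (hI : PQ.IND) : PQ.MAIN := by
  classical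
  obtain ⟨a, b, c, ha, hb, hc, H⟩ := hI
  refine ⟨1 / (4 * c ^ 2 * 3 ^ (2 * a + 2 * b)), 2 * a + 2 * b, by positivity, fun A hA => ?_⟩
  have hn : (2 : ℝ) ≤ A.card := mod_cast hA
  have n0 : (0 : ℝ) < A.card := by linarith
  obtain ⟨K, _, _, U, V, hU, hV, hD⟩ := hN A (fun x => x.1) Subtype.val_injective
  obtain ⟨PL, _, s, B, hs, hl⟩ :=
    hS A K U V (fun x y => dist x.1 y.1) (1 / A.card) (by positivity) hU hV hD
  have k1 : 1 ≤ c * (1 + Real.log A.card) ^ b :=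
    one_le_mul_of_one_le_of_one_le hc
      (Real.one_le_rpow (by have := Real.log_nonneg (by linarith : (1 : ℝ) ≤ A.card); linarith) hb)
  have h := H A PL K s B (1 / A.card) _ A.card hs (by positivity) (by rw [one_div_mul_cancel n0.ne'])
    (by linarith) le_rfl univ (by simp)
  have h' := (hP A s.lab _ univ k1).2.2.2.1
  unfold ph Pr at h
  simp only [card_univ, Fintype.card_coe] at h h'
  refine (Main.num ha hb hc hn h h').trans (le_of_eq ?_)
  rw [hl]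
  unfold Zs
  push_cast
  rw [← sum_coe_sort A]
  refine sum_congr rfl fun x _ => ?_
  congr 2
  ext t
  simp only [mem_image, mem_erase, mem_univ, and_true]
  constructor
  · rintro ⟨y, hy, rfl⟩
    exact ⟨dist_ne_zero.2 fun e => hy (Subtype.ext e.symm), y.1, y.2, rfl⟩
  · rintro ⟨ht, y, hy, rfl⟩
    exact ⟨⟨y, hy⟩, fun e => ht (by rw [← e]; exact dist_self _), rfl⟩

end Pool.Agent.MP_6c3157_co.PQ
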