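import Pool.Agent.MP_6c3157_co.PQ.SpecF

/-! Project PQ: sizes of the scale and the jump numbers. -/

set_option autoImplicit false

noncomputable section

namespace Pool.Agent.MP_6c3157_co.PQ

open Real

namespace NumB

/-- a power of `1 + N` against the exponential of the root -/
theorem pow_le (m : ℕ) : ∃ N₀ : ℝ, ∀ N, N₀ ≤ N → (1 + N) ^ m ≤ exp (sqrt N) := by
  refine ⟨(2 ^ m * (2 * m + 1).factorial) ^ 2 + 1, fun N hN => ?_⟩
  have h0 : (0 : ℝ) ≤ 2 ^ m * (2 * m + 1).factorial := by positivity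
  have h1 : (1 : ℝ) ≤ N := le_trans (by nlinarith [sq_nonneg ((2 : ℝ) ^ m * (2 * m + 1).factorial)]) hN
  have h2 : (2 : ℝ) ^ m * (2 * m + 1).factorial ≤ sqrt N := le_sqrt_of_sq_le (by linarith)
  have h3 := pow_div_factorial_le_exp (sqrt N) (sqrt_nonneg N) (2 * m + 1)
  have h4 : sqrt N ^ (2 * m + 1) = N ^ m * sqrt N := by
    rw [pow_succ, pow_mul, sq_sqrt (by linarith)]
  have h5 : (0 : ℝ) < (2 * m + 1).factorial := by positivity
  refine le_trans ?_ h3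
  rw [le_div_iff₀ h5, h4]
  calc (1 + N) ^ m * (2 * m + 1).factorial ≤ (2 * N) ^ m * (2 * m + 1).factorial := by
        gcongr; linarith
    _ = N ^ m * (2 ^ m * (2 * m + 1).factorial) := by rw [mul_pow]; ring
    _ ≤ N ^ m * sqrt N := by gcongr

theorem log_ceil {t : ℝ} (ht : 0 ≤ t) :
    t ≤ log (⌈exp t⌉₊ : ℝ) ∧ log (⌈exp t⌉₊ : ℝ) ≤ t + 1 := by
  have h1 := Nat.le_ceil (exp t)
  have h2 := (Nat.ceil_lt_add_one (exp_pos t).le).le
  have h3 := one_le_exp ht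
  have h4 := add_one_le_exp (1 : ℝ)
  constructor
  · exact (le_log_iff_exp_le ((exp_pos t).trans_le h1)).2 h1
  · refine (log_le_iff_le_exp ((exp_pos t).trans_le h1)).2 (h2.trans ?_)
    rw [exp_add]; nlinarith

/-- the exponent halves the share -/
theorem half {N l q σ : ℝ} (hq : 0 < q) (hl : log q = l) (h1 : 100 ≤ l) (h2 : 400 * l ≤ N)
    (h : l ^ 2 ≤ 2 * N ∧ σ = 1 / 100 ∨ σ = 1 / (q - 1)) :
    σ ≤ 1 / 100 ∧ 1 / q ≤ σ ∧ ∀ t : ℝ, 0 ≤ t → t ≤ 4 * σ → t ^ (N / l ^ 2) ≤ 1 / 2 := by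
  have hl0 : 0 < l := by linarith
  have hq1 : l + 1 ≤ q := by rw [← exp_log hq, hl]; exact add_one_le_exp l
  have hg : 0 ≤ N / l ^ 2 := div_nonneg (by linarith) (sq_nonneg l)
  have key : ∀ w : ℝ, 4 * σ ≤ exp (-w) → 1 ≤ w * (N / l ^ 2) →
      ∀ t : ℝ, 0 ≤ t → t ≤ 4 * σ → t ^ (N / l ^ 2) ≤ 1 / 2 := by
    intro w hw hw1 t ht0 ht
    refine (rpow_le_rpow ht0 (ht.trans hw) hg).trans ?_
    rw [← exp_mul]
    refine (exp_le_exp.2 (show -w * (N / l ^ 2) ≤ -1 by linarith)).trans ?_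
    rw [exp_neg, ← one_div]
    exact one_div_le_one_div_of_le (by norm_num) (by linarith [add_one_le_exp (1 : ℝ)])
  rcases h with ⟨h3, rfl⟩ | rfl
  · refine ⟨le_rfl, one_div_le_one_div_of_le (by norm_num) (by linarith), key 2 ?_ ?_⟩
    · have h4 : exp 2 ≤ 25 := by
        have := exp_one_lt_d9
        rw [show (2 : ℝ) = 1 + 1 by norm_num, exp_add]
        nlinarith [exp_pos 1]
      rw [exp_neg, ← one_div, le_div_iff₀ (exp_pos 2)]
      linarith
    · rw [← mul_div_assoc, le_div_iff₀ (by positivity)]; linarith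
  · refine ⟨one_div_le_one_div_of_le (by norm_num) (by linarith),
      one_div_le_one_div_of_le (by linarith) (by linarith), key (l / 2) ?_ ?_⟩
    · have h4 : q = exp (l / 2) * exp (l / 2) := by
        rw [← exp_add, add_halves, ← hl, exp_log hq]
      have h5 := add_one_le_exp (l / 2)
      rw [exp_neg, ← one_div, mul_one_div, div_le_div_iff₀ (by linarith) (exp_pos _)]
      nlinarith
    · rw [show l / 2 * (N / l ^ 2) = N / (2 * l) by field_simp, le_div_iff₀ (by positivity)]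
      linarith

/-- the number of rounds -/
theorem rounds {θ L : ℝ} (h0 : 0 < θ) (h1 : θ ≤ 1) (hL : 400 ≤ L) :
    ∃ j : ℕ, (1 - θ / 10 ^ 4) ^ j * exp (L ^ 2 / 10) ≤ 1 / 1000 ∧
      θ / (10 ^ 8 * L ^ 2) * j ≤ 1 / 10 ^ 4 := by
  have hL2 : 160000 ≤ L ^ 2 := by nlinarith
  have hp : 0 ≤ 2000 * L ^ 2 / θ := by positivity
  have a1 := Nat.le_ceil (2000 * L ^ 2 / θ)
  have a2 := (Nat.ceil_lt_add_one hp).le
  refine ⟨⌈2000 * L ^ 2 / θ⌉₊, ?_, ?_⟩
  · generalize ⌈2000 * L ^ 2 / θ⌉₊ = j at a1 a2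
    rw [div_le_iff₀ h0] at a1
    have b1 : (1 - θ / 10 ^ 4) ^ j ≤ exp (-(θ / 10 ^ 4)) ^ j :=
      pow_le_pow_left₀ (by linarith) (by linarith [add_one_le_exp (-(θ / 10 ^ 4))]) j
    rw [← exp_nat_mul] at b1
    have b2 : exp (j * -(θ / 10 ^ 4)) * exp (L ^ 2 / 10) ≤ exp (-1000) := by
      rw [← exp_add]; exact exp_le_exp.2 (by linarith)
    refine (mul_le_mul_of_nonneg_right b1 (exp_pos _).le).trans (b2.trans ?_)
    rw [exp_neg, ← one_div]
    exact one_div_le_one_div_of_le (by norm_num) (by linarith [add_one_le_exp (1000 : ℝ)])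
  · generalize ⌈2000 * L ^ 2 / θ⌉₊ = j at a1 a2
    have b1 : θ * j ≤ θ * (2000 * L ^ 2 / θ + 1) := mul_le_mul_of_nonneg_left a2 h0.le
    rw [mul_add, mul_div_cancel₀ _ h0.ne'] at b1
    rw [div_mul_eq_mul_div, div_le_iff₀ (by positivity)]
    linarith

end NumB

end Pool.Agent.MP_6c3157_co.PQ
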