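import Pool.Agent.MP_6c3157_co.PQ.NumA
import Pool.Agent.MP_6c3157_co.PQ.NumB

/-! Project PQ: the numbers of a step exist. -/

set_option autoImplicit false

noncomputable section

namespace Pool.Agent.MP_6c3157_co.PQ

open Real

theorem num : NUM := by
  intro M θ h0 h1
  obtain ⟨k₀, hk₀⟩ := exists_pow_lt_of_lt_one
    (show (0 : ℝ) < (θ / 10 ^ 8) ^ (M + 1) / 10 ^ 8 by positivity)
    (show (1599 / 1600 : ℝ) < 1 by norm_num)
  have hk : 10 ^ 8 * (1599 / 1600 : ℝ) ^ (k₀ + 2 * M) ≤ (θ / 10 ^ 8) ^ (M + 1) := by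
    have := pow_le_pow_of_le_one (show (0 : ℝ) ≤ 1599 / 1600 by norm_num) (by norm_num)
      (show k₀ ≤ k₀ + 2 * M by omega)
    rw [lt_div_iff₀ (by norm_num)] at hk₀
    linarith
  have hkM : 2 * M ≤ k₀ + 2 * M := by omega
  generalize k₀ + 2 * M = k at hk hkM
  obtain ⟨N₁, hN₁⟩ := NumB.pow_le (2 * (10 * M + k))
  obtain ⟨a, ha⟩ : ∃ a : ℝ, a = ((10 * M + k : ℕ) : ℝ) := ⟨_, rfl⟩
  have ha0 : 0 ≤ a := by rw [ha]; positivity
  refine ⟨a, 2 * a, max N₁ (10 ^ 8 / θ), ha0, by linarith, le_max_of_le_right (by positivity),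
    fun n κ hn hN hκ => ?_⟩
  obtain ⟨N, hNe⟩ : ∃ N, N = log n := ⟨_, rfl⟩
  rw [← hNe] at hN hκ
  have hn' : n = exp N := by rw [hNe, exp_log hn]
  have n1 : 10 ^ 8 / θ ≤ N := (le_max_right _ _).trans hN
  have n2 : (10 : ℝ) ^ 8 ≤ N := le_trans (by rw [le_div_iff₀ h0]; nlinarith) n1
  have n3 := hN₁ N ((le_max_left _ _).trans hN)
  have r0 : sqrt N ^ 2 = N := sq_sqrt (by linarith)
  have r1 : 10 ^ 4 ≤ sqrt N := le_sqrt_of_sq_le (by linarith)
  have r2 : sqrt N ≤ N / 800 := by nlinarith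
  have c0 := NumB.log_ceil (sqrt_nonneg N)
  have c1 := NumB.log_ceil (show 0 ≤ N / 800 by linarith)
  have p0 : (0 : ℝ) < ⌈exp (sqrt N)⌉₊ := (exp_pos _).trans_le (Nat.le_ceil _)
  have p1 : (0 : ℝ) < ⌈exp (N / 800)⌉₊ := (exp_pos _).trans_le (Nat.le_ceil _)
  have e0 : ph a n = (1 + N) ^ (-a) := by rw [ph, hNe]
  have e1 : 0 < ph a n := by rw [e0]; exact rpow_pos_of_pos (by linarith) _
  have e2 : ph a n ^ 2 * (1 + N) ^ (2 * a) = 1 := by
    rw [e0, sq, ← rpow_add (by linarith), ← rpow_add (by linarith)]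
    rw [show -a + -a + 2 * a = 0 by ring, rpow_zero]
  have t1 : ∀ i ≤ M + 1, θ ^ (M + 1) ≤ θ ^ i := fun i hi => pow_le_pow_of_le_one h0.le h1 hi
  have A1 : ∀ i ≤ M + 1, ∀ v : ℝ, 0 ≤ log v → log v ≤ (1 - 1 / 800) * N →
      10 ^ 8 * ph a n ≤ θ ^ i * ph a v := fun i hi v v1 v2 => by
    have := (numA M θ a N (sqrt N) _ k h0 h1 ha hk hkM n1 (by linarith) (by linarith) r0.ge
      rfl).1 _ v1 v2
    rw [e0]
    exact this.trans (mul_le_mul_of_nonneg_right (t1 i hi) (rpow_nonneg (by linarith) _))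
  refine ⟨⌈exp (sqrt N)⌉₊, ⌈exp (N / 800)⌉₊, Nat.ceil_mono (exp_le_exp.2 r2), ?_, ?_⟩
  · have := A1 1 (by omega) (n / ⌈exp (N / 800)⌉₊)
    rw [log_div hn.ne' p1.ne', ← hNe, pow_one] at this
    exact this (by linarith [c1.2]) (by linarith [c1.1])
  intro q σ₁ hq0 hq1 hσ
  have q0 : (⌈exp (sqrt N)⌉₊ : ℝ) ≤ q := by exact_mod_cast hq0
  have q1 : (q : ℝ) ≤ ⌈exp (N / 800)⌉₊ := by exact_mod_cast hq1
  have qp : (0 : ℝ) < q := p0.trans_le q0
  obtain ⟨l, hl⟩ : ∃ l, log (q : ℝ) = l := ⟨_, rfl⟩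
  have l0 : sqrt N ≤ l := hl ▸ c0.1.trans (log_le_log p0 q0)
  have l1 : 400 * l ≤ N := by
    have : l ≤ N / 800 + 1 := hl ▸ (log_le_log qp q1).trans c1.2
    linarith
  have l2 : N ≤ l ^ 2 := r0 ▸ pow_le_pow_left₀ (sqrt_nonneg N) l0 2
  have lp : 0 < l := by linarith
  have qe : ∀ i : ℕ, (q : ℝ) ^ i = exp (i * l) := fun i => by
    rw [exp_nat_mul, ← hl, exp_log qp]
  have hL : 400 ≤ N / l := by rw [le_div_iff₀ lp]; exact l1
  obtain ⟨s1, s2, s3⟩ := NumB.half (N := N) (σ := σ₁) qp hl (by linarith) l1 (by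
    rcases hσ with ⟨e, e'⟩ | ⟨_, e'⟩
    · refine Or.inl ⟨?_, e'⟩
      have : l ≤ sqrt N + 1 := by rw [← hl, e]; exact c0.2
      nlinarith
    · exact Or.inr e')
  obtain ⟨j, j1, j2⟩ := NumB.rounds h0 h1 hL
  obtain ⟨_, A2, A3⟩ := numA M θ a N l _ k h0 h1 ha hk hkM n1 (by linarith) l1 l2 rfl
  refine ⟨θ / (10 ^ 8 * (N / l) ^ 2), exp (-(N / 2)), exp (9 / 10 * N), N / l ^ 2, j, ha0,
    by positivity, ?_, ?_, ?_, e1, e0 ▸ A2, ?_, ?_, ?_, exp_pos _, ?_, ?_, ?_, ?_, s1,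
    by positivity, s3, ?_, j2, ?_⟩
  · exact div_le_self h0.le (by nlinarith)
  · rw [qe, hn']; exact exp_le_exp.2 (by push_cast; linarith)
  · have : (1 + N) ^ (2 * a) ≤ q := by
      rw [ha, show (2 : ℝ) * ((10 * M + k : ℕ) : ℝ) = ((2 * (10 * M + k) : ℕ) : ℝ) by
        push_cast; ring, rpow_natCast]
      exact n3.trans ((Nat.le_ceil _).trans q0)
    rw [← e2, mul_comm]
    exact mul_le_mul_of_nonneg_right this (sq_nonneg _)
  · rw [← e2, mul_comm]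
    exact mul_le_mul_of_nonneg_right hκ (sq_nonneg _)
  · have := A1 M (by omega) (exp (-(N / 2)) * n)
    rw [log_mul (exp_pos _).ne' hn.ne', log_exp, ← hNe] at this
    exact this (by linarith) (by linarith)
  · rw [e0, ph, log_pow, hl]
    exact_mod_cast A3
  · refine le_trans ?_ s2
    rw [← pow_one (q : ℝ), qe, one_div, ← exp_neg]
    exact exp_le_exp.2 (by push_cast; linarith)
  · rw [qe, ← exp_add]; exact exp_le_one_iff.2 (by push_cast; linarith)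
  · rw [qe, ← exp_add]; exact exp_le_exp.2 (by push_cast; linarith)
  · rw [qe, ← exp_add, hn']; exact exp_le_exp.2 (by push_cast; linarith)
  · rw [hn', ← exp_sub, ← exp_mul,
      show (N - 9 / 10 * N) * (N / l ^ 2) = (N / l) ^ 2 / 10 by field_simp; ring]
    exact j1
  · have := A1 0 (by omega) (exp (9 / 10 * N))
    rw [log_exp, pow_zero, one_mul] at this
    linarith [this (by linarith) (by linarith)]

end Pool.Agent.MP_6c3157_co.PQ
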