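import Pool.Agent.MP_6c3157_co.PQ.SpecA

/-! Project PQ, row PART: five shifted partitions at a finite and at a complex place. -/

set_option autoImplicit false

namespace Pool.Agent.MP_6c3157_co.PQ

open Finset Pool.Agent.MP_6c3157_co.PD

namespace PartAux

theorem near {a b r : ℝ} (hr : 0 < r) {j : ℤ} (h : (⌊a / r⌋ - j) / 5 = (⌊b / r⌋ - j) / 5) :
    (a - b) ^ 2 ≤ (5 * r) ^ 2 := by
  have key : ∀ {a b : ℝ}, ⌊a / r⌋ ≤ ⌊b / r⌋ + 4 → a - b ≤ 5 * r := fun {a b} k => by
    have k1 : (⌊a / r⌋ : ℝ) ≤ ⌊b / r⌋ + 4 := by exact_mod_cast k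
    have k2 := Int.lt_floor_add_one (a / r)
    have k3 := Int.floor_le (b / r)
    have k4 : (a - b) / r ≤ 5 := by rw [sub_div]; linarith
    exact (div_le_iff₀ hr).1 k4
  have h1 := key (a := a) (b := b) (by omega)
  have h2 := key (a := b) (b := a) (by omega)
  exact sq_le_sq' (by linarith) h1

theorem one {a b r : ℝ} (hr : 0 < r) (h : |a - b| ≤ r) :
    ((univ : Finset (Fin 5)).filter fun j : Fin 5 =>
      (⌊a / r⌋ - (j : ℕ)) / 5 ≠ (⌊b / r⌋ - (j : ℕ)) / 5).card ≤ 1 := by
  have key : ∀ {a b : ℝ}, a - b ≤ r → ⌊a / r⌋ ≤ ⌊b / r⌋ + 1 := fun {a b} k => by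
    rw [← Int.floor_add_one]
    refine Int.floor_mono ?_
    have : (a - b) / r ≤ 1 := (div_le_one hr).2 k
    rw [sub_div] at this
    linarith
  have h1 := key (abs_le.1 h).2
  have h2 := key (a := b) (b := a) (by linarith [(abs_le.1 h).1])
  refine card_le_one.2 fun i hi j hj => Fin.ext ?_
  have := (mem_filter.1 hi).2
  have := (mem_filter.1 hj).2
  have := i.2
  have := j.2
  omega

end PartAux

theorem part : PART := by
  classical
  refine ⟨fun X _ _ d h0 hs hu r hr => ?_, fun X _ e r hr => ?_⟩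
  · refine ⟨fun _ x => Fintype.equivFin (Finset X) (univ.filter fun z => d x z ≤ r),
      fun _ x y h => ?_, fun x y h => ?_⟩
    · have k := (Fintype.equivFin (Finset X)).injective (Fin.ext h)
      have m : y ∈ univ.filter fun z => d y z ≤ r := by simp [h0, hr.le]
      rw [← k] at m
      simpa using m
    · have k : (univ.filter fun z => d x z ≤ r) = univ.filter fun z => d y z ≤ r :=
        filter_congr fun z _ => ⟨fun t => (hu y x z).trans (max_le (hs x y ▸ h) t),
          fun t => (hu x y z).trans (max_le h t)⟩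
      simp [k]
  · refine ⟨fun j x => Encodable.encode
      ((⌊(e x).re / r⌋ - (j : ℕ)) / 5, (⌊(e x).im / r⌋ - (j : ℕ)) / 5),
      fun j x y h => ?_, fun x y h => ?_⟩
    · have k := Prod.ext_iff.1 (Encodable.encode_injective h)
      have k1 := PartAux.near hr k.1
      have k2 := PartAux.near hr k.2
      refine le_of_sq_le_sq ?_ (by positivity)
      rw [Complex.sq_norm, Complex.normSq_apply, Complex.sub_re, Complex.sub_im]
      nlinarith [sq_nonneg r]
    · have k1 := PartAux.one hr ((Complex.abs_re_le_norm (e x - e y)).trans h)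
      have k2 := PartAux.one hr ((Complex.abs_im_le_norm (e x - e y)).trans h)
      refine le_trans (card_le_card fun j hj => ?_) ((card_union_le _ _).trans (add_le_add k1 k2))
      have t := (mem_filter.1 hj).2
      rw [mem_union, mem_filter, mem_filter]
      by_contra c
      push Not at c
      exact t (congrArg Encodable.encode (Prod.ext (c.1 (mem_univ _)) (c.2 (mem_univ _))))

end Pool.Agent.MP_6c3157_co.PQ
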