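import Pool.Agent.MP_6c3157_co.PQ.SpecF
import Pool.Agent.MP_6c3157_co.PD.Fib

/-! Project PQ, row PHI: elementary facts on the potential. -/

set_option autoImplicit false
set_option linter.unusedSectionVars false

noncomputable section

namespace Pool.Agent.MP_6c3157_co.PQ

open Finset Pool.Agent.MP_6c3157_co.PD

namespace PhiAux

variable {X : Type} [DecidableEq X] {κ : ℝ}

theorem gf_nonneg (h : 0 ≤ κ) (k : ℕ) : 0 ≤ gf κ k :=
  le_min (Nat.cast_nonneg _) (mul_nonneg h (Real.sqrt_nonneg _))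

theorem gf_mono (h : 0 ≤ κ) {k k' : ℕ} (hk : k ≤ k') : gf κ k ≤ gf κ k' :=
  min_le_min (Nat.cast_le.2 hk)
    (mul_le_mul_of_nonneg_left (Real.sqrt_le_sqrt (Nat.cast_le.2 hk)) h)

theorem gf_one (h : 1 ≤ κ) {k : ℕ} (hk : 1 ≤ k) : 1 ≤ gf κ k :=
  le_min (Nat.one_le_cast.2 hk)
    (one_le_mul_of_one_le_of_one_le h (Real.one_le_sqrt.2 (Nat.one_le_cast.2 hk)))

theorem gf_eq (h : 0 ≤ κ) {k : ℕ} (hk : (k : ℝ) ≤ κ ^ 2) : gf κ k = k := by
  refine min_eq_left ?_
  have h1 : Real.sqrt k ≤ κ := Real.sqrt_le_iff.2 ⟨h, hk⟩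
  calc (k : ℝ) = Real.sqrt k * Real.sqrt k := (Real.mul_self_sqrt (Nat.cast_nonneg _)).symm
    _ ≤ κ * Real.sqrt k := mul_le_mul_of_nonneg_right h1 (Real.sqrt_nonneg _)

theorem gf_sq (h : 0 ≤ κ) (k : ℕ) : (gf κ k / k) ^ 2 ≤ κ ^ 2 * (1 / k) := by
  have h1 : gf κ k ^ 2 ≤ κ ^ 2 * k := by
    have := pow_le_pow_left₀ (gf_nonneg h k) (min_le_right (k : ℝ) (κ * Real.sqrt k)) 2
    rwa [mul_pow, Real.sq_sqrt (Nat.cast_nonneg _)] at this
  rcases Nat.eq_zero_or_pos k with rfl | hk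
  · simp
  · have h2 : (0 : ℝ) < k := Nat.cast_pos.2 hk
    rw [div_pow, div_le_iff₀ (by positivity)]
    exact h1.trans_eq (by field_simp)

theorem fib_pos (lab : X → X → ℝ) {Q : Finset X} {x y : X} (hy : y ∈ Q.erase x) :
    1 ≤ (fib lab Q x y).card := by
  classical
  exact card_pos.2 ⟨y, mem_filter.2 ⟨hy, rfl⟩⟩

open Classical in
theorem phi_eq (lab : X → X → ℝ) (κ : ℝ) (Q : Finset X) : Phi lab κ Q =
    ∑ x ∈ Q, ∑ l ∈ (Q.erase x).image (lab x),
      gf κ ((Q.erase x).filter fun z => lab x z = l).card :=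
  sum_congr rfl fun x _ =>
    fibs_aux lab Q x fun l => gf κ ((Q.erase x).filter fun z => lab x z = l).card

end PhiAux

open PhiAux

theorem phi (hF : FIB) : PHI := by
  classical
  intro X _ lab κ Q h1
  have h0 : 0 ≤ κ := zero_le_one.trans h1
  have hZ : (Zs lab Q : ℝ) = ∑ x ∈ Q, ∑ y ∈ Q.erase x, 1 / ((fib lab Q x y).card : ℝ) := by
    rw [Zs, Nat.cast_sum]
    exact sum_congr rfl fun x _ => (hF X lab Q x).1.symm
  have one : ∀ x, ∀ y ∈ Q.erase x, ((fib lab Q x y).card : ℝ) ≤ κ ^ 2 →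
      gf κ (fib lab Q x y).card / (fib lab Q x y).card = 1 := fun x y hy hk => by
    rw [gf_eq h0 hk, div_self (Nat.cast_pos.2 (fib_pos lab hy)).ne']
  refine ⟨fun S hS => ?_, ?_, fun hQ => ?_, ?_, ?_⟩
  · rw [phi_eq, phi_eq]
    refine (sum_le_sum fun x _ => ?_).trans (sum_le_sum_of_subset_of_nonneg hS fun x _ _ =>
      sum_nonneg fun l _ => gf_nonneg h0 _)
    refine (sum_le_sum fun l _ => gf_mono h0 (card_le_card
      (filter_subset_filter _ (erase_subset_erase x hS)))).trans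
      (sum_le_sum_of_subset_of_nonneg (image_subset_image (erase_subset_erase x hS))
        fun l _ _ => gf_nonneg h0 _)
  · rw [hZ]
    exact sum_le_sum fun x _ => sum_le_sum fun y hy =>
      div_le_div_of_nonneg_right (gf_one h1 (fib_pos lab hy)) (Nat.cast_nonneg _)
  · have : ∀ x ∈ Q, ∑ y ∈ Q.erase x, gf κ (fib lab Q x y).card / (fib lab Q x y).card =
        (Q.card : ℝ) - 1 := fun x hx => by
      rw [sum_congr rfl fun y hy => one x y hy ((Nat.cast_le.2 (card_le_card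
        ((filter_subset _ _).trans (erase_subset x Q)))).trans hQ), sum_const, nsmul_eq_mul,
        mul_one, card_erase_of_mem hx, Nat.cast_pred (card_pos.2 ⟨x, hx⟩)]
    rw [Phi, sum_congr rfl this, sum_const, nsmul_eq_mul, Pr]
  · rw [Phi, sum_sigma']
    refine sq_sum_le_card_mul_sum_sq.trans ?_
    rw [mul_comm]
    refine mul_le_mul ?_ ?_ (Nat.cast_nonneg _) (by positivity)
    · rw [hZ, sum_sigma', mul_sum]
      exact sum_le_sum fun e _ => gf_sq h0 _
    · rw [card_sigma, Nat.cast_sum, sq]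
      refine (sum_le_card_nsmul _ _ (Q.card : ℝ) fun x _ =>
        Nat.cast_le.2 card_erase_le).trans_eq (nsmul_eq_mul _ _)
  · refine sum_le_sum fun x _ => ?_
    rw [card_filter, Nat.cast_sum]
    refine sum_le_sum fun y hy => ?_
    split_ifs with hk
    · rw [one x y hy hk, Nat.cast_one]
    · rw [Nat.cast_zero]
      exact div_nonneg (gf_nonneg h0 _) (Nat.cast_nonneg _)

end Pool.Agent.MP_6c3157_co.PQ
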