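import Pool.Agent.MP_6c3157_co.PQ.SpecA

/-! Project PQ, row PLC2: the product formula on the ring generated by a finite set. -/

set_option autoImplicit false
set_option linter.unusedSectionVars false

noncomputable section

namespace Pool.Agent.MP_6c3157_co.PQ

open Finset Pool.Agent.MP_6c3157_co.PD NumberField

namespace Plc2

variable {K : Type} [Field K] [NumberField K]

theorem form {a : K} (h0 : a ≠ 0) (B : Finset (FinitePlace K)) (hB : ∀ v ∉ B, v a = 1) :
    (∑ v : InfinitePlace K, (v.mult : ℝ) * Real.log (v a)) + ∑ v ∈ B, Real.log (v a) = 0 := by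
  have h := prod_abs_eq_one (K := K) h0
  rw [finprod_eq_prod_of_mulSupport_subset (s := B) _ fun v hv =>
    by_contra fun n => hv (hB v n)] at h
  have p1 : ∀ v : InfinitePlace K, v a ≠ 0 := fun v => (v.1.pos h0).ne'
  have p2 : ∀ v : FinitePlace K, v a ≠ 0 := fun v => (v.1.pos h0).ne'
  have h2 := congrArg Real.log h
  rw [Real.log_mul (prod_ne_zero_iff.2 fun v _ => pow_ne_zero _ (p1 v))
    (prod_ne_zero_iff.2 fun v _ => p2 v), Real.log_prod (fun v _ => pow_ne_zero _ (p1 v)),
    Real.log_prod (fun v _ => p2 v), Real.log_one] at h2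
  simpa only [Real.log_pow] using h2

theorem le_one (v : FinitePlace K) {F : Set K} (h : ∀ a ∈ F, v a ≤ 1) {a : K}
    (ha : a ∈ Subring.closure F) : v a ≤ 1 := by
  induction ha using Subring.closure_induction with
  | mem x hx => exact h x hx
  | zero => rw [map_zero]; exact zero_le_one
  | one => rw [map_one]
  | add x y _ _ hx hy => exact (FinitePlace.add_le v x y).trans (max_le hx hy)
  | neg x _ hx => rwa [show v (-x) = v x from v.1.map_neg x]
  | mul x y _ _ hx hy => rw [map_mul]; exact mul_le_one₀ hx (v.1.nonneg y) hy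

end Plc2

open Plc2 in
theorem plc2 : PLC2 := by
  classical
  intro K _ _ F
  have hfin : (⋃ a ∈ F.filter (· ≠ 0), Function.mulSupport fun w : FinitePlace K => w a).Finite :=
    (F.filter (· ≠ 0)).finite_toSet.biUnion fun a ha =>
      FinitePlace.hasFiniteMulSupport (mem_filter.1 ha).2
  have out : ∀ a ∈ F, a ≠ 0 → ∀ v ∉ hfin.toFinset, v a = 1 := fun a ha h0 v hv =>
    by_contra fun n => hv (hfin.mem_toFinset.2
      (Set.mem_biUnion (show a ∈ (F.filter (· ≠ 0) : Set K) from mem_coe.2 (mem_filter.2 ⟨ha, h0⟩)) n))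
  refine ⟨hfin.toFinset, fun a ha h0 => form h0 _ (out a ha h0), fun a ha h0 => ?_⟩
  have fa := FinitePlace.hasFiniteMulSupport (K := K) h0
  have e := form h0 (hfin.toFinset ∪ (fa.toFinset \ hfin.toFinset)) fun v hv =>
    by_contra fun n => hv (by
      rw [union_sdiff_self_eq_union]
      exact mem_union_right _ (fa.mem_toFinset.2 n))
  rw [sum_union disjoint_sdiff] at e
  have : ∑ v ∈ fa.toFinset \ hfin.toFinset, Real.log (v a) ≤ 0 :=
    sum_nonpos fun v hv => Real.log_nonpos (v.1.nonneg a) (le_one v (fun b hb => by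
      by_cases c : b = 0
      · rw [c, map_zero]; exact zero_le_one
      · exact (out b hb c v (mem_sdiff.1 hv).2).le) ha)
  linarith

end Pool.Agent.MP_6c3157_co.PQ
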