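import Pool.Agent.MP_6c3157_co.PQ.SpecF

/-! Project PQ: the scale and the monotone bound. -/

set_option autoImplicit false

noncomputable section

namespace Pool.Agent.MP_6c3157_co.PQ

open Finset Pool.Agent.MP_6c3157_co.PD

theorem scale (hG : GEO) (h1 : SB1) (h2 : SB2) : SCALE := by
  classical
  intro X PL _ _ s hv Y h T θ q₀ q₁ hx hθ hq hY hZ hT
  have hex : ∃ q : ℕ, q₀ ≤ q ∧ s.Th hv Y (1 / q) ≤ θ * T * (Y.card : ℝ) ^ 2 := ⟨q₁, hq, hT⟩
  obtain ⟨a1, a2⟩ := Nat.find_spec hex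
  have a3 : Nat.find hex ≤ q₁ := Nat.find_min' hex ⟨hq, hT⟩
  rcases a1.eq_or_lt with e | e
  · refine ⟨Nat.find hex, 1 / 100, a1, a3, Or.inl ⟨e.symm, rfl⟩, a2, ?_⟩
    have h4 : (10 : ℝ) ^ 28 ≤ Y.card := by
      unfold ep at hY
      linarith
    have h5 : 10 ^ 28 ≤ Y.card := by exact_mod_cast h4
    choose γ hγ using fun p => hG X (s.c p) Y (hx.good.good p) (by omega)
    have hT0 := hx.Tlo
    have h6 : ep * T * (Y.card : ℝ) ^ 2 < s.Th hv Y (1 / 100) := not_le.1 fun h6 =>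
      h2 X PL s hv Y h T _ γ hx hγ (by omega) h6
        (h1 X PL s hv Y h T _ γ hx hγ (by norm_num) (by linarith) (by linarith) h6)
    exact le_trans (mul_le_mul_of_nonneg_right
      (mul_le_mul_of_nonneg_right hθ (by linarith)) (sq_nonneg _)) h6.le
  · obtain ⟨k, hk⟩ : ∃ k, Nat.find hex = k + 1 := ⟨Nat.find hex - 1, by omega⟩
    have a4 := Nat.find_min hex (show k < Nat.find hex by omega)
    have a5 : ((Nat.find hex : ℕ) : ℝ) - 1 = k := by rw [hk]; push_cast; ring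
    refine ⟨Nat.find hex, 1 / (((Nat.find hex : ℕ) : ℝ) - 1), a1, a3, Or.inr ⟨e, rfl⟩, a2, ?_⟩
    rw [a5]
    exact (not_le.1 fun a6 => a4 ⟨by omega, a6⟩).le

theorem Pr_nn {X : Type} (S : Finset X) : 0 ≤ Pr S := by
  unfold Pr
  rcases Nat.eq_zero_or_pos S.card with h | h
  · rw [h]; simp
  · have : (1 : ℝ) ≤ S.card := by exact_mod_cast h
    exact mul_nonneg (by linarith) (by linarith)

theorem ph_mono {a t t' : ℝ} (ha : 0 ≤ a) (ht : 1 ≤ t) (h : t ≤ t') :
    0 < ph a t' ∧ ph a t' ≤ ph a t ∧ ph a t ≤ 1 := by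
  have l1 := Real.log_nonneg ht
  have l2 : Real.log t ≤ Real.log t' := Real.log_le_log (by linarith) h
  unfold ph
  refine ⟨Real.rpow_pos_of_pos (by linarith) _, ?_, ?_⟩
  · exact Real.rpow_le_rpow_of_nonpos (by linarith) (by linarith) (by linarith)
  · exact Real.rpow_le_one_of_one_le_of_nonpos (by linarith) (by linarith)

theorem phm : PHM := by
  refine ⟨fun a t t' ha ht h => ph_mono ha ht h, fun X _ lab κ a Q ha _ hb => ⟨?_, ?_⟩⟩
  · refine hb.bad.le.trans (mul_le_mul_of_nonneg_left ?_ ?_)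
    · unfold Pr
      have : (0 : ℝ) ≤ Q.card := Nat.cast_nonneg _
      nlinarith
    · unfold ph
      have := Real.log_natCast_nonneg Q.card
      exact Real.rpow_nonneg (by linarith) _
  · intro t h1 h2 S hS
    have h3 : S.card < Q.card := by exact_mod_cast hS.trans_le h2
    rcases Nat.eq_zero_or_pos S.card with h | h
    · rw [card_eq_zero] at h
      subst h
      simp [Pr, Phi]
    · have h4 : (1 : ℝ) ≤ S.card := by exact_mod_cast h
      exact le_trans (mul_le_mul_of_nonneg_right (ph_mono ha h4 hS.le).2.1 (Pr_nn S))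
        (hb.ih S h3)

end Pool.Agent.MP_6c3157_co.PQ
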