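import Pool.Agent.MP_6c3157_co.PQ.SpecI

/-! Project PQ, part F: parameters, scale, induction and the theorem. -/

set_option autoImplicit false
set_option linter.unusedSectionVars false

noncomputable section

namespace Pool.Agent.MP_6c3157_co.PQ

open Finset Pool.Agent.MP_6c3157_co.PD

/-- the numbers of one step: `n` points, scale `q`, fine constant `u` -/
structure Par (M : ℕ) (θ a n κ : ℝ) (q : ℕ) (σ₁ u σ₃ n₀ γ : ℝ) (j : ℕ) : Prop where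
  a_lo : 0 ≤ a
  u_pos : 0 < u
  u_le : u ≤ θ
  q_hi : (q : ℝ) ^ 400 ≤ n
  q_lo : 1 ≤ q * ph a n ^ 2
  ph_pos : 0 < ph a n
  ph_le : ph a n ≤ u ^ M
  ka : 1 ≤ κ * ph a n ^ 2
  th2 : 10 ^ 8 * ph a n ≤ θ ^ M * ph a (σ₃ * n)
  th3 : 10 ^ 8 * ph a n ≤ u ^ M * ph a ((q : ℝ) ^ 100)
  s3_pos : 0 < σ₃
  s3_le : σ₃ ≤ σ₁
  s3_q : σ₃ * (q : ℝ) ^ 100 ≤ 1
  s3_n0 : (q : ℝ) ^ 100 ≤ σ₃ * n₀
  n0_le : n₀ * (q : ℝ) ^ 40 ≤ n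
  s1_le : σ₁ ≤ 1 / 100
  ga_lo : 0 ≤ γ
  ga_s : ∀ t : ℝ, 0 ≤ t → t ≤ 4 * σ₁ → t ^ γ ≤ 1 / 2
  jmp : (1 - θ / 10 ^ 4) ^ j * (n / n₀) ^ γ ≤ 1 / 1000
  uj : u * j ≤ 1 / 10 ^ 4
  gain : 1000 * ph a n ≤ ph a n₀

section defs

variable {X PL : Type} [DecidableEq X]

/-- a minimal counterexample to the lower bound for the potential -/
structure Bad (lab : X → X → ℝ) (κ a : ℝ) (Q : Finset X) : Prop where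
  ih : ∀ S : Finset X, S.card < Q.card → ph a S.card * Pr S ≤ Phi lab κ S
  bad : Phi lab κ Q < ph a Q.card * Pr Q

variable [Fintype PL]

/-- the band and the four facts on small overlaps -/
structure Stp (s : Sys X PL) (Q Y : Finset X) (h : X → ℝ) (T : ℝ) (M : ℕ) (θ : ℝ) (q : ℕ)
    (σ₁ u σ₃ : ℝ) : Prop where
  sub : Y ⊆ Q
  big : 3 * Q.card ≤ 4 * Y.card
  ctx : Ctx s (heavy Q) Y h T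
  t0 : s.Th (heavy Q) Y (1 / q) ≤ θ * T * (Y.card : ℝ) ^ 2
  t1 : θ * T * (Y.card : ℝ) ^ 2 ≤ s.Th (heavy Q) Y σ₁
  t2 : s.Th (heavy Q) Y σ₃ ≤ θ ^ M * T * (Y.card : ℝ) ^ 2
  t3 : ∀ Y' ⊆ Y, 2 * Q.card ≤ 3 * Y'.card → Ctx s (heavy Q) Y' h T ∧
    s.Th (heavy Q) Y' ((q : ℝ) ^ 100 / Y'.card) ≤ u ^ M * T * (Y'.card : ℝ) ^ 2

end defs

open Classical in
/-- elementary facts on the potential -/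
def PHI : Prop :=
  ∀ (X : Type) [DecidableEq X] (lab : X → X → ℝ) (κ : ℝ) (Q : Finset X), 1 ≤ κ →
    (∀ S ⊆ Q, Phi lab κ S ≤ Phi lab κ Q) ∧ (Zs lab Q : ℝ) ≤ Phi lab κ Q ∧
    ((Q.card : ℝ) ≤ κ ^ 2 → Phi lab κ Q = Pr Q) ∧
    Phi lab κ Q ^ 2 ≤ κ ^ 2 * Zs lab Q * (Q.card : ℝ) ^ 2 ∧
    (∑ x ∈ Q, (((Q.erase x).filter fun y => ((fib lab Q x y).card : ℝ) ≤ κ ^ 2).card : ℝ)) ≤
      Phi lab κ Q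

/-- the induction hypothesis with one constant for all sets below a size -/
def PHM : Prop :=
  (∀ a t t' : ℝ, 0 ≤ a → 1 ≤ t → t ≤ t' → 0 < ph a t' ∧ ph a t' ≤ ph a t ∧ ph a t ≤ 1) ∧
  ∀ (X : Type) [DecidableEq X] (lab : X → X → ℝ) (κ a : ℝ) (Q : Finset X), 0 ≤ a → 0 ≤ κ →
    Bad lab κ a Q → Phi lab κ Q ≤ ph a Q.card * (Q.card : ℝ) ^ 2 ∧
      ∀ t : ℝ, 1 ≤ t → t ≤ Q.card → ∀ S : Finset X, (S.card : ℝ) < t →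
        ph a t * Pr S ≤ Phi lab κ S

/-- the scale: the first integer where the small overlap drops -/
def SCALE : Prop :=
  ∀ (X PL : Type) [DecidableEq X] [Fintype PL] (s : Sys X PL) (hv : ℕ × Finset X → Prop)
    (Y : Finset X) (h : X → ℝ) (T θ : ℝ) (q₀ q₁ : ℕ), Ctx s hv Y h T → θ ≤ ep → q₀ ≤ q₁ →
    100 ≤ ep * Y.card → 100 * (Zs s.lab Y : ℝ) ≤ ep * (Y.card : ℝ) ^ 2 →
    s.Th hv Y (1 / q₁) ≤ θ * T * (Y.card : ℝ) ^ 2 →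
    ∃ (q : ℕ) (σ₁ : ℝ), q₀ ≤ q ∧ q ≤ q₁ ∧ (q = q₀ ∧ σ₁ = 1 / 100 ∨ q₀ < q ∧ σ₁ = 1 / (q - 1)) ∧
      s.Th hv Y (1 / q) ≤ θ * T * (Y.card : ℝ) ^ 2 ∧ θ * T * (Y.card : ℝ) ^ 2 ≤ s.Th hv Y σ₁

/-- the numbers exist -/
def NUM : Prop :=
  ∀ (M : ℕ) (θ : ℝ), 0 < θ → θ ≤ 1 → ∃ a b N₀ : ℝ, 0 ≤ a ∧ 0 ≤ b ∧ 0 ≤ N₀ ∧
    ∀ n κ : ℝ, 0 < n → N₀ ≤ Real.log n → (1 + Real.log n) ^ b ≤ κ →
      ∃ q₀ q₁ : ℕ, q₀ ≤ q₁ ∧ 10 ^ 8 * ph a n ≤ θ * ph a (n / q₁) ∧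
        ∀ (q : ℕ) (σ₁ : ℝ), q₀ ≤ q → q ≤ q₁ →
          (q = q₀ ∧ σ₁ = 1 / 100 ∨ q₀ < q ∧ σ₁ = 1 / (q - 1)) →
          ∃ (u σ₃ n₀ γ : ℝ) (j : ℕ), Par M θ a n κ q σ₁ u σ₃ n₀ γ j

/-- the set up of a step -/
def SET : Prop :=
  ∀ (M : ℕ) (θ : ℝ), 2 ≤ M → 0 < θ → θ ≤ ep → ∃ a b N₀ : ℝ, 0 ≤ a ∧ 0 ≤ b ∧ 0 ≤ N₀ ∧
    ∀ (X PL : Type) [DecidableEq X] [Fintype PL] (s : Sys X PL) (κ : ℝ) (Q : Finset X), s.Good →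
      N₀ ≤ Real.log Q.card → Q.Nonempty → (1 + Real.log Q.card) ^ b ≤ κ → Bad s.lab κ a Q →
      ∃ (q : ℕ) (σ₁ u σ₃ n₀ γ : ℝ) (j : ℕ) (Y : Finset X) (h : X → ℝ) (T : ℝ),
        Par M θ a Q.card κ q σ₁ u σ₃ n₀ γ j ∧ Stp s Q Y h T M θ q σ₁ u σ₃

/-- the step -/
def STEP : Prop :=
  ∃ (M : ℕ) (θ : ℝ), 2 ≤ M ∧ 0 < θ ∧ θ ≤ ep ∧
    ∀ (X PL K : Type) [DecidableEq X] [Fintype PL] [Field K] (s : Sys X PL) (A : Ari X PL K)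
      (η κ a : ℝ) (Q Y : Finset X) (h : X → ℝ) (T : ℝ) (q : ℕ) (σ₁ u σ₃ n₀ γ : ℝ) (j : ℕ),
      A.Good s η → η * Q.card ≤ 1 → Par M θ a Q.card κ q σ₁ u σ₃ n₀ γ j →
      Stp s Q Y h T M θ q σ₁ u σ₃ → Bad s.lab κ a Q → False

/-- the induction -/
def IND : Prop :=
  ∃ a b c : ℝ, 0 ≤ a ∧ 0 ≤ b ∧ 1 ≤ c ∧
    ∀ (X PL K : Type) [DecidableEq X] [Fintype PL] [Field K] (s : Sys X PL) (A : Ari X PL K)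
      (η κ n : ℝ), A.Good s η → 0 ≤ η → η * n ≤ 1 → 1 ≤ n → c * (1 + Real.log n) ^ b ≤ κ →
      ∀ Q : Finset X, (Q.card : ℝ) ≤ n → ph a Q.card * Pr Q ≤ Phi s.lab κ Q

/-- the theorem -/
def MAIN : Prop :=
  ∃ c C : ℝ, 0 < c ∧ ∀ A : Finset (EuclideanSpace ℝ (Fin 2)), 2 ≤ A.card →
    c * (A.card : ℝ) ^ 2 / Real.log A.card ^ C ≤
      ∑ a ∈ A, (((A.image (fun b => dist a b)).erase 0).card : ℝ)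

end Pool.Agent.MP_6c3157_co.PQ
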