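import Pool.Agent.MP_6c3157_co.PQ.SpecB
import Pool.Agent.MP_6c3157_co.PQ.SpecF

/-! Project PQ: the set up of a step. -/

set_option autoImplicit false

noncomputable section

namespace Pool.Agent.MP_6c3157_co.PQ

open Finset Pool.Agent.MP_6c3157_co.PD

namespace Setp

/-- crude sizes -/
theorem sizes {M : ℕ} {θ a n κ : ℝ} {q : ℕ} {σ₁ u σ₃ n₀ γ : ℝ} {j : ℕ}
    (h : Par M θ a n κ q σ₁ u σ₃ n₀ γ j) (hM : 2 ≤ M) (hθ : θ ≤ ep) :
    ph a n ≤ 1 / 10 ^ 56 ∧ 1 ≤ q * ph a n ∧ (10 : ℝ) ^ 56 ≤ q ∧ 1 ≤ κ ∧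
      (q : ℝ) * (q : ℝ) * (q : ℝ) ^ 100 ≤ n := by
  have h0 := h.u_pos
  have h1 : u ≤ 1 / 10 ^ 28 := h.u_le.trans hθ
  have h2 : u ^ M ≤ u ^ 2 := pow_le_pow_of_le_one h0.le (by linarith) hM
  have h3 : ph a n ≤ 1 / 10 ^ 56 := h.ph_le.trans (h2.trans (by nlinarith))
  have h4 := h.ph_pos
  have h5 := h.q_lo
  have h6 := h.ka
  have h7 : (0 : ℝ) ≤ q := Nat.cast_nonneg q
  have h8 : ph a n ^ 2 ≤ ph a n := by nlinarith
  have h9 : 1 ≤ q * ph a n := h5.trans (mul_le_mul_of_nonneg_left h8 h7)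
  have h10 : (10 : ℝ) ^ 56 ≤ q := by nlinarith
  refine ⟨h3, h9, h10, ?_, le_trans ?_ h.q_hi⟩
  · by_contra h11
    nlinarith [not_le.1 h11]
  · rw [← sq, ← pow_add]
    exact pow_le_pow_right₀ (by linarith) (by norm_num)

/-- the small overlap of a large part of a minimal counterexample -/
theorem small (hP : PHI) (hM : PHM) (hT : TH) {X PL : Type} [DecidableEq X] [Fintype PL]
    {s : Sys X PL} {hv : ℕ × Finset X → Prop} {Q Y : Finset X} {h : X → ℝ} {T κ a σ t δ : ℝ}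
    (hx : Ctx s hv Y h T) (hb : Bad s.lab κ a Q) (ha : 0 ≤ a) (hκ : 1 ≤ κ) (hY : Y ⊆ Q)
    (h23 : 2 * Q.card ≤ 3 * Y.card) (hn : 4500 ≤ Q.card) (h0 : 0 ≤ σ) (h1 : σ ≤ ph a Q.card)
    (h2 : σ * Y.card ≤ t) (h3 : 1 ≤ t) (h4 : t ≤ Q.card)
    (h5 : 10 ^ 8 * ph a Q.card ≤ δ * ph a t) : s.Th hv Y σ ≤ δ * T * (Y.card : ℝ) ^ 2 := by
  obtain ⟨b1, b2⟩ := hM.2 X s.lab κ a Q ha (by linarith) hb
  have b3 := hT X PL s hv Y h T σ κ (ph a t) hx (by omega) h0 hκ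
    fun S _ _ hS => b2 t h3 h4 S (hS.trans_le h2)
  have b4 := ((hP X s.lab κ Q hκ).1 Y hY).trans b1
  have b5 := (hM.1 a t t ha h3 le_rfl).1
  have b6 : (2 : ℝ) * Q.card ≤ 3 * Y.card := by exact_mod_cast h23
  have b7 : (0 : ℝ) ≤ Q.card := Nat.cast_nonneg _
  have b8 : (Q.card : ℝ) ^ 2 ≤ 9 / 4 * (Y.card : ℝ) ^ 2 := by nlinarith
  have hT0 : 0 ≤ T := by linarith [hx.Tlo]
  have b9 : 0 ≤ ph a Q.card := h0.trans h1
  generalize ph a Q.card = f at *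
  generalize ph a t = f' at *
  have c1 : Phi s.lab κ Y ≤ f * (9 / 4 * (Y.card : ℝ) ^ 2) :=
    b4.trans (mul_le_mul_of_nonneg_left b8 b9)
  have c2 := mul_le_mul_of_nonneg_left c1 hT0
  have c0 : 0 ≤ (Y.card : ℝ) ^ 2 * T := by positivity
  have c3 := mul_le_mul_of_nonneg_right h1 c0
  have c4 := mul_le_mul_of_nonneg_right h5 c0
  have c5 := mul_nonneg b9 c0
  refine le_of_mul_le_mul_left ?_ b5
  nlinarith

end Setp

theorem setp (hB : BAND) (hP : PHI) (hM : PHM) (hT : TH) (hC : CTX) (hS : SCALE) (hN : NUM) :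
    SET := by
  intro M θ hM2 h0 h1
  obtain ⟨a, b, N₀, ha, hb, hN0, H⟩ := hN M θ h0 (h1.trans ep_le_one)
  refine ⟨a, b, N₀, ha, hb, hN0, fun X PL _ _ s κ Q hs hQ hne hκ hbad => ?_⟩
  have hn : (0 : ℝ) < Q.card := by exact_mod_cast hne.card_pos
  obtain ⟨q₀, q₁, hq, t1, H⟩ := H Q.card κ hn hQ hκ
  obtain ⟨σ', hσ'⟩ : ∃ σ' : ℝ, q₁ = q₀ ∧ σ' = 1 / 100 ∨ q₀ < q₁ ∧ σ' = 1 / (q₁ - 1) := by
    rcases hq.eq_or_lt with e | e
    exacts [⟨_, Or.inl ⟨e.symm, rfl⟩⟩, ⟨_, Or.inr ⟨e, rfl⟩⟩]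
  obtain ⟨_, _, _, _, _, P₁⟩ := H q₁ σ' hq le_rfl hσ'
  obtain ⟨f1, f2, f3, f4, f5⟩ := Setp.sizes P₁ hM2 h1
  have f0 := P₁.ph_pos
  have big : ∀ q : ℝ, 10 ^ 56 ≤ q → q * q * q ^ 100 ≤ Q.card →
      1 ≤ q ^ 100 ∧ q * q ≤ Q.card ∧ 10 ^ 56 * q * q ^ 100 ≤ Q.card := fun q g1 g2 => by
    have g3 : 1 ≤ q ^ 100 := one_le_pow₀ (by linarith)
    generalize q ^ 100 = r at g2 g3
    refine ⟨g3, le_trans ?_ g2, le_trans ?_ g2⟩
    · exact le_mul_of_one_le_right (by positivity) g3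
    · gcongr
  obtain ⟨_, f6, _⟩ := big q₁ f3 f5
  have f7 : (10 : ℝ) ^ 56 * q₁ ≤ Q.card := le_trans (by gcongr) f6
  have f8 : (10 : ℝ) ^ 56 ≤ Q.card := by linarith
  have f9 : 10 ^ 56 ≤ Q.card := by exact_mod_cast f8
  have z1 := (hM.2 X s.lab κ a Q ha (by linarith) hbad).1
  have z0 : ph a Q.card * (Q.card : ℝ) ^ 2 ≤ 1 / 10 ^ 56 * (Q.card : ℝ) ^ 2 :=
    mul_le_mul_of_nonneg_right f1 (sq_nonneg _)
  have z2 : (Zs s.lab Q : ℝ) ≤ 1 / 10 ^ 56 * (Q.card : ℝ) ^ 2 :=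
    (hP X s.lab κ Q f4).2.1.trans (z1.trans z0)
  obtain ⟨Y, hY, hY3, h, T, hx⟩ := hB X PL s Q hs (by omega) (by
    have : (200 : ℝ) * Zs s.lab Q ≤ (Q.card : ℝ) ^ 2 := by nlinarith [sq_nonneg (Q.card : ℝ)]
    exact_mod_cast this)
  have y1 : (3 : ℝ) * Q.card ≤ 4 * Y.card := by exact_mod_cast hY3
  have y2 : (Y.card : ℝ) ≤ Q.card := by exact_mod_cast card_le_card hY
  have z3 : (Zs s.lab Y : ℝ) ≤ Zs s.lab Q := by exact_mod_cast Zs_mono s.lab hY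
  have p1 : (0 : ℝ) < q₁ := by linarith
  obtain ⟨q, σ₁, g0, g1, g2, g3, g4⟩ := hS X PL s (heavy Q) Y h T θ q₀ q₁ hx h1 hq
    (by unfold ep; linarith) (by unfold ep; nlinarith)
    (Setp.small hP hM hT hx hbad ha f4 hY (by omega) (by omega) (by positivity)
      (by rw [div_le_iff₀' p1]; exact f2) (t := Q.card / q₁)
      (by rw [one_div, mul_comm, ← div_eq_mul_inv]; gcongr)
      (by rw [le_div_iff₀ p1]; linarith) (div_le_self hn.le (by linarith)) t1)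
  obtain ⟨u, σ₃, n₀, γ, j, P⟩ := H q σ₁ g0 g1 g2
  obtain ⟨_, e2, e3, _, e5⟩ := Setp.sizes P hM2 h1
  obtain ⟨e6, _, e7⟩ := big q e3 e5
  have e8 : (q : ℝ) ≤ (q : ℝ) ^ 100 := le_self_pow₀ (by linarith) (by norm_num)
  have e9 : (1 : ℝ) ≤ (q : ℝ) ^ 40 := one_le_pow₀ (by linarith)
  have s0 := P.s3_pos
  have s1 := P.s3_q
  have s2 := P.s3_n0
  have s3 := P.n0_le
  have s4 := P.th3
  generalize (q : ℝ) ^ 40 = r' at e9 s3
  have s5 : 0 < n₀ := by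
    by_contra s5
    nlinarith [mul_nonpos_of_nonneg_of_nonpos s0.le (not_lt.1 s5)]
  have s6 : n₀ ≤ Q.card := le_trans (le_mul_of_one_le_right s5.le e9) s3
  have s7 : σ₃ * q ≤ 1 := le_trans (mul_le_mul_of_nonneg_left e8 s0.le) s1
  have qp : (0 : ℝ) < q := by linarith
  refine ⟨q, σ₁, u, σ₃, n₀, γ, j, Y, h, T, P, hY, hY3, hx, g3, g4, ?_, fun Y' hY' h23 => ?_⟩
  · refine Setp.small hP hM hT hx hbad ha f4 hY (by omega) (by omega) s0.le ?_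
      (mul_le_mul_of_nonneg_left y2 s0.le) ?_ ?_ P.th2
    · exact le_of_mul_le_mul_left (by linarith) qp
    · exact e6.trans (s2.trans (mul_le_mul_of_nonneg_left s6 s0.le))
    · exact mul_le_of_le_one_left hn.le (by nlinarith)
  · have hx' := hC X PL s Q Y Y' h T hx hY hY' h23
    have y3 : (2 : ℝ) * Q.card ≤ 3 * Y'.card := by exact_mod_cast h23
    have y4 : (0 : ℝ) < Y'.card := by linarith
    generalize (q : ℝ) ^ 100 = r at *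
    refine ⟨hx', Setp.small hP hM hT hx' hbad ha f4 (hY'.trans hY) h23 (by omega)
      (by positivity) ?_ (div_mul_cancel₀ _ y4.ne').le e6 (by nlinarith) s4⟩
    rw [div_le_iff₀ y4]
    have y5 : q * r ≤ Y'.card := by nlinarith [mul_pos qp (show 0 < r by linarith)]
    nlinarith [mul_le_mul_of_nonneg_left y5 f0.le, mul_le_mul_of_nonneg_right e2 (show 0 ≤ r by linarith)]

end Pool.Agent.MP_6c3157_co.PQ
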