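import Pool.Agent.MP_6c3157_co.PQ.SpecA
import Pool.Agent.MP_6c3157_co.PD.Sys

/-! Project PQ, row SYS2: the system of a configuration with its arithmetic data. -/

set_option autoImplicit false
set_option linter.unusedSectionVars false

noncomputable section

namespace Pool.Agent.MP_6c3157_co.PQ

open Finset NumberField Pool.Agent.MP_6c3157_co.PD

namespace Sys2

/-- the swap of the two coordinates -/
def bar (P : Type) : P × Bool ≃ P × Bool :=
  Equiv.prodCongr (Equiv.refl P) ⟨not, not, by decide, by decide⟩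

theorem two {P : Type} [Fintype P] (f : P → ℝ) : ∑ p : P × Bool, f p.1 = 2 * ∑ p, f p := by
  rw [Fintype.sum_prod_type]
  simp only [Fintype.sum_bool, sum_add_distrib, two_mul]

theorem good {X P K : Type} [DecidableEq X] [Fintype P] [Field K] (U V : X → K)
    (lab : X → X → ℝ)
    (hl : ∀ x y z, lab x y = lab x z → (U x - U y) * (V x - V y) = (U x - U z) * (V x - V z))
    (av : P → AbsoluteValue K ℝ) (m lam xi g : P → ℝ) (η : ℝ) (c : P × Bool → Cells X)
    (hg : ∀ p, (c p).Good) (hm : ∀ p, 0 ≤ m p)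
    (hdU : ∀ p x y, (c (p, true)).d x y = av p (U x - U y))
    (hdV : ∀ p x y, (c (p, false)).d x y = av p (V x - V y))
    (hlam : ∀ p, (c p).lam = lam p.1) (heta : ∀ p, (c p).eta = η) (hxi : ∀ p, (c p).xi = xi p.1)
    (hgg : ∀ p, (c p).g = g p.1)
    (pU : ∀ x y, x ≠ y → ∑ p, m p * Real.log (av p (U x - U y)) = 0)
    (pV : ∀ x y, x ≠ y → ∑ p, m p * Real.log (av p (V x - V y)) = 0)
    (s1 : 2 * ∑ p, m p * η ≤ ep) (s2 : ∑ p, m p * xi p ≤ 10)
    (s3 : 1 / 80000 ≤ ∑ p, m p * g p) :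
    (Sys.mk c (fun p => m p.1) (bar P) lab).Good := by
  have bt : ∀ p : P, bar P (p, true) = (p, false) := fun _ => rfl
  have bf : ∀ p : P, bar P (p, false) = (p, true) := fun _ => rfl
  refine ⟨hg, fun p => hm p.1, fun p => rfl, fun p => (hlam _).trans (hlam p).symm,
    fun x y hxy => ?_, ?_, ?_, ?_, ?_, ?_⟩
  · rw [Fintype.sum_prod_type]
    simp only [Fintype.sum_bool, hdU, hdV, sum_add_distrib, pU x y hxy, pV x y hxy, add_zero]
  · rintro ⟨p, b⟩ x y z _ _ h
    have h1 := congrArg (av p) (hl x y z h)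
    rw [map_mul, map_mul] at h1
    cases b <;> simp only [bf, bt, hdU, hdV] <;> linarith
  · rintro ⟨p, b⟩ x y z _ _ h
    have h0 := hl x y z h
    cases b <;> simp only [bf, bt, hdU, hdV] <;> rw [← map_mul, ← map_mul, ← (av p).map_neg] <;>
      congr 1 <;> linear_combination h0
  · simp only [heta]
    rwa [two fun p => m p * η]
  · simp only [hxi]
    rw [two fun p => m p * xi p]
    linarith
  · simp only [hgg]
    rw [two fun p => m p * g p]
    linarith

end Sys2

open Sys2 in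
theorem sys2 (hU : ULT) (hA : ARCH) (hP : PLC2) (hT : PART) : SYS2 := by
  classical
  intro X _ _ K _ _ U V lab η₀ h₀ hUi hVi hl
  obtain ⟨F, hF⟩ : ∃ F : Finset K, ∀ a, a ∈ F ↔ ∃ x y, a = U x - U y ∨ a = V x - V y :=
    ⟨(univ : Finset (X × X)).image (fun p => U p.1 - U p.2) ∪
      (univ : Finset (X × X)).image (fun p => V p.1 - V p.2), fun a => by
        simp only [mem_union, mem_image, mem_univ, true_and, Prod.exists, exists_or, eq_comm]⟩
  obtain ⟨B, hB, hB'⟩ := hP K F
  have hn : (0 : ℝ) < (Module.finrank ℚ K : ℝ) := by exact_mod_cast Module.finrank_pos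
  set n : ℝ := (Module.finrank ℚ K : ℝ) with hn'
  have hs : ∑ v : InfinitePlace K, (v.mult : ℝ) = n := by
    rw [hn', ← InfinitePlace.sum_mult_eq]; push_cast; rfl
  let av : InfinitePlace K ⊕ B → AbsoluteValue K ℝ := Sum.elim (fun v => v.1) (fun v => v.1.1)
  let m : InfinitePlace K ⊕ B → ℝ := Sum.elim (fun v => (v.mult : ℝ) / n) (fun _ => 1 / n)
  have hm : ∀ p, 0 ≤ m p := by
    rintro (v | v)
    · exact div_nonneg (Nat.cast_nonneg _) hn.le
    · exact div_nonneg zero_le_one hn.le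
  have hR : 0 ≤ ∑ _v : B, 1 / n := sum_nonneg fun _ _ => div_nonneg zero_le_one hn.le
  set R : ℝ := ∑ _v : B, 1 / n with hR'
  have hM : ∀ a b : ℝ, ∑ p, m p * Sum.elim (fun _ => a) (fun _ => b) p = a + R * b := fun a b => by
    rw [Fintype.sum_sum_type]
    show ∑ v : InfinitePlace K, (v.mult : ℝ) / n * a + ∑ _v : B, 1 / n * b = _
    rw [← sum_mul, ← sum_mul, ← sum_div, hs, div_self hn.ne', one_mul]
  have he : ep ≤ 1 / 5 := by unfold ep; norm_num
  have e0 : 0 < min ep η₀ := lt_min ep_pos h₀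
  have e1 := min_le_left ep η₀
  have e2 := min_le_right ep η₀
  obtain ⟨η, η0, ηM⟩ : ∃ η : ℝ, 0 < η ∧ 2 * (η + R * η) = min ep η₀ :=
    ⟨min ep η₀ / (2 * (1 + R)), by positivity, by field_simp⟩
  have ηR := mul_nonneg hR η0.le
  have ηS : ∑ p, m p * η = η + R * η := by
    rw [← hM]
    exact sum_congr rfl fun p _ => by cases p <;> rfl
  let Z : Bool → X → K := fun b => bif b then U else V
  have hZ : ∀ b, Function.Injective (Z b) := by rintro (_ | _) <;> assumption
  let lam : InfinitePlace K ⊕ B → ℝ := Sum.elim (fun _ => 2) (fun _ => 1)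
  have hc : ∀ p : (InfinitePlace K ⊕ B) × Bool, ∃ c : Cells X, c.Good ∧
      (∀ x y, c.d x y = av p.1 (Z p.2 x - Z p.2 y)) ∧ c.lam = lam p.1 ∧ c.eta = η ∧
      c.xi = Sum.elim (fun _ => 8) (fun _ => η) p.1 ∧
      c.g = Sum.elim (fun _ => 1 / 40000) (fun _ => 0) p.1 := by
    rintro ⟨v | v, b⟩
    · exact sys_arch hA (Z b) (hZ b) η η0 (by linarith) v
    · exact sys_fin hU (Z b) (hZ b) η η0 v.1
  choose c h1 h2 h3 h4 h5 h6 using hc
  have pf : ∀ a : K, ∑ p, m p * Real.log (av p a) =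
      ((∑ v : InfinitePlace K, (v.mult : ℝ) * Real.log (v a)) + ∑ v ∈ B, Real.log (v a)) / n := by
    intro a
    rw [Fintype.sum_sum_type, ← sum_coe_sort B, add_div, sum_div, sum_div]
    refine congrArg₂ (· + ·) (sum_congr rfl fun v _ => ?_) (sum_congr rfl fun v _ => ?_)
    · show (v.mult : ℝ) / n * Real.log (v a) = _
      ring
    · show 1 / n * Real.log (v.1 a) = _
      ring
  have na : ∀ (v : B) (a b : K), av (.inr v) (a + b) ≤ max (av (.inr v) a) (av (.inr v) b) :=
    fun v => FinitePlace.add_le v.1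
  refine ⟨(InfinitePlace K ⊕ B) × Bool, inferInstance, ⟨c, fun p => m p.1, bar _, lab⟩,
    ⟨U, V, fun p => av p.1, Prod.snd, fun p => Sum.elim (fun _ => 1) (fun _ => 0) p.1⟩,
    ⟨good U V lab hl av m lam _ _ η c h1 hm (fun p => h2 (p, true)) (fun p => h2 (p, false))
      h3 h4 h5 h6 (fun x y hxy => ?_) (fun x y hxy => ?_) (by linarith) (by rw [hM]; linarith)
      (by rw [hM]; norm_num), hUi, hVi, hl, h2, ?_, fun _ => rfl, fun _ => rfl,
      fun p => (h4 p).symm ▸ η0, ?_, fun a ha h => ?_, ?_, ?_, ?_⟩, rfl⟩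
  · rw [pf, hB _ ((hF _).2 ⟨x, y, .inl rfl⟩) (sub_ne_zero.2 fun h => hxy (hUi h)), zero_div]
  · rw [pf, hB _ ((hF _).2 ⟨x, y, .inr rfl⟩) (sub_ne_zero.2 fun h => hxy (hVi h)), zero_div]
  · rintro ⟨p, _ | _⟩ <;> rfl
  · simp only [h4]
    rw [two fun p => m p * η]
    linarith
  · rw [two fun p => m p * Real.log (av p a), pf]
    exact mul_nonneg zero_le_two (div_nonneg (hB' a (Subring.closure_mono
      (fun b hb => mem_coe.2 ((hF b).2 hb)) ha) h) hn.le)
  · rintro ⟨v | v, b⟩
    exacts [.inl rfl, .inr ⟨rfl, na v⟩]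
  · rw [two fun p => m p * Sum.elim (fun _ => 1) (fun _ => 0) p, hM]
    norm_num
  · rintro ⟨v | v, b⟩
    · have e : (c (.inl v, b)).d = fun x y => ‖v.embedding (Z b x) - v.embedding (Z b y)‖ :=
        funext fun x => funext fun y => by
          rw [h2, ← map_sub, InfinitePlace.norm_embedding_eq]; rfl
      show Part (c (.inl v, b)).d (c (.inl v, b)).lam
      rw [e, h3]
      exact hT.2 X _
    · show Part (c (.inr v, b)).d (c (.inr v, b)).lam
      rw [h3]
      refine hT.1 X _ (h1 _).d_self (h1 _).d_symm fun x y z => ?_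
      rw [h2, h2, h2, ← sub_add_sub_cancel _ (Z b y)]
      exact na v _ _

end Pool.Agent.MP_6c3157_co.PQ
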