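import Pool.Agent.MP_6c3157_co.PD.All
import Pool.Agent.MP_6c3157_co.PQ.Part
import Pool.Agent.MP_6c3157_co.PQ.Plc2
import Pool.Agent.MP_6c3157_co.PQ.Sys2
import Pool.Agent.MP_6c3157_co.PQ.Phi
import Pool.Agent.MP_6c3157_co.PQ.Scale
import Pool.Agent.MP_6c3157_co.PQ.Num
import Pool.Agent.MP_6c3157_co.PQ.Setp
import Pool.Agent.MP_6c3157_co.PQ.Ind
import Pool.Agent.MP_6c3157_co.PQ.Main

/-! Project PQ: assembly of part F. -/

set_option autoImplicit false

namespace Pool.Agent.MP_6c3157_co.PQ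

open Pool.Agent.MP_6c3157_co.PD

theorem all_sys2 : SYS2 := sys2 (ult lev) all_arch plc2 part

theorem all_phi : PHI := phi fibs

theorem all_scale : SCALE :=
  scale geo (sbone lg (ubp tu) (bones (dg qr) (bone dq) fibs) (ers er fibs)) (sbtwo (wu lg lta) ar)

/-- the theorem from step A, the passage to subsets and the step -/
theorem main_of (hT : TH) (hC : CTX) (hS : STEP) : PQ.MAIN :=
  mainq nf all_sys2 all_phi
    (PQ.ind all_phi phm (setp all_band all_phi phm hT hC all_scale num) hS)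

end Pool.Agent.MP_6c3157_co.PQ
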