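import Pool.Agent.MP_6c3157_co.PQ.SpecI

/-! Project PQ, part D: slopes, pins, axes, the count of bad triples and the two clusters. -/

set_option autoImplicit false
set_option linter.unusedSectionVars false

noncomputable section

namespace Pool.Agent.MP_6c3157_co.PQ

open Finset Pool.Agent.MP_6c3157_co.PD

section defs

variable {X PL K : Type} [DecidableEq X] [Field K]

open Classical in
/-- number of ordered pairs of distinct points of `Z` with a property -/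
def ed (Z : Finset X) (H : X → X → Prop) : ℕ :=
  ((Z ×ˢ Z).filter fun e => e.1 ≠ e.2 ∧ H e.1 e.2).card

open Classical in
/-- number of triples (pin, point, point) in one fibre with a property -/
def tc (lab : X → X → ℝ) (Z : Finset X) (H : X → X → X → Prop) : ℕ :=
  ((Z ×ˢ Z ×ˢ Z).filter fun t => t.2.1 ≠ t.1 ∧ t.2.2 ≠ t.1 ∧ t.2.1 ≠ t.2.2 ∧
    lab t.1 t.2.1 = lab t.1 t.2.2 ∧ H t.1 t.2.1 t.2.2).card

open Classical in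
/-- points of `P` whose mirror image in the line through `x` and `x'` is another point of `P` -/
def Ari.mir (A : Ari X PL K) (P : Finset X) (x x' : X) : Finset X :=
  P.filter fun y => ∃ y' ∈ P, y' ≠ y ∧ A.bis x y y' ∧ A.bis x' y y'

/-- all pins but one see few axes of symmetry -/
def Ari.Axes (A : Ari X PL K) (P : Finset X) (β b : ℕ) : Prop :=
  ∃ e : X, ∀ x, x ≠ e → ∃ E : Finset X, E.card ≤ 2 * b ^ 2 ∧ x ∉ E ∧ ∀ x', x' ≠ x →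
    (A.mir P x x').card ≤ 2 * β ^ 2 ∨
      ∃ w ∈ E, ∀ y y', y ≠ y' → A.bis x y y' → A.bis x' y y' → A.bis w y y'

open Classical in
/-- the classes with all their properties -/
structure Cls2 (A : Ari X PL K) (Q : Finset X) (b : ℕ) (ν : ℝ) (C : Finset (Finset X))
    (β : Finset X → ℕ) : Prop where
  sub : ∀ P ∈ C, P ⊆ Q
  big : ∀ P ∈ C, ν < P.card
  b_lo : ∀ P ∈ C, 1 ≤ β P
  b_hi : ∀ P ∈ C, β P ≤ b
  free : ∀ P ∈ C, ∀ k ≤ β P, A.Free P k (2 * (b : ℝ) ^ 2)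
  line : ∀ P ∈ C, ∀ y, ∃ e : X, ∀ z, z ≠ y → z ≠ e →
    (P.filter fun x => A.bis x y z).card ≤ 2 * β P
  conic : ∀ P ∈ C, ∀ x ∈ P, ∀ y, y ≠ x → (P.filter fun z => A.bis x y z).card ≤ 2 * β P ^ 2
  axes : ∀ P ∈ C, A.Axes P (β P) b
  disj : ∀ P ∈ C, ∀ P' ∈ C, P ≠ P' → Disjoint P P'
  off : ∀ P ∈ C, ∀ P' ∈ C, P ≠ P' → ∃ E : Finset X, E.card ≤ 2 * b ^ 2 ∧
    ∀ y ∈ P', y ∉ E → A.Off P (β P + 1) y
  off0 : ∀ P ∈ C, ∃ E : Finset X, (E.card : ℝ) ≤ ν ∧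
    ∀ y ∈ Q \ C.biUnion id, y ∉ E → A.Off P (β P + 1) y
  free0 : ∀ k ≤ b, A.Free (Q \ C.biUnion id) k (2 * b * ν)

open Classical in
/-- triples (pin in `Z`, base in `Y`) whose base has a property -/
def Ari.tb (A : Ari X PL K) (Z Y : Finset X) (H : X → X → Prop) : ℕ :=
  ((Z ×ˢ Y ×ˢ Y).filter fun t => t.2.1 ≠ t.2.2 ∧ A.bis t.1 t.2.1 t.2.2 ∧ H t.2.1 t.2.2).card

open Classical in
/-- the inputs of the count of bad triples -/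
structure Cnt (A : Ari X PL K) (Z : Finset X) (C : Finset (Finset X)) (β : Finset X → ℕ)
    (H : X → X → Prop) (k M n : ℝ) : Prop where
  k_lo : 1 ≤ k
  M_lo : 1 ≤ M
  gen : (ed Z fun y z => H y z ∧ ¬ ∃ P ∈ C, y ∈ P ∧ z ∈ P : ℝ) ≤ 10 * n ^ 2 / k
  same : ∀ P ∈ C, (ed (Z ∩ P) H : ℝ) ≤ (M / β P + 4 / k) * (P.card : ℝ) ^ 2

open Classical in
/-- hot pairs pass to pins, steep bases have few pins, steep lines have few bases -/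
structure Pins (A : Ari X PL K) (Z : Finset X) (H Lw : X → X → Prop) (k : ℝ) : Prop where
  hp : ∀ x ∈ Z, ∀ x' ∈ Z, ∀ y ∈ Z, ∀ z ∈ Z, x ≠ x' → y ≠ z → A.bis x y z → A.bis x' y z →
    H y z → H x x'
  pin : ∀ y ∈ Z, ∀ z ∈ Z, y ≠ z → ¬ Lw y z → ((Z.filter fun x => A.bis x y z).card : ℝ) ≤ k
  mult : ∀ x ∈ Z, ∀ w, w ≠ x → ((Z.filter fun y => ∃ z ∈ Z, y ≠ z ∧ A.bis x y z ∧ A.bis w y z ∧
    ¬ Lw y z).card : ℝ) ≤ k

variable [Fintype PL]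

/-- two clusters in every fibre, indexed by the pin and the label -/
structure Clu (s : Sys X PL) (R : PL → ℝ) (Z : Finset X) (δ : ℝ) (c₁ c₂ : X → ℝ → Finset X) :
    Prop where
  sub₁ : ∀ x l, ∀ y ∈ c₁ x l, y ∈ Z ∧ y ≠ x ∧ s.lab x y = l
  sub₂ : ∀ x l, ∀ y ∈ c₂ x l, y ∈ Z ∧ y ≠ x ∧ s.lab x y = l
  disj : ∀ x l, Disjoint (c₁ x l) (c₂ x l)
  dia₁ : ∀ x l, ∀ y ∈ c₁ x l, ∀ z ∈ c₁ x l, dis s R x y z ≤ 2 * δ
  dia₂ : ∀ x l, ∀ y ∈ c₂ x l, ∀ z ∈ c₂ x l, dis s R x y z ≤ 2 * δ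

/-- edges that lie in no cluster -/
def junk (s : Sys X PL) (Z : Finset X) (c₁ c₂ : X → ℝ → Finset X) : ℕ :=
  ed Z fun x y => y ∉ c₁ x (s.lab x y) ∧ y ∉ c₂ x (s.lab x y)

end defs

/-! ### rows: curves -/

/-- a reflected polynomial and the conic of a pin -/
def SUBS : Prop :=
  ∀ (K : Type) [Field K],
    (∀ (f : MvPolynomial (Fin 2) K) (a b c d : K), ∃ g : MvPolynomial (Fin 2) K, bd g ≤ bd f ∧
      ∀ u v : K, MvPolynomial.eval ![u, v] g = MvPolynomial.eval ![a + b * v, c + d * u] f) ∧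
    ∀ a b t : K, ∃ g : MvPolynomial (Fin 2) K, bd g ≤ 1 ∧
      ∀ u v : K, MvPolynomial.eval ![u, v] g = (u - a) * (v - b) - t

/-- two pins of a base give the reflection, and conversely -/
def REFL : Prop :=
  ∀ (X PL K : Type) [DecidableEq X] [Field K] (A : Ari X PL K), Function.Injective A.U →
    Function.Injective A.V → ∀ (x w y z : X) (r : K), w ≠ x →
    A.U w - A.U x = r * (A.V w - A.V x) →
    (y ≠ z → A.bis x y z → A.bis w y z →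
      A.U z - A.U x = r * (A.V y - A.V x) ∧ r * (A.V z - A.V x) = A.U y - A.U x) ∧
    (A.U z - A.U x = r * (A.V y - A.V x) → r * (A.V z - A.V x) = A.U y - A.U x → A.bis w y z)

open Classical in
/-- a pin on the curve sees few points at one distance -/
def CONIC : Prop :=
  ∀ (X PL K : Type) [DecidableEq X] [Field K] (A : Ari X PL K), Function.Injective A.U →
    Function.Injective A.V → ∀ (f : MvPolynomial (Fin 2) K) (P : Finset X), Irreducible f →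
    1 ≤ bd f → (∀ z ∈ P, A.ev f z = 0) → ∀ x ∈ P, ∀ y, y ≠ x →
    (P.filter fun z => A.bis x y z).card ≤ 2 * bd f ^ 2

/-- axes of symmetry -/
def AXIS : Prop :=
  ∀ (X PL K : Type) [DecidableEq X] [Field K] (A : Ari X PL K), Function.Injective A.U →
    Function.Injective A.V → ∀ (f : MvPolynomial (Fin 2) K) (P : Finset X) (b : ℕ),
    Irreducible f → 1 ≤ bd f → bd f ≤ b → (∀ z ∈ P, A.ev f z = 0) → 3 ≤ P.card →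
    A.Axes P (bd f) b

/-- the classes exist -/
def CLS2 : Prop :=
  ∀ (X PL K : Type) [DecidableEq X] [Field K] (A : Ari X PL K), Function.Injective A.U →
    Function.Injective A.V → ∀ (Q : Finset X) (b : ℕ) (ν : ℝ), 2 ≤ ν →
    ∃ (C : Finset (Finset X)) (β : Finset X → ℕ), Cls2 A Q b ν C β ∧ C.card * ν ≤ Q.card ∧
      ∑ P ∈ C, (P.card : ℝ) ≤ Q.card

/-! ### rows: slopes -/

/-- the slope of a base seen from a pin; symmetries -/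
def APB : Prop :=
  ∀ (X PL K : Type) [DecidableEq X] [Fintype PL] [Field K] (s : Sys X PL) (A : Ari X PL K)
    (η : ℝ) (R : PL → ℝ), A.Good s η → (∀ p, 0 < R p) →
    (∀ x y z, y ≠ z → A.bis x y z → y ≠ x ∧ z ≠ x ∧
      ∀ p, dep s R p y z - dep s R (s.bar p) y z = dep s R p x z - dep s R (s.bar p) x y) ∧
    (∀ y z, slp s R y z = slp s R z y) ∧
    (∀ y z, ∑ p, s.m p * max 0 (dep s R (s.bar p) y z - dep s R p y z) = slp s R y z) ∧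
    ∀ x x' y z, x ≠ x' → y ≠ z → A.bis x y z → A.bis x' y z → slp s R x x' = slp s R y z

/-- three points of a fibre -/
def TRI : Prop :=
  ∀ (X PL K : Type) [DecidableEq X] [Fintype PL] [Field K] (s : Sys X PL) (A : Ari X PL K)
    (η : ℝ) (R : PL → ℝ), A.Good s η → (∀ p, 0 < R p) → ∀ x y₀ y₁ y₂, y₀ ≠ y₁ → y₀ ≠ y₂ →
    y₁ ≠ y₂ → A.bis x y₀ y₁ → A.bis x y₀ y₂ →
    slp s R x y₀ ≤ slp s R y₀ y₁ + slp s R y₀ y₂ + slp s R y₁ y₂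

/-- slope height against double depth; far points of a fibre -/
def FAR : Prop :=
  ∀ (X PL K : Type) [DecidableEq X] [Fintype PL] [Field K] (s : Sys X PL) (A : Ari X PL K)
    (η : ℝ) (Z : Finset X) (R : PL → ℝ) (G : PL → X → ℝ) (W ε : ℝ), A.Good s η →
    Cen s Z R G W ε → ∀ y ∈ Z, ∀ z ∈ Z, y ≠ z →
    W - slp s R y z ≤ del s R y z ∧ slp s R y z ≤ 2 * W ∧
    ∀ x ∈ Z, A.bis x y z → dis s R x y z / 2 - 12 * ε * W ≤ W - slp s R y z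

open Classical in
/-- a steep base has few pins -/
def PIN : Prop :=
  ∀ (X PL K : Type) [DecidableEq X] [Fintype PL] [Field K] (s : Sys X PL) (A : Ari X PL K)
    (η : ℝ) (Z : Finset X) (R : PL → ℝ) (G : PL → X → ℝ) (W ε Λ ν : ℝ), A.Good s η →
    Cen s Z R G W ε → Conc s R Z W ε Λ ν → 2 ≤ Λ → 9 ≤ ν → ∀ y ∈ Z, ∀ z ∈ Z, y ≠ z →
    12 * ε * W < slp s R y z → ((Z.filter fun x => A.bis x y z).card : ℝ) ≤ ν

open Classical in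
/-- a steep line is the bisector of few bases -/
def MULT : Prop :=
  ∀ (X PL K : Type) [DecidableEq X] [Fintype PL] [Field K] (s : Sys X PL) (A : Ari X PL K)
    (η : ℝ) (Z : Finset X) (R : PL → ℝ) (G : PL → X → ℝ) (W ε Λ ν : ℝ), A.Good s η →
    Cen s Z R G W ε → Conc s R Z W ε Λ ν → 2 ≤ Λ → 0 ≤ ν → ∀ x ∈ Z, ∀ w, w ≠ x →
    ((Z.filter fun y => ∃ z ∈ Z, y ≠ z ∧ A.bis x y z ∧ A.bis w y z ∧
      12 * ε * W < slp s R y z).card : ℝ) ≤ ν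

/-! ### rows: counting -/

open Classical in
/-- Cauchy-Schwarz over the bases -/
def CSL : Prop :=
  ∀ (X ι : Type) [DecidableEq X] (Z : Finset X) (B : Finset ι) (a : ι → Finset X)
    (H : X → X → Prop) (β μ : ℝ), 0 ≤ β → 0 ≤ μ → (∀ i ∈ B, a i ⊆ Z) →
    (∀ i ∈ B, ∀ x ∈ a i, (((a i).filter fun x' => x' ≠ x ∧ ¬ H x x').card : ℝ) ≤ 2 * β) →
    (∀ x ∈ Z, ∀ x' ∈ Z, x ≠ x' → ((B.filter fun i => x ∈ a i ∧ x' ∈ a i).card : ℝ) ≤ μ) →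
    ∑ i ∈ B, ((a i).card : ℝ) ≤ (4 * β + 2) * B.card + Real.sqrt (B.card * (2 * μ * ed Z H))

open Classical in
/-- triples on an axis of symmetry -/
def FPX : Prop :=
  ∀ (X PL K : Type) [DecidableEq X] [Field K] (A : Ari X PL K), Function.Injective A.U →
    Function.Injective A.V → ∀ (Z P : Finset X) (β b : ℕ) (H Lw : X → X → Prop) (k : ℝ),
    0 ≤ k → A.Axes P β b → Pins A Z H Lw k →
    (((Z ×ˢ (Z ∩ P) ×ˢ (Z ∩ P)).filter fun t => t.2.1 ≠ t.2.2 ∧ A.bis t.1 t.2.1 t.2.2 ∧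
      ¬ Lw t.2.1 t.2.2 ∧ ∃ x', x' ≠ t.1 ∧ A.bis x' t.2.1 t.2.2 ∧
        2 * β ^ 2 < (A.mir P t.1 x').card).card : ℝ) ≤
      (P.card : ℝ) ^ 2 + Z.card * (2 * (b : ℝ) ^ 2 * k)

/-- bases inside one class of small degree -/
def FPK : Prop :=
  ∀ (X PL K : Type) [DecidableEq X] [Field K] (A : Ari X PL K), Function.Injective A.U →
    Function.Injective A.V → ∀ (Q Z : Finset X) (b : ℕ) (ν : ℝ) (C : Finset (Finset X))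
    (β : Finset X → ℕ) (H Lw : X → X → Prop) (k M n : ℝ), Z ⊆ Q → (Q.card : ℝ) ≤ n →
    ∑ P ∈ C, (P.card : ℝ) ≤ n → Cls2 A Q b ν C β → Cnt A Z C β H k M n → Pins A Z H Lw k →
    ∀ P ∈ C, 4 / k ≤ M / β P →
    (A.tb Z (Z ∩ P) fun y z => H y z ∧ ¬ Lw y z : ℝ) ≤
      (19 * M + 2) * n * P.card + n * (2 * (b : ℝ) ^ 2 * k)

/-- the count of bad triples -/
def FPC : Prop :=
  ∀ (X PL K : Type) [DecidableEq X] [Field K] (A : Ari X PL K), Function.Injective A.U →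
    Function.Injective A.V → ∀ (Q Z : Finset X) (b : ℕ) (ν : ℝ) (C : Finset (Finset X))
    (β : Finset X → ℕ) (H Lw : X → X → Prop) (k M n : ℝ), Z ⊆ Q → (Q.card : ℝ) ≤ n →
    ∑ P ∈ C, (P.card : ℝ) ≤ n → Cls2 A Q b ν C β → Cnt A Z C β H k M n → Pins A Z H Lw k →
    C.card * (2 * (b : ℝ) ^ 2 * k) ≤ n →
    (A.tb Z Z fun y z => H y z ∧ ¬ Lw y z : ℝ) ≤ (20 * M + 30) * n ^ 2

/-- hot edges are few -/
def UNIT : Prop :=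
  ∀ (X PL K : Type) [DecidableEq X] [Field K] (A : Ari X PL K) (lab : X → X → ℝ),
    (∀ x y z, lab x y = lab x z → A.bis x y z) → ∀ (Q Z : Finset X) (b : ℕ) (ν : ℝ)
    (C : Finset (Finset X)) (β : Finset X → ℕ) (H : X → X → Prop) (k M n κ : ℝ), 1 ≤ κ →
    ∑ P ∈ C, (P.card : ℝ) ≤ n → Cls2 A Q b ν C β → Cnt A Z C β H k M n →
    (ed Z H : ℝ) ≤ Phi lab κ Z + (14 / k + 2 * M / κ) * n ^ 2

/-- a large subset with few low pairs -/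
def PICK : Prop :=
  ∀ (X : Type) [DecidableEq X] (C : Finset X) (Lw : X → X → Prop) (ζ c : ℝ), 0 ≤ ζ → ζ ≤ 1 / 2 →
    c ≤ 2 * C.card →
    (∀ y₀ ∈ C, ∀ y₁ ∈ C, ∀ y₂ ∈ C, y₀ ≠ y₁ → y₀ ≠ y₂ → y₁ ≠ y₂ → Lw y₀ y₁ → Lw y₀ y₂ →
      ¬ Lw y₁ y₂) →
    ∃ C' ⊆ C, ζ * c ≤ C'.card ∧ (ed C' Lw : ℝ) ≤ 2 * ζ * (C'.card : ℝ) ^ 2

/-- two clusters and a small rest -/
def CL2 : Prop :=
  ∀ (X : Type) [DecidableEq X] (C : Finset X) (d : X → X → ℝ) (Lw : X → X → Prop) (δ : ℝ),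
    0 < δ → (∀ y, d y y = 0) → (∀ y z w, d y z ≤ d w y + d w z) →
    (∀ y₀ ∈ C, ∀ y₁ ∈ C, ∀ y₂ ∈ C, y₀ ≠ y₁ → y₀ ≠ y₂ → y₁ ≠ y₂ → Lw y₀ y₁ → Lw y₀ y₂ →
      ¬ Lw y₁ y₂) →
    ∃ c₁ ⊆ C, ∃ c₂ ⊆ C, Disjoint c₁ c₂ ∧ (∀ y ∈ c₁, ∀ z ∈ c₁, d y z ≤ 2 * δ) ∧
      (∀ y ∈ c₂, ∀ z ∈ c₂, d y z ≤ 2 * δ) ∧
      ((C \ (c₁ ∪ c₂)).card : ℝ) ≤ 2 * Real.sqrt (ed C fun y z => δ ≤ d y z ∧ ¬ Lw y z)

/-- the clusters of all fibres -/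
def CLG : Prop :=
  ∀ (X PL : Type) [DecidableEq X] [Fintype PL] (s : Sys X PL) (R : PL → ℝ) (Z : Finset X)
    (Un Lw : X → X → Prop) (δ κ : ℝ), (∀ p, 0 ≤ s.m p) → 0 < δ → 1 ≤ κ →
    (∀ x ∈ Z, ∀ y₀ ∈ Z, ∀ y₁ ∈ Z, ∀ y₂ ∈ Z, y₀ ≠ x → y₁ ≠ x → y₂ ≠ x → y₀ ≠ y₁ → y₀ ≠ y₂ →
      y₁ ≠ y₂ → s.lab x y₁ = s.lab x y₀ → s.lab x y₂ = s.lab x y₀ → Lw y₀ y₁ → Lw y₀ y₂ →
      Lw y₁ y₂ → Un x y₀) →
    ∃ c₁ c₂ : X → ℝ → Finset X, Clu s R Z δ c₁ c₂ ∧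
      (junk s Z c₁ c₂ : ℝ) ≤ ed Z Un + 2 * Phi s.lab κ Z +
        (tc s.lab Z fun x y z => δ ≤ dis s R x y z ∧ ¬ Lw y z : ℝ) / κ ^ 2

open Classical in
/-- basic facts on the potential -/
def GFB : Prop :=
  (∀ (κ : ℝ) (a b : ℕ), 0 ≤ κ → a ≤ b → gf κ a ≤ gf κ b) ∧
  (∀ (κ : ℝ) (a b : ℕ), 0 ≤ κ → gf κ (a + b) ≤ gf κ a + gf κ b) ∧
  (∀ (κ : ℝ) (a : ℕ), 0 ≤ κ → 0 ≤ gf κ a ∧ gf κ a ≤ a ∧ min (a : ℝ) (κ ^ 2) ≤ gf κ a) ∧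
  ∀ (X : Type) [DecidableEq X] (lab : X → X → ℝ) (κ : ℝ) (Q : Finset X), 1 ≤ κ →
    (Phi lab κ Q = ∑ x ∈ Q, ∑ l ∈ (Q.erase x).image (lab x),
      gf κ ((Q.erase x).filter fun z => lab x z = l).card) ∧
    (∀ Q' ⊆ Q, Phi lab κ Q' ≤ Phi lab κ Q) ∧ (Zs lab Q : ℝ) ≤ Phi lab κ Q ∧
    (ed Q fun x y => ((fib lab Q x y).card : ℝ) ≤ κ ^ 2 : ℝ) ≤ Phi lab κ Q ∧
    ((Q.card : ℝ) ≤ κ ^ 2 → Phi lab κ Q = Pr Q) ∧
    Phi lab κ Q ^ 2 ≤ κ ^ 2 * (Q.card : ℝ) ^ 2 * Zs lab Q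

/-! ### rows: the top of the block -/

/-- steep means not low at the coarse level -/
def PINS : Prop :=
  ∀ (X PL K : Type) [DecidableEq X] [Fintype PL] [Field K] (s : Sys X PL) (A : Ari X PL K)
    (η : ℝ) (Z₀ Z : Finset X) (R₀ R : PL → ℝ) (G₀ : PL → X → ℝ) (W₀ ε₀ Λ₀ k t : ℝ), A.Good s η →
    Cen s Z₀ R₀ G₀ W₀ ε₀ → Conc s R₀ Z₀ W₀ ε₀ Λ₀ k → 2 ≤ Λ₀ → 9 ≤ k → Z ⊆ Z₀ → (∀ p, 0 < R p) →
    Pins A Z (fun y z => slp s R y z ≤ t) (fun y z => slp s R₀ y z ≤ 12 * ε₀ * W₀) k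

/-- edges of unit slope are few -/
def UEDGE : Prop :=
  ∀ (X PL K : Type) [DecidableEq X] [Fintype PL] [Field K] (s : Sys X PL) (A : Ari X PL K)
    (η : ℝ) (Z₀ Z : Finset X) (R₀ : PL → ℝ) (G₀ : PL → X → ℝ) (W₀ ε₀ : ℝ) (b : ℕ) (ν : ℝ)
    (C : Finset (Finset X)) (β : Finset X → ℕ) (t₀ k M₀ n κ : ℝ), A.Good s η →
    Cen s Z₀ R₀ G₀ W₀ ε₀ → Z ⊆ Z₀ → Cls2 A Z₀ b ν C β → ∑ P ∈ C, (P.card : ℝ) ≤ n →
    Cnt A Z C β (fun y z => t₀ ≤ del s R₀ y z) k M₀ n → 2 * t₀ ≤ W₀ → 1 ≤ κ →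
    (ed Z fun x y => slp s R₀ x y ≤ 36 * ε₀ * W₀ : ℝ) ≤
      Phi s.lab κ Z + (14 / k + 2 * M₀ / κ) * n ^ 2

/-- the two clusters with a small rest: the output of part D -/
def DTOP : Prop :=
  ∀ (X PL K : Type) [DecidableEq X] [Fintype PL] [Field K] (s : Sys X PL) (A : Ari X PL K)
    (η : ℝ) (Z₀ Z : Finset X) (R₀ R : PL → ℝ) (G₀ G : PL → X → ℝ) (W₀ ε₀ Λ₀ W ε c : ℝ) (b : ℕ)
    (ν : ℝ) (C : Finset (Finset X)) (β : Finset X → ℕ) (t₀ k M₀ M n κ : ℝ), A.Good s η →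
    Cen s Z₀ R₀ G₀ W₀ ε₀ → Conc s R₀ Z₀ W₀ ε₀ Λ₀ k → 2 ≤ Λ₀ → 9 ≤ k → Z ⊆ Z₀ →
    (Z₀.card : ℝ) ≤ n → Cen s Z R G W ε → 72 * ε ≤ c → Cls2 A Z₀ b ν C β →
    ∑ P ∈ C, (P.card : ℝ) ≤ n → C.card * (2 * (b : ℝ) ^ 2 * k) ≤ n →
    Cnt A Z C β (fun y z => t₀ ≤ del s R₀ y z) k M₀ n → 2 * t₀ ≤ W₀ →
    Cnt A Z C β (fun y z => c * W / 3 ≤ del s R y z) k M n → 1 ≤ κ →
    ∃ c₁ c₂ : X → ℝ → Finset X, Clu s R Z (c * W) c₁ c₂ ∧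
      (junk s Z c₁ c₂ : ℝ) ≤ 3 * Phi s.lab κ Z +
        (14 / k + 2 * M₀ / κ + (20 * M + 30) / κ ^ 2) * n ^ 2

end Pool.Agent.MP_6c3157_co.PQ
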