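import Pool.Agent.MP_6c3157_co.PQ.SpecC
import Pool.Agent.MP_6c3157_co.PQ.SpecD

/-! Project PQ: bridge between the parts C and D. -/

set_option autoImplicit false
set_option linter.unusedSectionVars false

noncomputable section

namespace Pool.Agent.MP_6c3157_co.PQ

open Finset Pool.Agent.MP_6c3157_co.PD

/-- the counts of hot pairs from the clean model -/
def CNT : Prop :=
  ∀ (X PL K : Type) [DecidableEq X] [Fintype PL] [Field K] (s : Sys X PL) (A : Ari X PL K)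
    (η : ℝ) (Z : Finset X) (R : PL → ℝ) (G : PL → X → ℝ) (W ε Λ ns c r : ℝ), A.Good s η →
    Cen s Z R G W ε → Conc s R Z W ε Λ ns → Prc c r ε Λ →
    ∀ (Q : Finset X) (C : Finset (Finset X)) (β : Finset X → ℕ) (b : ℕ) (ν e k n : ℝ),
    Cls2 A Q b ν C β → Z ⊆ Q → (Q.card : ℝ) ≤ n → 0 < e → 1 ≤ k → 11 * e * k ≤ 10 → 1 ≤ b →
    0 ≤ ν → Big (e ^ 20 * ν) r ns n (2 * (b : ℝ) ^ 2) b → 2 * b * ν * (b + 1) ≤ e ^ 20 * n →
    ν ≤ e * n → 4800 ≤ c * b * e → ∀ Z' ⊆ Z,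
    Cnt A Z' C β (fun y z => c * W ≤ del s R y z) k (4800 / c) n

theorem Cnt.ed_mono {X : Type} [DecidableEq X] {Z Z' : Finset X} (h : Z' ⊆ Z) (H : X → X → Prop) :
    ed Z' H ≤ ed Z H := by
  classical
  unfold ed
  refine card_le_card fun e he => ?_
  rw [mem_filter, mem_product] at he ⊢
  exact ⟨⟨h he.1.1, h he.1.2⟩, he.2⟩

theorem cnt (hG : GEN) : CNT := by
  classical
  intro X PL K _ _ _ s A η Z R G W ε Λ ns c r hA hC hO hP Q C β b ν e k n hK hZ hn he hk hek hb hν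
    hB h1 h2 h3 Z' hZ'
  have he1 : e ≤ 1 := by nlinarith
  have hk0 : 0 < k := by linarith
  have hc := hP.c_pos
  obtain ⟨g1, g2⟩ := hG X PL K s A η Z R G W ε Λ ns c r hA hC hO hP Q C β b ν e n
    ⟨hK.sub, hK.big, hK.b_lo, hK.b_hi, hK.free, hK.disj, hK.off, hK.free0, hK.off0⟩ hZ hn he he1 hb
    hν hB h1 h2 h3
  have hek' : 11 * e ≤ 10 / k := by rw [le_div_iff₀ hk0]; exact hek
  refine ⟨hk, ?_, ?_, fun P hP' => ?_⟩
  · rw [le_div_iff₀ hc]; linarith [hP.c_le]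
  · have h4 : (ed Z' fun y z => c * W ≤ del s R y z ∧ ¬ ∃ P ∈ C, y ∈ P ∧ z ∈ P : ℝ) ≤
        (ed Z fun y z => c * W ≤ del s R y z ∧ ¬ ∃ P ∈ C, y ∈ P ∧ z ∈ P : ℝ) := by
      exact_mod_cast Cnt.ed_mono hZ' _
    have h5 : (ed Z fun y z => c * W ≤ del s R y z ∧ ¬ ∃ P ∈ C, y ∈ P ∧ z ∈ P : ℝ) ≤
        11 * e * n ^ 2 := by
      refine le_trans (Nat.cast_le.2 ?_) g1
      unfold ed
      exact card_le_card fun e he => by simp only [mem_filter] at he ⊢; exact he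
    have h6 : 11 * e * n ^ 2 ≤ 10 / k * n ^ 2 := mul_le_mul_of_nonneg_right hek' (sq_nonneg n)
    have h7 : 10 / k * n ^ 2 = 10 * n ^ 2 / k := by ring
    linarith
  · have h4 : (ed (Z' ∩ P) fun y z => c * W ≤ del s R y z : ℝ) ≤
        (ed (Z ∩ P) fun y z => c * W ≤ del s R y z : ℝ) := by
      exact_mod_cast Cnt.ed_mono (inter_subset_inter hZ' Subset.rfl) _
    have h5 : (ed (Z ∩ P) fun y z => c * W ≤ del s R y z : ℝ) = eB s R (c * W) (Z ∩ P) (Z ∩ P) := by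
      unfold ed eB
      exact congrArg _ (congrArg card (Finset.ext fun e => by simp only [mem_filter]))
    have h6 := g2 P hP'
    have h7 : 4 * e ≤ 4 / k := by
      rw [le_div_iff₀ hk0]; nlinarith
    have h8 : 4800 / (c * β P) = 4800 / c / β P := by rw [div_div]
    have h9 : (4800 / (c * β P) + 4 * e) * (P.card : ℝ) ^ 2 ≤
        (4800 / c / β P + 4 / k) * (P.card : ℝ) ^ 2 :=
      mul_le_mul_of_nonneg_right (by linarith) (sq_nonneg _)
    linarith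

end Pool.Agent.MP_6c3157_co.PQ
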