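import Pool.Agent.MP_6c3157_co.PQ.SpecJ
import Pool.Agent.MP_6c3157_co.PQ.Cnt

/-! Project PQ: the count of hot pairs with the numbers of the step. -/

set_option autoImplicit false

namespace Pool.Agent.MP_6c3157_co.PQ

open Finset Pool.Agent.MP_6c3157_co.PD

theorem cnq (hG : GEN) : CNQ := by
  intro X PL K _ _ _ s A η Q Z₀ Z q C β R G W ε ns c r hA hZ hZ₀ hL hC hO hc hc1 hr h1 h2 hq hn
    hns h3 h4
  have he := hC.e_pos
  set x : ℝ := (q : ℝ) with hx
  set n : ℝ := (Q.card : ℝ) with hn'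
  have x2 : (2 : ℝ) ^ 22 ≤ x := le_trans (by norm_num) hq
  have x1 : (1 : ℝ) ≤ x := le_trans (by norm_num) x2
  have x0 : (0 : ℝ) < x := by linarith
  have n0 : 0 < n := lt_of_lt_of_le (by positivity) hn
  have r1 : r ≤ 1 := by nlinarith
  have r2 : r ^ 40 ≤ r ^ 20 := pow_le_pow_of_le_one hr.le r1 (by norm_num)
  have r3 : c * r ^ 40 ≤ r ^ 40 := mul_le_of_le_one_left (by positivity) hc1
  have pw : ∀ i j : ℕ, i ≤ j → x ^ i ≤ x ^ j := fun i j h => pow_le_pow_right₀ x1 h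
  have t0 : (1 / (2 * x ^ 2)) ^ 20 * (n / x ^ 48) = n / (2 ^ 20 * x ^ 88) := by
    field_simp
  have xx : (2 : ℝ) ^ 20 ≤ x ^ 2 := by nlinarith
  have t1 : n / x ^ 90 ≤ n / (2 ^ 20 * x ^ 88) := by
    refine div_le_div_of_nonneg_left n0.le (by positivity) ?_
    have : x ^ 90 = x ^ 2 * x ^ 88 := by ring
    rw [this]
    exact mul_le_mul_of_nonneg_right xx (by positivity)
  have t2 : x ^ 310 ≤ n / x ^ 90 := by
    rw [le_div_iff₀ (by positivity)]
    calc x ^ 310 * x ^ 90 = x ^ 400 := by ring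
      _ ≤ n := hn
  have hb : ((q ^ 3 : ℕ) : ℝ) = x ^ 3 := by push_cast; rfl
  have x4 : 4 * x ^ 9 ≤ x ^ 10 := by
    have : x ^ 10 = x * x ^ 9 := by ring
    rw [this]
    exact mul_le_mul_of_nonneg_right (by linarith) (by positivity)
  refine cnt hG X PL K s A η Z R G W ε (1 / ε) ns c r hA hC hO ⟨hc, hc1, hr, h1, h2, ?_⟩ Z₀ C β
    (q ^ 3) (n / x ^ 48) (1 / (2 * x ^ 2)) (x ^ 2) n hL.cls hZ
    (Nat.cast_le.2 (card_le_card hZ₀)) (by positivity) (one_le_pow₀ x1) ?_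
    (Nat.one_le_pow _ _ (Nat.cast_pos.1 x0)) (by positivity) ⟨?_, ?_, ?_, ?_⟩ ?_ ?_ ?_ Z
    Subset.rfl
  · rw [one_div, inv_mul_eq_div, le_div_iff₀ he]; linarith
  · have : 11 * (1 / (2 * x ^ 2)) * x ^ 2 = 11 / 2 := by field_simp
    rw [this]; norm_num
  · rw [t0, hb]
    have a1 : 2 * (x ^ 3) ^ 2 * (x ^ 3 + 1) = 2 * x ^ 9 + 2 * x ^ 6 := by ring
    have a2 := pw 6 9 (by norm_num)
    have a3 := pw 10 310 (by norm_num)
    linarith
  · rw [t0]
    refine le_trans ?_ t1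
    rw [le_div_iff₀ (by positivity)]
    exact hns
  · rw [t0]
    refine le_trans ?_ (pow_le_pow_left₀ (by positivity) t1 2)
    rw [div_pow, le_div_iff₀ (by positivity), sq n]
    have a1 : 4 * (x ^ 90) ^ 2 ≤ n := by
      have a2 : 4 * (x ^ 90) ^ 2 ≤ x * x ^ 180 := by
        have : (x ^ 90) ^ 2 = x ^ 180 := by ring
        rw [this]
        exact mul_le_mul_of_nonneg_right (by linarith) (by positivity)
      have a3 : x * x ^ 180 = x ^ 181 := by ring
      have a4 := pw 181 400 (by norm_num)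
      linarith
    calc 4 * n * (x ^ 90) ^ 2 = 4 * (x ^ 90) ^ 2 * n := by ring
      _ ≤ n * n := mul_le_mul_of_nonneg_right a1 n0.le
  · rw [t0]
    have a1 : 2 * x ≤ n / (2 ^ 20 * x ^ 88) := by
      have a2 : 2 * x ≤ x ^ 2 := by nlinarith
      have a3 := pw 2 310 (by norm_num)
      linarith
    have a2 : r ^ 20 * (2 * x) ≤ r ^ 20 * (n / (2 ^ 20 * x ^ 88)) :=
      mul_le_mul_of_nonneg_left a1 (by positivity)
    linarith
  · rw [hb]
    have a1 : 2 * x ^ 3 * (n / x ^ 48) * (x ^ 3 + 1) = (2 * (x ^ 3 + 1) / x ^ 45) * n := by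
      field_simp
    have a2 : (1 / (2 * x ^ 2)) ^ 20 = 1 / (2 ^ 20 * x ^ 40) := by field_simp
    rw [a1, a2]
    refine mul_le_mul_of_nonneg_right ?_ n0.le
    rw [div_le_div_iff₀ (by positivity) (by positivity)]
    have a3 : x ^ 3 + 1 ≤ 2 * x ^ 3 := by linarith [one_le_pow₀ (n := 3) x1]
    have a4 : 2 * (x ^ 3 + 1) * (2 ^ 20 * x ^ 40) ≤ 2 * (2 * x ^ 3) * (2 ^ 20 * x ^ 40) :=
      mul_le_mul_of_nonneg_right (by linarith) (by positivity)
    have a5 : 2 * (2 * x ^ 3) * (2 ^ 20 * x ^ 40) = 2 ^ 22 * x ^ 43 := by ring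
    have a6 : 2 ^ 22 * x ^ 43 ≤ x * x ^ 43 := mul_le_mul_of_nonneg_right x2 (by positivity)
    have a7 : x * x ^ 43 = x ^ 44 := by ring
    have a8 := pw 44 45 (by norm_num)
    linarith
  · rw [div_eq_mul_one_div, mul_comm]
    refine mul_le_mul_of_nonneg_right (one_div_le_one_div_of_le (by positivity) ?_) n0.le
    have a1 : 2 * x ^ 2 ≤ x * x ^ 2 := mul_le_mul_of_nonneg_right (by linarith) (by positivity)
    have a2 : x * x ^ 2 = x ^ 3 := by ring
    have a3 := pw 3 48 (by norm_num)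
    linarith
  · rw [hb]
    have : c * x ^ 3 * (1 / (2 * x ^ 2)) = c * x / 2 := by field_simp
    rw [this]; linarith

end Pool.Agent.MP_6c3157_co.PQ
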