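import Pool.Agent.MP_6c3157_co.PQ.SpecJ
import Pool.Agent.MP_6c3157_co.PD.Geo
import Pool.Agent.MP_6c3157_co.PD.Dg
import Pool.Agent.MP_6c3157_co.PD.Dq
import Pool.Agent.MP_6c3157_co.PD.Fib
import Pool.Agent.MP_6c3157_co.PD.Bone
import Pool.Agent.MP_6c3157_co.PD.Bones

/-! Project PQ, row FINAL: the end of the step. -/

set_option autoImplicit false
set_option linter.unusedSectionVars false

noncomputable section

namespace Pool.Agent.MP_6c3157_co.PQ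

open Finset Pool.Agent.MP_6c3157_co.PD

namespace Final

theorem num1 {f q κ u : ℝ} (hu : 0 < u) (hq : 10 ^ 100 ≤ q) (hκ : 1 ≤ κ) (h1 : 1 ≤ u ^ 2 * κ)
    (h2 : 10 ^ 100 ≤ f * q) (h3 : 10 ^ 100 ≤ f * κ) :
    14 / q ^ 2 + 2 * 9600 / κ + (20 * (4800 / (u ^ 2 / 3)) + 30) / κ ^ 2 ≤ 3 * f := by
  have q0 : 0 < q := lt_of_lt_of_le (by norm_num) hq
  have k0 : 0 < κ := by linarith
  have a1 : 14 / q ^ 2 ≤ f := by
    rw [div_le_iff₀ (by positivity)]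
    nlinarith
  have a2 : 2 * 9600 / κ ≤ f := by
    rw [div_le_iff₀ k0]; linarith
  have a3 : 4800 / (u ^ 2 / 3) ≤ 14400 * κ := by
    rw [div_le_iff₀ (by positivity)]; nlinarith
  have a4 : (20 * (4800 / (u ^ 2 / 3)) + 30) / κ ^ 2 ≤ f := by
    rw [div_le_iff₀ (by positivity)]
    nlinarith
  linarith

theorem num2 {c n q z : ℝ} (hq : 10 ^ 100 ≤ q) (hn : q ^ 400 ≤ n) (hc : c * (n / q ^ 48) ≤ z)
    (hz : z ≤ n) : c * (2 * (q ^ 3) ^ 2 * q ^ 2) ≤ n := by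
  have q1 : (1 : ℝ) ≤ q := le_trans (by norm_num) hq
  have q0 : 0 < q := by linarith
  have n0 : 0 < n := lt_of_lt_of_le (by positivity) hn
  have h1 : c ≤ q ^ 48 := by
    have h := hc.trans hz
    rw [← mul_div_assoc, div_le_iff₀ (by positivity)] at h
    exact le_of_mul_le_mul_right (by linarith) n0
  have h2 : q ^ 57 ≤ q ^ 400 := pow_le_pow_right₀ q1 (by norm_num)
  have h3 : c * (2 * (q ^ 3) ^ 2 * q ^ 2) ≤ q ^ 48 * (q * (q ^ 3) ^ 2 * q ^ 2) := by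
    have : (2 : ℝ) ≤ q := le_trans (by norm_num) hq
    calc c * (2 * (q ^ 3) ^ 2 * q ^ 2) ≤ q ^ 48 * (2 * (q ^ 3) ^ 2 * q ^ 2) := by gcongr
      _ ≤ _ := by gcongr
  have h4 : q ^ 48 * (q * (q ^ 3) ^ 2 * q ^ 2) = q ^ 57 := by ring
  linarith

theorem num3 {θ u q σ m T : ℝ} (hq : 10 ^ 100 ≤ q) (hu : u ≤ θ) (h1 : 1 ≤ u * q) (hσ : 0 < σ)
    (h2 : q ^ 100 ≤ σ * m) (hT : 0 ≤ T) (hθ : 0 < θ) : 7 * T / σ ≤ θ / 100 * T * m := by
  have q1 : (1 : ℝ) ≤ q := le_trans (by norm_num) hq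
  have a1 : q ^ 2 ≤ q ^ 100 := pow_le_pow_right₀ q1 (by norm_num)
  have a2 : 1 ≤ θ * q := h1.trans (mul_le_mul_of_nonneg_right hu (by linarith))
  have a3 : 700 ≤ θ * (σ * m) := by
    have b1 : θ * q ^ 2 ≤ θ * (σ * m) := mul_le_mul_of_nonneg_left (a1.trans h2) hθ.le
    have b2 : 1 * q ≤ θ * q * q := mul_le_mul_of_nonneg_right a2 (by linarith)
    have b3 : (700 : ℝ) ≤ q := le_trans (by norm_num) hq
    nlinarith
  rw [div_le_iff₀ hσ]
  nlinarith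

theorem num4 {f g n z P : ℝ} (hf : 0 < f) (hg : 1000 * f ≤ g) (hn : 10 ≤ n) (hz : 3 * n ≤ 5 * z)
    (hP : P ≤ f * n ^ 2) (h : g * (z * (z - 1)) ≤ 11 / 10 * (3 * P + 3 * f * n ^ 2 + 2 * P)) :
    False := by
  have a1 : 3 / 10 * n ^ 2 ≤ z * (z - 1) := by nlinarith
  have a2 : 1000 * f * (3 / 10 * n ^ 2) ≤ g * (z * (z - 1)) :=
    mul_le_mul hg a1 (by positivity) (by linarith)
  have a3 : 0 < f * n ^ 2 := by positivity
  nlinarith

end Final

theorem final (hD : DTOP) (hJ : JUMP2) (hM : PHM) (hP : PHI) (hN : NUMJ) : FINAL := by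
  intro X PL K _ _ _ s A η κ a e Q Y h T q σ₁ u σ₃ n₀ γ j Z₀ Z R₀ L₀ R L G₀ G W₀ W Λ ns C β
    hi h0 hc hZ hz hcl c0 c1
  have par := hi.par
  have stp := hi.stp
  have e0 := hi.e_pos
  obtain ⟨ue, u1, f1, q1, k1, uq, uk, fq, fk, m1, m2⟩ :=
    hN e a Q.card κ q σ₁ u σ₃ n₀ γ j e0 hi.e_le par
  have e1 : e ≤ 1 / 100 := hi.e_le.trans (by norm_num)
  have u0 := par.u_pos
  have u2 : u ≤ 1 / 1000 := u1.trans (by norm_num)
  have q2 : (1 : ℝ) ≤ q := le_trans (by norm_num) q1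
  have q3 : (10 : ℝ) ≤ q := le_trans (by norm_num) q1
  have dsc := h0.disc
  have θ0 : 0 < e ^ 122 := pow_pos e0 _
  have θ1 : e ^ 122 ≤ 1 / 100 := (pow_le_of_le_one e0.le (by linarith) (by norm_num)).trans e1
  generalize e ^ 122 = θ at par stp dsc θ0 θ1
  have hZY : Z ⊆ Y := hZ.trans h0.sub
  have hZQ : Z ⊆ Q := hZY.trans stp.sub
  have z0 : (Z₀.card : ℝ) ≤ Q.card := by exact_mod_cast card_le_card (h0.sub.trans stp.sub)
  have z1 : (Z.card : ℝ) ≤ Q.card := by exact_mod_cast card_le_card hZQ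
  have p3 : u ^ 90 ≤ u ^ 3 := pow_le_pow_of_le_one u0.le (by linarith) (by norm_num)
  have p2 : u ^ 3 ≤ u ^ 2 / 1000 := by nlinarith [sq_nonneg u]
  have p1 : u ^ 2 ≤ u / 1000 := by nlinarith
  have uk2 : 1 ≤ u ^ 2 * κ := uk.trans (mul_le_mul_of_nonneg_right
    (pow_le_pow_of_le_one u0.le (by linarith) (by norm_num)) (by linarith))
  have uq1 : 1 ≤ u * q := uq.trans (mul_le_mul_of_nonneg_right
    (pow_le_of_le_one u0.le (by linarith) (by norm_num)) (by linarith))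
  have cw : u ^ 2 / 3 * W = u ^ 2 * W / 3 := by ring
  rw [cw] at c1
  obtain ⟨c₁, c₂, hcu, hju⟩ := hD X PL K s A η Z₀ Z R₀ R G₀ G W₀ e (1 / e) W (u ^ 90) (u ^ 2)
    (q ^ 3) (Q.card / (q : ℝ) ^ 48) C β (1 / 2 * W₀) ((q : ℝ) ^ 2) 9600 (4800 / (u ^ 2 / 3))
    Q.card κ hi.ari h0.cln.cen h0.cln.conc (by rw [le_div_iff₀ e0]; linarith) (by nlinarith) hZ z0
    hcl.cen (by nlinarith [sq_nonneg u]) hc.cls (hc.tot.trans z0)
    (by push_cast; exact Final.num2 q1 par.q_hi hc.num z0) c0 (by linarith) c1 k1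
  have j1 := mul_le_mul_of_nonneg_right (Final.num1 u0 q1 k1 uk2 fq fk) (sq_nonneg (Q.card : ℝ))
  obtain ⟨b1, b2⟩ := hM.2 X s.lab κ a Q par.a_lo (by linarith) hi.bad
  have b3 := (hP X s.lab κ Q k1).1 Z hZQ
  have T0 : 0 ≤ T := by linarith [stp.ctx.Tlo]
  have yb : 3 * (Q.card : ℝ) ≤ 4 * Y.card := by exact_mod_cast stp.big
  have s3 := par.s3_pos
  have nY : n₀ ≤ Y.card := by
    have a1 : (q : ℝ) ≤ (q : ℝ) ^ 40 := le_self_pow₀ q2 (by norm_num)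
    have a2 : n₀ * 10 ≤ n₀ * (q : ℝ) ^ 40 := mul_le_mul_of_nonneg_left (by linarith) (by linarith)
    linarith [par.n0_le]
  have dg1 := (bones (dg qr) (bone dq) fibs X PL s (heavy Q) Y h T σ₃ stp.ctx (by
    have a1 : (q : ℝ) ≤ (q : ℝ) ^ 100 := le_self_pow₀ q2 (by norm_num)
    have a2 := mul_le_mul_of_nonneg_left nY s3.le
    linarith [par.s3_n0]) (by linarith [par.s3_le, par.s1_le])).1
  have s1 : 0 ≤ σ₁ := s3.le.trans par.s3_le
  have key := hJ X PL s (heavy Q) Y Z R L G W (u ^ 90) Λ ns T κ u θ σ₁ σ₃ (ph a n₀) n₀ γ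
    (3 * Phi s.lab κ Z + 3 * ph a Q.card * (Q.card : ℝ) ^ 2) j c₁ c₂ hi.ari.good hcl hZY
    (by linarith) u0 (by linarith) (by nlinarith [sq_nonneg u]) (by linarith [par.u_le])
    (by linarith) s1 (by linarith) par.ga_lo (by linarith [par.gain, par.ph_pos])
    (par.ga_s _ (by linarith) (by linarith)) (by linarith [par.uj]) (by
      refine le_trans (mul_le_mul (pow_le_pow_left₀ (by linarith) (by linarith) j)
        (Real.rpow_le_rpow (by positivity) (div_le_div_of_nonneg_right z1 (by linarith))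
          par.ga_lo) (by positivity) (pow_nonneg (by linarith) j)) (par.jmp.trans (by norm_num)))
    stp.t1 (by
      refine stp.t2.trans (mul_le_mul_of_nonneg_right (mul_le_mul_of_nonneg_right ?_ T0)
        (sq_nonneg _))
      have : θ ^ 11000 ≤ θ ^ 2 := pow_le_pow_of_le_one θ0.le (by linarith) (by norm_num)
      nlinarith)
    (fun B hB => dsc B (hB.trans hZ))
    (fun y hy => (dg1 y (hZY hy)).trans (Final.num3 q1 par.u_le uq1 s3 par.s3_n0 T0 θ0))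
    (fun S _ hS => b2 n₀ m1 m2 S hS) hcu (by linarith)
  refine Final.num4 par.ph_pos par.gain ?_ (by exact_mod_cast hz) (b3.trans b1) key
  have a1 : (q : ℝ) ≤ (q : ℝ) ^ 400 := le_self_pow₀ q2 (by norm_num)
  linarith [par.q_hi]

end Pool.Agent.MP_6c3157_co.PQ
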