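import Pool.Agent.MP_6c3157_co.PQ.SpecC

/-! Project PQ, row GEN: pairs outside the classes and inside each class. -/

set_option autoImplicit false
set_option linter.unusedSectionVars false

noncomputable section

namespace Pool.Agent.MP_6c3157_co.PQ

open Finset Pool.Agent.MP_6c3157_co.PD

namespace Gen

variable {X PL : Type} [DecidableEq X] [Fintype PL] {s : Sys X PL} {R : PL → ℝ} {t : ℝ}

open Classical in
/-- the hot pairs -/
def hp (s : Sys X PL) (R : PL → ℝ) (t : ℝ) (A B : Finset X) : Finset (X × X) :=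
  (A ×ˢ B).filter fun e => e.1 ≠ e.2 ∧ t ≤ del s R e.1 e.2

theorem card_hp (A B : Finset X) : (hp s R t A B).card = eB s R t A B := rfl

theorem mem_hp {A B : Finset X} {e : X × X} :
    e ∈ hp s R t A B ↔ (e.1 ∈ A ∧ e.2 ∈ B) ∧ e.1 ≠ e.2 ∧ t ≤ del s R e.1 e.2 := by
  unfold hp; simp only [mem_filter, mem_product]

theorem del_symm (hs : s.Good) (x y : X) : del s R x y = del s R y x := by
  unfold del dd dep
  exact sum_congr rfl fun p _ => by rw [(hs.good p).d_symm x y, (hs.good (s.bar p)).d_symm x y]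

theorem symm (hs : s.Good) (A B : Finset X) : eB s R t A B ≤ eB s R t B A := by
  rw [← card_hp, ← card_hp]
  refine card_le_card_of_injOn Prod.swap (fun e he => ?_) (Prod.swap_injective.injOn)
  rw [mem_coe, mem_hp] at he ⊢
  exact ⟨⟨he.1.2, he.1.1⟩, he.2.1.symm, by rw [Prod.fst_swap, Prod.snd_swap, del_symm hs]; exact he.2.2⟩

theorem drop (A B E : Finset X) : eB s R t A B ≤ eB s R t A (B \ E) + A.card * E.card := by
  rw [← card_hp, ← card_hp, ← card_product]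
  refine (card_le_card fun e he => ?_).trans (card_union_le _ _)
  rw [mem_hp] at he
  rw [mem_union, mem_hp, mem_product, mem_sdiff]
  by_cases h : e.2 ∈ E
  · exact Or.inr ⟨he.1.1, h⟩
  · exact Or.inl ⟨⟨he.1.1, he.1.2, h⟩, he.2⟩

theorem free {K : Type} [Field K] {A : Ari X PL K} {T T' : Finset X} {k : ℕ} {ν : ℝ}
    (h : A.Free T k ν) (hT : T' ⊆ T) : A.Free T' k ν := by
  classical
  intro u v f hf
  refine le_trans (Nat.cast_le.2 (card_le_card fun z hz => ?_)) (h u v f hf)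
  simp only [mem_filter] at hz ⊢
  exact ⟨hT hz.1, hz.2⟩

theorem off {K : Type} [Field K] {A : Ari X PL K} {T T' : Finset X} {k : ℕ} {y : X}
    (h : A.Off T k y) (hT : T' ⊆ T) : A.Off T' k y := fun u v =>
  (h u v).imp fun _ hf => ⟨fun z hz => hf.1 z (hT hz), hf.2⟩

theorem big {t t' r ns n ν ν' : ℝ} {b b' : ℕ} (h : Big t r ns n ν b) (h0 : 0 ≤ t) (ht : t ≤ t')
    (hf : ν' * (b' + 1) ≤ t') : Big t' r ns n ν' b' := by
  have h2 := h.two
  have h3 : 0 ≤ r ^ 20 := by positivity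
  exact ⟨hf, h.conc.trans ht, h.sq.trans (pow_le_pow_left₀ h0 ht 2),
    h2.trans (mul_le_mul_of_nonneg_left ht h3)⟩

end Gen

open Gen

theorem gen (h1 : RARE) (h2 : SAME) : GEN := by
  classical
  intro X PL K _ _ _ s A η Z R G W ε Λ ns c r hA hC hO hP Q C β b ν e n hK hZ hn he he1 hb hν hB
    hf hνe hcb
  have hs := hA.good
  have hZn : (Z.card : ℝ) ≤ n := (Nat.cast_le.2 (card_le_card hZ)).trans hn
  have n0 : 0 ≤ n := (Nat.cast_nonneg _).trans hn
  have e20 : 0 < e ^ 20 := by positivity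
  have e21 : e ^ 20 ≤ e := pow_le_of_le_one he.le he1 (by norm_num)
  have b1 : (1 : ℝ) ≤ b := by exact_mod_cast hb
  have t0 : 0 ≤ e ^ 20 * ν := by positivity
  have cI : ∀ P : Finset X, ((Z ∩ P).card : ℝ) ≤ P.card := fun P =>
    Nat.cast_le.2 (card_le_card inter_subset_right)
  have fP : ∀ P ∈ C, ∀ P' ∈ C, 2 * (b : ℝ) ^ 2 * (β P + 1) ≤ e ^ 20 * P'.card := by
    intro P hPC P' hP'
    have a1 : (β P : ℝ) ≤ b := by exact_mod_cast hK.hi P hPC
    have a2 := hB.free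
    have a3 := mul_le_mul_of_nonneg_left (hK.big P' hP').le e20.le
    nlinarith [sq_nonneg (b : ℝ)]
  have bP : ∀ P ∈ C, Big (e ^ 20 * P.card) r ns n (2 * (b : ℝ) ^ 2) (β P) := fun P hPC =>
    big hB t0 (mul_le_mul_of_nonneg_left (hK.big P hPC).le e20.le) (fP P hPC P hPC)
  refine ⟨?_, fun P hPC => h2 X PL K s A η Z R G W ε Λ ns c r hA hC hO hP (Z ∩ P) (β P) e P.card
    (2 * (b : ℝ) ^ 2) n inter_subset_left hZn he he1 (cI P) (hK.lo P hPC) (by positivity)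
    (fun k hk => free (hK.free P hPC k hk) inter_subset_right) (bP P hPC)⟩
  set P₀ := Q \ C.biUnion id with hP₀
  have c0 : ((Z ∩ P₀).card : ℝ) ≤ n := (Nat.cast_le.2 (card_le_card inter_subset_left)).trans hZn
  have sC : ∑ P ∈ C, (P.card : ℝ) ≤ n := by
    rw [← Nat.cast_sum]
    refine le_trans (Nat.cast_le.2 ?_) hn
    have := card_biUnion (s := C) (t := id) fun P hP' P' hP'' h => hK.disj P hP' P' hP'' h
    simp only [id] at this
    rw [← this]
    exact card_le_card (biUnion_subset.2 hK.sub)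
  have g0 : (eB s R (c * W) (Z ∩ P₀) (Z ∩ P₀) : ℝ) ≤ 5 * e * n ^ 2 := by
    have a0 : ν ≤ n := hνe.trans (mul_le_of_le_one_left n0 he1)
    refine (h2 X PL K s A η Z R G W ε Λ ns c r hA hC hO hP (Z ∩ P₀) b e n (2 * b * ν) n
      inter_subset_left hZn he he1 c0 hb (by positivity)
      (fun k hk => free (hK.rest k hk) inter_subset_right)
      (big hB t0 (mul_le_mul_of_nonneg_left a0 e20.le) hf)).trans ?_
    have a1 : 4800 / (c * b) ≤ e := by
      rw [div_le_iff₀ (mul_pos hP.c_pos (by linarith))]; linarith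
    exact mul_le_mul_of_nonneg_right (by linarith) (sq_nonneg n)
  have g1 : ∀ P ∈ C, (eB s R (c * W) (Z ∩ P) (Z ∩ P₀) : ℝ) ≤ 2 * e * n * P.card := by
    intro P hPC
    obtain ⟨E, hE, hoff⟩ := hK.off0 P hPC
    have a1 : (β P : ℝ) ≤ b := by exact_mod_cast hK.hi P hPC
    have a2 := h1 X PL K s A η Z R G W ε Λ ns c r hA hC hO hP (Z ∩ P) ((Z ∩ P₀) \ E) (β P) e P.card
      n (2 * (b : ℝ) ^ 2) (2 * b * ν) n inter_subset_left (sdiff_subset.trans inter_subset_left)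
      (disjoint_left.2 fun z hz hz' => (mem_sdiff.1 (mem_inter.1 (mem_sdiff.1 hz').1).2).2
        (mem_biUnion.2 ⟨P, hPC, (mem_inter.1 hz).2⟩))
      hZn he he1 (cI P) ((Nat.cast_le.2 (card_le_card sdiff_subset)).trans c0) (hK.lo P hPC)
      (by positivity) (by positivity) (fun k hk => free (hK.free P hPC k hk) inter_subset_right)
      (fun k hk => free (hK.rest k (hk.trans (hK.hi P hPC)))
        (sdiff_subset.trans inter_subset_right)) (bP P hPC)
      (le_trans (mul_le_mul_of_nonneg_left (by linarith) (by positivity)) hf)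
      (Or.inr fun y hy => off (hoff y (mem_inter.1 (mem_sdiff.1 hy).1).2 (mem_sdiff.1 hy).2)
        inter_subset_right)
    have a3 : (eB s R (c * W) (Z ∩ P) (Z ∩ P₀) : ℝ) ≤ _ := Nat.cast_le.2 (drop (Z ∩ P) (Z ∩ P₀) E)
    push_cast at a3
    have a4 : ((Z ∩ P).card : ℝ) * E.card ≤ P.card * (e * n) :=
      mul_le_mul (cI P) (hE.trans hνe) (Nat.cast_nonneg _) (Nat.cast_nonneg _)
    nlinarith
  have g2 : ∀ P ∈ C, ∀ P' ∈ C, P ≠ P' → β P ≤ β P' →
      (eB s R (c * W) (Z ∩ P) (Z ∩ P') : ℝ) ≤ 2 * e * (P.card * P'.card) := by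
    intro P hPC P' hP' hne hβ
    obtain ⟨E, hE, hoff⟩ := hK.off P hPC P' hP' hne
    have a2 := h1 X PL K s A η Z R G W ε Λ ns c r hA hC hO hP (Z ∩ P) ((Z ∩ P') \ E) (β P) e P.card
      P'.card (2 * (b : ℝ) ^ 2) (2 * (b : ℝ) ^ 2) n inter_subset_left
      (sdiff_subset.trans inter_subset_left)
      ((hK.disj P hPC P' hP' hne).mono inter_subset_right (sdiff_subset.trans inter_subset_right))
      hZn he he1 (cI P) ((Nat.cast_le.2 (card_le_card sdiff_subset)).trans (cI P')) (hK.lo P hPC)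
      (by positivity) (by positivity) (fun k hk => free (hK.free P hPC k hk) inter_subset_right)
      (fun k hk => free (hK.free P' hP' k (hk.trans hβ)) (sdiff_subset.trans inter_subset_right))
      (bP P hPC) (fP P hPC P' hP')
      (Or.inr fun y hy => off (hoff y (mem_inter.1 (mem_sdiff.1 hy).1).2 (mem_sdiff.1 hy).2)
        inter_subset_right)
    have a3 : (eB s R (c * W) (Z ∩ P) (Z ∩ P') : ℝ) ≤ _ := Nat.cast_le.2 (drop (Z ∩ P) (Z ∩ P') E)
    push_cast at a3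
    have a5 : (E.card : ℝ) ≤ e * P'.card := by
      have b2 : (E.card : ℝ) ≤ 2 * (b : ℝ) ^ 2 := by exact_mod_cast hE
      have b3 := fP P hPC P' hP'
      have b4 := mul_le_mul_of_nonneg_right e21 (Nat.cast_nonneg (α := ℝ) P'.card)
      have b5 : (0 : ℝ) ≤ 2 * (b : ℝ) ^ 2 * β P := by positivity
      linarith
    have a4 : ((Z ∩ P).card : ℝ) * E.card ≤ P.card * (e * P'.card) :=
      mul_le_mul (cI P) a5 (Nat.cast_nonneg _) (Nat.cast_nonneg _)
    nlinarith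
  have g3 : ∀ P ∈ C, ∀ P' ∈ C.erase P,
      (eB s R (c * W) (Z ∩ P) (Z ∩ P') : ℝ) ≤ 2 * e * (P.card * P'.card) := by
    intro P hPC P' hP'
    obtain ⟨hne, hP'⟩ := mem_erase.1 hP'
    rcases le_total (β P) (β P') with h | h
    · exact g2 P hPC P' hP' hne.symm h
    · refine (Nat.cast_le.2 (symm hs _ _)).trans ((g2 P' hP' P hPC hne h).trans_eq ?_)
      ring
  have cov : ((Z ×ˢ Z).filter fun p => p.1 ≠ p.2 ∧ c * W ≤ del s R p.1 p.2 ∧
      ¬ ∃ P ∈ C, p.1 ∈ P ∧ p.2 ∈ P) ⊆ hp s R (c * W) (Z ∩ P₀) (Z ∩ P₀) ∪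
      C.biUnion fun P => hp s R (c * W) (Z ∩ P) (Z ∩ P₀) ∪ hp s R (c * W) (Z ∩ P₀) (Z ∩ P) ∪
        (C.erase P).biUnion fun P' => hp s R (c * W) (Z ∩ P) (Z ∩ P') := by
    intro p hp'
    simp only [mem_filter, mem_product] at hp'
    obtain ⟨⟨z1, z2⟩, hne, hd, hno⟩ := hp'
    have m0 : ∀ z ∈ Z, (¬ ∃ P ∈ C, z ∈ P) → z ∈ P₀ := fun z hz h =>
      mem_sdiff.2 ⟨hZ hz, fun h' => h (mem_biUnion.1 h')⟩
    simp only [mem_union, mem_biUnion, mem_hp, mem_inter, mem_erase]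
    by_cases a1 : ∃ P ∈ C, p.1 ∈ P
    · obtain ⟨P, hPC, a1⟩ := a1
      by_cases a2 : ∃ P ∈ C, p.2 ∈ P
      · obtain ⟨P', hP', a2⟩ := a2
        exact Or.inr ⟨P, hPC, Or.inr ⟨P', ⟨fun h => hno ⟨P, hPC, a1, h ▸ a2⟩, hP'⟩,
          ⟨⟨z1, a1⟩, z2, a2⟩, hne, hd⟩⟩
      · exact Or.inr ⟨P, hPC, Or.inl (Or.inl ⟨⟨⟨z1, a1⟩, z2, m0 _ z2 a2⟩, hne, hd⟩)⟩
    · by_cases a2 : ∃ P ∈ C, p.2 ∈ P
      · obtain ⟨P', hP', a2⟩ := a2
        exact Or.inr ⟨P', hP', Or.inl (Or.inr ⟨⟨⟨z1, m0 _ z1 a1⟩, z2, a2⟩, hne, hd⟩)⟩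
      · exact Or.inl ⟨⟨⟨z1, m0 _ z1 a1⟩, z2, m0 _ z2 a2⟩, hne, hd⟩
  have cnt : ((Z ×ˢ Z).filter fun p => p.1 ≠ p.2 ∧ c * W ≤ del s R p.1 p.2 ∧
      ¬ ∃ P ∈ C, p.1 ∈ P ∧ p.2 ∈ P).card ≤ eB s R (c * W) (Z ∩ P₀) (Z ∩ P₀) +
      ∑ P ∈ C, (eB s R (c * W) (Z ∩ P) (Z ∩ P₀) + eB s R (c * W) (Z ∩ P) (Z ∩ P₀) +
        ∑ P' ∈ C.erase P, eB s R (c * W) (Z ∩ P) (Z ∩ P')) := by
    refine (card_le_card cov).trans ((card_union_le _ _).trans (add_le_add le_rfl ?_))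
    refine card_biUnion_le.trans (sum_le_sum fun P _ => (card_union_le _ _).trans ?_)
    exact add_le_add ((card_union_le _ _).trans (add_le_add le_rfl (symm hs _ _))) card_biUnion_le
  have fin : ∑ P ∈ C, ((eB s R (c * W) (Z ∩ P) (Z ∩ P₀) : ℝ) + eB s R (c * W) (Z ∩ P) (Z ∩ P₀) +
      ∑ P' ∈ C.erase P, (eB s R (c * W) (Z ∩ P) (Z ∩ P') : ℝ)) ≤
      ∑ P ∈ C, 6 * e * n * (P.card : ℝ) := by
    refine sum_le_sum fun P hPC => ?_
    have a1 := g1 P hPC
    have a2 := sum_le_sum (g3 P hPC)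
    rw [← mul_sum, ← mul_sum] at a2
    have a3 : ∑ P' ∈ C.erase P, (P'.card : ℝ) ≤ n :=
      (sum_le_sum_of_subset_of_nonneg (erase_subset _ _) fun _ _ _ => Nat.cast_nonneg _).trans sC
    have a4 : 2 * e * (P.card * ∑ P' ∈ C.erase P, (P'.card : ℝ)) ≤ 2 * e * (P.card * n) := by
      gcongr
    nlinarith
  rw [← mul_sum] at fin
  have a5 : 6 * e * n * ∑ P ∈ C, (P.card : ℝ) ≤ 6 * e * n * n := by gcongr
  have a6 := (Nat.cast_le (α := ℝ)).2 cnt
  push_cast at a6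
  refine le_trans (le_of_eq ?_) (a6.trans (by nlinarith))
  exact congrArg _ (congrArg card (Finset.ext fun e => by simp only [mem_filter]))

end Pool.Agent.MP_6c3157_co.PQ
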