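import Pool.Agent.MP_6c3157_co.PQ.SpecD

/-! Project PQ, part G: the choice of subfibres. -/

set_option autoImplicit false
set_option linter.unusedSectionVars false

noncomputable section

namespace Pool.Agent.MP_6c3157_co.PQ

open Finset Pool.Agent.MP_6c3157_co.PD

open Classical in
/-- subfibres: `ok` edges carry a large part `sf x y` of their fibre with few atypical pairs -/
structure Sbf {X : Type} [DecidableEq X] (lab : X → X → ℝ) (Y Y₁ : Finset X) (At : X → Finset X)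
    (ok : X → X → Prop) (sf : X → X → Finset X) (ζ κ b a : ℝ) : Prop where
  sub : ∀ x ∈ Y, ∀ y ∈ Y.erase x, ok x y → sf x y ⊆ fib lab Y x y ∧ sf x y ⊆ Y₁
  big : ∀ x ∈ Y, ∀ y ∈ Y.erase x, ok x y →
    ζ * (fib lab Y x y).card ≤ (sf x y).card ∧ κ ^ 2 < (fib lab Y x y).card
  bad : (ed Y fun x y => ¬ ok x y : ℝ) ≤ b
  atp : ∑ x ∈ Y, ∑ y ∈ Y.erase x, (if ok x y then
    (ed (sf x y) fun z w => w ∈ At z : ℝ) / ((sf x y).card : ℝ) ^ 2 else 0) ≤ a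

/-- the subfibres exist -/
def SUBF : Prop :=
  ∀ (X : Type) [DecidableEq X] (lab : X → X → ℝ) (Y Y₁ : Finset X) (At : X → Finset X)
    (Un Lw : X → X → Prop) (ζ κ : ℝ), 0 < ζ → ζ ≤ 1 / 2 → 1 ≤ κ →
    (∀ x ∈ Y, ∀ y₀ ∈ Y, ∀ y₁ ∈ Y, ∀ y₂ ∈ Y, y₀ ≠ x → y₁ ≠ x → y₂ ≠ x → y₀ ≠ y₁ → y₀ ≠ y₂ →
      y₁ ≠ y₂ → lab x y₁ = lab x y₀ → lab x y₂ = lab x y₀ → Lw y₀ y₁ → Lw y₀ y₂ →
      Lw y₁ y₂ → Un x y₀) →
    ∃ (ok : X → X → Prop) (sf : X → X → Finset X), Sbf lab Y Y₁ At ok sf ζ κ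
      (Phi lab κ Y + 2 * (Y.card * (Y \ Y₁).card + ed Y Un))
      (2 * ζ * (Y.card : ℝ) ^ 2 +
        (tc lab Y fun _ z w => w ∈ At z ∧ ¬ Lw z w : ℝ) / (ζ ^ 2 * κ ^ 2))

/-- atypical triples at the coarse level -/
def AT0 : Prop :=
  ∀ (X PL K : Type) [DecidableEq X] [Field K] (A : Ari X PL K) (lab : X → X → ℝ),
    Function.Injective A.U → Function.Injective A.V →
    (∀ x y z, lab x y = lab x z → A.bis x y z) → ∀ (Y : Finset X) (At : X → Finset X) (k : ℝ),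
    (∀ y ∈ Y, ((At y).card : ℝ) ≤ k) →
    (tc lab Y fun _ z w => w ∈ At z ∧ ¬ False : ℝ) ≤ Y.card * (Y.card + k ^ 2)

open Classical in
/-- atypical triples at the fine level -/
def AT1 : Prop :=
  ∀ (X PL K : Type) [DecidableEq X] [Field K] (A : Ari X PL K) (lab : X → X → ℝ),
    (∀ x y z, lab x y = lab x z → A.bis x y z) → ∀ (Y : Finset X) (At : X → Finset X)
    (Lw : X → X → Prop) (k ν : ℝ), 0 ≤ k → (∀ y ∈ Y, ((At y).card : ℝ) ≤ ν) →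
    (∀ y ∈ Y, ∀ z ∈ Y, y ≠ z → ¬ Lw y z → ((Y.filter fun x => A.bis x y z).card : ℝ) ≤ k) →
    (tc lab Y fun _ z w => w ∈ At z ∧ ¬ Lw z w : ℝ) ≤ Y.card * ν * k

/-- subfibres at the coarse level -/
def SUBF0 : Prop :=
  ∀ (X PL K : Type) [DecidableEq X] [Fintype PL] [Field K] (s : Sys X PL) (A : Ari X PL K)
    (η : ℝ) (Y Y₁ : Finset X) (At : X → Finset X) (ζ κ k : ℝ), A.Good s η → 0 < ζ → ζ ≤ 1 / 2 →
    1 ≤ κ → (∀ y ∈ Y, ((At y).card : ℝ) ≤ k) →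
    ∃ (ok : X → X → Prop) (sf : X → X → Finset X), Sbf s.lab Y Y₁ At ok sf ζ κ
      (Phi s.lab κ Y + 2 * (Y.card * (Y \ Y₁).card))
      (2 * ζ * (Y.card : ℝ) ^ 2 + Y.card * (Y.card + k ^ 2) / (ζ ^ 2 * κ ^ 2))

/-- subfibres at the fine level -/
def SUBF1 : Prop :=
  ∀ (X PL K : Type) [DecidableEq X] [Fintype PL] [Field K] (s : Sys X PL) (A : Ari X PL K)
    (η : ℝ) (Y Y₁ : Finset X) (At : X → Finset X) (R₀ : PL → ℝ) (G₀ : PL → X → ℝ)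
    (W₀ ε₀ Λ₀ k : ℝ) (b : ℕ) (ν : ℝ) (C : Finset (Finset X)) (β : Finset X → ℕ)
    (t₀ M₀ n κ ζ n₁ : ℝ), A.Good s η → Cen s Y R₀ G₀ W₀ ε₀ → Conc s R₀ Y W₀ ε₀ Λ₀ k → 2 ≤ Λ₀ →
    9 ≤ k → Cls2 A Y b ν C β → ∑ P ∈ C, (P.card : ℝ) ≤ n →
    Cnt A Y C β (fun y z => t₀ ≤ del s R₀ y z) k M₀ n → 2 * t₀ ≤ W₀ → 1 ≤ κ → 0 < ζ →
    ζ ≤ 1 / 2 → (∀ y ∈ Y, ((At y).card : ℝ) ≤ n₁) →
    ∃ (ok : X → X → Prop) (sf : X → X → Finset X), Sbf s.lab Y Y₁ At ok sf ζ κ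
      (3 * Phi s.lab κ Y + 2 * (Y.card * (Y \ Y₁).card + (14 / k + 2 * M₀ / κ) * n ^ 2))
      (2 * ζ * (Y.card : ℝ) ^ 2 + Y.card * n₁ * k / (ζ ^ 2 * κ ^ 2))

end Pool.Agent.MP_6c3157_co.PQ
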