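import Pool.Agent.MP_6c3157_co.PQ.SpecF
import Pool.Agent.MP_6c3157_co.PQ.SpecG
import Pool.Agent.MP_6c3157_co.PQ.Col

/-! Project PQ, part J: the two levels and the end of the step. -/

set_option autoImplicit false
set_option linter.unusedSectionVars false

noncomputable section

namespace Pool.Agent.MP_6c3157_co.PQ

open Finset Pool.Agent.MP_6c3157_co.PD

/-- everything known at the start of a step -/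
structure Ini {X PL K : Type} [DecidableEq X] [Fintype PL] [Field K] (s : Sys X PL)
    (A : Ari X PL K) (η κ a e : ℝ) (Q Y : Finset X) (h : X → ℝ) (T : ℝ) (q : ℕ)
    (σ₁ u σ₃ n₀ γ : ℝ) (j : ℕ) : Prop where
  e_pos : 0 < e
  e_le : e ≤ 1 / 10 ^ 124
  ari : A.Good s η
  eta : η * Q.card ≤ 1
  par : Par 11000 (e ^ 122) a Q.card κ q σ₁ u σ₃ n₀ γ j
  stp : Stp s Q Y h T 11000 (e ^ 122) q σ₁ u σ₃
  bad : Bad s.lab κ a Q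

/-- the output of the coarse level -/
structure Lv0 {X PL : Type} [DecidableEq X] [Fintype PL] (s : Sys X PL) (e : ℝ)
    (Q Y Z₀ : Finset X) (T : ℝ) (q : ℕ) (σ₃ n₀ : ℝ) (R₀ L₀ : PL → ℝ) (G₀ : PL → X → ℝ)
    (W₀ : ℝ) : Prop where
  sub : Z₀ ⊆ Y
  big : 2 * Q.card ≤ 3 * Z₀.card
  cln : Cln s (heavy Q) Z₀ R₀ L₀ G₀ W₀ e (1 / e) ((q : ℝ) ^ 2) T
  disc : ∀ C ⊆ Z₀, n₀ ≤ (C.card : ℝ) → s.Disc (heavy Q) Y σ₃ C ≤ e ^ 122 / 100 * T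

/-- the classes on the output of the coarse level -/
structure Lvc {X PL K : Type} [DecidableEq X] [Field K] (A : Ari X PL K) (Q Z₀ : Finset X) (q : ℕ)
    (C : Finset (Finset X)) (β : Finset X → ℕ) : Prop where
  cls : Cls2 A Z₀ (q ^ 3) (Q.card / (q : ℝ) ^ 48) C β
  num : C.card * (Q.card / (q : ℝ) ^ 48) ≤ Z₀.card
  tot : ∑ P ∈ C, (P.card : ℝ) ≤ Z₀.card

/-- the numbers in a handy form: `f` is the claimed bound at the size `n` -/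
def NUMJ : Prop :=
  ∀ (e a n κ : ℝ) (q : ℕ) (σ₁ u σ₃ n₀ γ : ℝ) (j : ℕ), 0 < e → e ≤ 1 / 10 ^ 124 →
    Par 11000 (e ^ 122) a n κ q σ₁ u σ₃ n₀ γ j →
    u ≤ e ∧ u ≤ 1 / 10 ^ 100 ∧ ph a n ≤ 1 / 10 ^ 100 ∧ 10 ^ 100 ≤ (q : ℝ) ∧ 1 ≤ κ ∧
      1 ≤ u ^ 11000 * q ∧ 1 ≤ u ^ 11000 * κ ∧ 10 ^ 100 ≤ ph a n * q ∧ 10 ^ 100 ≤ ph a n * κ ∧
      1 ≤ n₀ ∧ n₀ ≤ n

/-- the coarse level -/
def LV0 : Prop :=
  ∀ (X PL K : Type) [DecidableEq X] [Fintype PL] [Field K] (s : Sys X PL) (A : Ari X PL K)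
    (η κ a e : ℝ) (Q Y : Finset X) (h : X → ℝ) (T : ℝ) (q : ℕ) (σ₁ u σ₃ n₀ γ : ℝ) (j : ℕ),
    Ini s A η κ a e Q Y h T q σ₁ u σ₃ n₀ γ j →
    ∃ (Z₀ : Finset X) (R₀ L₀ : PL → ℝ) (G₀ : PL → X → ℝ) (W₀ : ℝ),
      Lv0 s e Q Y Z₀ T q σ₃ n₀ R₀ L₀ G₀ W₀

/-- the count of pairs of large double depth with the numbers of the step -/
def CNQ : Prop :=
  ∀ (X PL K : Type) [DecidableEq X] [Fintype PL] [Field K] (s : Sys X PL) (A : Ari X PL K)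
    (η : ℝ) (Q Z₀ Z : Finset X) (q : ℕ) (C : Finset (Finset X)) (β : Finset X → ℕ)
    (R : PL → ℝ) (G : PL → X → ℝ) (W ε ns c r : ℝ), A.Good s η → Z ⊆ Z₀ → Z₀ ⊆ Q →
    Lvc A Q Z₀ q C β → Cen s Z R G W ε → Conc s R Z W ε (1 / ε) ns →
    0 < c → c ≤ 1 → 0 < r → 28000 * r ^ 2 ≤ c → 800 * ε ≤ c * r ^ 40 →
    10 ^ 100 ≤ (q : ℝ) → (q : ℝ) ^ 400 ≤ Q.card → ns * (q : ℝ) ^ 90 ≤ Q.card →
    10 ^ 5 ≤ c * q → 1 ≤ r ^ 20 * q →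
    Cnt A Z C β (fun y z => c * W ≤ del s R y z) ((q : ℝ) ^ 2) (4800 / c) Q.card

/-- the fine level -/
def LV1 : Prop :=
  ∀ (X PL K : Type) [DecidableEq X] [Fintype PL] [Field K] (s : Sys X PL) (A : Ari X PL K)
    (η κ a e : ℝ) (Q Y : Finset X) (h : X → ℝ) (T : ℝ) (q : ℕ) (σ₁ u σ₃ n₀ γ : ℝ) (j : ℕ)
    (Z₀ : Finset X) (R₀ L₀ : PL → ℝ) (G₀ : PL → X → ℝ) (W₀ : ℝ) (C : Finset (Finset X))
    (β : Finset X → ℕ), Ini s A η κ a e Q Y h T q σ₁ u σ₃ n₀ γ j →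
    Lv0 s e Q Y Z₀ T q σ₃ n₀ R₀ L₀ G₀ W₀ → Lvc A Q Z₀ q C β →
    Cnt A Z₀ C β (fun y z => 1 / 2 * W₀ ≤ del s R₀ y z) ((q : ℝ) ^ 2) 9600 Q.card →
    ∃ Z ⊆ Z₀, 3 * Q.card ≤ 5 * Z.card ∧ ∃ (R L : PL → ℝ) (G : PL → X → ℝ) (W : ℝ),
      Cln s (heavy Q) Z R L G W (u ^ 90) (1 / u ^ 90) (Q.card / (q : ℝ) ^ 90) T

/-- the end of the step -/
def FINAL : Prop :=
  ∀ (X PL K : Type) [DecidableEq X] [Fintype PL] [Field K] (s : Sys X PL) (A : Ari X PL K)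
    (η κ a e : ℝ) (Q Y : Finset X) (h : X → ℝ) (T : ℝ) (q : ℕ) (σ₁ u σ₃ n₀ γ : ℝ) (j : ℕ)
    (Z₀ Z : Finset X) (R₀ L₀ R L : PL → ℝ) (G₀ G : PL → X → ℝ) (W₀ W Λ ns : ℝ)
    (C : Finset (Finset X)) (β : Finset X → ℕ), Ini s A η κ a e Q Y h T q σ₁ u σ₃ n₀ γ j →
    Lv0 s e Q Y Z₀ T q σ₃ n₀ R₀ L₀ G₀ W₀ → Lvc A Q Z₀ q C β → Z ⊆ Z₀ →
    3 * Q.card ≤ 5 * Z.card → Cln s (heavy Q) Z R L G W (u ^ 90) Λ ns T →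
    Cnt A Z C β (fun y z => 1 / 2 * W₀ ≤ del s R₀ y z) ((q : ℝ) ^ 2) 9600 Q.card →
    Cnt A Z C β (fun y z => u ^ 2 / 3 * W ≤ del s R y z) ((q : ℝ) ^ 2) (4800 / (u ^ 2 / 3))
      Q.card → False

end Pool.Agent.MP_6c3157_co.PQ
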