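import Pool.Agent.MP_6c3157_co.PQ.SpecB
import Pool.Agent.MP_6c3157_co.PQ.SpecJ

/-! Project PQ: the two forms of the subfibre data agree. -/

set_option autoImplicit false

namespace Pool.Agent.MP_6c3157_co.PQ

open Finset Pool.Agent.MP_6c3157_co.PD

/-- the bridge between the two forms of the subfibre data -/
def SBS : Prop :=
  ∀ (X : Type) [DecidableEq X] (lab : X → X → ℝ) (Y B : Finset X) (At : X → Finset X)
    (ok : X → X → Prop) (sf : X → X → Finset X) (ζ κ b a b₁ a₁ : ℝ),
    Sbf lab Y B At ok sf ζ κ b a → b ≤ b₁ * (Y.card : ℝ) ^ 2 → a ≤ a₁ * (Y.card : ℝ) ^ 2 →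
    Sub lab Y B At ok sf ζ b₁ (κ ^ 2) a₁

theorem sbs : SBS := by
  classical
  intro X _ lab Y B At ok sf ζ κ b a b₁ a₁ h hb ha
  refine ⟨fun x hx y hy o => ⟨(h.sub x hx y hy o).1, (h.sub x hx y hy o).2, (h.big x hx y hy o).1,
    (h.big x hx y hy o).2.le⟩, le_trans (le_of_eq ?_) (h.bad.trans hb),
    le_trans (le_of_eq ?_) (h.atp.trans ha)⟩
  · rw [ed_eq_sum]
    refine sum_congr rfl fun x _ => ?_
    rw [card_filter]
    push_cast
    refine sum_congr rfl fun y _ => ?_
    by_cases o : ok x y <;> simp [o]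
  · refine sum_congr rfl fun x _ => sum_congr rfl fun y _ => ?_
    by_cases o : ok x y
    · rw [if_pos o, if_pos o, ed_eq_sum]
      congr 1
      refine sum_congr rfl fun z _ => ?_
      congr 2
      ext w
      simp only [mem_inter, mem_filter]
    · rw [if_neg o, if_neg o]

end Pool.Agent.MP_6c3157_co.PQ
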