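import Pool.Agent.MP_6c3157_co.PQ.BasicB
import Pool.Agent.MP_6c3157_co.PQ.Sbs

/-! Project PQ, row LV0: the coarse level. -/

set_option autoImplicit false

namespace Pool.Agent.MP_6c3157_co.PQ

open Finset Pool.Agent.MP_6c3157_co.PD

namespace Lv0A

theorem eq1 {e q T η : ℝ} (he : 0 < e) (he' : e ≤ 1 / 100) (hT : 20 ≤ T) (hq : 1 ≤ q)
    (h : 1 ≤ e ^ 62 * q) (hη : η ≤ e ^ 62) :
    (7 * T / (1 / q) + 4) / q ^ 2 + 4 * η + 2 * e ^ 61 * T ≤ e ^ 60 * T := by
  have q0 : 0 < q := by linarith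
  have h1 : (7 * T / (1 / q) + 4) / q ^ 2 ≤ 8 * T * e ^ 62 := by
    rw [div_le_iff₀ (by positivity), div_div_eq_mul_div, div_one]
    have : 8 * T * q * 1 ≤ 8 * T * q * (e ^ 62 * q) := mul_le_mul_of_nonneg_left h (by positivity)
    nlinarith
  have p : 0 < e ^ 60 * T := by positivity
  have h2 : e ^ 62 * T ≤ e ^ 60 * T * (1 / 100) := by
    rw [show e ^ 62 * T = e ^ 60 * T * (e * e) by ring]
    exact mul_le_mul_of_nonneg_left (by nlinarith) p.le
  have h3 : e ^ 61 * T ≤ e ^ 60 * T * (1 / 100) := by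
    rw [show e ^ 61 * T = e ^ 60 * T * e by ring]
    exact mul_le_mul_of_nonneg_left he' p.le
  have h4 : e ^ 62 * 20 ≤ e ^ 62 * T := mul_le_mul_of_nonneg_left hT (by positivity)
  nlinarith

theorem eq3 {θ σ n T η : ℝ} (h0 : 0 < θ) (h1 : θ ≤ 1 / 10000) (hT : 20 ≤ T) (hσ : 0 < σ)
    (hσ' : σ ≤ 1) (h : 1 ≤ θ ^ 2 * (σ * n)) (hη : η ≤ θ ^ 2) :
    (7 * T / σ + 4) / n + 4 * η + 2 * θ ^ 2 * T ≤ θ / 100 * T := by
  have n0 : 0 < n := by
    by_contra hc
    have : θ ^ 2 * (σ * n) ≤ 0 :=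
      mul_nonpos_of_nonneg_of_nonpos (by positivity)
        (mul_nonpos_of_nonneg_of_nonpos hσ.le (not_lt.1 hc))
    linarith
  have a1 : (7 * T / σ + 4) / n ≤ 8 * T * θ ^ 2 := by
    rw [div_le_iff₀ n0]
    have b1 : 7 * T / σ + 4 ≤ 8 * T / σ := by
      rw [div_add' _ _ _ hσ.ne', div_le_div_iff_of_pos_right hσ]
      nlinarith
    refine b1.trans ?_
    rw [div_le_iff₀ hσ]
    have := mul_le_mul_of_nonneg_left h (show 0 ≤ 8 * T by positivity)
    nlinarith
  have a2 : θ ^ 2 * 20 ≤ θ ^ 2 * T := mul_le_mul_of_nonneg_left hT (by positivity)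
  have a3 : θ ^ 2 * T ≤ θ * T * (1 / 10000) := by
    rw [show θ ^ 2 * T = θ * T * θ by ring]
    exact mul_le_mul_of_nonneg_left h1 (by positivity)
  have : 0 < θ * T := by positivity
  nlinarith

theorem at0 {z κ y k : ℝ} (hz : 0 < z) (hy : 0 ≤ y) (hk : k ≤ y) (h : 2 ≤ z ^ 3 * κ ^ 2) :
    2 * z * y ^ 2 + y * (y + k) / (z ^ 2 * κ ^ 2) ≤ 3 * z * y ^ 2 := by
  have p : 0 < z ^ 2 * κ ^ 2 := by
    by_contra hc
    have : z * (z ^ 2 * κ ^ 2) ≤ 0 := mul_nonpos_of_nonneg_of_nonpos hz.le (not_lt.1 hc)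
    nlinarith
  have : y * (y + k) / (z ^ 2 * κ ^ 2) ≤ z * y ^ 2 := by
    rw [div_le_iff₀ p]
    have a := mul_le_mul_of_nonneg_left h (sq_nonneg y)
    have b := mul_le_mul_of_nonneg_left hk hy
    nlinarith
  linarith

end Lv0A

theorem lv0 (hE : EQM) (hC : CLEAN) (hS : SUBF0) (hM : PHM) (hP : PHI) (hN : NUMJ) (hB : SBS) :
    LV0 := by
  classical
  intro X PL K _ _ _ s A η κ a e Q Y h T q σ₁ u σ₃ n₀ γ j I
  obtain ⟨ue, -, -, q100, k1, uq, uk, -, -, n1, n0n⟩ :=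
    hN _ _ _ _ _ _ _ _ _ _ _ I.e_pos I.e_le I.par
  have P := I.par
  have S := I.stp
  have he := I.e_pos
  have hu := P.u_pos
  have e2 : e ≤ 1 / 10 ^ 20 := I.e_le.trans (by norm_num)
  have e1 : e ≤ 1 := e2.trans (by norm_num)
  have hT := S.ctx.Tlo
  have hs := S.ctx.good
  have pw : ∀ k : ℕ, k ≤ 11000 → u ^ 11000 ≤ e ^ k := fun k hk =>
    (pow_le_pow_left₀ hu.le ue _).trans (pow_le_pow_of_le_one he.le e1 hk)
  have q1 : (1 : ℝ) ≤ q := le_trans (by norm_num) q100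
  have q0 : (0 : ℝ) < q := by linarith
  have pq : ∀ k : ℕ, k ≤ 11000 → 1 ≤ e ^ k * q := fun k hk =>
    uq.trans (mul_le_mul_of_nonneg_right (pw k hk) q0.le)
  have pk : ∀ k : ℕ, k ≤ 11000 → 1 ≤ e ^ k * κ := fun k hk =>
    uk.trans (mul_le_mul_of_nonneg_right (pw k hk) (by linarith))
  set n : ℝ := (Q.card : ℝ) with hn
  set y : ℝ := (Y.card : ℝ) with hy
  have yn : y ≤ n := Nat.cast_le.2 (card_le_card S.sub)
  have ny : 3 * n ≤ 4 * y := by have := S.big; rw [hn, hy]; exact_mod_cast this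
  have qn : ∀ k : ℕ, k ≤ 400 → (q : ℝ) ^ k ≤ n := fun k hk => (pow_le_pow_right₀ q1 hk).trans P.q_hi
  have qy : ∀ k : ℕ, k ≤ 399 → 100 * (q : ℝ) ^ k ≤ y := fun k hk => by
    have a := qn (k + 1) (by omega)
    have b : (0 : ℝ) < q ^ k := by positivity
    rw [pow_succ] at a
    nlinarith
  have y1 : 100 * (q : ℝ) ≤ y := by simpa using qy 1 (by norm_num)
  have y0 : 0 < y := by linarith
  have pe : ∀ k : ℕ, k ≤ 11000 → η ≤ e ^ k := fun k hk => by
    rcases le_total η 0 with c | c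
    · exact c.trans (by positivity)
    · have a := mul_le_mul_of_nonneg_left (pq k hk) c
      have b : η * q ≤ 1 := (mul_le_mul_of_nonneg_left (by linarith) c).trans I.eta
      have := mul_le_mul_of_nonneg_left b (show 0 ≤ e ^ k by positivity)
      nlinarith
  have y3 : 3 ≤ Y.card := by
    have : (3 : ℝ) ≤ y := by linarith
    rw [hy] at this; exact_mod_cast this
  have th0 : 0 < e ^ 122 := by positivity
  have th1 : e ^ 122 ≤ e := pow_le_of_le_one he.le e1 (by norm_num)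
  have s3 : σ₃ ≤ 1 := P.s3_le.trans (P.s1_le.trans (by norm_num))
  have sn : (q : ℝ) ≤ σ₃ * n₀ := (le_self_pow₀ q1 (by norm_num)).trans P.s3_n0
  have n0y : n₀ ≤ y := by
    have a : n₀ * q ≤ n := (mul_le_mul_of_nonneg_left (le_self_pow₀ q1 (by norm_num))
      (by linarith)).trans P.n0_le
    nlinarith
  obtain ⟨m1, E1⟩ := hE X PL s (heavy Q) Y h T η (1 / q) (e ^ 61) S.ctx I.ari.eta_sum y3
    (by rw [one_div, inv_mul_eq_div, le_div_iff₀ q0]; linarith)
    (by rw [div_le_one q0]; exact q1) (by positivity)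
  obtain ⟨m3, E3⟩ := hE X PL s (heavy Q) Y h T η σ₃ ((e ^ 122) ^ 2) S.ctx I.ari.eta_sum y3
    (by have := mul_le_mul_of_nonneg_left n0y P.s3_pos.le; linarith) s3 (by positivity)
  have m1 := m1 (by rw [← pow_mul]; exact S.t0)
  have m3 := m3 (S.t2.trans (by
    rw [← pow_mul (e ^ 122)]
    exact mul_le_mul_of_nonneg_right (mul_le_mul_of_nonneg_right
      (pow_le_pow_of_le_one th0.le (th1.trans e1) (by norm_num)) (by linarith)) (sq_nonneg _)))
  set M1 := Mk s (heavy Q) Y (1 / q) (e ^ 61 * T)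
  set M3 := Mk s (heavy Q) Y σ₃ ((e ^ 122) ^ 2 * T)
  have sub1 : M1 ∩ M3 ⊆ Y := inter_subset_left.trans (filter_subset _ _)
  have t2 : (e ^ 122) ^ 2 ≤ e ^ 61 := by
    rw [← pow_mul]; exact pow_le_pow_of_le_one he.le e1 (by norm_num)
  have c1 : ((Y \ (M1 ∩ M3)).card : ℝ) ≤ 2 * e ^ 61 * y := by
    rw [sdiff_inter_distrib_right]
    have a : (((Y \ M1) ∪ (Y \ M3)).card : ℝ) ≤ (Y \ M1).card + (Y \ M3).card := by
      exact_mod_cast card_union_le _ _
    have b := mul_le_mul_of_nonneg_right t2 y0.le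
    linarith
  obtain ⟨At, Lo, hAt, hLo, hZ⟩ := hC X PL s (heavy Q) Y (M1 ∩ M3) h T η e (1 / q) ((q : ℝ) ^ 2)
    (1 / e) S.ctx I.ari.eta_sum he e2 (pe 10 (by norm_num))
    (by have := mul_le_mul_of_nonneg_left y1 (show 0 ≤ e ^ 29 by positivity)
        have := pq 29 (by norm_num)
        linarith) sub1
    (E1 _ _ _ inter_subset_left (by positivity)
      (Lv0A.eq1 he (e2.trans (by norm_num)) hT q1 (pq 62 (by norm_num)) (pe 62 (by norm_num))))
    (by rw [div_le_iff₀ q0]; exact pq 29 (by norm_num))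
    ((pq 62 (by norm_num)).trans (mul_le_mul_of_nonneg_left (le_self_pow₀ q1 (by norm_num))
      (by positivity)))
    (by rw [le_div_iff₀ he]; linarith) (by rw [one_div, inv_mul_cancel₀ he.ne'])
  have e15 : e ^ 15 ≤ e := pow_le_of_le_one he.le e1 (by norm_num)
  obtain ⟨ok, sf, hsf⟩ := hS X PL K s A η Y ((M1 ∩ M3) \ Lo) At (e ^ 15) κ ((q : ℝ) ^ 2) I.ari
    (by positivity) (e15.trans (e2.trans (by norm_num))) k1 fun z hz => (hAt z hz).le
  have c2 : ((Y \ ((M1 ∩ M3) \ Lo)).card : ℝ) ≤ 3 * e ^ 61 * y := by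
    have a : Y \ ((M1 ∩ M3) \ Lo) ⊆ (Y \ (M1 ∩ M3)) ∪ Lo := fun z hz => by
      simp only [mem_sdiff, mem_union] at hz ⊢
      tauto
    have b : ((Y \ ((M1 ∩ M3) \ Lo)).card : ℝ) ≤ (Y \ (M1 ∩ M3)).card + Lo.card := by
      exact_mod_cast (card_le_card a).trans (card_union_le _ _)
    have c := mul_le_mul_of_nonneg_left (qy 3 (by norm_num)) (show 0 ≤ e ^ 61 by positivity)
    have d := mul_le_mul_of_nonneg_right (pq 61 (by norm_num)) (show (0 : ℝ) ≤ q ^ 2 by positivity)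
    have f : (0 : ℝ) ≤ q ^ 2 := by positivity
    nlinarith
  have ph1 : Phi s.lab κ Y ≤ 2 * e ^ 61 * y ^ 2 := by
    have a' := ((hP X s.lab κ Q k1).1 Y S.sub).trans
      (hM.2 X s.lab κ a Q P.a_lo (by linarith) I.bad).1
    have b : ph a n ≤ e ^ 61 := P.ph_le.trans (pw 61 (by norm_num))
    have c : n ^ 2 ≤ 2 * y ^ 2 := by nlinarith
    have d := mul_le_mul b c (sq_nonneg _) (by positivity)
    linarith
  have e61 : e ^ 61 ≤ e ^ 20 * (1 / 100) := by
    rw [show e ^ 61 = e ^ 20 * e ^ 41 by ring]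
    exact mul_le_mul_of_nonneg_left ((pow_le_of_le_one he.le e1 (by norm_num)).trans
      (e2.trans (by norm_num))) (by positivity)
  have kk : κ ≤ κ ^ 2 := le_self_pow₀ k1 (by norm_num)
  obtain ⟨Z, hZ1, hZ2, R, L, G, W, hcl⟩ := hZ ok sf (κ ^ 2)
    ((pk 60 (by norm_num)).trans (mul_le_mul_of_nonneg_left kk (by positivity)))
    (hB X s.lab Y _ At ok sf _ κ _ _ _ _ hsf
      (by have a := mul_le_mul_of_nonneg_left c2 y0.le
          have b := mul_le_mul_of_nonneg_right e61 (sq_nonneg y)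
          have c : 0 ≤ e ^ 20 * y ^ 2 := by positivity
          nlinarith)
      (Lv0A.at0 (by positivity) y0.le
        (by have a := qy 4 (by norm_num)
            have b : (0 : ℝ) ≤ q ^ 4 := by positivity
            rw [show ((q : ℝ) ^ 2) ^ 2 = q ^ 4 by ring]; linarith)
        (by have a := pk 46 (by norm_num)
            have b := mul_le_mul_of_nonneg_left kk (show 0 ≤ e ^ 46 by positivity)
            have c : e ^ 46 * κ ^ 2 = (e ^ 15) ^ 3 * κ ^ 2 * e := by ring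
            have d : 0 ≤ (e ^ 15) ^ 3 * κ ^ 2 := by positivity
            have f := mul_le_mul_of_nonneg_left e2 d
            linarith)))
  refine ⟨Z, R, L, G, W, hZ1.trans sub1, ?_, hcl, fun C hCZ hC0 => ?_⟩
  · have a : Y ⊆ (Y \ (M1 ∩ M3)) ∪ (((M1 ∩ M3) \ Z) ∪ Z) := fun z hz => by
      simp only [mem_sdiff, mem_union]
      tauto
    have b : y ≤ (Y \ (M1 ∩ M3)).card + (((M1 ∩ M3) \ Z).card + Z.card) := by
      rw [hy]
      exact_mod_cast (card_le_card a).trans ((card_union_le _ _).trans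
        (Nat.add_le_add_left (card_union_le _ _) _))
    have c := mul_le_mul_of_nonneg_right
      ((pow_le_of_le_one he.le e1 (by norm_num : 61 ≠ 0)).trans e2) y0.le
    have d := mul_le_mul_of_nonneg_right e2 y0.le
    have f : 2 * n ≤ 3 * (Z.card : ℝ) := by linarith
    rw [hn] at f
    exact_mod_cast f
  · have a := E3 _ _ n₀ (inter_subset_right (s₁ := M1)) (by linarith)
      (Lv0A.eq3 th0 (th1.trans (e2.trans (by norm_num))) hT P.s3_pos s3
        (by rw [← pow_mul]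
            exact (pq 244 (by norm_num)).trans (mul_le_mul_of_nonneg_left sn (by positivity)))
        (by rw [← pow_mul]; exact pe 244 (by norm_num))) C (hCZ.trans hZ1) hC0
    linarith [Sm_nonneg (hv := heavy Q) (Y := Y) (σ := σ₃) hs C]

end Pool.Agent.MP_6c3157_co.PQ
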