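import Pool.Agent.MP_6c3157_co.PQ.Sbs

/-! Project PQ, row LV1: the fine level. -/

set_option autoImplicit false

namespace Pool.Agent.MP_6c3157_co.PQ

open Finset Pool.Agent.MP_6c3157_co.PD

namespace Lv1

theorem eqn {ε q n y T : ℝ} (e0 : 0 < ε) (e1 : ε ≤ 1 / 100) (hq : 100 ≤ q) (hk : 1 ≤ ε ^ 60 * q)
    (hn : q ^ 92 ≤ n) (y0 : 0 < y) (hy : y ≤ n) (hT : 20 ≤ T) :
    (7 * T / (q ^ 100 / y) + 4) / (n / q ^ 90) + 4 * (1 / n) + 2 * ε ^ 61 * T ≤ ε ^ 60 * T := by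
  have q0 : 0 < q := by linarith
  have q1 : 1 ≤ q := by linarith
  have n0 : 0 < n := by linarith
  have r1 : 1 / q ^ 2 ≤ ε ^ 60 / 100 := by
    rw [div_le_div_iff₀ (by positivity) (by norm_num)]
    nlinarith
  have a1 : 7 * T / (q ^ 100 / y) / (n / q ^ 90) ≤ 7 * T * (1 / q ^ 2) := by
    have e : 7 * T / (q ^ 100 / y) / (n / q ^ 90) = 7 * T * (y / n / q ^ 10) := by field_simp
    rw [e]
    refine mul_le_mul_of_nonneg_left ?_ (by linarith)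
    exact div_le_div₀ zero_le_one ((div_le_one n0).2 hy) (by positivity)
      (pow_le_pow_right₀ q1 (by norm_num))
  have a2 : 4 / (n / q ^ 90) ≤ 4 * (1 / q ^ 2) := by
    rw [mul_one_div]
    refine div_le_div_of_nonneg_left (by norm_num) (by positivity) ?_
    rw [le_div_iff₀ (by positivity), ← pow_add]
    exact hn
  have a3 : 1 / n ≤ 1 / q ^ 2 :=
    one_div_le_one_div_of_le (by positivity) ((pow_le_pow_right₀ q1 (by norm_num)).trans hn)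
  have a4 : ε ^ 61 ≤ ε ^ 60 / 100 := by
    rw [pow_succ]
    have : 0 < ε ^ 60 := by positivity
    nlinarith
  have a5 : 0 < ε ^ 60 := by positivity
  rw [add_div]
  generalize ε ^ 60 = z at *
  generalize ε ^ 61 = w at *
  generalize 1 / q ^ 2 = r at *
  have b1 : T * r ≤ T * (z / 100) := mul_le_mul_of_nonneg_left r1 (by linarith)
  have b2 : T * w ≤ T * (z / 100) := mul_le_mul_of_nonneg_left a4 (by linarith)
  have b3 : 20 * z ≤ T * z := mul_le_mul_of_nonneg_right hT a5.le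
  linarith

theorem badn {t z q n y κ φ d : ℝ} (t0 : 0 < t) (tz : 10 ^ 5 * t ≤ z) (hq : 1 ≤ q)
    (hk : 1 ≤ t * q) (k0 : 0 < κ) (hκ : 1 ≤ t * κ) (y0 : 0 < y) (n0 : 0 < n) (hy : 2 * n ≤ 3 * y)
    (hφ : φ ≤ t * n ^ 2) (hd : d ≤ t * y + n / q ^ 90) :
    3 * φ + 2 * (y * d + (14 / q ^ 2 + 2 * 9600 / κ) * n ^ 2) ≤ z * y ^ 2 := by
  have q0 : 0 < q := by linarith
  have r : ∀ m : ℕ, m ≠ 0 → 1 / q ^ m ≤ t := fun m hm => by
    rw [div_le_iff₀ (by positivity)]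
    exact hk.trans (mul_le_mul_of_nonneg_left (le_self_pow₀ hq hm) t0.le)
  have a1 : 14 / q ^ 2 ≤ 14 * t := by
    rw [← mul_one_div]; exact mul_le_mul_of_nonneg_left (r 2 (by norm_num)) (by norm_num)
  have a2 : 2 * 9600 / κ ≤ 19200 * t := by
    rw [div_le_iff₀ k0]; linarith
  have a3 : n / q ^ 90 ≤ n * t := by
    rw [← mul_one_div]; exact mul_le_mul_of_nonneg_left (r 90 (by norm_num)) n0.le
  have a4 : n ^ 2 ≤ 9 / 4 * y ^ 2 := by nlinarith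
  have a5 : t * n ^ 2 ≤ t * (9 / 4 * y ^ 2) := mul_le_mul_of_nonneg_left a4 t0.le
  have a6 : (14 / q ^ 2 + 2 * 9600 / κ) * n ^ 2 ≤ (19214 * t) * n ^ 2 :=
    mul_le_mul_of_nonneg_right (by linarith) (by positivity)
  have a7 : n * t ≤ 3 / 2 * y * t := mul_le_mul_of_nonneg_right (by linarith) t0.le
  have a8 : y * d ≤ y * (t * y + 3 / 2 * y * t) := mul_le_mul_of_nonneg_left (by linarith) y0.le
  have a9 : 10 ^ 5 * t * y ^ 2 ≤ z * y ^ 2 := mul_le_mul_of_nonneg_right tz (by positivity)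
  have a10 : 0 ≤ t * y ^ 2 := by positivity
  nlinarith

theorem atn {ζ q n y κ : ℝ} (z0 : 0 < ζ) (hq : 2 ≤ q) (hk : 1 ≤ ζ ^ 3 * q) (hκ : 1 ≤ κ)
    (y0 : 0 < y) (n0 : 0 < n) (hy : 2 * n ≤ 3 * y) :
    2 * ζ * y ^ 2 + y * (n / q ^ 90) * q ^ 2 / (ζ ^ 2 * κ ^ 2) ≤ 3 * ζ * y ^ 2 := by
  have q0 : 0 < q := by linarith
  have q1 : 1 ≤ q := by linarith
  have a1 : n / q ^ 90 * q ^ 2 ≤ y * ζ ^ 3 := by
    have e : n / q ^ 90 * q ^ 2 = n / q ^ 88 := by field_simp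
    rw [e, div_le_iff₀ (by positivity)]
    have b1 : q ^ 2 ≤ q ^ 88 := pow_le_pow_right₀ q1 (by norm_num)
    have b2 : 2 ≤ ζ ^ 3 * q ^ 2 := by nlinarith
    have b3 : ζ ^ 3 * q ^ 2 ≤ ζ ^ 3 * q ^ 88 := mul_le_mul_of_nonneg_left b1 (by positivity)
    have b4 : y * 2 ≤ y * (ζ ^ 3 * q ^ 88) := mul_le_mul_of_nonneg_left (b2.trans b3) y0.le
    linarith
  have a2 : y * (n / q ^ 90) * q ^ 2 / (ζ ^ 2 * κ ^ 2) ≤ ζ * y ^ 2 := by
    rw [div_le_iff₀ (by positivity), mul_assoc]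
    have b1 : y * (n / q ^ 90 * q ^ 2) ≤ y * (y * ζ ^ 3) := mul_le_mul_of_nonneg_left a1 y0.le
    have b2 : ζ * y ^ 2 * ζ ^ 2 * 1 ≤ ζ * y ^ 2 * ζ ^ 2 * κ ^ 2 :=
      mul_le_mul_of_nonneg_left (one_le_pow₀ hκ) (by positivity)
    linarith
  linarith

end Lv1

theorem lv1 (h1 : EQM) (h2 : CLEAN) (h3 : SUBF1) (h4 : PHM) (h5 : PHI) (h6 : NUMJ) (h7 : SBS) :
    LV1 := by
  classical
  intro X PL K _ _ _ s A η κ a e Q Y h T q σ₁ u σ₃ n₀ γ j Z₀ R₀ L₀ G₀ W₀ C β hI h0 hC hc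
  obtain ⟨-, u2, -, q1, k1, uq, uk, -⟩ :=
    h6 e a Q.card κ q σ₁ u σ₃ n₀ γ j hI.e_pos hI.e_le hI.par
  have u0 := hI.par.u_pos
  have u1 : u ≤ 1 := u2.trans (by norm_num)
  have hph := hI.par.ph_le
  obtain ⟨cx, th⟩ := hI.stp.t3 Z₀ h0.sub h0.big
  have p1 : u ^ 11000 ≤ (u ^ 90) ^ 122 := by
    rw [← pow_mul]; exact pow_le_pow_of_le_one u0.le u1 (by norm_num)
  have e2 : u ^ 90 ≤ 1 / 10 ^ 100 := (pow_le_of_le_one u0.le u1 (by norm_num)).trans u2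
  have e0 : 0 < u ^ 90 := by positivity
  generalize u ^ 90 = ε at p1 e2 e0 ⊢
  generalize u ^ 11000 = w at p1 hph th uq uk
  have e1 : ε ≤ 1 := e2.trans (by norm_num)
  have pw : ∀ m : ℕ, m ≤ 122 → w ≤ ε ^ m := fun m hm =>
    p1.trans (pow_le_pow_of_le_one e0.le e1 hm)
  have q2 : (100 : ℝ) ≤ q := le_trans (by norm_num) q1
  have q0 : (0 : ℝ) < q := by linarith
  have q3 : (1 : ℝ) ≤ q := by linarith
  have kq : ∀ m : ℕ, m ≤ 122 → 1 ≤ ε ^ m * q := fun m hm =>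
    uq.trans (mul_le_mul_of_nonneg_right (pw m hm) q0.le)
  have kk : ∀ m : ℕ, m ≤ 122 → 1 ≤ ε ^ m * κ := fun m hm =>
    uk.trans (mul_le_mul_of_nonneg_right (pw m hm) (by linarith))
  have hZQ : Z₀ ⊆ Q := h0.sub.trans hI.stp.sub
  have y1 : (Z₀.card : ℝ) ≤ Q.card := Nat.cast_le.2 (card_le_card hZQ)
  have y2 : 2 * (Q.card : ℝ) ≤ 3 * Z₀.card := by exact_mod_cast h0.big
  have qn : ∀ m : ℕ, m ≤ 400 → (q : ℝ) ^ m ≤ Q.card := fun m hm =>
    (pow_le_pow_right₀ q3 hm).trans hI.par.q_hi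
  have qy : ∀ m : ℕ, m ≤ 399 → 7 * (q : ℝ) ^ m ≤ Z₀.card := fun m hm => by
    have b1 := qn (m + 1) (by omega)
    have b2 : (0 : ℝ) < (q : ℝ) ^ m := by positivity
    rw [pow_succ] at b1
    nlinarith
  have n0 : (0 : ℝ) < Q.card := lt_of_lt_of_le (by positivity) hI.par.q_hi
  have y7 : 7 * (q : ℝ) ≤ Z₀.card := by simpa using qy 1 (by norm_num)
  have y0 : (0 : ℝ) < Z₀.card := by linarith
  have y3 : 3 ≤ Z₀.card := by
    have : (3 : ℝ) ≤ Z₀.card := by linarith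
    exact_mod_cast this
  have hη : ∑ p, s.m p * (s.c p).eta ≤ 1 / (Q.card : ℝ) :=
    hI.ari.eta_sum.trans ((le_div_iff₀ n0).2 hI.eta)
  have hT := cx.Tlo
  have q100 : (q : ℝ) ≤ (q : ℝ) ^ 100 := le_self_pow₀ q3 (by norm_num)
  have s1 : (q : ℝ) ^ 100 / Z₀.card ≤ ε ^ 29 := by
    rw [div_le_iff₀ y0]
    have b1 := qy 101 (by norm_num)
    have b2 : (0 : ℝ) < (q : ℝ) ^ 100 := by positivity
    have b3 : (q : ℝ) ^ 100 * 1 ≤ (q : ℝ) ^ 100 * (ε ^ 29 * q) :=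
      mul_le_mul_of_nonneg_left (kq 29 (by norm_num)) b2.le
    have b4 : ε ^ 29 * (q : ℝ) ^ 101 ≤ ε ^ 29 * Z₀.card :=
      mul_le_mul_of_nonneg_left (by have : (0 : ℝ) < (q : ℝ) ^ 101 := by positivity
                                    linarith) (by positivity)
    have b5 : (q : ℝ) ^ 101 = (q : ℝ) ^ 100 * q := pow_succ _ 100
    rw [b5] at b4
    linarith
  obtain ⟨m1, m2⟩ := h1 X PL s (heavy Q) Z₀ h T (1 / Q.card) ((q : ℝ) ^ 100 / Z₀.card) (ε ^ 61) cx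
    hη y3 (by rw [div_mul_cancel₀ _ y0.ne']; linarith) (s1.trans (pow_le_one₀ e0.le e1))
    (by positivity)
  have m3 := m1 (th.trans (mul_le_mul_of_nonneg_right (mul_le_mul_of_nonneg_right
    (by rw [← pow_mul]; exact p1) (by linarith)) (by positivity)))
  set Y₁ := Mk s (heavy Q) Z₀ ((q : ℝ) ^ 100 / Z₀.card) (ε ^ 61 * T) with hY₁
  have hsub : Y₁ ⊆ Z₀ := filter_subset _ _
  have ns0 : (0 : ℝ) < Q.card / (q : ℝ) ^ 90 := by positivity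
  have nsq : (q : ℝ) ≤ Q.card / (q : ℝ) ^ 90 := by
    rw [le_div_iff₀ (by positivity), ← pow_succ']; exact qn 91 (by norm_num)
  have m4 := m2 Y₁ (ε ^ 60 * T) _ Subset.rfl ns0
    (Lv1.eqn e0 (e2.trans (by norm_num)) q2 (kq 60 (by norm_num)) (qn 92 (by norm_num)) y0 y1 hT)
  obtain ⟨At, Lo, a1, a2, a3⟩ := h2 X PL s (heavy Q) Z₀ Y₁ h T (1 / Q.card) ε _ _ (1 / ε) cx hη e0
    (e2.trans (by norm_num))
    (by
      rw [div_le_iff₀ n0]
      refine (kq 10 (by norm_num)).trans (mul_le_mul_of_nonneg_left ?_ (by positivity))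
      simpa using qn 1 (by norm_num))
    (by
      have b1 := kq 29 (by norm_num)
      have b2 : ε ^ 29 * (7 * (q : ℝ)) ≤ ε ^ 29 * Z₀.card :=
        mul_le_mul_of_nonneg_left y7 (by positivity)
      linarith)
    hsub m4 s1 ((kq 62 (by norm_num)).trans (mul_le_mul_of_nonneg_left nsq (by positivity)))
    ((le_div_iff₀ e0).2 (by linarith)) (by rw [one_div_mul_cancel e0.ne'])
  obtain ⟨ok, sf, hs⟩ := h3 X PL K s A η Z₀ (Y₁ \ Lo) At R₀ G₀ W₀ e (1 / e) ((q : ℝ) ^ 2) _ _ C β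
    (1 / 2 * W₀) 9600 Q.card κ (ε ^ 15) _ hI.ari h0.cln.cen h0.cln.conc
    ((le_div_iff₀ hI.e_pos).2 (by have := hI.e_le.trans (show _ ≤ (1 / 2 : ℝ) by norm_num)
                                  linarith))
    (by nlinarith) hC.cls (hC.tot.trans y1) hc (by linarith) k1 (by positivity)
    ((pow_le_of_le_one e0.le e1 (by norm_num)).trans (e2.trans (by norm_num)))
    fun y hy => (a1 y hy).le
  have hφ : Phi s.lab κ Z₀ ≤ ε ^ 61 * (Q.card : ℝ) ^ 2 :=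
    ((h5 X s.lab κ Q k1).1 Z₀ hZQ).trans
      ((h4.2 X s.lab κ a Q hI.par.a_lo (by linarith) hI.bad).1.trans
        (mul_le_mul_of_nonneg_right (hph.trans (pw 61 (by norm_num))) (by positivity)))
  have hd : ((Z₀ \ (Y₁ \ Lo)).card : ℝ) ≤ ε ^ 61 * Z₀.card + Q.card / (q : ℝ) ^ 90 := by
    have b1 : (Z₀ \ (Y₁ \ Lo)).card ≤ (Z₀ \ Y₁).card + Lo.card :=
      (card_le_card fun z hz => by
        simp only [mem_sdiff, mem_union] at hz ⊢
        tauto).trans (card_union_le _ _)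
    have b2 : ((Z₀ \ (Y₁ \ Lo)).card : ℝ) ≤ (Z₀ \ Y₁).card + Lo.card := by exact_mod_cast b1
    linarith
  have tz : 10 ^ 5 * ε ^ 61 ≤ ε ^ 20 := by
    have b1 : ε ^ 61 ≤ ε ^ 21 := pow_le_pow_of_le_one e0.le e1 (by norm_num)
    have b2 : ε ^ 20 * ε ≤ ε ^ 20 * (1 / 10 ^ 5) :=
      mul_le_mul_of_nonneg_left (e2.trans (by norm_num)) (by positivity)
    rw [pow_succ ε 20] at b1
    linarith
  have hS := h7 X s.lab Z₀ (Y₁ \ Lo) At ok sf _ κ _ _ (ε ^ 20) (3 * ε ^ 15) hs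
    (Lv1.badn (by positivity) tz q3 (kq 61 (by norm_num)) (by linarith) (kk 61 (by norm_num)) y0 n0
      y2 hφ hd)
    (Lv1.atn (by positivity) (by linarith) (by rw [← pow_mul]; exact kq 45 (by norm_num)) k1 y0 n0
      y2)
  obtain ⟨Z, z1, z2, z3⟩ := a3 ok sf (κ ^ 2) ((kk 60 (by norm_num)).trans
    (mul_le_mul_of_nonneg_left (le_self_pow₀ k1 (by norm_num)) (by positivity))) hS
  refine ⟨Z, z1.trans hsub, ?_, z3⟩
  have c1 : ((Z₀ \ Y₁).card : ℝ) + Y₁.card = Z₀.card := by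
    exact_mod_cast card_sdiff_add_card_eq_card hsub
  have c2 : ((Y₁ \ Z).card : ℝ) + Z.card = Y₁.card := by
    exact_mod_cast card_sdiff_add_card_eq_card z1
  have c3 : ε ^ 61 * Z₀.card ≤ 1 / 20 * Z₀.card := mul_le_mul_of_nonneg_right
    ((pow_le_of_le_one e0.le e1 (by norm_num)).trans (e2.trans (by norm_num))) y0.le
  have c4 : 10 ^ 8 * ε * Z₀.card ≤ 1 / 20 * Z₀.card := mul_le_mul_of_nonneg_right
    (by have := e2.trans (show _ ≤ (1 / 10 ^ 10 : ℝ) by norm_num)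
        linarith) y0.le
  have c5 : 3 * (Q.card : ℝ) ≤ 5 * Z.card := by linarith
  exact_mod_cast c5

end Pool.Agent.MP_6c3157_co.PQ
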