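import Pool.Agent.MP_6c3157_co.PQ.SpecJ

/-! Project PQ, row NUMJ. -/

set_option autoImplicit false

namespace Pool.Agent.MP_6c3157_co.PQ

theorem numj : NUMJ := by
  intro e a n κ q σ₁ u σ₃ n₀ γ j he he' P
  have hu := P.u_pos
  have hf := P.ph_pos
  have e1 : e ≤ 1 := he'.trans (by norm_num)
  have ue : u ≤ e := P.u_le.trans (pow_le_of_le_one he.le e1 (by norm_num))
  have u2 : u ≤ 1 / 10 ^ 100 := ue.trans (he'.trans (by norm_num))
  have u1 : u ≤ 1 := ue.trans e1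
  have fu : ph a n ≤ u := P.ph_le.trans (pow_le_of_le_one hu.le u1 (by norm_num))
  have f2 : ph a n ≤ 1 / 10 ^ 100 := fu.trans u2
  have key : ∀ t : ℝ, 1 ≤ t * ph a n ^ 2 → 10 ^ 100 ≤ ph a n * t := by
    intro t ht
    have h0 : 0 ≤ ph a n * t := by
      by_contra hc
      have := mul_pos hf (neg_pos.2 (not_le.1 hc))
      nlinarith
    have h1 : 1 ≤ ph a n * t * (1 / 10 ^ 100) :=
      ht.trans ((by ring : t * ph a n ^ 2 = ph a n * t * ph a n).le.trans
        (mul_le_mul_of_nonneg_left f2 h0))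
    linarith
  have key2 : ∀ t : ℝ, 10 ^ 100 ≤ ph a n * t → 10 ^ 100 ≤ t ∧ 1 ≤ u ^ 11000 * t := by
    intro t ht
    have t0 : 0 ≤ t := by
      by_contra hc
      have := mul_pos hf (neg_pos.2 (not_le.1 hc))
      linarith
    refine ⟨ht.trans ?_, le_trans (by linarith) (mul_le_mul_of_nonneg_right P.ph_le t0)⟩
    exact mul_le_of_le_one_left t0 (f2.trans (by norm_num))
  have kq := key _ P.q_lo
  have kk := key _ P.ka
  have q1 : (1 : ℝ) ≤ q := le_trans (by norm_num) (key2 _ kq).1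
  have s3 : σ₃ ≤ 1 := P.s3_le.trans (P.s1_le.trans (by norm_num))
  have h100 : (1 : ℝ) ≤ σ₃ * n₀ := (one_le_pow₀ q1).trans P.s3_n0
  have n0 : 0 ≤ n₀ := by
    by_contra hc
    have := mul_pos P.s3_pos (neg_pos.2 (not_le.1 hc))
    linarith
  have n1 : 1 ≤ n₀ := h100.trans (mul_le_of_le_one_left n0 s3)
  refine ⟨ue, u2, f2, (key2 _ kq).1, le_trans (by norm_num) (key2 _ kk).1, (key2 _ kq).2,
    (key2 _ kk).2, kq, kk, n1, le_trans ?_ P.n0_le⟩
  exact le_mul_of_one_le_right n0 (one_le_pow₀ q1)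

end Pool.Agent.MP_6c3157_co.PQ
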