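import Pool.Agent.MP_6c3157_co.PQ.AllB
import Pool.Agent.MP_6c3157_co.PQ.AllC
import Pool.Agent.MP_6c3157_co.PQ.AllD
import Pool.Agent.MP_6c3157_co.PQ.AllE
import Pool.Agent.MP_6c3157_co.PQ.AllF
import Pool.Agent.MP_6c3157_co.PQ.Gen
import Pool.Agent.MP_6c3157_co.PQ.Cnq
import Pool.Agent.MP_6c3157_co.PQ.Numj
import Pool.Agent.MP_6c3157_co.PQ.Sbs
import Pool.Agent.MP_6c3157_co.PQ.Lv0
import Pool.Agent.MP_6c3157_co.PQ.Lv1
import Pool.Agent.MP_6c3157_co.PQ.Final
import Pool.Agent.MP_6c3157_co.PQ.Step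

/-! Project PQ: assembly. -/

set_option autoImplicit false

namespace Pool.Agent.MP_6c3157_co.PQ

theorem all_gen : GEN := gen all_rare all_same

theorem all_step : STEP :=
  step (lv0 all_eqm all_clean all_subf0 phm all_phi numj sbs)
    (lv1 all_eqm all_clean all_subf1 phm all_phi numj sbs)
    (final all_dtop all_jump2 phm all_phi numj) all_cls2 (cnq all_gen) numj

theorem all_main : PQ.MAIN := main_of all_th ctxs all_step

end Pool.Agent.MP_6c3157_co.PQ
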