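import Pool.Agent.MP_6c3157_co.PQ.BasicB
import Pool.Agent.MP_6c3157_co.PD.Dq

/-! Project PQ, row B1P: discrepancy and small overlap of a subset. -/

set_option autoImplicit false
set_option linter.unusedSectionVars false

noncomputable section

namespace Pool.Agent.MP_6c3157_co.PQ

open Finset Pool.Agent.MP_6c3157_co.PD

namespace B1p

theorem bone_term (a b cy cz u L M hy hz e : ℝ) (ha : a = cy - u) (hb : b = cz - u)
    (hM : 0 ≤ M) (hid : |L + M - hy - hz| ≤ e) :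
    a * b * L + cy * cz * M ≤ a * b * (hy + hz) + |a| * |b| * e + (cy * u + cz * u) * M := by
  have h1 : a * b * (L + M - hy - hz) ≤ |a| * |b| * e := by
    refine (le_abs_self _).trans ?_
    rw [abs_mul, abs_mul]
    exact mul_le_mul_of_nonneg_left hid (by positivity)
  have h2 : 0 ≤ u ^ 2 * M := by positivity
  have h3 : a * b * M = cy * cz * M + u ^ 2 * M - (cy * u + cz * u) * M := by
    rw [ha, hb]; ring
  nlinarith

theorem bone_aux {X : Type} [DecidableEq X] (Y : Finset X) (c h : X → ℝ) (u F e : ℝ)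
    (L M : X → X → ℝ) (hc0 : ∀ y, 0 ≤ c y) (hu : 0 ≤ u) (hc1 : ∑ y ∈ Y, c y = 1)
    (hu1 : (Y.card : ℝ) * u = 1) (hF : ∀ y ∈ Y, L y y ≤ F) (hh : ∀ y ∈ Y, -2 ≤ h y)
    (hM0 : ∀ y z, 0 ≤ M y z) (hMs : ∀ y z, M y z = M z y) (he : 0 ≤ e)
    (hid : ∀ x ∈ Y, ∀ y ∈ Y, x ≠ y → |L x y + M x y - h x - h y| ≤ e) :
    ∑ y ∈ Y, ∑ z ∈ Y, (c y - u) * (c z - u) * L y z +
      ∑ y ∈ Y, ∑ z ∈ Y.erase y, c y * c z * M y z ≤
      (F + 4) * (∑ y ∈ Y, (c y - u) ^ 2) + 4 * e +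
        2 * u * ∑ y ∈ Y, c y * ∑ z ∈ Y.erase y, M y z := by
  have hs0 : ∑ y ∈ Y, (c y - u) = 0 := by
    rw [sum_sub_distrib, hc1, sum_const, nsmul_eq_mul, hu1, sub_self]
  have hsa : ∑ y ∈ Y, |c y - u| ≤ 2 := by
    have : ∑ y ∈ Y, |c y - u| ≤ ∑ y ∈ Y, (c y + u) :=
      sum_le_sum fun y _ => abs_le.2 ⟨by linarith [hc0 y], by linarith⟩
    rw [sum_add_distrib, hc1, sum_const, nsmul_eq_mul, hu1] at this
    linarith
  have hsa0 : 0 ≤ ∑ y ∈ Y, |c y - u| := sum_nonneg fun _ _ => abs_nonneg _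
  have e1 : ∑ y ∈ Y, ∑ z ∈ Y, (c y - u) * (c z - u) * (h y + h z) = 0 := by
    have : ∀ y z, (c y - u) * (c z - u) * (h y + h z) =
        ((c y - u) * h y) * (c z - u) + (c y - u) * ((c z - u) * h z) := fun y z => by ring
    simp only [this, sum_add_distrib, ← mul_sum, ← sum_mul, hs0, mul_zero, zero_mul, add_zero,
      sum_const_zero]
  have e2 : ∑ y ∈ Y, ∑ z ∈ Y.erase y, (c y - u) * (c z - u) * (h y + h z) ≤
      4 * ∑ y ∈ Y, (c y - u) ^ 2 := by
    have : ∑ y ∈ Y, ∑ z ∈ Y, (c y - u) * (c z - u) * (h y + h z) =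
        ∑ y ∈ Y, ((c y - u) * (c y - u) * (h y + h y) +
          ∑ z ∈ Y.erase y, (c y - u) * (c z - u) * (h y + h z)) :=
      sum_congr rfl fun y hy => (add_sum_erase Y _ hy).symm
    rw [e1, sum_add_distrib] at this
    have h4 : ∑ y ∈ Y, -(4 * (c y - u) ^ 2) ≤ ∑ y ∈ Y, (c y - u) * (c y - u) * (h y + h y) :=
      sum_le_sum fun y hy => by nlinarith [hh y hy, sq_nonneg (c y - u)]
    rw [sum_neg_distrib, ← mul_sum] at h4
    linarith
  have e3 : ∑ y ∈ Y, ∑ z ∈ Y.erase y, |c y - u| * |c z - u| * e ≤ 4 * e := by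
    have : ∑ y ∈ Y, ∑ z ∈ Y.erase y, |c y - u| * |c z - u| * e ≤
        ∑ y ∈ Y, ∑ z ∈ Y, |c y - u| * |c z - u| * e :=
      sum_le_sum fun y _ => sum_le_sum_of_subset_of_nonneg (erase_subset _ _)
        fun z _ _ => by positivity
    refine this.trans ?_
    simp only [← sum_mul, ← mul_sum]
    exact mul_le_mul_of_nonneg_right (by nlinarith) he
  have e4 : ∑ y ∈ Y, ∑ z ∈ Y.erase y, (c y * u + c z * u) * M y z =
      2 * u * ∑ y ∈ Y, c y * ∑ z ∈ Y.erase y, M y z := by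
    have h5 : ∑ y ∈ Y, ∑ z ∈ Y.erase y, c z * u * M y z =
        ∑ y ∈ Y, ∑ z ∈ Y.erase y, c y * u * M y z := by
      rw [sum_erase_comm]
      exact sum_congr rfl fun y _ => sum_congr rfl fun z _ => by rw [hMs]
    simp only [add_mul, sum_add_distrib]
    rw [h5, ← two_mul, mul_assoc]
    congr 1
    rw [mul_sum]
    refine sum_congr rfl fun y _ => ?_
    rw [← mul_sum]; ring
  have e5 : ∑ y ∈ Y, (c y - u) * (c y - u) * L y y ≤ F * ∑ y ∈ Y, (c y - u) ^ 2 := by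
    rw [mul_sum]
    exact sum_le_sum fun y hy => by nlinarith [hF y hy, sq_nonneg (c y - u)]
  have e6 : ∑ y ∈ Y, (∑ z ∈ Y, (c y - u) * (c z - u) * L y z +
      ∑ z ∈ Y.erase y, c y * c z * M y z) ≤
      ∑ y ∈ Y, ((c y - u) * (c y - u) * L y y +
        ∑ z ∈ Y.erase y, ((c y - u) * (c z - u) * (h y + h z) + |c y - u| * |c z - u| * e +
          (c y * u + c z * u) * M y z)) := by
    refine sum_le_sum fun y hy => ?_
    rw [← add_sum_erase Y _ hy, add_assoc, ← sum_add_distrib]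
    refine add_le_add le_rfl (sum_le_sum fun z hz => ?_)
    exact bone_term _ _ _ _ u _ _ _ _ _ rfl rfl (hM0 y z)
      (hid y hy z (mem_of_mem_erase hz) (ne_of_mem_erase hz).symm)
  simp only [sum_add_distrib] at e6
  linarith

end B1p

open B1p in
theorem b1p (hH : HIDE) : B1P := by
  intro X PL _ _ s hv Y C hh T η σ F hx hη h3 hC hne hF
  have hs := hx.good
  obtain ⟨h', hlo, hid⟩ := hH X PL s hv Y hh T η hx hη h3
  have hη0 : 0 ≤ η := (hs.sum_nonneg fun p => (hs.good p).eta_lo).trans hη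
  have hk : (0 : ℝ) < C.card := by exact_mod_cast hne.card_pos
  have hn : (0 : ℝ) < Y.card := by exact_mod_cast (hne.mono hC).card_pos
  have hF0 : 0 ≤ F := by
    obtain ⟨y, hy⟩ := hne
    exact (hs.Olg_nonneg σ y y).trans (hF y (hC hy))
  have hsum : ∀ f : X → ℝ, ∑ y ∈ Y, (if y ∈ C then 1 / (C.card : ℝ) else 0) * f y =
      (∑ y ∈ C, f y) / C.card := by
    intro f
    simp only [ite_mul, zero_mul]
    rw [sum_ite_mem, inter_eq_right.2 hC, ← mul_sum]
    ring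
  have hc1 : ∑ y ∈ Y, (if y ∈ C then 1 / (C.card : ℝ) else 0) = 1 := by
    have := hsum fun _ => 1
    simp only [mul_one, sum_const, nsmul_eq_mul] at this
    rw [this, div_self hk.ne']
  have hD : s.Disc hv Y σ C = ∑ y ∈ Y, ∑ z ∈ Y,
      ((if y ∈ C then 1 / (C.card : ℝ) else 0) - 1 / Y.card) *
        ((if z ∈ C then 1 / (C.card : ℝ) else 0) - 1 / Y.card) * s.Olg hv Y σ y z := by
    unfold Sys.Disc Sys.Olg
    simp only [dq X _ hv Y C σ hC hne, mul_sum]
    rw [sum_comm]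
    refine sum_congr rfl fun y _ => ?_
    rw [sum_comm]
    exact sum_congr rfl fun z _ => sum_congr rfl fun p _ => by ring
  have hsq : ∑ y ∈ Y, ((if y ∈ C then 1 / (C.card : ℝ) else 0) - 1 / (Y.card : ℝ)) ^ (2 : ℕ) ≤
      1 / (C.card : ℝ) := by
    have h1 : ∀ y : X, ((if y ∈ C then 1 / (C.card : ℝ) else 0) - 1 / (Y.card : ℝ)) ^ (2 : ℕ) =
        (if y ∈ C then 1 / (C.card : ℝ) else 0) * (1 / (C.card : ℝ) - 2 / (Y.card : ℝ)) +
          (1 / (Y.card : ℝ)) ^ 2 := by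
      intro y
      split_ifs <;> ring
    simp only [h1, sum_add_distrib, ← sum_mul, hc1, sum_const, nsmul_eq_mul]
    have h2 : (Y.card : ℝ) * (1 / (Y.card : ℝ)) ^ 2 = 1 / Y.card := by field_simp
    have h3 : 2 / (Y.card : ℝ) = 2 * (1 / Y.card) := by ring
    have h4 : 0 < 1 / (Y.card : ℝ) := by positivity
    linarith
  have hS : Sm s hv Y σ C = ∑ y ∈ Y, ∑ z ∈ Y.erase y,
      (if y ∈ C then 1 / (C.card : ℝ) else 0) * (if z ∈ C then 1 / (C.card : ℝ) else 0) *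
        s.Osm hv Y σ y z := by
    have h1 : ∀ y, ∑ z ∈ Y.erase y,
        (if y ∈ C then 1 / (C.card : ℝ) else 0) * (if z ∈ C then 1 / (C.card : ℝ) else 0) *
          s.Osm hv Y σ y z = (if y ∈ C then 1 / (C.card : ℝ) else 0) *
            ((∑ z ∈ C.erase y, s.Osm hv Y σ y z) / C.card) := by
      intro y
      simp only [mul_assoc, ← mul_sum]
      congr 1
      simp only [ite_mul, zero_mul]
      rw [sum_ite_mem, erase_inter, inter_eq_right.2 hC, ← mul_sum]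
      ring
    simp only [h1]
    rw [hsum, ← sum_div, div_div, ← sq]
    rfl
  have hmain := bone_aux Y (fun y => if y ∈ C then 1 / (C.card : ℝ) else 0) h' (1 / Y.card) F η
    (s.Olg hv Y σ) (s.Osm hv Y σ) (fun y => by positivity) (by positivity) hc1
    (by field_simp) hF hlo (hs.Osm_nonneg σ) (Sys.Osm_symm σ) hη0
    (fun x _ y _ hxy => by
      have := hid x y hxy
      rwa [Sys.O_eq Y σ, add_comm] at this)
  rw [hsum] at hmain
  rw [hD, hS]
  refine hmain.trans ?_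
  have h5 := mul_le_mul_of_nonneg_left hsq (show 0 ≤ F + 4 by linarith)
  have h6 : (F + 4) / C.card = (F + 4) * (1 / C.card) := by ring
  have h7 : 2 / (Y.card : ℝ) = 2 * (1 / Y.card) := by ring
  rw [h6, h7]
  linarith

end Pool.Agent.MP_6c3157_co.PQ
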