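import Pool.Agent.MP_6c3157_co.PQ.BasicB

/-! Project PQ, row BALL: truncated depth against the cells of a window. -/

set_option autoImplicit false
set_option linter.unusedSectionVars false

noncomputable section

namespace Pool.Agent.MP_6c3157_co.PQ

open Finset Pool.Agent.MP_6c3157_co.PD

theorem ballb : BALL := by
  intro X _ c r L g hc hr hrh hL hg y
  have hl := hc.lam_pos
  have hl1 := hc.lam_lo
  have hll := hc.log_lam
  have hxi := hc.xi_nonneg
  have hel := hc.eta_lo
  have heh := hc.eta_hi
  set b := r * Real.exp (-L) / c.lam with hb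
  have hb0 : 0 < b := by positivity
  have hlogb : Real.log b = Real.log r - L - Real.log c.lam := by
    rw [hb, Real.log_div (by positivity) hl.ne', Real.log_mul hr.ne' (Real.exp_pos _).ne',
      Real.log_exp]
    ring
  have heg : Real.exp (-g) ≤ 1 := Real.exp_le_one_iff.2 (by linarith)
  have hbg : b * Real.exp (-g) ≤ b := mul_le_of_le_one_right hb0.le heg
  have hbg0 : 0 < b * Real.exp (-g) := by positivity
  have hq : Real.log (b / (b * Real.exp (-g))) = g := by
    rw [Real.log_div hb0.ne' hbg0.ne', Real.log_mul hb0.ne' (Real.exp_pos _).ne', Real.log_exp]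
    ring
  have hlam0 : 0 ≤ Real.log c.lam := Real.log_nonneg hl1
  refine ⟨?_, fun z hyz => ?_⟩
  · have h2 := hc.c2 y (b * Real.exp (-g)) b hbg0 hbg
    rw [hq] at h2
    exact h2
  · have hd := hc.d_pos hyz
    have hW : 0 ≤ c.W fun i => balF c b g y i ∧ z ∈ i.2 := Cells.W_nonneg hc
    have hld : 0 < c.lam * c.d y z := by positivity
    have hlog1 : Real.log (b / (c.lam * c.d y z)) =
        Real.log (r / c.d y z) - L - 2 * Real.log c.lam := by
      rw [Real.log_div hb0.ne' hld.ne', Real.log_mul hl.ne' hd.ne', hlogb,
        Real.log_div hr.ne' hd.ne']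
      ring
    by_cases h1 : c.lam * c.d y z ≤ b
    · have hbr : b ≤ c.rhi := by
        refine le_trans ?_ hrh
        rw [hb, div_le_iff₀ hl]
        have : Real.exp (-L) ≤ 1 := Real.exp_le_one_iff.2 (by linarith)
        nlinarith
      have hlo : c.rlo ≤ c.lam * c.d y z := by
        have := hc.d_lo y z hyz
        have := hc.rlo_pos
        nlinarith
      set a := max (c.lam * c.d y z) (b * Real.exp (-g)) with ha
      have h3 := hc.c3 y a b (hlo.trans (le_max_left _ _)) (max_le h1 hbg) hbr
      have h4 : c.W (fun i => y ∈ i.2 ∧ a ≤ c.ρ i ∧ c.ρ i < b ∧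
          ∀ w, c.d y w ≤ c.ρ i / c.lam → w ∈ i.2) ≤ c.W fun i => balF c b g y i ∧ z ∈ i.2 := by
        refine Cells.W_mono hc fun i _ hi => ⟨⟨hi.1, (le_max_right _ _).trans hi.2.1, hi.2.2.1⟩,
          hi.2.2.2 z ?_⟩
        rw [le_div_iff₀ hl, mul_comm]
        exact (le_max_left _ _).trans hi.2.1
      have h5 : min (max 0 (Real.log (r / c.d y z))) g ≤
          Real.log (b / a) + L + 2 * Real.log c.lam := by
        rcases le_total (c.lam * c.d y z) (b * Real.exp (-g)) with h | h
        · rw [ha, max_eq_right h, hq]
          exact (min_le_right _ _).trans (by linarith)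
        · rw [ha, max_eq_left h]
          have h0 : 0 ≤ Real.log (b / (c.lam * c.d y z)) :=
            Real.log_nonneg ((one_le_div hld).2 h1)
          refine (min_le_left _ _).trans (max_le (by linarith) ?_)
          rw [hlog1]; linarith
      linarith
    · have h0 : Real.log (b / (c.lam * c.d y z)) ≤ 0 :=
        Real.log_nonpos (by positivity) ((div_le_one hld).2 (not_le.1 h1).le)
      rw [hlog1] at h0
      refine (min_le_left _ _).trans (max_le (by linarith) (by linarith))

end Pool.Agent.MP_6c3157_co.PQ
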