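import Pool.Agent.MP_6c3157_co.PQ.BasicB

/-! Project PQ, row CAL. -/

set_option autoImplicit false

namespace Pool.Agent.MP_6c3157_co.PQ

open Finset Pool.Agent.MP_6c3157_co.PD

theorem Cal.opt {a M B : ℝ} (hM : 0 ≤ M) (hB : 0 ≤ B)
    (h : ∀ t, 0 < t → a ≤ t / 2 * M + 1 / (2 * t) * B) : a ≤ Real.sqrt (M * B) := by
  by_contra k
  have a0 : 0 < a := (Real.sqrt_nonneg _).trans_lt (not_le.1 k)
  refine k (Real.le_sqrt_of_sq_le ?_)
  rcases hM.eq_or_lt with rfl | hM
  · have := h ((B + 1) / a) (by positivity)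
    rw [mul_zero, zero_add, one_div_mul_eq_div, le_div_iff₀ (by positivity)] at this
    field_simp at this
    linarith
  · have := h (a / M) (by positivity)
    field_simp at this
    linarith

theorem cal : CAL := by
  intro X PL _ _ s hv Y C σ M F hs hC hne hF hM
  have m0 := (hs.sum_nonneg fun p => Cells.W_nonneg (φ := F p) (hs.good p)).trans hM
  rw [← sub_le_iff_le_add']
  refine Cal.opt m0 (Disc_nonneg hs C) fun t ht => sub_le_iff_le_add'.2 ?_
  have key : ∀ p, (s.c p).WS (F p) (shr hv C) ≤ (s.c p).WS (F p) (shr hv Y) +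
      (t / 2 * (s.c p).W (F p) + 1 / (2 * t) * (s.c p).disc hv Y σ C) := fun p => by
    refine (Cells.WS_le (f' := fun i => shr hv Y i + (t / 2 + 1 / (2 * t) *
      (shr hv C i - shr hv Y i) ^ 2)) (hs.good p) fun i _ _ => ?_).trans ?_
    · rw [← sub_le_iff_le_add', ← sub_le_iff_le_add', one_div_mul_eq_div,
        le_div_iff₀ (by positivity)]
      nlinarith [sq_nonneg (shr hv C i - shr hv Y i - t)]
    · rw [Cells.WS_add, Cells.WS_add, Cells.WS_const, Cells.WS_mul]
      gcongr
      exact Cells.WS_mono (hs.good p) (fun i hi h =>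
        ⟨hF p i hi h, (shr_sq hne (hne.mono hC) i).le⟩) fun _ _ _ => sq_nonneg _
  refine (hs.sum_le key).trans ?_
  simp only [mul_add, sum_add_distrib, mul_left_comm (s.m _), ← mul_sum]
  gcongr
  exact le_rfl

end Pool.Agent.MP_6c3157_co.PQ
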