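import Pool.Agent.MP_6c3157_co.PQ.BasicB

/-! Project PQ: the top statement of part B. -/

set_option autoImplicit false

noncomputable section

namespace Pool.Agent.MP_6c3157_co.PQ

open Finset Pool.Agent.MP_6c3157_co.PD

theorem clean (hA : TYA) (hL : TYL) (hD : DS) (hC : CLEAN0) : CLEAN := by
  intro X PL _ _ s hv Y Y₁ h T η ε σ₀ ns Λ hx hη e0 e1 hηε hn hY hE hσ hns hΛ hΛε
  have hT : 0 < T := by linarith [hx.Tlo]
  have e2 : ε ≤ 1 / 100 := e1.trans (by norm_num)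
  have e3 : ε ≤ 1 := by linarith
  have p29 : 0 < ε ^ 29 := by positivity
  have p15 : 0 < ε ^ 15 := by positivity
  have q29 : ε ^ 29 ≤ 1 := pow_le_one₀ e0.le e3
  have ns0 : 0 < ns := by
    by_contra hc
    have := mul_nonpos_of_nonneg_of_nonpos (pow_pos e0 62).le (not_lt.1 hc)
    linarith
  have k0 : 0 ≤ ε ^ 15 * T := by positivity
  have kk : (ε ^ 15 * T) ^ 2 = ε ^ 30 * T ^ 2 := by ring
  have p30 : 0 < ε ^ 30 * T ^ 2 := by positivity
  refine ⟨Atp s hv Y Y₁ (ε ^ 29) (ε ^ 15 * T), Low s hv Y Y₁ (ε ^ 29) (ε ^ 15 * T), ?_, ?_, ?_⟩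
  · refine hA X PL s hv Y Y₁ h T σ₀ _ _ ns _ hx hY hE ns0 hσ q29 (by linarith) k0 ?_
    have : 7 * T / ε ^ 29 * (ε ^ 60 * T) = 7 * ε * (ε ^ 30 * T ^ 2) := by field_simp
    rw [this, kk]
    nlinarith
  · refine hL X PL s hv Y Y₁ h T σ₀ _ _ ns _ hx hY hE ns0 hσ q29 hn k0 ?_
    have : 2 * T * (ε ^ 60 * T) = 2 * ε ^ 30 * (ε ^ 30 * T ^ 2) := by ring
    rw [this, kk]
    have h30 : ε ^ 30 ≤ ε := by
      have := pow_le_pow_of_le_one e0.le e3 (show 1 ≤ 30 by norm_num)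
      simpa using this
    nlinarith
  · intro ok C l hl hS
    have l0 : 0 < l := by
      by_contra hc
      have := mul_nonpos_of_nonneg_of_nonpos (pow_pos e0 60).le (not_lt.1 hc)
      linarith
    have h1 := hD X PL s hv Y Y₁ h T _ _ _ _ _ l _ ok C hx hY q29 (by linarith) k0 k0 p15 l0 hS
    have h13 : 1 ≤ ε ^ 13 * Y.card := by
      have : ε ^ 29 ≤ ε ^ 13 := pow_le_pow_of_le_one e0.le e3 (by norm_num)
      have := mul_le_mul_of_nonneg_right this (Nat.cast_nonneg (α := ℝ) Y.card)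
      linarith
    refine hC X PL s hv Y Y₁ _ h T η ε σ₀ ns Λ l _ _ ok C hx hη e0 e1 hηε h13 hY hE hns hΛ hΛε hS
      (h1.trans (mul_le_mul_of_nonneg_right ?_ (sq_nonneg _)))
    have h2 : 7 * T / (ε ^ 29 * ε ^ 15 * l) ≤ 7 * ε ^ 16 * T := by
      rw [div_le_iff₀ (by positivity)]
      have : 7 * ε ^ 16 * T * (ε ^ 29 * ε ^ 15 * l) = 7 * T * (ε ^ 60 * l) := by ring
      rw [this]
      nlinarith
    have h3 : 0 < ε ^ 14 * T := by positivity
    have h4 : ε ^ 16 * T = ε * ε * (ε ^ 14 * T) := by ring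
    have h5 : ε ^ 15 * T = ε * (ε ^ 14 * T) := by ring
    have h6 : T * (3 * ε ^ 15) = 3 * (ε ^ 15 * T) := by ring
    have h7 : ε * ε ≤ 1 / 100 := by nlinarith
    rw [h6, h5]
    rw [mul_assoc 7, h4] at h2
    nlinarith

end Pool.Agent.MP_6c3157_co.PQ
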