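import Pool.Agent.MP_6c3157_co.PQ.BasicB

/-! Project PQ, row CLEAN0: the clean model from the discrepancy of the chosen parts. -/

set_option autoImplicit false
set_option linter.unusedSectionVars false

noncomputable section

namespace Pool.Agent.MP_6c3157_co.PQ

open Finset Pool.Agent.MP_6c3157_co.PD

theorem clean0 (hG : GEOT) (hU : USUM) (hT : TBIG) (hH : HZS) (hW : WTS) (hC : CONC) (hM : MASS)
    (hL : LHL) : CLEAN0 := by
  classical
  intro X PL _ _ s hv Y Y₁ B h T η ε σ₀ ns Λ l a At ok C hx heta he0 he1 hη hY hY₁ hEQ hns hΛ hΛe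
    hS hD
  have he2 : ε ≤ 1 / 10 ^ 9 := he1.trans (by norm_num)
  have he3 : ε ≤ 1 := he1.trans (by norm_num)
  have hY0 : (0 : ℝ) ≤ Y.card := Nat.cast_nonneg _
  have hp : ∀ k : ℕ, ε ^ (k + 1) ≤ 1 / 10 ^ 9 := fun k => by
    rw [pow_succ]
    exact (mul_le_of_le_one_left he0.le (pow_le_one₀ he0.le he3)).trans he2
  have hτ0 : 0 < ε ^ 2 := by positivity
  have hτ1 : ε ^ 2 ≤ 1 / 1000 := (hp 1).trans (by norm_num)
  have hτY : 4 ≤ ε ^ 2 * Y.card := by
    have a1 := mul_le_mul_of_nonneg_right (hp 10) (mul_nonneg hτ0.le hY0)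
    have a2 : ε ^ (10 + 1) * (ε ^ 2 * Y.card) = ε ^ 13 * Y.card := by ring
    linarith
  have hY4 : (4 : ℝ) ≤ Y.card := by
    have := mul_le_mul_of_nonneg_right hτ1 hY0
    linarith
  choose γ hγ using fun p => hG X (s.c p) Y (ε ^ 2) (hx.good.good p) hτ0 hτ1 (by linarith)
  have hct : CT s hv Y h T γ (ε ^ 2) η :=
    ⟨hx, hγ, hτ0, hτ1, heta, hη.trans (pow_le_one₀ he0.le he3)⟩
  have h1 := hU X PL s hv Y B h T η ε l a γ At ok C hct he0 he1 hη hY hS hD
  obtain ⟨t1, t2, t3, t4⟩ := hT X PL s hv Y h T η ε γ hct he0 he1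
    (by exact_mod_cast (show (2 : ℝ) ≤ Y.card by linarith)) h1
  set L : PL → ℝ := fun p => lm (s.c p) hv Y (γ p) (ε ^ 2) with hLd
  have hlz : ∀ p, ∀ x ∈ Y, lz (γ p) x ≤ L p := fun p =>
    (hL X (s.c p) hv Y (γ p) (ε ^ 2) (hct.pt p)).1
  have h2 := hH X PL s hv Y B h T η ε l a γ L At ok C hct he0 he1 hY hS hD t1 hlz t2
  have hT0 : 0 < T := by linarith [hx.Tlo]
  have heT : 400 ≤ ε * T := by
    have a1 := mul_le_mul_of_nonneg_right (hp 3) (mul_pos he0 hT0).le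
    have a2 : ε ^ (3 + 1) * (ε * T) = ε ^ 5 * T := by ring
    linarith
  have htall : ((Y.filter fun y => ¬ gs s γ y ≤ ε * T / 100).card : ℝ) ≤ 10 ^ 8 * ε * Y.card := by
    have a1 : ((Y.filter fun y => ¬ gs s γ y ≤ ε * T / 100).card : ℝ) * (ε * T / 100) ≤
        ∑ y ∈ Y.filter fun y => ¬ gs s γ y ≤ ε * T / 100, gs s γ y := by
      rw [← nsmul_eq_mul]
      exact card_nsmul_le_sum _ _ _ fun y hy => (not_le.1 (mem_filter.1 hy).2).le
    have a2 : ∑ y ∈ Y.filter fun y => ¬ gs s γ y ≤ ε * T / 100, gs s γ y ≤ ∑ y ∈ Y, gs s γ y :=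
      sum_le_sum_of_subset_of_nonneg (filter_subset _ _) fun y _ _ => gs_nonneg hx.good γ y
    refine le_of_mul_le_mul_right (a := ε * T / 100) ?_ (by linarith)
    have a3 : 10 ^ 8 * ε * Y.card * (ε * T / 100) = 10 ^ 6 * ε ^ 2 * T * Y.card := by ring
    linarith
  have hTW : T ≤ 20 * ∑ p, s.m p * Real.log (γ p).r := by
    have a1 : ((Y.filter fun y => gs s γ y ≤ ε * T / 100).card : ℝ) +
        (Y.filter fun y => ¬ gs s γ y ≤ ε * T / 100).card = Y.card := by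
      exact_mod_cast card_filter_add_card_filter_not _
    have a2 := mul_le_mul_of_nonneg_right he2 hY0
    have a3 : 1 < (Y.filter fun y => gs s γ y ≤ ε * T / 100).card := by
      have : (1 : ℝ) < (Y.filter fun y => gs s γ y ≤ ε * T / 100).card := by linarith
      exact_mod_cast this
    obtain ⟨x, b1, y, b2, b3⟩ := one_lt_card.1 a3
    exact hW X PL s hv Y h T η ε γ hct he0 he1 t1 t3 x (mem_filter.1 b1).1 y (mem_filter.1 b2).1 b3
      (mem_filter.1 b1).2 (mem_filter.1 b2).2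
  set W := ∑ p, s.m p * Real.log (γ p).r with hWd
  have heW := mul_le_mul_of_nonneg_left hTW he0.le
  have hW20 : 20 ≤ ε * W := by linarith
  have hLs : ∑ p, s.m p * L p ≤ ε * W := by
    have a1 := mul_le_mul_of_nonneg_right he2 (mul_pos he0 hT0).le
    have a2 : 200000 * ε ^ 2 * T = 200000 * (ε * (ε * T)) := by ring
    linarith
  have hZ : Y₁.filter (fun y => gs s γ y ≤ ε * T / 100) ⊆ Y₁ := filter_subset _ _
  refine ⟨_, hZ, le_trans (Nat.cast_le.2 (card_le_card fun y hy => ?_)) htall,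
    fun p => (γ p).r, L, fun p => (s.c p).G (γ p), W,
    ⟨fun p => (hγ p).r_pos (hx.good.good p), rfl, he0, he1.trans (by norm_num), hW20,
      fun p x => Cells.G_nonneg _ _, fun x hx' => ?_,
      fun p x _ y _ => pair_le (hx.good.good p) ((hγ p).r_pos (hx.good.good p)) x y⟩,
    fun p => (lz_nonneg _ _).trans (hlz p _ (hγ p).cen_mem), hLs,
    fun p x hx' => (hM X (s.c p) hv Y (γ p) (ε ^ 2) (L p) (hct.pt p) (hlz p) x
      (hY₁ (hZ hx'))).2.1,
    fun p x hx' => (hM X (s.c p) hv Y (γ p) (ε ^ 2) (L p) (hct.pt p) (hlz p) x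
      (hY₁ (hZ hx'))).2.2,
    hC X PL s hv Y Y₁ _ h T η ε σ₀ ns Λ W γ L hct he0 he1 hZ hY₁ hEQ hns hΛ hΛe hTW t4 hW20 hlz
      hLs, hTW, t4⟩
  · obtain ⟨b1, b2⟩ := mem_sdiff.1 hy
    exact mem_filter.2 ⟨hY₁ b1, fun b3 => b2 (mem_filter.2 ⟨b1, b3⟩)⟩
  · have b1 : gs s γ x ≤ ε * T / 100 := (mem_filter.1 hx').2
    change gs s γ x ≤ _
    linarith

end Pool.Agent.MP_6c3157_co.PQ
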