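import Pool.Agent.MP_6c3157_co.PQ.BasicB

/-! Project PQ, row CONC: concentration of truncated depths. -/

set_option autoImplicit false
set_option linter.unusedSectionVars false

noncomputable section

namespace Pool.Agent.MP_6c3157_co.PQ

open Finset Pool.Agent.MP_6c3157_co.PD

namespace ConcAux

theorem n1 {ε T W Λ ns k : ℝ} (he : 0 < ε) (he1 : ε ≤ 1 / 10 ^ 20) (hT : 0 ≤ T) (hW : 0 ≤ W)
    (hn : 1 ≤ ε ^ 62 * ns) (hk : ns ≤ k) (hΛ : 1 ≤ Λ) (hΛe : Λ * ε ≤ 1) (hWT : W ≤ 5 * T) :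
    21 / 20 * Λ * W ≤ ε ^ 60 * T * k := by
  have h0 : 0 < ε ^ 62 := pow_pos he _
  have hns : 0 ≤ ns := by
    by_contra hc
    have := mul_neg_of_pos_of_neg h0 (not_le.1 hc)
    linarith
  have h1 : 0 ≤ ε ^ 60 * T := mul_nonneg (pow_pos he _).le hT
  have h2 : 0 ≤ ε ^ 60 * ns := mul_nonneg (pow_pos he _).le hns
  have h3 : 21 / 20 * Λ * W * (ε * ε) ≤ T := by
    have a1 : Λ * ε * W ≤ W := by nlinarith
    have a2 : Λ * ε * W * ε ≤ W * ε := mul_le_mul_of_nonneg_right a1 he.le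
    have a3 : W * ε ≤ W * (1 / 10 ^ 20) := mul_le_mul_of_nonneg_left he1 hW
    nlinarith
  calc 21 / 20 * Λ * W ≤ 21 / 20 * Λ * W * (ε ^ 62 * ns) :=
        le_mul_of_one_le_right (by positivity) hn
    _ = 21 / 20 * Λ * W * (ε * ε) * (ε ^ 60 * ns) := by ring
    _ ≤ T * (ε ^ 60 * ns) := mul_le_mul_of_nonneg_right h3 h2
    _ = ε ^ 60 * T * ns := by ring
    _ ≤ ε ^ 60 * T * k := mul_le_mul_of_nonneg_left hk h1

theorem n2 {ε T W Λ : ℝ} (he : 0 < ε) (he1 : ε ≤ 1 / 10 ^ 20) (hT : 0 ≤ T) (hW : 0 ≤ W)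
    (hΛe : Λ * ε ≤ 1) (hTW : T ≤ 20 * W) :
    Real.sqrt (21 / 20 * Λ * W * (ε ^ 60 * T)) ≤ ε * W / 100 := by
  refine Real.sqrt_le_iff.2 ⟨by positivity, ?_⟩
  have a0 : ε ^ 57 ≤ ε := by
    have := pow_le_pow_of_le_one he.le (by linarith : ε ≤ 1) (by norm_num : 1 ≤ 57)
    simpa using this
  have a1 : ε ^ 57 * T ≤ 1 / 10 ^ 20 * (20 * W) :=
    mul_le_mul (a0.trans he1) hTW hT (by norm_num)
  have a2 : Λ * ε * (ε ^ 57 * T) ≤ ε ^ 57 * T :=
    mul_le_of_le_one_left (by positivity) hΛe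
  have a3 : 0 ≤ ε ^ 2 * W := by positivity
  have a4 : ε ^ 2 * W * (21 / 20 * (Λ * ε * (ε ^ 57 * T))) ≤ ε ^ 2 * W * (W / 10 ^ 4) :=
    mul_le_mul_of_nonneg_left (by linarith) a3
  calc 21 / 20 * Λ * W * (ε ^ 60 * T) = ε ^ 2 * W * (21 / 20 * (Λ * ε * (ε ^ 57 * T))) := by ring
    _ ≤ ε ^ 2 * W * (W / 10 ^ 4) := a4
    _ = (ε * W / 100) ^ 2 := by ring

end ConcAux

open ConcAux

theorem conc (hB : BALL) (hM : MASS) (hC : CA) : CONC := by
  intro X PL _ _ s hv Y Y₁ Z h T η ε σ₀ ns Λ W γ L hx he he1 hZ hY₁ hE hn hΛ hΛe hTW hWT heW hL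
    hLs C hCZ hCn y hy g hg hgs
  have hs := hx.ctx.good
  have hT : 0 ≤ T := by linarith [hx.ctx.Tlo]
  have hW : 20 ≤ W := by
    by_contra hc
    have h1 : ε * W ≤ ε * 20 := mul_le_mul_of_nonneg_left (not_le.1 hc).le he.le
    linarith
  have hW0 : 0 ≤ W := by linarith
  have hyY : y ∈ Y := hY₁ (hZ hy)
  have hCY : C ⊆ Y := fun z hz => hY₁ (hZ (hCZ hz))
  have hMk := n1 he he1 hT hW0 hn hCn hΛ hΛe hWT
  have hk : (0 : ℝ) < C.card := by
    rcases (Nat.cast_nonneg (α := ℝ) C.card).eq_or_lt with h0 | h0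
    · rw [← h0] at hMk
      nlinarith
    · exact h0
  have hCne : C.Nonempty := card_pos.1 (by exact_mod_cast hk)
  have hL0 : ∀ p, 0 ≤ L p := fun p => (lz_nonneg _ y).trans (hL p y hyY)
  set F : PL → ℕ × Finset X → Prop := fun p =>
    balF (s.c p) ((γ p).r * Real.exp (-L p) / (s.c p).lam) (g p) y with hF
  have hb := fun p => hB X (s.c p) (γ p).r (L p) (g p) (hs.good p)
    ((hx.geo p).r_pos (hs.good p)) (hx.geo p).r_hi (hL0 p) (hg p) y
  have hm : ∀ p, ∀ i ∈ (s.c p).I, F p i →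
      ¬ hv i ∧ ((Y ∩ i.2).card : ℝ) ≤ ε ^ 2 / 2 * Y.card := fun p i hi hf =>
    (hM X (s.c p) hv Y (γ p) (ε ^ 2) (L p) (hx.pt p) (hL p) y hyY).1 i hi hf.1 hf.2.2
  have h1 : ∑ p, s.m p * (s.c p).W (F p) ≤ 21 / 20 * Λ * W := by
    have a1 : ∑ p, s.m p * (s.c p).W (F p) ≤ ∑ p, s.m p * (g p + (s.c p).eta) :=
      hs.sum_le fun p => (hb p).1
    simp only [mul_add, sum_add_distrib] at a1
    have a2 : W ≤ Λ * W := le_mul_of_one_le_left hW0 hΛ
    linarith [hx.eta, hx.eta_le]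
  have h2 := hC X PL s hv Y C σ₀ _ (ε ^ 60 * T) F hs hCY hCne h1
    (hE C (hCZ.trans hZ) hCn) ((div_le_iff₀ hk).2 hMk)
  have hYk := (hx.geo (Classical.choice (by
    by_contra hc
    have := hs.g_sum
    rw [not_nonempty_iff] at hc
    rw [univ_eq_empty, sum_empty] at this
    norm_num at this))).card_pos
  have h3 : ∑ p, s.m p * (s.c p).WS (F p) (shr hv Y) ≤ 21 / 40 * (ε * W) := by
    have a1 : ∑ p, s.m p * (s.c p).WS (F p) (shr hv Y) ≤
        ∑ p, s.m p * (ε ^ 2 / 2 * (s.c p).W (F p)) := by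
      refine hs.sum_le fun p => ?_
      rw [← Cells.WS_const]
      refine Cells.WS_le (hs.good p) fun i hi hf => ?_
      rw [shr_light (hm p i hi hf).1, div_le_iff₀ hYk]
      exact (hm p i hi hf).2
    have a2 : ∑ p, s.m p * (ε ^ 2 / 2 * (s.c p).W (F p)) =
        ε ^ 2 / 2 * ∑ p, s.m p * (s.c p).W (F p) := by
      rw [mul_sum]; exact sum_congr rfl fun p _ => by ring
    have a3 : ε ^ 2 / 2 * ∑ p, s.m p * (s.c p).W (F p) ≤ ε ^ 2 / 2 * (21 / 20 * Λ * W) :=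
      mul_le_mul_of_nonneg_left h1 (by positivity)
    have a4 : Λ * ε * (ε * W) ≤ ε * W := mul_le_of_le_one_left (by positivity) hΛe
    nlinarith
  have h4 := n2 he he1 hT hW0 hΛe hTW
  have h5 : ∀ z ∈ C.erase y, ∑ p, s.m p * min (max 0 (dep s (fun q => (γ q).r) p y z)) (g p) ≤
      4 * (∑ p, s.m p * (s.c p).W (fun i => F p i ∧ inC hv i z)) + 4 * (ε * W) := by
    intro z hz
    have a1 : ∑ p, s.m p * min (max 0 (dep s (fun q => (γ q).r) p y z)) (g p) ≤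
        ∑ p, s.m p * (4 * (s.c p).W (fun i => F p i ∧ inC hv i z) + L p + 3 * (s.c p).xi) := by
      refine hs.sum_le fun p => ((hb p).2 z (ne_of_mem_erase hz).symm).trans ?_
      have : (s.c p).W (fun i => F p i ∧ z ∈ i.2) ≤ (s.c p).W (fun i => F p i ∧ inC hv i z) :=
        Cells.W_mono (hs.good p) fun i hi hf => ⟨hf.1, Or.inr ⟨(hm p i hi hf.1).1, hf.2⟩⟩
      linarith
    have a2 : ∑ p, s.m p * (4 * (s.c p).W (fun i => F p i ∧ inC hv i z) + L p + 3 * (s.c p).xi) =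
        4 * (∑ p, s.m p * (s.c p).W (fun i => F p i ∧ inC hv i z)) + ∑ p, s.m p * L p +
          3 * ∑ p, s.m p * (s.c p).xi := by
      rw [mul_sum, mul_sum, ← sum_add_distrib, ← sum_add_distrib]
      exact sum_congr rfl fun p _ => by ring
    linarith [hs.xi_sum]
  have h6 : ∑ z ∈ C, ∑ p, s.m p * (s.c p).W (fun i => F p i ∧ inC hv i z) =
      C.card * ∑ p, s.m p * (s.c p).WS (F p) (shr hv C) := by
    rw [sum_comm, mul_sum]
    refine sum_congr rfl fun p _ => ?_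
    rw [← mul_sum, sum_W_shr]; ring
  have h7 : ∑ z ∈ C.erase y,
      (4 * (∑ p, s.m p * (s.c p).W (fun i => F p i ∧ inC hv i z)) + 4 * (ε * W)) ≤
      ∑ z ∈ C, (4 * (∑ p, s.m p * (s.c p).W (fun i => F p i ∧ inC hv i z)) + 4 * (ε * W)) := by
    refine sum_le_sum_of_subset_of_nonneg (erase_subset y C) fun z _ _ => ?_
    have := hs.sum_nonneg (f := fun p => (s.c p).W (fun i => F p i ∧ inC hv i z))
      fun p => Cells.W_nonneg (hs.good p)
    positivity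
  refine (sum_le_sum h5).trans (h7.trans ?_)
  rw [sum_add_distrib, ← mul_sum, h6, sum_const, nsmul_eq_mul]
  have h8 : C.card * ∑ p, s.m p * (s.c p).WS (F p) (shr hv C) ≤ C.card * (ε * W) :=
    mul_le_mul_of_nonneg_left (by linarith) hk.le
  nlinarith

end Pool.Agent.MP_6c3157_co.PQ
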