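import Pool.Agent.MP_6c3157_co.PQ.BasicB

/-! Project PQ, row DS: total discrepancy of the chosen parts. -/

set_option autoImplicit false
set_option linter.unusedSectionVars false

noncomputable section

namespace Pool.Agent.MP_6c3157_co.PQ

open Finset Pool.Agent.MP_6c3157_co.PD

namespace Ds

theorem const_le {X : Type} [DecidableEq X] (Y : Finset X) {c : ℝ} (hc : 0 ≤ c) :
    ∑ x ∈ Y, ∑ _y ∈ Y.erase x, c ≤ c * (Y.card : ℝ) ^ 2 := by
  calc ∑ x ∈ Y, ∑ _y ∈ Y.erase x, c ≤ ∑ _x ∈ Y, (Y.card : ℝ) * c := by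
        refine sum_le_sum fun x _ => ?_
        rw [sum_const, nsmul_eq_mul]
        exact mul_le_mul_of_nonneg_right (Nat.cast_le.2 card_erase_le) hc
    _ = _ := by rw [sum_const, nsmul_eq_mul]; ring

end Ds

open Classical in
theorem ds (hT : TYD) : DS := by
  intro X PL _ _ s hv Y Y₁ h T σ k k' ζ b l a ok C hx h1 hσ h2 hk hk' hζ hl hS
  have T0 : 0 ≤ T := by linarith [hx.Tlo]
  have σ0 : 0 < σ := by
    by_contra q
    nlinarith [Nat.cast_nonneg (α := ℝ) Y.card]
  have c0 : 0 ≤ 7 * T / (σ * ζ * l) + k + k' := by positivity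
  have key : dsum s hv Y σ ok C ≤ ∑ x ∈ Y, ∑ y ∈ Y.erase x, ((7 * T / (σ * ζ * l) + k + k') +
      T * if ok x y then (∑ z ∈ C x y, (((C x y).erase z ∩ Atp s hv Y Y₁ σ k z).card : ℝ)) /
        ((C x y).card : ℝ) ^ 2 else 0) := by
    refine sum_le_sum fun x hx' => sum_le_sum fun y hy => ?_
    by_cases q : ok x y
    · obtain ⟨-, s2, s3, s4⟩ := hS.sub x hx' y hy q
      have s5 : ζ * l ≤ (C x y).card := (mul_le_mul_of_nonneg_left s4 hζ.le).trans s3
      have s6 : (0 : ℝ) < (C x y).card := (mul_pos hζ hl).trans_le s5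
      have s7 := hT X PL s hv Y Y₁ (C x y) h T σ k k' hx h1 hσ h2 hk s2
        (card_pos.1 (Nat.cast_pos.1 s6))
      have s8 : 7 * T / (σ * (C x y).card) ≤ 7 * T / (σ * ζ * l) :=
        div_le_div_of_nonneg_left (by positivity) (by positivity)
          (by rw [mul_assoc]; exact mul_le_mul_of_nonneg_left s5 σ0.le)
      rw [if_pos q, if_pos q]
      linarith
    · rw [if_neg q, if_neg q, mul_zero, add_zero]
      exact c0
  simp only [sum_add_distrib (f := fun _ => 7 * T / (σ * ζ * l) + k + k'), ← mul_sum] at key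
  rw [sum_add_distrib, ← mul_sum] at key
  have e1 := Ds.const_le Y c0
  have e2 := mul_le_mul_of_nonneg_left hS.cost T0
  linarith

end Pool.Agent.MP_6c3157_co.PQ
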