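import Pool.Agent.MP_6c3157_co.PQ.BasicB
import Pool.Agent.MP_6c3157_co.PD.Bones
import Pool.Agent.MP_6c3157_co.PD.Bone
import Pool.Agent.MP_6c3157_co.PD.Dg
import Pool.Agent.MP_6c3157_co.PD.Dq
import Pool.Agent.MP_6c3157_co.PD.Fib
import Pool.Agent.MP_6c3157_co.PD.Geo

/-! Project PQ, row EQM: the points with little small overlap. -/

set_option autoImplicit false

namespace Pool.Agent.MP_6c3157_co.PQ

open Finset Pool.Agent.MP_6c3157_co.PD

theorem eqm (hB : B1P) : EQM := by
  intro X PL _ _ s hv Y h T η σ t hx hη h3 h2 h1 ht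
  have T0 : 0 < T := by linarith [hx.Tlo]
  have Y0 : (0 : ℝ) < Y.card := by exact_mod_cast (by omega : 0 < Y.card)
  have o : ∀ y, 0 ≤ ∑ z ∈ Y.erase y, s.Osm hv Y σ y z := fun y =>
    sum_nonneg fun z _ => hx.good.Osm_nonneg σ y z
  refine ⟨fun hT => ?_, fun Y₁ e ns hY n0 he C hC hn => ?_⟩
  · have a := card_nsmul_le_sum (Y \ Mk s hv Y σ (t * T))
      (fun y => ∑ z ∈ Y.erase y, s.Osm hv Y σ y z) (t * T * Y.card) fun y hy => by
        rw [mem_sdiff, Mk, mem_filter] at hy
        exact le_of_not_ge fun u => hy.2 ⟨hy.1, u⟩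
    have b := a.trans ((sum_le_sum_of_subset_of_nonneg sdiff_subset fun y _ _ => o y).trans hT)
    rw [nsmul_eq_mul] at b
    exact le_of_mul_le_mul_right (b.trans_eq (by ring)) (by positivity : 0 < t * T * Y.card)
  · have C0 : (0 : ℝ) < C.card := n0.trans_le hn
    have m : ∀ y ∈ C, y ∈ Y ∧ ∑ z ∈ Y.erase y, s.Osm hv Y σ y z ≤ t * T * Y.card := fun y hy => by
      have := hY (hC hy)
      rwa [Mk, mem_filter] at this
    have s0 : 0 < σ := (mul_pos_iff_of_pos_right Y0).1 (by linarith)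
    have a := hB X PL s hv Y C h T η σ (7 * T / σ) hx hη h3 (fun y hy => (m y hy).1)
      (card_pos.1 (by exact_mod_cast C0))
      (bones (dg qr) (bone dq) fibs X PL s hv Y h T σ hx h2 h1).1
    have b := sum_le_card_nsmul C _ _ fun y hy => (m y hy).2
    rw [nsmul_eq_mul, ← div_le_iff₀' C0] at b
    have c : (7 * T / σ + 4) / C.card ≤ (7 * T / σ + 4) / ns :=
      div_le_div_of_nonneg_left (by positivity) n0 hn
    have d := mul_le_mul_of_nonneg_left b (by positivity : 0 ≤ 2 / (Y.card : ℝ))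
    have f : 2 / (Y.card : ℝ) * (t * T * Y.card) = 2 * t * T := by field_simp
    linarith

end Pool.Agent.MP_6c3157_co.PQ
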