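import Pool.Agent.MP_6c3157_co.PQ.BasicB

/-! Project PQ, row ERS2: the total error. -/

set_option autoImplicit false

namespace Pool.Agent.MP_6c3157_co.PQ

open Finset Pool.Agent.MP_6c3157_co.PD

namespace Ers2

open Classical in
theorem pin (hE : ERX) {X PL : Type} [DecidableEq X] [Fintype PL] {s : Sys X PL}
    {hv : ℕ × Finset X → Prop} {Y : Finset X} {h : X → ℝ} {T τ η σ ζ Z : ℝ} {γ : PL → Geo X}
    (ok : X → Prop) (C : X → Finset X) (hx : CT s hv Y h T γ τ η) (hσ : 0 ≤ σ) (hζ : 0 < ζ)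
    {x : X} (h1 : x ∈ Y)
    (hC : ∀ y ∈ Y.erase x, ok y → C y ⊆ fib s.lab Y x y ∧ ζ * (fib s.lab Y x y).card ≤ (C y).card)
    (hZ : ∑ p, s.m p * lz (γ p) x ≤ Z) :
    ∑ p, s.m p * (∑ y ∈ Y.erase x,
        min (err (s.c p) (s.c (s.bar p)) (γ p) (γ (s.bar p)) x y) (lz (γ p) x)) ≤
      4 * η * Y.card +
      256 / τ ^ 2 * (∑ y ∈ Y.erase x, if ok y then s.Disc hv Y σ (C y) else 0) +
      32 * σ / (τ * ζ) * (Z + 2 * η) * Y.card +
      Z * ∑ y ∈ Y.erase x, if ok y then (0 : ℝ) else 1 := by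
  have hs := hx.ctx.good
  have hτ := hx.t_pos
  obtain ⟨N, hN⟩ : ∃ N : ℝ, N = ∑ y ∈ Y.erase x, if ok y then (0 : ℝ) else 1 := ⟨_, rfl⟩
  have hN0 : 0 ≤ N := hN ▸ sum_nonneg fun y _ => by split_ifs <;> norm_num
  obtain ⟨K, hK⟩ : ∃ K : ℝ, K = 32 / (τ * ζ) * (σ * Y.card) := ⟨_, rfl⟩
  have hK0 : 0 ≤ K := hK ▸ by positivity
  obtain ⟨a, ha⟩ : ∃ a : PL → ℝ, ∀ p, a p = (2 * Y.card + K) * (s.c p).eta +
      128 / τ ^ 2 * (∑ y ∈ Y.erase x, if ok y then (s.c p).disc hv Y σ (C y) else 0) :=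
    ⟨_, fun _ => rfl⟩
  have k1 : ∑ p, s.m p * (∑ y ∈ Y.erase x,
      min (err (s.c p) (s.c (s.bar p)) (γ p) (γ (s.bar p)) x y) (lz (γ p) x)) ≤
      ∑ p, s.m p * (a p + a (s.bar p) + (K + N) * lz (γ p) x) := hs.sum_le fun p => by
    have e1 := hE X (s.c p) (s.c (s.bar p)) hv Y (γ p) (γ (s.bar p)) τ σ ζ s.lab ok C
      (hx.pt p) (hx.pt (s.bar p)) (hs.lam_bar p) hσ hζ x h1 (hs.f1 p x) hC
    have e2 : ∑ y ∈ Y.erase x,
        min (err (s.c p) (s.c (s.bar p)) (γ p) (γ (s.bar p)) x y) (lz (γ p) x) ≤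
        (∑ y ∈ Y.erase x, if ok y then
          min (err (s.c p) (s.c (s.bar p)) (γ p) (γ (s.bar p)) x y) (lz (γ p) x) else 0) +
        N * lz (γ p) x := by
      rw [hN, sum_mul, ← sum_add_distrib]
      refine sum_le_sum fun y _ => ?_
      split_ifs
      · simp
      · simp
    have e3 : (∑ y ∈ Y.erase x, if ok y then
        (s.c p).disc hv Y σ (C y) + (s.c (s.bar p)).disc hv Y σ (C y) else 0) =
        (∑ y ∈ Y.erase x, if ok y then (s.c p).disc hv Y σ (C y) else 0) +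
        ∑ y ∈ Y.erase x, if ok y then (s.c (s.bar p)).disc hv Y σ (C y) else 0 := by
      rw [← sum_add_distrib]
      refine sum_congr rfl fun y _ => ?_
      split_ifs <;> simp
    rw [e3, ← mul_assoc (32 / (τ * ζ)), ← hK] at e1
    rw [ha, ha]
    linarith
  have k2 : ∑ p, s.m p * a p = (2 * Y.card + K) * (∑ p, s.m p * (s.c p).eta) +
      128 / τ ^ 2 * (∑ y ∈ Y.erase x, if ok y then s.Disc hv Y σ (C y) else 0) := by
    have e : (∑ y ∈ Y.erase x, if ok y then s.Disc hv Y σ (C y) else 0) =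
        ∑ p, s.m p * ∑ y ∈ Y.erase x, if ok y then (s.c p).disc hv Y σ (C y) else 0 := by
      simp only [mul_sum]
      rw [sum_comm]
      refine sum_congr rfl fun y _ => ?_
      unfold Sys.Disc
      split_ifs <;> simp
    rw [e, mul_sum, mul_sum, ← sum_add_distrib]
    refine sum_congr rfl fun p _ => ?_
    rw [ha]
    ring
  have k3 : ∑ p, s.m p * ((K + N) * lz (γ p) x) = (K + N) * ∑ p, s.m p * lz (γ p) x := by
    rw [mul_sum]
    exact sum_congr rfl fun p _ => by ring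
  simp only [mul_add (s.m _), sum_add_distrib] at k1
  rw [hs.sum_bar a, k2, k3] at k1
  have k4 : (2 * Y.card + K) * (∑ p, s.m p * (s.c p).eta) ≤ (2 * Y.card + K) * η :=
    mul_le_mul_of_nonneg_left hx.eta (by positivity)
  have k5 : (K + N) * ∑ p, s.m p * lz (γ p) x ≤ (K + N) * Z :=
    mul_le_mul_of_nonneg_left hZ (by positivity)
  have k6 : 32 * σ / (τ * ζ) * (Z + 2 * η) * Y.card = K * (Z + 2 * η) := by
    rw [hK]; ring
  have k7 : 256 / τ ^ 2 = 2 * (128 / τ ^ 2) := by ring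
  rw [k6, k7, ← hN, mul_assoc 2]
  linarith

end Ers2

theorem ers2 (hE : ERX) (hL : LZS) : ERS2 := by
  classical
  intro X PL _ _ s hv Y B h T τ η σ ζ b l a γ At ok C hx h4 hσ hζ hS
  have hs := hx.ctx.good
  have hZ : ∀ x ∈ Y, ∑ p, s.m p * lz (γ p) x ≤ 23 * T / τ := fun x h1 =>
    (hL X PL s hv Y h T τ η γ hx h4 x h1).1
  have hY : Y.Nonempty := by
    rcases Y.eq_empty_or_nonempty with rfl | h1
    · simp at h4; linarith
    · exact h1
  obtain ⟨x₀, h₀⟩ := hY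
  have hZ0 : 0 ≤ 23 * T / τ := (hs.sum_nonneg fun p => lz_nonneg (γ p) x₀).trans (hZ x₀ h₀)
  have k1 : ∑ p, s.m p * (∑ x ∈ Y, ∑ y ∈ Y.erase x,
      min (err (s.c p) (s.c (s.bar p)) (γ p) (γ (s.bar p)) x y) (lz (γ p) x)) =
      ∑ x ∈ Y, ∑ p, s.m p * (∑ y ∈ Y.erase x,
        min (err (s.c p) (s.c (s.bar p)) (γ p) (γ (s.bar p)) x y) (lz (γ p) x)) := by
    rw [sum_comm]
    exact sum_congr rfl fun p _ => mul_sum _ _ _
  rw [k1]
  refine (sum_le_sum fun x h1 => Ers2.pin hE (ok x) (C x) hx hσ hζ h1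
    (fun y h2 h3 => ⟨(hS.sub x h1 y h2 h3).1, (hS.sub x h1 y h2 h3).2.2.1⟩) (hZ x h1)).trans ?_
  have k2 := mul_le_mul_of_nonneg_left hS.few hZ0
  simp only [sum_add_distrib, sum_const, nsmul_eq_mul]
  rw [← mul_sum, ← mul_sum]
  unfold dsum
  linarith

end Pool.Agent.MP_6c3157_co.PQ
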