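import Pool.Agent.MP_6c3157_co.PQ.BasicB

/-! Project PQ: a part of a fibre is covered by two balls. -/

set_option autoImplicit false

noncomputable section

namespace Pool.Agent.MP_6c3157_co.PQ

open Finset Pool.Agent.MP_6c3157_co.PD

namespace Ert

theorem one {X : Type} [DecidableEq X] {c : Cells X} (hc : c.Good)
    (hv : ℕ × Finset X → Prop) {Y C : Finset X} (σ : ℝ) {τ q s L l : ℝ} {x : X} (ht : 0 < τ)
    (hC : (0 : ℝ) < C.card) (hY : (0 : ℝ) < Y.card) (hx : ∀ z ∈ C, x ≠ z) (hs : 0 < s)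
    (hs' : s ≤ c.rhi) (hL : 0 ≤ L) (hLl : L ≤ l) (hq : 0 ≤ q)
    (h4 : (q + τ / 4) * C.card ≤ (c.ball C x (s / c.lam * Real.exp (-(L / 2)) / c.lam)).card)
    (h5 : ∀ t < s, ((c.ball Y x t).card : ℝ) < q * Y.card) :
    L ≤ 2 * c.eta + 128 / τ ^ 2 * c.disc hv Y σ C +
      32 / τ * ((∑ z ∈ C, win c hv Y σ s l x z) / C.card) := by
  have hl := hc.lam_pos
  set a := s / c.lam * Real.exp (-(L / 2)) with ha
  have ha0 : 0 < a := by positivity
  have h1 : c.rlo ≤ a := by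
    have : (0 : ℝ) < (c.ball C x (a / c.lam)).card := lt_of_lt_of_le (by positivity) h4
    obtain ⟨z, hz⟩ := card_pos.1 (Nat.cast_pos.1 this)
    obtain ⟨h6, h7⟩ := Cells.mem_ball.1 hz
    have := hc.d_lo x z (hx z h6)
    have := div_le_self ha0.le hc.lam_lo
    have := hc.rlo_pos
    linarith
  have h2 : a ≤ s / c.lam :=
    mul_le_of_le_one_right (by positivity) (Real.exp_le_one_iff.2 (by linarith))
  have h2' : s / c.lam * Real.exp (-(l / 2)) ≤ a :=
    mul_le_mul_of_nonneg_left (Real.exp_le_exp.2 (by linarith)) (by positivity)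
  have h3 := hc.c3 x a (s / c.lam) h1 h2 ((div_le_self hs.le hc.lam_lo).trans hs')
  have e : Real.log (s / c.lam / a) = L / 2 := by
    rw [ha, div_mul_cancel_left₀ (by positivity), ← Real.exp_neg, neg_neg, Real.log_exp]
  rw [e, Cells.W_eq_WS] at h3
  have h6 := h3.trans (Cells.WS_le_add (ψ := fun i => ¬ c.small hv Y σ i)
    (χ := fun i => c.small hv Y σ i ∧ x ∈ i.2 ∧ s / c.lam * Real.exp (-(l / 2)) ≤ c.ρ i ∧
      c.ρ i < s / c.lam) (f' := fun i => 16 / τ ^ 2 *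
      (((C ∩ i.2).card : ℝ) / C.card - ((Y ∩ i.2).card : ℝ) / Y.card) ^ 2)
    (f'' := fun i => 4 / τ / C.card * ((C ∩ i.2).card : ℝ)) hc (fun i hi hj => ?_)
    (fun _ _ _ => by positivity) fun _ _ _ => by positivity)
  · rw [Cells.WS_mul, Cells.WS_mul, ← Cells.sum_W] at h6
    have e2 : ∑ z ∈ C, win c hv Y σ s l x z =
        ∑ y ∈ C, c.W fun i => (c.small hv Y σ i ∧ x ∈ i.2 ∧
          s / c.lam * Real.exp (-(l / 2)) ≤ c.ρ i ∧ c.ρ i < s / c.lam) ∧ y ∈ i.2 :=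
      sum_congr rfl fun _ _ => Cells.W_congr fun _ _ =>
        ⟨fun h => ⟨⟨h.1, h.2.1, h.2.2.2⟩, h.2.2.1⟩, fun h => ⟨h.1.1, h.1.2.1, h.2, h.1.2.2⟩⟩
    rw [e2, Cells.disc]
    generalize (∑ y ∈ C, c.W fun i => (c.small hv Y σ i ∧ x ∈ i.2 ∧
      s / c.lam * Real.exp (-(l / 2)) ≤ c.ρ i ∧ c.ρ i < s / c.lam) ∧ y ∈ i.2) = A at h6 ⊢
    have e3 : 32 / τ * (A / C.card) = 8 * (4 / τ / C.card * A) := by ring
    have e4 : 128 / τ ^ 2 = 8 * (16 / τ ^ 2) := by ring
    rw [e3, e4, mul_assoc]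
    linarith
  obtain ⟨j1, j2, j3, j4⟩ := hj
  have k1 : q + τ / 4 ≤ ((C ∩ i.2).card : ℝ) / C.card := by
    rw [le_div_iff₀ hC]
    refine h4.trans (Nat.cast_le.2 (card_le_card fun z hz => ?_))
    obtain ⟨h6, h7⟩ := Cells.mem_ball.1 hz
    exact mem_inter.2 ⟨h6, j4 z (h7.trans (by gcongr))⟩
  by_cases hsm : c.small hv Y σ i
  · refine Or.inr ⟨⟨hsm, j1, h2'.trans j2, j3⟩, ?_⟩
    rw [div_mul_eq_mul_div, mul_div_assoc, div_mul_eq_mul_div, le_div_iff₀ ht]
    linarith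
  · refine Or.inl ⟨hsm, ?_⟩
    have k2 : ((Y ∩ i.2).card : ℝ) / Y.card < q := by
      rw [div_lt_iff₀ hY]
      exact lt_of_le_of_lt (Nat.cast_le.2 (card_le_card (Cells.inter_subset_ball hc hi j1)))
        (h5 _ ((lt_div_iff₀' hl).1 j3))
    rw [div_mul_eq_mul_div, le_div_iff₀ (by positivity)]
    nlinarith

end Ert

theorem ert : ERT := by
  intro X _ c c' hv Y C γ γ' τ σ l p p' hl hl0 x hx y hy hne hC hd
  have ht := p.t_pos
  have ht' := p.t_le
  have hc := p.good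
  have hc' := p'.good
  have hC0 : (0 : ℝ) < C.card := Nat.cast_pos.2 hne.card_pos
  have hxz : ∀ z ∈ C, x ≠ z := fun z hz => (mem_erase.1 (hC hz)).1.symm
  have n1 := hc.eta_lo
  have n2 := hc'.eta_lo
  have n3 : 0 ≤ 128 / τ ^ 2 * c.disc hv Y σ C :=
    mul_nonneg (by positivity) (Cells.disc_nonneg hc C)
  have n4 : 0 ≤ 128 / τ ^ 2 * c'.disc hv Y σ C :=
    mul_nonneg (by positivity) (Cells.disc_nonneg hc' C)
  have n5 : 0 ≤ 32 / τ * ((∑ z ∈ C, win c hv Y σ γ.r l x z) / C.card) :=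
    mul_nonneg (by positivity) (div_nonneg (sum_nonneg fun z _ => win_nonneg hc _ _ x z) hC0.le)
  have n6 : 0 ≤ 32 / τ * ((∑ z ∈ C, win c' hv Y σ (γ'.rs x) l x z) / C.card) :=
    mul_nonneg (by positivity) (div_nonneg (sum_nonneg fun z _ => win_nonneg hc' _ _ x z) hC0.le)
  rw [sum_add_distrib, add_div, mul_add, mul_add, mul_add]
  set L := min (err c c' γ γ' x y) l with hL
  rcases le_or_gt L 0 with h0 | h0
  · linarith
  have r1 := p.geo.r_pos hc
  have r2 := p'.geo.s_pos hc' hx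
  have l1 := hc.lam_pos
  have d1 := hc.d_pos hy.symm
  have d2 := hc'.d_pos hy.symm
  have hL1 : L ≤ Real.log (γ.r * γ'.rs x / (c.lam ^ 4 * (c.d x y * c'.d x y))) :=
    (le_max_iff.1 (min_le_left (err c c' γ γ' x y) l)).resolve_left (not_le.2 h0)
  set a := γ.r / c.lam * Real.exp (-(L / 2)) / c.lam with ha
  set a' := γ'.rs x / c'.lam * Real.exp (-(L / 2)) / c'.lam with ha'
  have e : c.d x y * c'.d x y ≤ a * a' := by
    have h1 : (γ.r * γ'.rs x / (c.lam ^ 4 * (c.d x y * c'.d x y)))⁻¹ ≤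
        Real.exp (-(L / 2)) * Real.exp (-(L / 2)) := by
      rw [← Real.exp_add, ← neg_add, add_halves, Real.exp_neg]
      exact inv_anti₀ (Real.exp_pos _) ((Real.le_log_iff_exp_le (by positivity)).1 hL1)
    have h2 : a * a' = γ.r * γ'.rs x / c.lam ^ 4 *
        (Real.exp (-(L / 2)) * Real.exp (-(L / 2))) := by rw [ha, ha', hl]; ring
    rw [h2]
    refine le_trans (le_of_eq ?_) (mul_le_mul_of_nonneg_left h1 (by positivity))
    field_simp
  have a0 : 0 ≤ a := by positivity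
  have a1 : 0 ≤ a' := by rw [ha', hl]; positivity
  have cov : (C.card : ℝ) ≤ (c.ball C x a).card + (c'.ball C x a').card := by
    rw [← Nat.cast_add, Nat.cast_le]
    refine le_trans (card_le_card fun z hz => ?_) (card_union_le _ _)
    rw [mem_union, Cells.mem_ball, Cells.mem_ball]
    by_contra hn
    simp only [hz, true_and, not_or, not_le] at hn
    exact (mul_lt_mul'' hn.1 hn.2 a0 a1).not_ge ((hd z hz).le.trans e)
  by_cases h1 : (1 - τ + τ / 4) * C.card ≤ (c.ball C x a).card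
  · have := Ert.one hc hv σ ht hC0 p.geo.card_pos hxz r1 p.geo.r_hi h0.le (min_le_right _ _)
      (by linarith) h1 (p.geo.r_min x hx)
    linarith
  · have := Ert.one hc' hv σ ht hC0 p.geo.card_pos hxz r2 (p'.geo.s_hi x hx) h0.le
      (min_le_right _ _) (q := τ / 2) (by positivity) (by rw [← ha']; linarith)
      (p'.geo.s_min x hx)
    linarith

end Pool.Agent.MP_6c3157_co.PQ
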