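import Pool.Agent.MP_6c3157_co.PQ.BasicB
import Pool.Agent.MP_6c3157_co.PD.Fib

/-! Row ERX: the errors of one pin. -/

set_option autoImplicit false

namespace Pool.Agent.MP_6c3157_co.PQ

open Finset Pool.Agent.MP_6c3157_co.PD

theorem erx (hE : ERT) (hW : WIN) : ERX := by
  classical
  intro X _ c c' hv Y γ γ' τ σ ζ lab ok C h h' hl hσ hζ x hx hlab hC
  have hτ := h.t_pos
  have l0 := lz_nonneg γ x
  set l := lz γ x
  set f : X → ℝ := fun z => win c hv Y σ γ.r l x z + win c' hv Y σ (γ'.rs x) l x z with hf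
  have f0 : ∀ z, 0 ≤ f z := fun z =>
    add_nonneg (win_nonneg h.good _ _ _ _) (win_nonneg h'.good _ _ _ _)
  have e0 : 0 ≤ c.eta + c'.eta := add_nonneg h.good.eta_lo h'.good.eta_lo
  have k : ∀ y ∈ Y.erase x, (if ok y then min (err c c' γ γ' x y) l else 0) ≤
      2 * (c.eta + c'.eta) +
      128 / τ ^ 2 * (if ok y then c.disc hv Y σ (C y) + c'.disc hv Y σ (C y) else 0) +
      32 / (τ * ζ) * ((∑ z ∈ fib lab Y x y, f z) / (fib lab Y x y).card) := by
    intro y hy
    have s0 : 0 ≤ ∑ z ∈ fib lab Y x y, f z := sum_nonneg fun z _ => f0 z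
    split_ifs with o
    · obtain ⟨c1, c2⟩ := hC y hy o
      have p : (0 : ℝ) < (fib lab Y x y).card := by
        exact_mod_cast card_pos.2 ⟨y, mem_fib.2 ⟨hy, rfl⟩⟩
      have q : (0 : ℝ) < (C y).card := lt_of_lt_of_le (by positivity) c2
      have y1 := ne_of_mem_erase hy
      refine (hE X c c' hv Y (C y) γ γ' τ σ l h h' hl l0 x hx y y1 (card_pos.1 (by exact_mod_cast q))
        (fun z hz => (mem_fib.1 (c1 hz)).1) fun z hz =>
          hlab z y (ne_of_mem_erase (mem_fib.1 (c1 hz)).1) y1 (mem_fib.1 (c1 hz)).2).trans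
        (add_le_add le_rfl ?_)
      have u : (∑ z ∈ C y, f z) / (C y).card ≤
          (∑ z ∈ fib lab Y x y, f z) / (ζ * (fib lab Y x y).card) :=
        div_le_div₀ s0 (sum_le_sum_of_subset_of_nonneg c1 fun z _ _ => f0 z) (by positivity) c2
      refine (mul_le_mul_of_nonneg_left u (by positivity)).trans (le_of_eq ?_)
      field_simp
    · positivity
  refine (sum_le_sum k).trans ?_
  rw [sum_add_distrib, sum_add_distrib, ← mul_sum, ← mul_sum, ← mul_sum, (fibs X lab Y x).2 f,
    sum_const, nsmul_eq_mul]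
  have n : ((Y.erase x).card : ℝ) ≤ Y.card := by exact_mod_cast card_erase_le
  refine add_le_add (add_le_add (by nlinarith) le_rfl) (mul_le_mul_of_nonneg_left ?_ (by positivity))
  have w1 := hW X c hv Y σ γ.r l h.good hσ (h.geo.r_pos h.good) l0 x hx
  have w2 := hW X c' hv Y σ (γ'.rs x) l h'.good hσ (h'.geo.s_pos h'.good hx) l0 x hx
  rw [hf, sum_add_distrib]
  linarith

end Pool.Agent.MP_6c3157_co.PQ
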