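import Pool.Agent.MP_6c3157_co.PQ.BasicB
import Pool.Agent.MP_6c3157_co.PD.Geo

/-! Project PQ: the geometric rows with a free mass outside the central ball. -/

set_option autoImplicit false
set_option linter.unusedSectionVars false

noncomputable section

namespace Pool.Agent.MP_6c3157_co.PQ

open Finset Pool.Agent.MP_6c3157_co.PD

theorem geot : GEOT := by
  intro X _ c Y τ hc h0 h1 hY
  have hn : (3000 : ℝ) ≤ Y.card := by
    have := mul_le_mul_of_nonneg_right h1 (Nat.cast_nonneg (α := ℝ) Y.card)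
    linarith
  have hn1 : τ * Y.card ≤ 1 / 1000 * Y.card := mul_le_mul_of_nonneg_right h1 (by linarith)
  have hY2 : 0 < Y.card := by
    have : (0 : ℝ) < Y.card := by linarith
    exact_mod_cast this
  have key : ∀ k : ℝ, 1 < k → k ≤ Y.card → ∃ f : X → ℝ, ∀ x ∈ Y, 256 * c.rlo ≤ f x ∧ f x ≤ c.rhi ∧
      k ≤ (c.ball Y x (f x)).card ∧ ∀ t < f x, ((c.ball Y x t).card : ℝ) < k := fun k h1 h2 => by
    choose! a _ h4 h5 h6 using fun x hx => qr X c Y hc x hx k h1 h2
    exact ⟨fun x => c.d x (a x), fun x hx =>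
      ⟨hc.d_lo _ _ (h4 x hx).symm, hc.d_hi _ _, h5 x hx, h6 x hx⟩⟩
  obtain ⟨f, hf⟩ := key ((1 - τ) * Y.card) (by linarith) (by linarith)
  obtain ⟨g, hg⟩ := key (τ / 2 * Y.card) (by linarith) (by linarith)
  obtain ⟨p, hp, hm⟩ := exists_min_image Y f (card_pos.1 hY2)
  exact ⟨⟨f p, p, g⟩, hp, (hf p hp).2.2.1, fun x hx t ht => (hf x hx).2.2.2 t (ht.trans_le (hm x hx)),
    (hf p hp).1, (hf p hp).2.1, fun x hx => (hg x hx).2.2.1, fun x hx => (hg x hx).2.2.2,
    fun x hx => (hg x hx).1, fun x hx => (hg x hx).2.1⟩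

section

variable {X : Type} [DecidableEq X] {c : Cells X} {hv : ℕ × Finset X → Prop} {Y : Finset X}
  {γ : Geo X} {τ : ℝ}

theorem lgt_G (h : PT c hv Y γ τ) (x : X) : c.G γ x ≤ 4 * c.H hv x + 3 * c.xi := by
  have hc := h.good
  have hxi := hc.xi_nonneg
  have hH : 0 ≤ c.H hv x := Cells.H_nonneg hc x
  have hr := h.geo.r_pos hc
  have hl := hc.lam_pos
  have hl1 := hc.lam_lo
  have hlog := hc.log_lam
  have heta := hc.eta_hi
  have hn := h.geo.card_pos
  unfold Cells.G
  refine max_le (by linarith) ?_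
  rcases (hc.d_nonneg x γ.cen).eq_or_lt with h0 | h0
  · rw [← h0, zero_div, Real.log_zero]; linarith
  have hsplit : Real.log (c.d x γ.cen / γ.r) =
      Real.log (c.d x γ.cen / c.lam / (c.lam * γ.r)) + 2 * Real.log c.lam := by
    have h1 : c.d x γ.cen / γ.r = c.d x γ.cen / c.lam / (c.lam * γ.r) * c.lam ^ 2 := by
      field_simp
    rw [h1, Real.log_mul (by positivity) (by positivity), Real.log_pow]
    push_cast; ring
  rw [hsplit]
  by_cases hab : c.lam * γ.r ≤ c.d x γ.cen / c.lam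
  · have h1 : c.rlo ≤ c.lam * γ.r := by
      have h2 := h.geo.r_lo
      have h3 := hc.rlo_pos
      nlinarith
    have h2 : c.d x γ.cen / c.lam ≤ c.rhi := (div_le_self h0.le hl1).trans (hc.d_hi _ _)
    have h3 := hc.c3 γ.cen _ _ h1 hab h2
    have h4 : c.W (fun i => γ.cen ∈ i.2 ∧ c.lam * γ.r ≤ c.ρ i ∧ c.ρ i < c.d x γ.cen / c.lam ∧
        ∀ z, c.d γ.cen z ≤ c.ρ i / c.lam → z ∈ i.2) ≤ c.H hv x := by
      refine Cells.W_mono hc fun i hi hk => ⟨?_, fun hx => ?_⟩
      · by_contra hl2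
        have h5 := h.lgt i hi hl2
        have h6 : c.ball Y γ.cen γ.r ⊆ Y ∩ i.2 := fun z hz => by
          refine mem_inter.2 ⟨(Cells.mem_ball.1 hz).1, hk.2.2.2 z ?_⟩
          refine (Cells.mem_ball.1 hz).2.trans ?_
          rw [le_div_iff₀ hl, mul_comm]; exact hk.2.1
        have h7 : ((c.ball Y γ.cen γ.r).card : ℝ) ≤ (Y ∩ i.2).card := by
          exact_mod_cast card_le_card h6
        have h8 : 4 * ((Y ∩ i.2).card : ℝ) ≤ 3 * Y.card := by exact_mod_cast h5
        have h9 := h.geo.r_in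
        have h10 := mul_le_mul_of_nonneg_right h.t_le hn.le
        linarith
      · have h5 := hc.c1 i hi x hx γ.cen hk.1
        have h6 := hk.2.2.1
        rw [lt_div_iff₀ hl] at h6
        linarith
    linarith
  · have h1 : Real.log (c.d x γ.cen / c.lam / (c.lam * γ.r)) ≤ 0 :=
      Real.log_nonpos (by positivity) ((div_le_one (by positivity)).2 (le_of_not_ge hab))
    linarith

theorem lgt_low (h : PT c hv Y γ τ) : τ * Y.card * c.Hlow hv γ ≤ ∑ y ∈ Y, c.H hv y := by
  have hc := h.good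
  have hl := hc.lam_pos
  have hn := h.geo.card_pos
  unfold Cells.H Cells.Hlow
  rw [Cells.sum_W_not, ← Cells.WS_const]
  refine Cells.WS_mono hc (fun i hi hk => ⟨hk.1, ?_⟩) fun _ _ _ => Nat.cast_nonneg _
  have h1 := h.hvl i hi hk.1
  have h2 : 0 < (Y ∩ i.2).card := by
    have : 0 < Y.card := by exact_mod_cast hn
    omega
  obtain ⟨y, hy⟩ := card_pos.1 h2
  have h3 : c.lam * c.ρ i < γ.r := by
    have h4 := hk.2
    rw [lt_div_iff₀ hl] at h4
    linarith
  have h4 := h.geo.r_min y (mem_inter.1 hy).1 _ h3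
  have h5 : ((Y ∩ i.2).card : ℝ) ≤ (c.ball Y y (c.lam * c.ρ i)).card := by
    exact_mod_cast card_le_card (Cells.inter_subset_ball hc hi (mem_inter.1 hy).2)
  have h6 : ((Y \ i.2).card : ℝ) + (Y ∩ i.2).card = Y.card := by
    exact_mod_cast card_sdiff_add_card_inter Y i.2
  linarith

end

theorem lgt : LGT := fun _ _ _ _ _ _ _ h => ⟨fun x _ => lgt_G h x, lgt_low h⟩

theorem ltt : LTT := by
  intro X _ c hv Y γ τ p
  have hc := p.good
  have hr := p.geo.r_pos hc
  have hl := hc.lam_pos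
  have he := hc.eta_hi
  have hx0 := hc.xi_nonneg
  refine ⟨fun x _ a ha => ?_, fun x _ y _ hxy => ?_⟩
  · set b := γ.r * Real.exp (c.G γ x) with hb
    have hb0 : 0 < b := by positivity
    have hrb : γ.r ≤ b := le_mul_of_one_le_right hr.le (Real.one_le_exp (Cells.G_nonneg γ x))
    have h1 : c.W (fun i => x ∈ i.2 ∧ a ≤ c.ρ i ∧ c.ρ i < b) ≤
        max 0 (Real.log (γ.r / a) + c.G γ x) + c.xi := by
      rcases le_or_gt a b with h | h
      · have h2 := hc.c2 x a b ha h
        rw [hb, mul_div_right_comm, Real.log_mul (by positivity) (by positivity),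
          Real.log_exp] at h2
        exact h2.trans (add_le_add (le_max_right _ _) he)
      · rw [Cells.W_zero fun i _ hi => lt_irrefl _ ((hi.2.1.trans_lt hi.2.2).trans h)]
        exact add_nonneg (le_max_left _ _) hx0
    refine (Cells.W_le_add hc fun i hi hj => ?_).trans
      ((add_le_add h1 (hc.c5 γ.cen b hb0)).trans (le_of_eq (by ring)))
    rcases lt_or_ge (c.ρ i) b with h | h
    · exact Or.inl ⟨hj.2.1, hj.2.2, h⟩
    refine Or.inr ⟨h, ⟨x, hj.2.1, hc.d_symm x γ.cen ▸ p.geo.d_le hc x⟩, by_contra fun hn => ?_⟩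
    have h2 : c.ball Y γ.cen γ.r ⊆ Y ∩ i.2 := fun z hz => by
      obtain ⟨h3, h4⟩ := Cells.mem_ball.1 hz
      exact mem_inter.2 ⟨h3, by_contra fun h5 => hn ⟨z, h5, h4.trans hrb⟩⟩
    have h3 : ((c.ball Y γ.cen γ.r).card : ℝ) ≤ (Y ∩ i.2).card := Nat.cast_le.2 (card_le_card h2)
    have h4 : 4 * ((Y ∩ i.2).card : ℝ) ≤ 3 * Y.card := by exact_mod_cast p.lgt i hi hj.1
    have h5 := p.geo.r_in
    have h6 := p.geo.card_pos
    have h7 := mul_le_mul_of_nonneg_right p.t_le h6.le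
    linarith
  · have hd := hc.d_pos hxy
    have h1 := hc.log_lam
    have h2 := Cells.o_nonneg (hv := hv) hc x y
    have h3 := Cells.Hlow_nonneg (hv := hv) hc γ
    have e : Real.log (γ.r / c.d x y) =
        Real.log (γ.r / c.lam / (c.lam * c.d x y)) + 2 * Real.log c.lam := by
      rw [Real.log_div (by positivity) (by positivity), Real.log_div (by positivity) (by positivity),
        Real.log_div hr.ne' hl.ne', Real.log_mul hl.ne' hd.ne']
      ring
    rw [e]
    rcases le_total (c.lam * c.d x y) (γ.r / c.lam) with h | h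
    · have h4 := hc.d_lo x y hxy
      have h5 := hc.rlo_pos
      have h6 := le_mul_of_one_le_left hd.le hc.lam_lo
      have h7 := (hc.c3 x _ _ (by linarith) h
        ((div_le_self hr.le hc.lam_lo).trans p.geo.r_hi)).trans
        (Cells.W_le_add (ψ := fun i => inC hv i x ∧ inC hv i y)
          (χ := fun i => hv i ∧ c.ρ i < γ.r / c.lam) hc fun i _ hj => by
            by_cases h8 : hv i
            · exact Or.inr ⟨h8, hj.2.2.1⟩
            · exact Or.inl ⟨Or.inr ⟨h8, hj.1⟩,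
                Or.inr ⟨h8, hj.2.2.2 y ((le_div_iff₀' hl).2 hj.2.1)⟩⟩)
      unfold Cells.o Cells.Hlow
      linarith
    · have h4 : Real.log (γ.r / c.lam / (c.lam * c.d x y)) ≤ 0 :=
        Real.log_nonpos (by positivity) ((div_le_one (by positivity)).2 h)
      linarith

theorem tut : TUT := by
  intro X _ Y S B τ hY hτ hB
  classical
  have hy : (0 : ℝ) < Y.card := by exact_mod_cast card_pos.2 hY
  set i : X → X → ℝ := fun x z => if z ∈ B x then 1 else 0 with hi
  set t : ℝ := τ / 2 * S.card with ht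
  have t0 : 0 ≤ t := mul_nonneg (div_nonneg hτ zero_le_two) (Nat.cast_nonneg _)
  have h1 : t * Y.card ≤ ∑ z ∈ Y, ∑ x ∈ S, i x z := by
    rw [sum_comm]
    refine le_trans (le_of_eq ?_) (sum_le_sum (f := fun _ => τ / 2 * (Y.card : ℝ))
      fun x hx => (hB x hx).2.trans (le_of_eq ?_))
    · rw [sum_const, nsmul_eq_mul, ht]; ring
    · simp only [hi, sum_boole, filter_mem_eq_inter, inter_eq_right.2 (hB x hx).1]
  have h2 : ∀ x y, ∑ z ∈ Y, i x z * i y z ≤
      Y.card * if (B x ∩ B y).Nonempty then (1 : ℝ) else 0 := fun x y => by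
    rw [← nsmul_eq_mul, ← sum_const]
    refine sum_le_sum fun z _ => ?_
    by_cases a : z ∈ B x <;> by_cases b : z ∈ B y
    · rw [if_pos ⟨z, mem_inter.2 ⟨a, b⟩⟩]; simp [hi, a, b]
    all_goals
      simp only [hi, a, b, if_true, if_false, mul_zero, zero_mul]
      split_ifs <;> norm_num
  have h3 : ∑ z ∈ Y, (∑ x ∈ S, i x z) ^ 2 ≤ Y.card * (S.card +
      ∑ x ∈ S, ∑ y ∈ S.erase x, if (B x ∩ B y).Nonempty then (1 : ℝ) else 0) := by
    simp only [sq, sum_mul_sum]
    rw [sum_comm, card_eq_sum_ones S, Nat.cast_sum, ← sum_add_distrib, mul_sum]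
    refine sum_le_sum fun x hx => ?_
    rw [sum_comm]
    refine (sum_le_sum fun y _ => h2 x y).trans ?_
    rw [← mul_sum, ← add_sum_erase S _ hx]
    gcongr
    split_ifs <;> norm_num
  have h4 : ∑ z ∈ Y, (2 * t * ∑ x ∈ S, i x z - t ^ 2) ≤ ∑ z ∈ Y, (∑ x ∈ S, i x z) ^ 2 :=
    sum_le_sum fun z _ => by nlinarith [sq_nonneg (∑ x ∈ S, i x z - t)]
  rw [sum_sub_distrib, ← mul_sum, sum_const, nsmul_eq_mul] at h4
  refine le_of_mul_le_mul_left (le_trans ?_ (h4.trans h3)) hy
  have h5 : τ ^ 2 / 4 * (S.card : ℝ) ^ 2 = t ^ 2 := by rw [ht]; ring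
  rw [h5]
  nlinarith [mul_le_mul_of_nonneg_left h1 t0]

end Pool.Agent.MP_6c3157_co.PQ
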