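import Pool.Agent.MP_6c3157_co.PQ.BasicB

/-! Project PQ: the product formula for overlaps, with a free error. -/

set_option autoImplicit false

noncomputable section

namespace Pool.Agent.MP_6c3157_co.PQ

open Finset Pool.Agent.MP_6c3157_co.PD

namespace Hide

theorem core {X PL : Type} [DecidableEq X] [Fintype PL] (s : Sys X PL)
    (hv : ℕ × Finset X → Prop) (hs : s.Good) :
    ∃ C0 : ℝ, ∀ x y, x ≠ y → |s.O hv x y - (s.H hv x - C0) - (s.H hv y - C0)| ≤
      ∑ p, s.m p * (s.c p).eta := by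
  refine ⟨(∑ p, s.m p * ((s.c p).K - (s.c p).W hv)) / -2, fun x y hxy => ?_⟩
  have e : s.O hv x y - (s.H hv x - (∑ p, s.m p * ((s.c p).K - (s.c p).W hv)) / -2) -
      (s.H hv y - (∑ p, s.m p * ((s.c p).K - (s.c p).W hv)) / -2) =
      ∑ p, s.m p * ((s.c p).W (fun i => x ∈ i.2 ∧ y ∈ i.2) -
        ((s.c p).K - Real.log ((s.c p).d x y))) := by
    have := hs.pf x y hxy
    simp only [Cells.pair_eq hv, Sys.O, Sys.H, mul_sub, mul_add, sum_sub_distrib, sum_add_distrib]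
    linarith
  rw [e]
  refine (abs_sum_le_sum_abs _ _).trans (sum_le_sum fun p _ => ?_)
  rw [abs_mul, abs_of_nonneg (hs.m_lo p)]
  exact mul_le_mul_of_nonneg_left ((hs.good p).c4 x y hxy) (hs.m_lo p)

end Hide

theorem hide : HIDE := by
  intro X PL _ _ s hv Y h T η hx hη h3
  obtain ⟨C0, hC⟩ := Hide.core s hv hx.good
  refine ⟨fun x => s.H hv x - C0, fun x hxY => ?_, fun x y hxy => (hC x y hxy).trans hη⟩
  have h2 : 1 < (Y.erase x).card := by rw [card_erase_of_mem hxY]; omega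
  obtain ⟨y, hy, z, hz, hyz⟩ := one_lt_card.1 h2
  obtain ⟨hyx, hyY⟩ := mem_erase.1 hy
  obtain ⟨hzx, hzY⟩ := mem_erase.1 hz
  have e := hx.good.eta_sum
  have a1 := abs_le.1 ((hC x y hyx.symm).trans e)
  have a2 := abs_le.1 ((hC x z hzx.symm).trans e)
  have a3 := abs_le.1 ((hC y z hyz).trans e)
  have b1 := abs_le.1 (hx.idn x hxY y hyY hyx.symm)
  have b2 := abs_le.1 (hx.idn x hxY z hzY hzx.symm)
  have b3 := abs_le.1 (hx.idn y hyY z hzY hyz)
  have l := hx.hlo x hxY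
  have t : ep ≤ 1 / 10 := by unfold ep; norm_num
  show -2 ≤ s.H hv x - C0
  linarith [a1.1, a1.2, a2.1, a2.2, a3.1, a3.2, b1.1, b1.2, b2.1, b2.2, b3.1, b3.2]

end Pool.Agent.MP_6c3157_co.PQ
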