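import Pool.Agent.MP_6c3157_co.PQ.BasicB

/-! Project PQ, row HZE: the outlier length seen from one pin. -/

set_option autoImplicit false

noncomputable section

namespace Pool.Agent.MP_6c3157_co.PQ

open Finset Pool.Agent.MP_6c3157_co.PD

namespace Hze

variable {X PL : Type} [DecidableEq X] [Fintype PL] {s : Sys X PL} {hv : ℕ × Finset X → Prop}
  {Y C : Finset X} {h : X → ℝ} {T τ η : ℝ} {γ : PL → Geo X}

theorem avg (hO : OUT) (hC : CAL) (hx : CT s hv Y h T γ τ η) (σ : ℝ) (hCY : C ⊆ Y)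
    (hne : C.Nonempty) {g : PL → ℝ} (hg : ∀ p, 0 ≤ g p) (hs : ∑ p, s.m p * g p ≤ 7 * T) :
    ∑ z ∈ C, ∑ p, s.m p * (s.c p).W (fun i => outF (s.c p) (γ p) (g p) i ∧ z ∉ i.2) ≤
      C.card * (8 * τ * T + Real.sqrt (8 * T * s.Disc hv Y σ C)) := by
  have hG := hx.ctx.good
  have o := fun p => hO X (s.c p) hv Y (γ p) τ (g p) (hx.pt p) (hg p)
  have hM : ∑ p, s.m p * (s.c p).W (outF (s.c p) (γ p) (g p)) ≤ 8 * T := by
    refine (hG.sum_le fun p => (o p).1).trans ?_
    simp only [mul_add, sum_add_distrib]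
    linarith [hx.eta, hx.eta_le, hx.ctx.Tlo]
  have h1 := hC X PL s hv Y C σ (8 * T) (fun p => outF (s.c p) (γ p) (g p)) hG hCY hne
    (fun p i hi hF hs => hs.1 ((o p).2.1 i hi hF).1) hM
  have h2 : ∑ p, s.m p * (s.c p).WS (outF (s.c p) (γ p) (g p)) (shr hv Y) ≤ 8 * τ * T := by
    have h3 : ∀ p, (s.c p).WS (outF (s.c p) (γ p) (g p)) (shr hv Y) ≤
        τ * (s.c p).W (outF (s.c p) (γ p) (g p)) := fun p => by
      rw [← Cells.WS_const]
      refine Cells.WS_le (hG.good p) fun i hi hF => ?_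
      rw [shr_heavy ((o p).2.1 i hi hF).1, div_le_iff₀ (hx.geo p).card_pos]
      exact ((o p).2.1 i hi hF).2
    refine (hG.sum_le h3).trans ?_
    simp only [mul_left_comm _ τ, ← mul_sum]
    nlinarith [mul_le_mul_of_nonneg_left hM hx.t_pos.le]
  have h4 : ∀ p, ∑ z ∈ C, (s.c p).W (fun i => outF (s.c p) (γ p) (g p) i ∧ z ∉ i.2) =
      C.card * (s.c p).WS (outF (s.c p) (γ p) (g p)) (shr hv C) := fun p => by
    rw [← sum_W_shr]
    refine sum_congr rfl fun z _ => Cells.W_congr fun i hi => and_congr_right fun hF => ?_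
    have := ((o p).2.1 i hi hF).1
    simp [inC, this]
  rw [sum_comm]
  simp only [← mul_sum, h4, mul_left_comm _ (C.card : ℝ)]
  exact mul_le_mul_of_nonneg_left (h1.trans (by linarith)) (Nat.cast_nonneg _)

end Hze

open Hze in
theorem hze (hP : HZP) (hB : BALL) (hO : OUT) (hC : CAL) : HZE := by
  intro X PL _ _ s hv Y C h T τ η σ γ L hx hL x _ y hy hgs hCf hne
  have hG := hx.ctx.good
  have hyx : y ≠ x := (mem_erase.1 hy).1
  have hCY : C ⊆ Y := fun z hz => mem_of_mem_erase (mem_fib.1 (hCf hz)).1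
  have hg : ∀ p, 0 ≤ (s.c p).G (γ p) y := fun p => Cells.G_nonneg _ _
  have a1 := avg hO hC hx σ hCY hne hg hgs
  have a2 := avg hO hC hx σ hCY hne (g := fun q => (s.c (s.bar.symm q)).G (γ (s.bar.symm q)) y)
    (fun q => hg _) (by
      rw [← hG.sum_bar]
      simp only [Equiv.symm_apply_apply]
      exact hgs)
  have a3 : ∀ z ∈ C, gs s γ y ≤ 360 + (∑ p, s.m p * L p) + 4 * hq s γ L y x +
      4 * (∑ p, s.m p * (s.c p).W fun i => outF (s.c p) (γ p) ((s.c p).G (γ p) y) i ∧ z ∉ i.2) +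
      4 * ∑ q, s.m q * (s.c q).W fun i =>
        outF (s.c q) (γ q) ((s.c (s.bar.symm q)).G (γ (s.bar.symm q)) y) i ∧ z ∉ i.2 := by
    intro z hz
    obtain ⟨hz1, hz2⟩ := mem_fib.1 (hCf hz)
    have hzx : z ≠ x := (mem_erase.1 hz1).1
    have e1 := hG.sum_bar fun q => (s.c q).W fun i =>
      outF (s.c q) (γ q) ((s.c (s.bar.symm q)).G (γ (s.bar.symm q)) y) i ∧ z ∉ i.2
    simp only [Equiv.symm_apply_apply] at e1
    have e2 := hG.sum_bar L
    have e3 := hG.sum_bar fun q => (s.c q).xi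
    have e4 := hG.xi_sum
    have key := hG.sum_le (f := fun p => (s.c p).G (γ p) y) (g := fun p =>
      9 * (s.c p).xi + 9 * (s.c (s.bar p)).xi + L (s.bar p) +
      4 * ((s.c (s.bar p)).W (fun i =>
          balF (s.c (s.bar p)) (bet s (fun q => (γ q).r) L (s.bar p)) ((s.c p).G (γ p) y) y i ∧
            x ∈ i.2) +
        (s.c p).W (fun i => outF (s.c p) (γ p) ((s.c p).G (γ p) y) i ∧ x ∉ i.2) +
        (s.c (s.bar p)).W (fun i =>
          outF (s.c (s.bar p)) (γ (s.bar p)) ((s.c p).G (γ p) y) i ∧ x ∉ i.2)) +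
      4 * (s.c p).W (fun i => outF (s.c p) (γ p) ((s.c p).G (γ p) y) i ∧ z ∉ i.2) +
      4 * (s.c (s.bar p)).W (fun i =>
          outF (s.c (s.bar p)) (γ (s.bar p)) ((s.c p).G (γ p) y) i ∧ z ∉ i.2)) fun p => by
      have r1 := (hx.geo p).r_pos (hG.good p)
      have r2 := (hx.geo (s.bar p)).r_pos (hG.good _)
      have b0 := hP X (s.c p) (s.c (s.bar p)) (γ p) (γ (s.bar p)) (hG.good p) (hG.good _)
        (hG.lam_bar p) r1 r2 x y z hyx hzx (hG.f1 p x z y hzx hyx hz2)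
      have b1 := (hB X (s.c (s.bar p)) (γ (s.bar p)).r (L (s.bar p)) _ (hG.good _) r2
        (hx.geo _).r_hi (hL _) (hg p) y).2 x hyx
      have o1 := (hO X (s.c p) hv Y (γ p) τ _ (hx.pt p) (hg p)).2.2
      have o2 := (hO X (s.c (s.bar p)) hv Y (γ (s.bar p)) τ _ (hx.pt _) (hg p)).2.2
      have o3 := o1 x
      have o4 := o1 z
      have o5 := o2 x
      have o6 := o2 z
      unfold bet
      linarith
    have t4 : ∀ f : PL → ℝ, ∑ p, s.m p * (4 * f p) = 4 * ∑ p, s.m p * f p := fun f => by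
      rw [mul_sum]; exact sum_congr rfl fun p _ => by ring
    have t9 : ∀ f : PL → ℝ, ∑ p, s.m p * (9 * f p) = 9 * ∑ p, s.m p * f p := fun f => by
      rw [mul_sum]; exact sum_congr rfl fun p _ => by ring
    have ta : ∀ f f' : PL → ℝ, ∑ p, s.m p * (f p + f' p) =
        ∑ p, s.m p * f p + ∑ p, s.m p * f' p := fun f f' => by
      rw [← sum_add_distrib]; exact sum_congr rfl fun p _ => by ring
    rw [ta, ta, ta, ta, ta, t4, t4, t4, t9, t9, e1, e2, e3] at key
    unfold gs hq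
    linarith
  have a4 := sum_le_sum a3
  simp only [sum_add_distrib, sum_const, nsmul_eq_mul, ← mul_sum] at a4
  have hc : (0 : ℝ) < C.card := by exact_mod_cast hne.card_pos
  refine le_of_mul_le_mul_left ?_ hc
  linarith

end Pool.Agent.MP_6c3157_co.PQ
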