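import Pool.Agent.MP_6c3157_co.PQ.BasicB

/-! Project PQ, row HZP: an outlier seen from a pin and a second point of the fibre. -/

set_option autoImplicit false
set_option linter.unusedSectionVars false

noncomputable section

namespace Pool.Agent.MP_6c3157_co.PQ

open Finset Pool.Agent.MP_6c3157_co.PD

namespace Hzp

theorem mins {g t a b c d e : ℝ} (hg : 0 ≤ g) (ht : 0 ≤ t) (ha : 0 ≤ a) (hb : 0 ≤ b) (hc : 0 ≤ c)
    (hd : 0 ≤ d) (he : 0 ≤ e) (h : g ≤ t + a + b + c + d + e) :
    g ≤ t + min a g + min g b + min g c + min g d + min g e := by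
  simp only [min_def]
  split_ifs <;> linarith

variable {X : Type} [DecidableEq X] {c : Cells X} {γ : Geo X}

theorem G_le (hc : c.Good) (hr : 0 < γ.r) {y : X} {E : ℝ} (hE : 0 ≤ E)
    (h : c.d y γ.cen ≤ γ.r * Real.exp E) : c.G γ y ≤ E := by
  refine max_le hE ?_
  rcases (hc.d_nonneg y γ.cen).eq_or_lt with h0 | h0
  · rw [← h0, zero_div, Real.log_zero]
    exact hE
  · rw [Real.log_le_iff_le_exp (div_pos h0 hr), div_le_iff₀' hr]
    exact h

theorem pair (hc : c.Good) (hr : 0 < γ.r) {t : ℝ} (ht : c.lam ≤ Real.exp t) (x z : X) :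
    c.d x z ≤ γ.r * Real.exp (t + c.G γ x + c.G γ z) := by
  refine (pair_le hc hr x z).trans ?_
  rw [add_assoc, Real.exp_add, mul_comm c.lam, mul_assoc]
  refine mul_le_mul_of_nonneg_left (mul_le_mul ht (Real.exp_le_exp.2 (max_le ?_ ?_))
    (Real.exp_pos _).le (Real.exp_pos _).le) hr.le
  · exact le_add_of_nonneg_right (Cells.G_nonneg γ z)
  · exact le_add_of_nonneg_left (Cells.G_nonneg γ x)

end Hzp

theorem hzp : HZP := by
  intro X _ c c' γ γ' hc hc' hl hr hr' x y z hy hz he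
  have h0 := hc.xi_nonneg
  have g1 := Cells.G_nonneg (c := c) γ x
  have g2 := Cells.G_nonneg (c := c) γ z
  have g3 := Cells.G_nonneg (c := c') γ' x
  have g4 := Cells.G_nonneg (c := c') γ' z
  set a := max 0 (Real.log (γ'.r / c'.d y x)) with ha
  have a0 : 0 ≤ a := le_max_left _ _
  refine Hzp.mins (Cells.G_nonneg γ y) (by positivity) a0 g1 g2 g3 g4
    (Hzp.G_le hc hr (by positivity) ?_)
  have l1 : c.lam ≤ Real.exp c.xi := (Real.log_le_iff_le_exp hc.lam_pos).1 hc.log_lam
  have d0 : 0 < c'.d y x := lt_of_lt_of_le (by have := hc'.rlo_pos; positivity) (hc'.d_lo y x hy)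
  have a1 : γ'.r ≤ c'.d y x * Real.exp a := by
    rw [← div_le_iff₀' d0, ← Real.log_le_iff_le_exp (div_pos hr' d0)]
    exact le_max_right _ _
  have p1 := Hzp.pair hc hr l1 x z
  have p2 := (Hzp.pair hc' hr' (hl ▸ l1) x z).trans
    (mul_le_mul_of_nonneg_right a1 (Real.exp_pos _).le)
  have p3 : c.d y x ≤
      γ.r * Real.exp (2 * c.xi + a + c.G γ x + c.G γ z + c'.G γ' x + c'.G γ' z) := by
    refine le_of_mul_le_mul_right ?_ d0
    have := mul_le_mul p1 p2 (hc'.d_nonneg x z) (by positivity)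
    rw [he, hc.d_symm x y, hc'.d_symm x y] at this
    refine this.trans_eq ?_
    simp only [two_mul, Real.exp_add]
    ring
  have p4 : c.d x γ.cen ≤
      γ.r * Real.exp (2 * c.xi + a + c.G γ x + c.G γ z + c'.G γ' x + c'.G γ' z) :=
    (cen_le hc hr x).trans (mul_le_mul_of_nonneg_left (Real.exp_le_exp.2 (by linarith)) hr.le)
  refine (hc.d_tri y x γ.cen).trans ((mul_le_mul l1 (max_le p3 p4)
    (le_max_of_le_left (hc.d_nonneg y x)) (Real.exp_pos _).le).trans_eq ?_)
  rw [mul_left_comm, ← Real.exp_add]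
  congr 2
  ring

end Pool.Agent.MP_6c3157_co.PQ
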