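import Pool.Agent.MP_6c3157_co.PQ.BasicB

/-! Project PQ, part B: the mean outlier length is small. -/

set_option autoImplicit false
set_option linter.unusedSectionVars false

noncomputable section

namespace Pool.Agent.MP_6c3157_co.PQ

open Finset Pool.Agent.MP_6c3157_co.PD

namespace Hzs

theorem amgm {e T D : ℝ} (he : 0 < e) (hT : 0 ≤ T) (hD : 0 ≤ D) :
    8 * Real.sqrt (8 * T * D) ≤ 4 * e * T + 32 / e * D := by
  have h1 : Real.sqrt (8 * T * D) ≤ (e * T + 8 / e * D) / 2 := by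
    refine Real.sqrt_le_iff.2 ⟨by positivity, ?_⟩
    have h2 : e * T * (8 / e * D) = 8 * T * D := by field_simp
    nlinarith [sq_nonneg (e * T - 8 / e * D)]
  have h3 : 32 / e * D = 4 * (8 / e * D) := by ring
  linarith

theorem sum_pairs {X : Type} [DecidableEq X] (Y : Finset X) (f : X → ℝ) :
    ∑ x ∈ Y, ∑ y ∈ Y.erase x, f y = ((Y.card : ℝ) - 1) * ∑ y ∈ Y, f y := by
  rw [sum_erase_comm, mul_sum]
  refine sum_congr rfl fun y hy => ?_
  rw [sum_const, nsmul_eq_mul, card_erase_of_mem hy,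
    Nat.cast_sub (card_pos.2 ⟨y, hy⟩), Nat.cast_one]

theorem sum_const_le {X : Type} [DecidableEq X] (Y : Finset X) {A : ℝ} (hA : 0 ≤ A) :
    ∑ x ∈ Y, ∑ _y ∈ Y.erase x, A ≤ A * (Y.card : ℝ) ^ 2 := by
  have h : ∀ x ∈ Y, ∑ _y ∈ Y.erase x, A ≤ A * Y.card := fun x _ => by
    rw [sum_const, nsmul_eq_mul, mul_comm]
    exact mul_le_mul_of_nonneg_left (Nat.cast_le.2 card_erase_le) hA
  refine (sum_le_sum h).trans (le_of_eq ?_)
  rw [sum_const, nsmul_eq_mul]; ring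

theorem pow_small {e : ℝ} (he : 0 < e) (h : e ≤ 1 / 10 ^ 20) (k : ℕ) :
    e ^ (k + 1) ≤ 1 / 1000 := by
  have h1 : e ^ k ≤ 1 := pow_le_one₀ he.le (h.trans (by norm_num))
  have h2 : e ≤ 1 / 1000 := h.trans (by norm_num)
  rw [pow_succ]
  nlinarith [pow_pos he k]

end Hzs

open Classical in
theorem hzs (hL : LZS) (hE : HZE) (hX : HZX) : HZS := by
  intro X PL _ _ s hv Y B h T η ε l a γ L At ok C hx he he' hn hS hD hT hLz hLs
  have hs := hx.ctx.good
  have hT0 : 0 < T := by linarith [hx.ctx.Tlo]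
  have he2 : 0 < ε ^ 2 := by positivity
  have hn0 : (0 : ℝ) ≤ Y.card := Nat.cast_nonneg _
  have hn4 : 4 ≤ ε ^ 2 * Y.card := by
    have h1 := Hzs.pow_small he he' 10
    have h2 : ε ^ 13 * Y.card = ε ^ (10 + 1) * (ε ^ 2 * Y.card) := by ring
    have h3 : 0 ≤ ε ^ 2 * Y.card := by positivity
    nlinarith
  have hn2 : (2 : ℝ) ≤ Y.card := by
    have h1 := Hzs.pow_small he he' 1
    nlinarith
  have h360 : 360 ≤ ε ^ 2 * T := by
    have h1 := Hzs.pow_small he he' 2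
    have h2 : ε ^ 5 * T = ε ^ (2 + 1) * (ε ^ 2 * T) := by ring
    have h3 : 0 ≤ ε ^ 2 * T := by positivity
    nlinarith
  obtain ⟨x0, hx0⟩ : Y.Nonempty := card_pos.1 (by exact_mod_cast (by linarith : (0 : ℝ) < Y.card))
  have hL0 : ∀ p, 0 ≤ L p := fun p => (lz_nonneg _ _).trans (hLz p x0 hx0)
  have hg : ∀ y ∈ Y, gs s γ y ≤ 7 * T := fun y hy =>
    (hL X PL s hv Y h T (ε ^ 2) η γ hx hn4 y hy).2
  have hq' := fun y hy => hX X PL s hv Y h T (ε ^ 2) η γ L hx hLz y hy (hg y hy)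
  have hedge : ∀ x ∈ Y, ∀ y ∈ Y.erase x, gs s γ y ≤ 200069 * (ε ^ 2 * T) + 4 * hq s γ L y x +
      32 / ε ^ 2 * (if ok x y then s.Disc hv Y (ε ^ 29) (C x y) else 0) +
      7 * T * (if ok x y then (0 : ℝ) else 1) := by
    intro x hxY y hy
    have hyY := mem_of_mem_erase hy
    have h0 := (hq' y hyY).1 x
    by_cases hk : ok x y
    · obtain ⟨h1, -, h2, -⟩ := hS.sub x hxY y hy hk
      have h3 : (0 : ℝ) < (fib s.lab Y x y).card := by
        exact_mod_cast card_pos.2 ⟨y, mem_fib.2 ⟨hy, rfl⟩⟩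
      have h4 : (C x y).Nonempty := by
        have h5 : (0 : ℝ) < (C x y).card := lt_of_lt_of_le (by positivity) h2
        exact card_pos.1 (by exact_mod_cast h5)
      have h6 := hE X PL s hv Y (C x y) h T (ε ^ 2) η (ε ^ 29) γ L hx hL0 x hxY y hy
        (hg y hyY) h1 h4
      have h7 := Hzs.amgm he2 hT0.le (Disc_nonneg (hv := hv) (Y := Y) (σ := ε ^ 29) hs (C x y))
      rw [if_pos hk, if_pos hk]
      linarith
    · rw [if_neg hk, if_neg hk]
      have h1 := hg y hyY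
      linarith
  have hsum := sum_le_sum fun x hxY => sum_le_sum fun y hy => hedge x hxY y hy
  rw [Hzs.sum_pairs] at hsum
  simp only [sum_add_distrib, ← mul_sum] at hsum
  have h1 := Hzs.sum_const_le Y (A := ε ^ 2 * T) (by positivity)
  have h2 : ∑ x ∈ Y, ∑ y ∈ Y.erase x, hq s γ L y x ≤ 20 * ε ^ 2 * T * (Y.card : ℝ) ^ 2 := by
    rw [sum_erase_comm]
    have h3 : ∀ y ∈ Y, ∑ x ∈ Y.erase y, hq s γ L y x ≤ 20 * ε ^ 2 * T * Y.card := fun y hy =>
      (sum_le_sum_of_subset_of_nonneg (erase_subset _ _) fun x _ _ => (hq' y hy).1 x).trans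
        (hq' y hy).2
    refine (sum_le_sum h3).trans (le_of_eq ?_)
    rw [sum_const, nsmul_eq_mul]; ring
  have h4 : 32 / ε ^ 2 * dsum s hv Y (ε ^ 29) ok C ≤ 32 * (ε ^ 2 * T * (Y.card : ℝ) ^ 2) := by
    refine (mul_le_mul_of_nonneg_left hD (by positivity)).trans ?_
    have h5 := Hzs.pow_small he he' 9
    have h6 : 32 / ε ^ 2 * (ε ^ 14 * T * (Y.card : ℝ) ^ 2) =
        32 * (ε ^ (9 + 1) * (ε ^ 2 * T * (Y.card : ℝ) ^ 2)) := by field_simp
    have h7 : 0 ≤ ε ^ 2 * T * (Y.card : ℝ) ^ 2 := by positivity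
    rw [h6]
    exact mul_le_mul_of_nonneg_left (mul_le_of_le_one_left h7 (h5.trans (by norm_num))) (by norm_num)
  have h5 : 7 * T * (∑ x ∈ Y, ∑ y ∈ Y.erase x, if ok x y then (0 : ℝ) else 1) ≤
      7 * (ε ^ 2 * T * (Y.card : ℝ) ^ 2) := by
    refine (mul_le_mul_of_nonneg_left hS.few (by positivity)).trans ?_
    have h5 := Hzs.pow_small he he' 17
    have h6 : 7 * T * (ε ^ 20 * (Y.card : ℝ) ^ 2) =
        7 * (ε ^ (17 + 1) * (ε ^ 2 * T * (Y.card : ℝ) ^ 2)) := by ring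
    have h7 : 0 ≤ ε ^ 2 * T * (Y.card : ℝ) ^ 2 := by positivity
    rw [h6]
    exact mul_le_mul_of_nonneg_left (mul_le_of_le_one_left h7 (h5.trans (by norm_num))) (by norm_num)
  unfold dsum at h4
  have h8 : ((Y.card : ℝ) - 1) * ∑ y ∈ Y, gs s γ y ≤
      200200 * (ε ^ 2 * T * (Y.card : ℝ) ^ 2) := by
    have h7 : 0 ≤ ε ^ 2 * T * (Y.card : ℝ) ^ 2 := by positivity
    simp only [← mul_sum] at h1
    linarith
  have h9 : 0 < (Y.card : ℝ) - 1 := by linarith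
  refine le_of_mul_le_mul_left (h8.trans ?_) h9
  have h10 : 0 ≤ ε ^ 2 * T * Y.card := by positivity
  nlinarith

end Pool.Agent.MP_6c3157_co.PQ
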