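import Pool.Agent.MP_6c3157_co.PQ.BasicB

/-! Project PQ, row HZX: the three families, summed over the pins. -/

set_option autoImplicit false

noncomputable section

namespace Pool.Agent.MP_6c3157_co.PQ

open Finset Pool.Agent.MP_6c3157_co.PD

namespace Hzx

variable {X : Type} [DecidableEq X] {c : Cells X} {hv : ℕ × Finset X → Prop} {Y : Finset X}
  {γ : Geo X} {τ g L : ℝ}

theorem out1 (hO : OUT) (hp : PT c hv Y γ τ) (hg : 0 ≤ g) :
    ∑ x ∈ Y, c.W (fun i => outF c γ g i ∧ x ∉ i.2) ≤ τ * Y.card * (g + c.eta) := by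
  have o := hO X c hv Y γ τ g hp hg
  rw [Cells.sum_W_not]
  refine (Cells.WS_le hp.good fun i hi hF => (o.2.1 i hi hF).2).trans ?_
  rw [Cells.WS_const]
  exact mul_le_mul_of_nonneg_left o.1 (mul_nonneg hp.t_pos.le (Nat.cast_nonneg _))

theorem bal1 (hB : BALL) (hM : MASS) (hp : PT c hv Y γ τ) (hg : 0 ≤ g)
    (hL : ∀ x ∈ Y, lz γ x ≤ L) {y : X} (hy : y ∈ Y) :
    ∑ x ∈ Y, c.W (fun i => balF c (γ.r * Real.exp (-L) / c.lam) g y i ∧ x ∈ i.2) ≤
      τ / 2 * Y.card * (g + c.eta) := by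
  have b := (hB X c γ.r L g hp.good (hp.geo.r_pos hp.good) hp.geo.r_hi
    ((lz_nonneg γ y).trans (hL y hy)) hg y).1
  have m := (hM X c hv Y γ τ L hp hL y hy).1
  rw [Cells.sum_W]
  refine (Cells.WS_le hp.good fun i hi hF => (m i hi hF.1 hF.2.2).2).trans ?_
  rw [Cells.WS_const]
  exact mul_le_mul_of_nonneg_left b (mul_nonneg (half_pos hp.t_pos).le (Nat.cast_nonneg _))

end Hzx

open Hzx in
theorem hzx (hB : BALL) (hM : MASS) (hO : OUT) : HZX := by
  intro X PL _ _ s hv Y h T τ η γ L hx hL y hy hgs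
  have hG := hx.ctx.good
  refine ⟨fun x => hG.sum_nonneg fun p => add_nonneg (add_nonneg (Cells.W_nonneg (hG.good _))
    (Cells.W_nonneg (hG.good _))) (Cells.W_nonneg (hG.good _)), ?_⟩
  have hg : ∀ p, 0 ≤ (s.c p).G (γ p) y := fun p => Cells.G_nonneg _ _
  unfold hq
  rw [sum_comm]
  simp only [← mul_sum]
  refine (hG.sum_le (g := fun p => τ * Y.card * (5 / 2 * (s.c p).G (γ p) y + (s.c p).eta +
    3 / 2 * (s.c (s.bar p)).eta)) fun p => ?_).trans ?_
  · have a1 := bal1 hB hM (hx.pt (s.bar p)) (hg p) (hL _) hy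
    have a2 := out1 hO (hx.pt p) (hg p)
    have a3 := out1 hO (hx.pt (s.bar p)) (hg p)
    rw [sum_add_distrib, sum_add_distrib]
    unfold bet
    linarith
  · have e1 := hG.sum_bar fun q => (s.c q).eta
    have e2 : ∑ p, s.m p * (τ * Y.card * (5 / 2 * (s.c p).G (γ p) y + (s.c p).eta +
        3 / 2 * (s.c (s.bar p)).eta)) = τ * Y.card * (5 / 2 * gs s γ y +
          (∑ p, s.m p * (s.c p).eta) + 3 / 2 * ∑ p, s.m p * (s.c (s.bar p)).eta) := by
      unfold gs
      simp only [mul_sum, ← sum_add_distrib]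
      exact sum_congr rfl fun p _ => by ring
    rw [e2, e1]
    have h1 : 5 / 2 * gs s γ y + (∑ p, s.m p * (s.c p).eta) +
        3 / 2 * ∑ p, s.m p * (s.c p).eta ≤ 20 * T := by
      linarith [hx.eta, hx.eta_le, hx.ctx.Tlo]
    have h2 := mul_le_mul_of_nonneg_left h1
      (mul_nonneg hx.t_pos.le (Nat.cast_nonneg (α := ℝ) Y.card))
    linarith

end Pool.Agent.MP_6c3157_co.PQ
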