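import Pool.Agent.MP_6c3157_co.PQ.BasicB

/-! Project PQ, row LHL: huge levels and heavy cells against the second moment. -/

set_option autoImplicit false
set_option linter.unusedSectionVars false

noncomputable section

namespace Pool.Agent.MP_6c3157_co.PQ

open Finset Pool.Agent.MP_6c3157_co.PD

namespace Lhl

variable {X : Type} [DecidableEq X] {c : Cells X} {hv : ℕ × Finset X → Prop} {Y : Finset X}
  {γ : Geo X} {τ : ℝ}

/-- a heavy cell meets the central ball -/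
theorem meet (h : PT c hv Y γ τ) {i : ℕ × Finset X} (hi : i ∈ c.I) (hh : hv i) :
    ∃ a ∈ i.2, c.d γ.cen a ≤ γ.r := by
  by_contra hcon
  push Not at hcon
  have hd : Disjoint (Y ∩ i.2) (c.ball Y γ.cen γ.r) := by
    rw [disjoint_left]
    intro a ha hb
    exact absurd (Cells.mem_ball.1 hb).2 (not_le.2 (hcon a (mem_inter.1 ha).2))
  have h1 : ((Y ∩ i.2).card : ℝ) + (c.ball Y γ.cen γ.r).card ≤ Y.card := by
    have := card_le_card (union_subset (inter_subset_left (s₁ := Y) (s₂ := i.2))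
      (Cells.ball_subset (c := c) (Y := Y) (x := γ.cen) (r := γ.r)))
    rw [card_union_of_disjoint hd] at this
    exact_mod_cast this
  have h2 : (Y.card : ℝ) ≤ 4 * (Y ∩ i.2).card := by exact_mod_cast h.hvl i hi hh
  have h3 := h.geo.r_in
  have h4 := h.geo.card_pos
  have h5 : τ * Y.card ≤ 1 / 1000 * Y.card := mul_le_mul_of_nonneg_right h.t_le h4.le
  linarith

theorem log6 (hc : c.Good) : Real.log (c.lam ^ 6) ≤ 6 * c.xi := by
  rw [Real.log_pow]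
  have := hc.log_lam
  push_cast
  linarith

theorem one (h : PT c hv Y γ τ) {x : X} (hx : x ∈ Y) : lz γ x ≤ lm c hv Y γ τ := by
  have hc := h.good
  have hr := h.geo.r_pos hc
  have hs := h.geo.s_pos hc hx
  have hl := hc.lam_pos
  have hn := h.geo.card_pos
  have ht := h.t_pos
  have hxi := hc.xi_nonneg
  have hu : 0 ≤ c.ulow hv Y (τ / 2) γ := Cells.ulow_nonneg hc γ
  have hq : 0 < (τ * Y.card) ^ 2 := by positivity
  have hu' : 0 ≤ 16 * c.ulow hv Y (τ / 2) γ / (τ * Y.card) ^ 2 := by positivity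
  have h6 : (1 : ℝ) ≤ c.lam ^ 6 := one_le_pow₀ hc.lam_lo
  have hll := hc.log_lam
  have he := hc.eta_hi
  have hlog : Real.log (γ.r / c.lam ^ 6 / (c.lam * γ.rs x)) =
      Real.log (γ.r / γ.rs x) - 7 * Real.log c.lam := by
    have : γ.r / c.lam ^ 6 / (c.lam * γ.rs x) = γ.r / γ.rs x / c.lam ^ 7 := by
      field_simp
    rw [this, Real.log_div (by positivity) (by positivity), Real.log_pow]
    push_cast
    ring
  unfold lz lm
  refine max_le (by linarith) ?_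
  by_cases hab : c.lam * γ.rs x ≤ γ.r / c.lam ^ 6
  · have h1 : c.rlo ≤ c.lam * γ.rs x := by
      have := h.geo.s_lo x hx
      have h2 := hc.rlo_pos
      have h3 : γ.rs x ≤ c.lam * γ.rs x := le_mul_of_one_le_left hs.le hc.lam_lo
      linarith
    have h2 : γ.r / c.lam ^ 6 ≤ c.rhi := (div_le_self hr.le h6).trans h.geo.r_hi
    have h3 := hc.c3 x _ _ h1 hab h2
    set φ : ℕ × Finset X → Prop := fun i => x ∈ i.2 ∧ c.lam * γ.rs x ≤ c.ρ i ∧
      c.ρ i < γ.r / c.lam ^ 6 ∧ ∀ z, c.d x z ≤ c.ρ i / c.lam → z ∈ i.2 with hφ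
    have h4 : (τ / 2 * Y.card) ^ 2 * c.W φ ≤ c.ulow hv Y (τ / 2) γ := by
      rw [← Cells.WS_const]
      refine Cells.WS_mono hc (fun i hi hj => ?_) fun _ _ _ => sq_nonneg _
      have h5 : c.ball Y x (γ.rs x) ⊆ Y ∩ i.2 := fun z hz => by
        refine mem_inter.2 ⟨(Cells.mem_ball.1 hz).1, hj.2.2.2 z ?_⟩
        refine (Cells.mem_ball.1 hz).2.trans ?_
        rw [le_div_iff₀ hl, mul_comm]
        exact hj.2.1
      have h7 : τ / 2 * Y.card ≤ ((Y ∩ i.2).card : ℝ) :=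
        (h.geo.s_in x hx).trans (Nat.cast_le.2 (card_le_card h5))
      refine ⟨⟨fun hsm => absurd (small_card hc hi hsm hx hj.1) (not_lt.2 h7), hj.2.2.1⟩, ?_⟩
      exact pow_le_pow_left₀ (by positivity) h7 2
    have h5 : 4 * c.W φ ≤ 16 * c.ulow hv Y (τ / 2) γ / (τ * Y.card) ^ 2 := by
      rw [le_div_iff₀ hq]
      have : 4 * c.W φ * (τ * Y.card) ^ 2 = 16 * ((τ / 2 * Y.card) ^ 2 * c.W φ) := by ring
      rw [this]
      linarith
    rw [hlog] at h3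
    linarith
  · have h1 : Real.log (γ.r / c.lam ^ 6 / (c.lam * γ.rs x)) ≤ 0 := by
      refine Real.log_nonpos (by positivity) ?_
      rw [div_le_one (by positivity)]
      exact (not_le.1 hab).le
    rw [hlog] at h1
    linarith

theorem two (h : PT c hv Y γ τ) :
    hl c hv γ ≤ 16 * c.ulow hv Y (τ / 2) γ / (Y.card : ℝ) ^ 2 + 28 * c.xi := by
  have hc := h.good
  have hr := h.geo.r_pos hc
  have hl := hc.lam_pos
  have hn := h.geo.card_pos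
  have h6 : (1 : ℝ) ≤ c.lam ^ 6 := one_le_pow₀ hc.lam_lo
  set φ : ℕ × Finset X → Prop := fun i => hv i ∧ c.ρ i < γ.r / c.lam ^ 6 with hφ
  set ψ : ℕ × Finset X → Prop := fun i => hv i ∧ γ.r / c.lam ^ 6 ≤ c.ρ i ∧ c.ρ i < γ.r with hψ
  have h1 : PQ.hl c hv γ ≤ c.W φ + c.W ψ := by
    refine Cells.W_le_add hc fun i _ hj => ?_
    by_cases h2 : c.ρ i < γ.r / c.lam ^ 6
    · exact Or.inl ⟨hj.1, h2⟩
    · exact Or.inr ⟨hj.1, not_lt.1 h2, hj.2⟩
  have h2 : ((Y.card : ℝ) / 4) ^ 2 * c.W φ ≤ c.ulow hv Y (τ / 2) γ := by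
    rw [← Cells.WS_const]
    refine Cells.WS_mono hc (fun i hi hj => ?_) fun _ _ _ => sq_nonneg _
    have h3 : (Y.card : ℝ) ≤ 4 * (Y ∩ i.2).card := by exact_mod_cast h.hvl i hi hj.1
    exact ⟨⟨fun hsm => hsm.1 hj.1, hj.2⟩, pow_le_pow_left₀ (by positivity) (by linarith) 2⟩
  have h3 : c.W φ ≤ 16 * c.ulow hv Y (τ / 2) γ / (Y.card : ℝ) ^ 2 := by
    rw [le_div_iff₀ (by positivity)]
    have : c.W φ * (Y.card : ℝ) ^ 2 = 16 * (((Y.card : ℝ) / 4) ^ 2 * c.W φ) := by ring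
    rw [this]
    linarith
  have h4 : (Y.card : ℝ) / 4 * c.W ψ ≤ ∑ y ∈ Y, c.W (fun i => ψ i ∧ y ∈ i.2) := by
    rw [Cells.sum_W, ← Cells.WS_const]
    refine Cells.WS_le hc fun i hi hj => ?_
    have h3 : (Y.card : ℝ) ≤ 4 * (Y ∩ i.2).card := by exact_mod_cast h.hvl i hi hj.1
    linarith
  have h5 : ∑ y ∈ Y, c.W (fun i => ψ i ∧ y ∈ i.2) ≤ ∑ _y ∈ Y, 7 * c.xi := by
    refine sum_le_sum fun y _ => ?_
    have h7 := hc.c2 y (γ.r / c.lam ^ 6) γ.r (by positivity) (div_le_self hr.le h6)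
    have h8 : γ.r / (γ.r / c.lam ^ 6) = c.lam ^ 6 := by field_simp
    rw [h8] at h7
    have h9 : c.W (fun i => ψ i ∧ y ∈ i.2) ≤
        c.W (fun i => y ∈ i.2 ∧ γ.r / c.lam ^ 6 ≤ c.ρ i ∧ c.ρ i < γ.r) :=
      Cells.W_mono hc fun i _ hj => ⟨hj.2, hj.1.2⟩
    have := log6 hc
    have := hc.eta_hi
    linarith
  rw [sum_const, nsmul_eq_mul] at h5
  have h7 : c.W ψ ≤ 28 * c.xi := by
    refine le_of_mul_le_mul_left ?_ hn
    linarith
  linarith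

theorem three (h : PT c hv Y γ τ) (x : X) : c.H hv x ≤ hl c hv γ + c.G γ x + 3 * c.xi := by
  have hc := h.good
  have hr := h.geo.r_pos hc
  have hG := Cells.G_nonneg (c := c) γ x
  have hb : γ.r ≤ γ.r * Real.exp (c.G γ x) :=
    le_mul_of_one_le_right hr.le (Real.one_le_exp hG)
  set b := γ.r * Real.exp (c.G γ x) with hbdef
  have hd : c.d γ.cen x ≤ b := by
    rw [hc.d_symm]
    exact h.geo.d_le hc x
  have h1 := hc.c5 γ.cen b (hr.trans_le hb)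
  have h2 := hc.c5 γ.cen γ.r hr
  have h3 := hc.c2 γ.cen γ.r b hr hb
  have h4 : Real.log (b / γ.r) = c.G γ x := by
    rw [hbdef, mul_div_cancel_left₀ _ hr.ne', Real.log_exp]
  rw [h4] at h3
  have h5 : c.H hv x ≤ hl c hv γ + c.W (fun i => hv i ∧ x ∉ i.2 ∧ γ.r ≤ c.ρ i) := by
    refine Cells.W_le_add hc fun i _ hj => ?_
    by_cases h6 : c.ρ i < γ.r
    · exact Or.inl ⟨hj.1, h6⟩
    · exact Or.inr ⟨hj.1, hj.2, not_lt.1 h6⟩
  have h6 : c.W (fun i => hv i ∧ x ∉ i.2 ∧ γ.r ≤ c.ρ i) ≤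
      c.W (fun i => b ≤ c.ρ i ∧ (∃ a ∈ i.2, c.d γ.cen a ≤ b) ∧ ∃ z, z ∉ i.2 ∧ c.d γ.cen z ≤ b) +
      c.W (fun i => hv i ∧ γ.r ≤ c.ρ i ∧ c.ρ i < b) := by
    refine Cells.W_le_add hc fun i hi hj => ?_
    by_cases h7 : b ≤ c.ρ i
    · obtain ⟨a, ha, ha'⟩ := meet h hi hj.1
      exact Or.inl ⟨h7, ⟨a, ha, ha'.trans hb⟩, x, hj.2.1, hd⟩
    · exact Or.inr ⟨hj.1, hj.2.2, not_le.1 h7⟩
  have h7 : c.W (fun i => hv i ∧ γ.r ≤ c.ρ i ∧ c.ρ i < b) ≤
      c.W (fun i => γ.cen ∈ i.2 ∧ γ.r ≤ c.ρ i ∧ c.ρ i < b) +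
      c.W (fun i => γ.r ≤ c.ρ i ∧ (∃ a ∈ i.2, c.d γ.cen a ≤ γ.r) ∧
        ∃ z, z ∉ i.2 ∧ c.d γ.cen z ≤ γ.r) := by
    refine Cells.W_le_add hc fun i hi hj => ?_
    by_cases h8 : γ.cen ∈ i.2
    · exact Or.inl ⟨h8, hj.2⟩
    · refine Or.inr ⟨hj.2.1, meet h hi hj.1, γ.cen, h8, ?_⟩
      rw [hc.d_self]
      exact hr.le
  have := hc.eta_hi
  linarith

end Lhl

theorem lhl : LHL := fun _ _ _ _ _ _ _ h =>
  ⟨fun _ hx => Lhl.one h hx, Lhl.two h, fun x => Lhl.three h x⟩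

end Pool.Agent.MP_6c3157_co.PQ
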