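import Pool.Agent.MP_6c3157_co.PQ.BasicB

/-! Project PQ, part B: first bound for the length of the huge levels. -/

set_option autoImplicit false
set_option linter.unusedSectionVars false

noncomputable section

namespace Pool.Agent.MP_6c3157_co.PQ

open Finset Pool.Agent.MP_6c3157_co.PD

theorem lzb (hT : LTT) : LZB := by
  intro X _ c hv Y γ τ hp hn x hx
  have hc := hp.good
  have hr := hp.geo.r_pos hc
  have hs := hp.geo.s_pos hc hx
  have hB : τ * Y.card / 4 ≤ (((c.ball Y x (γ.rs x)).erase x).card : ℝ) := by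
    have h1 := hp.geo.s_in x hx
    have h2 : ((c.ball Y x (γ.rs x)).card : ℝ) ≤ ((c.ball Y x (γ.rs x)).erase x).card + 1 := by
      have h3 := pred_card_le_card_erase (s := c.ball Y x (γ.rs x)) (a := x)
      have h4 : (c.ball Y x (γ.rs x)).card ≤ ((c.ball Y x (γ.rs x)).erase x).card + 1 := by omega
      exact_mod_cast h4
    linarith
  have hsub : (c.ball Y x (γ.rs x)).erase x ⊆ Y.erase x :=
    erase_subset_erase x Cells.ball_subset
  have hpt : ∀ z ∈ (c.ball Y x (γ.rs x)).erase x,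
      lz γ x - 4 * c.Hlow hv γ - 3 * c.xi ≤ 4 * c.o hv x z := by
    intro z hz
    have hz1 := mem_erase.1 hz
    have hz2 := Cells.mem_ball.1 hz1.2
    have hd := hc.d_pos hz1.1.symm
    have h1 := (hT X c hv Y γ τ hp).2 x hx z hz2.1 hz1.1.symm
    have h2 : Real.log (γ.r / γ.rs x) ≤ Real.log (γ.r / c.d x z) :=
      Real.log_le_log (div_pos hr hs) (div_le_div_of_nonneg_left hr.le hd hz2.2)
    have h3 := Cells.o_nonneg (hv := hv) hc x z
    have h4 := Cells.Hlow_nonneg (hv := hv) hc γ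
    have h5 := hc.xi_nonneg
    have h6 : lz γ x ≤ 4 * (c.o hv x z + c.Hlow hv γ) + 3 * c.xi :=
      max_le (by linarith) (h2.trans h1)
    linarith
  have hsum := card_nsmul_le_sum _ _ _ hpt
  rw [nsmul_eq_mul, ← mul_sum] at hsum
  have hmono : ∑ z ∈ (c.ball Y x (γ.rs x)).erase x, c.o hv x z ≤ ∑ z ∈ Y.erase x, c.o hv x z :=
    sum_le_sum_of_subset_of_nonneg hsub fun z _ _ => Cells.o_nonneg hc x z
  have hS : 0 ≤ ∑ z ∈ Y.erase x, c.o hv x z := sum_nonneg fun z _ => Cells.o_nonneg hc x z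
  have hpos : 0 < τ * Y.card := by linarith
  suffices h : lz γ x - 4 * c.Hlow hv γ - 3 * c.xi ≤
      16 / (τ * Y.card) * ∑ z ∈ Y.erase x, c.o hv x z by linarith
  rcases le_total (lz γ x - 4 * c.Hlow hv γ - 3 * c.xi) 0 with h0 | h0
  · exact h0.trans (mul_nonneg (div_nonneg (by norm_num) hpos.le) hS)
  · rw [div_mul_eq_mul_div, le_div_iff₀ hpos]
    have h1 := mul_le_mul_of_nonneg_right hB h0
    linarith

end Pool.Agent.MP_6c3157_co.PQ
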