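import Pool.Agent.MP_6c3157_co.PQ.BasicB

/-! Project PQ, part B: first bounds for the lengths, summed over the places. -/

set_option autoImplicit false
set_option linter.unusedSectionVars false

noncomputable section

namespace Pool.Agent.MP_6c3157_co.PQ

open Finset Pool.Agent.MP_6c3157_co.PD

theorem lzs (hG : LGT) (hZ : LZB) : LZS := by
  intro X PL _ _ s hv Y h T τ η γ hc h4 x hxY
  have hx := hc.ctx
  have hs := hx.good
  have hT := hx.Tlo
  have hxi := hs.xi_sum
  have hτ := hc.t_pos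
  have hτ1 := hc.t_le
  have hn : (0 : ℝ) < Y.card := by exact_mod_cast card_pos.2 ⟨x, hxY⟩
  have hT0 : 0 ≤ T := by linarith
  refine ⟨?_, ?_⟩
  · have l1 : τ * ∑ p, s.m p * (s.c p).Hlow hv (γ p) ≤ T := by
      have h1 := hs.sum_le fun p => (hG X _ hv Y _ τ (hc.pt p)).2
      have h2 : ∑ p, s.m p * ∑ y ∈ Y, (s.c p).H hv y = ∑ y ∈ Y, s.H hv y := by
        unfold Sys.H
        rw [sum_comm]
        exact sum_congr rfl fun p _ => mul_sum _ _ _
      have h3 : ∑ y ∈ Y, s.H hv y ≤ Y.card * T := by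
        have := sum_le_card_nsmul Y _ T hx.Hle
        rwa [nsmul_eq_mul] at this
      have h5 : ∑ p, s.m p * (τ * Y.card * (s.c p).Hlow hv (γ p)) =
          Y.card * (τ * ∑ p, s.m p * (s.c p).Hlow hv (γ p)) := by
        rw [mul_sum, mul_sum]
        exact sum_congr rfl fun p _ => by ring
      exact le_of_mul_le_mul_left (h5 ▸ (h1.trans (h2 ▸ h3))) hn
    have o1 : ∑ p, s.m p * ∑ z ∈ Y.erase x, (s.c p).o hv x z ≤ Y.card * T := by
      have h2 : ∑ p, s.m p * ∑ z ∈ Y.erase x, (s.c p).o hv x z =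
          ∑ z ∈ Y.erase x, s.O hv x z := by
        unfold Sys.O
        rw [sum_comm]
        exact sum_congr rfl fun p _ => mul_sum _ _ _
      have h3 := sum_le_card_nsmul (Y.erase x) (fun z => s.O hv x z) T fun z hz =>
        hx.Ole x hxY z (mem_erase.1 hz).2 (mem_erase.1 hz).1.symm
      rw [nsmul_eq_mul] at h3
      have h6 : ((Y.erase x).card : ℝ) ≤ Y.card := by exact_mod_cast card_erase_le
      rw [h2]
      exact h3.trans (mul_le_mul_of_nonneg_right h6 hT0)
    have h1 := hs.sum_le fun p => hZ X _ hv Y _ τ (hc.pt p) h4 x hxY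
    have h2 : ∑ p, s.m p * (16 / (τ * Y.card) * (∑ z ∈ Y.erase x, (s.c p).o hv x z) +
        4 * (s.c p).Hlow hv (γ p) + 3 * (s.c p).xi) =
        16 / (τ * Y.card) * (∑ p, s.m p * ∑ z ∈ Y.erase x, (s.c p).o hv x z) +
          4 * (∑ p, s.m p * (s.c p).Hlow hv (γ p)) + 3 * ∑ p, s.m p * (s.c p).xi := by
      rw [mul_sum, mul_sum, mul_sum, ← sum_add_distrib, ← sum_add_distrib]
      exact sum_congr rfl fun p _ => by ring
    have h3 : 16 / (τ * Y.card) * (∑ p, s.m p * ∑ z ∈ Y.erase x, (s.c p).o hv x z) ≤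
        16 * (T / τ) := by
      refine (mul_le_mul_of_nonneg_left o1 (by positivity)).trans (le_of_eq ?_)
      field_simp
    have h5 : ∑ p, s.m p * (s.c p).Hlow hv (γ p) ≤ T / τ := by
      rw [le_div_iff₀' hτ]; exact l1
    have h6 : 1000 * T ≤ T / τ := by
      rw [le_div_iff₀ hτ]; nlinarith
    rw [mul_div_assoc]
    linarith
  · have h1 := hs.sum_le fun p => (hG X _ hv Y _ τ (hc.pt p)).1 x hxY
    have h2 := hx.Hle x hxY
    have h3 : ∑ p, s.m p * (4 * (s.c p).H hv x + 3 * (s.c p).xi) =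
        4 * s.H hv x + 3 * ∑ p, s.m p * (s.c p).xi := by
      unfold Sys.H
      rw [mul_sum, mul_sum, ← sum_add_distrib]
      exact sum_congr rfl fun p _ => by ring
    unfold gs
    linarith

end Pool.Agent.MP_6c3157_co.PQ
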