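import Pool.Agent.MP_6c3157_co.PQ.BasicB

/-! Project PQ, row MASS: cells below the huge levels. -/

set_option autoImplicit false
set_option linter.unusedSectionVars false

noncomputable section

namespace Pool.Agent.MP_6c3157_co.PQ

open Finset Pool.Agent.MP_6c3157_co.PD

theorem mass (hT : LTT) : MASS := by
  intro X _ c hv Y γ τ L h hL x hx
  have hc := h.good
  have hr := h.geo.r_pos hc
  have hs := h.geo.s_pos hc hx
  have hl := hc.lam_pos
  have hY := h.geo.card_pos
  have ht := h.t_le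
  have hL0 : 0 ≤ L := (lz_nonneg γ x).trans (hL x hx)
  have h1 : γ.r * Real.exp (-L) ≤ γ.rs x := by
    have h2 : Real.log (γ.r / γ.rs x) ≤ L := (le_max_right _ _).trans (hL x hx)
    rw [Real.log_le_iff_le_exp (div_pos hr hs), div_le_iff₀ hs] at h2
    rw [Real.exp_neg, ← div_eq_mul_inv, div_le_iff₀ (Real.exp_pos L)]
    linarith
  have hb : 0 < γ.r * Real.exp (-L) := by positivity
  refine ⟨fun i hi hxi hρ => ?_, ?_, ?_⟩
  · rw [lt_div_iff₀ hl, mul_comm] at hρ
    have h2 := h.geo.s_min x hx _ (hρ.trans_le h1)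
    have h3 : ((Y ∩ i.2).card : ℝ) ≤ (c.ball Y x (c.lam * c.ρ i)).card :=
      Nat.cast_le.2 (card_le_card (Cells.inter_subset_ball hc hi hxi))
    refine ⟨fun hh => ?_, by linarith⟩
    have h4 : (Y.card : ℝ) ≤ 4 * (Y ∩ i.2).card := by exact_mod_cast h.hvl i hi hh
    nlinarith
  · obtain ⟨z, -, hz⟩ := exists_max_image Y (c.d x) ⟨x, hx⟩
    refine ⟨z, not_lt.1 fun hlt => ?_⟩
    have h2 : γ.r * Real.exp (-L) / c.lam ≤ γ.r * Real.exp (-L) := div_le_self hb.le hc.lam_lo
    have h3 := h.geo.s_min x hx (c.d x z) (by linarith)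
    have h4 : c.ball Y x (c.d x z) = Y :=
      Subset.antisymm Cells.ball_subset fun y hy => Cells.mem_ball.2 ⟨hy, hz y hy⟩
    rw [h4] at h3
    nlinarith
  · have h2 := (hT X c hv Y γ τ h).1 x hx _ (div_pos hb hl)
    have h3 : γ.r / (γ.r * Real.exp (-L) / c.lam) = Real.exp L * c.lam := by
      rw [Real.exp_neg]; field_simp
    rw [h3, Real.log_mul (Real.exp_pos L).ne' hl.ne', Real.log_exp] at h2
    have h4 := hc.log_lam
    have h5 := Cells.G_nonneg (c := c) γ x
    have h6 := hc.xi_nonneg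
    have h7 : max 0 (L + Real.log c.lam + c.G γ x) ≤ L + c.G γ x + c.xi :=
      max_le (by linarith) (by linarith)
    linarith

end Pool.Agent.MP_6c3157_co.PQ
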