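import Pool.Agent.MP_6c3157_co.PQ.BasicB

/-! Project PQ, row OUP: the overlap against the depth. -/

set_option autoImplicit false
set_option linter.unusedSectionVars false

noncomputable section

namespace Pool.Agent.MP_6c3157_co.PQ

open Finset Pool.Agent.MP_6c3157_co.PD

theorem oup (hT : LTT) (hL : LHL) : OUP := by
  intro X _ c hv Y γ τ h x hx y hy hxy
  have hc := h.good
  have hr := h.geo.r_pos hc
  have hd := hc.d_pos hxy
  have hl0 := hc.lam_pos
  have a1 : c.o hv x y ≤ c.W (fun i => ¬ hv i ∧ x ∈ i.2 ∧ y ∈ i.2) + c.H hv x :=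
    Cells.W_le_add hc fun i _ hi => by
      rcases hi with ⟨h1 | h1, h2 | h2⟩
      · exact Or.inr h1
      · exact Or.inr h1
      · exact absurd h2.1 h1.1
      · exact Or.inl ⟨h1.1, h1.2, h2.2⟩
  have a2 : c.W (fun i => ¬ hv i ∧ x ∈ i.2 ∧ y ∈ i.2) ≤
      c.W (fun i => x ∈ i.2 ∧ y ∈ i.2 ∧ c.ρ i < γ.r) +
        c.W (fun i => ¬ hv i ∧ x ∈ i.2 ∧ γ.r ≤ c.ρ i) :=
    Cells.W_le_add hc fun i _ hi => by
      rcases lt_or_ge (c.ρ i) γ.r with q | q
      · exact Or.inl ⟨hi.2.1, hi.2.2, q⟩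
      · exact Or.inr ⟨hi.1, hi.2.1, q⟩
  have b1 := hc.pair_below hxy γ.r
  have b2 := (hT X c hv Y γ τ h).1 x hx γ.r hr
  have b3 := (hL X c hv Y γ τ h).2.2 x
  have g1 := Cells.G_nonneg (c := c) γ x
  have g2 := Cells.G_nonneg (c := c) γ y
  rw [div_self hr.ne', Real.log_one, zero_add, max_eq_right g1] at b2
  have e1 : Real.log (c.lam * γ.r / c.d x y) = Real.log c.lam + Real.log (γ.r / c.d x y) := by
    rw [mul_div_assoc, Real.log_mul hl0.ne' (div_pos hr hd).ne']
  have e2 : 0 ≤ Real.log (c.lam * γ.r / c.d x y) + max (c.G γ x) (c.G γ y) := by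
    have := Real.log_le_log hd (pair_le hc hr x y)
    rw [Real.log_mul (by positivity) (Real.exp_pos _).ne', Real.log_exp] at this
    rw [Real.log_div (by positivity) hd.ne']
    linarith
  have e3 : max (c.G γ x) (c.G γ y) ≤ c.G γ x + c.G γ y := max_le (by linarith) (by linarith)
  have e4 : max 0 (Real.log (c.lam * γ.r / c.d x y)) ≤
      Real.log (c.lam * γ.r / c.d x y) + (c.G γ x + c.G γ y) := max_le (by linarith) (by linarith)
  linarith [hc.log_lam, hc.eta_hi, hc.xi_nonneg]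

end Pool.Agent.MP_6c3157_co.PQ
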