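import Pool.Agent.MP_6c3157_co.PQ.BasicB

/-! Project PQ, row OUT: truncated outlier length against the cells round the centre. -/

set_option autoImplicit false
set_option linter.unusedSectionVars false

noncomputable section

namespace Pool.Agent.MP_6c3157_co.PQ

open Finset Pool.Agent.MP_6c3157_co.PD

theorem outb : OUT := by
  intro X _ c hv Y γ τ g hp hg
  have hc := hp.good
  have hr := hp.geo.r_pos hc
  have hl := hc.lam_pos
  have hl1 := hc.lam_lo
  have ha : 0 < c.lam * γ.r := mul_pos hl hr
  have he : 1 ≤ Real.exp g := Real.one_le_exp hg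
  have hab : c.lam * γ.r ≤ c.lam * γ.r * Real.exp g := le_mul_of_one_le_right ha.le he
  have hlog : Real.log (c.lam * γ.r * Real.exp g / (c.lam * γ.r)) = g := by
    rw [mul_div_cancel_left₀ _ ha.ne', Real.log_exp]
  refine ⟨?_, fun i hi ho => ?_, fun z => ?_⟩
  · have h1 := hc.c2 γ.cen _ _ ha hab
    rw [hlog] at h1
    exact (Cells.W_mono hc fun i _ ho => ⟨ho.1, ho.2.1, ho.2.2.1⟩).trans h1
  · have hsub : c.ball Y γ.cen γ.r ⊆ Y ∩ i.2 := fun z hz => by
      obtain ⟨h1, h2⟩ := Cells.mem_ball.1 hz
      refine mem_inter.2 ⟨h1, ho.2.2.2 z (h2.trans ?_)⟩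
      rw [le_div_iff₀ hl, mul_comm]
      exact ho.2.1
    have h1 : (1 - τ) * Y.card ≤ ((Y ∩ i.2).card : ℝ) :=
      hp.geo.r_in.trans (Nat.cast_le.2 (card_le_card hsub))
    have h2 : ((Y \ i.2).card : ℝ) + (Y ∩ i.2).card = Y.card := by
      exact_mod_cast card_sdiff_add_card_inter Y i.2
    have h3 := hp.geo.card_pos
    have h4 := hp.t_le
    refine ⟨?_, by linarith⟩
    by_contra hn
    have h5 : (4 : ℝ) * (Y ∩ i.2).card ≤ 3 * Y.card := by exact_mod_cast hp.lgt i hi hn
    nlinarith
  · have hW : 0 ≤ c.W (fun i => outF c γ g i ∧ z ∉ i.2) := Cells.W_nonneg hc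
    have hx := hc.xi_nonneg
    have hll := hc.log_lam
    have hl0 : 0 ≤ Real.log c.lam := Real.log_nonneg hl1
    by_cases hD : c.d γ.cen z / c.lam ≤ c.lam * γ.r
    · have h1 : c.G γ z ≤ 2 * c.xi := by
        refine max_le (by linarith) ?_
        rcases (hc.d_nonneg z γ.cen).eq_or_lt with h0 | h0
        · rw [← h0, zero_div, Real.log_zero]; linarith
        · have h2 : c.d z γ.cen / γ.r ≤ c.lam * c.lam := by
            rw [div_le_iff₀ hl] at hD
            rw [div_le_iff₀ hr, hc.d_symm]
            linarith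
          have h3 := Real.log_le_log (div_pos h0 hr) h2
          rw [Real.log_mul hl.ne' hl.ne'] at h3
          linarith
      linarith [min_le_right g (c.G γ z)]
    · push Not at hD
      have hD0 : 0 < c.d γ.cen z / c.lam := ha.trans hD
      have hd0 : 0 < c.d γ.cen z := by
        have := mul_pos hD0 hl
        rwa [div_mul_cancel₀ _ hl.ne'] at this
      have h1 : c.rlo ≤ c.lam * γ.r := by
        have := hp.geo.r_lo
        have := hc.rlo_pos
        nlinarith
      have h2 : min (c.lam * γ.r * Real.exp g) (c.d γ.cen z / c.lam) ≤ c.rhi :=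
        (min_le_right _ _).trans ((div_le_self hd0.le hl1).trans (hc.d_hi _ _))
      have h3 := hc.c3 γ.cen _ _ h1 (le_min hab hD.le) h2
      have h4 : c.W (fun i => γ.cen ∈ i.2 ∧ c.lam * γ.r ≤ c.ρ i ∧
          c.ρ i < min (c.lam * γ.r * Real.exp g) (c.d γ.cen z / c.lam) ∧
          ∀ w, c.d γ.cen w ≤ c.ρ i / c.lam → w ∈ i.2) ≤
          c.W (fun i => outF c γ g i ∧ z ∉ i.2) := by
        refine Cells.W_mono hc fun i hi hj => ⟨⟨hj.1, hj.2.1, hj.2.2.1.trans_le (min_le_left _ _),
          hj.2.2.2⟩, fun hz => ?_⟩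
        have h5 := hc.c1 i hi _ hj.1 z hz
        have h6 := hj.2.2.1.trans_le (min_le_right _ _)
        rw [lt_div_iff₀ hl] at h6
        linarith
      have h5 : min g (c.G γ z) - 2 * c.xi ≤
          Real.log (min (c.lam * γ.r * Real.exp g) (c.d γ.cen z / c.lam) / (c.lam * γ.r)) := by
        rcases le_total (c.lam * γ.r * Real.exp g) (c.d γ.cen z / c.lam) with h | h
        · rw [min_eq_left h, hlog]
          linarith [min_le_left g (c.G γ z)]
        · rw [min_eq_right h]
          have h6 : Real.log (c.d γ.cen z / c.lam / (c.lam * γ.r)) =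
              Real.log (c.d z γ.cen / γ.r) - 2 * Real.log c.lam := by
            rw [hc.d_symm z, Real.log_div hD0.ne' ha.ne', Real.log_div hd0.ne' hl.ne',
              Real.log_div hd0.ne' hr.ne', Real.log_mul hl.ne' hr.ne']
            ring
          have h7 : 0 ≤ Real.log (c.d γ.cen z / c.lam / (c.lam * γ.r)) :=
            Real.log_nonneg ((one_le_div ha).2 hD.le)
          have h8 : c.G γ z ≤ Real.log (c.d z γ.cen / γ.r) := max_le (by linarith) le_rfl
          linarith [min_le_right g (c.G γ z)]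
      linarith [hc.eta_hi]

end Pool.Agent.MP_6c3157_co.PQ
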