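import Pool.Agent.MP_6c3157_co.PQ.SpecB
import Pool.Agent.MP_6c3157_co.PQ.SpecF

/-! Project PQ: the facts on the potential in the form of part B. -/

set_option autoImplicit false

namespace Pool.Agent.MP_6c3157_co.PQ

open Finset Pool.Agent.MP_6c3157_co.PD

theorem phb (h : PHI) : PHB := by
  classical
  intro X _ lab κ Q hκ
  obtain ⟨h1, h2, h3, h4, h5⟩ := h X lab κ Q hκ
  refine ⟨(Nat.cast_nonneg _).trans h2, h1, h2, le_trans (le_of_eq ?_) h5, h3, by linarith⟩
  refine sum_congr rfl fun x _ => ?_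
  rw [card_filter]
  push_cast
  rfl

end Pool.Agent.MP_6c3157_co.PQ
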