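import Pool.Agent.MP_6c3157_co.PQ.BasicB

/-! Project PQ, row PHS: the potential of one pin is monotone in the set. -/

set_option autoImplicit false

namespace Pool.Agent.MP_6c3157_co.PQ

open Finset Pool.Agent.MP_6c3157_co.PD

namespace Phs

open Classical in
theorem by_label {X : Type} [DecidableEq X] (f : X → ℝ) (g : ℕ → ℝ) (A : Finset X) (P : X → Prop)
    (hP : ∀ y ∈ A, ∀ z ∈ A, f y = f z → P y → P z) :
    (∑ y ∈ A, if P y then g (A.filter fun z => f z = f y).card /
      ((A.filter fun z => f z = f y).card : ℝ) else 0) =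
      ∑ l ∈ (A.filter P).image f, g (A.filter fun z => f z = l).card := by
  rw [← sum_filter, sum_comp (fun l => g (A.filter fun z => f z = l).card /
    ((A.filter fun z => f z = l).card : ℝ)) f]
  refine sum_congr rfl fun l hl => ?_
  obtain ⟨y, hy, rfl⟩ := mem_image.1 hl
  obtain ⟨hy1, hy2⟩ := mem_filter.1 hy
  have e : ((A.filter P).filter fun z => f z = f y) = A.filter fun z => f z = f y := by
    ext z
    simp only [mem_filter]
    exact ⟨fun h => ⟨h.1.1, h.2⟩, fun h => ⟨⟨h.1, hP y hy1 z h.1 h.2.symm hy2⟩, h.2⟩⟩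
  have h0 : (0 : ℝ) < (A.filter fun z => f z = f y).card :=
    Nat.cast_pos.2 (card_pos.2 ⟨y, mem_filter.2 ⟨hy1, rfl⟩⟩)
  rw [e, nsmul_eq_mul, mul_div_cancel₀ _ h0.ne']

end Phs

theorem phs (hG : GF) : PHS := by
  classical
  intro X _ lab κ S Y x P hκ hS hP
  obtain ⟨-, h1, h2, -⟩ := hG κ hκ
  have hs : S.erase x ⊆ Y.erase x := erase_subset_erase x hS
  have e1 := Phs.by_label (lab x) (gf κ) (S.erase x) P fun y hy z hz => hP y (hs hy) z (hs hz)
  have e2 := Phs.by_label (lab x) (gf κ) (Y.erase x) P hP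
  unfold fib
  refine e1.trans_le (le_trans ?_ e2.ge)
  refine le_trans (sum_le_sum fun l _ => h2 _ _ (card_le_card (filter_subset_filter _ hs))) ?_
  exact sum_le_sum_of_subset_of_nonneg (image_subset_image (filter_subset_filter _ hs))
    fun l _ _ => (h1 _).1

end Pool.Agent.MP_6c3157_co.PQ
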