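import Pool.Agent.MP_6c3157_co.PQ.BasicB
import Pool.Agent.MP_6c3157_co.PD.Geo
import Pool.Agent.MP_6c3157_co.PD.Lg

/-! Project PQ, row SAG: step A for the potential, summed over the places. -/

set_option autoImplicit false

namespace Pool.Agent.MP_6c3157_co.PQ

open Finset Pool.Agent.MP_6c3157_co.PD

open Classical in
theorem sag (hG : GF) (hP : SAPG) : SAG := by
  intro X PL _ _ s hv Y h T σ κ hx hY hσ hκ
  have hs := hx.good
  choose γ hγ using fun p => geo X (s.c p) Y (hs.good p) hY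
  have pc := hx.pc hγ
  have hT := hx.Tlo
  have hxi := hs.xi_sum
  have hxb : ∑ p, s.m p * (s.c (s.bar p)).xi ≤ 20 := by
    rw [hs.sum_bar fun p => (s.c p).xi]; exact hxi
  have g1 : ∀ x ∈ Y, ∑ p, s.m p * (s.c p).G (γ p) x ≤ 4 * T + 60 := fun x hxY => by
    have h1 := hs.sum_le fun p => (lg X _ hv Y _ (pc p)).1 x hxY
    have h2 := hx.Hle x hxY
    have h3 : ∑ p, s.m p * (4 * (s.c p).H hv x + 3 * (s.c p).xi) =
        4 * s.H hv x + 3 * ∑ p, s.m p * (s.c p).xi := by
      unfold Sys.H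
      rw [mul_sum, mul_sum, ← sum_add_distrib]
      exact sum_congr rfl fun p _ => by ring
    linarith
  have g2 : ∀ x ∈ Y, ∑ p, s.m p * (s.c (s.bar p)).G (γ (s.bar p)) x ≤ 4 * T + 60 :=
    fun x hxY => by rw [hs.sum_bar fun p => (s.c p).G (γ p) x]; exact g1 x hxY
  have l1 : Y.Nonempty → ∑ p, s.m p * (s.c p).Hlow hv (γ p) ≤ 1000 * T := fun hY => by
    have hn : (0 : ℝ) < Y.card := by exact_mod_cast hY.card_pos
    have h1 := hs.sum_le fun p => (lg X _ hv Y _ (pc p)).2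
    have h2 : ∑ p, s.m p * ∑ y ∈ Y, (s.c p).H hv y = ∑ y ∈ Y, s.H hv y := by
      unfold Sys.H
      rw [sum_comm]
      exact sum_congr rfl fun p _ => mul_sum _ _ _
    have h3 : ∑ y ∈ Y, s.H hv y ≤ Y.card * T := by
      have := sum_le_card_nsmul Y _ T hx.Hle
      rwa [nsmul_eq_mul] at this
    have h4 : ∑ p, s.m p * (tau * Y.card * (s.c p).Hlow hv (γ p)) =
        Y.card * (1 / 1000 * ∑ p, s.m p * (s.c p).Hlow hv (γ p)) := by
      rw [mul_sum, mul_sum]
      exact sum_congr rfl fun p _ => by unfold tau; ring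
    have h5 := le_of_mul_le_mul_left (h4 ▸ (h1.trans (h2 ▸ h3))) hn
    linarith
  have l2 : Y.Nonempty → ∑ p, s.m p * (s.c (s.bar p)).Hlow hv (γ (s.bar p)) ≤ 1000 * T :=
    fun hY => by rw [hs.sum_bar fun p => (s.c p).Hlow hv (γ p)]; exact l1 hY
  refine (hs.sum_le fun p => hP X _ _ hv Y _ _ σ κ s.lab (pc p) (pc (s.bar p)) hσ hκ
    (hs.f1 p)).trans ?_
  simp only [mul_add (s.m _) (∑ x ∈ Y, _), sum_add_distrib (s := univ)]
  refine add_le_add ?_ ?_
  · simp only [mul_sum, Phi]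
    rw [sum_comm]
    refine sum_le_sum fun x hxY => ?_
    rw [sum_comm]
    refine sum_le_sum fun y hy => ?_
    have hr := mem_erase.1 hy
    have o1 : ∑ p, s.m p * (s.c p).o hv x y ≤ T := hx.Ole x hxY _ hr.2 hr.1.symm
    have o2 : ∑ p, s.m p * (s.c (s.bar p)).o hv x y ≤ T := by
      rw [hs.sum_bar fun p => (s.c p).o hv x y]; exact o1
    have a1 := g1 x hxY
    have a2 := g2 x hxY
    have a3 := l1 ⟨x, hxY⟩
    have a4 := l2 ⟨x, hxY⟩
    simp only [mul_left_comm (s.m _) (_ / _)]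
    rw [← mul_sum, mul_comm]
    refine mul_le_mul_of_nonneg_right ?_ (div_nonneg ((hG κ hκ).2.1 _).1 (Nat.cast_nonneg _))
    simp only [mul_add, mul_left_comm (s.m _), sum_add_distrib, ← mul_sum]
    linarith
  · simp only [mul_left_comm (s.m _), ← mul_sum]
    have h1 : ∑ p, s.m p * ∑ y ∈ Y, ((s.c (s.bar p)).G (γ (s.bar p)) y + 2 * (s.c p).xi +
        (s.c (s.bar p)).xi) ≤ Y.card * (10 * T) := by
      simp only [mul_sum]
      rw [sum_comm, ← nsmul_eq_mul]
      refine sum_le_card_nsmul _ _ _ fun y hy => ?_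
      have a2 := g2 y hy
      simp only [mul_add, mul_left_comm (s.m _), sum_add_distrib, ← mul_sum]
      linarith
    have h2 : 0 ≤ σ * Y.card := by positivity
    nlinarith [mul_le_mul_of_nonneg_left h1 h2]

end Pool.Agent.MP_6c3157_co.PQ
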