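import Pool.Agent.MP_6c3157_co.PQ.BasicB
import Pool.Agent.MP_6c3157_co.PD.Lta
import Pool.Agent.MP_6c3157_co.PD.San

/-! Project PQ: step A at one place, for the potential. -/

set_option autoImplicit false
set_option linter.unusedSectionVars false

noncomputable section

namespace Pool.Agent.MP_6c3157_co.PQ

open Finset Pool.Agent.MP_6c3157_co.PD

namespace Sapg

variable {X : Type} [DecidableEq X]

theorem w_nonneg (hG : GF) {κ : ℝ} (hκ : 1 ≤ κ) (k : ℕ) : 0 ≤ gf κ k / k :=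
  div_nonneg ((hG κ hκ).2.1 k).1 (Nat.cast_nonneg _)

theorem w_le_one (hG : GF) {κ : ℝ} (hκ : 1 ≤ κ) (k : ℕ) : gf κ k / k ≤ 1 :=
  div_le_one_of_le₀ ((hG κ hκ).2.1 k).2.1 (Nat.cast_nonneg _)

open Classical in
/-- the potential inside a set: either the set is wide for the fibre, or a point pays -/
theorem count (hG : GF) (hS : PHS) (lab : X → X → ℝ) {κ : ℝ} (hκ : 1 ≤ κ) (Y S : Finset X)
    (t : ℝ) (r0 : X → X → ℝ)
    (hr : ∀ x, ∀ y ∈ Y.erase x, ∀ z ∈ Y.erase x, lab x y = lab x z → r0 x y = r0 x z) :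
    Phi lab κ (Y ∩ S) ≤
      ∑ x ∈ Y, ((∑ y ∈ Y.erase x, gf κ (fib lab Y x y).card / (fib lab Y x y).card *
          if x ∈ S ∧ r0 x y ≤ t then (1 : ℝ) else 0) +
        ∑ y ∈ Y.erase x, if x ∈ S ∧ y ∈ S ∧ t < r0 x y then (1 : ℝ) else 0) := by
  unfold Phi
  refine le_trans (sum_le_sum fun x hx => ?_)
    (sum_le_sum_of_subset_of_nonneg (inter_subset_left (s₂ := S)) fun x _ _ => ?_)
  · have hxS := (mem_inter.1 hx).2
    have h1 := hS X lab κ (Y ∩ S) Y x (fun y => r0 x y ≤ t) hκ inter_subset_left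
      fun y hy z hz h hp => by rw [← hr x y hy z hz h]; exact hp
    have h2 : (∑ y ∈ (Y ∩ S).erase x, if t < r0 x y then (1 : ℝ) else 0) ≤
        ∑ y ∈ Y.erase x, if x ∈ S ∧ y ∈ S ∧ t < r0 x y then (1 : ℝ) else 0 := by
      refine le_trans (sum_le_sum fun y hy => ?_) (sum_le_sum_of_subset_of_nonneg
        (erase_subset_erase x (inter_subset_left (s₂ := S))) fun y _ _ => ?_)
      · have hyS : y ∈ S := (mem_inter.1 (mem_erase.1 hy).2).2
        by_cases h : t < r0 x y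
        · rw [if_pos h, if_pos ⟨hxS, hyS, h⟩]
        · rw [if_neg h, if_neg fun h' => h h'.2.2]
      · split_ifs <;> norm_num
    refine le_trans ?_ (add_le_add (h1.trans (le_of_eq (sum_congr rfl fun y _ => ?_))) h2)
    · rw [← sum_add_distrib]
      refine sum_le_sum fun y _ => ?_
      by_cases h : r0 x y ≤ t
      · rw [if_pos h, if_neg (not_lt.2 h), add_zero]
      · rw [if_neg h, if_pos (not_le.1 h), zero_add]
        exact w_le_one hG hκ _
    · by_cases h : r0 x y ≤ t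
      · rw [if_pos h, if_pos ⟨hxS, h⟩, mul_one]
      · rw [if_neg h, if_neg fun h' => h h'.2, mul_zero]
  · refine add_nonneg (sum_nonneg fun _ _ => mul_nonneg (w_nonneg hG hκ _) ?_)
      (sum_nonneg fun _ _ => ?_) <;> split_ifs <;> norm_num

open Classical in
theorem ite_le {c : Cells X} (hc : c.Good) (φ ψ χ : ℕ × Finset X → Prop) [DecidablePred ψ]
    (h : ∀ i, φ i → ψ i → χ i) :
    c.WS φ (fun i => if ψ i then (1 : ℝ) else 0) ≤ c.W χ := by
  unfold Cells.WS Cells.W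
  refine sum_le_sum fun i hi => ?_
  have := hc.w_lo i hi
  by_cases h1 : φ i
  · by_cases h2 : ψ i
    · simp [h1, h2, h i h1 h2]
    · simp only [h1, h2, if_true, if_false, mul_zero]
      split_ifs
      · exact this
      · exact le_rfl
  · simp only [h1, if_false]
    split_ifs
    · exact this
    · exact le_rfl

end Sapg

theorem sapg (hG : GF) (hS : PHS) : SAPG := by
  classical
  intro X _ c c' hv Y γ γ' σ κ lab hp hp' hσ hκ hf
  have hT := lta
  have hc := hp.good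
  have hc' := hp'.good
  have hr := hp.geo.r_pos hc
  have hr' := hp'.geo.r_pos hc'
  set r0 : X → X → ℝ := fun x y => γ.r * Real.exp (-(max 0
    (Real.log (γ.r * γ'.r / (c.d x y * c'.d x y))) + c'.G γ' x)) with hr0
  have hinv : ∀ x, ∀ y ∈ Y.erase x, ∀ z ∈ Y.erase x, lab x y = lab x z → r0 x y = r0 x z := by
    intro x y hy z hz h
    simp only [hr0]
    rw [hf x y z (mem_erase.1 hy).1 (mem_erase.1 hz).1 h]
  refine le_trans (Cells.WS_le hc fun i _ _ =>
    Sapg.count hG hS lab hκ Y i.2 (c.ρ i) r0 hinv) ?_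
  rw [Cells.WS_sum]
  simp only [Cells.WS_add, Cells.WS_sum, Cells.WS_mul]
  rw [sum_add_distrib]
  refine add_le_add (sum_le_sum fun x hx => sum_le_sum fun z hz =>
    mul_le_mul_of_nonneg_left ?_ (Sapg.w_nonneg hG hκ _)) ?_
  · have hzx : x ≠ z := (mem_erase.1 hz).1.symm
    have hzY : z ∈ Y := (mem_erase.1 hz).2
    have e1 := Sapg.ite_le hc (c.small hv Y σ) (fun i => x ∈ i.2 ∧ r0 x z ≤ c.ρ i)
      (fun i => ¬ hv i ∧ x ∈ i.2 ∧ r0 x z ≤ c.ρ i) fun i h1 h2 => ⟨h1.1, h2⟩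
    have hpos : 0 < r0 x z := mul_pos hr (Real.exp_pos _)
    have e2 := (hT X c hv Y γ hp).1 x hx (r0 x z) hpos
    have e3 : Real.log (γ.r / r0 x z) =
        max 0 (Real.log (γ.r * γ'.r / (c.d x z * c'.d x z))) + c'.G γ' x := by
      simp only [hr0]
      rw [div_mul_cancel_left₀ hr.ne', ← Real.exp_neg, neg_neg, Real.log_exp]
    have e4 := (hT X c hv Y γ hp).2 x hx z hzY hzx
    have e5 := (hT X c' hv Y γ' hp').2 x hx z hzY hzx
    have hd := hc.d_pos hzx
    have hd' := hc'.d_pos hzx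
    have e6 : Real.log (γ.r * γ'.r / (c.d x z * c'.d x z)) =
        Real.log (γ.r / c.d x z) + Real.log (γ'.r / c'.d x z) := by
      rw [← Real.log_mul (div_pos hr hd).ne' (div_pos hr' hd').ne', div_mul_div_comm]
    have n1 : 0 ≤ c.o hv x z := Cells.o_nonneg hc x z
    have n2 : 0 ≤ c'.o hv x z := Cells.o_nonneg hc' x z
    have n3 : 0 ≤ c.Hlow hv γ := Cells.Hlow_nonneg hc γ
    have n4 : 0 ≤ c'.Hlow hv γ' := Cells.Hlow_nonneg hc' γ'
    have n5 := hc.xi_nonneg
    have n6 := hc'.xi_nonneg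
    have n7 : 0 ≤ c.G γ x := Cells.G_nonneg γ x
    have n8 : 0 ≤ c'.G γ' x := Cells.G_nonneg γ' x
    have e7 : max 0 (Real.log (γ.r * γ'.r / (c.d x z * c'.d x z))) ≤
        4 * (c.o hv x z + c.Hlow hv γ) + 3 * c.xi +
          (4 * (c'.o hv x z + c'.Hlow hv γ') + 3 * c'.xi) :=
      max_le (by positivity) (by rw [e6]; exact add_le_add e4 e5)
    have e8 : max 0 (Real.log (γ.r / r0 x z) + c.G γ x) ≤
        4 * (c.o hv x z + c.Hlow hv γ) + 3 * c.xi +
          (4 * (c'.o hv x z + c'.Hlow hv γ') + 3 * c'.xi) + c'.G γ' x + c.G γ x :=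
      max_le (by positivity) (by rw [e3]; linarith)
    refine e1.trans ?_
    linarith
  · refine le_trans (sum_le_sum fun x _ => sum_le_sum fun y _ =>
      Sapg.ite_le hc (c.small hv Y σ) (fun i => x ∈ i.2 ∧ y ∈ i.2 ∧ c.ρ i < r0 x y)
        (fun i => c.small hv Y σ i ∧ x ∈ i.2 ∧ y ∈ i.2 ∧ c.ρ i < r0 x y)
        fun i h1 h2 => ⟨h1, h2⟩) ?_
    rw [sum_erase_comm, mul_sum]
    exact sum_le_sum fun y hy => san X c c' hv Y γ γ' σ hp hp' hσ y hy

end Pool.Agent.MP_6c3157_co.PQ
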