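import Pool.Agent.MP_6c3157_co.PQ.BasicB

/-! Project PQ: the height is large and the huge levels are short. -/

set_option autoImplicit false
set_option linter.unusedSectionVars false

noncomputable section

namespace Pool.Agent.MP_6c3157_co.PQ

open Finset Pool.Agent.MP_6c3157_co.PD

namespace Tbig

theorem lin {PL : Type} [Fintype PL] (m f g : PL → ℝ) (a b : ℝ) :
    ∑ p, m p * (a * f p + b * g p) = a * (∑ p, m p * f p) + b * ∑ p, m p * g p := by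
  rw [mul_sum, mul_sum, ← sum_add_distrib]
  exact sum_congr rfl fun p _ => by ring

theorem big {ε T : ℝ} (h0 : 0 < ε) (h1 : ε ≤ 1 / 10 ^ 20) (hT : 0 ≤ T)
    (h : 1 / 80000 ≤ 10 ^ 4 * ε ^ 6 * T + 20 * ε ^ 2) : 1 ≤ ε ^ 5 * T := by
  have e2 : ε ^ 2 ≤ 1 / 10 ^ 8 := by nlinarith
  have hu : 0 ≤ ε ^ 5 * T := by positivity
  have e3 : ε ^ 6 * T = ε * (ε ^ 5 * T) := by ring
  have e4 : ε * (ε ^ 5 * T) ≤ 1 / 10 ^ 20 * (ε ^ 5 * T) := mul_le_mul_of_nonneg_right h1 hu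
  rw [mul_assoc, e3] at h
  linarith

theorem big2 {ε T : ℝ} (h0 : 0 < ε) (h1 : ε ≤ 1 / 10 ^ 20) (hT : 0 ≤ T) (h : 1 ≤ ε ^ 5 * T) :
    10 ^ 6 ≤ ε ^ 2 * T := by
  have e2 : ε ^ 3 ≤ (1 / 100) ^ 3 := pow_le_pow_left₀ h0.le (h1.trans (by norm_num)) 3
  have hu : 0 ≤ ε ^ 2 * T := by positivity
  have e3 : ε ^ 5 * T = ε ^ 3 * (ε ^ 2 * T) := by ring
  have e4 := mul_le_mul_of_nonneg_right e2 hu
  rw [e3] at h
  linarith

end Tbig

theorem tbig (hA : ART) (hL : LHL) (hT : LTT) : TBIG := by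
  intro X PL _ _ s hv Y h T η ε γ hx h0 h1 hY hU
  have hs := hx.ctx.good
  have hT0 : 0 ≤ T := le_trans (by norm_num) hx.ctx.Tlo
  have hN : (0 : ℝ) < Y.card := by exact_mod_cast (by omega : 0 < Y.card)
  have hN2 : (0 : ℝ) < (Y.card : ℝ) ^ 2 := by positivity
  have hxi := hs.xi_sum
  unfold Sys.U at hU
  have hUN : (∑ p, s.m p * (s.c p).ulow hv Y (ε ^ 2 / 2) (γ p)) / (Y.card : ℝ) ^ 2 ≤
      10 ^ 4 * ε ^ 6 * T := by rwa [div_le_iff₀ hN2]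
  have a1 : 1 ≤ ε ^ 5 * T := by
    refine Tbig.big h0 h1 hT0 ?_
    have e1 : ∑ p, s.m p * (s.c p).g ≤ ∑ p, s.m p * (2 / (Y.card : ℝ) ^ 2 *
        (s.c p).ulow hv Y (ε ^ 2 / 2) (γ p) + 2 * ε ^ 2 * (s.c p).xi) := by
      refine hs.sum_le fun p => ?_
      have e := hA X (s.c p) hv Y (γ p) (ε ^ 2) (hx.pt p)
      refine le_of_mul_le_mul_right ?_ hN2
      have e' : (2 / (Y.card : ℝ) ^ 2 * (s.c p).ulow hv Y (ε ^ 2 / 2) (γ p) +
          2 * ε ^ 2 * (s.c p).xi) * (Y.card : ℝ) ^ 2 = 2 * ((s.c p).ulow hv Y (ε ^ 2 / 2) (γ p) +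
          (s.c p).xi * ε ^ 2 * (Y.card : ℝ) ^ 2) := by field_simp
      rw [e']
      linarith
    rw [Tbig.lin, div_mul_eq_mul_div, mul_div_assoc] at e1
    have e2 := hs.g_sum
    have e3 := mul_le_mul_of_nonneg_left hxi (by positivity : (0 : ℝ) ≤ 2 * ε ^ 2)
    linarith
  have a2 := Tbig.big2 h0 h1 hT0 a1
  have b2 : ε ^ 2 ≤ (1 / 100) ^ 2 := pow_le_pow_left₀ h0.le (h1.trans (by norm_num)) 2
  have b4 : ε ^ 4 ≤ (1 / 100) ^ 4 := pow_le_pow_left₀ h0.le (h1.trans (by norm_num)) 4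
  have hu : 0 ≤ ε ^ 2 * T := by positivity
  have a3 : ∑ p, s.m p * hl (s.c p) hv (γ p) ≤ ε ^ 2 * T := by
    have e1 : ∑ p, s.m p * hl (s.c p) hv (γ p) ≤ ∑ p, s.m p * (16 / (Y.card : ℝ) ^ 2 *
        (s.c p).ulow hv Y (ε ^ 2 / 2) (γ p) + 28 * (s.c p).xi) := by
      refine hs.sum_le fun p => ?_
      rw [div_mul_eq_mul_div]
      exact (hL X (s.c p) hv Y (γ p) (ε ^ 2) (hx.pt p)).2.1
    rw [Tbig.lin, div_mul_eq_mul_div, mul_div_assoc] at e1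
    have e2 : ε ^ 6 * T = ε ^ 4 * (ε ^ 2 * T) := by ring
    have e3 := mul_le_mul_of_nonneg_right b4 hu
    rw [mul_assoc, e2] at hUN
    linarith
  refine ⟨a1, ?_, a3, ?_⟩
  · have e1 : ∑ p, s.m p * lm (s.c p) hv Y (γ p) (ε ^ 2) = ∑ p, s.m p *
        (16 / (ε ^ 4 * (Y.card : ℝ) ^ 2) * (s.c p).ulow hv Y (ε ^ 2 / 2) (γ p) +
          8 * (s.c p).xi) := by
      refine sum_congr rfl fun p _ => ?_
      unfold lm
      field_simp
    rw [e1, Tbig.lin]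
    have e2 : 16 / (ε ^ 4 * (Y.card : ℝ) ^ 2) *
        (∑ p, s.m p * (s.c p).ulow hv Y (ε ^ 2 / 2) (γ p)) ≤ 160000 * (ε ^ 2 * T) := by
      refine (mul_le_mul_of_nonneg_left hU (by positivity)).trans (le_of_eq ?_)
      field_simp
      ring
    linarith
  · obtain ⟨x, hxY, y, hyY, hxy⟩ := one_lt_card.1 (by omega : 1 < Y.card)
    have e1 : ∑ p, s.m p * Real.log (γ p).r ≤ ∑ p, s.m p *
        (1 * (4 * (s.c p).o hv x y + 4 * hl (s.c p) hv (γ p)) +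
          1 * (3 * (s.c p).xi + 1 * Real.log ((s.c p).d x y))) := by
      refine hs.sum_le fun p => ?_
      have hc := hs.good p
      have hr := (hx.geo p).r_pos hc
      have e := (hT X (s.c p) hv Y (γ p) (ε ^ 2) (hx.pt p)).2 x hxY y hyY hxy
      rw [Real.log_div hr.ne' (hc.d_pos hxy).ne'] at e
      have e' : (s.c p).Hlow hv (γ p) ≤ hl (s.c p) hv (γ p) :=
        Cells.W_mono hc fun i _ hi => ⟨hi.1, hi.2.trans_le (div_le_self hr.le hc.lam_lo)⟩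
      linarith
    rw [Tbig.lin, Tbig.lin, Tbig.lin, hs.pf x y hxy] at e1
    have e2 := hx.ctx.Ole x hxY y hyY hxy
    unfold Sys.O at e2
    have e3 := mul_le_mul_of_nonneg_right b2 hT0
    linarith

end Pool.Agent.MP_6c3157_co.PQ
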