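import Pool.Agent.MP_6c3157_co.PQ.BasicB
import Pool.Agent.MP_6c3157_co.PD.Geo
import Pool.Agent.MP_6c3157_co.PD.Lg
import Pool.Agent.MP_6c3157_co.PD.Lta
import Pool.Agent.MP_6c3157_co.PD.Dg
import Pool.Agent.MP_6c3157_co.PD.Er
import Pool.Agent.MP_6c3157_co.PD.Tu
import Pool.Agent.MP_6c3157_co.PD.Ubp
import Pool.Agent.MP_6c3157_co.PD.Wu
import Pool.Agent.MP_6c3157_co.PD.Ar
import Pool.Agent.MP_6c3157_co.PD.Dq
import Pool.Agent.MP_6c3157_co.PD.Fib
import Pool.Agent.MP_6c3157_co.PD.Sel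
import Pool.Agent.MP_6c3157_co.PD.Bone
import Pool.Agent.MP_6c3157_co.PD.Bones
import Pool.Agent.MP_6c3157_co.PD.Ers
import Pool.Agent.MP_6c3157_co.PD.Sbone
import Pool.Agent.MP_6c3157_co.PD.Sbtwo

/-! Project PQ, rows TH, THL, CTX: bounds for the small overlap; large subsets. -/

set_option autoImplicit false
set_option linter.unusedSectionVars false

noncomputable section

namespace Pool.Agent.MP_6c3157_co.PQ

open Finset Pool.Agent.MP_6c3157_co.PD

theorem th (hA : SAG) (hP : PHB) : TH := by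
  intro X PL _ _ s hv Y h T σ κ φ hx hY hσ hκ hr
  have hs := hx.good
  refine le_trans ?_ (hA X PL s hv Y h T σ κ hx hY hσ hκ)
  rw [sel_th, mul_sum]
  refine sum_le_sum fun p _ => ?_
  rw [mul_left_comm, ← Cells.WS_mul]
  refine mul_le_mul_of_nonneg_left (Cells.WS_le (hs.good p) fun i hi hm => ?_) (hs.m_lo p)
  by_cases h2 : 2 ≤ (Y ∩ i.2).card
  · obtain ⟨y, hy⟩ := card_pos.1 (show 0 < (Y ∩ i.2).card by omega)
    exact hr _ inter_subset_left h2
      (small_card (hs.good p) hi hm (mem_inter.1 hy).1 (mem_inter.1 hy).2)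
  · have := (hP X s.lab κ (Y ∩ i.2) hκ).1
    rcases (show (Y ∩ i.2).card = 0 ∨ (Y ∩ i.2).card = 1 by omega) with e | e <;> simpa [e]

theorem thl : THL := by
  intro X PL _ _ s hv Y h T σ hx hY h1 h2 h3
  choose γ hγ using fun p => geo X (s.c p) Y (hx.good.good p) (by omega)
  refine le_of_not_ge fun c => sbtwo (wu lg lta) ar X PL s hv Y h T σ γ hx hγ hY c ?_
  exact sbone lg (ubp tu) (bones (dg qr) (bone dq) fibs) (ers er fibs) X PL s hv Y h T σ γ hx hγ
    h1 h2 h3 c

theorem ctxs : CTX := by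
  intro X PL _ _ s Q Y Y' h T hx hQ hY hc
  refine ⟨hx.good, fun i hi => ?_, fun i hi => ?_, fun x a y b => hx.idn x (hY a) y (hY b),
    fun x a => hx.hlo x (hY a), fun x a => hx.Hle x (hY a),
    fun x a y b => hx.Ole x (hY a) y (hY b), hx.Tlo, fun x a y b => hx.Thi x (hY a) y (hY b)⟩
  · have h1 := card_sdiff_add_card_inter Q i.2
    have h2 := card_sdiff_add_card_inter Y' i.2
    have h3 := card_le_card (sdiff_subset_sdiff (hY.trans hQ) (subset_refl i.2))
    unfold heavy at hi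
    omega
  · have h3 := card_le_card (inter_subset_inter_right (u := i.2) (hY.trans hQ))
    unfold heavy at hi
    omega

end Pool.Agent.MP_6c3157_co.PQ
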