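import Pool.Agent.MP_6c3157_co.PQ.BasicB
import Pool.Agent.MP_6c3157_co.PD.Bones
import Pool.Agent.MP_6c3157_co.PD.Bone
import Pool.Agent.MP_6c3157_co.PD.Dg
import Pool.Agent.MP_6c3157_co.PD.Fib
import Pool.Agent.MP_6c3157_co.PD.Dq
import Pool.Agent.MP_6c3157_co.PD.Geo

/-! Project PQ: few atypical partners. -/

set_option autoImplicit false

noncomputable section

namespace Pool.Agent.MP_6c3157_co.PQ

open Finset Pool.Agent.MP_6c3157_co.PD

namespace Tya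

theorem mean {X PL : Type} [DecidableEq X] [Fintype PL] (s : Sys X PL)
    (hv : ℕ × Finset X → Prop) (Y C : Finset X) (σ : ℝ) (y : X) :
    ∑ z ∈ C, s.Olg hv Y σ y z = C.card * ∑ p, s.m p *
      (s.c p).WS (fun i => ¬ (s.c p).small hv Y σ i ∧ inC hv i y) (shr hv C) := by
  unfold Sys.Olg
  rw [sum_comm, mul_sum]
  refine sum_congr rfl fun p _ => ?_
  rw [← mul_sum, mul_left_comm, ← sum_W_shr]
  congr 1
  exact sum_congr rfl fun z _ => Cells.W_congr fun _ _ => and_assoc.symm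

end Tya

theorem tya (hL : CAL) : TYA := by
  intro X PL _ _ s hv Y Y₁ h T σ₀ σ e ns k hx hY hE hns hσ hσ1 h2 hk he y hy
  classical
  have hs := hx.good
  by_contra hn
  rw [not_lt] at hn
  set C := Atp s hv Y Y₁ σ k y with hC
  have hC1 : C ⊆ Y₁ := filter_subset _ _
  have hC0 : (0 : ℝ) < C.card := hns.trans_le hn
  have hne : C.Nonempty := card_pos.1 (by exact_mod_cast hC0)
  have hY0 : (0 : ℝ) < Y.card := by exact_mod_cast card_pos.2 ⟨y, hy⟩
  have hσ0 : 0 < σ := (mul_pos_iff_of_pos_right hY0).1 (by linarith)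
  have hM : 0 ≤ 7 * T / σ := div_nonneg (by linarith [hx.Tlo]) hσ0.le
  have h3 : s.Disc hv Y σ C ≤ e := by
    linarith [hE C hC1 hn, Disc_mono (hv := hv) (Y := Y) (C := C) hs hσ,
      Sm_nonneg (hv := hv) (Y := Y) (σ := σ₀) hs C]
  have h4 := (bones (dg qr) (bone dq) fibs X PL s hv Y h T σ hx h2 hσ1).1 y hy
  have h5 := hL X PL s hv Y C σ (7 * T / σ)
    (fun p i => ¬ (s.c p).small hv Y σ i ∧ inC hv i y) hs (hC1.trans hY) hne
    (fun _ _ _ hi => hi.1) (le_trans (le_of_eq (sum_congr rfl fun p _ => congrArg _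
      (Cells.W_congr fun _ _ => ⟨fun h => ⟨h.1, h.2, h.2⟩, fun h => ⟨h.1, h.2.1⟩⟩))) h4)
  have h6 : Real.sqrt (7 * T / σ * s.Disc hv Y σ C) ≤ k :=
    Real.sqrt_le_iff.2 ⟨hk, (mul_le_mul_of_nonneg_left h3 hM).trans he⟩
  have h7 : psi s hv Y σ y = ∑ p, s.m p *
      (s.c p).WS (fun i => ¬ (s.c p).small hv Y σ i ∧ inC hv i y) (shr hv Y) := by
    unfold psi
    rw [Tya.mean, mul_div_cancel_left₀ _ hY0.ne']
  have h8 : ∑ _z ∈ C, (psi s hv Y σ y + k) < ∑ z ∈ C, s.Olg hv Y σ y z :=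
    sum_lt_sum_of_nonempty hne fun z hz => (mem_filter.1 hz).2
  rw [sum_const, nsmul_eq_mul, Tya.mean] at h8
  have h9 := lt_of_mul_lt_mul_left h8 hC0.le
  linarith

end Pool.Agent.MP_6c3157_co.PQ
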