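import Pool.Agent.MP_6c3157_co.PQ.BasicB
import Pool.Agent.MP_6c3157_co.PD.Dq
import Pool.Agent.MP_6c3157_co.PD.Geo
import Pool.Agent.MP_6c3157_co.PD.Dg
import Pool.Agent.MP_6c3157_co.PD.Fib
import Pool.Agent.MP_6c3157_co.PD.Bone
import Pool.Agent.MP_6c3157_co.PD.Bones

/-! Project PQ: discrepancy of a set with few atypical pairs. -/

set_option autoImplicit false
set_option linter.unusedSectionVars false

noncomputable section

namespace Pool.Agent.MP_6c3157_co.PQ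

open Finset Pool.Agent.MP_6c3157_co.PD

namespace Tyd

theorem form {X : Type} [DecidableEq X] (Y C : Finset X) (hC : C ⊆ Y) (L : X → X → ℝ)
    (hL : ∀ y z, L y z = L z y) :
    ∑ y ∈ Y, ∑ z ∈ Y, ((if y ∈ C then 1 / (C.card : ℝ) else 0) - 1 / Y.card) *
        ((if z ∈ C then 1 / (C.card : ℝ) else 0) - 1 / Y.card) * L y z =
      (∑ y ∈ C, ∑ z ∈ C, L y z) / (C.card : ℝ) ^ 2 -
        2 * ((∑ y ∈ C, (∑ z ∈ Y, L y z) / Y.card) / C.card) +
        (∑ y ∈ Y, (∑ z ∈ Y, L y z) / Y.card) / Y.card := by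
  have hsum : ∀ f : X → ℝ, ∑ y ∈ Y, (if y ∈ C then 1 / (C.card : ℝ) else 0) * f y =
      (∑ y ∈ C, f y) / C.card := by
    intro f
    simp only [ite_mul, zero_mul]
    rw [sum_ite_mem, inter_eq_right.2 hC, ← mul_sum]
    ring
  set c : X → ℝ := fun y => if y ∈ C then 1 / (C.card : ℝ) else 0 with hc
  set u : ℝ := 1 / Y.card with hu
  have e1 : ∀ y z, (c y - u) * (c z - u) * L y z =
      c y * (c z * L y z) - c y * (u * L y z) - c z * (u * L z y) + u * (u * L y z) := by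
    intro y z
    rw [hL z y]; ring
  have e2 : ∑ y ∈ Y, ∑ z ∈ Y, c y * (c z * L y z) =
      (∑ y ∈ C, ∑ z ∈ C, L y z) / (C.card : ℝ) ^ 2 := by
    simp only [← mul_sum]
    rw [hsum, sum_congr rfl fun y _ => hsum (L y), ← sum_div, div_div, sq]
  have e3 : ∑ y ∈ Y, ∑ z ∈ Y, c y * (u * L y z) =
      (∑ y ∈ C, (∑ z ∈ Y, L y z) / Y.card) / C.card := by
    simp only [← mul_sum]
    rw [hsum]
    congr 1
    exact sum_congr rfl fun y _ => by rw [hu]; ring
  have e4 : ∑ y ∈ Y, ∑ z ∈ Y, c z * (u * L z y) =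
      (∑ y ∈ C, (∑ z ∈ Y, L y z) / Y.card) / C.card := by rw [sum_comm, e3]
  have e5 : ∑ y ∈ Y, ∑ z ∈ Y, u * (u * L y z) =
      (∑ y ∈ Y, (∑ z ∈ Y, L y z) / Y.card) / Y.card := by
    simp only [← mul_sum]
    rw [← sum_div, hu]
    ring
  show ∑ y ∈ Y, ∑ z ∈ Y, (c y - u) * (c z - u) * L y z = _
  simp only [e1, sum_add_distrib, sum_sub_distrib]
  rw [e2, e3, e4, e5]
  ring

end Tyd

theorem tyd : TYD := by
  classical
  intro X PL _ _ s hv Y Y₁ C h T σ k k' hx hY hσ h2 hk hC hne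
  have hs := hx.good
  have hT : 0 < T := by linarith [hx.Tlo]
  have hCY : C ⊆ Y := fun z hz => hY (mem_sdiff.1 (hC hz)).1
  have hc : (0 : ℝ) < C.card := by exact_mod_cast hne.card_pos
  have hdiag := (bones (dg qr) (bone dq) fibs X PL s hv Y h T σ hx h2 hσ).1
  have hD : s.Disc hv Y σ C = ∑ y ∈ Y, ∑ z ∈ Y,
      ((if y ∈ C then 1 / (C.card : ℝ) else 0) - 1 / Y.card) *
        ((if z ∈ C then 1 / (C.card : ℝ) else 0) - 1 / Y.card) * s.Olg hv Y σ y z := by
    unfold Sys.Disc Sys.Olg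
    simp only [dq X _ hv Y C σ hCY hne, mul_sum]
    rw [sum_comm]
    refine sum_congr rfl fun y _ => ?_
    rw [sum_comm]
    exact sum_congr rfl fun z _ => sum_congr rfl fun p _ => by ring
  rw [hD, Tyd.form Y C hCY (s.Olg hv Y σ) fun y z => sum_congr rfl fun p _ => by
    rw [Cells.olg_symm]]
  change _ - 2 * ((∑ y ∈ C, psi s hv Y σ y) / C.card) + (∑ y ∈ Y, psi s hv Y σ y) / Y.card ≤ _
  set ψ := psi s hv Y σ with hψ
  set At := Atp s hv Y Y₁ σ k with hAt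
  have ψ0 : ∀ y, 0 ≤ ψ y := fun y => psi_nonneg hs y
  have row : ∀ y ∈ C, ∑ z ∈ C, s.Olg hv Y σ y z ≤
      7 * T / σ + C.card * (ψ y + k) + T * ((C.erase y ∩ At y).card : ℝ) := by
    intro y hy
    rw [← add_sum_erase C _ hy, add_assoc]
    refine add_le_add (hdiag y (hCY hy)) ?_
    have h1 : ∀ z ∈ C.erase y, s.Olg hv Y σ y z ≤ (ψ y + k) + T * if z ∈ At y then 1 else 0 := by
      intro z hz
      obtain ⟨hzy, hzC⟩ := mem_erase.1 hz
      split_ifs with ha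
      · have := (Olg_le_O (hv := hv) (Y := Y) (σ := σ) hs y z).trans
          (hx.Ole y (hCY hy) z (hCY hzC) hzy.symm)
        linarith [ψ0 y]
      · have : ¬ (psi s hv Y σ y + k < s.Olg hv Y σ y z) := fun hlt =>
          ha (mem_filter.2 ⟨(mem_sdiff.1 (hC hzC)).1, hlt⟩)
        linarith [not_lt.1 this]
    refine (sum_le_sum h1).trans ?_
    rw [sum_add_distrib, sum_const, nsmul_eq_mul, ← mul_sum, sum_boole, filter_mem_eq_inter]
    refine add_le_add (mul_le_mul_of_nonneg_right ?_ (by linarith [ψ0 y])) le_rfl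
    exact_mod_cast card_erase_le
  have low : (∑ y ∈ Y, ψ y) / Y.card - k' ≤ (∑ y ∈ C, ψ y) / C.card := by
    rw [le_div_iff₀ hc, mul_comm, ← nsmul_eq_mul]
    refine card_nsmul_le_sum C _ _ fun y hy => ?_
    obtain ⟨h3, h4⟩ := mem_sdiff.1 (hC hy)
    exact not_lt.1 fun hlt => h4 (mem_filter.2 ⟨h3, hlt⟩)
  have tot := sum_le_sum row
  rw [sum_add_distrib, sum_add_distrib, sum_const, nsmul_eq_mul, ← mul_sum, ← mul_sum,
    sum_add_distrib, sum_const, nsmul_eq_mul] at tot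
  have fin : (∑ y ∈ C, ∑ z ∈ C, s.Olg hv Y σ y z) / (C.card : ℝ) ^ 2 ≤
      7 * T / (σ * C.card) + ((∑ y ∈ C, ψ y) / C.card + k) +
        T * ((∑ z ∈ C, ((C.erase z ∩ At z).card : ℝ)) / (C.card : ℝ) ^ 2) := by
    refine (div_le_div_of_nonneg_right tot (sq_nonneg _)).trans (le_of_eq ?_)
    have hσ0 : σ ≠ 0 := by
      rintro rfl
      norm_num at h2
    field_simp
  linarith

end Pool.Agent.MP_6c3157_co.PQ
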