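import Pool.Agent.MP_6c3157_co.PQ.BasicB
import Pool.Agent.MP_6c3157_co.PD.Bones
import Pool.Agent.MP_6c3157_co.PD.Bone
import Pool.Agent.MP_6c3157_co.PD.Dg
import Pool.Agent.MP_6c3157_co.PD.Dq
import Pool.Agent.MP_6c3157_co.PD.Fib
import Pool.Agent.MP_6c3157_co.PD.Geo

/-! Project PQ, row TYL: few points have a low mean overlap. -/

set_option autoImplicit false
set_option linter.unusedSectionVars false

noncomputable section

namespace Pool.Agent.MP_6c3157_co.PQ

open Finset Pool.Agent.MP_6c3157_co.PD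

namespace Tyl

variable {X PL : Type} [DecidableEq X] {hv : ℕ × Finset X → Prop} {Y : Finset X} {σ : ℝ}

open Classical in
theorem card_shr (D : Finset X) (i : ℕ × Finset X) :
    (D.card : ℝ) * shr hv D i = ∑ y ∈ D, if inC hv i y then (1 : ℝ) else 0 := by
  unfold shr
  rcases D.eq_empty_or_nonempty with rfl | h
  · simp
  · have h1 : (0 : ℝ) < D.card := by exact_mod_cast h.card_pos
    rw [mul_div_cancel₀ _ h1.ne', card_filter]
    push_cast
    rfl

theorem pair (c : Cells X) (D E : Finset X) : ∑ y ∈ D, ∑ z ∈ E, c.olg hv Y σ y z =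
    D.card * E.card * c.WS (fun i => ¬ c.small hv Y σ i) fun i => shr hv D i * shr hv E i := by
  classical
  unfold Cells.olg
  simp only [← Cells.WS_ite, ← Cells.WS_sum, ← Cells.WS_mul]
  refine Cells.WS_congr (fun _ _ => Iff.rfl) fun i _ _ => ?_
  rw [mul_mul_mul_comm, card_shr, card_shr, sum_mul_sum]
  refine sum_congr rfl fun y _ => sum_congr rfl fun z _ => ?_
  by_cases h1 : inC hv i y <;> by_cases h2 : inC hv i z <;> simp [h1, h2]

variable [Fintype PL]

/-- the mean of the product of the shares -/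
def A (s : Sys X PL) (hv : ℕ × Finset X → Prop) (Y : Finset X) (σ : ℝ) (D : Finset X) : ℝ :=
  ∑ p, s.m p * (s.c p).WS (fun i => ¬ (s.c p).small hv Y σ i) fun i => shr hv D i * shr hv Y i

theorem sum_Olg (s : Sys X PL) (D : Finset X) :
    ∑ y ∈ D, ∑ z ∈ Y, s.Olg hv Y σ y z = D.card * Y.card * A s hv Y σ D := by
  unfold Sys.Olg A
  rw [mul_sum]
  simp only [sum_comm (s := Y) (t := univ)]
  rw [sum_comm]
  refine sum_congr rfl fun p _ => ?_
  simp only [← mul_sum]
  rw [pair]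
  ring

theorem sum_psi (s : Sys X PL) (hY : (0 : ℝ) < Y.card) (D : Finset X) :
    ∑ y ∈ D, psi s hv Y σ y = D.card * A s hv Y σ D := by
  unfold psi
  rw [← sum_div, sum_Olg]
  field_simp

theorem amgm {s : Sys X PL} (hs : s.Good) {C : Finset X} (hC : C.Nonempty) (hY : Y.Nonempty)
    (T d : ℝ) : 4 * T * d * A s hv Y σ Y ≤
      4 * T * d * A s hv Y σ C + 4 * T ^ 2 * s.Disc hv Y σ C + d ^ 2 * A s hv Y σ Y := by
  unfold A Sys.Disc Cells.disc
  simp only [mul_sum, ← sum_add_distrib, mul_left_comm _ (s.m _), ← mul_add]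
  refine hs.sum_le fun p => ?_
  simp only [← Cells.WS_mul, ← Cells.WS_add]
  refine Cells.WS_le (hs.good p) fun i _ _ => ?_
  rw [← shr_sq (hv := hv) hC hY]
  nlinarith [sq_nonneg (2 * T * (shr hv C i - shr hv Y i) + d * shr hv Y i)]

end Tyl

theorem tyl : TYL := by
  classical
  intro X PL _ _ s hv Y Y₁ h T σ₀ σ e ns k hx hY₁ hE hns h0 h1 h7 hk hT
  by_contra hc
  rw [not_lt] at hc
  set C := Low s hv Y Y₁ σ k with hC
  have hs := hx.good
  have hT0 := hx.Tlo
  have c0 : (0 : ℝ) < C.card := hns.trans_le hc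
  have cne : C.Nonempty := card_pos.1 (by exact_mod_cast c0)
  have csub : C ⊆ Y₁ := filter_subset _ _
  have yne : Y.Nonempty := cne.mono (csub.trans hY₁)
  have n0 : (0 : ℝ) < Y.card := by exact_mod_cast yne.card_pos
  have hσ : 0 < σ := (mul_pos_iff_of_pos_right n0).1 (by linarith)
  have hD : s.Disc hv Y σ C ≤ e := by
    have := hE C csub hc
    linarith [Disc_mono (hv := hv) (Y := Y) (C := C) hs h0,
      Sm_nonneg (hv := hv) (Y := Y) (σ := σ₀) hs C]
  have hA : Tyl.A s hv Y σ Y ≤ 2 * T := by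
    have b := (bones (dg qr) (bone dq) fibs X PL s hv Y h T σ hx (by linarith) h1).1
    have b1 : 7 * T / σ ≤ Y.card * T := by
      rw [div_le_iff₀ hσ]
      nlinarith
    have b2 : ∀ y ∈ Y, ∑ z ∈ Y, s.Olg hv Y σ y z ≤ 2 * T * Y.card := fun y hy => by
      rw [← add_sum_erase _ _ hy]
      have b3 : ∑ z ∈ Y.erase y, s.Olg hv Y σ y z ≤ ∑ z ∈ Y.erase y, T :=
        sum_le_sum fun z hz => (Olg_le_O hs y z).trans
          (hx.Ole y hy z (mem_erase.1 hz).2 (mem_erase.1 hz).1.symm)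
      rw [sum_const, nsmul_eq_mul] at b3
      have b4 : ((Y.erase y).card : ℝ) ≤ Y.card := by exact_mod_cast card_erase_le
      nlinarith [b y hy]
    have b5 := sum_le_sum b2
    rw [Tyl.sum_Olg, sum_const, nsmul_eq_mul] at b5
    exact le_of_mul_le_mul_left (a := (Y.card : ℝ) * Y.card) (by linarith) (by positivity)
  have hlt : Tyl.A s hv Y σ C < Tyl.A s hv Y σ Y - k := by
    have b : ∑ y ∈ C, psi s hv Y σ y < ∑ y ∈ C, (Tyl.A s hv Y σ Y - k) :=
      sum_lt_sum_of_nonempty cne fun y hy => by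
        have := (mem_filter.1 hy).2
        rwa [Tyl.sum_psi s n0, mul_div_cancel_left₀ _ n0.ne'] at this
    rw [Tyl.sum_psi s n0, sum_const, nsmul_eq_mul] at b
    exact lt_of_mul_lt_mul_left b c0.le
  have m := Tyl.amgm (hv := hv) (σ := σ) hs cne yne T (Tyl.A s hv Y σ Y - Tyl.A s hv Y σ C)
  generalize Tyl.A s hv Y σ Y = a at *
  generalize Tyl.A s hv Y σ C = b at *
  obtain ⟨d, rfl⟩ : ∃ d, a = b + d := ⟨a - b, by ring⟩
  rw [add_sub_cancel_left] at m
  have m1 : d ^ 2 * (b + d) ≤ d ^ 2 * (2 * T) := mul_le_mul_of_nonneg_left hA (sq_nonneg d)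
  have m2 : 4 * T ^ 2 * s.Disc hv Y σ C ≤ 4 * T ^ 2 * e :=
    mul_le_mul_of_nonneg_left hD (by positivity)
  have m3 : 2 * T * d ^ 2 ≤ 2 * T * (2 * T * e) := by nlinarith
  have m4 : d ^ 2 ≤ 2 * T * e := le_of_mul_le_mul_left m3 (by linarith)
  nlinarith

end Pool.Agent.MP_6c3157_co.PQ
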