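import Pool.Agent.MP_6c3157_co.PQ.BasicB

/-! Project PQ, row USUM: the second moment of the huge cells is small. -/

set_option autoImplicit false
set_option linter.unusedSectionVars false

noncomputable section

namespace Pool.Agent.MP_6c3157_co.PQ

open Finset Pool.Agent.MP_6c3157_co.PD

namespace Usum

theorem four {ε n : ℝ} (h0 : 0 < ε) (h1 : ε ≤ 1 / 10 ^ 20) (hn : 1 ≤ ε ^ 13 * n) :
    4 ≤ ε ^ 2 * n := by
  have h2 : ε ^ 11 ≤ 1 / 4 := by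
    have h3 : ε ^ 11 ≤ ε ^ 1 := pow_le_pow_of_le_one h0.le (by linarith) (by norm_num)
    rw [pow_one] at h3
    linarith
  have h3 : 0 < ε ^ 13 * n := by linarith
  have h4 : 0 < n := (mul_pos_iff_of_pos_left (by positivity)).1 h3
  have h5 : ε ^ 13 * n = ε ^ 11 * (ε ^ 2 * n) := by ring
  have h6 : ε ^ 11 * (ε ^ 2 * n) ≤ 1 / 4 * (ε ^ 2 * n) :=
    mul_le_mul_of_nonneg_right h2 (by positivity)
  linarith

theorem num {ε n T η D E U : ℝ} (h0 : 0 < ε) (h1 : ε ≤ 1 / 10 ^ 20) (hn : 1 ≤ ε ^ 13 * n)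
    (hT : 20 ≤ T) (hη0 : 0 ≤ η) (hη : η ≤ ε ^ 10) (hD : D ≤ ε ^ 14 * T * n ^ 2)
    (hE : E ≤ 4 * η * n ^ 2 + 256 / (ε ^ 2) ^ 2 * D +
      32 * ε ^ 29 / (ε ^ 2 * ε ^ 15) * (23 * T / ε ^ 2 + 2 * η) * n ^ 2 +
      ε ^ 20 * (23 * T / ε ^ 2) * n ^ 2)
    (hU : (ε ^ 2) ^ 2 / 4 * U ≤ 2 * E + η * n ^ 2 + n * (23 * T / ε ^ 2) + η * n) :
    U ≤ 10 ^ 4 * ε ^ 6 * T * n ^ 2 := by
  have h3 : 0 < ε ^ 13 * n := by linarith
  have hn0 : 0 < n := (mul_pos_iff_of_pos_left (by positivity)).1 h3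
  have he1 : ε ≤ 1 := by linarith
  have hn1 : 1 ≤ n := by
    have h4 : ε ^ 13 ≤ 1 := pow_le_one₀ h0.le he1
    have h5 : ε ^ 13 * n ≤ 1 * n := mul_le_mul_of_nonneg_right h4 hn0.le
    linarith
  set A := ε ^ 10 * T * n ^ 2 with hA
  have hA0 : 0 ≤ A := by positivity
  have a1 : 20 * (η * n ^ 2) ≤ A := by
    have h4 : η * n ^ 2 ≤ ε ^ 10 * n ^ 2 := mul_le_mul_of_nonneg_right hη (by positivity)
    have h5 : 20 * (ε ^ 10 * n ^ 2) ≤ T * (ε ^ 10 * n ^ 2) :=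
      mul_le_mul_of_nonneg_right hT (by positivity)
    have h6 : T * (ε ^ 10 * n ^ 2) = A := by rw [hA]; ring
    linarith
  have a0 : 0 ≤ η * n ^ 2 := by positivity
  have a2 : 256 / (ε ^ 2) ^ 2 * D ≤ 256 * A := by
    refine (mul_le_mul_of_nonneg_left hD (by positivity)).trans (le_of_eq ?_)
    rw [hA]
    field_simp
  have a3 : 32 * ε ^ 29 / (ε ^ 2 * ε ^ 15) * (23 * T / ε ^ 2 + 2 * η) * n ^ 2 =
      736 * A + 64 * ε ^ 12 * (η * n ^ 2) := by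
    rw [hA]
    field_simp
    ring
  have a4 : 64 * ε ^ 12 * (η * n ^ 2) ≤ 1 * (η * n ^ 2) := by
    refine mul_le_mul_of_nonneg_right ?_ a0
    have h4 : ε ^ 12 ≤ ε ^ 1 := pow_le_pow_of_le_one h0.le he1 (by norm_num)
    rw [pow_one] at h4
    linarith
  have a5 : ε ^ 20 * (23 * T / ε ^ 2) * n ^ 2 = 23 * ε ^ 8 * A := by
    rw [hA]
    field_simp
  have a6 : 23 * ε ^ 8 * A ≤ 1 * A := by
    refine mul_le_mul_of_nonneg_right ?_ hA0
    have h4 : ε ^ 8 ≤ ε ^ 1 := pow_le_pow_of_le_one h0.le he1 (by norm_num)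
    rw [pow_one] at h4
    linarith
  have a7 : n * (23 * T / ε ^ 2) ≤ A := by
    have h4 : n * (23 * T / ε ^ 2) * 1 ≤ n * (23 * T / ε ^ 2) * (ε ^ 13 * n) :=
      mul_le_mul_of_nonneg_left hn (by positivity)
    have h5 : n * (23 * T / ε ^ 2) * (ε ^ 13 * n) = 23 * ε * A := by
      rw [hA]
      field_simp
    have h6 : 23 * ε * A ≤ 1 * A := mul_le_mul_of_nonneg_right (by linarith) hA0
    linarith
  have a8 : η * n ≤ η * n ^ 2 := by
    refine mul_le_mul_of_nonneg_left ?_ hη0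
    have := mul_le_mul_of_nonneg_left hn1 hn0.le
    rw [sq]
    linarith
  have a9 : (ε ^ 2) ^ 2 / 4 * U ≤ 2500 * A := by linarith
  have a10 : 2500 * A = (ε ^ 2) ^ 2 / 4 * (10 ^ 4 * ε ^ 6 * T * n ^ 2) := by
    rw [hA]
    ring
  rw [a10] at a9
  exact le_of_mul_le_mul_left a9 (by positivity)

end Usum

theorem usum (hU : UBT) (hE : ERS2) (hL : LZS) : USUM := by
  intro X PL _ _ s hv Y B h T η ε l a γ At ok C hx h0 h1 hη hn hS hD
  have hs := hx.ctx.good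
  have h4 := Usum.four h0 h1 hn
  have hη0 : 0 ≤ η := (hs.sum_nonneg fun p => (hs.good p).eta_lo).trans hx.eta
  have hE' := hE X PL s hv Y B h T (ε ^ 2) η (ε ^ 29) (ε ^ 15) (ε ^ 20) l a γ At ok C hx h4
    (by positivity) (by positivity) hS
  refine Usum.num h0 h1 hn hx.ctx.Tlo hη0 hη hD hE' ?_
  set n : ℝ := (Y.card : ℝ) with hnd
  have hn0 : 0 ≤ n := Nat.cast_nonneg _
  set e : PL → ℝ := fun p => ∑ x ∈ Y, ∑ y ∈ Y.erase x,
    min (err (s.c p) (s.c (s.bar p)) (γ p) (γ (s.bar p)) x y) (lz (γ p) x) with he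
  have h5 : ∀ p, (ε ^ 2) ^ 2 / 4 * (s.c p).ulow hv Y (ε ^ 2 / 2) (γ p) ≤
      2 * e p + n ^ 2 * (s.c p).eta + ∑ y ∈ Y, lz (γ p) y + n * (s.c p).eta := by
    intro p
    have h6 := hU X (s.c p) (s.c (s.bar p)) hv Y (γ p) (γ (s.bar p)) (ε ^ 2) (hx.pt p)
      (hx.pt (s.bar p)) (hs.lam_bar p)
    refine h6.trans ?_
    have h7 : (∑ x ∈ Y, ∑ y ∈ Y.erase x, (2 * min (err (s.c p) (s.c (s.bar p)) (γ p)
        (γ (s.bar p)) x y) (lz (γ p) x) + (s.c p).eta)) ≤ 2 * e p + n ^ 2 * (s.c p).eta := by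
      have h8 : n ^ 2 * (s.c p).eta = ∑ _x ∈ Y, n * (s.c p).eta := by
        rw [sum_const, nsmul_eq_mul]
        ring
      rw [he, h8, mul_sum, ← sum_add_distrib]
      refine sum_le_sum fun x _ => ?_
      rw [sum_add_distrib, mul_sum, sum_const, nsmul_eq_mul]
      have h9 : ((Y.erase x).card : ℝ) ≤ n := Nat.cast_le.2 card_erase_le
      have := mul_le_mul_of_nonneg_right h9 (hs.good p).eta_lo
      linarith
    rw [sum_add_distrib, sum_const, nsmul_eq_mul]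
    linarith
  have h6 := hs.sum_le h5
  have h7 : ∑ p, s.m p * ((ε ^ 2) ^ 2 / 4 * (s.c p).ulow hv Y (ε ^ 2 / 2) (γ p)) =
      (ε ^ 2) ^ 2 / 4 * s.U hv Y (ε ^ 2 / 2) γ := by
    unfold Sys.U
    rw [mul_sum]
    exact sum_congr rfl fun p _ => by ring
  have h8 : ∑ p, s.m p * (2 * e p + n ^ 2 * (s.c p).eta + ∑ y ∈ Y, lz (γ p) y +
      n * (s.c p).eta) = 2 * (∑ p, s.m p * e p) + n ^ 2 * (∑ p, s.m p * (s.c p).eta) +
      (∑ y ∈ Y, ∑ p, s.m p * lz (γ p) y) + n * ∑ p, s.m p * (s.c p).eta := by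
    rw [sum_comm, mul_sum, mul_sum, mul_sum, ← sum_add_distrib, ← sum_add_distrib,
      ← sum_add_distrib]
    refine sum_congr rfl fun p _ => ?_
    rw [← mul_sum]
    ring
  have h9 : (∑ y ∈ Y, ∑ p, s.m p * lz (γ p) y) ≤ n * (23 * T / ε ^ 2) := by
    have := sum_le_sum fun y (hy : y ∈ Y) => (hL X PL s hv Y h T (ε ^ 2) η γ hx h4 y hy).1
    rw [sum_const, nsmul_eq_mul] at this
    exact this
  have h10 := mul_le_mul_of_nonneg_left hx.eta (sq_nonneg n)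
  have h11 := mul_le_mul_of_nonneg_left hx.eta hn0
  rw [h7, h8] at h6
  linarith

end Pool.Agent.MP_6c3157_co.PQ
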