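import Pool.Agent.MP_6c3157_co.PQ.Gf
import Pool.Agent.MP_6c3157_co.PQ.Phs
import Pool.Agent.MP_6c3157_co.PQ.Phi
import Pool.Agent.MP_6c3157_co.PQ.Phb
import Pool.Agent.MP_6c3157_co.PQ.Sapg
import Pool.Agent.MP_6c3157_co.PQ.Sag
import Pool.Agent.MP_6c3157_co.PQ.Th
import Pool.Agent.MP_6c3157_co.PQ.Geot
import Pool.Agent.MP_6c3157_co.PQ.Lzb
import Pool.Agent.MP_6c3157_co.PQ.Ert
import Pool.Agent.MP_6c3157_co.PQ.Erx
import Pool.Agent.MP_6c3157_co.PQ.Ubt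
import Pool.Agent.MP_6c3157_co.PQ.Art
import Pool.Agent.MP_6c3157_co.PQ.Lhl
import Pool.Agent.MP_6c3157_co.PQ.Ball
import Pool.Agent.MP_6c3157_co.PQ.Mass
import Pool.Agent.MP_6c3157_co.PQ.Out
import Pool.Agent.MP_6c3157_co.PQ.Hzp
import Pool.Agent.MP_6c3157_co.PQ.Oup
import Pool.Agent.MP_6c3157_co.PQ.Hide
import Pool.Agent.MP_6c3157_co.PQ.B1p
import Pool.Agent.MP_6c3157_co.PQ.Eqm
import Pool.Agent.MP_6c3157_co.PQ.Cal
import Pool.Agent.MP_6c3157_co.PQ.Ca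
import Pool.Agent.MP_6c3157_co.PQ.Tya
import Pool.Agent.MP_6c3157_co.PQ.Tyl
import Pool.Agent.MP_6c3157_co.PQ.Tyd
import Pool.Agent.MP_6c3157_co.PQ.Ds
import Pool.Agent.MP_6c3157_co.PQ.Lzs
import Pool.Agent.MP_6c3157_co.PQ.Ers2
import Pool.Agent.MP_6c3157_co.PQ.Usum
import Pool.Agent.MP_6c3157_co.PQ.Tbig
import Pool.Agent.MP_6c3157_co.PQ.Hze
import Pool.Agent.MP_6c3157_co.PQ.Hzx
import Pool.Agent.MP_6c3157_co.PQ.Hzs
import Pool.Agent.MP_6c3157_co.PQ.Wts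
import Pool.Agent.MP_6c3157_co.PQ.Conc
import Pool.Agent.MP_6c3157_co.PQ.Clean0
import Pool.Agent.MP_6c3157_co.PQ.Clean

/-! Project PQ, part B: assembly. -/

set_option autoImplicit false

namespace Pool.Agent.MP_6c3157_co.PQ

theorem all_sag : SAG := sag gfs (sapg gfs (phs gfs))

theorem all_th : TH := th all_sag (phb (phi PD.fibs))

theorem all_eqm : EQM := eqm (b1p hide)

theorem all_ca : CA := ca cal

theorem all_lzs : LZS := lzs lgt (lzb ltt)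

theorem all_clean0 : CLEAN0 :=
  clean0 geot (usum (ubt tut) (ers2 (erx ert winb) all_lzs) all_lzs) (tbig art lhl ltt)
    (hzs all_lzs (hze hzp ballb outb cal) (hzx ballb (mass ltt) outb)) (wts (oup ltt lhl))
    (conc ballb (mass ltt) all_ca) (mass ltt) lhl

theorem all_clean : CLEAN := clean (tya cal) tyl (ds tyd) all_clean0

end Pool.Agent.MP_6c3157_co.PQ
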