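import Pool.Agent.MP_6c3157_co.PQ.SpecD

/-! Project PQ, rows APB and TRI: the slope of a base seen from a pin. -/

set_option autoImplicit false

noncomputable section

namespace Pool.Agent.MP_6c3157_co.PQ

open Finset Pool.Agent.MP_6c3157_co.PD

namespace Apb

theorem logs {a b c d P Q : ℝ} (ha : 0 < a) (hb : 0 < b) (hc : 0 < c) (hd : 0 < d) (hP : 0 < P)
    (hQ : 0 < Q) (h : a * d = b * c) :
    Real.log (P / a) - Real.log (Q / b) = Real.log (P / c) - Real.log (Q / d) := by
  have h1 := congrArg Real.log h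
  rw [Real.log_mul ha.ne' hd.ne', Real.log_mul hb.ne' hc.ne'] at h1
  rw [Real.log_div hP.ne' ha.ne', Real.log_div hQ.ne' hb.ne', Real.log_div hP.ne' hc.ne',
    Real.log_div hQ.ne' hd.ne']
  linarith

theorem three (a b c : ℝ) : max 0 (a + b - c) ≤ max 0 a + max 0 b + max 0 (-c) := by
  have a1 := le_max_left 0 a
  have a2 := le_max_right 0 a
  have b1 := le_max_left 0 b
  have b2 := le_max_right 0 b
  have c1 := le_max_left 0 (-c)
  have c2 := le_max_right 0 (-c)
  exact max_le (by linarith) (by linarith)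

end Apb

theorem apb (h : SLOPE) : APB := by
  intro X PL K _ _ _ s A η R hA hR
  have hU : ∀ {a b : X}, a ≠ b → A.U a - A.U b ≠ 0 := fun e => sub_ne_zero.2 fun k => e (hA.U_inj k)
  have hV : ∀ {a b : X}, a ≠ b → A.V a - A.V b ≠ 0 := fun e => sub_ne_zero.2 fun k => e (hA.V_inj k)
  refine ⟨fun x y z hyz hb => ?_, fun y z => ?_, fun y z => ?_, fun x x' y z hx hy h1 h2 => ?_⟩
  · unfold Ari.bis at hb
    have hy : y ≠ x := by
      rintro rfl
      exact mul_ne_zero (hU hyz) (hV hyz) (by rw [← hb, sub_self, zero_mul])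
    have hz : z ≠ x := by
      rintro rfl
      exact mul_ne_zero (hU hyz.symm) (hV hyz.symm) (by rw [hb, sub_self, zero_mul])
    refine ⟨hy, hz, fun p => ?_⟩
    have k1 : (A.U y - A.U z) * (A.V x - A.V y) = -((A.V y - A.V z) * (A.U x - A.U z)) := by
      linear_combination -hb
    have k2 : (A.V y - A.V z) * (A.U x - A.U y) = -((A.U y - A.U z) * (A.V x - A.V z)) := by
      linear_combination -hb
    have v1 := congrArg (A.av p) k1
    have v2 := congrArg (A.av p) k2
    rw [AbsoluteValue.map_neg, map_mul, map_mul] at v1 v2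
    unfold dep
    simp only [hA.d_eq, hA.av_bar, Ari.co, hA.sd_bar]
    cases A.sd p
    · simp only [Bool.not_false, cond_true, cond_false]
      exact Apb.logs ((A.av p).pos (hV hyz)) ((A.av p).pos (hU hyz)) ((A.av p).pos (hV hz.symm))
        ((A.av p).pos (hU hy.symm)) (hR _) (hR _) v2
    · simp only [Bool.not_true, cond_true, cond_false]
      exact Apb.logs ((A.av p).pos (hU hyz)) ((A.av p).pos (hV hyz)) ((A.av p).pos (hU hz.symm))
        ((A.av p).pos (hV hy.symm)) (hR _) (hR _) v1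
  · unfold slp dep
    refine sum_congr rfl fun p _ => ?_
    rw [(hA.good.good p).d_symm y z, (hA.good.good (s.bar p)).d_symm y z]
  · unfold slp
    rw [← Equiv.sum_comp s.bar]
    refine sum_congr rfl fun p _ => ?_
    rw [hA.bar_bar, hA.good.m_bar]
  · unfold slp
    refine sum_congr rfl fun p _ => ?_
    rw [h X PL K s A η R hA hR x x' y z hx hy h1 h2 p]

theorem tri (h : APB) : TRI := by
  intro X PL K _ _ _ s A η R hA hR x y₀ y₁ y₂ h01 h02 h12 b1 b2
  obtain ⟨a1, a2, a3, -⟩ := h X PL K s A η R hA hR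
  have b1' : A.bis x y₁ y₀ := Eq.symm b1
  have e1 := (a1 x y₁ y₀ h01.symm b1').2.2
  have e2 := (a1 x y₀ y₂ h02 b2).2.2
  have e3 := (a1 x y₁ y₂ h12 (Eq.trans b1' b2)).2.2
  rw [a2 y₀ y₁, ← a3 y₁ y₂]
  unfold slp
  rw [← sum_add_distrib, ← sum_add_distrib]
  refine sum_le_sum fun p _ => ?_
  rw [← mul_add, ← mul_add]
  refine mul_le_mul_of_nonneg_left ?_ (hA.good.m_lo p)
  have := Apb.three (dep s R p y₁ y₀ - dep s R (s.bar p) y₁ y₀)
    (dep s R p y₀ y₂ - dep s R (s.bar p) y₀ y₂) (dep s R p y₁ y₂ - dep s R (s.bar p) y₁ y₂)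
  rw [neg_sub] at this
  refine le_of_eq_of_le (congrArg _ ?_) this
  rw [e1, e2, e3]
  ring

end Pool.Agent.MP_6c3157_co.PQ
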