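import Pool.Agent.MP_6c3157_co.PQ.SpecA

/-! Project PQ, row APEX: two points of one fibre. -/

set_option autoImplicit false
set_option linter.unusedSectionVars false

noncomputable section

namespace Pool.Agent.MP_6c3157_co.PQ

open Finset Pool.Agent.MP_6c3157_co.PD

namespace Apex

theorem log_rel {R R' a b c d : ℝ} (hR : 0 < R) (hR' : 0 < R') (ha : 0 < a) (hb : 0 < b)
    (hc : 0 < c) (hd : 0 < d) (h : a * b = c * d) :
    Real.log (R / a) + Real.log (R' / b) = Real.log (R / c) + Real.log (R' / d) := by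
  have := congrArg Real.log h
  rw [Real.log_mul ha.ne' hb.ne', Real.log_mul hc.ne' hd.ne'] at this
  rw [Real.log_div hR.ne' ha.ne', Real.log_div hR'.ne' hb.ne', Real.log_div hR.ne' hc.ne',
    Real.log_div hR'.ne' hd.ne']
  linarith

theorem point {l l1 lb lb1 u ub : ℝ} (h1 : l + lb = l1 + lb1) (h2 : u - ub = l1 - lb) :
    |l - l1| / 2 + u / 2 + ub / 2 ≤ max 0 (min u ub) + l / 2 + lb / 2 +
      max 0 (-l) + max 0 (-l1) + max 0 (-lb) + max 0 (-lb1) := by
  have a1 := le_max_left 0 (-l)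
  have a2 := le_max_right 0 (-l)
  have b1 := le_max_left 0 (-l1)
  have b2 := le_max_right 0 (-l1)
  have c1 := le_max_left 0 (-lb)
  have c2 := le_max_right 0 (-lb)
  have d1 := le_max_left 0 (-lb1)
  have d2 := le_max_right 0 (-lb1)
  have e := le_max_right 0 (min u ub)
  rcases min_cases u ub with ⟨f, _⟩ | ⟨f, _⟩ <;> rcases abs_cases (l - l1) with ⟨g, _⟩ | ⟨g, _⟩ <;>
    linarith

end Apex

theorem apex (h : DEP) : APEX := by
  intro X PL K _ _ _ s A η Z R G W ε hA hC x hx y hy z hz hyx hzx hyz hl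
  have hs := hA.good
  have dp : ∀ p {a b : X}, a ≠ b → 0 < (s.c p).d a b := fun p _ _ e => (hs.good p).d_pos e
  have e1 : ∀ p, dep s R p x y + dep s R (s.bar p) x y = dep s R p x z + dep s R (s.bar p) x z :=
    fun p => Apex.log_rel (hC.R_pos _) (hC.R_pos _) (dp _ hyx.symm) (dp _ hyx.symm)
      (dp _ hzx.symm) (dp _ hzx.symm) (hs.f1 p x y z hyx hzx hl)
  have e2 : ∀ p, dep s R p y z - dep s R (s.bar p) y z = dep s R p x z - dep s R (s.bar p) x y :=
    fun p => by
      have := Apex.log_rel (hC.R_pos (s.bar p)) (hC.R_pos p) (dp _ hyz) (dp _ hzx.symm)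
        (dp _ hyx.symm) (dp _ hyz) (hs.f2 p x y z hyx hzx hl)
      unfold dep
      linarith
  refine ⟨e2, ?_⟩
  obtain ⟨a1, a2, -⟩ := h X PL s Z R G W ε hs hC x hx y hy hyx.symm
  obtain ⟨-, b2, -⟩ := h X PL s Z R G W ε hs hC x hx z hz hzx.symm
  obtain ⟨c1, -⟩ := h X PL s Z R G W ε hs hC y hy z hz hyz
  have a3 := hs.sum_bar fun p => dep s R p x y
  have a4 := hs.sum_bar fun p => max 0 (-dep s R p x y)
  have b4 := hs.sum_bar fun p => max 0 (-dep s R p x z)
  have c3 := hs.sum_bar fun p => dep s R p y z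
  have k := hs.sum_le fun p => Apex.point (e1 p) (e2 p)
  simp only [mul_add, sum_add_distrib, ← mul_div_assoc, ← sum_div] at k
  unfold del dd
  linarith

end Pool.Agent.MP_6c3157_co.PQ
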