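import Pool.Agent.MP_6c3157_co.PQ.SpecB

/-! Project PQ, part B: small facts used by many rows. -/

set_option autoImplicit false
set_option linter.unusedSectionVars false

noncomputable section

namespace Pool.Agent.MP_6c3157_co.PQ

open Finset Pool.Agent.MP_6c3157_co.PD

variable {X PL : Type} [DecidableEq X] {c : Cells X} {hv : ℕ × Finset X → Prop} {Y C : Finset X}
  {γ : Geo X} {τ σ σ' : ℝ}

theorem GoodT.r_pos (h : GoodT γ c Y τ) (hc : c.Good) : 0 < γ.r :=
  lt_of_lt_of_le (by have := hc.rlo_pos; positivity) h.r_lo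

theorem GoodT.s_pos (h : GoodT γ c Y τ) (hc : c.Good) {x : X} (hx : x ∈ Y) : 0 < γ.rs x :=
  lt_of_lt_of_le (by have := hc.rlo_pos; positivity) (h.s_lo x hx)

theorem GoodT.card_pos (h : GoodT γ c Y τ) : (0 : ℝ) < Y.card := by
  exact_mod_cast Finset.card_pos.2 ⟨_, h.cen_mem⟩

/-- distance to the centre in terms of the outlier length -/
theorem cen_le (hc : c.Good) (hr : 0 < γ.r) (x : X) :
    c.d x γ.cen ≤ γ.r * Real.exp (c.G γ x) := by
  rcases (hc.d_nonneg x γ.cen).eq_or_lt with h0 | h0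
  · rw [← h0]; positivity
  · rw [← div_le_iff₀' hr, ← Real.log_le_iff_le_exp (div_pos h0 hr)]
    exact le_max_right _ _

theorem GoodT.d_le (h : GoodT γ c Y τ) (hc : c.Good) (x : X) :
    c.d x γ.cen ≤ γ.r * Real.exp (c.G γ x) := cen_le hc (h.r_pos hc) x

/-- distance of two points in terms of the outlier lengths -/
theorem pair_le (hc : c.Good) (hr : 0 < γ.r) (x y : X) :
    c.d x y ≤ c.lam * γ.r * Real.exp (max (c.G γ x) (c.G γ y)) := by
  refine (hc.d_tri x γ.cen y).trans ?_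
  rw [mul_assoc]
  refine mul_le_mul_of_nonneg_left (max_le ?_ ?_) hc.lam_pos.le
  · exact (cen_le hc hr x).trans
      (mul_le_mul_of_nonneg_left (Real.exp_le_exp.2 (le_max_left _ _)) hr.le)
  · rw [hc.d_symm]
    exact (cen_le hc hr y).trans
      (mul_le_mul_of_nonneg_left (Real.exp_le_exp.2 (le_max_right _ _)) hr.le)

theorem lz_nonneg (γ : Geo X) (x : X) : 0 ≤ lz γ x := le_max_left _ _

theorem err_nonneg (c c' : Cells X) (γ γ' : Geo X) (x y : X) : 0 ≤ err c c' γ γ' x y :=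
  le_max_left _ _

theorem win_nonneg (hc : c.Good) (a l : ℝ) (x z : X) : 0 ≤ win c hv Y σ a l x z :=
  Cells.W_nonneg hc

theorem hl_nonneg (hc : c.Good) : 0 ≤ hl c hv γ := Cells.W_nonneg hc

theorem small_mono (h : σ ≤ σ') {i : ℕ × Finset X} (hi : c.small hv Y σ i) : c.small hv Y σ' i :=
  ⟨hi.1, fun y hy hy' => (hi.2 y hy hy').trans_le
    (mul_le_mul_of_nonneg_right h (Nat.cast_nonneg _))⟩

/-- a small cell through a point of `Y` has few points -/
theorem small_card (hc : c.Good) {i : ℕ × Finset X} (hi : i ∈ c.I) (hs : c.small hv Y σ i)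
    {y : X} (hy : y ∈ Y) (hy' : y ∈ i.2) : ((Y ∩ i.2).card : ℝ) < σ * Y.card :=
  lt_of_le_of_lt (Nat.cast_le.2 (card_le_card (Cells.inter_subset_ball hc hi hy')))
    (hs.2 y hy hy')

theorem disc_mono (hc : c.Good) (h : σ ≤ σ') : c.disc hv Y σ' C ≤ c.disc hv Y σ C :=
  Cells.WS_mono hc (fun _ _ hi => ⟨fun hs => hi (small_mono h hs), le_rfl⟩)
    fun _ _ _ => sq_nonneg _

theorem shr_nonneg (C : Finset X) (i : ℕ × Finset X) : 0 ≤ shr hv C i := by
  unfold shr; positivity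

theorem shr_light {i : ℕ × Finset X} (h : ¬ hv i) :
    shr hv C i = ((C ∩ i.2).card : ℝ) / C.card := by
  unfold shr
  congr 3
  ext z
  simp [inC, h]

theorem shr_heavy {i : ℕ × Finset X} (h : hv i) :
    shr hv C i = ((C \ i.2).card : ℝ) / C.card := by
  unfold shr
  congr 3
  ext z
  simp [inC, h]

/-- the difference of shares does not depend on the side, up to sign -/
theorem shr_sq (hC : C.Nonempty) (hY : Y.Nonempty) (i : ℕ × Finset X) :
    (shr hv C i - shr hv Y i) ^ 2 =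
      (((C ∩ i.2).card : ℝ) / C.card - ((Y ∩ i.2).card : ℝ) / Y.card) ^ 2 := by
  by_cases h : hv i
  · have h1 : (0 : ℝ) < C.card := by exact_mod_cast hC.card_pos
    have h2 : (0 : ℝ) < Y.card := by exact_mod_cast hY.card_pos
    have h3 : ((C \ i.2).card : ℝ) = C.card - (C ∩ i.2).card := by
      rw [eq_sub_iff_add_eq]; exact_mod_cast card_sdiff_add_card_inter C i.2
    have h4 : ((Y \ i.2).card : ℝ) = Y.card - (Y ∩ i.2).card := by
      rw [eq_sub_iff_add_eq]; exact_mod_cast card_sdiff_add_card_inter Y i.2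
    rw [shr_heavy h, shr_heavy h, h3, h4, sub_div, sub_div, div_self h1.ne', div_self h2.ne']
    ring
  · rw [shr_light h, shr_light h]

/-- mean over `C` of the weight of the cells of a family on whose light side the point lies -/
theorem sum_W_shr (F : ℕ × Finset X → Prop) (C : Finset X) :
    ∑ z ∈ C, c.W (fun i => F i ∧ inC hv i z) = C.card * c.WS F (shr hv C) := by
  rw [Cells.sum_W' C fun i z => inC hv i z, ← Cells.WS_mul]
  refine Cells.WS_congr (fun _ _ => Iff.rfl) fun i _ _ => ?_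
  unfold shr
  rcases C.eq_empty_or_nonempty with rfl | h
  · simp
  · have h1 : (0 : ℝ) < C.card := by exact_mod_cast h.card_pos
    rw [mul_div_cancel₀ _ h1.ne']

variable [Fintype PL] {s : Sys X PL} {h : X → ℝ} {T η : ℝ}

theorem CT.pt {γ : PL → Geo X} (hx : CT s hv Y h T γ τ η) (p : PL) :
    PT (s.c p) hv Y (γ p) τ :=
  ⟨hx.ctx.good.good p, fun i _ => hx.ctx.hvl i, fun i _ => hx.ctx.lgt i, hx.geo p, hx.t_pos,
    hx.t_le⟩

theorem Disc_nonneg (hs : s.Good) (C : Finset X) : 0 ≤ s.Disc hv Y σ C :=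
  hs.sum_nonneg fun p => Cells.disc_nonneg (hs.good p) C

theorem Disc_mono (hs : s.Good) (h : σ ≤ σ') : s.Disc hv Y σ' C ≤ s.Disc hv Y σ C :=
  hs.sum_le fun p => disc_mono (hs.good p) h

theorem Sm_nonneg (hs : s.Good) (C : Finset X) : 0 ≤ Sm s hv Y σ C :=
  div_nonneg (sum_nonneg fun y _ => sum_nonneg fun z _ => hs.Osm_nonneg σ y z) (sq_nonneg _)

theorem psi_nonneg (hs : s.Good) (y : X) : 0 ≤ psi s hv Y σ y :=
  div_nonneg (sum_nonneg fun z _ => hs.Olg_nonneg σ y z) (Nat.cast_nonneg _)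

theorem gs_nonneg (hs : s.Good) (γ : PL → Geo X) (y : X) : 0 ≤ gs s γ y :=
  hs.sum_nonneg fun p => Cells.G_nonneg (γ p) y

theorem Osm_mono (hs : s.Good) (h : σ ≤ σ') (x y : X) : s.Osm hv Y σ x y ≤ s.Osm hv Y σ' x y :=
  hs.sum_le fun p => Cells.W_mono (hs.good p) fun _ _ hi => ⟨small_mono h hi.1, hi.2⟩

theorem Olg_le_O (hs : s.Good) (x y : X) : s.Olg hv Y σ x y ≤ s.O hv x y := by
  rw [Sys.O_eq Y σ]
  linarith [hs.Osm_nonneg (hv := hv) (Y := Y) σ x y]

end Pool.Agent.MP_6c3157_co.PQ
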