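import Pool.Agent.MP_6c3157_co.PQ.BasicB

/-! Project PQ, row CA: shares on any family of cells. -/

set_option autoImplicit false
set_option linter.unusedSectionVars false

namespace Pool.Agent.MP_6c3157_co.PQ

open Finset Pool.Agent.MP_6c3157_co.PD

namespace Ca

variable {X PL : Type} [DecidableEq X] [Fintype PL] {s : Sys X PL}

theorem cs (hs : s.Good) (G : PL → ℕ × Finset X → Prop) (f : ℕ × Finset X → ℝ) :
    (∑ p, s.m p * (s.c p).WS (G p) f) ^ 2 ≤
      (∑ p, s.m p * (s.c p).W (G p)) * ∑ p, s.m p * (s.c p).WS (G p) fun i => f i ^ 2 := by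
  have h := discrim_le_zero (a := ∑ p, s.m p * (s.c p).W (G p))
    (b := -2 * ∑ p, s.m p * (s.c p).WS (G p) f)
    (c := ∑ p, s.m p * (s.c p).WS (G p) fun i => f i ^ 2) fun t => by
      have h0 : 0 ≤ ∑ p, s.m p * (s.c p).WS (G p) fun i => (f i - t) ^ 2 :=
        hs.sum_nonneg fun p => Cells.WS_nonneg (hs.good p) fun _ _ _ => sq_nonneg _
      refine h0.trans_eq ?_
      rw [sum_mul, mul_sum, sum_mul, ← sum_add_distrib, ← sum_add_distrib]
      refine sum_congr rfl fun p _ => ?_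
      have e : (fun i => (f i - t) ^ 2) = fun i => (t * t + -2 * t * f i) + f i ^ 2 := by
        funext i; ring
      rw [e, Cells.WS_add, Cells.WS_add, Cells.WS_const, Cells.WS_mul]
      ring
  unfold discrim at h
  nlinarith [h]

theorem sm_eq (hv : ℕ × Finset X → Prop) (Y C : Finset X) (σ : ℝ) :
    Sm s hv Y σ C = ∑ p, s.m p * (s.c p).WS ((s.c p).small hv Y σ) fun i =>
      1 / (C.card : ℝ) ^ 2 * (((C ∩ i.2).card : ℝ) * (((C ∩ i.2).card : ℝ) - 1)) := by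
  unfold Sm Sys.Osm Cells.osm
  have e : ∀ y ∈ C, ∑ z ∈ C.erase y, ∑ p, s.m p * (s.c p).W
      (fun i => (s.c p).small hv Y σ i ∧ y ∈ i.2 ∧ z ∈ i.2) = ∑ p, s.m p * ∑ z ∈ C.erase y,
        (s.c p).W (fun i => (s.c p).small hv Y σ i ∧ y ∈ i.2 ∧ z ∈ i.2) := fun y _ => by
    rw [sum_comm]
    exact sum_congr rfl fun p _ => (mul_sum _ _ _).symm
  rw [sum_congr rfl e, sum_comm, sum_div]
  refine sum_congr rfl fun p _ => ?_
  rw [← mul_sum, Cells.sum2_W, Cells.WS_mul]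
  ring

theorem sq_le {k n : ℕ} (hn : 0 < n) (h : k ≤ n) :
    ((k : ℝ) / n) ^ 2 ≤ 1 / (n : ℝ) ^ 2 * ((k : ℝ) * ((k : ℝ) - 1)) + 1 / n := by
  have h1 : (0 : ℝ) < n := by exact_mod_cast hn
  have h2 : (k : ℝ) ≤ n := by exact_mod_cast h
  have e : 1 / (n : ℝ) ^ 2 * ((k : ℝ) * ((k : ℝ) - 1)) + 1 / n - ((k : ℝ) / n) ^ 2 =
      ((n : ℝ) - k) / (n : ℝ) ^ 2 := by field_simp; ring
  have : 0 ≤ ((n : ℝ) - k) / (n : ℝ) ^ 2 := div_nonneg (by linarith) (sq_nonneg _)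
  linarith

theorem pair_nonneg (k : ℕ) : 0 ≤ (k : ℝ) * ((k : ℝ) - 1) := by
  rcases k with _ | k
  · simp
  · push_cast
    have : (0 : ℝ) ≤ k := Nat.cast_nonneg _
    nlinarith

end Ca

theorem ca (hL : CAL) : CA := by
  intro X PL _ _ s hv Y C σ M e F hs hC hne hM hD hMe
  have hn : 0 < C.card := hne.card_pos
  have hle : ∀ G : PL → ℕ × Finset X → Prop,
      ∑ p, s.m p * (s.c p).W (fun i => F p i ∧ G p i) ≤ M := fun G =>
    (hs.sum_le fun p => Cells.W_mono (hs.good p) fun _ _ hi => hi.1).trans hM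
  have hM0 : 0 ≤ M := (hs.sum_nonneg fun p => Cells.W_nonneg (hs.good p)).trans hM
  have hD0 := Disc_nonneg (hv := hv) (Y := Y) (σ := σ) hs C
  have hS0 := Sm_nonneg (hv := hv) (Y := Y) (σ := σ) hs C
  have h1 := hL X PL s hv Y C σ M (fun p i => F p i ∧ ¬ (s.c p).small hv Y σ i) hs hC hne
    (fun _ _ _ hi => hi.2) (hle _)
  have h2 : ∑ p, s.m p * (s.c p).WS (fun i => F p i ∧ ¬ (s.c p).small hv Y σ i) (shr hv Y) ≤
      ∑ p, s.m p * (s.c p).WS (F p) (shr hv Y) := hs.sum_le fun p =>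
    Cells.WS_mono (hs.good p) (fun _ _ hi => ⟨hi.1, le_rfl⟩) fun i _ _ => shr_nonneg Y i
  have h3 : Real.sqrt (M * s.Disc hv Y σ C) ≤ Real.sqrt (M * e) :=
    Real.sqrt_le_sqrt (mul_le_mul_of_nonneg_left (by linarith) hM0)
  have h4 : (∑ p, s.m p * (s.c p).WS (fun i => F p i ∧ (s.c p).small hv Y σ i)
      fun i => shr hv C i ^ 2) ≤ Sm s hv Y σ C +
        1 / (C.card : ℝ) * ∑ p, s.m p * (s.c p).W (fun i => F p i ∧ (s.c p).small hv Y σ i) := by
    rw [Ca.sm_eq, mul_sum, ← sum_add_distrib]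
    refine sum_le_sum fun p _ => ?_
    rw [mul_left_comm, ← mul_add]
    refine mul_le_mul_of_nonneg_left ?_ (hs.m_lo p)
    rw [← Cells.WS_const]
    refine le_trans (Cells.WS_le (hs.good p) (f' := fun i => 1 / (C.card : ℝ) ^ 2 *
      (((C ∩ i.2).card : ℝ) * (((C ∩ i.2).card : ℝ) - 1)) + 1 / (C.card : ℝ)) fun i _ hi => ?_) ?_
    · rw [shr_light hi.2.1]
      exact Ca.sq_le hn (card_le_card inter_subset_left)
    · rw [Cells.WS_add]
      refine add_le_add (Cells.WS_mono (hs.good p) (fun _ _ hi => ⟨hi.2, le_rfl⟩) fun i _ _ => ?_)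
        le_rfl
      exact mul_nonneg (by positivity) (Ca.pair_nonneg _)
  have h5 := Ca.cs hs (fun p i => F p i ∧ (s.c p).small hv Y σ i) (shr hv C)
  have h6 := hle fun p i => (s.c p).small hv Y σ i
  have h7 : 1 / (C.card : ℝ) *
      ∑ p, s.m p * (s.c p).W (fun i => F p i ∧ (s.c p).small hv Y σ i) ≤ e := by
    refine le_trans (mul_le_mul_of_nonneg_left h6 (by positivity)) ?_
    rwa [one_div, inv_mul_eq_div]
  have he : 0 ≤ e := by linarith
  have h8 : 0 ≤ ∑ p, s.m p * (s.c p).WS (fun i => F p i ∧ (s.c p).small hv Y σ i)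
      fun i => shr hv C i ^ 2 :=
    hs.sum_nonneg fun p => Cells.WS_nonneg (hs.good p) fun _ _ _ => sq_nonneg _
  have h9 : ∑ p, s.m p * (s.c p).WS (fun i => F p i ∧ (s.c p).small hv Y σ i) (shr hv C) ≤
      2 * Real.sqrt (M * e) := by
    refine abs_le_of_sq_le_sq' ?_ (by positivity) |>.2
    rw [mul_pow, Real.sq_sqrt (mul_nonneg hM0 he)]
    have := mul_le_mul h6 (h4.trans (by linarith : _ ≤ 2 * e)) h8 hM0
    nlinarith [mul_nonneg hM0 he]
  have h10 : ∑ p, s.m p * (s.c p).WS (F p) (shr hv C) =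
      ∑ p, s.m p * (s.c p).WS (fun i => F p i ∧ (s.c p).small hv Y σ i) (shr hv C) +
      ∑ p, s.m p * (s.c p).WS (fun i => F p i ∧ ¬ (s.c p).small hv Y σ i) (shr hv C) := by
    rw [← sum_add_distrib]
    exact sum_congr rfl fun p _ => by rw [Cells.WS_split ((s.c p).small hv Y σ), mul_add]
  linarith

end Pool.Agent.MP_6c3157_co.PQ
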