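import Pool.Agent.MP_6c3157_co.PQ.SpecC

/-! Project PQ, row EXT: an extremal pair of subsets. -/

set_option autoImplicit false

namespace Pool.Agent.MP_6c3157_co.PQ

open Finset Pool.Agent.MP_6c3157_co.PD

theorem Ext.ec_le {X : Type} (E : X → X → Prop) (A B : Finset X) :
    (ec E A B : ℝ) ≤ (A.card : ℝ) * B.card := by
  classical
  have : ec E A B ≤ A.card * B.card := (card_filter_le _ _).trans_eq (card_product A B)
  exact_mod_cast this

theorem extS : EXT := by
  intro X _ E A B e M M' he hM hM' hA hB h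
  obtain ⟨⟨T, T'⟩, hT, hm⟩ := exists_max_image (A.powerset ×ˢ B.powerset)
    (fun p => (ec E p.1 p.2 : ℝ) ^ 20 / ((p.1.card : ℝ) * p.2.card) ^ 19) ⟨(A, B), by simp⟩
  obtain ⟨t1, t2⟩ : T ⊆ A ∧ T' ⊆ B := by simpa using hT
  have h0 : 0 < e * (M * M') := by positivity
  have a0 : (0 : ℝ) < (A.card : ℝ) * B.card := (h0.trans_le h).trans_le (Ext.ec_le E A B)
  have k1 : e ^ 20 * (M * M') ≤ (ec E T T' : ℝ) ^ 20 / ((T.card : ℝ) * T'.card) ^ 19 := by
    refine le_trans ?_ (hm (A, B) (by simp))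
    rw [show e ^ 20 * (M * M') = (e * (M * M')) ^ 20 / (M * M') ^ 19 by field_simp]
    gcongr
  have k0 : 0 < e ^ 20 * (M * M') := by positivity
  have p : (0 : ℝ) < ec E T T' := by
    by_contra n
    rw [le_antisymm (not_lt.1 n) (Nat.cast_nonneg _)] at k1
    simp only [ne_eq, OfNat.ofNat_ne_zero, not_false_eq_true, zero_pow, zero_div] at k1
    linarith
  have l := Ext.ec_le E T T'
  have q := p.trans_le l
  have c1 : (T.card : ℝ) ≤ M := le_trans (by exact_mod_cast card_le_card t1) hA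
  have c2 : (T'.card : ℝ) ≤ M' := le_trans (by exact_mod_cast card_le_card t2) hB
  rw [le_div_iff₀ (by positivity)] at k1
  have k2 : e ^ 20 * (M * M') ≤ (T.card : ℝ) * T'.card :=
    le_of_mul_le_mul_right (k1.trans ((pow_le_pow_left₀ p.le l 20).trans_eq (by ring)))
      (pow_pos q 19)
  refine ⟨T, t1, T', t2, le_of_mul_le_mul_right ?_ hM', le_of_mul_le_mul_left ?_ hM,
    by exact_mod_cast p, ?_, fun S s1 S' s2 => ?_⟩
  · exact (mul_assoc _ _ _).trans_le (k2.trans (by gcongr))
  · exact (mul_left_comm _ _ _).trans_le (k2.trans (by gcongr))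
  · refine le_of_pow_le_pow_left₀ (n := 20) (by norm_num) p.le (le_trans ?_ k1)
    rw [mul_pow, pow_succ' ((T.card : ℝ) * T'.card) 19, ← mul_assoc]
    gcongr
  · rcases (Nat.cast_nonneg (α := ℝ) (ec E S S')).eq_or_lt with z | z
    · rw [← z, zero_pow (by norm_num), zero_mul]
      positivity
    · have := hm (S, S') (by simpa using ⟨s1.trans t1, s2.trans t2⟩)
      rwa [div_le_div_iff₀ (pow_pos (z.trans_le (Ext.ec_le E S S')) 19) (pow_pos q 19)] at this

end Pool.Agent.MP_6c3157_co.PQ
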