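import Pool.Agent.MP_6c3157_co.PQ.BasicB

/-! Project PQ, part B: the weight function and the windows of small cells. -/

set_option autoImplicit false

noncomputable section

namespace Pool.Agent.MP_6c3157_co.PQ

open Finset Pool.Agent.MP_6c3157_co.PD

namespace Gf

theorem mix {κ u v w : ℝ} (hv : 0 ≤ v) (hw : 0 ≤ w) (h : w ^ 2 = u ^ 2 + v ^ 2) :
    min (w ^ 2) (κ * w) ≤ u ^ 2 + κ * v := by
  rcases le_total κ v with h1 | h1
  · refine (min_le_right _ _).trans ?_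
    have h2 : v ≤ w := abs_le_of_sq_le_sq' (by nlinarith [sq_nonneg u]) hw |>.2
    nlinarith [mul_nonneg (sub_nonneg.2 h2) (show 0 ≤ w + v - κ by linarith)]
  · refine (min_le_left _ _).trans ?_
    nlinarith [mul_nonneg hv (sub_nonneg.2 h1)]

theorem sub {κ u v w : ℝ} (hκ : 0 ≤ κ) (hu : 0 ≤ u) (hv : 0 ≤ v) (hw : 0 ≤ w)
    (h : w ^ 2 = u ^ 2 + v ^ 2) :
    min (w ^ 2) (κ * w) ≤ min (u ^ 2) (κ * u) + min (v ^ 2) (κ * v) := by
  rcases min_choice (u ^ 2) (κ * u) with h1 | h1 <;>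
    rcases min_choice (v ^ 2) (κ * v) with h2 | h2 <;> rw [h1, h2]
  · exact (min_le_left _ _).trans h.le
  · exact mix hv hw h
  · rw [add_comm]; exact mix hu hw (h.trans (add_comm _ _))
  · refine (min_le_right _ _).trans ?_
    have h3 : w ≤ u + v :=
      abs_le_of_sq_le_sq' (by nlinarith [mul_nonneg hu hv]) (add_nonneg hu hv) |>.2
    rw [← mul_add]
    exact mul_le_mul_of_nonneg_left h3 hκ

theorem gf_eq (κ : ℝ) (k : ℕ) :
    gf κ k = min (Real.sqrt k ^ 2) (κ * Real.sqrt k) := by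
  rw [Real.sq_sqrt (Nat.cast_nonneg k)]; rfl

end Gf

theorem gfs : GF := by
  intro κ hκ
  have h0 : 0 ≤ κ := by linarith
  refine ⟨by simp [gf], fun k => ⟨le_min (Nat.cast_nonneg k) (by positivity), min_le_left _ _,
    min_le_right _ _⟩, fun k l h => ?_, fun k l => ?_, fun k h => ?_, fun k h => ?_⟩
  · have h1 : (k : ℝ) ≤ l := by exact_mod_cast h
    exact min_le_min h1 (mul_le_mul_of_nonneg_left (Real.sqrt_le_sqrt h1) h0)
  · rw [Gf.gf_eq, Gf.gf_eq, Gf.gf_eq]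
    refine Gf.sub h0 (Real.sqrt_nonneg _) (Real.sqrt_nonneg _) (Real.sqrt_nonneg _) ?_
    rw [Real.sq_sqrt (Nat.cast_nonneg _), Real.sq_sqrt (Nat.cast_nonneg _),
      Real.sq_sqrt (Nat.cast_nonneg _), Nat.cast_add]
  · have h1 : (1 : ℝ) ≤ k := by exact_mod_cast h
    exact le_min h1 (one_le_mul_of_one_le_of_one_le hκ (Real.one_le_sqrt.2 h1))
  · refine min_eq_left ?_
    have h1 : Real.sqrt k ≤ κ := Real.sqrt_le_iff.2 ⟨h0, h⟩
    calc (k : ℝ) = Real.sqrt k * Real.sqrt k := (Real.mul_self_sqrt (Nat.cast_nonneg k)).symm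
      _ ≤ κ * Real.sqrt k := mul_le_mul_of_nonneg_right h1 (Real.sqrt_nonneg _)

theorem winb : WIN := by
  intro X _ c hv Y σ a l hc hσ ha hl x hx
  have hA : 0 < a / c.lam := div_pos ha hc.lam_pos
  have h1 : ∀ z, win c hv Y σ a l x z = c.W fun i => (c.small hv Y σ i ∧ x ∈ i.2 ∧
      a / c.lam * Real.exp (-(l / 2)) ≤ c.ρ i ∧ c.ρ i < a / c.lam) ∧ z ∈ i.2 := fun z =>
    Cells.W_congr fun i _ => by tauto
  have h2 : a / c.lam * Real.exp (-(l / 2)) ≤ a / c.lam :=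
    mul_le_of_le_one_right hA.le (Real.exp_le_one_iff.2 (by linarith))
  have h3 := hc.c2 x _ _ (mul_pos hA (Real.exp_pos _)) h2
  have h4 : a / c.lam / (a / c.lam * Real.exp (-(l / 2))) = Real.exp (l / 2) := by
    rw [div_mul_cancel_left₀ hA.ne', Real.exp_neg, inv_inv]
  rw [h4, Real.log_exp] at h3
  have h5 : 0 ≤ σ * Y.card := mul_nonneg hσ (Nat.cast_nonneg _)
  calc ∑ z ∈ Y.erase x, win c hv Y σ a l x z ≤ ∑ z ∈ Y, win c hv Y σ a l x z :=
        sum_le_sum_of_subset_of_nonneg (erase_subset _ _) fun z _ _ => win_nonneg hc a l x z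
    _ = c.WS (fun i => c.small hv Y σ i ∧ x ∈ i.2 ∧ a / c.lam * Real.exp (-(l / 2)) ≤ c.ρ i ∧
          c.ρ i < a / c.lam) fun i => ((Y ∩ i.2).card : ℝ) := by
        simp only [h1]; exact Cells.sum_W Y
    _ ≤ c.WS (fun i => x ∈ i.2 ∧ a / c.lam * Real.exp (-(l / 2)) ≤ c.ρ i ∧ c.ρ i < a / c.lam)
          fun _ => σ * Y.card :=
        Cells.WS_mono hc (fun i hi h => ⟨h.2, (small_card hc hi h.1 hx h.2.1).le⟩)
          fun _ _ _ => h5
    _ ≤ _ := by rw [Cells.WS_const]; exact mul_le_mul_of_nonneg_left h3 h5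

end Pool.Agent.MP_6c3157_co.PQ
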