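import Pool.Agent.MP_6c3157_co.PQ.SpecF

/-! Project PQ, row NUMA: three inequalities between the constants. -/

set_option autoImplicit false

noncomputable section

namespace Pool.Agent.MP_6c3157_co.PQ

open Finset Pool.Agent.MP_6c3157_co.PD

namespace NumA

lemma key {x y c d : ℝ} (n : ℕ) (hx : 0 < x) (hy : 0 < y) (h : c * (x / y) ^ n ≤ d) :
    c * y ^ (-(n : ℝ)) ≤ d * x ^ (-(n : ℝ)) := by
  rw [Real.rpow_neg hx.le, Real.rpow_neg hy.le, Real.rpow_natCast, Real.rpow_natCast]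
  have hx' : 0 < x ^ n := pow_pos hx n
  have := mul_le_mul_of_nonneg_right h (inv_nonneg.2 hx'.le)
  refine le_trans (le_of_eq ?_) this
  rw [div_pow]
  field_simp

end NumA

theorem numA (M : ℕ) (th a N l u : ℝ) (k : ℕ) (h0 : 0 < th) (h1 : th ≤ 1)
    (ha : a = ((10 * M + k : ℕ) : ℝ))
    (hk : 10 ^ 8 * (1599 / 1600 : ℝ) ^ k ≤ (th / 10 ^ 8) ^ (M + 1)) (hkM : 2 * M ≤ k)
    (hN : 10 ^ 8 / th ≤ N) (hl : 1 ≤ l) (hl2 : 400 * l ≤ N) (hl3 : N ≤ l ^ 2)
    (hu : u = th / (10 ^ 8 * (N / l) ^ 2)) :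
    (∀ t : ℝ, 0 ≤ t → t ≤ (1 - 1 / 800) * N →
      10 ^ 8 * (1 + N) ^ (-a) ≤ th ^ (M + 1) * (1 + t) ^ (-a)) ∧
    (1 + N) ^ (-a) ≤ u ^ M ∧ 10 ^ 8 * (1 + N) ^ (-a) ≤ u ^ M * (1 + 100 * l) ^ (-a) := by
  subst ha
  have N1 : 1 ≤ N := by linarith
  have N0 : 0 < N := by linarith
  have l0 : 0 < l := by linarith
  have q0 : 0 ≤ th / 10 ^ 8 := by positivity
  have q1 : th / 10 ^ 8 ≤ th := div_le_self h0.le (by norm_num)
  have L4 : 400 ≤ N / l := by rwa [le_div_iff₀ l0]
  refine ⟨fun t t0 t1 => NumA.key _ (by linarith) (by linarith) ?_, ?_,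
    NumA.key _ (by linarith) (by linarith) ?_⟩
  · have b : (1 + t) / (1 + N) ≤ 1599 / 1600 := by
      rw [div_le_iff₀ (by linarith)]; linarith
    have c : ((1 + t) / (1 + N)) ^ (10 * M + k) ≤ (1599 / 1600 : ℝ) ^ k :=
      (pow_le_pow_left₀ (by positivity) b _).trans
        (pow_le_pow_of_le_one (by norm_num) (by norm_num) (by omega))
    exact ((mul_le_mul_of_nonneg_left c (by norm_num)).trans hk).trans
      (pow_le_pow_left₀ q0 q1 _)
  · have b : (N ^ 2)⁻¹ ≤ u := by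
      have e : (N / l) ^ 2 ≤ N := by
        rw [div_pow, div_le_iff₀ (by positivity)]
        nlinarith
      have f : 10 ^ 8 ≤ N * th := by rwa [div_le_iff₀ h0] at hN
      rw [hu, inv_eq_one_div, div_le_div_iff₀ (by positivity) (by positivity)]
      nlinarith
    rw [Real.rpow_neg (by linarith), Real.rpow_natCast]
    refine le_trans ?_ (pow_le_pow_left₀ (by positivity) b M)
    rw [inv_pow, ← pow_mul]
    refine inv_anti₀ (by positivity) ?_
    exact (pow_le_pow_right₀ N1 (by omega)).trans (pow_le_pow_left₀ N0.le (by linarith) _)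
  · have b : (1 + 100 * l) / (1 + N) ≤ 101 / (N / l) := by
      rw [div_div_eq_mul_div, div_le_div_iff₀ (by linarith) N0]
      nlinarith
    rw [hu]
    generalize N / l = L at *
    have L0 : 0 < L := by linarith
    have c : (101 / L) ^ 10 ≤ (L ^ 2)⁻¹ := by
      have : (400 : ℝ) ^ 8 ≤ L ^ 8 := pow_le_pow_left₀ (by norm_num) L4 8
      rw [div_pow, inv_eq_one_div, div_le_div_iff₀ (by positivity) (by positivity),
        show L ^ 10 = L ^ 8 * L ^ 2 by ring, one_mul]
      exact mul_le_mul_of_nonneg_right (le_trans (by norm_num) this) (by positivity)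
    have d : 101 / L ≤ 1599 / 1600 := by
      rw [div_le_iff₀ L0]; linarith
    have e : ((1 + 100 * l) / (1 + N)) ^ (10 * M + k) ≤ (L ^ 2)⁻¹ ^ M * (1599 / 1600 : ℝ) ^ k := by
      refine (pow_le_pow_left₀ (by positivity) b _).trans ?_
      rw [pow_add, pow_mul]
      exact mul_le_mul (pow_le_pow_left₀ (by positivity) c M)
        (pow_le_pow_left₀ (by positivity) d k) (by positivity) (by positivity)
    have f : (th / 10 ^ 8) ^ (M + 1) ≤ (th / 10 ^ 8) ^ M :=
      pow_le_pow_of_le_one q0 (q1.trans h1) (Nat.le_succ M)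
    refine (mul_le_mul_of_nonneg_left e (by norm_num)).trans ?_
    rw [mul_left_comm, ← div_div, div_eq_mul_inv (th / 10 ^ 8), mul_pow, mul_comm]
    exact mul_le_mul_of_nonneg_right (hk.trans f) (by positivity)

end Pool.Agent.MP_6c3157_co.PQ
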