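import Pool.Agent.MP_6c3157_co.PD.Basic

/-! Project PQ, part A: arithmetic data, box determinants, double cells and curves. -/

set_option autoImplicit false
set_option linter.unusedSectionVars false

noncomputable section

namespace Pool.Agent.MP_6c3157_co.PQ

open Finset Pool.Agent.MP_6c3157_co.PD

/-- coordinates in a field and the absolute values behind a system -/
structure Ari (X PL K : Type) [Field K] where
  U : X → K
  V : X → K
  av : PL → AbsoluteValue K ℝ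
  sd : PL → Bool
  ar : PL → ℝ

section defs

variable {X PL K : Type} [DecidableEq X] [Field K]

/-- the coordinate seen at `p` -/
def Ari.co (A : Ari X PL K) (p : PL) : X → K := bif A.sd p then A.U else A.V

/-- differences of coordinates -/
def Ari.dif (A : Ari X PL K) : Set K := {a | ∃ x y, a = A.U x - A.U y ∨ a = A.V x - A.V y}

/-- `x` lies on the bisector of `y` and `z` -/
def Ari.bis (A : Ari X PL K) (x y z : X) : Prop :=
  (A.U x - A.U y) * (A.V x - A.V y) = (A.U x - A.U z) * (A.V x - A.V z)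

/-- five shifted partitions at every radius -/
def Part (d : X → X → ℝ) (lam : ℝ) : Prop :=
  ∀ r : ℝ, 0 < r → ∃ g : Fin 5 → X → ℕ, (∀ j x y, g j x = g j y → d x y ≤ lam ^ 3 * r) ∧
    ∀ x y, d x y ≤ r → ((univ : Finset (Fin 5)).filter fun j => g j x ≠ g j y).card ≤ 2

/-- the monomials of the box of size `k` at the point `z`, with base `(u, v)` -/
def Ari.row (A : Ari X PL K) (u v : K) (k : ℕ) (z : X) : Fin k × Fin k → K :=
  fun a => (A.U z - u) ^ (a.1 : ℕ) * (A.V z - v) ^ (a.2 : ℕ)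

/-- the box function with coefficients `f` -/
def Ari.box (A : Ari X PL K) (u v : K) (k : ℕ) (f : Fin k × Fin k → K) (z : X) : K :=
  ∑ a, f a * A.row u v k z a

open Classical in
/-- nonzero box functions of size `k` have at most `ν` zeros in `T` -/
def Ari.Free (A : Ari X PL K) (T : Finset X) (k : ℕ) (ν : ℝ) : Prop :=
  ∀ (u v : K) (f : Fin k × Fin k → K), f ≠ 0 →
    ((T.filter fun z => A.box u v k f z = 0).card : ℝ) ≤ ν

/-- a box function of size `k` vanishes on `T` and not at `y` -/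
def Ari.Off (A : Ari X PL K) (T : Finset X) (k : ℕ) (y : X) : Prop :=
  ∀ u v : K, ∃ f : Fin k × Fin k → K, (∀ z ∈ T, A.box u v k f z = 0) ∧ A.box u v k f y ≠ 0

/-- the rows of the points of `F` are independent -/
def Ari.Ind (A : Ari X PL K) (u v : K) (k : ℕ) (F : Finset X) : Prop :=
  LinearIndependent K fun z : F => A.row u v k z.1

variable [Fintype PL]

/-- the properties of the arithmetic data -/
structure Ari.Good (A : Ari X PL K) (s : Sys X PL) (η : ℝ) : Prop where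
  good : s.Good
  U_inj : Function.Injective A.U
  V_inj : Function.Injective A.V
  lab : ∀ x y z, s.lab x y = s.lab x z → A.bis x y z
  d_eq : ∀ p x y, (s.c p).d x y = A.av p (A.co p x - A.co p y)
  bar_bar : ∀ p, s.bar (s.bar p) = p
  av_bar : ∀ p, A.av (s.bar p) = A.av p
  sd_bar : ∀ p, A.sd (s.bar p) = !A.sd p
  eta_pos : ∀ p, 0 < (s.c p).eta
  eta_sum : ∑ p, s.m p * (s.c p).eta ≤ η
  pfge : ∀ a ∈ Subring.closure A.dif, a ≠ 0 → 0 ≤ ∑ p, s.m p * Real.log (A.av p a)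
  ar_eq : ∀ p, A.ar p = 1 ∨ (A.ar p = 0 ∧ ∀ a b, A.av p (a + b) ≤ max (A.av p a) (A.av p b))
  ar_sum : ∑ p, s.m p * A.ar p ≤ 2
  part : ∀ p, Part (s.c p).d (s.c p).lam

/-- depth of a pair at `p` -/
def dep (s : Sys X PL) (R : PL → ℝ) (p : PL) (x y : X) : ℝ := Real.log (R p / (s.c p).d x y)

/-- double depth at `p` -/
def dd (s : Sys X PL) (R : PL → ℝ) (p : PL) (x y : X) : ℝ :=
  max 0 (min (dep s R p x y) (dep s R (s.bar p) x y))

/-- total double depth -/
def del (s : Sys X PL) (R : PL → ℝ) (x y : X) : ℝ := ∑ p, s.m p * dd s R p x y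

/-- central radii with few outliers -/
structure Cen (s : Sys X PL) (Z : Finset X) (R : PL → ℝ) (G : PL → X → ℝ) (W ε : ℝ) : Prop where
  R_pos : ∀ p, 0 < R p
  W_eq : W = ∑ p, s.m p * Real.log (R p)
  e_pos : 0 < ε
  e_le : ε ≤ 1 / 100
  eW : 20 ≤ ε * W
  G_lo : ∀ p x, 0 ≤ G p x
  G_sum : ∀ x ∈ Z, ∑ p, s.m p * G p x ≤ ε * W
  out : ∀ p, ∀ x ∈ Z, ∀ y ∈ Z,
    (s.c p).d x y ≤ (s.c p).lam * R p * Real.exp (max (G p x) (G p y))

/-- weighted partitions into double cells -/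
structure Dbl (X PL : Type) where
  N : ℕ
  om : Fin N → ℝ
  cl : Fin N → X → ℕ
  pl : Fin N → PL
  lv : Fin N → ℝ

open Classical in
/-- the properties of the double cells -/
structure Dbl.Good (D : Dbl X PL) (s : Sys X PL) (R : PL → ℝ) : Prop where
  om_lo : ∀ i, 0 ≤ D.om i
  lv_pos : ∀ i, 0 < D.lv i
  lv_sum : ∀ t : PL → ℝ, (∀ p, 0 ≤ t p) →
    (∑ i, if D.lv i ≤ t (D.pl i) then D.om i else 0) ≤ 5 * ∑ p, s.m p * t p
  same : ∀ i x y, x ≠ y → D.cl i x = D.cl i y →
    D.lv i ≤ min (dep s R (D.pl i) x y) (dep s R (s.bar (D.pl i)) x y) + 3 * (s.c (D.pl i)).xi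
  low : ∀ x y, x ≠ y → del s R x y ≤ 20 + ∑ i, if D.cl i x = D.cl i y then D.om i else 0

/-- points of `T` in the cell of `y` -/
def Dbl.cell (D : Dbl X PL) (i : Fin D.N) (T : Finset X) (y : X) : Finset X :=
  T.filter fun z => D.cl i z = D.cl i y

/-- share of `T` in the cell of `y` -/
def Dbl.sh (D : Dbl X PL) (i : Fin D.N) (T : Finset X) (y : X) : ℝ :=
  ((D.cell i T y).card : ℝ) / T.card

open Classical in
/-- sum of weight times both shares over the cells whose `T` share is at most `a` -/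
def Dbl.S (D : Dbl X PL) (T T' : Finset X) (a : ℝ) : ℝ :=
  (∑ y ∈ T', ∑ i, if D.sh i T y ≤ a then D.om i * D.sh i T y else 0) / T'.card

open Classical in
/-- weight of the cells of `y` that meet `F` -/
def Dbl.hit (D : Dbl X PL) (F : Finset X) (y : X) : ℝ :=
  ∑ i, if (D.cell i F y).Nonempty then D.om i else 0

end defs

/-! ### rows: the system -/

/-- partitions at a finite place and at a complex place -/
def PART : Prop :=
  (∀ (X : Type) [Fintype X] [DecidableEq X] (d : X → X → ℝ), (∀ x, d x x = 0) →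
    (∀ x y, d x y = d y x) → (∀ x y z, d x z ≤ max (d x y) (d y z)) → Part d 1) ∧
  ∀ (X : Type) [DecidableEq X] (e : X → ℂ), Part (fun x y => ‖e x - e y‖) 2

/-- the places that matter, with the product formula on the ring of `F` -/
def PLC2 : Prop :=
  ∀ (K : Type) [Field K] [NumberField K] (F : Finset K),
    ∃ B : Finset (NumberField.FinitePlace K),
      (∀ a ∈ F, a ≠ 0 → (∑ v : NumberField.InfinitePlace K, (v.mult : ℝ) * Real.log (v a)) +
        ∑ v ∈ B, Real.log (v a) = 0) ∧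
      ∀ a ∈ Subring.closure (F : Set K), a ≠ 0 →
        0 ≤ (∑ v : NumberField.InfinitePlace K, (v.mult : ℝ) * Real.log (v a)) +
          ∑ v ∈ B, Real.log (v a)

/-- the system with its arithmetic data -/
def SYS2 : Prop :=
  ∀ (X : Type) [Fintype X] [DecidableEq X] (K : Type) [Field K] [NumberField K] (U V : X → K)
    (lab : X → X → ℝ) (η : ℝ), 0 < η → Function.Injective U → Function.Injective V →
    (∀ x y z, lab x y = lab x z → (U x - U y) * (V x - V y) = (U x - U z) * (V x - V z)) →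
    ∃ (PL : Type) (_ : Fintype PL) (s : Sys X PL) (A : Ari X PL K), A.Good s η ∧ s.lab = lab

open Classical in
/-- two bisectors of one point share at most one point; incidences -/
def INC : Prop :=
  ∀ (X PL K : Type) [DecidableEq X] [Field K] (A : Ari X PL K), Function.Injective A.U →
    Function.Injective A.V → ∀ y : X,
    (∀ z z' x x', z ≠ y → z' ≠ y → z ≠ z' → A.bis x y z → A.bis x y z' → A.bis x' y z →
      A.bis x' y z' → x = x') ∧
    ∀ Y B : Finset X, y ∉ B →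
      ∑ x ∈ Y, (B.filter fun z => A.bis x y z).card ≤ Y.card + B.card ^ 2

/-! ### rows: depths -/

/-- sums of depths -/
def DEP : Prop :=
  ∀ (X PL : Type) [DecidableEq X] [Fintype PL] (s : Sys X PL) (Z : Finset X) (R : PL → ℝ)
    (G : PL → X → ℝ) (W ε : ℝ), s.Good → Cen s Z R G W ε → ∀ x ∈ Z, ∀ y ∈ Z, x ≠ y →
    (∑ p, s.m p * dep s R p x y = W) ∧
    (∑ p, s.m p * max 0 (-dep s R p x y) ≤ 3 * ε * W) ∧
    (∑ p, s.m p * max 0 (dep s R p x y) ≤ (1 + 3 * ε) * W) ∧ del s R x y ≤ (1 + 3 * ε) * W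

/-- two points of one fibre: double depth against the distance of the depth vectors -/
def APEX : Prop :=
  ∀ (X PL K : Type) [DecidableEq X] [Fintype PL] [Field K] (s : Sys X PL) (A : Ari X PL K)
    (η : ℝ) (Z : Finset X) (R : PL → ℝ) (G : PL → X → ℝ) (W ε : ℝ), A.Good s η →
    Cen s Z R G W ε → ∀ x ∈ Z, ∀ y ∈ Z, ∀ z ∈ Z, y ≠ x → z ≠ x → y ≠ z → s.lab x y = s.lab x z →
    (∀ p, dep s R p y z - dep s R (s.bar p) y z = dep s R p x z - dep s R (s.bar p) x y) ∧
    (∑ p, s.m p * |dep s R p x y - dep s R p x z|) / 2 - 12 * ε * W ≤ del s R y z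

/-- two pins of one base see the slope of the base -/
def SLOPE : Prop :=
  ∀ (X PL K : Type) [DecidableEq X] [Fintype PL] [Field K] (s : Sys X PL) (A : Ari X PL K)
    (η : ℝ) (R : PL → ℝ), A.Good s η → (∀ p, 0 < R p) → ∀ x x' y z, x ≠ x' → y ≠ z →
    A.bis x y z → A.bis x' y z →
    ∀ p, dep s R p x x' - dep s R (s.bar p) x x' = dep s R p y z - dep s R (s.bar p) y z

/-- the double cells exist -/
def DBL : Prop :=
  ∀ (X PL K : Type) [DecidableEq X] [Fintype PL] [Field K] (s : Sys X PL) (A : Ari X PL K)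
    (η : ℝ) (R : PL → ℝ), A.Good s η → (∀ p, 0 < R p) → ∃ D : Dbl X PL, D.Good s R

open Classical in
/-- weight of the double cells of a pair, and of the cells that meet a set -/
def DPW : Prop :=
  ∀ (X PL : Type) [DecidableEq X] [Fintype PL] (s : Sys X PL) (Z : Finset X) (R : PL → ℝ)
    (G : PL → X → ℝ) (W ε : ℝ) (D : Dbl X PL), s.Good → Cen s Z R G W ε → D.Good s R →
    (∀ x ∈ Z, ∀ y ∈ Z, x ≠ y → (∑ i, if D.cl i x = D.cl i y then D.om i else 0) ≤ 6 * W) ∧
    ∀ (F : Finset X) (y : X), y ∉ F → F.Nonempty → ∃ pt : PL → X, (∀ p, pt p ∈ F) ∧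
      (∀ p, ∀ z ∈ F, dd s R p y z ≤ dd s R p y (pt p)) ∧
      D.hit F y ≤ 5 * (∑ p, s.m p * dd s R p y (pt p)) + 300

/-! ### rows: determinants -/

/-- a nonzero minor of independent rows -/
def MINOR : Prop :=
  ∀ (K α β : Type) [Field K] [Fintype α] [DecidableEq α] [Fintype β] (M : α → β → K),
    LinearIndependent K M → ∃ J : α → β, Function.Injective J ∧
      (Matrix.of fun a b : α => M a (J b)).det ≠ 0

/-- subtracting combinations of fixed rows keeps the determinant -/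
def ROWOP : Prop :=
  ∀ (K α : Type) [Field K] [Fintype α] [DecidableEq α] (M M' : Matrix α α K) (I : Finset α),
    (∀ a, a ∉ I → M' a = M a) →
    (∀ a ∈ I, M a - M' a ∈ Submodule.span K (M '' {b | b ∉ I})) → M'.det = M.det

/-- size of a determinant at one absolute value -/
def DBD : Prop :=
  ∀ (K α : Type) [Field K] [Fintype α] [DecidableEq α] (v : AbsoluteValue K ℝ) (ar : ℝ)
    (M : Matrix α α K) (f g : α → ℝ),
    (ar = 1 ∨ (ar = 0 ∧ ∀ a b, v (a + b) ≤ max (v a) (v b))) → M.det ≠ 0 →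
    (∀ a b, v (M a b) ≤ Real.exp (f a + g b)) →
    Real.log (v M.det) ≤
      (∑ a, f a) + (∑ b, g b) + ar * (Fintype.card α * Real.log (Fintype.card α))

/-- difference of two monomials -/
def MON : Prop :=
  ∀ (K : Type) [Field K] (v : AbsoluteValue K ℝ) (ar : ℝ) (a a' b b' : K) (P Q t : ℝ) (i j k : ℕ),
    (ar = 1 ∨ (ar = 0 ∧ ∀ a b, v (a + b) ≤ max (v a) (v b))) → 0 < P → 0 < Q → 0 ≤ t →
    i < k → j < k → v a ≤ P → v a' ≤ P → v b ≤ Q → v b' ≤ Q → v (a - a') ≤ t * P →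
    v (b - b') ≤ t * Q →
    v (a ^ i * b ^ j - a' ^ i * b' ^ j) ≤ Real.exp (ar * Real.log (2 * k)) * t * (P ^ i * Q ^ j)

/-- the determinant inequality -/
def DET : Prop :=
  ∀ (X PL K : Type) [DecidableEq X] [Fintype PL] [Field K] (s : Sys X PL) (A : Ari X PL K)
    (η : ℝ) (Z : Finset X) (R : PL → ℝ) (G : PL → X → ℝ) (W ε : ℝ), A.Good s η →
    Cen s Z R G W ε → ∀ z₀ ∈ Z, ∀ (k : ℕ) (F I : Finset X) (pt : PL → X → X), F ⊆ Z → I ⊆ F →
    A.Ind (A.U z₀) (A.V z₀) k F →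
    (∀ p, ∀ y ∈ I, pt p y ∈ Z ∧ pt p y ≠ y ∧ A.row (A.U z₀) (A.V z₀) k (pt p y) ∈
      Submodule.span K (A.row (A.U z₀) (A.V z₀) k '' (↑(F \ I) : Set X))) →
    ∑ y ∈ I, ∑ p, s.m p * dd s R p y (pt p y) ≤ 3 * F.card * k * W

/-- one more independent row outside a small set -/
def GROW : Prop :=
  ∀ (X PL K : Type) [DecidableEq X] [Field K] (A : Ari X PL K) (u v : K) (k : ℕ) (ν : ℝ)
    (T : Finset X), A.Free T k ν →
    (∀ F : Finset X, A.Ind u v k F → F.card < k * k → ∃ B ⊆ T, (B.card : ℝ) ≤ ν ∧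
      ∀ z ∈ T, z ∉ B → z ∉ F ∧ A.Ind u v k (insert z F)) ∧
    ∀ (F T₁ : Finset X), A.Ind u v k F → T₁ ⊆ T → ν < T₁.card → F.card ≤ k * k →
      ∃ F₁ ⊆ T₁, Disjoint F F₁ ∧ F.card + F₁.card = k * k ∧ A.Ind u v k (F ∪ F₁)

/-- greedy choice of points that meet many light cells -/
def GREEDY : Prop :=
  ∀ (X PL K : Type) [DecidableEq X] [Field K] (A : Ari X PL K) (u v : K) (D : Dbl X PL)
    (k l : ℕ) (M : ℝ) (T T' : Finset X), (∀ i, 0 ≤ D.om i) → 0 < k → 2 * l ≤ k * k →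
    T.Nonempty → T'.Nonempty → A.Free T k (T.card / (k + 1)) →
    (∀ z ∈ T, ∀ y ∈ T', (∑ i, if D.cl i z = D.cl i y then D.om i else 0) ≤ M) →
    ∃ F ⊆ T, F.card = l ∧ A.Ind u v k F ∧
      2 * l * (D.S T T' (1 / (k : ℝ) ^ 2) - M / k) ≤ 3 * ((∑ y ∈ T', D.hit F y) / T'.card)

/-- light double cells off curves -/
def DL : Prop :=
  ∀ (X PL K : Type) [DecidableEq X] [Fintype PL] [Field K] (s : Sys X PL) (A : Ari X PL K)
    (η : ℝ) (Z : Finset X) (R : PL → ℝ) (G : PL → X → ℝ) (W ε : ℝ) (D : Dbl X PL), A.Good s η →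
    Cen s Z R G W ε → D.Good s R → ∀ (T T' : Finset X) (k : ℕ), T ⊆ Z → T' ⊆ Z → Disjoint T T' →
    T.Nonempty → T'.Nonempty → 2 ≤ k → A.Free T k (T.card / (k + 1)) →
    A.Free T' k (T'.card / (k + 1)) → D.S T T' (1 / (k : ℝ) ^ 2) ≤ 300 * W / k

/-- cells of a point off a curve that meet the curve -/
def XD : Prop :=
  ∀ (X PL K : Type) [DecidableEq X] [Fintype PL] [Field K] (s : Sys X PL) (A : Ari X PL K)
    (η : ℝ) (Z : Finset X) (R : PL → ℝ) (G : PL → X → ℝ) (W ε : ℝ) (D : Dbl X PL), A.Good s η →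
    Cen s Z R G W ε → D.Good s R → ∀ (T : Finset X) (k : ℕ) (y : X), T ⊆ Z → y ∈ Z → 1 ≤ k →
    A.Off T k y → D.hit T y ≤ 16 * (k : ℝ) ^ 3 * W

/-! ### rows: curves -/

/-- value of a polynomial in two variables at a point -/
def Ari.ev {X PL K : Type} [Field K] (A : Ari X PL K) (f : MvPolynomial (Fin 2) K) (z : X) : K :=
  MvPolynomial.eval ![A.U z, A.V z] f

/-- the larger of the two degrees -/
def bd {K : Type} [Field K] (f : MvPolynomial (Fin 2) K) : ℕ := max (f.degreeOf 0) (f.degreeOf 1)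

open Classical in
/-- common zeros of an irreducible polynomial and a non multiple -/
def BZ : Prop :=
  ∀ (X PL K : Type) [DecidableEq X] [Field K] (A : Ari X PL K), Function.Injective A.U →
    ∀ (f g : MvPolynomial (Fin 2) K) (b : ℕ) (T : Finset X), Irreducible f → ¬ f ∣ g →
    bd f ≤ b → bd g ≤ b → (T.filter fun z => A.ev f z = 0 ∧ A.ev g z = 0).card ≤ 2 * b ^ 2

/-- box functions are the polynomials of small degree in each variable -/
def BOXP : Prop :=
  ∀ (X PL K : Type) [DecidableEq X] [Field K] (A : Ari X PL K) (u v : K) (k : ℕ),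
    (∀ f : Fin k × Fin k → K, f ≠ 0 → ∃ g : MvPolynomial (Fin 2) K, g ≠ 0 ∧ bd g < k ∧
      ∀ z, A.ev g z = A.box u v k f z) ∧
    ∀ g : MvPolynomial (Fin 2) K, bd g < k → ∃ f : Fin k × Fin k → K,
      ∀ z, A.box u v k f z = A.ev g z

open Classical in
/-- a bisector meets a curve in few points, with one exception -/
def LINE : Prop :=
  ∀ (X PL K : Type) [DecidableEq X] [Field K] (A : Ari X PL K), Function.Injective A.U →
    Function.Injective A.V → ∀ (f : MvPolynomial (Fin 2) K) (T : Finset X) (y : X),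
    Irreducible f → (∀ x ∈ T, A.ev f x = 0) → ∃ e : X, ∀ z, z ≠ y → z ≠ e →
      (T.filter fun x => A.bis x y z).card ≤ 2 * bd f

open Classical in
/-- few zeros when no irreducible curve is rich -/
def POOR : Prop :=
  ∀ (X PL K : Type) [DecidableEq X] [Field K] (A : Ari X PL K) (T : Finset X) (b : ℕ) (ν : ℝ),
    0 ≤ ν → (∀ f : MvPolynomial (Fin 2) K, Irreducible f → bd f ≤ b →
      ((T.filter fun z => A.ev f z = 0).card : ℝ) ≤ ν) →
    ∀ g : MvPolynomial (Fin 2) K, g ≠ 0 → bd g ≤ b →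
      ((T.filter fun z => A.ev g z = 0).card : ℝ) ≤ 2 * b * ν

open Classical in
/-- greedy choice of rich curves -/
def RICH : Prop :=
  ∀ (X PL K : Type) [DecidableEq X] [Field K] (A : Ari X PL K) (Q : Finset X) (b : ℕ) (ν : ℝ),
    0 ≤ ν → ∃ (C : Finset (Finset X)) (f : Finset X → MvPolynomial (Fin 2) K),
      (∀ P ∈ C, P ⊆ Q ∧ ν < P.card ∧ Irreducible (f P) ∧ bd (f P) ≤ b ∧ 1 ≤ bd (f P) ∧
        ∀ z ∈ P, A.ev (f P) z = 0) ∧
      (∀ P ∈ C, ∀ P' ∈ C, P ≠ P' → Disjoint P P' ∧ ¬ f P ∣ f P') ∧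
      ∀ g : MvPolynomial (Fin 2) K, Irreducible g → bd g ≤ b →
        (((Q \ C.biUnion id).filter fun z => A.ev g z = 0).card : ℝ) ≤ ν

open Classical in
/-- the classes -/
def CLS : Prop :=
  ∀ (X PL K : Type) [DecidableEq X] [Field K] (A : Ari X PL K), Function.Injective A.U →
    Function.Injective A.V → ∀ (Q : Finset X) (b : ℕ) (ν : ℝ), 0 ≤ ν →
    ∃ (C : Finset (Finset X)) (β : Finset X → ℕ),
      (∀ P ∈ C, P ⊆ Q ∧ ν < P.card ∧ 1 ≤ β P ∧ β P ≤ b ∧
        (∀ k ≤ β P, A.Free P k (2 * (b : ℝ) ^ 2)) ∧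
        ∀ y, ∃ e : X, ∀ z, z ≠ y → z ≠ e → (P.filter fun x => A.bis x y z).card ≤ 2 * β P) ∧
      (∀ P ∈ C, ∀ P' ∈ C, P ≠ P' → Disjoint P P' ∧ ∃ E : Finset X, E.card ≤ 2 * b ^ 2 ∧
        ∀ y ∈ P', y ∉ E → A.Off P (β P + 1) y) ∧
      ∀ k ≤ b, A.Free (Q \ C.biUnion id) k (2 * b * ν)

end Pool.Agent.MP_6c3157_co.PQ
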