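import Pool.Agent.MP_6c3157_co.PQ.SpecI

/-! Project PQ, part B: step A for the potential, equidistribution, and the clean model. -/

set_option autoImplicit false
set_option linter.unusedSectionVars false

noncomputable section

namespace Pool.Agent.MP_6c3157_co.PQ

open Finset Pool.Agent.MP_6c3157_co.PD

section defs

variable {X PL : Type} [DecidableEq X]

/-- the geometric data fit `Y`, with the mass `τ` left outside the central ball -/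
structure GoodT (γ : Geo X) (c : Cells X) (Y : Finset X) (τ : ℝ) : Prop where
  cen_mem : γ.cen ∈ Y
  r_in : (1 - τ) * Y.card ≤ (c.ball Y γ.cen γ.r).card
  r_min : ∀ x ∈ Y, ∀ t < γ.r, ((c.ball Y x t).card : ℝ) < (1 - τ) * Y.card
  r_lo : 256 * c.rlo ≤ γ.r
  r_hi : γ.r ≤ c.rhi
  s_in : ∀ x ∈ Y, τ / 2 * Y.card ≤ (c.ball Y x (γ.rs x)).card
  s_min : ∀ x ∈ Y, ∀ t < γ.rs x, ((c.ball Y x t).card : ℝ) < τ / 2 * Y.card
  s_lo : ∀ x ∈ Y, 256 * c.rlo ≤ γ.rs x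
  s_hi : ∀ x ∈ Y, γ.rs x ≤ c.rhi

/-- everything known at one place -/
structure PT (c : Cells X) (hv : ℕ × Finset X → Prop) (Y : Finset X) (γ : Geo X) (τ : ℝ) :
    Prop where
  good : c.Good
  hvl : ∀ i ∈ c.I, hv i → Y.card ≤ 4 * (Y ∩ i.2).card
  lgt : ∀ i ∈ c.I, ¬ hv i → 4 * (Y ∩ i.2).card ≤ 3 * Y.card
  geo : GoodT γ c Y τ
  t_pos : 0 < τ
  t_le : τ ≤ 1 / 1000

/-- length of the huge levels at `x` -/
def lz (γ : Geo X) (x : X) : ℝ := max 0 (Real.log (γ.r / γ.rs x))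

/-- small cells through `x` and `z` in a window of length `l / 2` below `a / lam` -/
def win (c : Cells X) (hv : ℕ × Finset X → Prop) (Y : Finset X) (σ a l : ℝ) (x z : X) : ℝ :=
  c.W fun i => c.small hv Y σ i ∧ x ∈ i.2 ∧ z ∈ i.2 ∧
    a / c.lam * Real.exp (-(l / 2)) ≤ c.ρ i ∧ c.ρ i < a / c.lam

/-- heavy cells below the central radius -/
def hl (c : Cells X) (hv : ℕ × Finset X → Prop) (γ : Geo X) : ℝ := c.W fun i => hv i ∧ c.ρ i < γ.r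

/-- a bound for the length of the huge levels -/
def lm (c : Cells X) (hv : ℕ × Finset X → Prop) (Y : Finset X) (γ : Geo X) (τ : ℝ) : ℝ :=
  16 * c.ulow hv Y (τ / 2) γ / (τ * Y.card) ^ 2 + 8 * c.xi

/-- cells through `y` in a window of length `g` below `b` -/
def balF (c : Cells X) (b g : ℝ) (y : X) (i : ℕ × Finset X) : Prop :=
  y ∈ i.2 ∧ b * Real.exp (-g) ≤ c.ρ i ∧ c.ρ i < b

/-- cells round the centre in a window of length `g` above the central ball -/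
def outF (c : Cells X) (γ : Geo X) (g : ℝ) (i : ℕ × Finset X) : Prop :=
  γ.cen ∈ i.2 ∧ c.lam * γ.r ≤ c.ρ i ∧ c.ρ i < c.lam * γ.r * Real.exp g ∧
    ∀ z, c.d γ.cen z ≤ c.ρ i / c.lam → z ∈ i.2

open Classical in
/-- share of `C` on the light side of the cell `i` -/
def shr (hv : ℕ × Finset X → Prop) (C : Finset X) (i : ℕ × Finset X) : ℝ :=
  ((C.filter fun z => inC hv i z).card : ℝ) / C.card

open Classical in
/-- large parts `C x y ⊆ B` of the fibres of the good pairs, with few atypical pairs inside -/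
structure Sub (lab : X → X → ℝ) (Y B : Finset X) (At : X → Finset X) (ok : X → X → Prop)
    (C : X → X → Finset X) (ζ b k a : ℝ) : Prop where
  sub : ∀ x ∈ Y, ∀ y ∈ Y.erase x, ok x y → C x y ⊆ fib lab Y x y ∧ C x y ⊆ B ∧
    ζ * (fib lab Y x y).card ≤ (C x y).card ∧ k ≤ (fib lab Y x y).card
  few : (∑ x ∈ Y, ∑ y ∈ Y.erase x, if ok x y then (0 : ℝ) else 1) ≤ b * (Y.card : ℝ) ^ 2
  cost : (∑ x ∈ Y, ∑ y ∈ Y.erase x, if ok x y then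
      (∑ z ∈ C x y, (((C x y).erase z ∩ At z).card : ℝ)) / ((C x y).card : ℝ) ^ 2 else 0) ≤
    a * (Y.card : ℝ) ^ 2

variable [Fintype PL]

/-- mean small overlap inside `C` -/
def Sm (s : Sys X PL) (hv : ℕ × Finset X → Prop) (Y : Finset X) (σ : ℝ) (C : Finset X) : ℝ :=
  (∑ y ∈ C, ∑ z ∈ C.erase y, s.Osm hv Y σ y z) / (C.card : ℝ) ^ 2

/-- large subsets of `Y₁` are equidistributed -/
def EQ (s : Sys X PL) (hv : ℕ × Finset X → Prop) (Y Y₁ : Finset X) (σ e ns : ℝ) : Prop :=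
  ∀ C ⊆ Y₁, ns ≤ C.card → s.Disc hv Y σ C + Sm s hv Y σ C ≤ e

open Classical in
/-- points with little small overlap -/
def Mk (s : Sys X PL) (hv : ℕ × Finset X → Prop) (Y : Finset X) (σ a : ℝ) : Finset X :=
  Y.filter fun y => ∑ z ∈ Y.erase y, s.Osm hv Y σ y z ≤ a * Y.card

/-- mean large overlap of `y` -/
def psi (s : Sys X PL) (hv : ℕ × Finset X → Prop) (Y : Finset X) (σ : ℝ) (y : X) : ℝ :=
  (∑ z ∈ Y, s.Olg hv Y σ y z) / Y.card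

open Classical in
/-- atypical partners of `y` -/
def Atp (s : Sys X PL) (hv : ℕ × Finset X → Prop) (Y Y₁ : Finset X) (σ k : ℝ) (y : X) :
    Finset X :=
  Y₁.filter fun z => psi s hv Y σ y + k < s.Olg hv Y σ y z

open Classical in
/-- points with low mean overlap -/
def Low (s : Sys X PL) (hv : ℕ × Finset X → Prop) (Y Y₁ : Finset X) (σ k : ℝ) : Finset X :=
  Y₁.filter fun y => psi s hv Y σ y < (∑ z ∈ Y, psi s hv Y σ z) / Y.card - k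

open Classical in
/-- total discrepancy of the chosen parts -/
def dsum (s : Sys X PL) (hv : ℕ × Finset X → Prop) (Y : Finset X) (σ : ℝ) (ok : X → X → Prop)
    (C : X → X → Finset X) : ℝ :=
  ∑ x ∈ Y, ∑ y ∈ Y.erase x, if ok x y then s.Disc hv Y σ (C x y) else 0

/-- the context with geometric data at every place -/
structure CT (s : Sys X PL) (hv : ℕ × Finset X → Prop) (Y : Finset X) (h : X → ℝ) (T : ℝ)
    (γ : PL → Geo X) (τ η : ℝ) : Prop where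
  ctx : Ctx s hv Y h T
  geo : ∀ p, GoodT (γ p) (s.c p) Y τ
  t_pos : 0 < τ
  t_le : τ ≤ 1 / 1000
  eta : ∑ p, s.m p * (s.c p).eta ≤ η
  eta_le : η ≤ 1

/-- total outlier length -/
def gs (s : Sys X PL) (γ : PL → Geo X) (y : X) : ℝ := ∑ p, s.m p * (s.c p).G (γ p) y

/-- the three families of cells fixed by `y`, seen from `x` -/
def hq (s : Sys X PL) (γ : PL → Geo X) (L : PL → ℝ) (y x : X) : ℝ :=
  ∑ p, s.m p * ((s.c (s.bar p)).W (fun i =>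
      balF (s.c (s.bar p)) (bet s (fun q => (γ q).r) L (s.bar p)) ((s.c p).G (γ p) y) y i ∧
        x ∈ i.2) +
    (s.c p).W (fun i => outF (s.c p) (γ p) ((s.c p).G (γ p) y) i ∧ x ∉ i.2) +
    (s.c (s.bar p)).W (fun i =>
      outF (s.c (s.bar p)) (γ (s.bar p)) ((s.c p).G (γ p) y) i ∧ x ∉ i.2))

end defs

/-! ### rows: the potential -/

/-- the weight of a fibre -/
def GF : Prop :=
  ∀ κ : ℝ, 1 ≤ κ → gf κ 0 = 0 ∧ (∀ k, 0 ≤ gf κ k ∧ gf κ k ≤ k ∧ gf κ k ≤ κ * Real.sqrt k) ∧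
    (∀ k l, k ≤ l → gf κ k ≤ gf κ l) ∧ (∀ k l, gf κ (k + l) ≤ gf κ k + gf κ l) ∧
    (∀ k, 1 ≤ k → 1 ≤ gf κ k) ∧ ∀ k : ℕ, (k : ℝ) ≤ κ ^ 2 → gf κ k = k

open Classical in
/-- the potential of one pin grows with the set, on every union of fibres -/
def PHS : Prop :=
  ∀ (X : Type) [DecidableEq X] (lab : X → X → ℝ) (κ : ℝ) (S Y : Finset X) (x : X) (P : X → Prop),
    1 ≤ κ → S ⊆ Y → (∀ y ∈ Y.erase x, ∀ z ∈ Y.erase x, lab x y = lab x z → P y → P z) →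
    (∑ y ∈ S.erase x, if P y then gf κ (fib lab S x y).card / (fib lab S x y).card else 0) ≤
      ∑ y ∈ Y.erase x, if P y then gf κ (fib lab Y x y).card / (fib lab Y x y).card else 0

open Classical in
/-- the potential -/
def PHB : Prop :=
  ∀ (X : Type) [DecidableEq X] (lab : X → X → ℝ) (κ : ℝ) (Q : Finset X), 1 ≤ κ →
    0 ≤ Phi lab κ Q ∧ (∀ S ⊆ Q, Phi lab κ S ≤ Phi lab κ Q) ∧ (Zs lab Q : ℝ) ≤ Phi lab κ Q ∧
    (∑ x ∈ Q, ∑ y ∈ Q.erase x, if ((fib lab Q x y).card : ℝ) ≤ κ ^ 2 then (1 : ℝ) else 0) ≤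
      Phi lab κ Q ∧
    ((Q.card : ℝ) ≤ κ ^ 2 → Phi lab κ Q = Pr Q) ∧
    Phi lab κ Q ^ 2 ≤ κ ^ 2 * (Q.card : ℝ) ^ 2 * Zs lab Q

/-- step A at one place -/
def SAPG : Prop :=
  ∀ (X : Type) [DecidableEq X] (c c' : Cells X) (hv : ℕ × Finset X → Prop) (Y : Finset X)
    (γ γ' : Geo X) (σ κ : ℝ) (lab : X → X → ℝ), PC c hv Y γ → PC c' hv Y γ' → 0 ≤ σ → 1 ≤ κ →
    (∀ x y z, y ≠ x → z ≠ x → lab x y = lab x z → c.d x y * c'.d x y = c.d x z * c'.d x z) →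
    c.WS (c.small hv Y σ) (fun i => Phi lab κ (Y ∩ i.2)) ≤
      (∑ x ∈ Y, ∑ y ∈ Y.erase x, gf κ (fib lab Y x y).card / (fib lab Y x y).card *
        (c.G γ x + c'.G γ' x + 4 * (c.o hv x y + c.Hlow hv γ) +
          4 * (c'.o hv x y + c'.Hlow hv γ') + 5 * c.xi + 3 * c'.xi)) +
      σ * Y.card * ∑ y ∈ Y, (c'.G γ' y + 2 * c.xi + c'.xi)

/-- step A -/
def SAG : Prop :=
  ∀ (X PL : Type) [DecidableEq X] [Fintype PL] (s : Sys X PL) (hv : ℕ × Finset X → Prop)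
    (Y : Finset X) (h : X → ℝ) (T σ κ : ℝ), Ctx s hv Y h T → 3000 ≤ Y.card → 0 ≤ σ → 1 ≤ κ →
    ∑ p, s.m p * (s.c p).WS ((s.c p).small hv Y σ) (fun i => Phi s.lab κ (Y ∩ i.2)) ≤
      38000 * T * Phi s.lab κ Y + 10 * σ * (Y.card : ℝ) ^ 2 * T

/-- the small overlap is bounded by the potential -/
def TH : Prop :=
  ∀ (X PL : Type) [DecidableEq X] [Fintype PL] (s : Sys X PL) (hv : ℕ × Finset X → Prop)
    (Y : Finset X) (h : X → ℝ) (T σ κ φ : ℝ), Ctx s hv Y h T → 3000 ≤ Y.card → 0 ≤ σ → 1 ≤ κ →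
    (∀ S ⊆ Y, 2 ≤ S.card → (S.card : ℝ) < σ * Y.card → φ * Pr S ≤ Phi s.lab κ S) →
    φ * s.Th hv Y σ ≤ 38000 * T * Phi s.lab κ Y + 10 * σ * (Y.card : ℝ) ^ 2 * T

/-- a lower bound for the small overlap -/
def THL : Prop :=
  ∀ (X PL : Type) [DecidableEq X] [Fintype PL] (s : Sys X PL) (hv : ℕ × Finset X → Prop)
    (Y : Finset X) (h : X → ℝ) (T σ : ℝ), Ctx s hv Y h T → 10 ^ 8 ≤ Y.card → σ ≤ 1 →
    1 ≤ ep * (σ * Y.card) → (Zs s.lab Y : ℝ) ≤ ep * σ * (Y.card : ℝ) ^ 2 →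
    ep * T * (Y.card : ℝ) ^ 2 ≤ s.Th hv Y σ

/-- the context passes to large subsets -/
def CTX : Prop :=
  ∀ (X PL : Type) [DecidableEq X] [Fintype PL] (s : Sys X PL) (Q Y Y' : Finset X) (h : X → ℝ)
    (T : ℝ), Ctx s (heavy Q) Y h T → Y ⊆ Q → Y' ⊆ Y → 2 * Q.card ≤ 3 * Y'.card →
    Ctx s (heavy Q) Y' h T

/-! ### rows: one place -/

/-- the geometric data exist -/
def GEOT : Prop :=
  ∀ (X : Type) [DecidableEq X] (c : Cells X) (Y : Finset X) (τ : ℝ), c.Good → 0 < τ →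
    τ ≤ 1 / 1000 → 3 ≤ τ * Y.card → ∃ γ : Geo X, GoodT γ c Y τ

/-- outlier length against heavy cells, and low heavy cells -/
def LGT : Prop :=
  ∀ (X : Type) [DecidableEq X] (c : Cells X) (hv : ℕ × Finset X → Prop) (Y : Finset X)
    (γ : Geo X) (τ : ℝ), PT c hv Y γ τ →
    (∀ x ∈ Y, c.G γ x ≤ 4 * c.H hv x + 3 * c.xi) ∧
    τ * Y.card * c.Hlow hv γ ≤ ∑ y ∈ Y, c.H hv y

/-- light cells above a radius, and the depth of a pair -/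
def LTT : Prop :=
  ∀ (X : Type) [DecidableEq X] (c : Cells X) (hv : ℕ × Finset X → Prop) (Y : Finset X)
    (γ : Geo X) (τ : ℝ), PT c hv Y γ τ →
    (∀ x ∈ Y, ∀ a : ℝ, 0 < a → c.W (fun i => ¬ hv i ∧ x ∈ i.2 ∧ a ≤ c.ρ i) ≤
      max 0 (Real.log (γ.r / a) + c.G γ x) + 2 * c.xi) ∧
    ∀ x ∈ Y, ∀ y ∈ Y, x ≠ y →
      Real.log (γ.r / c.d x y) ≤ 4 * (c.o hv x y + c.Hlow hv γ) + 3 * c.xi

/-- first bound for the length of the huge levels -/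
def LZB : Prop :=
  ∀ (X : Type) [DecidableEq X] (c : Cells X) (hv : ℕ × Finset X → Prop) (Y : Finset X)
    (γ : Geo X) (τ : ℝ), PT c hv Y γ τ → 4 ≤ τ * Y.card → ∀ x ∈ Y,
    lz γ x ≤ 16 / (τ * Y.card) * (∑ z ∈ Y.erase x, c.o hv x z) + 4 * c.Hlow hv γ + 3 * c.xi

/-- a part of a fibre is covered by two balls -/
def ERT : Prop :=
  ∀ (X : Type) [DecidableEq X] (c c' : Cells X) (hv : ℕ × Finset X → Prop) (Y C : Finset X)
    (γ γ' : Geo X) (τ σ l : ℝ), PT c hv Y γ τ → PT c' hv Y γ' τ → c'.lam = c.lam → 0 ≤ l →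
    ∀ x ∈ Y, ∀ y, y ≠ x → C.Nonempty → C ⊆ Y.erase x →
    (∀ z ∈ C, c.d x z * c'.d x z = c.d x y * c'.d x y) →
    min (err c c' γ γ' x y) l ≤ 2 * (c.eta + c'.eta) +
      128 / τ ^ 2 * (c.disc hv Y σ C + c'.disc hv Y σ C) +
      32 / τ * ((∑ z ∈ C, (win c hv Y σ γ.r l x z + win c' hv Y σ (γ'.rs x) l x z)) / C.card)

/-- the window, summed over the second point -/
def WIN : Prop :=
  ∀ (X : Type) [DecidableEq X] (c : Cells X) (hv : ℕ × Finset X → Prop) (Y : Finset X)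
    (σ a l : ℝ), c.Good → 0 ≤ σ → 0 < a → 0 ≤ l → ∀ x ∈ Y,
    ∑ z ∈ Y.erase x, win c hv Y σ a l x z ≤ σ * Y.card * (l / 2 + c.eta)

open Classical in
/-- the errors of one pin -/
def ERX : Prop :=
  ∀ (X : Type) [DecidableEq X] (c c' : Cells X) (hv : ℕ × Finset X → Prop) (Y : Finset X)
    (γ γ' : Geo X) (τ σ ζ : ℝ) (lab : X → X → ℝ) (ok : X → Prop) (C : X → Finset X),
    PT c hv Y γ τ → PT c' hv Y γ' τ → c'.lam = c.lam → 0 ≤ σ → 0 < ζ → ∀ x ∈ Y,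
    (∀ y z, y ≠ x → z ≠ x → lab x y = lab x z → c.d x y * c'.d x y = c.d x z * c'.d x z) →
    (∀ y ∈ Y.erase x, ok y → C y ⊆ fib lab Y x y ∧ ζ * (fib lab Y x y).card ≤ (C y).card) →
    (∑ y ∈ Y.erase x, if ok y then min (err c c' γ γ' x y) (lz γ x) else 0) ≤
      2 * (c.eta + c'.eta) * Y.card +
      128 / τ ^ 2 * (∑ y ∈ Y.erase x,
        if ok y then c.disc hv Y σ (C y) + c'.disc hv Y σ (C y) else 0) +
      32 / (τ * ζ) * (σ * Y.card * (lz γ x + c.eta + c'.eta))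

open Classical in
/-- many pairs of large sets meet -/
def TUT : Prop :=
  ∀ (X : Type) [DecidableEq X] (Y S : Finset X) (B : X → Finset X) (τ : ℝ), Y.Nonempty → 0 ≤ τ →
    (∀ x ∈ S, B x ⊆ Y ∧ τ / 2 * Y.card ≤ (B x).card) →
    τ ^ 2 / 4 * (S.card : ℝ) ^ 2 ≤
      S.card + ∑ x ∈ S, ∑ y ∈ S.erase x, if (B x ∩ B y).Nonempty then (1 : ℝ) else 0

/-- the second moment of the huge cells at one place -/
def UBT : Prop :=
  ∀ (X : Type) [DecidableEq X] (c c' : Cells X) (hv : ℕ × Finset X → Prop) (Y : Finset X)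
    (γ γ' : Geo X) (τ : ℝ), PT c hv Y γ τ → PT c' hv Y γ' τ → c'.lam = c.lam →
    τ ^ 2 / 4 * c.ulow hv Y (τ / 2) γ ≤
      (∑ x ∈ Y, ∑ y ∈ Y.erase x, (2 * min (err c c' γ γ' x y) (lz γ x) + c.eta)) +
      ∑ y ∈ Y, (lz γ y + c.eta)

/-- the lower bound at a complex place -/
def ART : Prop :=
  ∀ (X : Type) [DecidableEq X] (c : Cells X) (hv : ℕ × Finset X → Prop) (Y : Finset X)
    (γ : Geo X) (τ : ℝ), PT c hv Y γ τ →
    c.g * (Y.card : ℝ) ^ 2 / 2 ≤ c.ulow hv Y (τ / 2) γ + c.xi * τ * (Y.card : ℝ) ^ 2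

/-- huge levels and heavy cells against the second moment -/
def LHL : Prop :=
  ∀ (X : Type) [DecidableEq X] (c : Cells X) (hv : ℕ × Finset X → Prop) (Y : Finset X)
    (γ : Geo X) (τ : ℝ), PT c hv Y γ τ →
    (∀ x ∈ Y, lz γ x ≤ lm c hv Y γ τ) ∧
    hl c hv γ ≤ 16 * c.ulow hv Y (τ / 2) γ / (Y.card : ℝ) ^ 2 + 28 * c.xi ∧
    ∀ x, c.H hv x ≤ hl c hv γ + c.G γ x + 3 * c.xi

/-- truncated depth against the cells of a window -/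
def BALL : Prop :=
  ∀ (X : Type) [DecidableEq X] (c : Cells X) (r L g : ℝ), c.Good → 0 < r → r ≤ c.rhi → 0 ≤ L →
    0 ≤ g → ∀ y, c.W (balF c (r * Real.exp (-L) / c.lam) g y) ≤ g + c.eta ∧ ∀ z, y ≠ z →
    min (max 0 (Real.log (r / c.d y z))) g ≤
      4 * c.W (fun i => balF c (r * Real.exp (-L) / c.lam) g y i ∧ z ∈ i.2) + L + 3 * c.xi

/-- cells below the huge levels -/
def MASS : Prop :=
  ∀ (X : Type) [DecidableEq X] (c : Cells X) (hv : ℕ × Finset X → Prop) (Y : Finset X)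
    (γ : Geo X) (τ L : ℝ), PT c hv Y γ τ → (∀ x ∈ Y, lz γ x ≤ L) → ∀ x ∈ Y,
    (∀ i ∈ c.I, x ∈ i.2 → c.ρ i < γ.r * Real.exp (-L) / c.lam →
      ¬ hv i ∧ ((Y ∩ i.2).card : ℝ) ≤ τ / 2 * Y.card) ∧
    (∃ z, γ.r * Real.exp (-L) / c.lam ≤ c.d x z) ∧
    c.W (fun i => ¬ hv i ∧ x ∈ i.2 ∧ γ.r * Real.exp (-L) / c.lam ≤ c.ρ i) ≤
      L + c.G γ x + 3 * c.xi

/-- truncated outlier length against the cells round the centre -/
def OUT : Prop :=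
  ∀ (X : Type) [DecidableEq X] (c : Cells X) (hv : ℕ × Finset X → Prop) (Y : Finset X)
    (γ : Geo X) (τ g : ℝ), PT c hv Y γ τ → 0 ≤ g →
    c.W (outF c γ g) ≤ g + c.eta ∧
    (∀ i ∈ c.I, outF c γ g i → hv i ∧ ((Y \ i.2).card : ℝ) ≤ τ * Y.card) ∧
    ∀ z, min g (c.G γ z) ≤ 4 * c.W (fun i => outF c γ g i ∧ z ∉ i.2) + 3 * c.xi

/-- an outlier seen from a pin and a second point of the fibre -/
def HZP : Prop :=
  ∀ (X : Type) [DecidableEq X] (c c' : Cells X) (γ γ' : Geo X), c.Good → c'.Good →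
    c'.lam = c.lam → 0 < γ.r → 0 < γ'.r → ∀ x y z, y ≠ x → z ≠ x →
    c.d x z * c'.d x z = c.d x y * c'.d x y →
    c.G γ y ≤ 3 * c.xi + min (max 0 (Real.log (γ'.r / c'.d y x))) (c.G γ y) +
      min (c.G γ y) (c.G γ x) + min (c.G γ y) (c.G γ z) +
      min (c.G γ y) (c'.G γ' x) + min (c.G γ y) (c'.G γ' z)

/-- the overlap against the depth -/
def OUP : Prop :=
  ∀ (X : Type) [DecidableEq X] (c : Cells X) (hv : ℕ × Finset X → Prop) (Y : Finset X)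
    (γ : Geo X) (τ : ℝ), PT c hv Y γ τ → ∀ x ∈ Y, ∀ y ∈ Y, x ≠ y →
    c.o hv x y ≤ Real.log (γ.r / c.d x y) + 3 * c.G γ x + c.G γ y + hl c hv γ + 8 * c.xi

/-! ### rows: equidistribution -/

/-- the product formula for overlaps, with a free error -/
def HIDE : Prop :=
  ∀ (X PL : Type) [DecidableEq X] [Fintype PL] (s : Sys X PL) (hv : ℕ × Finset X → Prop)
    (Y : Finset X) (h : X → ℝ) (T η : ℝ), Ctx s hv Y h T → ∑ p, s.m p * (s.c p).eta ≤ η →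
    3 ≤ Y.card → ∃ h' : X → ℝ, (∀ x ∈ Y, -2 ≤ h' x) ∧
      ∀ x y, x ≠ y → |s.O hv x y - h' x - h' y| ≤ η

/-- discrepancy and small overlap of a subset -/
def B1P : Prop :=
  ∀ (X PL : Type) [DecidableEq X] [Fintype PL] (s : Sys X PL) (hv : ℕ × Finset X → Prop)
    (Y C : Finset X) (h : X → ℝ) (T η σ F : ℝ), Ctx s hv Y h T → ∑ p, s.m p * (s.c p).eta ≤ η →
    3 ≤ Y.card → C ⊆ Y → C.Nonempty → (∀ y ∈ Y, s.Olg hv Y σ y y ≤ F) →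
    s.Disc hv Y σ C + Sm s hv Y σ C ≤ (F + 4) / C.card + 4 * η +
      2 / Y.card * ((∑ y ∈ C, ∑ z ∈ Y.erase y, s.Osm hv Y σ y z) / C.card)

/-- the points with little small overlap are many and equidistributed -/
def EQM : Prop :=
  ∀ (X PL : Type) [DecidableEq X] [Fintype PL] (s : Sys X PL) (hv : ℕ × Finset X → Prop)
    (Y : Finset X) (h : X → ℝ) (T η σ t : ℝ), Ctx s hv Y h T → ∑ p, s.m p * (s.c p).eta ≤ η →
    3 ≤ Y.card → 2 ≤ σ * Y.card → σ ≤ 1 → 0 < t →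
    (s.Th hv Y σ ≤ t ^ 2 * T * (Y.card : ℝ) ^ 2 →
      ((Y \ Mk s hv Y σ (t * T)).card : ℝ) ≤ t * Y.card) ∧
    ∀ (Y₁ : Finset X) (e ns : ℝ), Y₁ ⊆ Mk s hv Y σ (t * T) → 0 < ns →
      (7 * T / σ + 4) / ns + 4 * η + 2 * t * T ≤ e → EQ s hv Y Y₁ σ e ns

/-- families of cells that are not small -/
def CAL : Prop :=
  ∀ (X PL : Type) [DecidableEq X] [Fintype PL] (s : Sys X PL) (hv : ℕ × Finset X → Prop)
    (Y C : Finset X) (σ M : ℝ) (F : PL → ℕ × Finset X → Prop), s.Good → C ⊆ Y → C.Nonempty →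
    (∀ p, ∀ i ∈ (s.c p).I, F p i → ¬ (s.c p).small hv Y σ i) →
    ∑ p, s.m p * (s.c p).W (F p) ≤ M →
    ∑ p, s.m p * (s.c p).WS (F p) (shr hv C) ≤
      (∑ p, s.m p * (s.c p).WS (F p) (shr hv Y)) + Real.sqrt (M * s.Disc hv Y σ C)

/-- any family of cells -/
def CA : Prop :=
  ∀ (X PL : Type) [DecidableEq X] [Fintype PL] (s : Sys X PL) (hv : ℕ × Finset X → Prop)
    (Y C : Finset X) (σ M e : ℝ) (F : PL → ℕ × Finset X → Prop), s.Good → C ⊆ Y → C.Nonempty →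
    ∑ p, s.m p * (s.c p).W (F p) ≤ M → s.Disc hv Y σ C + Sm s hv Y σ C ≤ e → M / C.card ≤ e →
    ∑ p, s.m p * (s.c p).WS (F p) (shr hv C) ≤
      (∑ p, s.m p * (s.c p).WS (F p) (shr hv Y)) + 3 * Real.sqrt (M * e)

/-- few atypical partners -/
def TYA : Prop :=
  ∀ (X PL : Type) [DecidableEq X] [Fintype PL] (s : Sys X PL) (hv : ℕ × Finset X → Prop)
    (Y Y₁ : Finset X) (h : X → ℝ) (T σ₀ σ e ns k : ℝ), Ctx s hv Y h T → Y₁ ⊆ Y →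
    EQ s hv Y Y₁ σ₀ e ns → 0 < ns → σ₀ ≤ σ → σ ≤ 1 → 2 ≤ σ * Y.card → 0 ≤ k →
    7 * T / σ * e ≤ k ^ 2 → ∀ y ∈ Y, ((Atp s hv Y Y₁ σ k y).card : ℝ) < ns

/-- few points of low mean overlap -/
def TYL : Prop :=
  ∀ (X PL : Type) [DecidableEq X] [Fintype PL] (s : Sys X PL) (hv : ℕ × Finset X → Prop)
    (Y Y₁ : Finset X) (h : X → ℝ) (T σ₀ σ e ns k : ℝ), Ctx s hv Y h T → Y₁ ⊆ Y →
    EQ s hv Y Y₁ σ₀ e ns → 0 < ns → σ₀ ≤ σ → σ ≤ 1 → 7 ≤ σ * Y.card → 0 ≤ k →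
    2 * T * e ≤ k ^ 2 → ((Low s hv Y Y₁ σ k).card : ℝ) < ns

/-- discrepancy of a set with few atypical pairs -/
def TYD : Prop :=
  ∀ (X PL : Type) [DecidableEq X] [Fintype PL] (s : Sys X PL) (hv : ℕ × Finset X → Prop)
    (Y Y₁ C : Finset X) (h : X → ℝ) (T σ k k' : ℝ), Ctx s hv Y h T → Y₁ ⊆ Y → σ ≤ 1 →
    2 ≤ σ * Y.card → 0 ≤ k → C ⊆ Y₁ \ Low s hv Y Y₁ σ k' → C.Nonempty →
    s.Disc hv Y σ C ≤ 7 * T / (σ * C.card) + k + k' +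
      T * ((∑ z ∈ C, ((C.erase z ∩ Atp s hv Y Y₁ σ k z).card : ℝ)) / (C.card : ℝ) ^ 2)

/-- total discrepancy of the chosen parts -/
def DS : Prop :=
  ∀ (X PL : Type) [DecidableEq X] [Fintype PL] (s : Sys X PL) (hv : ℕ × Finset X → Prop)
    (Y Y₁ : Finset X) (h : X → ℝ) (T σ k k' ζ b l a : ℝ) (ok : X → X → Prop)
    (C : X → X → Finset X), Ctx s hv Y h T → Y₁ ⊆ Y → σ ≤ 1 → 2 ≤ σ * Y.card → 0 ≤ k → 0 ≤ k' →
    0 < ζ → 0 < l →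
    Sub s.lab Y (Y₁ \ Low s hv Y Y₁ σ k') (Atp s hv Y Y₁ σ k) ok C ζ b l a →
    dsum s hv Y σ ok C ≤ (7 * T / (σ * ζ * l) + k + k' + T * a) * (Y.card : ℝ) ^ 2

/-! ### rows: all places -/

/-- first bounds for the three lengths -/
def LZS : Prop :=
  ∀ (X PL : Type) [DecidableEq X] [Fintype PL] (s : Sys X PL) (hv : ℕ × Finset X → Prop)
    (Y : Finset X) (h : X → ℝ) (T τ η : ℝ) (γ : PL → Geo X), CT s hv Y h T γ τ η →
    4 ≤ τ * Y.card → ∀ x ∈ Y, (∑ p, s.m p * lz (γ p) x ≤ 23 * T / τ) ∧ gs s γ x ≤ 7 * T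

/-- the total error -/
def ERS2 : Prop :=
  ∀ (X PL : Type) [DecidableEq X] [Fintype PL] (s : Sys X PL) (hv : ℕ × Finset X → Prop)
    (Y B : Finset X) (h : X → ℝ) (T τ η σ ζ b l a : ℝ) (γ : PL → Geo X) (At : X → Finset X)
    (ok : X → X → Prop) (C : X → X → Finset X), CT s hv Y h T γ τ η → 4 ≤ τ * Y.card → 0 ≤ σ →
    0 < ζ → Sub s.lab Y B At ok C ζ b l a →
    ∑ p, s.m p * (∑ x ∈ Y, ∑ y ∈ Y.erase x,
        min (err (s.c p) (s.c (s.bar p)) (γ p) (γ (s.bar p)) x y) (lz (γ p) x)) ≤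
      4 * η * (Y.card : ℝ) ^ 2 + 256 / τ ^ 2 * dsum s hv Y σ ok C +
      32 * σ / (τ * ζ) * (23 * T / τ + 2 * η) * (Y.card : ℝ) ^ 2 +
      b * (23 * T / τ) * (Y.card : ℝ) ^ 2

/-- the second moment of the huge cells is small -/
def USUM : Prop :=
  ∀ (X PL : Type) [DecidableEq X] [Fintype PL] (s : Sys X PL) (hv : ℕ × Finset X → Prop)
    (Y B : Finset X) (h : X → ℝ) (T η ε l a : ℝ) (γ : PL → Geo X) (At : X → Finset X)
    (ok : X → X → Prop) (C : X → X → Finset X), CT s hv Y h T γ (ε ^ 2) η → 0 < ε →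
    ε ≤ 1 / 10 ^ 20 → η ≤ ε ^ 10 → 1 ≤ ε ^ 13 * Y.card →
    Sub s.lab Y B At ok C (ε ^ 15) (ε ^ 20) l a →
    dsum s hv Y (ε ^ 29) ok C ≤ ε ^ 14 * T * (Y.card : ℝ) ^ 2 →
    s.U hv Y (ε ^ 2 / 2) γ ≤ 10 ^ 4 * ε ^ 6 * T * (Y.card : ℝ) ^ 2

/-- the height is large and the huge levels are short -/
def TBIG : Prop :=
  ∀ (X PL : Type) [DecidableEq X] [Fintype PL] (s : Sys X PL) (hv : ℕ × Finset X → Prop)
    (Y : Finset X) (h : X → ℝ) (T η ε : ℝ) (γ : PL → Geo X), CT s hv Y h T γ (ε ^ 2) η → 0 < ε →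
    ε ≤ 1 / 10 ^ 20 → 2 ≤ Y.card →
    s.U hv Y (ε ^ 2 / 2) γ ≤ 10 ^ 4 * ε ^ 6 * T * (Y.card : ℝ) ^ 2 →
    1 ≤ ε ^ 5 * T ∧ (∑ p, s.m p * lm (s.c p) hv Y (γ p) (ε ^ 2) ≤ 200000 * ε ^ 2 * T) ∧
      (∑ p, s.m p * hl (s.c p) hv (γ p) ≤ ε ^ 2 * T) ∧ ∑ p, s.m p * Real.log (γ p).r ≤ 5 * T

/-- the outlier length of `y` seen from one pin -/
def HZE : Prop :=
  ∀ (X PL : Type) [DecidableEq X] [Fintype PL] (s : Sys X PL) (hv : ℕ × Finset X → Prop)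
    (Y C : Finset X) (h : X → ℝ) (T τ η σ : ℝ) (γ : PL → Geo X) (L : PL → ℝ),
    CT s hv Y h T γ τ η → (∀ p, 0 ≤ L p) → ∀ x ∈ Y, ∀ y ∈ Y.erase x, gs s γ y ≤ 7 * T →
    C ⊆ fib s.lab Y x y → C.Nonempty →
    gs s γ y ≤ 360 + (∑ p, s.m p * L p) + 4 * hq s γ L y x + 64 * τ * T +
      8 * Real.sqrt (8 * T * s.Disc hv Y σ C)

/-- the three families, summed over the pins -/
def HZX : Prop :=
  ∀ (X PL : Type) [DecidableEq X] [Fintype PL] (s : Sys X PL) (hv : ℕ × Finset X → Prop)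
    (Y : Finset X) (h : X → ℝ) (T τ η : ℝ) (γ : PL → Geo X) (L : PL → ℝ),
    CT s hv Y h T γ τ η → (∀ p, ∀ x ∈ Y, lz (γ p) x ≤ L p) → ∀ y ∈ Y, gs s γ y ≤ 7 * T →
    (∀ x, 0 ≤ hq s γ L y x) ∧ ∑ x ∈ Y, hq s γ L y x ≤ 20 * τ * T * Y.card

/-- the mean outlier length is small -/
def HZS : Prop :=
  ∀ (X PL : Type) [DecidableEq X] [Fintype PL] (s : Sys X PL) (hv : ℕ × Finset X → Prop)
    (Y B : Finset X) (h : X → ℝ) (T η ε l a : ℝ) (γ : PL → Geo X) (L : PL → ℝ)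
    (At : X → Finset X) (ok : X → X → Prop) (C : X → X → Finset X),
    CT s hv Y h T γ (ε ^ 2) η → 0 < ε → ε ≤ 1 / 10 ^ 20 → 1 ≤ ε ^ 13 * Y.card →
    Sub s.lab Y B At ok C (ε ^ 15) (ε ^ 20) l a →
    dsum s hv Y (ε ^ 29) ok C ≤ ε ^ 14 * T * (Y.card : ℝ) ^ 2 → 1 ≤ ε ^ 5 * T →
    (∀ p, ∀ x ∈ Y, lz (γ p) x ≤ L p) → ∑ p, s.m p * L p ≤ 200000 * ε ^ 2 * T →
    ∑ y ∈ Y, gs s γ y ≤ 10 ^ 6 * ε ^ 2 * T * Y.card

/-- the height against the central radii -/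
def WTS : Prop :=
  ∀ (X PL : Type) [DecidableEq X] [Fintype PL] (s : Sys X PL) (hv : ℕ × Finset X → Prop)
    (Y : Finset X) (h : X → ℝ) (T η ε : ℝ) (γ : PL → Geo X), CT s hv Y h T γ (ε ^ 2) η → 0 < ε →
    ε ≤ 1 / 10 ^ 20 → 1 ≤ ε ^ 5 * T → ∑ p, s.m p * hl (s.c p) hv (γ p) ≤ ε ^ 2 * T →
    ∀ x ∈ Y, ∀ y ∈ Y, x ≠ y → gs s γ x ≤ ε * T / 100 → gs s γ y ≤ ε * T / 100 →
    T ≤ 20 * ∑ p, s.m p * Real.log (γ p).r

/-- concentration of truncated depths -/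
def CONC : Prop :=
  ∀ (X PL : Type) [DecidableEq X] [Fintype PL] (s : Sys X PL) (hv : ℕ × Finset X → Prop)
    (Y Y₁ Z : Finset X) (h : X → ℝ) (T η ε σ₀ ns Λ W : ℝ) (γ : PL → Geo X) (L : PL → ℝ),
    CT s hv Y h T γ (ε ^ 2) η → 0 < ε → ε ≤ 1 / 10 ^ 20 → Z ⊆ Y₁ → Y₁ ⊆ Y →
    EQ s hv Y Y₁ σ₀ (ε ^ 60 * T) ns → 1 ≤ ε ^ 62 * ns → 1 ≤ Λ → Λ * ε ≤ 1 → T ≤ 20 * W →
    W ≤ 5 * T → 20 ≤ ε * W → (∀ p, ∀ x ∈ Y, lz (γ p) x ≤ L p) → ∑ p, s.m p * L p ≤ ε * W →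
    Conc s (fun p => (γ p).r) Z W ε Λ ns

/-- the clean model from the discrepancy of the chosen parts -/
def CLEAN0 : Prop :=
  ∀ (X PL : Type) [DecidableEq X] [Fintype PL] (s : Sys X PL) (hv : ℕ × Finset X → Prop)
    (Y Y₁ B : Finset X) (h : X → ℝ) (T η ε σ₀ ns Λ l a : ℝ) (At : X → Finset X)
    (ok : X → X → Prop) (C : X → X → Finset X), Ctx s hv Y h T →
    ∑ p, s.m p * (s.c p).eta ≤ η → 0 < ε → ε ≤ 1 / 10 ^ 20 → η ≤ ε ^ 10 →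
    1 ≤ ε ^ 13 * Y.card → Y₁ ⊆ Y → EQ s hv Y Y₁ σ₀ (ε ^ 60 * T) ns → 1 ≤ ε ^ 62 * ns → 1 ≤ Λ →
    Λ * ε ≤ 1 → Sub s.lab Y B At ok C (ε ^ 15) (ε ^ 20) l a →
    dsum s hv Y (ε ^ 29) ok C ≤ ε ^ 14 * T * (Y.card : ℝ) ^ 2 →
    ∃ Z ⊆ Y₁, ((Y₁ \ Z).card : ℝ) ≤ 10 ^ 8 * ε * Y.card ∧
      ∃ (R L : PL → ℝ) (G : PL → X → ℝ) (W : ℝ), Cln s hv Z R L G W ε Λ ns T

/-- top statement of part B: atypical sets are small, and good parts give the clean model -/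
def CLEAN : Prop :=
  ∀ (X PL : Type) [DecidableEq X] [Fintype PL] (s : Sys X PL) (hv : ℕ × Finset X → Prop)
    (Y Y₁ : Finset X) (h : X → ℝ) (T η ε σ₀ ns Λ : ℝ), Ctx s hv Y h T →
    ∑ p, s.m p * (s.c p).eta ≤ η → 0 < ε → ε ≤ 1 / 10 ^ 20 → η ≤ ε ^ 10 →
    7 ≤ ε ^ 29 * Y.card → Y₁ ⊆ Y → EQ s hv Y Y₁ σ₀ (ε ^ 60 * T) ns → σ₀ ≤ ε ^ 29 →
    1 ≤ ε ^ 62 * ns → 1 ≤ Λ → Λ * ε ≤ 1 →
    ∃ (At : X → Finset X) (Lo : Finset X), (∀ y ∈ Y, ((At y).card : ℝ) < ns) ∧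
      (Lo.card : ℝ) < ns ∧
      ∀ (ok : X → X → Prop) (C : X → X → Finset X) (l : ℝ), 1 ≤ ε ^ 60 * l →
        Sub s.lab Y (Y₁ \ Lo) At ok C (ε ^ 15) (ε ^ 20) l (3 * ε ^ 15) →
        ∃ Z ⊆ Y₁, ((Y₁ \ Z).card : ℝ) ≤ 10 ^ 8 * ε * Y.card ∧
          ∃ (R L : PL → ℝ) (G : PL → X → ℝ) (W : ℝ), Cln s hv Z R L G W ε Λ ns T

end Pool.Agent.MP_6c3157_co.PQ
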