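import Pool.Agent.MP_6c3157_co.PQ.SpecI

/-! Project PQ, part C: pairs of large double depth are rare off curves. -/

set_option autoImplicit false
set_option linter.unusedSectionVars false

noncomputable section

namespace Pool.Agent.MP_6c3157_co.PQ

open Finset Pool.Agent.MP_6c3157_co.PD

open Classical in
/-- number of related pairs in `A × B` -/
def ec {X : Type} (E : X → X → Prop) (A B : Finset X) : ℕ := ((A ×ˢ B).filter fun e => E e.1 e.2).card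

/-- the pair `T, T'` is dense and extremal -/
structure Ext {X : Type} (E : X → X → Prop) (T T' : Finset X) (e₀ : ℝ) : Prop where
  pos : 0 < ec E T T'
  dense : e₀ * (T.card * T'.card) ≤ ec E T T'
  sub : ∀ S ⊆ T, ∀ S' ⊆ T', (ec E S S' : ℝ) ^ 20 * ((T.card : ℝ) * T'.card) ^ 19 ≤
    (ec E T T' : ℝ) ^ 20 * ((S.card : ℝ) * S'.card) ^ 19

/-- the numerical conditions shared by the rarity statements -/
structure Prc (c r ε Λ : ℝ) : Prop where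
  c_pos : 0 < c
  c_le : c ≤ 1
  r_pos : 0 < r
  r_le : 28000 * r ^ 2 ≤ c
  e_le : 800 * ε ≤ c * r ^ 40
  L_ge : 5 ≤ Λ * r ^ 20

/-- a set of size `t` is large enough -/
structure Big (t r ns n ν : ℝ) (b : ℕ) : Prop where
  free : ν * (b + 1) ≤ t
  conc : ns ≤ t
  sq : 4 * n ≤ t ^ 2
  two : 2 ≤ r ^ 20 * t

/-- the class data used for generic pairs -/
structure Cls {X PL K : Type} [DecidableEq X] [Field K] (A : Ari X PL K) (Q : Finset X)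
    (C : Finset (Finset X)) (β : Finset X → ℕ) (b : ℕ) (ν : ℝ) : Prop where
  sub : ∀ P ∈ C, P ⊆ Q
  big : ∀ P ∈ C, ν < P.card
  lo : ∀ P ∈ C, 1 ≤ β P
  hi : ∀ P ∈ C, β P ≤ b
  free : ∀ P ∈ C, ∀ k ≤ β P, A.Free P k (2 * (b : ℝ) ^ 2)
  disj : ∀ P ∈ C, ∀ P' ∈ C, P ≠ P' → Disjoint P P'
  off : ∀ P ∈ C, ∀ P' ∈ C, P ≠ P' → ∃ E : Finset X, E.card ≤ 2 * b ^ 2 ∧
    ∀ y ∈ P', y ∉ E → A.Off P (β P + 1) y
  rest : ∀ k ≤ b, A.Free (Q \ C.biUnion id) k (2 * b * ν)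
  off0 : ∀ P ∈ C, ∃ E : Finset X, (E.card : ℝ) ≤ ν ∧
    ∀ y ∈ Q \ C.biUnion id, y ∉ E → A.Off P (β P + 1) y

/-- an extremal pair of subsets -/
def EXT : Prop :=
  ∀ (X : Type) [DecidableEq X] (E : X → X → Prop) (A B : Finset X) (e₀ M M' : ℝ), 0 < e₀ →
    0 < M → 0 < M' → (A.card : ℝ) ≤ M → (B.card : ℝ) ≤ M' → e₀ * (M * M') ≤ ec E A B →
    ∃ T ⊆ A, ∃ T' ⊆ B, e₀ ^ 20 * M ≤ T.card ∧ e₀ ^ 20 * M' ≤ T'.card ∧ Ext E T T' e₀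

/-- a cut that keeps a quarter of the pairs -/
def MCUT : Prop :=
  ∀ (X : Type) [DecidableEq X] (E : X → X → Prop) (A : Finset X), (∀ x, ¬ E x x) →
    ∃ S ⊆ A, ec E A A ≤ 4 * ec E S (A \ S)

open Classical in
/-- heavy double cells -/
def HVY : Prop :=
  ∀ (X PL : Type) [DecidableEq X] [Fintype PL] (s : Sys X PL) (Z : Finset X) (R : PL → ℝ)
    (G : PL → X → ℝ) (W ε Λ ns : ℝ) (D : Dbl X PL), s.Good → Cen s Z R G W ε →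
    Conc s R Z W ε Λ ns → D.Good s R → ∀ (T : Finset X) (a : ℝ), T ⊆ Z → ns ≤ T.card → 0 < a →
    a ≤ 1 → 2 ≤ a * T.card → 5 ≤ Λ * a → ∀ y ∈ T,
    (∑ i, if a ≤ D.sh i T y then D.om i else 0) ≤ 100 * ε * W / a

/-- light double cells at every scale -/
def SP : Prop :=
  ∀ (X PL K : Type) [DecidableEq X] [Fintype PL] [Field K] (s : Sys X PL) (A : Ari X PL K)
    (η : ℝ) (Z : Finset X) (R : PL → ℝ) (G : PL → X → ℝ) (W ε : ℝ) (D : Dbl X PL), A.Good s η →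
    Cen s Z R G W ε → D.Good s R → ∀ (T T' : Finset X) (b : ℕ) (ν ν' r δ : ℝ), T ⊆ Z → T' ⊆ Z →
    Disjoint T T' → T.Nonempty → T'.Nonempty → 1 ≤ b → 0 ≤ ν → 0 ≤ ν' →
    (∀ k ≤ b, A.Free T k ν) →
    (∀ k ≤ b, A.Free T' k ν') → ν * (b + 1) ≤ T.card → ν' * (b + 1) ≤ T'.card → 0 < r →
    r ≤ 1 / 2 → 0 < δ → ((2 ≤ b ∧ 300 ≤ δ * b) ∨ ∀ y ∈ T', A.Off T (b + 1) y) →
    ∃ I : ℕ, (∀ i < I, D.S T T' ((r / 2 ^ i) ^ 20) ≤ 600 * (r / 2 ^ i) ^ 5 * W) ∧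
      D.S T T' ((r / 2 ^ I) ^ 20) ≤ δ * W

open Classical in
/-- the share of the edges inside one cell -/
def PTW : Prop :=
  ∀ (x a a' r e₀ : ℝ) (I : ℕ), 0 ≤ x → x ≤ 1 → 0 ≤ a → 0 ≤ a' → 0 < r → r ≤ 1 → 0 < e₀ →
    x ^ 20 ≤ (a * a') ^ 19 → x ≤ a * a' / e₀ →
    x ≤ (if r ^ 20 ≤ a then 1 else 0) + (if a' < a ^ 2 then r ^ 2 * a ^ 2 else 0) +
      (∑ i ∈ range I, if a ≤ (r / 2 ^ i) ^ 20 then 8 / (r / 2 ^ i) ^ 3 * (a * a') else 0) +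
      if a ≤ (r / 2 ^ I) ^ 20 then a * a' / e₀ else 0

open Classical in
/-- the sum over the cells of one partition -/
def SUM1 : Prop :=
  ∀ (X PL : Type) [DecidableEq X] (D : Dbl X PL) (i : Fin D.N) (E : X → X → Prop)
    (T T' : Finset X) (e₀ r n : ℝ) (I : ℕ), Ext E T T' e₀ → 0 < e₀ → 0 < r → r ≤ 1 →
    (T'.card : ℝ) ≤ n → 4 * n ≤ (T.card : ℝ) ^ 2 →
    (ec (fun y z => E y z ∧ D.cl i y = D.cl i z) T T' : ℝ) / ec E T T' ≤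
      (∑ y ∈ T, if r ^ 20 ≤ D.sh i T y then (1 : ℝ) else 0) / (r ^ 20 * T.card) +
      2 * r ^ 2 * (∑ y ∈ T, ∑ z ∈ T.erase y, if D.cl i y = D.cl i z then (1 : ℝ) else 0) /
        (T.card : ℝ) ^ 2 +
      (∑ j ∈ range I, 8 / (r / 2 ^ j) ^ 3 *
        ((∑ y ∈ T', if D.sh i T y ≤ (r / 2 ^ j) ^ 20 then D.sh i T y else 0) / T'.card)) +
      ((∑ y ∈ T', if D.sh i T y ≤ (r / 2 ^ I) ^ 20 then D.sh i T y else 0) / T'.card) / e₀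

open Classical in
/-- the sum over all double cells -/
def SUM : Prop :=
  ∀ (X PL : Type) [DecidableEq X] (D : Dbl X PL) (E : X → X → Prop) (T T' : Finset X)
    (e₀ r n w h M W δ : ℝ) (I : ℕ), (∀ i, 0 ≤ D.om i) → Ext E T T' e₀ → 0 < e₀ → 0 < r → r ≤ 1 →
    0 ≤ W → 0 ≤ M → (T'.card : ℝ) ≤ n → 4 * n ≤ (T.card : ℝ) ^ 2 →
    (∀ y ∈ T, ∀ z ∈ T', E y z → w ≤ ∑ i, if D.cl i y = D.cl i z then D.om i else 0) →
    (∀ y ∈ T, (∑ i, if r ^ 20 ≤ D.sh i T y then D.om i else 0) ≤ h) →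
    (∀ y ∈ T, ∀ z ∈ T, y ≠ z → (∑ i, if D.cl i y = D.cl i z then D.om i else 0) ≤ M) →
    (∀ j < I, D.S T T' ((r / 2 ^ j) ^ 20) ≤ 600 * (r / 2 ^ j) ^ 5 * W) →
    D.S T T' ((r / 2 ^ I) ^ 20) ≤ δ * W →
    w ≤ h / r ^ 20 + 2 * r ^ 2 * M + 6400 * r ^ 2 * W + δ * W / e₀

/-- rarity between two disjoint sets -/
def RARE : Prop :=
  ∀ (X PL K : Type) [DecidableEq X] [Fintype PL] [Field K] (s : Sys X PL) (A : Ari X PL K)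
    (η : ℝ) (Z : Finset X) (R : PL → ℝ) (G : PL → X → ℝ) (W ε Λ ns c r : ℝ), A.Good s η →
    Cen s Z R G W ε → Conc s R Z W ε Λ ns → Prc c r ε Λ →
    ∀ (B B' : Finset X) (b : ℕ) (e₀ M M' ν ν' n : ℝ), B ⊆ Z → B' ⊆ Z → Disjoint B B' →
    (Z.card : ℝ) ≤ n → 0 < e₀ → e₀ ≤ 1 → (B.card : ℝ) ≤ M → (B'.card : ℝ) ≤ M' → 1 ≤ b →
    0 ≤ ν → 0 ≤ ν' → (∀ k ≤ b, A.Free B k ν) → (∀ k ≤ b, A.Free B' k ν') →
    Big (e₀ ^ 20 * M) r ns n ν b → ν' * (b + 1) ≤ e₀ ^ 20 * M' →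
    (1200 ≤ c * b * e₀ ∨ ∀ y ∈ B', A.Off B (b + 1) y) →
    (eB s R (c * W) B B' : ℝ) ≤ e₀ * (M * M')

/-- rarity inside one class -/
def SAME : Prop :=
  ∀ (X PL K : Type) [DecidableEq X] [Fintype PL] [Field K] (s : Sys X PL) (A : Ari X PL K)
    (η : ℝ) (Z : Finset X) (R : PL → ℝ) (G : PL → X → ℝ) (W ε Λ ns c r : ℝ), A.Good s η →
    Cen s Z R G W ε → Conc s R Z W ε Λ ns → Prc c r ε Λ →
    ∀ (B : Finset X) (b : ℕ) (e M ν n : ℝ), B ⊆ Z → (Z.card : ℝ) ≤ n → 0 < e → e ≤ 1 →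
    (B.card : ℝ) ≤ M → 1 ≤ b → 0 ≤ ν → (∀ k ≤ b, A.Free B k ν) → Big (e ^ 20 * M) r ns n ν b →
    (eB s R (c * W) B B : ℝ) ≤ (4800 / (c * b) + 4 * e) * M ^ 2

open Classical in
/-- rarity of the pairs that do not lie in one class, and of the pairs inside each class -/
def GEN : Prop :=
  ∀ (X PL K : Type) [DecidableEq X] [Fintype PL] [Field K] (s : Sys X PL) (A : Ari X PL K)
    (η : ℝ) (Z : Finset X) (R : PL → ℝ) (G : PL → X → ℝ) (W ε Λ ns c r : ℝ), A.Good s η →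
    Cen s Z R G W ε → Conc s R Z W ε Λ ns → Prc c r ε Λ →
    ∀ (Q : Finset X) (C : Finset (Finset X)) (β : Finset X → ℕ) (b : ℕ) (ν e n : ℝ),
    Cls A Q C β b ν → Z ⊆ Q → (Q.card : ℝ) ≤ n → 0 < e → e ≤ 1 → 1 ≤ b → 0 ≤ ν →
    Big (e ^ 20 * ν) r ns n (2 * (b : ℝ) ^ 2) b → 2 * b * ν * (b + 1) ≤ e ^ 20 * n → ν ≤ e * n →
    4800 ≤ c * b * e →
    ((((Z ×ˢ Z).filter fun p => p.1 ≠ p.2 ∧ c * W ≤ del s R p.1 p.2 ∧
        ¬ ∃ P ∈ C, p.1 ∈ P ∧ p.2 ∈ P).card : ℝ) ≤ 11 * e * n ^ 2) ∧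
    ∀ P ∈ C, (eB s R (c * W) (Z ∩ P) (Z ∩ P) : ℝ) ≤ (4800 / (c * β P) + 4 * e) * (P.card : ℝ) ^ 2

end Pool.Agent.MP_6c3157_co.PQ
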