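import Pool.Agent.MP_6c3157_co.PQ.SpecA

/-! Project PQ: interfaces shared by the parts B, C, D. -/

set_option autoImplicit false
set_option linter.unusedSectionVars false

noncomputable section

namespace Pool.Agent.MP_6c3157_co.PQ

open Finset Pool.Agent.MP_6c3157_co.PD

section defs

variable {X PL : Type} [DecidableEq X]

/-- the concave weight of a fibre with `k` points -/
def gf (κ : ℝ) (k : ℕ) : ℝ := min (k : ℝ) (κ * Real.sqrt k)

/-- the potential, as a sum over ordered pairs -/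
def Phi (lab : X → X → ℝ) (κ : ℝ) (Q : Finset X) : ℝ :=
  ∑ x ∈ Q, ∑ y ∈ Q.erase x, gf κ (fib lab Q x y).card / (fib lab Q x y).card

/-- number of ordered pairs -/
def Pr (Q : Finset X) : ℝ := (Q.card : ℝ) * (Q.card - 1)

/-- the claimed lower bound for the potential -/
def ph (a t : ℝ) : ℝ := (1 + Real.log t) ^ (-a)

variable [Fintype PL]

/-- height of the slope of a pair -/
def slp (s : Sys X PL) (R : PL → ℝ) (x y : X) : ℝ :=
  ∑ p, s.m p * max 0 (dep s R p x y - dep s R (s.bar p) x y)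

/-- distance of the depth vectors of `y` and `z` seen from the pin `x` -/
def dis (s : Sys X PL) (R : PL → ℝ) (x y z : X) : ℝ := ∑ p, s.m p * |dep s R p x y - dep s R p x z|

open Classical in
/-- ordered pairs in `A × B` with double depth at least `t` -/
def eB (s : Sys X PL) (R : PL → ℝ) (t : ℝ) (A B : Finset X) : ℕ :=
  ((A ×ˢ B).filter fun e => e.1 ≠ e.2 ∧ t ≤ del s R e.1 e.2).card

/-- concentration of truncated depths on large subsets of `Z` -/
def Conc (s : Sys X PL) (R : PL → ℝ) (Z : Finset X) (W ε Λ ns : ℝ) : Prop :=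
  ∀ C ⊆ Z, ns ≤ C.card → ∀ y ∈ Z, ∀ g : PL → ℝ, (∀ p, 0 ≤ g p) → ∑ p, s.m p * g p ≤ Λ * W →
    ∑ z ∈ C.erase y, ∑ p, s.m p * min (max 0 (dep s R p y z)) (g p) ≤ 8 * ε * W * C.card

/-- the radius below the huge cells -/
def bet (s : Sys X PL) (R L : PL → ℝ) (p : PL) : ℝ := R p * Real.exp (-L p) / (s.c p).lam

/-- the clean model -/
structure Cln (s : Sys X PL) (hv : ℕ × Finset X → Prop) (Z : Finset X) (R L : PL → ℝ)
    (G : PL → X → ℝ) (W ε Λ ns T : ℝ) : Prop where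
  cen : Cen s Z R G W ε
  L_lo : ∀ p, 0 ≤ L p
  L_sum : ∑ p, s.m p * L p ≤ ε * W
  far : ∀ p, ∀ x ∈ Z, ∃ z, bet s R L p ≤ (s.c p).d x z
  lt : ∀ p, ∀ x ∈ Z, (s.c p).W (fun i => ¬ hv i ∧ x ∈ i.2 ∧ bet s R L p ≤ (s.c p).ρ i) ≤
    L p + G p x + 3 * (s.c p).xi
  conc : Conc s R Z W ε Λ ns
  TW : T ≤ 20 * W
  WT : W ≤ 5 * T

end defs

end Pool.Agent.MP_6c3157_co.PQ
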