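import Pool.Agent.MP_6c3157_co.PQ.SpecJ

/-! Project PQ, row STEP: the assembly of one step. -/

set_option autoImplicit false

namespace Pool.Agent.MP_6c3157_co.PQ

open Finset Pool.Agent.MP_6c3157_co.PD

theorem Step.mono {X PL : Type} [DecidableEq X] [Fintype PL] {s : Sys X PL} {Z Z' : Finset X}
    {R : PL → ℝ} {G : PL → X → ℝ} {W ε Λ ns : ℝ} (h : Z' ⊆ Z) (hc : Cen s Z R G W ε)
    (ho : Conc s R Z W ε Λ ns) : Cen s Z' R G W ε ∧ Conc s R Z' W ε Λ ns :=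
  ⟨⟨hc.R_pos, hc.W_eq, hc.e_pos, hc.e_le, hc.eW, hc.G_lo, fun x hx => hc.G_sum x (h hx),
    fun p x hx y hy => hc.out p x (h hx) y (h hy)⟩,
    fun C hC hn y hy => ho C (hC.trans h) hn y (h hy)⟩

theorem step_of (h0 : LV0) (h1 : LV1) (hF : FINAL) (hC : CLS2) (hQ : CNQ) (hN : NUMJ) {e : ℝ}
    (he : 0 < e) (he' : e ≤ 1 / 10 ^ 124) : STEP := by
  have e1 : e ≤ 1 := he'.trans (by norm_num)
  refine ⟨11000, e ^ 122, by norm_num, by positivity, (pow_le_of_le_one he.le e1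
    (by norm_num)).trans (he'.trans (by unfold ep; norm_num)), ?_⟩
  intro X PL K _ _ _ s A η κ a Q Y h T q σ₁ u σ₃ n₀ γ j hA hη P S B
  have I : Ini s A η κ a e Q Y h T q σ₁ u σ₃ n₀ γ j := ⟨he, he', hA, hη, P, S, B⟩
  obtain ⟨-, u1, -, q100, -, uq, -⟩ := hN _ _ _ _ _ _ _ _ _ _ _ he he' P
  have hu := P.u_pos
  have u2 : u ≤ 1 := u1.trans (by norm_num)
  have q1 : (1 : ℝ) ≤ q := le_trans (by norm_num) q100
  have q0 : (0 : ℝ) < q := by linarith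
  have pq : ∀ k : ℕ, k ≤ 11000 → 1 ≤ u ^ k * q := fun k hk =>
    uq.trans (mul_le_mul_of_nonneg_right (pow_le_pow_of_le_one hu.le u2 hk) q0.le)
  have qn : ∀ k : ℕ, k ≤ 400 → (q : ℝ) ^ k ≤ Q.card := fun k hk =>
    (pow_le_pow_right₀ q1 hk).trans P.q_hi
  obtain ⟨Z₀, R₀, L₀, G₀, W₀, l0⟩ := h0 X PL K s A η κ a e Q Y h T q σ₁ u σ₃ n₀ γ j I
  have zq : Z₀ ⊆ Q := l0.sub.trans S.sub
  obtain ⟨C, β, c1, c2, c3⟩ := hC X PL K A hA.U_inj hA.V_inj Z₀ (q ^ 3) (Q.card / (q : ℝ) ^ 48) (by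
    rw [le_div_iff₀ (by positivity)]
    refine le_trans ?_ (qn 49 (by norm_num))
    rw [pow_succ' _ 48]
    exact mul_le_mul_of_nonneg_right (by linarith) (by positivity))
  have lc : Lvc A Q Z₀ q C β := ⟨c1, c2, c3⟩
  have k0 : ∀ Z ⊆ Z₀,
      Cnt A Z C β (fun y z => 1 / 2 * W₀ ≤ del s R₀ y z) ((q : ℝ) ^ 2) 9600 Q.card := by
    intro Z hZ
    obtain ⟨m1, m2⟩ := Step.mono hZ l0.cln.cen l0.cln.conc
    have := hQ X PL K s A η Q Z₀ Z q C β R₀ G₀ W₀ e ((q : ℝ) ^ 2) (1 / 2) (1 / 1000) hA hZ zq lc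
      m1 m2 (by norm_num) (by norm_num) (by norm_num) (by norm_num)
      (by linarith [show (800 : ℝ) * (1 / 10 ^ 124) ≤ 1 / 2 * (1 / 1000) ^ 40 by norm_num]) q100
      P.q_hi (by rw [← pow_add]; exact qn _ (by norm_num)) (by linarith)
      (by have : (1 : ℝ) ≤ (1 / 1000) ^ 20 * 10 ^ 100 := by norm_num
          exact this.trans (mul_le_mul_of_nonneg_left q100 (by positivity)))
    rwa [show (4800 : ℝ) / (1 / 2) = 9600 by norm_num] at this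
  obtain ⟨Z, hZ, z5, R, L, G, W, cl⟩ := h1 X PL K s A η κ a e Q Y h T q σ₁ u σ₃ n₀ γ j Z₀ R₀ L₀ G₀
    W₀ C β I l0 lc (k0 Z₀ Subset.rfl)
  have uu : u ^ 2 ≤ 1 / 10 ^ 100 := (pow_le_of_le_one hu.le u2 (by norm_num)).trans u1
  have u0 : 0 < u ^ 2 := by positivity
  refine hF X PL K s A η κ a e Q Y h T q σ₁ u σ₃ n₀ γ j Z₀ Z R₀ L₀ R L G₀ G W₀ W _ _ C β I l0 lc hZ
    z5 cl (k0 Z hZ) (hQ X PL K s A η Q Z₀ Z q C β R G W (u ^ 90) _ (u ^ 2 / 3) (u ^ 2) hA hZ zq lc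
      cl.cen cl.conc (by positivity) (by linarith) u0 (by nlinarith) ?_ q100 P.q_hi
      (by rw [div_mul_cancel₀ _ (by positivity)]) ?_ (by rw [← pow_mul]; exact pq _ (by norm_num)))
  · have a : u ^ 8 ≤ 1 / 10 ^ 100 := (pow_le_of_le_one hu.le u2 (by norm_num)).trans u1
    have b := mul_le_mul_of_nonneg_left a (show 0 ≤ u ^ 82 by positivity)
    have c : 0 ≤ u ^ 82 := by positivity
    rw [show u ^ 90 = u ^ 82 * u ^ 8 by ring, show u ^ 2 / 3 * (u ^ 2) ^ 40 = u ^ 82 / 3 by ring]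
    linarith
  · have a := pq 3 (by norm_num)
    have b := mul_le_mul_of_nonneg_left u1 (show 0 ≤ u ^ 2 * q by positivity)
    rw [show u ^ 3 * q = u ^ 2 * q * u by ring] at a
    linarith

theorem step (h0 : LV0) (h1 : LV1) (hF : FINAL) (hC : CLS2) (hQ : CNQ) (hN : NUMJ) : STEP :=
  step_of h0 h1 hF hC hQ hN (by positivity) le_rfl

end Pool.Agent.MP_6c3157_co.PQ
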