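import Pool.Agent.MP_6c3157_co.PQ.SpecG

/-! Project PQ, row SUBF: the subfibres exist. -/

set_option autoImplicit false

noncomputable section

namespace Pool.Agent.MP_6c3157_co.PQ

open Finset Pool.Agent.MP_6c3157_co.PD

namespace Subf

variable {X : Type} [DecidableEq X]

open Classical in
/-- indicator -/
def ι (p : Prop) : ℝ := if p then 1 else 0

theorem ι_pos {p : Prop} (h : p) : ι p = 1 := if_pos h

theorem ι_neg {p : Prop} (h : ¬ p) : ι p = 0 := if_neg h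

theorem ι_nn (p : Prop) : 0 ≤ ι p := by
  by_cases h : p
  · rw [ι_pos h]; exact zero_le_one
  · rw [ι_neg h]

theorem ι_mono {p q : Prop} (h : p → q) : ι p ≤ ι q := by
  by_cases k : p
  · rw [ι_pos k, ι_pos (h k)]
  · rw [ι_neg k]; exact ι_nn q

theorem card_ι {α : Type} (s : Finset α) (p : α → Prop) {_ : DecidablePred p} :
    ((s.filter p).card : ℝ) = ∑ a ∈ s, ι (p a) := by
  rw [card_filter]
  push_cast
  exact sum_congr rfl fun a _ => by unfold ι; congr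

theorem sum_er (Z : Finset X) (x : X) (p : X → Prop) :
    ∑ y ∈ Z, ι (y ≠ x ∧ p y) = ∑ y ∈ Z.erase x, ι (p y) := by
  rw [← sum_erase Z (a := x) (ι_neg fun h => h.1 rfl)]
  exact sum_congr rfl fun y hy => by rw [and_iff_right (mem_erase.1 hy).1]

theorem ed_eq (Z : Finset X) (H : X → X → Prop) :
    (ed Z H : ℝ) = ∑ x ∈ Z, ∑ y ∈ Z.erase x, ι (H x y) := by
  rw [ed, card_ι, sum_product]
  exact sum_congr rfl fun x _ => by rw [← sum_er]; simp only [ne_comm]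

theorem tc_eq (lab : X → X → ℝ) (Z : Finset X) (H : X → X → X → Prop) :
    (tc lab Z H : ℝ) = ∑ x ∈ Z, ∑ z ∈ Z.erase x, ∑ w ∈ Z.erase x,
      ι (z ≠ w ∧ lab x z = lab x w ∧ H x z w) := by
  rw [tc, card_ι, sum_product]
  refine sum_congr rfl fun x _ => ?_
  rw [sum_product, sum_comm]
  simp only [sum_er]
  rw [sum_comm]
  simp only [sum_er]

end Subf

open Subf in
theorem subf (h1 : PICK) (h2 : GFB) (h3 : FIB) : SUBF := by
  intro X _ lab Y Y₁ At Un Lw ζ κ z0 z1 hκ hU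
  classical
  have κ0 : 0 < κ := by linarith
  let Co : X → X → Finset X := fun x y => (fib lab Y x y).filter fun z => x ∈ Y ∧ z ∈ Y₁ ∧ ¬ Un x z
  let ok : X → X → Prop := fun x y =>
    κ ^ 2 < (fib lab Y x y).card ∧ ((fib lab Y x y).card : ℝ) ≤ 2 * (Co x y).card
  have mf : ∀ {x y z}, z ∈ fib lab Y x y ↔ (z ≠ x ∧ z ∈ Y) ∧ lab x z = lab x y := by
    intro x y z; rw [fib, mem_filter, mem_erase]
  have pk : ∀ x y, ∃ C' ⊆ Co x y, ok x y → ζ * (fib lab Y x y).card ≤ C'.card ∧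
      (ed C' Lw : ℝ) ≤ 2 * ζ * (C'.card : ℝ) ^ 2 := fun x y => by
    by_cases h : ok x y
    · obtain ⟨C', c1, c2⟩ := h1 X (Co x y) Lw ζ _ z0.le z1 h.2
        fun y₀ a y₁ b y₂ c e1 e2 e3 l1 l2 l3 => by
          obtain ⟨a1, a2, -, a3⟩ := mem_filter.1 a
          have a4 := mf.1 a1
          have b4 := mf.1 (mem_filter.1 b).1
          have c4 := mf.1 (mem_filter.1 c).1
          exact a3 (hU x a2 y₀ a4.1.2 y₁ b4.1.2 y₂ c4.1.2 a4.1.1 b4.1.1 c4.1.1 e1 e2 e3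
            (b4.2.trans a4.2.symm) (c4.2.trans a4.2.symm) l1 l2 l3)
      exact ⟨C', c1, fun _ => c2⟩
    · exact ⟨∅, empty_subset _, fun k => (h k).elim⟩
  choose sf s1 s2 using pk
  have s3 : ∀ x y, sf x y ⊆ fib lab Y x y := fun x y => (s1 x y).trans (filter_subset _ _)
  refine ⟨ok, sf, fun x _ y _ _ => ⟨s3 x y, fun z hz => (mem_filter.1 (s1 x y hz)).2.2.1⟩,
    fun x _ y _ h => ⟨(s2 x y h).1, h.1⟩, ?_, ?_⟩
  · refine le_trans ?_ (add_le_add (h2.2.2.2 X lab κ Y hκ).2.2.2.1 le_rfl)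
    rw [ed_eq, ed_eq, ed_eq, ← nsmul_eq_mul, ← sum_const, ← sum_add_distrib, mul_sum,
      ← sum_add_distrib]
    refine sum_le_sum fun x hx => ?_
    have k1 : ∑ z ∈ Y.erase x, ι (z ∉ Y₁) ≤ (Y \ Y₁).card := by
      rw [← card_ι]
      exact Nat.cast_le.2 (card_le_card fun z hz =>
        mem_sdiff.2 ⟨mem_of_mem_erase (mem_filter.1 hz).1, (mem_filter.1 hz).2⟩)
    refine le_trans ?_ (add_le_add le_rfl (mul_le_mul_of_nonneg_left (add_le_add k1 le_rfl)
      zero_le_two))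
    rw [← sum_add_distrib, ← (h3 X lab Y x).2 fun z => ι (z ∉ Y₁) + ι (Un x z), mul_sum,
      ← sum_add_distrib]
    refine sum_le_sum fun y hy => ?_
    have n0 : (0 : ℝ) < (fib lab Y x y).card :=
      Nat.cast_pos.2 (card_pos.2 ⟨y, mf.2 ⟨mem_erase.1 hy, rfl⟩⟩)
    have k2 : ((fib lab Y x y).card : ℝ) ≤ (Co x y).card +
        ∑ z ∈ fib lab Y x y, (ι (z ∉ Y₁) + ι (Un x z)) := by
      rw [card_ι, ← sum_add_distrib, card_eq_sum_ones]
      push_cast
      refine sum_le_sum fun z _ => ?_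
      have e1 := ι_nn (x ∈ Y ∧ z ∈ Y₁ ∧ ¬ Un x z)
      have e2 := ι_nn (z ∉ Y₁)
      have e3 := ι_nn (Un x z)
      by_cases a : z ∈ Y₁
      · by_cases b : Un x z
        · linarith [ι_pos b]
        · linarith [ι_pos (p := x ∈ Y ∧ z ∈ Y₁ ∧ ¬ Un x z) ⟨hx, a, b⟩]
      · linarith [ι_pos a]
    have k3 : 0 ≤ (∑ z ∈ fib lab Y x y, (ι (z ∉ Y₁) + ι (Un x z))) / (fib lab Y x y).card :=
      div_nonneg (sum_nonneg fun z _ => add_nonneg (ι_nn _) (ι_nn _)) n0.le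
    by_cases a : ((fib lab Y x y).card : ℝ) ≤ κ ^ 2
    · linarith [ι_mono (fun _ : ¬ ok x y => a)]
    by_cases b : ok x y
    · rw [ι_neg (not_not.2 b), ι_neg a]; linarith
    have c : ¬ ((fib lab Y x y).card : ℝ) ≤ 2 * (Co x y).card := fun c => b ⟨not_le.1 a, c⟩
    rw [ι_pos b, ι_neg a, zero_add, ← mul_div_assoc, le_div_iff₀ n0]
    linarith
  · rw [tc_eq, sum_div, sq (Y.card : ℝ), ← mul_assoc, mul_comm _ (Y.card : ℝ), ← nsmul_eq_mul,
      ← sum_const, ← sum_add_distrib]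
    refine sum_le_sum fun x hx => ?_
    have k1 : ∑ _y ∈ Y.erase x, 2 * ζ ≤ 2 * ζ * Y.card := by
      rw [sum_const, nsmul_eq_mul, mul_comm]
      exact mul_le_mul_of_nonneg_left (Nat.cast_le.2 card_erase_le) (by positivity)
    refine le_trans ?_ (add_le_add k1 le_rfl)
    rw [← (h3 X lab Y x).2 fun z => ∑ w ∈ Y.erase x,
      ι (z ≠ w ∧ lab x z = lab x w ∧ w ∈ At z ∧ ¬ Lw z w), sum_div, ← sum_add_distrib]
    refine sum_le_sum fun y hy => ?_
    obtain ⟨T, hT⟩ : ∃ T, T = ∑ z ∈ fib lab Y x y, ∑ w ∈ Y.erase x,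
      ι (z ≠ w ∧ lab x z = lab x w ∧ w ∈ At z ∧ ¬ Lw z w) := ⟨_, rfl⟩
    have T0 : 0 ≤ T := hT ▸ sum_nonneg fun _ _ => sum_nonneg fun _ _ => ι_nn _
    rw [← hT]
    split_ifs with h
    swap
    · positivity
    obtain ⟨a, b⟩ := s2 x y h
    have n0 : (0 : ℝ) < (fib lab Y x y).card := (sq_nonneg κ).trans_lt h.1
    have m0 : (0 : ℝ) < (sf x y).card := (mul_pos z0 n0).trans_le a
    have k2 : (ed (sf x y) fun z w => w ∈ At z : ℝ) ≤ ed (sf x y) Lw + T := by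
      have k3 : ∑ z ∈ sf x y, ∑ w ∈ (sf x y).erase z,
          ι (z ≠ w ∧ lab x z = lab x w ∧ w ∈ At z ∧ ¬ Lw z w) ≤ T := by
        rw [hT]
        refine (sum_le_sum fun z _ => sum_le_sum_of_subset_of_nonneg (fun w hw =>
          mem_erase.2 (mf.1 (s3 x y (mem_of_mem_erase hw))).1) fun _ _ _ => ι_nn _).trans
          (sum_le_sum_of_subset_of_nonneg (s3 x y) fun _ _ _ => sum_nonneg fun _ _ => ι_nn _)
      refine le_trans ?_ (add_le_add le_rfl k3)
      rw [ed_eq, ed_eq, ← sum_add_distrib]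
      refine sum_le_sum fun z hz => ?_
      rw [← sum_add_distrib]
      refine sum_le_sum fun w hw => ?_
      by_cases c : Lw z w
      · linarith [ι_mono (fun _ : w ∈ At z => c),
          ι_nn (z ≠ w ∧ lab x z = lab x w ∧ w ∈ At z ∧ ¬ Lw z w)]
      · rw [ι_neg c, zero_add]
        exact ι_mono fun d => ⟨(mem_erase.1 hw).1.symm,
          (mf.1 (s3 x y hz)).2.trans (mf.1 (s3 x y (mem_of_mem_erase hw))).2.symm, d, c⟩
    refine (div_le_div_of_nonneg_right (k2.trans (add_le_add b le_rfl)) (sq_nonneg _)).trans ?_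
    rw [add_div, mul_div_cancel_right₀ _ (pow_pos m0 2).ne', div_div]
    refine add_le_add le_rfl (div_le_div_of_nonneg_left T0 (by positivity) ?_)
    refine le_trans ?_ (pow_le_pow_left₀ (mul_pos z0 n0).le a 2)
    nlinarith [mul_le_mul_of_nonneg_left h.1.le (mul_pos n0 (pow_pos z0 2)).le]

end Pool.Agent.MP_6c3157_co.PQ
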