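import Pool.Agent.MP_6c3157_co.PQ.BasicB
import Pool.Agent.MP_6c3157_co.PD.Ubp

/-! Project PQ, row UBT: the second moment of the huge cells at one place. -/

set_option autoImplicit false

noncomputable section

namespace Pool.Agent.MP_6c3157_co.PQ

open Finset Pool.Agent.MP_6c3157_co.PD

namespace Ubt

variable {X : Type} [DecidableEq X] {c : Cells X} {hv : ℕ × Finset X → Prop} {Y : Finset X}
  {γ : Geo X} {τ : ℝ}

theorem rs_le (h : PT c hv Y γ τ) {i : ℕ × Finset X} (hi : i ∈ c.I)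
    (hs : ¬ c.small hv Y (τ / 2) i) {y : X} (hy : y ∈ Y) (hy' : y ∈ i.2) :
    γ.rs y ≤ c.lam ^ 2 * c.ρ i := by
  have hc := h.good
  have hl := hc.lam_pos
  have hρ := hc.rho_pos i hi
  have hY := h.geo.card_pos
  by_contra hlt
  have k := h.geo.s_min y hy _ (not_le.1 hlt)
  have big : ∃ z ∈ i.2, τ / 2 * Y.card ≤ ((c.ball Y z (c.lam * c.ρ i)).card : ℝ) := by
    by_cases h1 : hv i
    · refine ⟨y, hy', ?_⟩
      have a1 : (Y.card : ℝ) ≤ 4 * (Y ∩ i.2).card := by exact_mod_cast h.hvl i hi h1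
      have a2 : ((Y ∩ i.2).card : ℝ) ≤ (c.ball Y y (c.lam * c.ρ i)).card :=
        Nat.cast_le.2 (card_le_card (Cells.inter_subset_ball hc hi hy'))
      have a3 := mul_le_mul_of_nonneg_right h.t_le hY.le
      linarith
    · by_contra hn
      refine hs ⟨h1, fun z _ hz => not_le.1 fun e => hn ⟨z, hz, e⟩⟩
  obtain ⟨z, hz, e⟩ := big
  have sub : c.ball Y z (c.lam * c.ρ i) ⊆ c.ball Y y (c.lam ^ 2 * c.ρ i) := fun w hw => by
    obtain ⟨w1, w2⟩ := Cells.mem_ball.1 hw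
    refine Cells.mem_ball.2 ⟨w1, (hc.d_tri y z w).trans ?_⟩
    rw [sq, mul_assoc]
    exact mul_le_mul_of_nonneg_left (max_le (hc.c1 i hi y hy' z hz) w2) hl.le
  have := (Nat.cast_le (α := ℝ)).2 (card_le_card sub)
  linarith

theorem pt_le (h : PT c hv Y γ τ) {y : X} (hy : y ∈ Y) :
    c.W (fun i => (¬ c.small hv Y (τ / 2) i ∧ c.ρ i < γ.r / c.lam ^ 6) ∧ y ∈ i.2) ≤
      lz γ y + c.eta := by
  have hc := h.good
  have hl := hc.lam_pos
  have hr := h.geo.r_pos hc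
  have hs := h.geo.s_pos hc hy
  have lo : ∀ i ∈ c.I, ¬ c.small hv Y (τ / 2) i → y ∈ i.2 → γ.rs y / c.lam ^ 2 ≤ c.ρ i :=
    fun i hi a b => by rw [div_le_iff₀' (by positivity)]; exact rs_le h hi a hy b
  by_cases hb : γ.rs y / c.lam ^ 2 ≤ γ.r / c.lam ^ 6
  · refine le_trans (Cells.W_mono hc fun i hi a => ⟨a.2, lo i hi a.1.1 a.2, a.1.2⟩)
      ((hc.c2 y _ _ (by positivity) hb).trans (add_le_add ?_ le_rfl))
    refine le_trans (Real.log_le_log (by positivity) ?_) (le_max_right _ _)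
    have e : γ.r / c.lam ^ 6 / (γ.rs y / c.lam ^ 2) = γ.r / γ.rs y / c.lam ^ 4 := by field_simp
    rw [e]
    exact div_le_self (by positivity) (one_le_pow₀ hc.lam_lo)
  · rw [Cells.W_zero fun i hi a => hb ((lo i hi a.1.1 a.2).trans a.1.2.le)]
    exact add_nonneg (lz_nonneg _ _) hc.eta_lo

end Ubt

theorem ubt (hT : TUT) : UBT := by
  classical
  intro X _ c c' hv Y γ γ' τ h h' hlam
  have hc := h.good
  have hc' := h'.good
  have hl := hc.lam_pos
  have hr := h.geo.r_pos hc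
  have hYne : Y.Nonempty := ⟨_, h.geo.cen_mem⟩
  set B : X → Finset X := fun x => c'.ball Y x (γ'.rs x) with hB
  set φ : ℕ × Finset X → Prop := fun i => ¬ c.small hv Y (τ / 2) i ∧ c.ρ i < γ.r / c.lam ^ 6
    with hφ
  have step : τ ^ 2 / 4 * c.ulow hv Y (τ / 2) γ ≤
      c.WS φ (fun i => ((Y ∩ i.2).card : ℝ)) + ∑ x ∈ Y, ∑ y ∈ Y.erase x,
        c.W fun i => φ i ∧ x ∈ i.2 ∧ y ∈ i.2 ∧ (B x ∩ B y).Nonempty := by
    have e : ∑ x ∈ Y, ∑ y ∈ Y.erase x,
        c.W (fun i => φ i ∧ x ∈ i.2 ∧ y ∈ i.2 ∧ (B x ∩ B y).Nonempty) =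
        c.WS φ fun i => ∑ x ∈ Y, ∑ y ∈ Y.erase x,
          if x ∈ i.2 ∧ y ∈ i.2 ∧ (B x ∩ B y).Nonempty then (1 : ℝ) else 0 := by
      rw [Cells.WS_sum]
      refine sum_congr rfl fun x _ => ?_
      rw [Cells.WS_sum]
      refine sum_congr rfl fun y _ => ?_
      rw [← Cells.WS_ite fun i => x ∈ i.2 ∧ y ∈ i.2 ∧ (B x ∩ B y).Nonempty]
      refine Cells.WS_congr (fun _ _ => Iff.rfl) fun i _ _ => ?_
      congr
    rw [e, ← Cells.WS_add]
    unfold Cells.ulow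
    rw [← Cells.WS_mul]
    refine Cells.WS_le hc fun i _ _ => ?_
    refine (hT X Y (Y ∩ i.2) B τ hYne h.t_pos.le fun x hx =>
      ⟨Cells.ball_subset, h'.geo.s_in x (mem_inter.1 hx).1⟩).trans (add_le_add le_rfl ?_)
    refine le_trans (sum_le_sum fun x hx => ?_)
      (sum_le_sum_of_subset_of_nonneg inter_subset_left fun x _ _ =>
        sum_nonneg fun y _ => by split_ifs <;> norm_num)
    refine le_trans (sum_le_sum fun y hy => ?_)
      (sum_le_sum_of_subset_of_nonneg (erase_subset_erase x inter_subset_left) fun y _ _ => by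
        split_ifs <;> norm_num)
    have h1 := (mem_inter.1 hx).2
    have h2 := (mem_inter.1 (mem_erase.1 hy).2).2
    by_cases h3 : (B x ∩ B y).Nonempty <;> simp [h1, h2, h3]
  refine step.trans ?_
  rw [add_comm]
  refine add_le_add ?_ ?_
  · have e : ∑ x ∈ Y, ∑ y ∈ Y.erase x, (2 * min (err c c' γ γ' x y) (lz γ x) + c.eta) =
        ∑ x ∈ Y, ∑ y ∈ Y.erase x, (min (err c c' γ γ' x y) (lz γ x) +
          min (err c c' γ γ' y x) (lz γ y) + c.eta) := by
      simp only [two_mul, sum_add_distrib]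
      rw [sum_erase_comm Y fun x y => min (err c c' γ γ' y x) (lz γ y)]
    rw [e]
    refine sum_le_sum fun x hx => sum_le_sum fun y hy => ?_
    have hxy : x ≠ y := (mem_erase.1 hy).1.symm
    have n1 : 0 ≤ min (err c c' γ γ' x y) (lz γ x) :=
      le_min (err_nonneg _ _ _ _ _ _) (lz_nonneg _ _)
    have n2 : 0 ≤ min (err c c' γ γ' y x) (lz γ y) :=
      le_min (err_nonneg _ _ _ _ _ _) (lz_nonneg _ _)
    by_cases h3 : (B x ∩ B y).Nonempty
    · obtain ⟨z, hz⟩ := h3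
      have z1 := (Cells.mem_ball.1 (mem_inter.1 hz).1).2
      have z2 := (Cells.mem_ball.1 (mem_inter.1 hz).2).2
      have t := hc'.d_tri x z y
      rw [hc'.d_symm z y] at t
      rcases le_total (γ'.rs y) (γ'.rs x) with h4 | h4
      · have k := ubp_pair (γ := γ) (γ' := γ') hc hc' hlam hr hxy
          (t.trans (mul_le_mul_of_nonneg_left (max_le z1 (z2.trans h4)) hc'.lam_pos.le))
        have k' := Cells.W_mono hc
          (φ := fun i => φ i ∧ x ∈ i.2 ∧ y ∈ i.2 ∧ (B x ∩ B y).Nonempty)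
          (ψ := fun i => x ∈ i.2 ∧ y ∈ i.2 ∧ c.ρ i < γ.r / c.lam ^ 6)
          fun i _ hi => ⟨hi.2.1, hi.2.2.1, hi.1.2⟩
        have l := Ubt.pt_le h hx
        have l' := Cells.W_mono hc
          (φ := fun i => φ i ∧ x ∈ i.2 ∧ y ∈ i.2 ∧ (B x ∩ B y).Nonempty)
          (ψ := fun i => φ i ∧ x ∈ i.2) fun i _ hi => ⟨hi.1, hi.2.1⟩
        have m : c.W (fun i => φ i ∧ x ∈ i.2 ∧ y ∈ i.2 ∧ (B x ∩ B y).Nonempty) - c.eta ≤
            min (err c c' γ γ' x y) (lz γ x) := le_min (by linarith) (by linarith)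
        linarith
      · rw [hc'.d_symm x y] at t
        have k := ubp_pair (γ := γ) (γ' := γ') hc hc' hlam hr hxy.symm
          (t.trans (mul_le_mul_of_nonneg_left (max_le (z1.trans h4) z2) hc'.lam_pos.le))
        have k' := Cells.W_mono hc
          (φ := fun i => φ i ∧ x ∈ i.2 ∧ y ∈ i.2 ∧ (B x ∩ B y).Nonempty)
          (ψ := fun i => y ∈ i.2 ∧ x ∈ i.2 ∧ c.ρ i < γ.r / c.lam ^ 6)
          fun i _ hi => ⟨hi.2.2.1, hi.2.1, hi.1.2⟩
        have l := Ubt.pt_le h (mem_erase.1 hy).2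
        have l' := Cells.W_mono hc
          (φ := fun i => φ i ∧ x ∈ i.2 ∧ y ∈ i.2 ∧ (B x ∩ B y).Nonempty)
          (ψ := fun i => φ i ∧ y ∈ i.2) fun i _ hi => ⟨hi.1, hi.2.2.1⟩
        have m : c.W (fun i => φ i ∧ x ∈ i.2 ∧ y ∈ i.2 ∧ (B x ∩ B y).Nonempty) - c.eta ≤
            min (err c c' γ γ' y x) (lz γ y) := le_min (by linarith) (by linarith)
        linarith
    · rw [Cells.W_zero fun i _ hi => h3 hi.2.2.2]
      linarith [hc.eta_lo]
  · rw [← Cells.sum_W]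
    exact sum_le_sum fun y hy => Ubt.pt_le h hy

end Pool.Agent.MP_6c3157_co.PQ
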