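import Pool.Agent.MP_6c3157_co.PQ.BasicB

/-! Project PQ, row WTS: the height against the central radii. -/

set_option autoImplicit false
set_option linter.unusedSectionVars false

noncomputable section

namespace Pool.Agent.MP_6c3157_co.PQ

open Finset Pool.Agent.MP_6c3157_co.PD

theorem wts (hO : OUP) : WTS := by
  intro X PL _ _ s hv Y h T η ε γ hct he0 he1 t1 t3 x hx y hy hxy gx gy
  have hs := hct.ctx.good
  have he2 : ε ≤ 1 / 10 ^ 9 := he1.trans (by norm_num)
  have he3 : ε ≤ 1 := he1.trans (by norm_num)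
  have hT0 : 0 < T := by linarith [hct.ctx.Tlo]
  have hp : ∀ k : ℕ, ε ^ (k + 1) * T ≤ 1 / 10 ^ 9 * T := fun k => by
    refine mul_le_mul_of_nonneg_right ?_ hT0.le
    rw [pow_succ]
    exact (mul_le_of_le_one_left he0.le (pow_le_one₀ he0.le he3)).trans he2
  have h1 : s.O hv x y ≤ ∑ p, s.m p * (Real.log (γ p).r - Real.log ((s.c p).d x y) +
      3 * (s.c p).G (γ p) x + (s.c p).G (γ p) y + hl (s.c p) hv (γ p) + 8 * (s.c p).xi) := by
    refine hs.sum_le fun p => ?_
    rw [← Real.log_div ((hct.geo p).r_pos (hs.good p)).ne' ((hs.good p).d_pos hxy).ne']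
    exact hO X (s.c p) hv Y (γ p) (ε ^ 2) (hct.pt p) x hx y hy hxy
  have h2 : ∑ p, s.m p * (Real.log (γ p).r - Real.log ((s.c p).d x y) +
      3 * (s.c p).G (γ p) x + (s.c p).G (γ p) y + hl (s.c p) hv (γ p) + 8 * (s.c p).xi) =
      (∑ p, s.m p * Real.log (γ p).r) - (∑ p, s.m p * Real.log ((s.c p).d x y)) +
        3 * gs s γ x + gs s γ y + (∑ p, s.m p * hl (s.c p) hv (γ p)) +
        8 * ∑ p, s.m p * (s.c p).xi := by
    unfold gs
    rw [mul_sum, mul_sum, ← sum_sub_distrib, ← sum_add_distrib, ← sum_add_distrib,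
      ← sum_add_distrib, ← sum_add_distrib]
    exact sum_congr rfl fun p _ => by ring
  rw [h2, hs.pf x y hxy] at h1
  have h3 := hct.ctx.Thi x hx y hy hxy
  have h4 := hs.xi_sum
  have h5 := hp 0
  have h6 := hp 1
  have h7 := hp 4
  rw [zero_add, pow_one] at h5
  norm_num at h5 h6 h7
  linarith

end Pool.Agent.MP_6c3157_co.PQ
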